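import Pool.Agent.H670R4.Stm
import Pool.Agent.ER.Hard

/-!
Assembly.
-/

namespace Pool.Agent.H670R4

open Pool.Agent.NPC Pool.Agent.NPC.ER Pool.Agent.H670R2

/-- all the steps -/
structure AllSteps : Prop where
  loc : St_loc
  pend : St_pend
  pat : St_pat
  wall : St_wall
  lor : St_lor
  sign : St_sign
  wire : St_wire
  row : St_row
  snd : St_snd
  cone : St_cone
  uv : St_uv
  cedge : St_cedge
  cgg : St_cgg
  cgq : St_cgq
  cqq : St_cqq
  cend : St_cend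
  cpen : St_cpen
  list : St_list
  conn : St_conn
  ply : St_ply
  disk : St_disk
  mem : St_mem
  lok : St_lok
  pS : St_pS
  pC : St_pC
  val : St_val
  as : St_as
  rev : St_rev
  num : St_num
  slot : St_slot
  prd : St_prd
  ac : St_ac
  p1 : St_p1
  p2 : St_p2

variable (H : AllSteps)
include H

theorem snd_of_pen {Λ : Lay} (hΛ : Λ.Ok) {p : Vt → ℂ} (hp : Pen Λ p) : ∃ u, Snd Λ u := by
  obtain ⟨p', hp', hpos⟩ := H.sign H.loc H.lor H.pat Λ hΛ p hp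
  obtain ⟨w, hw⟩ := H.wire H.loc H.wall Λ hΛ p' hp' hpos
  exact ⟨w, H.snd H.loc H.pend Λ hΛ p' hp' hpos w hw (H.row Λ hΛ p' hp' hpos w hw)⟩

theorem pen_of_cmp {Λ : Lay} (hΛ : Λ.Ok) {u : ℕ → ℂ} (hu : Cmp Λ u) : ∃ p, Pen Λ p := by
  have hv := H.uv H.cone Λ hΛ u hu
  refine ⟨ps Λ u, H.cedge Λ hΛ u hu hv, ?_⟩
  intro x y hx hy hxy
  have vx := H.list.val Λ hΛ x hx
  have vy := H.list.val Λ hΛ y hy
  have hend := H.cend H.cone Λ hΛ u hu hv
  have hpen := H.cpen H.cone Λ hΛ u hu hv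
  cases x with
  | lo i => exact (hend i vx.1 vx.2 y vy).1 (Ne.symm hxy)
  | hi i => exact (hend i vx.1 vx.2 y vy).2 (Ne.symm hxy)
  | g i j =>
      cases y with
      | lo i' => rw [dist_comm]; exact (hend i' vy.1 vy.2 _ vx).1 hxy
      | hi i' => rw [dist_comm]; exact (hend i' vy.1 vy.2 _ vx).2 hxy
      | g i' j' =>
          exact H.cgg H.cone Λ hΛ u hu hv i j i' j' vx vy (by
            intro h
            simp only [Prod.mk.injEq] at h
            exact hxy (by rw [h.1, h.2]))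
      | q β t m r => exact H.cgq H.cone Λ hΛ u hu hv i j β t m r vx vy
      | pe t => rw [dist_comm]; exact (hpen t vy.1 vy.2).1 i j vx
  | q β t m r =>
      cases y with
      | lo i' => rw [dist_comm]; exact (hend i' vy.1 vy.2 _ vx).1 hxy
      | hi i' => rw [dist_comm]; exact (hend i' vy.1 vy.2 _ vx).2 hxy
      | g i' j' => rw [dist_comm]; exact H.cgq H.cone Λ hΛ u hu hv i' j' β t m r vy vx
      | q β' t' m' r' => exact H.cqq H.cone Λ hΛ u hu hv β t m r β' t' m' r' vx vy hxy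
      | pe t' => rw [dist_comm]; exact (hpen t' vy.1 vy.2).2.1 β t m r vx
  | pe t =>
      cases y with
      | lo i' => rw [dist_comm]; exact (hend i' vy.1 vy.2 _ vx).1 hxy
      | hi i' => rw [dist_comm]; exact (hend i' vy.1 vy.2 _ vx).2 hxy
      | g i' j' => exact (hpen t vx.1 vx.2).1 i' j' vy
      | q β' t' m' r' => exact (hpen t vx.1 vx.2).2.1 β' t' m' r' vy
      | pe t' =>
          exact (hpen t vx.1 vx.2).2.2 t' vy.1 vy.2 (by
            intro h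
            exact hxy (by rw [h]))

/-! ### Graphs -/

omit H in
theorem fgr_length (Λ : Lay) : (fgr Λ).length = nV Λ := adjLists_length _ _

omit H in
theorem E.live {Λ : Lay} {x y : Vt} (h : E Λ x y) : Live Λ x ∧ Live Λ y :=
  ⟨⟨y, Or.inl h⟩, ⟨x, Or.inr h⟩⟩

theorem mem_fgr {Λ : Lay} (hΛ : Λ.Ok) {u v : ℕ} (hu : u < (fgr Λ).length) :
    v ∈ (fgr Λ).getD u [] ↔ ∃ x y, (E Λ x y ∨ E Λ y x) ∧ u = code Λ x ∧ v = code Λ y := by
  rw [fgr_length] at hu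
  rw [fgr, mem_adjLists hu]
  constructor
  · rintro ⟨hv, h | h⟩
    · obtain ⟨a, b, hab, he⟩ := (H.list.mem Λ hΛ _).1 h
      simp only [Prod.mk.injEq] at he
      exact ⟨a, b, Or.inl hab, he.1, he.2⟩
    · obtain ⟨a, b, hab, he⟩ := (H.list.mem Λ hΛ _).1 h
      simp only [Prod.mk.injEq] at he
      exact ⟨b, a, Or.inr hab, he.2, he.1⟩
  · rintro ⟨a, b, h, rfl, rfl⟩
    have hb : Live Λ b := by
      rcases h with h | h
      · exact h.live.2
      · exact h.live.1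
    refine ⟨H.list.lt Λ hΛ b (H.list.val Λ hΛ b hb), ?_⟩
    rcases h with h | h
    · exact Or.inl ((H.list.mem Λ hΛ _).2 ⟨a, b, h, rfl⟩)
    · exact Or.inr ((H.list.mem Λ hΛ _).2 ⟨b, a, h, rfl⟩)

theorem code_lt {Λ : Lay} (hΛ : Λ.Ok) {x : Vt} (h : Live Λ x) : code Λ x < (fgr Λ).length := by
  rw [fgr_length]
  exact H.list.lt Λ hΛ x (H.list.val Λ hΛ x h)

theorem code_inj {Λ : Lay} (hΛ : Λ.Ok) {x y : Vt} (hx : Live Λ x) (hy : Live Λ y)
    (h : code Λ x = code Λ y) : x = y :=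
  H.list.inj Λ hΛ x y (H.list.val Λ hΛ x hx) (H.list.val Λ hΛ y hy) h

theorem isGraph_fgr {Λ : Lay} (hΛ : Λ.Ok) : IsGraph (fgr Λ) := by
  intro u v hu hv
  obtain ⟨a, b, h, rfl, rfl⟩ := (mem_fgr H hΛ hu).1 hv
  have hl : Live Λ a ∧ Live Λ b := by
    rcases h with h | h
    · exact h.live
    · exact ⟨h.live.2, h.live.1⟩
  have hb := code_lt H hΛ hl.2
  refine ⟨hb, ?_, ?_⟩
  · intro he
    have h1 := code_inj H hΛ hl.2 hl.1 he
    rcases h with h | h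
    · exact H.list.ne Λ hΛ a b h h1.symm
    · exact H.list.ne Λ hΛ b a h h1
  · exact (mem_fgr H hΛ hb).2 ⟨b, a, h.symm, rfl, rfl⟩

theorem exists_pos {Λ : Lay} (hΛ : Λ.Ok) (P : Vt → ℂ) :
    ∃ p : ℕ → ℂ, ∀ x, Live Λ x → p (code Λ x) = P x := by
  classical
  refine ⟨fun n => if h : ∃ a, Live Λ a ∧ code Λ a = n then P h.choose else 0, ?_⟩
  intro a ha
  have h : ∃ b, Live Λ b ∧ code Λ b = code Λ a := ⟨a, ha, rfl⟩
  dsimp only
  rw [dif_pos h, code_inj H hΛ h.choose_spec.1 ha h.choose_spec.2]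

theorem live_of_ne {Λ : Lay} (hΛ : Λ.Ok) {u : ℕ} (hu : u < (fgr Λ).length)
    (h : (fgr Λ).getD u [] ≠ []) : ∃ a, Live Λ a ∧ u = code Λ a := by
  obtain ⟨v, hv⟩ := List.exists_mem_of_ne_nil _ h
  obtain ⟨a, b, hab, h1, -⟩ := (mem_fgr H hΛ hu).1 hv
  exact ⟨a, ⟨b, hab⟩, h1⟩

theorem ply_iff {Λ : Lay} (hΛ : Λ.Ok) :
    plyNumber (graphOf (fgr Λ) (isGraph_fgr H hΛ)) ≤ 1 ↔ ∃ p, Pen Λ p := by
  have hmem : ∀ x y, (E Λ x y ∨ E Λ y x) → code Λ y ∈ (fgr Λ).getD (code Λ x) [] := by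
    intro x y h
    exact (mem_fgr H hΛ (code_lt H hΛ ⟨y, h⟩)).2 ⟨x, y, h, rfl, rfl⟩
  constructor
  · intro h
    obtain ⟨p, hp1, hp2⟩ := H.ply.fwd (fgr Λ) (isGraph_fgr H hΛ) h (by
      intro f hf u hu v hv hu' hv'
      obtain ⟨x, hx, rfl⟩ := live_of_ne H hΛ hu hu'
      obtain ⟨y, hy, rfl⟩ := live_of_ne H hΛ hv hv'
      refine H.conn Λ hΛ (fun z => f (code Λ z)) ?_ x y hx hy
      intro a b hab
      exact hf _ (code_lt H hΛ hab.live.1) _ (hmem a b (Or.inl hab)))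
    refine ⟨fun x => p (code Λ x), ?_, ?_⟩
    · intro x y hxy
      exact hp1 _ (code_lt H hΛ hxy.live.1) _ (hmem x y (Or.inl hxy))
    · intro x y hx hy hxy
      refine hp2 _ (code_lt H hΛ hx) _ (code_lt H hΛ hy) ?_ ?_ ?_
      · obtain ⟨z, hz⟩ := hx
        exact List.ne_nil_of_mem (hmem x z hz)
      · obtain ⟨z, hz⟩ := hy
        exact List.ne_nil_of_mem (hmem y z hz)
      · exact fun h => hxy (code_inj H hΛ hx hy h)
  · rintro ⟨P, hP⟩
    obtain ⟨p, hp⟩ := exists_pos H hΛ P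
    refine H.ply.bwd _ _ p ?_ ?_
    · intro u hu v hv
      obtain ⟨x, y, hxy, rfl, rfl⟩ := (mem_fgr H hΛ hu).1 hv
      rcases hxy with h | h
      · rw [hp x h.live.1, hp y h.live.2]
        exact hP.edge x y h
      · rw [hp x h.live.2, hp y h.live.1, dist_comm]
        exact hP.edge y x h
    · intro u hu v hv hu' hv' huv
      obtain ⟨x, hx, rfl⟩ := live_of_ne H hΛ hu hu'
      obtain ⟨y, hy, rfl⟩ := live_of_ne H hΛ hv hv'
      rw [hp x hx, hp y hy]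
      exact hP.far x y hx hy (by rintro rfl; exact huv rfl)

/-! ### Hardness -/

omit H in
/-- the reduction -/
def redP (m : ℕ) (es : List EC) : List (List ℕ) :=
  fgr (layOf (nW m es) (prog (nW m es) (hAll m es)))

theorem redP_correct {m : ℕ} {es : List EC} (hb : ∀ e ∈ es, e.below m) :
    ∃ h : IsGraph (redP m es),
      ((∃ y : ℕ → ℝ, (∀ i, |y i| ≤ 1 / 8) ∧ ∀ e ∈ es, ecH y e) →
        plyNumber (graphOf _ h) ≤ 1) ∧
      (plyNumber (graphOf _ h) ≤ 1 → ∃ y : ℕ → ℝ, ∀ e ∈ es, ecH y e) := by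
  obtain ⟨hn, hv⟩ := H.val m es hb
  have hΛ := H.lok _ _ hn hv
  refine ⟨isGraph_fgr H hΛ, ?_, ?_⟩
  · rintro ⟨y, hy, hy'⟩
    obtain ⟨u, h1, h2, h3, h4⟩ := H.ac H.slot H.prd H.rev H.num m es hb y hy hy'
    exact (ply_iff H hΛ).2 (pen_of_cmp H hΛ (H.pC _ _ hn hv u h1 h2 h3 h4))
  · intro h
    obtain ⟨p, hp⟩ := (ply_iff H hΛ).1 h
    obtain ⟨u, hu⟩ := snd_of_pen H hΛ hp
    exact H.as m es hb u hu.nrm hu.ang (H.pS _ _ hn hv u hu)

end Pool.Agent.H670R4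

namespace Pool.Agent.NPC.H670R2

open Pool.Agent.NPC Pool.Agent.NPC.ER Pool.Agent.H670R2 Pool.Agent.H670R4

theorem norm_bnd_fwd {S : List Con} {w : ℕ → ℝ} (hw : ∀ i, |w i| ≤ 1 / 8)
    (h : ∀ c ∈ S, c.HoldsC (1 / 8) w) :
    ∃ y : ℕ → ℝ, (∀ i, |y i| ≤ 1 / 8) ∧ ∀ e ∈ norm S, ecH y e := by
  refine ⟨fun i => w ((occ S).getD i 0), fun i => hw _, ?_⟩
  intro e he
  simp only [norm, List.mem_map] at he
  obtain ⟨c, hc, rfl⟩ := he
  have hp : ∀ i ∈ c.vars, (occ S).getD (pos (occ S) i) 0 = i := fun i hi =>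
    (pos_spec (List.mem_flatMap.2 ⟨c, hc, hi⟩)).1
  have h := h c hc
  cases c <;> simp only [Con.vars, List.mem_cons, List.not_mem_nil, or_false] at hp <;>
    simp only [ren, ecH, Con.HoldsC] at h ⊢
  · rw [hp _ rfl]; exact h
  · rw [hp _ (Or.inl rfl), hp _ (Or.inr (Or.inl rfl)), hp _ (Or.inr (Or.inr rfl))]; exact h
  · rw [hp _ (Or.inl rfl), hp _ (Or.inr (Or.inl rfl)), hp _ (Or.inr (Or.inr rfl))]; exact h

theorem norm_bnd_bwd {S : List Con} (h : ∃ y : ℕ → ℝ, ∀ e ∈ norm S, ecH y e) :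
    ∃ w : ℕ → ℝ, ∀ c ∈ S, c.HoldsC (1 / 8) w := by
  obtain ⟨x, hx⟩ := h
  refine ⟨fun i => x (pos (occ S) i), ?_⟩
  intro c hc
  have h := hx (ren (occ S) c) (List.mem_map.2 ⟨c, hc, rfl⟩)
  cases c <;> exact h

theorem poly_redP (H : AllSteps) {α : Type} [TEnc α] {m : α → ℕ} {es : α → List EC}
    (hm : UPoly m) (he : Poly es) : Poly (fun a => redP (m a) (es a)) := by
  obtain ⟨h1, h2⟩ := H.p2 α inferInstance m es hm he
  exact H.p1 α inferInstance _ _ h1 h2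

theorem ply_hard (H : AllSteps) : ERHard PLY := by
  refine ERHard.of_sys (P := fun x : List (List ℕ) × ℕ => ∃ h : IsGraph x.1,
    plyNumber (graphOf x.1 h) ≤ x.2)
    (f := fun S => (redP (occ (bsys S)).length (norm (bsys S)), 1))
    (Poly.pair (poly_redP H (UPoly.length (poly_occ (poly_bsys Poly.id)))
      (poly_norm (poly_bsys Poly.id))) (Poly.const 1)) ?_
  intro S
  obtain ⟨h, h1, h2⟩ := redP_correct H (norm_below (bsys S))
  constructor
  · intro hS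
    obtain ⟨w, hw, hw'⟩ := bsys_of_sat hS
    exact ⟨h, h1 (norm_bnd_fwd hw hw')⟩
  · rintro ⟨_, h3⟩
    obtain ⟨w, hw⟩ := norm_bnd_bwd (h2 h3)
    exact sat_of_bsys hw

theorem ply_complete (H : AllSteps) : ERComplete PLY := ⟨H.mem H.disk H.ply, ply_hard H⟩

end Pool.Agent.NPC.H670R2
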