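import Pool.Agent.H670R4.Asm

/-!
Hardness for `k = 1`.
-/

namespace Pool.Agent.NPC.H670R2

open Pool.Agent.NPC Pool.Agent.NPC.ER Pool.Agent.H670R2 Pool.Agent.H670R4

/-- every problem of the class `∃ℝ` reduces to the question whether the ply number is at most
one -/
theorem ply_hard1 (H : AllSteps) (L : Set (List Bool)) (hL : InER L) :
    ∃ f : List Bool → List (List ℕ), PolyTime (fun w => bits (f w)) ∧
      ∀ w, ∃ h : IsGraph (f w), (w ∈ L ↔ plyNumber (graphOf (f w) h) ≤ 1) := by
  obtain ⟨g, hg, hL⟩ := hL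
  obtain ⟨F, hF⟩ : ∃ F : List Con → List (List ℕ),
      F = fun S => redP (occ (bsys S)).length (norm (bsys S)) := ⟨_, rfl⟩
  have h1 : PC (id : List Bool → List Bool) (bits : Fm → List Bool) g :=
    Pool.Agent.H642R2.TMSim.polyTime_toPC hg
  have hp : Pool.Agent.NPC.Poly F := by
    rw [hF]
    exact poly_redP H (UPoly.length (poly_occ (poly_bsys Poly.id)))
      (poly_norm (poly_bsys Poly.id))
  have h2 : Pool.Agent.NPC.Poly (fun φ : Fm => F (sysOf φ)) :=
    Pool.Agent.NPC.Poly.comp hp (poly_sysOf Pool.Agent.NPC.Poly.id)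
  have h3 : PC (id : List Bool → List Bool) (bits : List (List ℕ) → List Bool)
      (fun x => F (sysOf (g x))) :=
    PC.comp (g := fun φ : Fm => F (sysOf φ)) (eb := (bits : Fm → List Bool)) h2 h1
  have h4 : PC (id : List Bool → List Bool) (id : List Bool → List Bool)
      (fun x => bits (F (sysOf (g x)))) := h3
  refine ⟨fun x => F (sysOf (g x)), PC.toPolyTime h4, fun x => ?_⟩
  have hFx : F (sysOf (g x)) = redP (occ (bsys (sysOf (g x)))).length
    (norm (bsys (sysOf (g x)))) := by rw [hF]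
  dsimp only
  rw [hFx]
  obtain ⟨h, h5, h6⟩ := redP_correct H (norm_below (bsys (sysOf (g x))))
  refine ⟨h, ?_⟩
  rw [hL, ← sat_sysOf]
  constructor
  · intro hS
    obtain ⟨w, hw, hw'⟩ := bsys_of_sat hS
    exact h5 (norm_bnd_fwd hw hw')
  · intro h3
    obtain ⟨w, hw⟩ := norm_bnd_bwd (h6 h3)
    exact sat_of_bsys hw

end Pool.Agent.NPC.H670R2
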