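import Pool.Agent.H670R2.Graph
import Mathlib

/-!
# The graphs of the reduction

A *layout* consists of `n` wires and `T` levels.  The graph is a grid of `7 T` rows and `6 (2 n + 1)`
columns of unit rhombi with modifications:

* the columns form `nb = 2 n + 1` blocks of six columns (called `d1 c1 c2 c3 d2 x`); the block `n`
  is the middle block, the block `i < n` and the block `n + 1 + i` belong to the wire `i`;
* in the level `t` (rows `7 t, …, 7 t + 6`) the blocks `a t` and `n + 1 + b t` (and the middle block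
  if `k t = 1`) are *patched*: the grid points strictly inside the first five columns are removed and
  seven rows of three vertices of a triangular lattice are put there;
* in the middle block there are *holes*: `k t = 2` (wide, the vertices on the line `6 n + 3` are
  removed), `k t = 3, 4` (narrow, the horizontal edges of the column `6 n + 2` are removed; if
  `k t = 4`, then there is a pendant vertex in the hole);
* rows of triangles at the bottom and at the top of each block.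
-/

namespace Pool.Agent.H670R4

open Pool.Agent.H670R2

structure Lay where
  n : ℕ
  T : ℕ
  a : ℕ → ℕ
  b : ℕ → ℕ
  k : ℕ → ℕ

variable (Λ : Lay)

/-- number of blocks -/
def Lay.nb : ℕ := 2 * Λ.n + 1

/-- kind of hole in the level `t`: `0` none, `1` wide, `2` narrow -/
def Lay.cl (t : ℕ) : ℕ := if Λ.k t = 2 then 1 else if 3 ≤ Λ.k t then 2 else 0

/-- the block `β` is patched in the level `t` -/
def Lay.pat (t β : ℕ) : Bool :=
  decide (β = Λ.a t) || (decide (β = Λ.n + 1 + Λ.b t) || (decide (β = Λ.n) && decide (Λ.k t = 1)))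

/-- the row `j` is strictly inside a hole of kind `c` -/
def Lay.ins (c j : ℕ) : Bool :=
  if j % 7 = 0 then decide (0 < j / 7) && (decide (Λ.cl (j / 7 - 1) = c) && decide (Λ.cl (j / 7) = c))
  else decide (Λ.cl (j / 7) = c)

/-- the grid point `(i, j)` (line `i`, row `j`) is present -/
def Lay.prs (i j : ℕ) : Bool :=
  decide (i ≤ 6 * Λ.nb) && (decide (j ≤ 7 * Λ.T) &&
    (!(decide (j % 7 ≠ 0) && (decide (1 ≤ i % 6) && (decide (i % 6 ≤ 4) && Λ.pat (j / 7) (i / 6)))) &&
      !(decide (i = 6 * Λ.n + 3) && Λ.ins 1 j)))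

/-- the horizontal edge from `(i, j)` to `(i + 1, j)` is removed (the points being present) -/
def Lay.gap (i j : ℕ) : Bool := decide (i = 6 * Λ.n + 2) && Λ.ins 2 j

/-- Conditions for layouts. -/
structure Lay.Ok (Λ : Lay) : Prop where
  n2 : 2 ≤ Λ.n
  a : ∀ t, Λ.a t < Λ.n
  b : ∀ t, Λ.b t < Λ.n
  k : ∀ t, Λ.k t ≤ 4
  out : ∀ t, Λ.T ≤ t → Λ.k t = 0
  m : ∀ t, Λ.k t = 1 → Λ.a t = 0
  eq : ∀ t, Λ.cl t = 0 → Λ.a t = Λ.b t
  tie : ∀ i < Λ.n, ∃ t < Λ.T, Λ.a t = i ∧ Λ.b t = i ∧ Λ.k t = 0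
  ex : ∃ t < Λ.T, Λ.k t = 1
  st : Λ.cl 0 = 0
  up : ∀ t, Λ.cl t = 0 → Λ.cl (t + 1) ≠ 0 → Λ.k t = 1
  dn : ∀ t, Λ.cl t ≠ 0 → Λ.cl (t + 1) ≠ Λ.cl t → Λ.k (t + 1) = 1
  pen : ∀ t, Λ.k t = 4 → 0 < t ∧ Λ.cl (t - 1) = 2

/-! ### Vertices and edges -/

/-- `g i j`: grid point on the line `i` in the row `j`; `q β t m r`: the `m`-th vertex in the `r`-th
row of the patch in the block `β` and the level `t` (`m < 3`, `1 ≤ r ≤ 7`); `lo i`, `hi i`: vertices
below and above the grid; `pe t`: pendant vertex. -/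
inductive Vt : Type
  | g (i j : ℕ)
  | q (β t m r : ℕ)
  | lo (i : ℕ)
  | hi (i : ℕ)
  | pe (t : ℕ)
  deriving DecidableEq

/-- the vertices of a patch together with those above and below it -/
def qv (β t m r : ℕ) : Vt :=
  if r = 0 then .g (6 * β + 1 + m) (7 * t) else if r = 8 then .g (6 * β + 1 + m) (7 * t + 7)
  else .q β t m r

/-- the number of vertices in the `r`-th row of a patch -/
def sz (r : ℕ) : ℕ := if r = 0 then 4 else if r = 8 then 4 else 3

/-- does the `r`-th step of the left border of a patch (from the row `r` to the row `r + 1`) go to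
the right? -/
def stp (r : ℕ) : Bool := decide (r = 0) || (decide (r = 2) || decide (r = 5))

/-- edges of a patch inside the rows `1, …, 7` -/
def pRow : List ((ℕ × ℕ) × (ℕ × ℕ)) :=
  (List.range 7).flatMap fun r => [((0, r + 1), (1, r + 1)), ((1, r + 1), (2, r + 1))]

/-- edges of a patch between consecutive rows -/
def pEd : List ((ℕ × ℕ) × (ℕ × ℕ)) :=
  (List.range 8).flatMap fun r => (List.range 3).flatMap fun m =>
    if stp r = true then ((m, r), (m, r + 1)) ::
      (if m + 1 < sz r then [((m + 1, r), (m, r + 1))] else [])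
    else ((m, r), (m, r + 1)) :: (if m + 1 < sz (r + 1) then [((m, r), (m + 1, r + 1))] else [])

/-- The edges. -/
inductive E : Vt → Vt → Prop
  | h (i j : ℕ) (h0 : Λ.prs i j = true) (h1 : Λ.prs (i + 1) j = true) (h2 : Λ.gap i j = false) :
      E (.g i j) (.g (i + 1) j)
  | v (i j : ℕ) (h0 : Λ.prs i j = true) (h1 : Λ.prs i (j + 1) = true) : E (.g i j) (.g i (j + 1))
  | q (β t : ℕ) (hβ : β < Λ.nb) (ht : t < Λ.T) (hp : Λ.pat t β = true) (m r m' r' : ℕ)
      (he : ((m, r), (m', r')) ∈ pRow ++ pEd) : E (qv β t m r) (qv β t m' r')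
  | l1 (i : ℕ) (hi : i < 6 * Λ.nb) (h5 : i % 6 ≤ 4) : E (.lo i) (.g i 0)
  | l2 (i : ℕ) (hi : i < 6 * Λ.nb) (h5 : i % 6 ≤ 4) : E (.lo i) (.g (i + 1) 0)
  | l3 (i : ℕ) (hi : i < 6 * Λ.nb) (h5 : i % 6 ≤ 3) : E (.lo i) (.lo (i + 1))
  | u1 (i : ℕ) (hi : i < 6 * Λ.nb) (h5 : i % 6 ≤ 4) : E (.hi i) (.g i (7 * Λ.T))
  | u2 (i : ℕ) (hi : i < 6 * Λ.nb) (h5 : i % 6 ≤ 4) : E (.hi i) (.g (i + 1) (7 * Λ.T))
  | u3 (i : ℕ) (hi : i < 6 * Λ.nb) (h5 : i % 6 ≤ 3) : E (.hi i) (.hi (i + 1))
  | pe (t : ℕ) (ht : t < Λ.T) (hk : Λ.k t = 4) : E (.pe t) (.g (6 * Λ.n + 2) (7 * t))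

/-- not isolated -/
def Live (x : Vt) : Prop := ∃ y, E Λ x y ∨ E Λ y x

/-- A *penny realization*: adjacent vertices have distance one, and the distance of any two
different vertices is at least one. -/
structure Pen (p : Vt → ℂ) : Prop where
  edge : ∀ x y, E Λ x y → dist (p x) (p y) = 1
  far : ∀ x y, Live Λ x → Live Λ y → x ≠ y → 1 ≤ dist (p x) (p y)

/-! ### The graph as a list of edges -/

/-- the number of a grid point -/
def cg (i j : ℕ) : ℕ := j * (6 * Λ.nb + 1) + i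

/-- the number of the grid points -/
def nG : ℕ := (7 * Λ.T + 1) * (6 * Λ.nb + 1)

/-- the number of a vertex -/
def code : Vt → ℕ
  | .g i j => cg Λ i j
  | .q β t m r => nG Λ + (((t * Λ.nb + β) * 3 + m) * 8 + r)
  | .lo i => nG Λ + 24 * (Λ.T * Λ.nb) + i
  | .hi i => nG Λ + 24 * (Λ.T * Λ.nb) + 6 * Λ.nb + i
  | .pe t => nG Λ + 24 * (Λ.T * Λ.nb) + 12 * Λ.nb + t

/-- the total number of vertices (many of them isolated) -/
def nV : ℕ := nG Λ + 24 * (Λ.T * Λ.nb) + 12 * Λ.nb + Λ.T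

/-- the number of a vertex of a patch -/
def cq (β t m r : ℕ) : ℕ :=
  if r = 0 then cg Λ (6 * β + 1 + m) (7 * t) else if r = 8 then cg Λ (6 * β + 1 + m) (7 * t + 7)
  else nG Λ + (((t * Λ.nb + β) * 3 + m) * 8 + r)

/-- edges from a grid point to the right and upwards -/
def eGrid (i j : ℕ) : List (ℕ × ℕ) :=
  if Λ.prs i j = true then
    (if (Λ.prs (i + 1) j && !Λ.gap i j) = true then [(cg Λ i j, cg Λ (i + 1) j)] else []) ++
    (if Λ.prs i (j + 1) = true then [(cg Λ i j, cg Λ i (j + 1))] else [])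
  else []

/-- edges of a patch -/
def ePat (β t : ℕ) : List (ℕ × ℕ) :=
  if Λ.pat t β = true then
    (pRow ++ pEd).map fun e => (cq Λ β t e.1.1 e.1.2, cq Λ β t e.2.1 e.2.2)
  else []

/-- edges of the triangles at the bottom and the top -/
def eEnd (i : ℕ) : List (ℕ × ℕ) :=
  if i % 6 ≤ 4 then
    [(code Λ (.lo i), cg Λ i 0), (code Λ (.lo i), cg Λ (i + 1) 0),
      (code Λ (.hi i), cg Λ i (7 * Λ.T)), (code Λ (.hi i), cg Λ (i + 1) (7 * Λ.T))] ++
    (if i % 6 ≤ 3 then [(code Λ (.lo i), code Λ (.lo (i + 1))),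
      (code Λ (.hi i), code Λ (.hi (i + 1)))] else [])
  else []

/-- edge of a pendant vertex -/
def ePen (t : ℕ) : List (ℕ × ℕ) :=
  if Λ.k t = 4 then [(code Λ (.pe t), cg Λ (6 * Λ.n + 2) (7 * t))] else []

/-- all edges -/
def eList : List (ℕ × ℕ) :=
  ((List.range (7 * Λ.T + 1)).flatMap fun j => (List.range (6 * Λ.nb + 1)).flatMap fun i =>
    eGrid Λ i j) ++
  (((List.range Λ.T).flatMap fun t => (List.range Λ.nb).flatMap fun β => ePat Λ β t) ++
  ((List.range (6 * Λ.nb)).flatMap fun i => eEnd Λ i) ++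
  ((List.range Λ.T).flatMap fun t => ePen Λ t))

/-- the graph, as adjacency lists -/
def fgr : List (List ℕ) := adjLists (nV Λ) (eList Λ)

/-! ### Complex numbers -/

/-- `exp (π i / 3)` -/
noncomputable def om : ℂ := ⟨1 / 2, √3 / 2⟩

/-- `(8 ω - 5) / 7` -/
noncomputable def ro : ℂ := ⟨-(1 / 7), 4 * √3 / 7⟩

/-- cross product -/
def cr (u v : ℂ) : ℝ := u.re * v.im - u.im * v.re

/-- number of the steps to the left before the row `r` -/
def bs (r : ℕ) : ℕ := [0, 0, 1, 1, 2, 3, 3, 4, 5].getD r 0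

/-- the position of the vertex `(m, r)` of a patch -/
noncomputable def ofs (m r : ℕ) : ℂ := (m : ℂ) - (bs r : ℂ) + (r : ℂ) * om

/-- the difference of the two walls of the hole, in the row `j` -/
noncomputable def Dw (u : ℕ → ℂ) (j : ℕ) : ℂ :=
  ro * ∑ r ∈ Finset.range j, (u (Λ.b (r / 7)) - u (Λ.a (r / 7)))

end Pool.Agent.H670R4
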