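import Pool.Agent.H670R4.Stm

/-!
# Sub-steps
-/

namespace Pool.Agent.H670R4

open Pool.Agent.NPC Pool.Agent.NPC.ER Pool.Agent.H670R2
open scoped ComplexConjugate

/-! ### Orientations -/

structure Lor1 (Λ : Lay) (p : Vt → ℂ) : Prop where
  par : ∀ i j, cellB Λ i j = true → Gp p (i + 1) (j + 1) + Gp p i j = Gp p (i + 1) j + Gp p i (j + 1)
  hor : ∀ i j, cellB Λ i j = true → cellB Λ (i + 1) j = true → (sgc p i j ↔ sgc p (i + 1) j)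
  ver : ∀ i j, cellB Λ i j = true → cellB Λ i (j + 1) = true → (sgc p i j ↔ sgc p i (j + 1))

structure Lor2 (Λ : Lay) (p : Vt → ℂ) : Prop where
  two : ∀ β t, β < Λ.nb → t < Λ.T → Λ.pat t β = true →
    (apx p (.q β t 0 1) β (7 * t) om ∨ apx p (.q β t 0 1) β (7 * t) (conj om)) ∧
    (apx p (.q β t 0 7) β (7 * t + 7) om ∨ apx p (.q β t 0 7) β (7 * t + 7) (conj om))
  twl : ∀ β, β < Λ.nb → (apx p (.lo (6 * β + 1)) β 0 om ∨ apx p (.lo (6 * β + 1)) β 0 (conj om))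
  pat : ∀ β t, β < Λ.nb → t < Λ.T → Λ.pat t β = true →
    (apx p (.q β t 0 1) β (7 * t) om ↔ apx p (.q β t 0 7) β (7 * t + 7) (conj om))
  full : ∀ β t, β < Λ.nb → t < Λ.T → Λ.pat t β = true → apx p (.q β t 0 1) β (7 * t) om →
    ∀ m r, r ≤ 8 → m < sz r → p (qv β t m r) = Gp p (6 * β + 1) (7 * t) +
      (Gp p (6 * β + 2) (7 * t) - Gp p (6 * β + 1) (7 * t)) * ofs m r

structure Lor3 (Λ : Lay) (p : Vt → ℂ) : Prop where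
  cp : ∀ β t, β < Λ.nb → t + 1 < Λ.T → Λ.pat t β = false → Λ.pat (t + 1) β = true →
    (sgc p (6 * β + 1) (7 * t + 6) ↔ apx p (.q β (t + 1) 0 1) β (7 * (t + 1)) om)
  pc : ∀ β t, β < Λ.nb → t + 1 < Λ.T → Λ.pat t β = true → Λ.pat (t + 1) β = false →
    (apx p (.q β t 0 7) β (7 * t + 7) (conj om) ↔ sgc p (6 * β + 1) (7 * (t + 1)))
  pp : ∀ β t, β < Λ.nb → t + 1 < Λ.T → Λ.pat t β = true → Λ.pat (t + 1) β = true →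
    (apx p (.q β t 0 7) β (7 * t + 7) (conj om) ↔ apx p (.q β (t + 1) 0 1) β (7 * (t + 1)) om)
  lc : ∀ β, β < Λ.nb → 0 < Λ.T → Λ.pat 0 β = false →
    (apx p (.lo (6 * β + 1)) β 0 (conj om) ↔ sgc p (6 * β + 1) 0)
  lp : ∀ β, β < Λ.nb → 0 < Λ.T → Λ.pat 0 β = true →
    (apx p (.lo (6 * β + 1)) β 0 (conj om) ↔ apx p (.q β 0 0 1) β 0 om)

def St_lor1 : Prop := St_loc → ∀ Λ : Lay, Λ.Ok → ∀ p, Pen Λ p → Lor1 Λ p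
def St_lor2 : Prop := St_loc → St_pat → ∀ Λ : Lay, Λ.Ok → ∀ p, Pen Λ p → Lor2 Λ p
def St_lor3 : Prop := St_loc → ∀ Λ : Lay, Λ.Ok → ∀ p, Pen Λ p → Lor3 Λ p

theorem lor_of (h1 : St_lor1) (h2 : St_lor2) (h3 : St_lor3) : St_lor := by
  intro hl hp Λ hΛ p hP
  have a1 := h1 hl Λ hΛ p hP
  have a2 := h2 hl hp Λ hΛ p hP
  have a3 := h3 hl Λ hΛ p hP
  exact ⟨a1.par, a1.hor, a1.ver, a2.two, a2.twl, a2.pat, a2.full, a3.cp, a3.pc, a3.pp, a3.lc, a3.lp⟩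

/-- all orientations are given by `s` -/
structure Gor (Λ : Lay) (p : Vt → ℂ) (s : Prop) : Prop where
  cell : ∀ i j, cellB Λ i j = true → (sgc p i j ↔ s)
  pt : ∀ β t, β < Λ.nb → t < Λ.T → Λ.pat t β = true → (apx p (.q β t 0 1) β (7 * t) om ↔ s)

/-- the column `c1` of a block -/
structure Bor (Λ : Lay) (p : Vt → ℂ) (β : ℕ) (s : Prop) : Prop where
  cell : ∀ j, cellB Λ (6 * β + 1) j = true → (sgc p (6 * β + 1) j ↔ s)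
  pt : ∀ t, t < Λ.T → Λ.pat t β = true → (apx p (.q β t 0 1) β (7 * t) om ↔ s)

def St_sg1 : Prop := ∀ Λ : Lay, Λ.Ok → ∀ p, Pen Λ p → Lor Λ p → ∀ β < Λ.nb, ∃ s : Prop, Bor Λ p β s

def St_sg2 : Prop := St_sg1 → ∀ Λ : Lay, Λ.Ok → ∀ p, Pen Λ p → Lor Λ p → ∃ s : Prop, Gor Λ p s

def St_sg3 : Prop := St_loc → St_lor → St_pat → ∀ Λ : Lay, Λ.Ok → ∀ p, Pen Λ p → Lor Λ p →
  ∀ s, Gor Λ p s → ∃ p', Pen Λ p' ∧ Pos Λ p'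

theorem sign_of (h1 : St_sg1) (h2 : St_sg2) (h3 : St_sg3) : St_sign := by
  intro hl hlo hp Λ hΛ p hP
  have L := hlo hl hp Λ hΛ p hP
  obtain ⟨s, hs⟩ := h2 h1 Λ hΛ p hP L
  exact h3 hl hlo hp Λ hΛ p hP L s hs

/-! ### Wires -/

structure Wc (Λ : Lay) (p : Vt → ℂ) (w : ℕ → ℂ) : Prop where
  nrm : ∀ β < Λ.nb, ‖w β‖ = 1
  c1 : ∀ β < Λ.nb, ∀ t ≤ Λ.T, Gp p (6 * β + 2) (7 * t) - Gp p (6 * β + 1) (7 * t) = w β
  c23 : ∀ β < Λ.nb, ∀ t ≤ Λ.T, (β = Λ.n → Λ.k t = 1 ∨ t = 0 ∨ Λ.cl (t - 1) = 0) →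
    Gp p (6 * β + 3) (7 * t) - Gp p (6 * β + 2) (7 * t) = w β ∧
    Gp p (6 * β + 4) (7 * t) - Gp p (6 * β + 3) (7 * t) = w β
  ends : ∀ β < Λ.nb, ∀ t, t = 0 ∨ t = Λ.T → Gp p (6 * β + 1) (7 * t) - Gp p (6 * β) (7 * t) = w β ∧
    Gp p (6 * β + 5) (7 * t) - Gp p (6 * β + 4) (7 * t) = w β

def St_wr1 : Prop := St_loc → ∀ Λ : Lay, Λ.Ok → ∀ p, Pen Λ p → Pos Λ p → ∃ w, Wc Λ p w

def St_wr2 : Prop := St_wall → ∀ Λ : Lay, Λ.Ok → ∀ p, Pen Λ p → Pos Λ p → ∀ w, Wc Λ p w → Wd Λ p w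

theorem wire_of (h1 : St_wr1) (h2 : St_wr2) : St_wire := by
  intro hl hw Λ hΛ p hP hpos
  obtain ⟨w, h⟩ := h1 hl Λ hΛ p hP hpos
  exact ⟨w, h2 hw Λ hΛ p hP hpos w h⟩

/-! ### The hole -/

structure Hol (Λ : Lay) (p : Vt → ℂ) (w : ℕ → ℂ) : Prop where
  dif : ∀ j ≤ 7 * Λ.T, Gp p (6 * Λ.n + 4) j - Gp p (6 * Λ.n + 2) j = 2 * w Λ.n + Dw Λ w j ∨
    ∃ t < Λ.T, Λ.k t = 1 ∧ 7 * t < j ∧ j < 7 * t + 7
  d3 : ∀ t < Λ.T, Λ.cl t = 2 → ∀ j ≤ 7,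
    Gp p (6 * Λ.n + 3) (7 * t + j) - Gp p (6 * Λ.n + 2) (7 * t + j) = w Λ.n + Dw Λ w (7 * t + j)

def St_hol : Prop := ∀ Λ : Lay, Λ.Ok → ∀ p, Pen Λ p → Pos Λ p → ∀ w, Wd Λ p w →
  Rows Λ p w → Hol Λ p w

def St_snd2 : Prop := St_loc → St_pend → ∀ Λ : Lay, Λ.Ok → ∀ p, Pen Λ p → Pos Λ p → ∀ w,
  Wd Λ p w → Rows Λ p w → Hol Λ p w → Snd Λ w

theorem snd_of (h1 : St_hol) (h2 : St_snd2) : St_snd := fun hl hp Λ hΛ p hP hpos w hw hr =>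
  h2 hl hp Λ hΛ p hP hpos w hw hr (h1 Λ hΛ p hP hpos w hw hr)

/-! ### Interpolation -/

/-- interpolation of the partial sums of `f` -/
noncomputable def IF (f : ℕ → ℂ) (x : ℝ) : ℂ :=
  ∑ m ∈ Finset.range ⌊x⌋₊, f m + ((x - ⌊x⌋₊ : ℝ) : ℂ) * f ⌊x⌋₊

structure St_if : Prop where
  nat : ∀ (f : ℕ → ℂ) (k : ℕ), IF f k = ∑ m ∈ Finset.range k, f m
  lin : ∀ (f : ℕ → ℂ) (k l : ℕ) (w : ℂ), (∀ m, k ≤ m → m < l → f m = w) → ∀ x : ℝ, k ≤ x → x ≤ l →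
    IF f x = ∑ m ∈ Finset.range k, f m + ((x - k : ℝ) : ℂ) * w
  cb : ∀ (f : ℕ → ℂ) (N : ℕ), (∀ m < N, CB (f m) ∧ ‖f m‖ = 1) → ∀ x y : ℝ, 0 ≤ x → x ≤ y → y ≤ N →
    CB (IF f y - IF f x) ∧ 49 / 50 * (y - x) ≤ (IF f y - IF f x).re

/-- the vectors of the columns and of the rows -/
def fc (Λ : Lay) (u : ℕ → ℂ) (m : ℕ) : ℂ := cw Λ u (m / 6)
def fl (Λ : Lay) (u : ℕ → ℂ) (r : ℕ) : ℂ := u (Λ.a (r / 7))
def fr (Λ : Lay) (u : ℕ → ℂ) (r : ℕ) : ℂ := u (Λ.b (r / 7))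

/-- `Dw`, interpolated -/
noncomputable def DI (Λ : Lay) (u : ℕ → ℂ) (y : ℝ) : ℂ := ro * (IF (fr Λ u) y - IF (fl Λ u) y)

/-- separation of points with the coordinates `(x, y)` and `(x', y')` -/
structure Sep (Λ : Lay) (u : ℕ → ℂ) : Prop where
  /-- `DI` in the row `7 t + s` -/
  di : ∀ t < Λ.T, ∀ s : ℝ, 0 ≤ s → s ≤ 7 → (Λ.cl t = 0 → DI Λ u (7 * t + s) = 0) ∧
    (Λ.cl t = 1 → ‖DI Λ u (7 * t + s)‖ ≤ 1 / 2) ∧ (Λ.cl t = 2 → CA (DI Λ u (7 * t + s)))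
  dj : ∀ j : ℕ, DI Λ u j = Dw Λ u j
  dT : DI Λ u (7 * Λ.T) = 0
  /-- positions of the vertices of a patch on the left and on the right -/
  ql : ∀ β t m r, Λ.pat t β = true → β ≤ Λ.n → t < Λ.T → m < sz r → r ≤ 8 →
    gp Λ u (6 * β + 1) (7 * t) + cw Λ u β * ofs m r =
      IF (fc Λ u) (6 * β + 1 + (m + 5 * r / 8 - bs r)) + ro * IF (fl Λ u) (7 * t + 7 * r / 8)
  qr : ∀ β t m r, Λ.pat t β = true → Λ.n ≤ β → β < Λ.nb → t < Λ.T → m < sz r → r ≤ 8 →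
    gp Λ u (6 * β + 1) (7 * t) + cw Λ u β * ofs m r =
      IF (fc Λ u) (6 * β + 1 + (m + 5 * r / 8 - bs r)) + ro * IF (fr Λ u) (7 * t + 7 * r / 8)
  /-- the same side -/
  ll : ∀ x x' y y' : ℝ, 0 ≤ x → x ≤ x' → x' ≤ 6 * Λ.nb → 0 ≤ y → y ≤ 7 * Λ.T → 0 ≤ y' →
    y' ≤ 7 * Λ.T → (9 / 8 ≤ x' - x ∨ 9 / 8 ≤ |y' - y|) →
    1 ≤ ‖(IF (fc Λ u) x' - IF (fc Λ u) x) + ro * (IF (fl Λ u) y' - IF (fl Λ u) y)‖
  rr : ∀ x x' y y' : ℝ, 0 ≤ x → x ≤ x' → x' ≤ 6 * Λ.nb → 0 ≤ y → y ≤ 7 * Λ.T → 0 ≤ y' →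
    y' ≤ 7 * Λ.T → (9 / 8 ≤ x' - x ∨ 9 / 8 ≤ |y' - y|) →
    1 ≤ ‖(IF (fc Λ u) x' - IF (fc Λ u) x) + ro * (IF (fr Λ u) y' - IF (fr Λ u) y)‖
  /-- different sides -/
  lr : ∀ x x' y y' : ℝ, 0 ≤ x → x ≤ x' → x' ≤ 6 * Λ.nb → 0 ≤ y → y ≤ 7 * Λ.T → 0 ≤ y' →
    y' ≤ 7 * Λ.T → (2 ≤ x' - x ∨ ((CA (DI Λ u y) ∨ CA (DI Λ u y')) ∧
      (9 / 8 ≤ x' - x ∨ 9 / 8 ≤ |y' - y|))) →
    1 ≤ ‖(IF (fc Λ u) x' - IF (fc Λ u) x) + ro * (IF (fr Λ u) y' - IF (fl Λ u) y)‖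

def St_sep : Prop := St_if → St_cone → ∀ Λ : Lay, Λ.Ok → ∀ u, Cmp Λ u → Huv Λ u → Sep Λ u

def St_cgg2 : Prop := St_if → St_sep → St_cgg
def St_cgq2 : Prop := St_if → St_sep → St_cgq
def St_cqq2 : Prop := St_if → St_sep → St_cqq
def St_cend2 : Prop := St_if → St_sep → St_cend
def St_cpen2 : Prop := St_if → St_sep → St_cpen

/-! ### Ply -/

def St_fwd : Prop := ∀ (L : List (List ℕ)) (h : IsGraph L), plyNumber (graphOf L h) ≤ 1 →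
    (∀ f : ℕ → ℝ, (∀ u < L.length, ∀ v ∈ L.getD u [], f u = f v) → ∀ u < L.length,
      ∀ v < L.length, L.getD u [] ≠ [] → L.getD v [] ≠ [] → f u = f v) →
    ∃ p : ℕ → ℂ, (∀ u < L.length, ∀ v ∈ L.getD u [], dist (p u) (p v) = 1) ∧
      ∀ u < L.length, ∀ v < L.length, L.getD u [] ≠ [] → L.getD v [] ≠ [] → u ≠ v →
        1 ≤ dist (p u) (p v)

def St_bwd : Prop := ∀ (L : List (List ℕ)) (h : IsGraph L) (p : ℕ → ℂ),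
    (∀ u < L.length, ∀ v ∈ L.getD u [], dist (p u) (p v) = 1) →
    (∀ u < L.length, ∀ v < L.length, L.getD u [] ≠ [] → L.getD v [] ≠ [] → u ≠ v →
      1 ≤ dist (p u) (p v)) → plyNumber (graphOf L h) ≤ 1

def St_lek : Prop := ∀ (L : List (List ℕ)) (h : IsGraph L) (k : ℕ), plyNumber (graphOf L h) ≤ k ↔
    ∃ p : Fin L.length → ℂ, Function.Injective p ∧ ∀ z : ℂ,
      {v : Fin L.length | dist z (p v) < sSup {r : ℝ | ∃ u, (graphOf L h).Adj v u ∧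
        r = dist (p v) (p u) / 2}}.ncard ≤ k

/-! ### Membership -/

/-- square of the distance -/
def sd (a b : ℝ × ℝ) : ℝ := (a.1 - b.1) * (a.1 - b.1) + (a.2 - b.2) * (a.2 - b.2)

/-- the conditions for centers `c`, radii `R`, intersections `P` of the circles and indicators
`b` of the disks containing the midpoints of the points `P` -/
structure MS (n : ℕ) (N : ℕ → List ℕ) (k : ℕ) (c : ℕ → ℝ × ℝ) (R : ℕ → ℝ) (P : ℕ → ℕ → ℝ × ℝ)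
    (b : ℕ → ℕ → ℕ → ℕ → ℕ → ℝ) : Prop where
  inj : ∀ u < n, ∀ v < n, u ≠ v → 0 < sd (c u) (c v)
  r0 : ∀ u < n, 0 ≤ R u
  r1 : ∀ u < n, ∀ v ∈ N u, sd (c u) (c v) ≤ 4 * (R u * R u)
  r2 : ∀ u < n, R u = 0 ∨ ∃ v ∈ N u, sd (c u) (c v) = 4 * (R u * R u)
  ctr : ∀ u < n, P u u = c u
  int : ∀ u < n, ∀ v < n, u ≠ v →
    4 * (R u * R u) * (R v * R v) < (sd (c u) (c v) - R u * R u - R v * R v) *
      (sd (c u) (c v) - R u * R u - R v * R v) ∨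
    (sd (P u v) (c u) = R u * R u ∧ sd (P u v) (c v) = R v * R v ∧
      sd (P v u) (c u) = R u * R u ∧ sd (P v u) (c v) = R v * R v ∧
      ((P u v).1 + (P v u).1 - 2 * (c u).1) * ((c v).2 - (c u).2) =
        ((P u v).2 + (P v u).2 - 2 * (c u).2) * ((c v).1 - (c u).1))
  b01 : ∀ i < n, ∀ j < n, ∀ i' < n, ∀ j' < n, ∀ v < n, b i j i' j' v = 0 ∨ b i j i' j' v = 1
  dep : ∀ i < n, ∀ j < n, ∀ i' < n, ∀ j' < n, ∀ v < n, b i j i' j' v = 1 ∨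
    4 * (R v * R v) ≤ sd ((P i j).1 + (P i' j').1, (P i j).2 + (P i' j').2)
      (2 * (c v).1, 2 * (c v).2)
  sum : ∀ i < n, ∀ j < n, ∀ i' < n, ∀ j' < n,
    ((List.range n).map fun v => b i j i' j' v).sum ≤ ((min k n : ℕ) : ℝ)

def St_mem1 : Prop := St_lek → ∀ (L : List (List ℕ)) (h : IsGraph L) (k : ℕ),
  plyNumber (graphOf L h) ≤ k → ∃ c R P b, MS L.length (fun u => L.getD u []) k c R P b

def St_mem2 : Prop := St_disk → St_lek → ∀ (L : List (List ℕ)) (h : IsGraph L) (k : ℕ) c R P b,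
  MS L.length (fun u => L.getD u []) k c R P b → plyNumber (graphOf L h) ≤ k

/-- decoding an assignment of values to the variables -/
def yc (y : ℕ → ℝ) (v : ℕ) : ℝ × ℝ := (y (2 * v), y (2 * v + 1))
def yR (n : ℕ) (y : ℕ → ℝ) (v : ℕ) : ℝ := y (2 * n + v)
def yP (n : ℕ) (y : ℕ → ℝ) (i j : ℕ) : ℝ × ℝ :=
  (y (3 * n + 2 * (i * n + j)), y (3 * n + 2 * (i * n + j) + 1))
def yb (n : ℕ) (y : ℕ → ℝ) (i j i' j' v : ℕ) : ℝ :=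
  y (3 * n + 2 * (n * n) + ((((i * n + j) * n + i') * n + j') * n + v))

def St_mem3 : Prop := ∀ (L : List (List ℕ)), IsGraph L → ∀ k c R P b,
  MS L.length (fun u => L.getD u []) k c R P b →
  ∃ y, MS L.length (fun u => L.getD u []) k (yc y) (yR L.length y) (yP L.length y) (yb L.length y)

def St_mem4 : Prop := ∃ F : List (List ℕ) × ℕ → Fm, Poly F ∧ ∀ x y, (F x).Holds y ↔ IsGraph x.1 ∧
  MS x.1.length (fun u => x.1.getD u []) x.2 (yc y) (yR x.1.length y) (yP x.1.length y)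
    (yb x.1.length y)

theorem mem_of (h1 : St_mem1) (h2 : St_mem2) (h3 : St_mem3) (h4 : St_mem4) : St_mem := by
  intro hd hp
  obtain ⟨F, hF, hF'⟩ := h4
  refine Pool.Agent.NPC.H670R2.InER.of_poly hF ?_
  intro x
  constructor
  · rintro ⟨h, hk⟩
    obtain ⟨c, R, P, b, hM⟩ := h1 hp.lek x.1 h x.2 hk
    obtain ⟨y, hy⟩ := h3 x.1 h x.2 c R P b hM
    exact ⟨y, (hF' x y).2 ⟨h, hy⟩⟩
  · rintro ⟨y, hy⟩
    obtain ⟨h, hM⟩ := (hF' x y).1 hy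
    exact ⟨h, h2 hd hp.lek x.1 h x.2 _ _ _ _ hM⟩

/-! ### Arithmetic -/

/-- a reversor -/
def St_as1 : Prop := ∀ p s x q r y : ℂ, ‖p‖ = 1 → ‖s‖ = 1 → ‖x‖ = 1 → ‖q‖ = 1 → ‖r‖ = 1 → ‖y‖ = 1 →
  2 * (p - q) + (r - s) = 0 → p - q ≠ 0 → 2 * (x - r) + (y - p) = 0 → x - r ≠ 0 → x * s = p ^ 2

/-- the condition for the wires `e` and `w` -/
def near (e w : ℂ) : Prop := 1 ≤ ‖e + ro * w‖ ∧ 1 ≤ ‖e - ro * w‖ ∧ 0 < cr e (ro * w) ∧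
  1 ≤ ‖w + ro * e‖ ∧ 1 ≤ ‖w - ro * e‖ ∧ 0 < cr w (ro * e)

/-- signs -/
def St_as2 : Prop := ∀ s q r : ℂ, ‖s‖ = 1 → ‖q‖ = 1 → ‖r‖ = 1 → near 1 s → near 1 q → near 1 r →
  2 * (1 - q) + (r - s) = 0 → (1 : ℂ) - q ≠ 0 → 1 ≤ ‖1 + ro * (1 - q)‖ → s.im < 0

/-- products -/
def St_as3 : Prop := ∀ A B S S' D D' : ℂ, ‖A‖ = 1 → ‖B‖ = 1 → ‖S‖ = 1 → ‖S'‖ = 1 → ‖D‖ = 1 →
  ‖D'‖ = 1 → near 1 A → near 1 B → near 1 S → S * D = B ^ 2 → S * D' = A ^ 2 → D * D' = 1 →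
  S * S' = 1 → S + S' + D + D' = ((4 * A.re * B.re : ℝ) : ℂ)

/-- a system without the condition that the wire `0` is `1` -/
def St_as4 : Prop := St_as1 → St_as2 → St_as3 → ∀ m es, (∀ e ∈ es, EC.below m e) → ∀ u : ℕ → ℂ,
  u 0 = 1 → (∀ i < nW m es, ‖u i‖ = 1) → (∀ i < nW m es, near 1 (u i)) →
  (∀ h ∈ hAll m es, hS u h) → ∃ y : ℕ → ℝ, ∀ e ∈ es, ecH y e

/-- normalization -/
def St_as5 : Prop := St_as4 → St_as1 → St_as2 → St_as3 → St_as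

/-- the value of a slot -/
noncomputable def zv (y : ℕ → ℝ) (v : ℕ) : ℝ :=
  if v = 0 then 0 else if v ≤ 8 then -(2 ^ (v - 1) / 512000) else -(y (v - 9) / 64000)

/-- the wires of a realization -/
structure Wr (m : ℕ) (es : List EC) (y : ℕ → ℝ) (u : ℕ → ℂ) : Prop where
  one : u 0 = 1
  ok : ∀ i < nW m es, ‖u i‖ = 1 ∧ CB (u i)
  slot : ∀ v < nS m, Slot (zv y v) (fun k => u (sW v k))
  prd : ∀ e ∈ es.zipIdx, ∀ i j k, e.1 = .mul i j k → ∀ X, X = 1 + 10 * nS m + 96 * e.2 →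
    Prd (zv y (9 + i)) (zv y (9 + j)) (fun r => u (X + r)) ∧
    Prd (zv y 4) (zv y 0) (fun r => u (X + 16 + r)) ∧
    Prd (zv y 0) (zv y (9 + k)) (fun r => u (X + 32 + r)) ∧
    Prd (zv y 4) (zv y (9 + k)) (fun r => u (X + 48 + r)) ∧
    Prd (zv y (9 + i)) (zv y 0) (fun r => u (X + 64 + r)) ∧
    Prd (zv y 0) (zv y (9 + j)) (fun r => u (X + 80 + r))

def St_ac1 : Prop := St_slot → St_prd → St_rev → St_num → ∀ m es, (∀ e ∈ es, EC.below m e) →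
  ∀ y : ℕ → ℝ, (∀ i, |y i| ≤ 1 / 8) → (∀ e ∈ es, ecH y e) → ∃ u, Wr m es y u

def St_ac2 : Prop := St_num → ∀ m es, (∀ e ∈ es, EC.below m e) →
  ∀ y : ℕ → ℝ, (∀ i, |y i| ≤ 1 / 8) → (∀ e ∈ es, ecH y e) → ∀ u, Wr m es y u →
    ∀ h ∈ hAll m es, hC u h

theorem ac_of (h1 : St_ac1) (h2 : St_ac2) : St_ac := by
  intro hs hp hr hn m es hb y hy hy'
  obtain ⟨u, hu⟩ := h1 hs hp hr hn m es hb y hy hy'
  exact ⟨u, hu.one, fun i hi => (hu.ok i hi).1, fun i hi => (hu.ok i hi).2,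
    h2 hn m es hb y hy hy' u hu⟩

end Pool.Agent.H670R4
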