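import Pool.Agent.H670R4.Sub

/-!
# AC1: the wires of a realization
-/

namespace Pool.Agent.H670R4

open Pool.Agent.NPC Pool.Agent.NPC.ER Pool.Agent.H670R2
open scoped ComplexConjugate

theorem ac1_CB_one : CB 1 := by
  unfold CB
  norm_num

theorem ac1_slot_congr {z : ℝ} {f g : ℕ → ℂ} (h : ∀ k < 10, f k = g k) (hf : Slot z f) :
    Slot z g := by
  constructor
  · rw [← h 0 (by norm_num)]; exact hf.f0
  · rw [← h 1 (by norm_num)]; exact hf.f1
  · rw [← h 2 (by norm_num)]; exact hf.f2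
  · rw [← h 3 (by norm_num)]; exact hf.f3
  · intro k hk
    rw [← h k hk]
    exact hf.ok k hk
  · rw [← h 1 (by norm_num), ← h 0 (by norm_num), ← h 4 (by norm_num), ← h 5 (by norm_num),
      ← h 6 (by norm_num)]
    exact hf.ra
  · rw [← h 3 (by norm_num), ← h 2 (by norm_num), ← h 7 (by norm_num), ← h 8 (by norm_num),
      ← h 9 (by norm_num)]
    exact hf.rb

theorem ac1_prd_congr {y z : ℝ} {f g : ℕ → ℂ} (h : ∀ k < 16, f k = g k) (hf : Prd y z f) :
    Prd y z g := by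
  constructor
  · rw [← h 0 (by norm_num)]; exact hf.f0
  · rw [← h 1 (by norm_num), ← h 0 (by norm_num)]; exact hf.f1
  · rw [← h 2 (by norm_num)]; exact hf.f2
  · rw [← h 3 (by norm_num), ← h 2 (by norm_num)]; exact hf.f3
  · intro k hk
    rw [← h k hk]
    exact hf.ok k hk
  · rw [← h 2 (by norm_num), ← h 0 (by norm_num), ← h 4 (by norm_num), ← h 5 (by norm_num),
      ← h 6 (by norm_num)]
    exact hf.r1
  · rw [← h 3 (by norm_num), ← h 0 (by norm_num), ← h 7 (by norm_num), ← h 8 (by norm_num),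
      ← h 9 (by norm_num)]
    exact hf.r2
  · rw [← h 3 (by norm_num), ← h 2 (by norm_num), ← h 10 (by norm_num), ← h 11 (by norm_num),
      ← h 12 (by norm_num)]
    exact hf.r3
  · rw [← h 1 (by norm_num), ← h 0 (by norm_num), ← h 13 (by norm_num), ← h 14 (by norm_num),
      ← h 15 (by norm_num)]
    exact hf.r4

/-- values of slots -/
theorem ac1_zv {y : ℕ → ℝ} (hy : ∀ i, |y i| ≤ 1 / 8) (v : ℕ) :
    -(1 / 4000) ≤ zv y v ∧ zv y v ≤ 1 / 512000 := by
  unfold zv
  by_cases h0 : v = 0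
  · rw [if_pos h0]
    norm_num
  · rw [if_neg h0]
    by_cases h8 : v ≤ 8
    · rw [if_pos h8]
      have h1 : (2 : ℝ) ^ (v - 1) ≤ 2 ^ 7 := pow_le_pow_right₀ (by norm_num) (by omega)
      have h2 : (0 : ℝ) < 2 ^ (v - 1) := by positivity
      norm_num at h1
      constructor
      · rw [neg_le_neg_iff, div_le_div_iff₀ (by norm_num) (by norm_num)]
        linarith
      · have : (0 : ℝ) ≤ 2 ^ (v - 1) / 512000 := by positivity
        have h3 : (0 : ℝ) < 1 / 512000 := by norm_num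
        linarith
    · rw [if_neg h8]
      have h1 := abs_le.1 (hy (v - 9))
      constructor <;> linarith

/-- values of the slots used in products -/
theorem ac1_zv' {y : ℕ → ℝ} (hy : ∀ i, |y i| ≤ 1 / 8) {v : ℕ} (hv : v = 0 ∨ v = 4 ∨ 9 ≤ v) :
    -(1 / 64000) ≤ zv y v := by
  unfold zv
  rcases hv with rfl | rfl | hv
  · norm_num
  · norm_num
  · rw [if_neg (by omega), if_neg (by omega)]
    have h1 := abs_le.1 (hy (v - 9))
    linarith

/-- the first slot of the product number `l` -/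
def ac1_pa (i l : ℕ) : ℕ :=
  if l = 0 then 9 + i else if l = 1 then 4 else if l = 2 then 0 else if l = 3 then 4
  else if l = 4 then 9 + i else 0

/-- the second slot of the product number `l` -/
def ac1_pb (j k l : ℕ) : ℕ :=
  if l = 0 then 9 + j else if l = 1 then 0 else if l = 2 then 9 + k else if l = 3 then 9 + k
  else if l = 4 then 0 else 9 + j

theorem ac1_pa_or (i l : ℕ) : ac1_pa i l = 0 ∨ ac1_pa i l = 4 ∨ 9 ≤ ac1_pa i l := by
  unfold ac1_pa
  split_ifs <;> omega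

theorem ac1_pb_or (j k l : ℕ) : ac1_pb j k l = 0 ∨ ac1_pb j k l = 4 ∨ 9 ≤ ac1_pb j k l := by
  unfold ac1_pb
  split_ifs <;> omega

/-- the wires -/
noncomputable def ac1_u (N : ℕ) (fS : ℕ → ℕ → ℂ) (g : ℕ → ℕ → ℕ → ℂ) (i : ℕ) : ℂ :=
  if i = 0 then 1 else if i < 1 + 10 * N then fS ((i - 1) / 10) ((i - 1) % 10)
  else g ((i - 1 - 10 * N) / 96) ((i - 1 - 10 * N) % 96 / 16) ((i - 1 - 10 * N) % 16)

theorem ac1_u_slot (N : ℕ) (fS : ℕ → ℕ → ℂ) (g : ℕ → ℕ → ℕ → ℂ) {v k : ℕ} (hv : v < N)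
    (hk : k < 10) : ac1_u N fS g (1 + 10 * v + k) = fS v k := by
  unfold ac1_u
  rw [if_neg (by omega), if_pos (by omega)]
  have h1 : (1 + 10 * v + k - 1) / 10 = v := by omega
  have h2 : (1 + 10 * v + k - 1) % 10 = k := by omega
  rw [h1, h2]

theorem ac1_u_prd (N : ℕ) (fS : ℕ → ℕ → ℂ) (g : ℕ → ℕ → ℕ → ℂ) {q t l r : ℕ} (hl : l < 6)
    (hr : r < 16) (hq : q = 1 + 10 * N + 96 * t + 16 * l + r) : ac1_u N fS g q = g t l r := by
  subst hq
  unfold ac1_u
  rw [if_neg (by omega), if_neg (by omega)]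
  have h0 : 1 + 10 * N + 96 * t + 16 * l + r - 1 - 10 * N = 96 * t + (16 * l + r) := by omega
  have h1 : (96 * t + (16 * l + r)) / 96 = t := by omega
  have h2 : (96 * t + (16 * l + r)) % 96 / 16 = l := by omega
  have h3 : (96 * t + (16 * l + r)) % 16 = r := by omega
  rw [h0, h1, h2, h3]

theorem ac1_ok : St_ac1 := by
  intro hslot hprd hrev hnum m es _ y hy _
  have hS : ∀ v, ∃ f, Slot (zv y v) f := fun v =>
    hslot hrev hnum (zv y v) (ac1_zv hy v).1 (ac1_zv hy v).2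
  choose fS hfS using hS
  have hG : ∀ t l : ℕ, ∃ f : ℕ → ℂ, (∀ r < 16, ‖f r‖ = 1 ∧ CB (f r)) ∧
      ∀ i j k, es[t]? = some (.mul i j k) →
        Prd (zv y (ac1_pa i l)) (zv y (ac1_pb j k l)) f := by
    intro t l
    by_cases h : ∃ i j k, es[t]? = some (EC.mul i j k)
    · obtain ⟨i, j, k, h⟩ := h
      obtain ⟨f, hf⟩ := hprd hrev hnum (zv y (ac1_pa i l)) (zv y (ac1_pb j k l))
        (ac1_zv' hy (ac1_pa_or i l)) (ac1_zv hy _).2 (ac1_zv' hy (ac1_pb_or j k l))
        (ac1_zv hy _).2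
      refine ⟨f, hf.ok, fun i' j' k' h' => ?_⟩
      rw [h] at h'
      simp only [Option.some.injEq, EC.mul.injEq] at h'
      obtain ⟨rfl, rfl, rfl⟩ := h'
      exact hf
    · refine ⟨fun _ => 1, fun r _ => ⟨norm_one, ac1_CB_one⟩, fun i j k h' => ?_⟩
      exact absurd ⟨i, j, k, h'⟩ h
  choose g hg1 hg2 using hG
  refine ⟨ac1_u (nS m) fS g, ?_, ?_, ?_, ?_⟩
  · simp [ac1_u]
  · intro i _
    unfold ac1_u
    split_ifs
    · exact ⟨norm_one, ac1_CB_one⟩
    · exact (hfS _).ok _ (Nat.mod_lt _ (by norm_num))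
    · exact hg1 _ _ _ (Nat.mod_lt _ (by norm_num))
  · intro v hv
    refine ac1_slot_congr (fun k hk => ?_) (hfS v)
    unfold sW
    exact (ac1_u_slot (nS m) fS g hv hk).symm
  · intro e he i j k hek X hX
    have h : es[e.2]? = some (EC.mul i j k) := by
      rw [← hek]
      exact List.mem_zipIdx_iff_getElem?.1 he
    have key : ∀ l < 6, Prd (zv y (ac1_pa i l)) (zv y (ac1_pb j k l)) (g e.2 l) :=
      fun l _ => hg2 e.2 l i j k h
    refine ⟨?_, ?_, ?_, ?_, ?_, ?_⟩
    · exact ac1_prd_congr (fun r hr => (ac1_u_prd (nS m) fS g (l := 0) (by norm_num) hr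
        (by omega)).symm) (key 0 (by norm_num))
    · exact ac1_prd_congr (fun r hr => (ac1_u_prd (nS m) fS g (l := 1) (by norm_num) hr
        (by omega)).symm) (key 1 (by norm_num))
    · exact ac1_prd_congr (fun r hr => (ac1_u_prd (nS m) fS g (l := 2) (by norm_num) hr
        (by omega)).symm) (key 2 (by norm_num))
    · exact ac1_prd_congr (fun r hr => (ac1_u_prd (nS m) fS g (l := 3) (by norm_num) hr
        (by omega)).symm) (key 3 (by norm_num))
    · exact ac1_prd_congr (fun r hr => (ac1_u_prd (nS m) fS g (l := 4) (by norm_num) hr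
        (by omega)).symm) (key 4 (by norm_num))
    · exact ac1_prd_congr (fun r hr => (ac1_u_prd (nS m) fS g (l := 5) (by norm_num) hr
        (by omega)).symm) (key 5 (by norm_num))

end Pool.Agent.H670R4
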