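import Pool.Agent.H670R4.Sub

/-!
# The holes from the wires
-/

namespace Pool.Agent.H670R4

open Pool.Agent.NPC Pool.Agent.NPC.ER Pool.Agent.H670R2
open scoped ComplexConjugate

theorem ac2_rev {u : ℕ → ℂ} {p s x q : ℕ} (h : RC (u p) (u s) (u x) (u q) (u (q + 1)) (u (q + 2))) :
    ∀ h ∈ rev p s x q, hC u h := by
  intro g hg
  unfold rev at hg
  rw [List.mem_cons, List.mem_singleton] at hg
  rcases hg with rfl | rfl
  · show (if (1 : ℕ) = 0 then _ else _)
    rw [if_neg one_ne_zero]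
    show (if (1 : ℕ) = 1 then _ else _) ∧ _
    rw [if_pos rfl]
    exact ⟨⟨h.e1, h.d1.1⟩, h.d1.2⟩
  · show (if (1 : ℕ) = 0 then _ else _)
    rw [if_neg one_ne_zero]
    show (if (1 : ℕ) = 1 then _ else _) ∧ _
    rw [if_pos rfl]
    exact ⟨⟨h.e2, h.d2.1⟩, h.d2.2⟩

theorem ac2_uvre (c : ℝ) : (uv c).re = 1 - c := rfl

theorem ac2_conj (z w : ℂ) : ‖conj z - conj w‖ = ‖z - w‖ := by
  rw [← map_sub, Complex.norm_conj]

theorem ac2_two (z : ℂ) : z + conj z = ((2 * z.re : ℝ) : ℂ) := by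
  rw [Complex.add_conj]

theorem ac2_zv (y : ℕ → ℝ) (hy : ∀ i, |y i| ≤ 1 / 8) (v : ℕ) :
    -(1 / 4000) ≤ zv y v ∧ zv y v ≤ 1 / 512000 := by
  unfold zv
  split_ifs with h1 h2
  · constructor <;> norm_num
  · have h3 : (2 : ℝ) ^ (v - 1) ≤ 2 ^ 7 := pow_le_pow_right₀ (by norm_num) (by omega)
    have h4 : (0 : ℝ) < 2 ^ (v - 1) := by positivity
    constructor
    · linarith
    · linarith
  · have := abs_le.1 (hy (v - 9))
    constructor <;> linarith [this.1, this.2]

theorem ac2_zs (y : ℕ → ℝ) (hy : ∀ i, |y i| ≤ 1 / 8) (v : ℕ) :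
    -(1 / 64000) ≤ zv y (9 + v) ∧ zv y (9 + v) ≤ 1 / 512000 := by
  unfold zv
  rw [if_neg (by omega), if_neg (by omega)]
  have := abs_le.1 (hy (9 + v - 9))
  constructor <;> linarith [this.1, this.2]

theorem ac2_z0 (y : ℕ → ℝ) : zv y 0 = 0 := by
  unfold zv; rw [if_pos rfl]

theorem ac2_z4 (y : ℕ → ℝ) : zv y 4 = -(1 / 64000) := by
  unfold zv
  rw [if_neg (by omega), if_pos (by omega)]
  norm_num

theorem ac2_z9 (y : ℕ → ℝ) (i : ℕ) : zv y (9 + i) = -(y i / 64000) := by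
  unfold zv
  rw [if_neg (by omega), if_neg (by omega), Nat.add_sub_cancel_left]

/-- a linear relation -/
theorem ac2_add (hn : St_num) {m : ℕ} {es : List EC} {y : ℕ → ℝ} (hy : ∀ i, |y i| ≤ 1 / 8)
    {u : ℕ → ℂ} (hu : Wr m es y u) {i j k : ℕ} (hi : i < nS m) (hj : j < nS m) (hk : k < nS m)
    (h : zv y i + zv y j = zv y k) : hC u (hAdd i j k) := by
  have h0 : 0 < nS m := by unfold nS; omega
  have si := hu.slot i hi
  have sj := hu.slot j hj
  have sk := hu.slot k hk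
  have s0 := hu.slot 0 h0
  have ei0 := si.f0
  have ei1 := si.f1
  have ej0 := sj.f0
  have ej1 := sj.f1
  have ek0 := sk.f0
  have ek1 := sk.f1
  have e00 := s0.f0
  have e01 := s0.f1
  show (if (0 : ℕ) = 0 then _ else _)
  rw [if_pos rfl]
  have zi := ac2_zv y hy i
  have zj := ac2_zv y hy j
  have zk := ac2_zv y hy k
  have z0 := ac2_zv y hy 0
  constructor
  · unfold dsum hAdd
    simp only [List.map_cons, List.map_nil, List.sum_cons, List.sum_nil]
    rw [ei0, ei1, ej0, ej1, ek0, ek1, e00, e01]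
    have e : uv (aA (zv y k)) - uv (aA (zv y i)) + (conj (uv (aA (zv y k))) -
        conj (uv (aA (zv y i))) + (uv (aA (zv y 0)) - uv (aA (zv y j)) +
        (conj (uv (aA (zv y 0))) - conj (uv (aA (zv y j))) + 0))) =
        (uv (aA (zv y k)) + conj (uv (aA (zv y k)))) - (uv (aA (zv y i)) +
        conj (uv (aA (zv y i)))) + ((uv (aA (zv y 0)) + conj (uv (aA (zv y 0)))) -
        (uv (aA (zv y j)) + conj (uv (aA (zv y j))))) := by ring
    rw [e, ac2_two, ac2_two, ac2_two, ac2_two, ac2_uvre, ac2_uvre, ac2_uvre, ac2_uvre, ac2_z0]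
    unfold aA
    norm_cast
    push_cast
    linarith
  · unfold hAdd
    simp only [List.map_cons, List.map_nil, List.sum_cons, List.sum_nil]
    rw [ei0, ei1, ej0, ej1, ek0, ek1, e00, e01, ac2_conj, ac2_conj]
    have d1 := hn.dA _ _ zk.1 zk.2 zi.1 zi.2
    have d2 := hn.dA _ _ z0.1 z0.2 zj.1 zj.2
    linarith

/-- the holes of a product -/
theorem ac2_pr {m : ℕ} {es : List EC} {y : ℕ → ℝ} {u : ℕ → ℂ} (hu : Wr m es y u) {i j X : ℕ}
    (hi : i < nS m) (hj : j < nS m) (hP : Prd (zv y i) (zv y j) (fun r => u (X + r))) :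
    ∀ h ∈ hPr X i j, hC u h := by
  have si := hu.slot i hi
  have sj := hu.slot j hj
  have ei0 := si.f0
  have ej2 := sj.f2
  intro h hh
  unfold hPr at hh
  rw [List.mem_append, List.mem_append, List.mem_append] at hh
  have r1 := hP.r1
  have r2 := hP.r2
  have r3 := hP.r3
  have r4 := hP.r4
  simp only [Nat.add_zero] at r1 r2 r3 r4
  rw [← ej2] at r1
  rw [← ei0] at r2
  rw [← hu.one] at r3 r4
  rcases hh with hh | hh | hh | hh
  · exact ac2_rev r1 h hh
  · exact ac2_rev r2 h hh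
  · exact ac2_rev r3 h hh
  · exact ac2_rev r4 h hh

theorem ac2_nrm (hn : St_num) {a a' b b' : ℝ}
    (ha : -(1 / 64000) ≤ a ∧ a ≤ 1 / 512000) (ha' : -(1 / 64000) ≤ a' ∧ a' ≤ 1 / 512000)
    (hb : -(1 / 64000) ≤ b ∧ b ≤ 1 / 512000) (hb' : -(1 / 64000) ≤ b' ∧ b' ≤ 1 / 512000)
    {w w' : ℂ} (hw : w = uv (aA a) ∧ w' = uv (aA a') ∨
      w = conj (uv (aA a)) ∧ w' = conj (uv (aA a'))) :
    ‖uv (aB b) * w - uv (aB b') * w'‖ ≤ 3 / 1000 := by
  have h1 := hn.dB' b b' hb.1 hb.2 hb'.1 hb'.2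
  have h2 := hn.dA' a a' ha.1 ha.2 ha'.1 ha'.2
  have h3 : ‖w - w'‖ ≤ 1 / 500 := by
    rcases hw with ⟨rfl, rfl⟩ | ⟨rfl, rfl⟩
    · exact h2
    · rw [ac2_conj]; exact h2
  have h4 : ‖w'‖ = 1 := by
    have h5 := hn.un (aA a') (by unfold aA; linarith [ha'.2]) (by unfold aA; linarith [ha'.1])
    rcases hw with ⟨-, rfl⟩ | ⟨-, rfl⟩
    · exact h5
    · rw [Complex.norm_conj]; exact h5
  have h5 := hn.un (aB b) (by unfold aB; linarith [hb.2]) (by unfold aB; linarith [hb.1])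
  have e : uv (aB b) * w - uv (aB b') * w' = uv (aB b) * (w - w') + (uv (aB b) - uv (aB b')) * w' := by
    ring
  rw [e]
  refine (norm_add_le _ _).trans ?_
  rw [norm_mul, norm_mul, h4, h5]
  linarith

/-- four wires of a product -/
theorem ac2_four (hn : St_num) {a a' b b' : ℝ}
    (ha : -(1 / 64000) ≤ a ∧ a ≤ 1 / 512000) (ha' : -(1 / 64000) ≤ a' ∧ a' ≤ 1 / 512000)
    (hb : -(1 / 64000) ≤ b ∧ b ≤ 1 / 512000) (hb' : -(1 / 64000) ≤ b' ∧ b' ≤ 1 / 512000)
    {f g : ℕ → ℂ} (hf : Prd a b f) (hg : Prd a' b' g) :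
    ‖g 0 - f 0‖ ≤ 3 / 1000 ∧ ‖g 1 - f 1‖ ≤ 3 / 1000 ∧ ‖g 2 - f 2‖ ≤ 3 / 1000 ∧
      ‖g 3 - f 3‖ ≤ 3 / 1000 := by
  have h0 : ‖g 0 - f 0‖ ≤ 3 / 1000 := by
    rw [hg.f0, hf.f0]
    exact ac2_nrm hn ha' ha hb' hb (Or.inl ⟨rfl, rfl⟩)
  have h2 : ‖g 2 - f 2‖ ≤ 3 / 1000 := by
    rw [hg.f2, hf.f2]
    exact ac2_nrm hn ha' ha hb' hb (Or.inr ⟨rfl, rfl⟩)
  refine ⟨h0, ?_, h2, ?_⟩
  · rw [hg.f1, hf.f1, ac2_conj]; exact h0
  · rw [hg.f3, hf.f3, ac2_conj]; exact h2

theorem ac2_sum {a b : ℝ} {f : ℕ → ℂ} (hf : Prd a b f) :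
    f 0 + f 1 + f 2 + f 3 = ((4 * ((1 - 1 / 18000 + a) * (1 - 1 / 3900 + b)) : ℝ) : ℂ) := by
  have e : f 0 + f 1 + f 2 + f 3 = (f 0 + conj (f 0)) + (f 2 + conj (f 2)) := by
    rw [hf.f1, hf.f3]; ring
  rw [e, ac2_two, ac2_two, hf.f0, hf.f2, ← Complex.ofReal_add]
  congr 1
  rw [Complex.mul_re, Complex.mul_re, Complex.conj_re, Complex.conj_im, ac2_uvre, ac2_uvre]
  unfold aA aB
  ring

theorem ac2_mul (hn : St_num) {m : ℕ} {es : List EC} {y : ℕ → ℝ} (hy : ∀ i, |y i| ≤ 1 / 8)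
    {u : ℕ → ℂ} (hu : Wr m es y u) {i j k X : ℕ} (hi : i < m) (hj : j < m) (hk : k < m)
    (hyy : y i * y j = y k)
    (h1 : Prd (zv y (9 + i)) (zv y (9 + j)) (fun r => u (X + r)))
    (h2 : Prd (zv y 4) (zv y 0) (fun r => u (X + 16 + r)))
    (h3 : Prd (zv y 0) (zv y (9 + k)) (fun r => u (X + 32 + r)))
    (h4 : Prd (zv y 4) (zv y (9 + k)) (fun r => u (X + 48 + r)))
    (h5 : Prd (zv y (9 + i)) (zv y 0) (fun r => u (X + 64 + r)))
    (h6 : Prd (zv y 0) (zv y (9 + j)) (fun r => u (X + 80 + r))) :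
    ∀ h ∈ hMul X (9 + i) (9 + j) (9 + k), hC u h := by
  have hi' : 9 + i < nS m := by unfold nS; omega
  have hj' : 9 + j < nS m := by unfold nS; omega
  have hk' : 9 + k < nS m := by unfold nS; omega
  have h0' : 0 < nS m := by unfold nS; omega
  have h4' : 4 < nS m := by unfold nS; omega
  have ri := ac2_zs y hy i
  have rj := ac2_zs y hy j
  have rk := ac2_zs y hy k
  have r0 : -(1 / 64000) ≤ zv y 0 ∧ zv y 0 ≤ 1 / 512000 := by
    rw [ac2_z0]; constructor <;> norm_num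
  have r4 : -(1 / 64000) ≤ zv y 4 ∧ zv y 4 ≤ 1 / 512000 := by
    rw [ac2_z4]; constructor <;> norm_num
  intro h hh
  unfold hMul at hh
  rw [List.mem_append, List.mem_append, List.mem_append, List.mem_append, List.mem_append,
    List.mem_append, List.mem_singleton] at hh
  rcases hh with hh | hh | hh | hh | hh | hh | rfl
  · exact ac2_pr hu hi' hj' h1 h hh
  · exact ac2_pr hu h4' h0' h2 h hh
  · exact ac2_pr hu h0' hk' h3 h hh
  · exact ac2_pr hu h4' hk' h4 h hh
  · exact ac2_pr hu hi' h0' h5 h hh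
  · exact ac2_pr hu h0' hj' h6 h hh
  · show (if (0 : ℕ) = 0 then _ else _)
    rw [if_pos rfl]
    have hl : ((List.range 3).flatMap fun l => (List.range 4).map fun r =>
        (X + 16 * l + r, X + 48 + 16 * l + r)) =
        [(X + 0, X + 48 + 0), (X + 1, X + 48 + 1), (X + 2, X + 48 + 2), (X + 3, X + 48 + 3),
         (X + 16 + 0, X + 64 + 0), (X + 16 + 1, X + 64 + 1), (X + 16 + 2, X + 64 + 2),
         (X + 16 + 3, X + 64 + 3),
         (X + 32 + 0, X + 80 + 0), (X + 32 + 1, X + 80 + 1), (X + 32 + 2, X + 80 + 2),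
         (X + 32 + 3, X + 80 + 3)] := by
      simp [List.range_succ]
    have g1 := ac2_sum h1
    have g2 := ac2_sum h2
    have g3 := ac2_sum h3
    have g4 := ac2_sum h4
    have g5 := ac2_sum h5
    have g6 := ac2_sum h6
    have n1 := ac2_four hn ri r4 rj rk h1 h4
    have n2 := ac2_four hn r4 ri r0 r0 h2 h5
    have n3 := ac2_four hn r0 r0 rk rj h3 h6
    constructor
    · unfold dsum
      show (List.map _ ((List.range 3).flatMap fun l => (List.range 4).map fun r =>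
        (X + 16 * l + r, X + 48 + 16 * l + r))).sum = 0
      rw [hl]
      simp only [List.map_cons, List.map_nil, List.sum_cons, List.sum_nil]
      have e : ∀ a0 a1 a2 a3 b0 b1 b2 b3 c0 c1 c2 c3 a0' a1' a2' a3' b0' b1' b2' b3' c0' c1' c2'
          c3' : ℂ, a0' - a0 + (a1' - a1 + (a2' - a2 + (a3' - a3 + (b0' - b0 + (b1' - b1 +
          (b2' - b2 + (b3' - b3 + (c0' - c0 + (c1' - c1 + (c2' - c2 + (c3' - c3 + 0))))))))))) =
          ((a0' + a1' + a2' + a3') - (a0 + a1 + a2 + a3)) +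
          ((b0' + b1' + b2' + b3') - (b0 + b1 + b2 + b3)) +
          ((c0' + c1' + c2' + c3') - (c0 + c1 + c2 + c3)) := by intros; ring
      rw [e, g1, g2, g3, g4, g5, g6, ac2_z0, ac2_z4, ac2_z9, ac2_z9, ac2_z9]
      norm_cast
      push_cast
      have hyy' : y k = y i * y j := hyy.symm
      rw [hyy']
      ring
    · show (List.map _ ((List.range 3).flatMap fun l => (List.range 4).map fun r =>
        (X + 16 * l + r, X + 48 + 16 * l + r))).sum ≤ 1 / 14
      rw [hl]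
      simp only [List.map_cons, List.map_nil, List.sum_cons, List.sum_nil]
      obtain ⟨a1, a2, a3, a4⟩ := n1
      obtain ⟨b1, b2, b3, b4⟩ := n2
      obtain ⟨c1, c2, c3, c4⟩ := n3
      linarith

theorem ac2_ok : St_ac2 := by
  intro hn m es hb y hy hec u hu h hh
  have h0 : 0 < nS m := by unfold nS; omega
  have z0 := ac2_zv y hy 0
  unfold hAll at hh
  rw [List.mem_append, List.mem_append, List.mem_cons] at hh
  rcases hh with hh | hh | rfl | hh
  · rw [List.mem_flatMap] at hh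
    obtain ⟨v, hv, hh⟩ := hh
    rw [List.mem_range] at hv
    have s := hu.slot v hv
    have s0 := hu.slot 0 h0
    unfold hSlot at hh
    rw [List.mem_append, List.mem_append, List.mem_singleton] at hh
    have ra := s.ra
    have rb := s.rb
    rw [← hu.one] at ra rb
    rcases hh with hh | hh | rfl
    · exact ac2_rev ra h hh
    · exact ac2_rev rb h hh
    · have e0 := s.f0
      have e1 := s.f1
      have e2 := s.f2
      have e3 := s.f3
      have f0 := s0.f0
      have f1 := s0.f1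
      have f2 := s0.f2
      have f3 := s0.f3
      have zz := ac2_zv y hy v
      show (if (0 : ℕ) = 0 then _ else _)
      rw [if_pos rfl]
      constructor
      · unfold dsum
        simp only [List.map_cons, List.map_nil, List.sum_cons, List.sum_nil]
        rw [e0, e1, e2, e3, f0, f1, f2, f3]
        have e : ∀ a a' b b' c c' d d' : ℂ, a - b + (a' - b' + (c - d + (c' - d' + 0))) =
            (a + a') - (b + b') + ((c + c') - (d + d')) := by intros; ring
        rw [e, ac2_two, ac2_two, ac2_two, ac2_two, ac2_uvre, ac2_uvre, ac2_uvre, ac2_uvre, ac2_z0]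
        unfold aA aB
        norm_cast
        push_cast
        ring
      · simp only [List.map_cons, List.map_nil, List.sum_cons, List.sum_nil]
        rw [e0, e1, e2, e3, f0, f1, f2, f3, ac2_conj, ac2_conj]
        have d1 := hn.dA _ _ z0.1 z0.2 zz.1 zz.2
        have d2 := hn.dB _ zz.1 zz.2
        rw [ac2_z0] at d1 ⊢
        linarith
  · rw [List.mem_map] at hh
    obtain ⟨v, hv, rfl⟩ := hh
    rw [List.mem_range] at hv
    apply ac2_add hn hy hu
    · unfold nS; omega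
    · unfold nS; omega
    · unfold nS; omega
    · unfold zv
      rw [if_neg (by omega), if_pos (by omega), if_neg (by omega), if_pos (by omega)]
      have e1 : v + 2 - 1 = (v + 1 - 1) + 1 := by omega
      rw [e1, pow_succ]
      ring
  · have s := hu.slot 8 (by unfold nS; omega)
    have s0 := hu.slot 0 h0
    have e0 := s.f0
    have f0 := s0.f0
    show (if (2 : ℕ) = 0 then _ else _)
    rw [if_neg two_ne_zero]
    show (if (2 : ℕ) = 1 then _ else _) ∧ _
    rw [if_neg (by norm_num)]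
    have hz8 : zv y 8 = -(1 / 4000) := by
      unfold zv
      rw [if_neg (by omega), if_pos (by omega)]
      norm_num
    have hd : dif u (2, [(sW 8 0, sW 0 0), (sW 0 0, sW 8 0)]) 0 =
        uv (aA 0) - uv (aA (-(1 / 4000))) := by
      show u (sW 0 0) - u (sW 8 0) = _
      rw [e0, f0, hz8, ac2_z0]
    have hd1 : dif u (2, [(sW 8 0, sW 0 0), (sW 0 0, sW 8 0)]) 1 =
        -dif u (2, [(sW 8 0, sW 0 0), (sW 0 0, sW 8 0)]) 0 := by
      show u (sW 8 0) - u (sW 0 0) = -(u (sW 0 0) - u (sW 8 0))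
      ring
    have hdD := hn.dD
    rw [← hd] at hdD
    exact ⟨⟨by rw [hd1]; ring, hdD.1⟩, hdD.2⟩
  · rw [List.mem_flatMap] at hh
    obtain ⟨e, he, hh⟩ := hh
    have hemem : e.1 ∈ es := by
      obtain ⟨e1, e2⟩ := e
      rw [List.mem_zipIdx_iff_getElem?] at he
      exact List.mem_of_getElem? he
    have hbel := hb e.1 hemem
    have hec' := hec e.1 hemem
    rcases hee : e.1 with i | ⟨i, j, k⟩ | ⟨i, j, k⟩
    · rw [hee] at hbel hec' hh
      have hh' : h ∈ [hAdd (9 + i) 0 1] := hh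
      rw [List.mem_singleton] at hh'
      subst hh'
      have hi : i < m := hbel
      have hy1 : y i = 1 / 8 := hec'
      apply ac2_add hn hy hu
      · unfold nS; omega
      · exact h0
      · unfold nS; omega
      · rw [ac2_z9, ac2_z0, hy1]
        unfold zv
        rw [if_neg (by omega), if_pos (by omega)]
        norm_num
    · rw [hee] at hbel hec' hh
      have hh' : h ∈ [hAdd (9 + i) (9 + j) (9 + k)] := hh
      rw [List.mem_singleton] at hh'
      subst hh'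
      obtain ⟨hi, hj, hk⟩ : i < m ∧ j < m ∧ k < m := hbel
      have hy1 : y i + y j = y k := hec'
      apply ac2_add hn hy hu
      · unfold nS; omega
      · unfold nS; omega
      · unfold nS; omega
      · rw [ac2_z9, ac2_z9, ac2_z9, ← hy1]
        ring
    · rw [hee] at hbel hec' hh
      obtain ⟨hi, hj, hk⟩ : i < m ∧ j < m ∧ k < m := hbel
      have hy1 : y i * y j = y k := hec'
      obtain ⟨p1, p2, p3, p4, p5, p6⟩ := hu.prd e he i j k hee _ rfl
      exact ac2_mul hn hy hu hi hj hk hy1 p1 p2 p3 p4 p5 p6 h hh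

end Pool.Agent.H670R4
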