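import Pool.Agent.H670R4.Sub

/-! # AS1: a reversor -/

set_option autoImplicit false

namespace Pool.Agent.H670R4

open Complex

theorem as1_unit {p : ℂ} (hp : ‖p‖ = 1) : p * (starRingEnd ℂ) p = 1 := by
  rw [Complex.mul_conj, Complex.normSq_eq_norm_sq, hp]
  simp

theorem as1_ne {p : ℂ} (hp : ‖p‖ = 1) : p ≠ 0 := by
  intro h
  rw [h, norm_zero] at hp
  norm_num at hp

theorem as1_par {p q r s : ℂ} (hp : ‖p‖ = 1) (hq : ‖q‖ = 1) (hr : ‖r‖ = 1) (hs : ‖s‖ = 1)
    (h1 : 2 * (p - q) + (r - s) = 0) (hne : p - q ≠ 0) : p * q = r * s := by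
  have h1' : 2 * ((starRingEnd ℂ) p - (starRingEnd ℂ) q) +
      ((starRingEnd ℂ) r - (starRingEnd ℂ) s) = 0 := by
    have h2 : (starRingEnd ℂ) (2 : ℂ) = 2 := Complex.conj_ofNat 2
    have := congrArg (starRingEnd ℂ) h1
    rw [map_add, map_mul, map_sub, map_sub, h2, map_zero] at this
    exact this
  have ep := as1_unit hp
  have eq := as1_unit hq
  have er := as1_unit hr
  have es := as1_unit hs
  have h : (p - q) * (p * q - r * s) = 0 := by
    linear_combination (1 / 2) * (p * q * h1 + p * q * r * s * h1' - 2 * q * r * s * ep +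
      2 * p * r * s * eq - p * q * s * er + p * q * r * es)
  rcases mul_eq_zero.mp h with h | h
  · exact absurd h hne
  · linear_combination h

theorem as1_ok : St_as1 := by
  intro p s x q r y hp hs hx hq hr hy h1 hpq h2 hxr
  have e3 := as1_par hp hq hr hs h1 hpq
  have e4 := as1_par hx hr hy hp h2 hxr
  have e1 : q * (p - 2 * s) - s * (s - 2 * p) = 0 := by
    linear_combination e3 + s * h1
  have e2 : r * (x - 2 * p) - p * (p - 2 * x) = 0 := by
    linear_combination e4 + p * h2
  have hps : p * s ≠ 0 := mul_ne_zero (as1_ne hp) (as1_ne hs)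
  have h : p * s * (x * s - p ^ 2) = 0 := by
    linear_combination (-(1 / 3)) * (s * (p - 2 * s) * e2 + (p - 2 * s) * (x - 2 * p) * e3 -
      p * (x - 2 * p) * e1)
  rcases mul_eq_zero.mp h with h | h
  · exact absurd h hps
  · linear_combination h

end Pool.Agent.H670R4
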