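import Pool.Agent.H670R4.Sub

/-! AS2: signs. -/

set_option autoImplicit false

namespace Pool.Agent.H670R4

theorem as2_normSq {z : ℂ} (h : ‖z‖ = 1) : z.re ^ 2 + z.im ^ 2 = 1 := by
  have h1 := Complex.sq_norm z
  rw [h, Complex.normSq_apply] at h1
  linear_combination -h1

theorem as2_ok : St_as2 := by
  intro s q r hs hq hr _ hnq _ heq hne hn
  have hs1 := as2_normSq hs
  have hq1 := as2_normSq hq
  have hr1 := as2_normSq hr
  obtain ⟨_, _, h3, _, _, h6⟩ := hnq
  have hre := congrArg Complex.re heq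
  have him := congrArg Complex.im heq
  simp only [Complex.add_re, Complex.mul_re, Complex.sub_re, Complex.one_re, Complex.re_ofNat,
    Complex.im_ofNat, Complex.sub_im, Complex.one_im, Complex.zero_re, zero_mul, sub_zero] at hre
  simp only [Complex.add_im, Complex.mul_im, Complex.sub_im, Complex.one_im, Complex.re_ofNat,
    Complex.im_ofNat, Complex.sub_re, Complex.one_re, Complex.zero_im, zero_mul, add_zero,
    zero_sub] at him
  have h3s : 0 < √(3 : ℝ) := Real.sqrt_pos.mpr (by norm_num)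
  have h33 : √(3 : ℝ) * √(3 : ℝ) = 3 := Real.mul_self_sqrt (by norm_num)
  have hc : 0 < q.re := by
    simp only [cr, ro, Complex.mul_im, Complex.mul_re, Complex.one_re, Complex.one_im] at h3 h6
    have : 0 < (8 * √(3 : ℝ) / 7) * q.re := by nlinarith
    exact (mul_pos_iff_of_pos_left (by positivity)).mp this
  have hn2 : 1 ≤ ‖1 + ro * (1 - q)‖ ^ 2 := one_le_pow₀ hn
  rw [Complex.sq_norm, Complex.normSq_apply] at hn2
  simp only [ro, Complex.add_re, Complex.mul_re, Complex.sub_re, Complex.one_re, Complex.add_im,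
    Complex.mul_im, Complex.sub_im, Complex.one_im] at hn2
  have hcond : 0 ≤ 3 * (1 - q.re) + 2 * √(3 : ℝ) * q.im := by
    nlinarith
  have hc1 : q.re < 1 := by
    rcases lt_or_ge q.re 1 with h | h
    · exact h
    · exfalso
      apply hne
      have h0 : q.im = 0 := by nlinarith [sq_nonneg q.im]
      have h1 : q.re = 1 := by nlinarith [sq_nonneg q.im]
      apply Complex.ext
      · simp [h1]
      · simp [h0]
  have hd : 0 < q.im := by
    by_contra hcon
    push Not at hcon
    have h1 : 0 ≤ -(2 * √(3 : ℝ) * q.im) := by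
      have := mul_nonneg h3s.le (neg_nonneg.mpr hcon)
      linarith
    have h2 : -(2 * √(3 : ℝ) * q.im) ≤ 3 * (1 - q.re) := by linarith
    have h4 : (-(2 * √(3 : ℝ) * q.im)) ^ 2 ≤ (3 * (1 - q.re)) ^ 2 := by
      apply pow_le_pow_left₀ h1 h2
    have h5 : (-(2 * √(3 : ℝ) * q.im)) ^ 2 = 12 * q.im ^ 2 := by
      calc (-(2 * √(3 : ℝ) * q.im)) ^ 2 = 4 * (√(3 : ℝ) * √(3 : ℝ)) * q.im ^ 2 := by ring
        _ = 12 * q.im ^ 2 := by rw [h33]; ring
    rw [h5] at h4
    have h7 : q.im ^ 2 = (1 - q.re) * (1 + q.re) := by linear_combination hq1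
    rw [h7] at h4
    have h8 : 0 < (1 - q.re) * (12 * (1 + q.re) - 9 * (1 - q.re)) := by
      apply mul_pos (by linarith)
      linarith
    have h11 : (3 * (1 - q.re)) ^ 2 = (1 - q.re) * (9 * (1 - q.re)) := by ring
    rw [h11] at h4
    linarith
  have hkey : (1 - q.re) * (2 - s.re) + s.im * q.im = 0 := by
    have e1 : r.re = s.re - 2 * (1 - q.re) := by linarith
    have e2 : r.im = s.im + 2 * q.im := by linarith
    rw [e1, e2] at hr1
    linear_combination (1 / 4) * hr1 - (1 / 4) * hs1 - hq1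
  have hsre : s.re ≤ 1 := (Complex.re_le_norm s).trans hs.le
  by_contra hcon
  push Not at hcon
  have h9 : 0 ≤ s.im * q.im := mul_nonneg hcon hd.le
  have h10 : 0 < (1 - q.re) * (2 - s.re) := mul_pos (by linarith) (by linarith)
  linarith

end Pool.Agent.H670R4
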