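import Pool.Agent.H670R4.Sub

/-! Task AS3: products. -/

namespace Pool.Agent.H670R4

theorem as3_cone (z : ℂ) (hz : ‖z‖ = 1) (h : near 1 z) : 0 < z.re ∧ |z.im| < z.re := by
  obtain ⟨h1, _, h3, h4, _, h6⟩ := h
  have hsq3 : √3 * √3 = (3 : ℝ) := Real.mul_self_sqrt (by norm_num)
  have h3pos : (0 : ℝ) < √3 := Real.sqrt_pos.2 (by norm_num)
  have hn : z.re * z.re + z.im * z.im = 1 := by
    have : ‖z‖ ^ 2 = 1 := by rw [hz]; norm_num
    rw [← Complex.normSq_eq_norm_sq, Complex.normSq_apply] at this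
    exact this
  have e1 : 1 ≤ Complex.normSq (1 + ro * z) := by
    rw [Complex.normSq_eq_norm_sq]
    nlinarith [norm_nonneg (1 + ro * z)]
  have e4 : 1 ≤ Complex.normSq (z + ro * 1) := by
    rw [Complex.normSq_eq_norm_sq]
    nlinarith [norm_nonneg (z + ro * 1)]
  rw [Complex.normSq_apply] at e1 e4
  simp only [ro, cr, Complex.add_re, Complex.add_im, Complex.mul_re, Complex.mul_im, Complex.one_re,
    Complex.one_im] at e1 e4 h3 h6
  have f1 : z.re + 4 * √3 * z.im ≤ 7 / 2 := by nlinarith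
  have f4 : z.re - 4 * √3 * z.im ≤ 7 / 2 := by nlinarith
  have f3 : z.im < 4 * √3 * z.re := by nlinarith
  have f6 : -z.im < 4 * √3 * z.re := by nlinarith
  have hre : 0 < z.re := by
    have : 0 < √3 * z.re := by linarith
    exact (mul_pos_iff_of_pos_left h3pos).1 this
  refine ⟨hre, ?_⟩
  by_contra hcon
  push Not at hcon
  have g1 : z.re + 4 * √3 * |z.im| ≤ 7 / 2 := by
    rcases abs_cases z.im with ⟨h, _⟩ | ⟨h, _⟩ <;> rw [h] <;> linarith
  have g2 : |z.im| * |z.im| = z.im * z.im := abs_mul_abs_self _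
  have g3 : 0 ≤ |z.im| := abs_nonneg _
  have g4 : 1 / 2 ≤ |z.im| * |z.im| := by nlinarith
  have g5 : 4 * √3 * |z.im| ≤ 7 / 2 := by linarith
  have g6 : (4 * √3 * |z.im|) * (4 * √3 * |z.im|) ≤ 7 / 2 * (7 / 2) :=
    mul_self_le_mul_self (by positivity) g5
  nlinarith

theorem as3_ok : St_as3 := by
  intro A B S S' D D' hA hB hS hS' hD hD' nA nB nS h1 h2 h3 h4
  obtain ⟨a1, a2⟩ := as3_cone A hA nA
  obtain ⟨b1, b2⟩ := as3_cone B hB nB
  obtain ⟨s1, _⟩ := as3_cone S hS nS
  have cA : A * (starRingEnd ℂ) A = 1 := by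
    rw [Complex.mul_conj, Complex.normSq_eq_norm_sq, hA]; norm_num
  have cB : B * (starRingEnd ℂ) B = 1 := by
    rw [Complex.mul_conj, Complex.normSq_eq_norm_sq, hB]; norm_num
  have hsq : S ^ 2 = (A * B) ^ 2 := by
    linear_combination (-S ^ 2) * h3 + S * D * h2 + A ^ 2 * h1
  have hSAB : S = A * B := by
    rcases sq_eq_sq_iff_eq_or_eq_neg.1 hsq with h | h
    · exact h
    · exfalso
      have hr : S.re = -(A.re * B.re - A.im * B.im) := by rw [h]; simp
      have : |A.im * B.im| < A.re * B.re := by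
        rw [abs_mul]
        exact mul_lt_mul'' a2 b2 (abs_nonneg _) (abs_nonneg _)
      have := (abs_lt.1 this).2
      linarith
  subst hSAB
  have e1 : S' = (starRingEnd ℂ) A * (starRingEnd ℂ) B := by
    linear_combination ((starRingEnd ℂ) A * (starRingEnd ℂ) B) * h4 - S' * cA * (B * (starRingEnd ℂ) B)
      - S' * cB
  have e2 : D = (starRingEnd ℂ) A * B := by
    linear_combination ((starRingEnd ℂ) A * (starRingEnd ℂ) B) * h1 - D * cA * (B * (starRingEnd ℂ) B)
      - D * cB + (starRingEnd ℂ) A * B * cB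
  have e3 : D' = A * (starRingEnd ℂ) B := by
    linear_combination ((starRingEnd ℂ) A * (starRingEnd ℂ) B) * h2 - D' * cA * (B * (starRingEnd ℂ) B)
      - D' * cB + A * (starRingEnd ℂ) B * cA
  rw [e1, e2, e3]
  apply Complex.ext
  · simp
    ring
  · simp
    ring

end Pool.Agent.H670R4
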