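import Pool.Agent.H670R4.Sub

/-!
# From the wires to a solution (the wire `0` is `1`)
-/

namespace Pool.Agent.H670R4

open Pool.Agent.NPC Pool.Agent.NPC.ER Pool.Agent.H670R2
open scoped ComplexConjugate

/-- a narrow hole of type 1 -/
theorem as4_hS1 (u : ℕ → ℂ) (a b c d : ℕ) (h : hS u (1, [(a, b), (c, d)])) :
    2 * (u b - u a) + (u d - u c) = 0 ∧ u b - u a ≠ 0 ∧ 1 ≤ ‖u 0 + ro * (u b - u a)‖ := by
  unfold hS at h
  simpa [dif] using h

/-- what is known about the wires -/
structure AS4 (N : ℕ) (u : ℕ → ℂ) : Prop where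
  a1 : St_as1
  a2 : St_as2
  a3 : St_as3
  one : u 0 = 1
  nrm : ∀ i < N, ‖u i‖ = 1
  nr : ∀ i < N, near 1 (u i)

/-- reversors -/
theorem as4_rev {N : ℕ} {u : ℕ → ℂ} (H : AS4 N u) (p s x q : ℕ) (hp : p < N) (hs : s < N)
    (hx : x < N) (hq : q + 2 < N) (h : ∀ h ∈ rev p s x q, hS u h) : u x * u s = u p ^ 2 := by
  have h1 := as4_hS1 u _ _ _ _ (h (1, [(q, p), (s, q + 1)]) (by simp [rev]))
  have h2 := as4_hS1 u _ _ _ _ (h (1, [(q + 1, x), (p, q + 2)]) (by simp [rev]))
  exact H.a1 (u p) (u s) (u x) (u q) (u (q + 1)) (u (q + 2)) (H.nrm p hp) (H.nrm s hs)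
    (H.nrm x hx) (H.nrm q (by omega)) (H.nrm (q + 1) (by omega)) (H.nrm (q + 2) hq)
    h1.1 h1.2.1 h2.1 h2.2.1

/-- reversors with the centre `1` -/
theorem as4_rev0 {N : ℕ} {u : ℕ → ℂ} (H : AS4 N u) (s x q : ℕ) (hs : s < N)
    (hx : x < N) (hq : q + 2 < N) (h : ∀ h ∈ rev 0 s x q, hS u h) :
    u x * u s = 1 ∧ (u s).im < 0 := by
  have h0 := as4_rev H 0 s x q (by omega) hs hx hq h
  rw [H.one] at h0
  refine ⟨by rw [h0]; norm_num, ?_⟩
  have h1 := as4_hS1 u _ _ _ _ (h (1, [(q, 0), (s, q + 1)]) (by simp [rev]))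
  rw [H.one] at h1
  exact H.a2 (u s) (u q) (u (q + 1)) (H.nrm s hs) (H.nrm q (by omega)) (H.nrm (q + 1) (by omega))
    (H.nr s hs) (H.nr q (by omega)) (H.nr (q + 1) (by omega)) h1.1 h1.2.1 h1.2.2

theorem as4_inv {A B : ℂ} (hA : ‖A‖ = 1) (h : A * B = 1) : B = conj A := by
  have h1 : A * conj A = 1 := by
    rw [Complex.mul_conj, Complex.normSq_eq_norm_sq, hA]; simp
  have hA0 : A ≠ 0 := by
    intro h0; rw [h0] at hA; simp at hA
  exact mul_left_cancel₀ hA0 (h.trans h1.symm)

/-- slots -/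
theorem as4_slot {N : ℕ} {u : ℕ → ℂ} (H : AS4 N u) (v : ℕ) (hv : sW v 9 < N)
    (h0N : sW 0 9 < N) (h : ∀ h ∈ hSlot v, hS u h) :
    u (sW v 1) = conj (u (sW v 0)) ∧ u (sW v 3) = conj (u (sW v 2)) ∧ 0 < (u (sW v 0)).im ∧
      dsum u [(sW v 0, sW 0 0), (sW v 1, sW 0 1), (sW 0 2, sW v 2), (sW 0 3, sW v 3)] = 0 := by
  unfold sW at *
  have h1 := as4_rev0 H (1 + 10 * v + 1) (1 + 10 * v + 0) (1 + 10 * v + 4) (by omega) (by omega)
    (by omega) (fun g hg => h g (by unfold hSlot sW; simp only [List.mem_append]; left; exact hg))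
  have h2 := as4_rev0 H (1 + 10 * v + 3) (1 + 10 * v + 2) (1 + 10 * v + 7) (by omega) (by omega)
    (by omega) (fun g hg => h g (by
      unfold hSlot sW; simp only [List.mem_append]; right; left; exact hg))
  have h3 := h (0, [(1 + 10 * v + 0, 1 + 10 * 0 + 0), (1 + 10 * v + 1, 1 + 10 * 0 + 1),
    (1 + 10 * 0 + 2, 1 + 10 * v + 2), (1 + 10 * 0 + 3, 1 + 10 * v + 3)]) (by
      unfold hSlot sW; simp only [List.mem_append]; right; right; simp)
  have e1 := as4_inv (H.nrm (1 + 10 * v + 0) (by omega)) h1.1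
  have e2 := as4_inv (H.nrm (1 + 10 * v + 2) (by omega)) h2.1
  refine ⟨e1, e2, ?_, ?_⟩
  · have := h1.2
    rw [e1, Complex.conj_im] at this
    linarith
  · unfold hS at h3
    simpa using h3

/-- the wires of two slots with the same real part -/
theorem as4_eq {A B : ℂ} (hA : ‖A‖ = 1) (hB : ‖B‖ = 1) (ha : 0 < A.im) (hb : 0 < B.im)
    (h : A.re = B.re) : A = B := by
  have h1 : A.re * A.re + A.im * A.im = 1 := by
    rw [← Complex.normSq_apply, Complex.normSq_eq_norm_sq, hA]; norm_num
  have h2 : B.re * B.re + B.im * B.im = 1 := by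
    rw [← Complex.normSq_apply, Complex.normSq_eq_norm_sq, hB]; norm_num
  apply Complex.ext h
  rw [h] at h1
  have h3 : (A.im - B.im) * (A.im + B.im) = 0 := by ring_nf; linarith
  rcases mul_eq_zero.mp h3 with h4 | h4
  · linarith
  · linarith

/-- products -/
theorem as4_pr {N : ℕ} {u : ℕ → ℂ} (H : AS4 N u) (X i j : ℕ) (hX : X + 15 < N)
    (hi : sW i 9 < N) (hj : sW j 9 < N) (h : ∀ h ∈ hPr X i j, hS u h) :
    u X + u (X + 1) + u (X + 2) + u (X + 3) =
      ((4 * (u (sW i 0)).re * (u (sW j 2)).re : ℝ) : ℂ) := by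
  have hi0 : sW i 0 < N := by unfold sW at *; omega
  have hj2 : sW j 2 < N := by unfold sW at *; omega
  have h1 := as4_rev H (sW j 2) (X + 2) X (X + 4) hj2 (by omega) (by omega) (by omega)
    (fun g hg => h g (by unfold hPr; simp only [List.mem_append]; left; exact hg))
  have h2 := as4_rev H (sW i 0) (X + 3) X (X + 7) hi0 (by omega) (by omega) (by omega)
    (fun g hg => h g (by unfold hPr; simp only [List.mem_append]; right; left; exact hg))
  have h3 := (as4_rev0 H (X + 3) (X + 2) (X + 10) (by omega) (by omega) (by omega)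
    (fun g hg => h g (by unfold hPr; simp only [List.mem_append]; right; right; left; exact hg))).1
  have h4 := (as4_rev0 H (X + 1) X (X + 13) (by omega) (by omega) (by omega)
    (fun g hg => h g (by unfold hPr; simp only [List.mem_append]; right; right; right; exact hg))).1
  exact H.a3 (u (sW i 0)) (u (sW j 2)) (u X) (u (X + 1)) (u (X + 2)) (u (X + 3))
    (H.nrm _ hi0) (H.nrm _ hj2) (H.nrm _ (by omega)) (H.nrm _ (by omega)) (H.nrm _ (by omega))
    (H.nrm _ (by omega)) (H.nr _ hi0) (H.nr _ hj2) (H.nr _ (by omega)) h1 h2 h3 h4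

/-- the value of a slot -/
noncomputable def as4_y (u : ℕ → ℂ) (v : ℕ) : ℝ := (u (sW v 0)).re - (u (sW 0 0)).re

/-- slots: the wires `B` -/
theorem as4_B {u : ℕ → ℂ} (v : ℕ)
    (c0 : u (sW 0 1) = conj (u (sW 0 0))) (c1 : u (sW 0 3) = conj (u (sW 0 2)))
    (c2 : u (sW v 1) = conj (u (sW v 0))) (c3 : u (sW v 3) = conj (u (sW v 2)))
    (h : dsum u [(sW v 0, sW 0 0), (sW v 1, sW 0 1), (sW 0 2, sW v 2), (sW 0 3, sW v 3)] = 0) :
    (u (sW v 2)).re = (u (sW 0 2)).re + as4_y u v := by
  unfold dsum at h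
  simp only [List.map_cons, List.map_nil, List.sum_cons, List.sum_nil] at h
  rw [c0, c1, c2, c3] at h
  have := congrArg Complex.re h
  simp only [Complex.add_re, Complex.sub_re, Complex.conj_re, Complex.zero_re] at this
  unfold as4_y
  linarith

/-- additions -/
theorem as4_add {u : ℕ → ℂ} (i j k : ℕ)
    (c0 : u (sW 0 1) = conj (u (sW 0 0))) (c1 : u (sW i 1) = conj (u (sW i 0)))
    (c2 : u (sW j 1) = conj (u (sW j 0))) (c3 : u (sW k 1) = conj (u (sW k 0)))
    (h : hS u (hAdd i j k)) : as4_y u i + as4_y u j = as4_y u k := by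
  unfold hS hAdd dsum at h
  simp only [List.map_cons, List.map_nil, List.sum_cons, List.sum_nil, if_true] at h
  rw [c0, c1, c2, c3] at h
  have := congrArg Complex.re h
  simp only [Complex.add_re, Complex.sub_re, Complex.conj_re, Complex.zero_re] at this
  unfold as4_y
  linarith

theorem as4_ok : St_as4 := by
  intro a1 a2 a3 m es hb u h1 hn hnr hh
  have H : AS4 (nW m es) u := ⟨a1, a2, a3, h1, hn, hnr⟩
  have hsl : ∀ v < nS m, ∀ g ∈ hSlot v, hS u g := by
    intro v hv g hg
    apply hh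
    unfold hAll
    simp only [List.mem_append, List.mem_flatMap, List.mem_range]
    left
    exact ⟨v, hv, hg⟩
  have hW : ∀ v < nS m, sW v 9 < nW m es := by
    intro v hv
    unfold sW nW
    omega
  have h9 : nS m = 9 + m := rfl
  have hslot := fun v (hv : v < nS m) => as4_slot H v (hW v hv) (hW 0 (by omega)) (hsl v hv)
  have s0 := hslot 0 (by omega)
  have hB : ∀ v < nS m, (u (sW v 2)).re = (u (sW 0 2)).re + as4_y u v := fun v hv =>
    as4_B v s0.1 s0.2.1 (hslot v hv).1 (hslot v hv).2.1 (hslot v hv).2.2.2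
  have hAdd' : ∀ i j k, i < nS m → j < nS m → k < nS m → hS u (hAdd i j k) →
      as4_y u i + as4_y u j = as4_y u k := fun i j k hi hj hk h =>
    as4_add i j k s0.1 (hslot i hi).1 (hslot j hj).1 (hslot k hk).1 h
  have y0 : as4_y u 0 = 0 := by unfold as4_y; ring
  have hch : ∀ v < 7, 2 * as4_y u (v + 1) = as4_y u (v + 2) := by
    intro v hv
    have := hAdd' (v + 1) (v + 1) (v + 2) (by omega) (by omega) (by omega) (by
      apply hh
      unfold hAll
      simp only [List.mem_append, List.mem_map, List.mem_range]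
      right; left
      exact ⟨v, hv, rfl⟩)
    linarith
  have c1 := hch 0 (by norm_num)
  have c2 := hch 1 (by norm_num)
  have c3 := hch 2 (by norm_num)
  have c4 := hch 3 (by norm_num)
  have c5 := hch 4 (by norm_num)
  have c6 := hch 5 (by norm_num)
  have c7 := hch 6 (by norm_num)
  norm_num at c1 c2 c3 c4 c5 c6 c7
  have y8 : as4_y u 8 ≠ 0 := by
    have h2 := hh (2, [(sW 8 0, sW 0 0), (sW 0 0, sW 8 0)]) (by
      unfold hAll
      simp only [List.mem_append, List.mem_cons]
      right; right; left; trivial)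
    unfold hS at h2
    have h3 : u (sW 0 0) - u (sW 8 0) ≠ 0 := by
      have := h2
      simp [dif] at this
      exact this.1
    intro h4
    apply h3
    have s8 := hslot 8 (by omega)
    have hN0 : sW 0 0 < nW m es := by
      have := hW 0 (by omega); unfold sW at *; omega
    have hN8 : sW 8 0 < nW m es := by
      have := hW 8 (by omega); unfold sW at *; omega
    have h5 : u (sW 8 0) = u (sW 0 0) :=
      as4_eq (hn _ hN8) (hn _ hN0) s8.2.2.1 s0.2.2.1 (by unfold as4_y at h4; linarith)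
    rw [h5, sub_self]
  have y4 : as4_y u 4 ≠ 0 := by
    intro h4
    apply y8
    linarith
  have y41 : as4_y u 4 = 8 * as4_y u 1 := by linarith
  refine ⟨fun i => as4_y u (9 + i) / as4_y u 4, ?_⟩
  intro e he
  have hbe := hb e he
  obtain ⟨idx, hidx⟩ : ∃ idx, (e, idx) ∈ es.zipIdx := by
    obtain ⟨idx, hlt, heq⟩ := List.getElem_of_mem he
    refine ⟨idx, ?_⟩
    rw [List.mem_zipIdx_iff_getElem?]
    simp only
    rw [List.getElem?_eq_getElem hlt, heq]
  have hidxlt : idx < es.length := by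
    rw [List.mem_zipIdx_iff_getElem?] at hidx
    simp only at hidx
    exact (List.getElem?_eq_some_iff.mp hidx).1
  have hE : ∀ g ∈ hEq (1 + 10 * nS m + 96 * idx) e, hS u g := by
    intro g hg
    apply hh
    unfold hAll
    simp only [List.mem_append, List.mem_cons, List.mem_flatMap]
    right; right; right
    exact ⟨(e, idx), hidx, hg⟩
  cases e with
  | one i =>
    have hi : i < m := by simpa [EC.below] using hbe
    have := hAdd' (9 + i) 0 1 (by omega) (by omega) (by omega) (hE _ (by simp [hEq]))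
    rw [y0, add_zero] at this
    show as4_y u (9 + i) / as4_y u 4 = 1 / 8
    rw [this]
    have y1 : as4_y u 1 ≠ 0 := by
      intro h; apply y4; rw [y41, h]; ring
    rw [y41]
    field_simp
  | add i j k =>
    have hijk : i < m ∧ j < m ∧ k < m := by simpa [EC.below, and_assoc] using hbe
    have := hAdd' (9 + i) (9 + j) (9 + k) (by omega) (by omega) (by omega) (hE _ (by simp [hEq]))
    show as4_y u (9 + i) / as4_y u 4 + as4_y u (9 + j) / as4_y u 4 =
      as4_y u (9 + k) / as4_y u 4
    rw [← this]; ring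
  | mul i j k =>
    have hijk : i < m ∧ j < m ∧ k < m := by simpa [EC.below, and_assoc] using hbe
    obtain ⟨hi, hj, hk⟩ := hijk
    set X := 1 + 10 * nS m + 96 * idx with hX
    have hXN : X + 95 < nW m es := by
      rw [hX]; unfold nW; omega
    have hM : ∀ g ∈ hMul X (9 + i) (9 + j) (9 + k), hS u g := hE
    unfold hMul at hM
    simp only [List.mem_append] at hM
    have p1 := as4_pr H X (9 + i) (9 + j) (by omega) (hW _ (by omega)) (hW _ (by omega))
      (fun g hg => hM g (by left; exact hg))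
    have p2 := as4_pr H (X + 16) 4 0 (by omega) (hW _ (by omega)) (hW _ (by omega))
      (fun g hg => hM g (by right; left; exact hg))
    have p3 := as4_pr H (X + 32) 0 (9 + k) (by omega) (hW _ (by omega)) (hW _ (by omega))
      (fun g hg => hM g (by right; right; left; exact hg))
    have p4 := as4_pr H (X + 48) 4 (9 + k) (by omega) (hW _ (by omega)) (hW _ (by omega))
      (fun g hg => hM g (by right; right; right; left; exact hg))
    have p5 := as4_pr H (X + 64) (9 + i) 0 (by omega) (hW _ (by omega)) (hW _ (by omega))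
      (fun g hg => hM g (by right; right; right; right; left; exact hg))
    have p6 := as4_pr H (X + 80) 0 (9 + j) (by omega) (hW _ (by omega)) (hW _ (by omega))
      (fun g hg => hM g (by right; right; right; right; right; left; exact hg))
    have p7 := hM (0, (List.range 3).flatMap fun l => (List.range 4).map fun r =>
        (X + 16 * l + r, X + 48 + 16 * l + r)) (by
          right; right; right; right; right; right; simp)
    unfold hS dsum at p7
    rw [if_pos rfl] at p7
    have hr3 : List.range 3 = [0, 1, 2] := rfl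
    have hr4 : List.range 4 = [0, 1, 2, 3] := rfl
    rw [hr3, hr4] at p7
    simp only [List.flatMap_cons, List.flatMap_nil, List.map_cons, List.map_nil, List.append_nil,
      List.cons_append, List.nil_append, List.sum_cons, List.sum_nil, add_assoc, mul_zero,
      mul_one, Nat.reduceAdd, Nat.reduceMul, zero_add, add_zero] at p7
    simp only [add_assoc, Nat.reduceAdd] at p1 p2 p3 p4 p5 p6
    have key : (((4 * (u (sW 4 0)).re * (u (sW (9 + k) 2)).re : ℝ) : ℂ) +
        ((4 * (u (sW (9 + i) 0)).re * (u (sW 0 2)).re : ℝ) : ℂ) +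
        ((4 * (u (sW 0 0)).re * (u (sW (9 + j) 2)).re : ℝ) : ℂ)) -
        (((4 * (u (sW (9 + i) 0)).re * (u (sW (9 + j) 2)).re : ℝ) : ℂ) +
        ((4 * (u (sW 4 0)).re * (u (sW 0 2)).re : ℝ) : ℂ) +
        ((4 * (u (sW 0 0)).re * (u (sW (9 + k) 2)).re : ℝ) : ℂ)) = 0 := by
      rw [← p1, ← p2, ← p3, ← p4, ← p5, ← p6]
      linear_combination p7
    have key' : (4 * (u (sW 4 0)).re * (u (sW (9 + k) 2)).re +
        4 * (u (sW (9 + i) 0)).re * (u (sW 0 2)).re +
        4 * (u (sW 0 0)).re * (u (sW (9 + j) 2)).re) -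
        (4 * (u (sW (9 + i) 0)).re * (u (sW (9 + j) 2)).re +
        4 * (u (sW 4 0)).re * (u (sW 0 2)).re +
        4 * (u (sW 0 0)).re * (u (sW (9 + k) 2)).re) = 0 := by
      exact_mod_cast key
    rw [hB (9 + k) (by omega), hB (9 + j) (by omega)] at key'
    have A4 : (u (sW 4 0)).re = (u (sW 0 0)).re + as4_y u 4 := by unfold as4_y; ring
    have Ai : (u (sW (9 + i) 0)).re = (u (sW 0 0)).re + as4_y u (9 + i) := by unfold as4_y; ring
    rw [A4, Ai] at key'
    have fin : as4_y u (9 + i) * as4_y u (9 + j) = as4_y u 4 * as4_y u (9 + k) := by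
      linear_combination (-1 / 4) * key'
    show as4_y u (9 + i) / as4_y u 4 * (as4_y u (9 + j) / as4_y u 4) =
      as4_y u (9 + k) / as4_y u 4
    rw [div_mul_div_comm, fin]
    field_simp

end Pool.Agent.H670R4
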