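import Pool.Agent.H670R4.Sub

/-!
# All edges of the realization have length one
-/

namespace Pool.Agent.H670R4

open Pool.Agent.NPC Pool.Agent.NPC.ER Pool.Agent.H670R2
open scoped ComplexConjugate

theorem cedge_norm_om : ‖om‖ = 1 := by
  have h : Complex.normSq om = 1 := by
    rw [Complex.normSq_apply]
    show (1 / 2 : ℝ) * (1 / 2) + √3 / 2 * (√3 / 2) = 1
    have := Real.mul_self_sqrt (show (0 : ℝ) ≤ 3 by norm_num)
    nlinarith
  rw [← Real.sqrt_one, ← h]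
  rfl

theorem cedge_norm_om1 : ‖om - 1‖ = 1 := by
  have h : Complex.normSq (om - 1) = 1 := by
    rw [Complex.normSq_apply]
    have h1 : (om - 1).re = -(1 / 2) := by
      show (1 / 2 : ℝ) - 1 = _
      norm_num
    have h2 : (om - 1).im = √3 / 2 := by
      show (√3 / 2 : ℝ) - 0 = _
      ring
    rw [h1, h2]
    have := Real.mul_self_sqrt (show (0 : ℝ) ≤ 3 by norm_num)
    nlinarith
  rw [← Real.sqrt_one, ← h]
  rfl

theorem cedge_norm_ro : ‖ro‖ = 1 := by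
  have h : Complex.normSq ro = 1 := by
    rw [Complex.normSq_apply]
    show (-(1 / 7) : ℝ) * (-(1 / 7)) + 4 * √3 / 7 * (4 * √3 / 7) = 1
    have := Real.mul_self_sqrt (show (0 : ℝ) ≤ 3 by norm_num)
    nlinarith
  rw [← Real.sqrt_one, ← h]
  rfl

theorem cedge_ro_om : ro * 7 = 8 * om - 5 := by
  apply Complex.ext
  · show (ro * 7).re = (8 * om - 5).re
    simp only [Complex.mul_re, Complex.sub_re]
    simp [ro, om]
    norm_num
  · simp only [Complex.mul_im, Complex.sub_im]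
    simp [ro, om]
    ring

theorem cedge_gp_succ {Λ : Lay} {u : ℕ → ℂ} (hv : Huv Λ u) (i j : ℕ)
    (h : i = 6 * Λ.n + 2 → Dw Λ u j = 0) :
    gp Λ u (i + 1) j = gp Λ u i j + cw Λ u (i / 6) := by
  unfold gp Uh
  rw [Finset.sum_range_succ]
  by_cases h1 : i + 1 ≤ 6 * Λ.n + 2
  · rw [if_pos h1, if_pos (by omega)]
    ring
  · rw [if_neg h1]
    by_cases h2 : i ≤ 6 * Λ.n + 2
    · rw [if_pos h2]
      have h3 := h (by omega)
      rw [hv.D] at h3
      linear_combination h3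
    · rw [if_neg h2]
      ring

theorem cedge_gp_add {Λ : Lay} {u : ℕ → ℂ} (hv : Huv Λ u) (β j : ℕ)
    (h : β = Λ.n → Dw Λ u j = 0) : ∀ m ≤ 4,
    gp Λ u (6 * β + 1 + m) j = gp Λ u (6 * β + 1) j + (m : ℂ) * cw Λ u β := by
  intro m
  induction m with
  | zero => intro _; simp
  | succ m ih =>
    intro hm
    rw [← add_assoc, cedge_gp_succ hv _ _ (fun h2 => h (by omega)), ih (by omega)]
    have : (6 * β + 1 + m) / 6 = β := by omega
    rw [this]
    push_cast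
    ring

theorem cedge_sum_block (f : ℕ → ℂ) (t : ℕ) :
    ∑ r ∈ Finset.range (7 * t + 7), f (r / 7) = ∑ r ∈ Finset.range (7 * t), f (r / 7) + 7 * f t := by
  have h : ∀ k ≤ 7, ∑ r ∈ Finset.range (7 * t + k), f (r / 7) =
      ∑ r ∈ Finset.range (7 * t), f (r / 7) + (k : ℂ) * f t := by
    intro k
    induction k with
    | zero => intro _; simp
    | succ k ih =>
      intro hk
      rw [← add_assoc, Finset.sum_range_succ, ih (by omega)]
      have : (7 * t + k) / 7 = t := by omega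
      rw [this]
      push_cast
      ring
  exact_mod_cast h 7 le_rfl

theorem cedge_gp_up {Λ : Lay} {u : ℕ → ℂ} (hv : Huv Λ u) (β t : ℕ) (hp : Λ.pat t β = true) :
    gp Λ u (6 * β + 1) (7 * t + 7) = gp Λ u (6 * β + 1) (7 * t) + ro * (7 * cw Λ u β) := by
  have h := hv.pw β t hp
  unfold gp
  by_cases h1 : β ≤ Λ.n
  · rw [if_pos h1] at h
    rw [if_pos (by omega), if_pos (by omega)]
    unfold VL
    rw [cedge_sum_block (fun x => u (Λ.a x)) t, h]
    ring
  · rw [if_neg h1] at h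
    rw [if_neg (by omega), if_neg (by omega)]
    unfold VR
    rw [cedge_sum_block (fun x => u (Λ.b x)) t, h]
    ring

theorem cedge_Dw_lo {Λ : Lay} {u : ℕ → ℂ} (hv : Huv Λ u) (t : ℕ) (h : Λ.cl t = 0) :
    Dw Λ u (7 * t) = 0 := by
  have h1 : ∀ c, c ≠ 0 → Λ.ins c (7 * t) = false := by
    intro c hc
    unfold Lay.ins
    rw [if_pos (by omega)]
    have : 7 * t / 7 = t := by omega
    rw [this, h]
    simp [Ne.symm hc]
  exact hv.out _ (h1 1 (by norm_num)) (h1 2 (by norm_num))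

theorem cedge_Dw_hi {Λ : Lay} {u : ℕ → ℂ} (hv : Huv Λ u) (t : ℕ) (h : Λ.cl t = 0) :
    Dw Λ u (7 * t + 7) = 0 := by
  have h1 : ∀ c, c ≠ 0 → Λ.ins c (7 * t + 7) = false := by
    intro c hc
    unfold Lay.ins
    rw [if_pos (by omega)]
    have : (7 * t + 7) / 7 - 1 = t := by omega
    rw [this, h]
    simp [Ne.symm hc]
  exact hv.out _ (h1 1 (by norm_num)) (h1 2 (by norm_num))

theorem cedge_cl_pat {Λ : Lay} (hΛ : Λ.Ok) {β t : ℕ} (hp : Λ.pat t β = true) (h : β = Λ.n) :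
    Λ.cl t = 0 := by
  unfold Lay.pat at hp
  have ha := hΛ.a t
  simp only [Bool.or_eq_true, Bool.and_eq_true, decide_eq_true_eq] at hp
  have hk : Λ.k t = 1 := by
    rcases hp with hp | hp | hp
    · omega
    · omega
    · exact hp.2
  unfold Lay.cl
  rw [hk]
  norm_num

theorem cedge_qv {Λ : Lay} (hΛ : Λ.Ok) {u : ℕ → ℂ} (hv : Huv Λ u) (β t : ℕ)
    (hp : Λ.pat t β = true) (m r : ℕ) (hr : r ≤ 8) (hm : m < sz r) :
    ps Λ u (qv β t m r) = gp Λ u (6 * β + 1) (7 * t) + cw Λ u β * ofs m r := by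
  unfold qv
  by_cases h0 : r = 0
  · rw [if_pos h0]
    subst h0
    show gp Λ u (6 * β + 1 + m) (7 * t) = _
    have hm' : m < 4 := hm
    rw [cedge_gp_add hv β (7 * t) (fun h => cedge_Dw_lo hv t (cedge_cl_pat hΛ hp h)) m (by omega)]
    have : ofs m 0 = (m : ℂ) := by
      unfold ofs bs
      simp
    rw [this]
    ring
  · rw [if_neg h0]
    by_cases h8 : r = 8
    · rw [if_pos h8]
      subst h8
      show gp Λ u (6 * β + 1 + m) (7 * t + 7) = _
      have hm' : m < 4 := hm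
      rw [cedge_gp_add hv β (7 * t + 7) (fun h => cedge_Dw_hi hv t (cedge_cl_pat hΛ hp h)) m
        (by omega), cedge_gp_up hv β t hp]
      have : ofs m 8 = (m : ℂ) - 5 + 8 * om := by
        unfold ofs bs
        simp
      rw [this]
      linear_combination (cw Λ u β) * cedge_ro_om
    · rw [if_neg h8]
      rfl

theorem cedge_bs : bs 0 = 0 ∧ bs 1 = 0 ∧ bs 2 = 1 ∧ bs 3 = 1 ∧ bs 4 = 2 ∧ bs 5 = 3 ∧ bs 6 = 3 ∧
    bs 7 = 4 ∧ bs 8 = 5 := by
  refine ⟨rfl, rfl, rfl, rfl, rfl, rfl, rfl, rfl, rfl⟩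

theorem cedge_list (m r m' r' : ℕ) (he : ((m, r), (m', r')) ∈ pRow ++ pEd) :
    r ≤ 8 ∧ m < sz r ∧ r' ≤ 8 ∧ m' < sz r' ∧
      ((r' = r ∧ m' = m + 1) ∨ (r' = r + 1 ∧ m' + bs r = m + bs (r + 1)) ∧ False ∨
        (r' = r + 1 ∧ m' + bs r = m + bs r') ∨ (r' = r + 1 ∧ m' + bs r + 1 = m + bs r')) := by
  have key : ∀ e ∈ pRow ++ pEd, e.1.2 ≤ 8 ∧ e.1.1 < sz e.1.2 ∧ e.2.2 ≤ 8 ∧ e.2.1 < sz e.2.2 ∧
      ((e.2.2 = e.1.2 ∧ e.2.1 = e.1.1 + 1) ∨
        (e.2.2 = e.1.2 + 1 ∧ e.2.1 + bs e.1.2 = e.1.1 + bs (e.1.2 + 1)) ∧ False ∨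
        (e.2.2 = e.1.2 + 1 ∧ e.2.1 + bs e.1.2 = e.1.1 + bs e.2.2) ∨
        (e.2.2 = e.1.2 + 1 ∧ e.2.1 + bs e.1.2 + 1 = e.1.1 + bs e.2.2)) := by
    decide
  exact key _ he

theorem cedge_ok : St_cedge := by
  intro Λ hΛ u hc hv x y hE
  have hcw : ∀ i, i < 6 * Λ.nb → ‖cw Λ u (i / 6)‖ = 1 := fun i hi => (hv.cn _ (by omega)).1
  have hconj : ‖(conj om : ℂ)‖ = 1 := by
    rw [RCLike.norm_conj]; exact cedge_norm_om
  have hconj1 : ‖(conj om - 1 : ℂ)‖ = 1 := by
    have : (conj om - 1 : ℂ) = conj (om - 1) := by simp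
    rw [this, RCLike.norm_conj]; exact cedge_norm_om1
  have hD0 : Dw Λ u 0 = 0 := by
    unfold Dw; simp
  have hDT : Dw Λ u (7 * Λ.T) = 0 := by
    apply cedge_Dw_lo hv
    have := hΛ.out Λ.T le_rfl
    unfold Lay.cl
    rw [this]
    norm_num
  rw [dist_comm, dist_eq_norm]
  cases hE with
  | h i j h0 h1 h2 =>
    show ‖gp Λ u (i + 1) j - gp Λ u i j‖ = 1
    have hi : i < 6 * Λ.nb := by
      unfold Lay.prs at h1
      simp only [Bool.and_eq_true, decide_eq_true_eq] at h1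
      omega
    rw [cedge_gp_succ hv i j, add_sub_cancel_left]
    · exact hcw i hi
    · intro h3
      have h4 : Λ.ins 2 j = false := by
        unfold Lay.gap at h2
        rw [h3] at h2
        simpa using h2
      have h5 : Λ.ins 1 j = false := by
        unfold Lay.prs at h1
        rw [h3] at h1
        simp only [Bool.and_eq_true, Bool.not_eq_true', Bool.and_eq_false_iff] at h1
        have h6 := h1.2.2.2
        rcases h6 with h6 | h6
        · simp at h6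
        · exact h6
      exact hv.out j h5 h4
  | v i j h0 h1 =>
    show ‖gp Λ u i (j + 1) - gp Λ u i j‖ = 1
    unfold gp
    by_cases h2 : i ≤ 6 * Λ.n + 2
    · rw [if_pos h2, if_pos h2]
      have : Uh Λ u i + ro * VL Λ u (j + 1) - (Uh Λ u i + ro * VL Λ u j) =
          ro * u (Λ.a (j / 7)) := by
        unfold VL
        rw [Finset.sum_range_succ]
        ring
      rw [this, norm_mul, cedge_norm_ro, hc.nrm _ (hΛ.a _), one_mul]
    · rw [if_neg h2, if_neg h2]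
      have : Uh Λ u i + ro * VR Λ u (j + 1) - (Uh Λ u i + ro * VR Λ u j) =
          ro * u (Λ.b (j / 7)) := by
        unfold VR
        rw [Finset.sum_range_succ]
        ring
      rw [this, norm_mul, cedge_norm_ro, hc.nrm _ (hΛ.b _), one_mul]
  | q β t hβ ht hp m r m' r' he =>
    obtain ⟨a1, a2, a3, a4, a5⟩ := cedge_list m r m' r' he
    rw [cedge_qv hΛ hv β t hp m r a1 a2, cedge_qv hΛ hv β t hp m' r' a3 a4]
    have h1 : gp Λ u (6 * β + 1) (7 * t) + cw Λ u β * ofs m' r' -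
        (gp Λ u (6 * β + 1) (7 * t) + cw Λ u β * ofs m r) = cw Λ u β * (ofs m' r' - ofs m r) := by
      ring
    rw [h1, norm_mul, (hv.cn β hβ).1, one_mul]
    rcases a5 with ⟨b1, b2⟩ | ⟨-, b⟩ | ⟨b1, b2⟩ | ⟨b1, b2⟩
    · have : ofs m' r' - ofs m r = 1 := by
        unfold ofs
        rw [b1, b2]
        push_cast
        ring
      rw [this, norm_one]
    · exact b.elim
    · have h2 : (m' : ℂ) + (bs r : ℂ) = (m : ℂ) + (bs r' : ℂ) := by exact_mod_cast b2
      have : ofs m' r' - ofs m r = om := by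
        unfold ofs
        have h3 : (r' : ℂ) = (r : ℂ) + 1 := by rw [b1]; push_cast; ring
        rw [h3]
        linear_combination h2
      rw [this]
      exact cedge_norm_om
    · have h2 : (m' : ℂ) + (bs r : ℂ) + 1 = (m : ℂ) + (bs r' : ℂ) := by exact_mod_cast b2
      have : ofs m' r' - ofs m r = om - 1 := by
        unfold ofs
        have h3 : (r' : ℂ) = (r : ℂ) + 1 := by rw [b1]; push_cast; ring
        rw [h3]
        linear_combination h2
      rw [this]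
      exact cedge_norm_om1
  | l1 i hi h5 =>
    show ‖gp Λ u i 0 - (gp Λ u i 0 + cw Λ u (i / 6) * conj om)‖ = 1
    rw [sub_add_cancel_left, norm_neg, norm_mul, hcw i hi, hconj, one_mul]
  | l2 i hi h5 =>
    show ‖gp Λ u (i + 1) 0 - (gp Λ u i 0 + cw Λ u (i / 6) * conj om)‖ = 1
    rw [cedge_gp_succ hv i 0 (fun _ => hD0)]
    have : gp Λ u i 0 + cw Λ u (i / 6) - (gp Λ u i 0 + cw Λ u (i / 6) * conj om) =
        -(cw Λ u (i / 6) * (conj om - 1)) := by ring
    rw [this, norm_neg, norm_mul, hcw i hi, hconj1, one_mul]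
  | l3 i hi h5 =>
    show ‖(gp Λ u (i + 1) 0 + cw Λ u ((i + 1) / 6) * conj om) -
      (gp Λ u i 0 + cw Λ u (i / 6) * conj om)‖ = 1
    have h6 : (i + 1) / 6 = i / 6 := by omega
    rw [cedge_gp_succ hv i 0 (fun _ => hD0), h6]
    have : gp Λ u i 0 + cw Λ u (i / 6) + cw Λ u (i / 6) * conj om -
        (gp Λ u i 0 + cw Λ u (i / 6) * conj om) = cw Λ u (i / 6) := by ring
    rw [this, hcw i hi]
  | u1 i hi h5 =>
    show ‖gp Λ u i (7 * Λ.T) - (gp Λ u i (7 * Λ.T) + cw Λ u (i / 6) * om)‖ = 1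
    rw [sub_add_cancel_left, norm_neg, norm_mul, hcw i hi, cedge_norm_om, one_mul]
  | u2 i hi h5 =>
    show ‖gp Λ u (i + 1) (7 * Λ.T) - (gp Λ u i (7 * Λ.T) + cw Λ u (i / 6) * om)‖ = 1
    rw [cedge_gp_succ hv i (7 * Λ.T) (fun _ => hDT)]
    have : gp Λ u i (7 * Λ.T) + cw Λ u (i / 6) - (gp Λ u i (7 * Λ.T) + cw Λ u (i / 6) * om) =
        -(cw Λ u (i / 6) * (om - 1)) := by ring
    rw [this, norm_neg, norm_mul, hcw i hi, cedge_norm_om1, one_mul]
  | u3 i hi h5 =>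
    show ‖(gp Λ u (i + 1) (7 * Λ.T) + cw Λ u ((i + 1) / 6) * om) -
      (gp Λ u i (7 * Λ.T) + cw Λ u (i / 6) * om)‖ = 1
    have h6 : (i + 1) / 6 = i / 6 := by omega
    rw [cedge_gp_succ hv i (7 * Λ.T) (fun _ => hDT), h6]
    have : gp Λ u i (7 * Λ.T) + cw Λ u (i / 6) + cw Λ u (i / 6) * om -
        (gp Λ u i (7 * Λ.T) + cw Λ u (i / 6) * om) = cw Λ u (i / 6) := by ring
    rw [this, hcw i hi]
  | pe t ht hk =>
    show ‖gp Λ u (6 * Λ.n + 2) (7 * t) - (gp Λ u (6 * Λ.n + 2) (7 * t) - Complex.I * ro)‖ = 1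
    rw [sub_sub_cancel, norm_mul, Complex.norm_I, cedge_norm_ro, one_mul]

end Pool.Agent.H670R4
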