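import Pool.Agent.H670R4.T_CENDaux

/-!
# Task CEND
-/

namespace Pool.Agent.H670R4

open scoped ComplexConjugate

/-- horizontal position inside a column -/
theorem cend_IFfrac (hif : St_if) (Λ : Lay) (u : ℕ → ℂ) (i : ℕ) {s : ℝ} (s0 : 0 ≤ s) (s1 : s ≤ 1) :
    IF (fc Λ u) (i + s) = Uh Λ u i + ((s : ℝ) : ℂ) * cw Λ u (i / 6) := by
  have h := hif.lin (fc Λ u) i (i + 1) (cw Λ u (i / 6)) (fun m h1 h2 => by
    have : m = i := by omega
    rw [this]; rfl) (i + s) (by linarith) (by push_cast; linarith)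
  rw [h]
  congr 2
  rw [add_sub_cancel_left]

theorem cend_gp0 (Λ : Lay) (u : ℕ → ℂ) (i : ℕ) : gp Λ u i 0 = Uh Λ u i := by
  unfold gp
  split_ifs <;> simp [VL, VR]

theorem cend_gpT {Λ : Lay} {u : ℕ → ℂ} (hU : Huv Λ u) (hS : Sep Λ u) (i : ℕ) :
    gp Λ u i (7 * Λ.T) = Uh Λ u i + ro * VL Λ u (7 * Λ.T) := by
  unfold gp
  split_ifs
  · rfl
  · rw [cend_top hU hS]

theorem cend_lo (hif : St_if) (Λ : Lay) (u : ℕ → ℂ) (i : ℕ) :
    ps Λ u (.lo i) = IF (fc Λ u) (i + 3 / 8) - ro * (((7 / 8 : ℝ) : ℂ) * cw Λ u (i / 6)) := by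
  show gp Λ u i 0 + cw Λ u (i / 6) * conj om = _
  rw [cend_gp0, cend_IFfrac hif Λ u i (by norm_num) (by norm_num), cend_conj]
  ring

theorem cend_hi (hif : St_if) {Λ : Lay} {u : ℕ → ℂ} (hU : Huv Λ u) (hS : Sep Λ u) (i : ℕ) :
    ps Λ u (.hi i) = IF (fc Λ u) (i + 5 / 8) +
      ro * (VL Λ u (7 * Λ.T) + ((7 / 8 : ℝ) : ℂ) * cw Λ u (i / 6)) := by
  show gp Λ u i (7 * Λ.T) + cw Λ u (i / 6) * om = _
  rw [cend_gpT hU hS, cend_IFfrac hif Λ u i (by norm_num) (by norm_num), cend_om]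
  ring

theorem cend_c78 (hc : St_cone) {Λ : Lay} {u : ℕ → ℂ} (hU : Huv Λ u) {i : ℕ}
    (hi : i < 6 * Λ.nb) : CB (((7 / 8 : ℝ) : ℂ) * cw Λ u (i / 6)) ∧
      49 / 50 * (7 / 8) ≤ (((7 / 8 : ℝ) : ℂ) * cw Λ u (i / 6)).re := by
  have h := hU.cn (i / 6) (by omega)
  refine ⟨hc.sb _ _ (by norm_num) h.2, ?_⟩
  rw [Complex.re_ofReal_mul]
  have := hc.re _ h.2 h.1
  linarith

/-- the vertices below the grid are far from the other vertices -/
theorem cend_lofar (hif : St_if) (hc : St_cone) {Λ : Lay} (hΛ : Λ.Ok) {u : ℕ → ℂ} (hC : Cmp Λ u)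
    (hU : Huv Λ u) (hS : Sep Λ u) {i : ℕ} (hi : i < 6 * Λ.nb) {z : ℂ} {X Y : ℝ}
    (h : CendAt Λ u z X Y) (hY : 7 / 8 ≤ Y) : 1 ≤ dist (ps Λ u (.lo i)) z := by
  obtain ⟨W, hz, hW1, hW2, -, -⟩ := cend_W hif hΛ hC hU hS h
  have h7 := cend_c78 hc hU hi
  have hi' : (i : ℝ) + 1 ≤ 6 * Λ.nb := by exact_mod_cast hi
  have hP := cend_Upm hif hU (x := (i : ℝ) + 3 / 8) (y := X) (by positivity) (by linarith) h.x0 h.x1
  have hB := hc.bb _ _ hW1 h7.1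
  have hf := (cend_far hc hP hB (c := 1) one_pos (by
    rw [Complex.add_re]
    linarith [h7.2])).1
  rw [dist_comm, dist_eq_norm, cend_lo hif, hz]
  refine hf.trans_eq (congrArg norm ?_)
  ring

/-- the vertices above the grid are far from the other vertices -/
theorem cend_hifar (hif : St_if) (hc : St_cone) {Λ : Lay} (hΛ : Λ.Ok) {u : ℕ → ℂ} (hC : Cmp Λ u)
    (hU : Huv Λ u) (hS : Sep Λ u) {i : ℕ} (hi : i < 6 * Λ.nb) {z : ℂ} {X Y : ℝ}
    (h : CendAt Λ u z X Y) (hY : Y ≤ 7 * Λ.T - 7 / 8) : 1 ≤ dist (ps Λ u (.hi i)) z := by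
  obtain ⟨W, hz, -, -, hW1, hW2⟩ := cend_W hif hΛ hC hU hS h
  have h7 := cend_c78 hc hU hi
  have hi' : (i : ℝ) + 1 ≤ 6 * Λ.nb := by exact_mod_cast hi
  have hP := cend_Upm hif hU (x := X) (y := (i : ℝ) + 5 / 8) h.x0 h.x1 (by positivity) (by linarith)
  have hB := hc.bb _ _ hW1 h7.1
  have hf := (cend_far hc hP hB (c := 1) one_pos (by
    rw [Complex.add_re]
    linarith [h7.2])).1
  rw [dist_eq_norm, cend_hi hif hU hS, hz]
  refine hf.trans_eq (congrArg norm ?_)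
  ring

/-- a vertex of a triangle and the points of the row -/
theorem cend_row (hif : St_if) (hc : St_cone) {Λ : Lay} {u : ℕ → ℂ} (hU : Huv Λ u) {i i' : ℕ}
    (hi : i < 6 * Λ.nb) (hi' : i' ≤ 6 * Λ.nb) {κ : ℂ} (hκ : ‖κ‖ = 1) (hκ1 : ‖1 - κ‖ = 1)
    {s : ℝ} (hs : 3 / 8 ≤ s) (hs' : s ≤ 5 / 8)
    (hκs : κ = (s : ℂ) - ((7 / 8 : ℝ) : ℂ) * ro ∨ κ = (s : ℂ) + ((7 / 8 : ℝ) : ℂ) * ro) :
    1 ≤ ‖Uh Λ u i' - Uh Λ u i - cw Λ u (i / 6) * κ‖ := by
  have hcn := hU.cn (i / 6) (by omega)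
  rcases Nat.lt_or_ge i' i with h | h
  · -- to the left
    have h' : (i' : ℝ) + 1 ≤ i := by exact_mod_cast h
    have hi2 : (i : ℝ) + 1 ≤ 6 * Λ.nb := by exact_mod_cast hi
    have hA := cend_U hif hU (x := i') (y := (i : ℝ) + s) (by positivity) (by linarith)
      (by linarith)
    have h7 := cend_c78 hc hU hi
    have h2 := hc.l2 _ _ (hc.ba _ hA.1) h7.1 (cend_ge_re (by linarith [hA.2]))
    have e := cend_IFfrac hif Λ u i (s := s) (by linarith) (by linarith)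
    rw [e, ← cend_Uh hif] at h2
    rcases hκs with hk | hk
    · refine h2.2.trans_eq ?_
      rw [← norm_neg]
      congr 1
      rw [hk]
      ring
    · refine h2.1.trans_eq ?_
      rw [← norm_neg]
      congr 1
      rw [hk]
      ring
  rcases Nat.eq_or_lt_of_le h with h | h
  · subst h
    rw [sub_self, zero_sub, norm_neg, norm_mul, hκ, hcn.1, mul_one]
  rcases Nat.eq_or_lt_of_le (Nat.succ_le_of_lt h) with h | h
  · subst h
    have e : Uh Λ u (i + 1) - Uh Λ u i = cw Λ u (i / 6) := by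
      unfold Uh
      rw [Finset.sum_range_succ, add_sub_cancel_left]
    show 1 ≤ ‖Uh Λ u (i + 1) - Uh Λ u i - cw Λ u (i / 6) * κ‖
    rw [e]
    have e2 : cw Λ u (i / 6) - cw Λ u (i / 6) * κ = cw Λ u (i / 6) * (1 - κ) := by ring
    rw [e2, norm_mul, hκ1, hcn.1, mul_one]
  · have h' : (i : ℝ) + 2 ≤ i' := by exact_mod_cast h
    have hi2 : (i' : ℝ) ≤ 6 * Λ.nb := by exact_mod_cast hi'
    have hA := cend_U hif hU (x := (i : ℝ) + s) (y := i') (by positivity) (by linarith) hi2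
    have h7 := cend_c78 hc hU hi
    have h2 := hc.l2 _ _ (hc.ba _ hA.1) h7.1 (cend_ge_re (by linarith [hA.2]))
    have e := cend_IFfrac hif Λ u i (s := s) (by linarith) (by linarith)
    rw [e, ← cend_Uh hif] at h2
    rcases hκs with hk | hk
    · refine h2.1.trans_eq (congrArg norm ?_)
      rw [hk]
      ring
    · refine h2.2.trans_eq (congrArg norm ?_)
      rw [hk]
      ring

theorem cend_cc {c c' : ℂ} (h : CB c) (h' : CB c') (n : ‖c‖ = 1) (n' : ‖c'‖ = 1) :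
    ‖c' - c‖ ≤ 3 / 10 := by
  have r1 : c.re ≤ 1 := (Complex.re_le_norm c).trans n.le
  have r2 : c'.re ≤ 1 := (Complex.re_le_norm c').trans n'.le
  have hn : c.re ^ 2 + c.im ^ 2 = 1 := by
    have := Complex.sq_norm c
    rw [n, Complex.normSq_apply] at this
    nlinarith
  have hn' : c'.re ^ 2 + c'.im ^ 2 = 1 := by
    have := Complex.sq_norm c'
    rw [n', Complex.normSq_apply] at this
    nlinarith
  obtain ⟨a1, a2, a3⟩ := h
  obtain ⟨b1, b2, b3⟩ := h'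
  have i1 : c.im ≤ 3 / 16 := by linarith
  have i2 : -(1 / 16) ≤ c.im := by linarith
  have i3 : c'.im ≤ 3 / 16 := by linarith
  have i4 : -(1 / 16) ≤ c'.im := by linarith
  have q1 : 49 / 50 ≤ c.re := by nlinarith
  have q2 : 49 / 50 ≤ c'.re := by nlinarith
  have h1 : ‖c' - c‖ ≤ |(c' - c).re| + |(c' - c).im| := Complex.norm_le_abs_re_add_abs_im _
  have h2 : |(c' - c).re| ≤ 1 / 50 := by
    rw [Complex.sub_re, abs_le]
    constructor <;> linarith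
  have h3 : |(c' - c).im| ≤ 1 / 4 := by
    rw [Complex.sub_im, abs_le]
    constructor <;> linarith
  linarith

/-- two vertices below (above) the grid -/
theorem cend_two (hif : St_if) {Λ : Lay} {u : ℕ → ℂ} (hU : Huv Λ u) {i i' : ℕ}
    (h5 : i % 6 ≤ 4) (hi' : i' < 6 * Λ.nb) (h : i < i') {κ : ℂ} (hκ : ‖κ‖ = 1) :
    1 ≤ ‖(Uh Λ u i' + cw Λ u (i' / 6) * κ) - (Uh Λ u i + cw Λ u (i / 6) * κ)‖ := by
  by_cases hb : i' / 6 = i / 6
  · rw [hb, add_sub_add_right_eq_sub]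
    exact (hU.U i i' h hi'.le).2.2
  · have hlt : i / 6 < i' / 6 := by omega
    have h2 : i + 2 ≤ i' := by omega
    have h2' : (i : ℝ) + 2 ≤ i' := by exact_mod_cast h2
    have hA := (hU.U i i' h hi'.le).2.1
    have hA' : 49 / 25 ≤ ‖Uh Λ u i' - Uh Λ u i‖ := cend_ge_re (by linarith)
    have c1 := hU.cn (i / 6) (by omega)
    have c2 := hU.cn (i' / 6) (by omega)
    have hcc := cend_cc c1.2 c2.2 c1.1 c2.1
    have e : (Uh Λ u i' + cw Λ u (i' / 6) * κ) - (Uh Λ u i + cw Λ u (i / 6) * κ) =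
        (Uh Λ u i' - Uh Λ u i) - (-((cw Λ u (i' / 6) - cw Λ u (i / 6)) * κ)) := by ring
    have h3 := norm_sub_norm_le (Uh Λ u i' - Uh Λ u i)
      (-((cw Λ u (i' / 6) - cw Λ u (i / 6)) * κ))
    rw [norm_neg, norm_mul, hκ, mul_one] at h3
    rw [e]
    linarith

theorem cend_two' (hif : St_if) {Λ : Lay} {u : ℕ → ℂ} (hU : Huv Λ u) {i i' : ℕ}
    (hi : i < 6 * Λ.nb) (h5 : i % 6 ≤ 4) (hi' : i' < 6 * Λ.nb) (h5' : i' % 6 ≤ 4) (h : i ≠ i')
    {κ : ℂ} (hκ : ‖κ‖ = 1) :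
    1 ≤ ‖(Uh Λ u i' + cw Λ u (i' / 6) * κ) - (Uh Λ u i + cw Λ u (i / 6) * κ)‖ := by
  rcases Nat.lt_or_gt_of_ne h with h | h
  · exact cend_two hif hU h5 hi' h hκ
  · rw [norm_sub_rev]
    exact cend_two hif hU h5' hi h hκ

theorem cend_lohi (hif : St_if) (hc : St_cone) {Λ : Lay} (hΛ : Λ.Ok) {u : ℕ → ℂ} (hC : Cmp Λ u)
    (hU : Huv Λ u) (hS : Sep Λ u) {i i' : ℕ} (hi : i < 6 * Λ.nb) (hi' : i' < 6 * Λ.nb) :
    1 ≤ dist (ps Λ u (.lo i)) (ps Λ u (.hi i')) := by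
  have h7 := cend_c78 hc hU hi
  have h7' := cend_c78 hc hU hi'
  have hr : (i : ℝ) + 1 ≤ 6 * Λ.nb := by exact_mod_cast hi
  have hr' : (i' : ℝ) + 1 ≤ 6 * Λ.nb := by exact_mod_cast hi'
  have hV : CB (VL Λ u (7 * Λ.T)) ∧ 0 ≤ (VL Λ u (7 * Λ.T)).re := by
    have h1 := cend_L hif hΛ hC (x := 0) (y := (7 * Λ.T : ℕ)) (le_refl 0) (by positivity)
    rw [cend_IF0 hif, sub_zero, ← cend_VL hif] at h1
    exact ⟨h1.1, h1.1.1⟩
  have hP := cend_Upm hif hU (x := (i : ℝ) + 3 / 8) (y := (i' : ℝ) + 5 / 8) (by positivity)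
    (by linarith) (by positivity) (by linarith)
  have hB := hc.bb _ _ (hc.bb _ _ hV.1 h7'.1) h7.1
  have hf := (cend_far hc hP hB (c := 1) one_pos (by
    rw [Complex.add_re, Complex.add_re]
    linarith [h7.2, h7'.2, hV.2])).1
  rw [dist_comm, dist_eq_norm, cend_lo hif, cend_hi hif hU hS]
  refine hf.trans_eq (congrArg norm ?_)
  ring

theorem cend_pe (hif : St_if) (Λ : Lay) (u : ℕ → ℂ) (t : ℕ) :
    ps Λ u (.pe t) = IF (fc Λ u) (6 * Λ.n + 2 : ℕ) + ro * IF (fl Λ u) (7 * t : ℕ) +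
      (-(Complex.I * ro)) := by
  show gp Λ u (6 * Λ.n + 2) (7 * t) - Complex.I * ro = _
  unfold gp
  rw [if_pos (le_refl _), cend_Uh hif, cend_VL hif, sub_eq_add_neg]

theorem cend_nw : ‖-(Complex.I * ro)‖ = 1 := by
  rw [norm_neg, norm_mul, cend_ro, Complex.norm_I, mul_one]

theorem cend_n2 {Λ : Lay} : ((6 * Λ.n + 2 : ℕ) : ℝ) ≤ 6 * Λ.nb := by
  have : 6 * Λ.n + 2 ≤ 6 * Λ.nb := by unfold Lay.nb; omega
  exact_mod_cast this

theorem cend_lope (hif : St_if) (hc : St_cone) {Λ : Lay} (hΛ : Λ.Ok) {u : ℕ → ℂ} (hC : Cmp Λ u)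
    (hU : Huv Λ u) {i t : ℕ} (hi : i < 6 * Λ.nb) (ht : 0 < t) :
    1 ≤ dist (ps Λ u (.lo i)) (ps Λ u (.pe t)) := by
  have h7 := cend_c78 hc hU hi
  have hr : (i : ℝ) + 1 ≤ 6 * Λ.nb := by exact_mod_cast hi
  have h1 := cend_L hif hΛ hC (x := 0) (y := (7 * t : ℕ)) (le_refl 0) (by positivity)
  rw [cend_IF0 hif, sub_zero] at h1
  have ht' : (1 : ℝ) ≤ t := by exact_mod_cast ht
  have hP := cend_Upm hif hU (x := (i : ℝ) + 3 / 8) (y := (6 * Λ.n + 2 : ℕ)) (by positivity)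
    (by linarith) (by positivity) cend_n2
  have hB := hc.bb _ _ h1.1 h7.1
  have hf := (cend_far hc hP hB (c := 2) two_pos (by
    rw [Complex.add_re]
    have h2 : 49 / 50 * 7 ≤ (IF (fl Λ u) (7 * t : ℕ)).re :=
      le_trans (by push_cast; linarith) h1.2
    linarith [h7.2])).1
  rw [dist_comm, dist_eq_norm, cend_lo hif, cend_pe hif]
  have e : IF (fc Λ u) (6 * Λ.n + 2 : ℕ) + ro * IF (fl Λ u) (7 * t : ℕ) + (-(Complex.I * ro)) -
      (IF (fc Λ u) (i + 3 / 8) - ro * (((7 / 8 : ℝ) : ℂ) * cw Λ u (i / 6))) =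
      (IF (fc Λ u) (6 * Λ.n + 2 : ℕ) - IF (fc Λ u) (i + 3 / 8) +
        ro * (IF (fl Λ u) (7 * t : ℕ) + ((7 / 8 : ℝ) : ℂ) * cw Λ u (i / 6))) - Complex.I * ro := by
    ring
  rw [e]
  have h3 := norm_sub_norm_le (IF (fc Λ u) (6 * Λ.n + 2 : ℕ) - IF (fc Λ u) (i + 3 / 8) +
        ro * (IF (fl Λ u) (7 * t : ℕ) + ((7 / 8 : ℝ) : ℂ) * cw Λ u (i / 6))) (Complex.I * ro)
  have h4 := cend_nw
  rw [norm_neg] at h4
  rw [h4] at h3
  linarith

theorem cend_hipe (hif : St_if) (hc : St_cone) {Λ : Lay} (hΛ : Λ.Ok) {u : ℕ → ℂ} (hC : Cmp Λ u)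
    (hU : Huv Λ u) (hS : Sep Λ u) {i t : ℕ} (hi : i < 6 * Λ.nb) (ht : t < Λ.T) :
    1 ≤ dist (ps Λ u (.hi i)) (ps Λ u (.pe t)) := by
  have h7 := cend_c78 hc hU hi
  have hr : (i : ℝ) + 1 ≤ 6 * Λ.nb := by exact_mod_cast hi
  have ht' : (t : ℝ) + 1 ≤ Λ.T := by exact_mod_cast ht
  have h1 := cend_L hif hΛ hC (x := (7 * t : ℕ)) (y := (7 * Λ.T : ℕ)) (by positivity)
    (by push_cast; linarith)
  have hP := cend_Upm hif hU (x := (6 * Λ.n + 2 : ℕ)) (y := (i : ℝ) + 5 / 8) (by positivity)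
    cend_n2 (by positivity) (by linarith)
  have hB := hc.bb _ _ h1.1 h7.1
  have hf := (cend_far hc hP hB (c := 2) two_pos (by
    rw [Complex.add_re]
    have h2 : 49 / 50 * 7 ≤ (IF (fl Λ u) (7 * Λ.T : ℕ) - IF (fl Λ u) (7 * t : ℕ)).re :=
      le_trans (by push_cast; linarith) h1.2
    linarith [h7.2])).1
  rw [dist_eq_norm, cend_hi hif hU hS, cend_pe hif, cend_VL hif]
  have e : IF (fc Λ u) (i + 5 / 8) +
      ro * (IF (fl Λ u) (7 * Λ.T : ℕ) + ((7 / 8 : ℝ) : ℂ) * cw Λ u (i / 6)) -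
      (IF (fc Λ u) (6 * Λ.n + 2 : ℕ) + ro * IF (fl Λ u) (7 * t : ℕ) + (-(Complex.I * ro))) =
      (IF (fc Λ u) (i + 5 / 8) - IF (fc Λ u) (6 * Λ.n + 2 : ℕ) +
        ro * (IF (fl Λ u) (7 * Λ.T : ℕ) - IF (fl Λ u) (7 * t : ℕ) +
          ((7 / 8 : ℝ) : ℂ) * cw Λ u (i / 6))) - (-(Complex.I * ro)) := by
    ring
  rw [e]
  have h3 := norm_sub_norm_le (IF (fc Λ u) (i + 5 / 8) - IF (fc Λ u) (6 * Λ.n + 2 : ℕ) +
        ro * (IF (fl Λ u) (7 * Λ.T : ℕ) - IF (fl Λ u) (7 * t : ℕ) +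
          ((7 / 8 : ℝ) : ℂ) * cw Λ u (i / 6))) (-(Complex.I * ro))
  rw [cend_nw] at h3
  linarith

theorem cend2_ok : St_cend2 := by
  intro hif hsep hc Λ hΛ u hC hU i hi h5 x hx
  have hS := hsep hif hc Λ hΛ u hC hU
  cases x with
  | g i' j =>
    obtain ⟨hi', hj⟩ := cend_prs hx
    constructor
    · intro _
      rcases Nat.eq_zero_or_pos j with hj0 | hj0
      · subst hj0
        show 1 ≤ dist (gp Λ u i 0 + cw Λ u (i / 6) * conj om) (gp Λ u i' 0)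
        rw [dist_comm, dist_eq_norm, cend_gp0, cend_gp0, ← sub_sub]
        exact cend_row hif hc hU hi hi' cend_nconj cend_nconj1 (s := 3 / 8) (by norm_num)
          (by norm_num) (Or.inl cend_conj)
      · have hj' : (1 : ℝ) ≤ j := by exact_mod_cast hj0
        exact cend_lofar hif hc hΛ hC hU hS hi (cend_g hif hi' hj) (by linarith)
    · intro _
      rcases Nat.eq_or_lt_of_le hj with hj0 | hj0
      · subst hj0
        show 1 ≤ dist (gp Λ u i (7 * Λ.T) + cw Λ u (i / 6) * om) (gp Λ u i' (7 * Λ.T))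
        rw [dist_comm, dist_eq_norm, cend_gpT hU hS, cend_gpT hU hS]
        have e : Uh Λ u i' + ro * VL Λ u (7 * Λ.T) -
            (Uh Λ u i + ro * VL Λ u (7 * Λ.T) + cw Λ u (i / 6) * om) =
            Uh Λ u i' - Uh Λ u i - cw Λ u (i / 6) * om := by ring
        rw [e]
        exact cend_row hif hc hU hi hi' cend_nom cend_nom1 (s := 5 / 8) (by norm_num)
          (by norm_num) (Or.inr cend_om)
      · have hj' : (j : ℝ) + 1 ≤ 7 * Λ.T := by exact_mod_cast hj0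
        exact cend_hifar hif hc hΛ hC hU hS hi (cend_g hif hi' hj) (by linarith)
  | q β t m r =>
    have hA := cend_q hS hx
    obtain ⟨hβ, ht, hp, hm, h1, h7⟩ := hx
    have ht' : (t : ℝ) + 1 ≤ Λ.T := by exact_mod_cast ht
    have h1' : (1 : ℝ) ≤ r := by exact_mod_cast h1
    have h7' : (r : ℝ) ≤ 7 := by exact_mod_cast h7
    have ht0 : (0 : ℝ) ≤ t := by positivity
    exact ⟨fun _ => cend_lofar hif hc hΛ hC hU hS hi hA (by linarith),
      fun _ => cend_hifar hif hc hΛ hC hU hS hi hA (by linarith)⟩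
  | lo i' =>
    refine ⟨fun hne => ?_, fun _ => ?_⟩
    · have hne' : i ≠ i' := fun h => hne (by rw [h])
      show 1 ≤ dist (gp Λ u i 0 + cw Λ u (i / 6) * conj om) (gp Λ u i' 0 + cw Λ u (i' / 6) * conj om)
      rw [dist_comm, dist_eq_norm, cend_gp0, cend_gp0]
      exact cend_two' hif hU hi h5 hx.1 hx.2 hne' cend_nconj
    · rw [dist_comm]
      exact cend_lohi hif hc hΛ hC hU hS hx.1 hi
  | hi i' =>
    refine ⟨fun _ => ?_, fun hne => ?_⟩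
    · exact cend_lohi hif hc hΛ hC hU hS hi hx.1
    · have hne' : i ≠ i' := fun h => hne (by rw [h])
      show 1 ≤ dist (gp Λ u i (7 * Λ.T) + cw Λ u (i / 6) * om)
        (gp Λ u i' (7 * Λ.T) + cw Λ u (i' / 6) * om)
      rw [dist_comm, dist_eq_norm, cend_gpT hU hS, cend_gpT hU hS]
      have e : Uh Λ u i' + ro * VL Λ u (7 * Λ.T) + cw Λ u (i' / 6) * om -
          (Uh Λ u i + ro * VL Λ u (7 * Λ.T) + cw Λ u (i / 6) * om) =
          (Uh Λ u i' + cw Λ u (i' / 6) * om) - (Uh Λ u i + cw Λ u (i / 6) * om) := by ring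
      rw [e]
      exact cend_two' hif hU hi h5 hx.1 hx.2 hne' cend_nom
  | pe t =>
    exact ⟨fun _ => cend_lope hif hc hΛ hC hU hi (hΛ.pen t hx.2).1,
      fun _ => cend_hipe hif hc hΛ hC hU hS hi hx.1⟩

end Pool.Agent.H670R4
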