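import Pool.Agent.H670R4.Sub

/-!
# Distances of grid points
-/

namespace Pool.Agent.H670R4

open Pool.Agent.NPC Pool.Agent.NPC.ER Pool.Agent.H670R2
open scoped ComplexConjugate

theorem cgg_ro : ‖ro‖ = 1 := by
  have h3 : (√3 : ℝ) * √3 = 3 := Real.mul_self_sqrt (by norm_num)
  have h : Complex.normSq ro = 1 := by
    rw [Complex.normSq_apply]
    simp only [ro]
    nlinarith [h3]
  rw [Complex.norm_def, h, Real.sqrt_one]

/-- the step with `j < j'`, `j = j'` or `j' < j` -/
theorem cgg_step (hc : St_cone) (A : ℂ) (hA : CA A) (hA1 : 1 ≤ ‖A‖) (V : ℕ → ℂ)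
    (hV : ∀ j j', j < j' → CB (V j' - V j) ∧ 1 ≤ ‖V j' - V j‖) (j j' : ℕ) :
    1 ≤ ‖A + ro * (V j' - V j)‖ := by
  rcases lt_trichotomy j j' with h | h | h
  · exact (hc.l1 A _ hA (hV j j' h).1 hA1 (hV j j' h).2).1
  · subst h
    simpa using hA1
  · have h1 := (hc.l1 A _ hA (hV j' j h).1 hA1 (hV j' j h).2).2
    have e : A + ro * (V j' - V j) = A - ro * (V j - V j') := by ring
    rw [e]
    exact h1

theorem cgg_ltI (hI : St_if) (hs : St_sep) (hc : St_cone) (Λ : Lay) (hΛ : Λ.Ok) (u : ℕ → ℂ)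
    (hC : Cmp Λ u) (hH : Huv Λ u) (i j i' j' : ℕ) (h0 : Λ.prs i j = true)
    (h1 : Λ.prs i' j' = true) (hii : i < i') : 1 ≤ ‖gp Λ u i' j' - gp Λ u i j‖ := by
  have hi' : i' ≤ 6 * Λ.nb := by
    simp only [Lay.prs, Bool.and_eq_true, decide_eq_true_eq] at h1
    exact h1.1
  have hj' : j' ≤ 7 * Λ.T := by
    simp only [Lay.prs, Bool.and_eq_true, decide_eq_true_eq] at h1
    exact h1.2.1
  have hj : j ≤ 7 * Λ.T := by
    simp only [Lay.prs, Bool.and_eq_true, decide_eq_true_eq] at h0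
    exact h0.2.1
  have hU := hH.U i i' hii hi'
  by_cases ha : i' ≤ 6 * Λ.n + 2
  · have e : gp Λ u i' j' - gp Λ u i j =
        (Uh Λ u i' - Uh Λ u i) + ro * (VL Λ u j' - VL Λ u j) := by
      rw [gp, gp, if_pos ha, if_pos (by omega)]
      ring
    rw [e]
    exact cgg_step hc _ (hc.ba _ hU.1) hU.2.2 (VL Λ u)
      (fun j j' h => ⟨(hH.L j j' h).1, (hH.L j j' h).2.2⟩) j j'
  · by_cases hb : i ≤ 6 * Λ.n + 2
    · by_cases hd : i + 2 ≤ i'
      · have S := hs hI hc Λ hΛ u hC hH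
        have h := S.lr (i : ℝ) (i' : ℝ) (j : ℝ) (j' : ℝ) (by positivity)
          (by exact_mod_cast hii.le) (by exact_mod_cast hi') (by positivity)
          (by exact_mod_cast hj) (by positivity) (by exact_mod_cast hj')
          (Or.inl (by
            have : ((i + 2 : ℕ) : ℝ) ≤ (i' : ℝ) := by exact_mod_cast hd
            push_cast at this
            linarith))
        rw [hI.nat, hI.nat, hI.nat, hI.nat] at h
        have e : gp Λ u i' j' - gp Λ u i j =
            (Uh Λ u i' - Uh Λ u i) + ro * (VR Λ u j' - VL Λ u j) := by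
          rw [gp, gp, if_pos hb, if_neg ha]
          ring
        rw [e]
        exact h
      · have hi1 : i = 6 * Λ.n + 2 := by omega
        have hi2 : i' = 6 * Λ.n + 3 := by omega
        subst hi1 hi2
        have hins : Λ.ins 1 j' = false := by
          have h2 : ¬ ((6 * Λ.n + 3 = 6 * Λ.n + 3) ∧ Λ.ins 1 j' = true) := by
            intro h3
            simp only [Lay.prs, h3.2] at h1
            simp at h1
          by_contra h3
          exact h2 ⟨rfl, by simpa using h3⟩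
        have hD : CA (Dw Λ u j') := by
          by_cases h2 : Λ.ins 2 j' = true
          · exact hC.nar j' h2
          · rw [hH.out j' hins (by simpa using h2)]
            simp [CA]
        have hUe : Uh Λ u (6 * Λ.n + 3) - Uh Λ u (6 * Λ.n + 2) = 1 := by
          rw [Uh, Uh, show 6 * Λ.n + 3 = (6 * Λ.n + 2) + 1 by omega, Finset.sum_range_succ]
          have h6 : (6 * Λ.n + 2) / 6 = Λ.n := by omega
          rw [h6, cw, if_neg (lt_irrefl _), if_pos rfl, hC.one]
          ring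
        set A : ℂ := (Uh Λ u (6 * Λ.n + 3) - Uh Λ u (6 * Λ.n + 2)) + Dw Λ u j' with hAdef
        have hCA1 : CA (Uh Λ u (6 * Λ.n + 3) - Uh Λ u (6 * Λ.n + 2)) := hc.ba _ hU.1
        have hCAA : CA A := hc.aa _ _ hCA1 hD
        have hAn : 1 ≤ ‖A‖ := by
          have h5 : 1 ≤ A.re := by
            rw [hAdef, hUe, Complex.add_re, Complex.one_re]
            linarith [hD.1]
          exact h5.trans (Complex.re_le_norm A)
        have e : gp Λ u (6 * Λ.n + 3) j' - gp Λ u (6 * Λ.n + 2) j =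
            A + ro * (VL Λ u j' - VL Λ u j) := by
          rw [gp, gp, if_pos hb, if_neg ha, hAdef, hH.D j']
          ring
        rw [e]
        exact cgg_step hc _ hCAA hAn (VL Λ u)
          (fun j j' h => ⟨(hH.L j j' h).1, (hH.L j j' h).2.2⟩) j j'
    · have e : gp Λ u i' j' - gp Λ u i j =
          (Uh Λ u i' - Uh Λ u i) + ro * (VR Λ u j' - VR Λ u j) := by
        rw [gp, gp, if_neg ha, if_neg hb]
        ring
      rw [e]
      exact cgg_step hc _ (hc.ba _ hU.1) hU.2.2 (VR Λ u)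
        (fun j j' h => ⟨(hH.R j j' h).1, (hH.R j j' h).2.2⟩) j j'

theorem cgg_vert (Λ : Lay) (u : ℕ → ℂ) (hH : Huv Λ u) (i j j' : ℕ) (h : j < j') :
    1 ≤ ‖gp Λ u i j' - gp Λ u i j‖ := by
  by_cases ha : i ≤ 6 * Λ.n + 2
  · have e : gp Λ u i j' - gp Λ u i j = ro * (VL Λ u j' - VL Λ u j) := by
      rw [gp, gp, if_pos ha, if_pos ha]
      ring
    rw [e, norm_mul, cgg_ro, one_mul]
    exact (hH.L j j' h).2.2
  · have e : gp Λ u i j' - gp Λ u i j = ro * (VR Λ u j' - VR Λ u j) := by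
      rw [gp, gp, if_neg ha, if_neg ha]
      ring
    rw [e, norm_mul, cgg_ro, one_mul]
    exact (hH.R j j' h).2.2

theorem cgg2_ok : St_cgg2 := by
  intro hI hs hc Λ hΛ u hC hH i j i' j' h0 h1 hne
  rcases lt_trichotomy i i' with h | h | h
  · rw [dist_comm, dist_eq_norm]
    exact cgg_ltI hI hs hc Λ hΛ u hC hH i j i' j' h0 h1 h
  · subst h
    have hjj : j ≠ j' := fun h => hne (by rw [h])
    rcases lt_or_gt_of_ne hjj with h | h
    · rw [dist_comm, dist_eq_norm]
      exact cgg_vert Λ u hH i j j' h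
    · rw [dist_eq_norm]
      exact cgg_vert Λ u hH i j' j h
  · rw [dist_eq_norm]
    exact cgg_ltI hI hs hc Λ hΛ u hC hH i' j' i j h1 h0 h

end Pool.Agent.H670R4
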