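import Pool.Agent.H670R4.Sub

/-!
# Task CGQ: grid points and vertices of patches
-/

namespace Pool.Agent.H670R4

open Pool.Agent.NPC Pool.Agent.NPC.ER Pool.Agent.H670R2
open scoped ComplexConjugate

/-- nonzero vectors of the triangular lattice have norm at least one -/
theorem cgq_lat (x y : ℤ) (h : x ≠ 0 ∨ y ≠ 0) : 1 ≤ ‖(x : ℂ) + (y : ℂ) * om‖ := by
  have h1 : ‖(x : ℂ) + (y : ℂ) * om‖ ^ 2 = ((x ^ 2 + x * y + y ^ 2 : ℤ) : ℝ) := by
    rw [← Complex.normSq_eq_norm_sq, Complex.normSq_apply]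
    have h3 : √3 * √3 = 3 := Real.mul_self_sqrt (by norm_num)
    simp only [om, Complex.add_re, Complex.add_im, Complex.mul_re, Complex.mul_im,
      Complex.intCast_re, Complex.intCast_im]
    push_cast
    linear_combination (1 / 4 * (y : ℝ) ^ 2) * h3
  have h2 : 1 ≤ x ^ 2 + x * y + y ^ 2 := by
    rcases h with h | h
    · have : 0 < x ^ 2 := by positivity
      nlinarith [sq_nonneg (x + 2 * y), sq_nonneg (2 * x + y)]
    · have : 0 < y ^ 2 := by positivity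
      nlinarith [sq_nonneg (x + 2 * y), sq_nonneg (2 * x + y)]
  have h4 : (1 : ℝ) ≤ ‖(x : ℂ) + (y : ℂ) * om‖ ^ 2 := by
    rw [h1]; exact_mod_cast h2
  nlinarith [norm_nonneg ((x : ℂ) + (y : ℂ) * om)]

theorem cgq_ofs (m r m' r' : ℕ) (h : r ≠ r') : 1 ≤ ‖ofs m' r' - ofs m r‖ := by
  have h1 : ofs m' r' - ofs m r =
      (((m' : ℤ) - (bs r' : ℤ) - m + (bs r : ℤ) : ℤ) : ℂ) + (((r' : ℤ) - (r : ℤ) : ℤ) : ℂ) * om := by
    simp only [ofs]; push_cast; ring
  rw [h1]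
  exact cgq_lat _ _ (Or.inr (by omega))

/-- the fractional part of the position -/
theorem cgq_frac (r : ℕ) (h1 : 1 ≤ r) (h7 : r ≤ 7) :
    (1 : ℝ) / 8 ≤ 5 * (r : ℝ) / 8 - (bs r : ℝ) ∧ 5 * (r : ℝ) / 8 - (bs r : ℝ) ≤ 7 / 8 := by
  interval_cases r <;> simp [bs] <;> norm_num

theorem cgq_core (Λ : Lay) (u : ℕ → ℂ) (S : ℕ → ℂ) (i j β t m r : ℕ)
    (H : ∀ x x' y y' : ℝ, 0 ≤ x → x ≤ x' → x' ≤ 6 * Λ.nb → 0 ≤ y → y ≤ 7 * Λ.T → 0 ≤ y' →
      y' ≤ 7 * Λ.T → (9 / 8 ≤ x' - x ∨ 9 / 8 ≤ |y' - y|) →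
      1 ≤ ‖(IF (fc Λ u) x' - IF (fc Λ u) x) + ro * (IF S y' - IF S y)‖)
    (Q : ∀ m r, m < sz r → r ≤ 8 → gp Λ u (6 * β + 1) (7 * t) + cw Λ u β * ofs m r =
      IF (fc Λ u) (6 * β + 1 + (m + 5 * r / 8 - bs r)) + ro * IF S (7 * t + 7 * r / 8))
    (P : gp Λ u i j = IF (fc Λ u) i + ro * IF S j)
    (hn : ‖cw Λ u β‖ = 1)
    (hp : Λ.prs i j = true) (hv : Val Λ (.q β t m r)) :
    1 ≤ dist (gp Λ u i j) (ps Λ u (.q β t m r)) := by
  obtain ⟨hβ, ht, hpat, hm, hr1, hr7⟩ := hv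
  have hsz : m < sz r := by
    unfold sz
    rw [if_neg (by omega), if_neg (by omega)]
    exact hm
  have hi : i ≤ 6 * Λ.nb := by
    simp only [Lay.prs, Bool.and_eq_true, decide_eq_true_eq] at hp
    exact hp.1
  have hj : j ≤ 7 * Λ.T := by
    simp only [Lay.prs, Bool.and_eq_true, decide_eq_true_eq] at hp
    exact hp.2.1
  have hfr := cgq_frac r hr1 hr7
  have hi' : (i : ℝ) ≤ 6 * Λ.nb := by exact_mod_cast hi
  have hj' : (j : ℝ) ≤ 7 * Λ.T := by exact_mod_cast hj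
  have hβ' : (β : ℝ) + 1 ≤ Λ.nb := by exact_mod_cast hβ
  have ht' : (t : ℝ) + 1 ≤ Λ.T := by exact_mod_cast ht
  have hm' : (m : ℝ) ≤ 2 := by exact_mod_cast (by omega : m ≤ 2)
  have hr1' : (1 : ℝ) ≤ r := by exact_mod_cast hr1
  have hr7' : (r : ℝ) ≤ 7 := by exact_mod_cast hr7
  have hm0 : (0 : ℝ) ≤ m := Nat.cast_nonneg m
  have hi0 : (0 : ℝ) ≤ i := Nat.cast_nonneg i
  have hj0 : (0 : ℝ) ≤ j := Nat.cast_nonneg j
  have hβ0 : (0 : ℝ) ≤ β := Nat.cast_nonneg β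
  have ht0 : (0 : ℝ) ≤ t := Nat.cast_nonneg t
  have hps : ps Λ u (.q β t m r) = gp Λ u (6 * β + 1) (7 * t) + cw Λ u β * ofs m r := rfl
  by_cases hfar : 9 / 8 ≤ |(6 * (β : ℝ) + 1 + ((m : ℝ) + 5 * r / 8 - bs r)) - i| ∨
      9 / 8 ≤ |(7 * (t : ℝ) + 7 * r / 8) - j|
  · rw [hps, Q m r hsz (by omega), P, dist_eq_norm]
    rcases le_total (i : ℝ) (6 * (β : ℝ) + 1 + ((m : ℝ) + 5 * r / 8 - bs r)) with hle | hle
    · have := H i (6 * (β : ℝ) + 1 + ((m : ℝ) + 5 * r / 8 - bs r)) j (7 * (t : ℝ) + 7 * r / 8)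
        hi0 hle (by linarith [hfr.2]) hj0 hj' (by positivity) (by linarith) (by
          rcases hfar with h | h
          · left; rwa [abs_of_nonneg (by linarith)] at h
          · right; exact h)
      rw [← norm_neg]
      refine this.trans_eq (congrArg norm ?_)
      ring
    · have := H (6 * (β : ℝ) + 1 + ((m : ℝ) + 5 * r / 8 - bs r)) i (7 * (t : ℝ) + 7 * r / 8) j
        (by linarith [hfr.1]) hle hi' (by positivity) (by linarith) hj0 hj' (by
          rcases hfar with h | h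
          · left; rw [abs_of_nonpos (by linarith)] at h; linarith
          · right; rw [abs_sub_comm]; exact h)
      refine this.trans_eq (congrArg norm ?_)
      ring
  · rw [not_or, not_le, not_le, abs_lt, abs_lt] at hfar
    obtain ⟨⟨hx1, hx2⟩, hy1, hy2⟩ := hfar
    -- the line
    have hi1 : 6 * β + 1 ≤ i := by
      by_contra hcon
      have : (i : ℝ) ≤ 6 * β := by exact_mod_cast (by omega : i ≤ 6 * β)
      linarith [hfr.1]
    have hi2 : i ≤ 6 * β + 4 := by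
      by_contra hcon
      have : 6 * (β : ℝ) + 5 ≤ i := by exact_mod_cast (by omega : 6 * β + 5 ≤ i)
      linarith [hfr.2]
    have hj1 : 7 * t ≤ j := by
      by_contra hcon
      have : (j : ℝ) + 1 ≤ 7 * t := by exact_mod_cast (by omega : j + 1 ≤ 7 * t)
      linarith
    have hj2 : j ≤ 7 * t + 7 := by
      by_contra hcon
      have : 7 * (t : ℝ) + 8 ≤ j := by exact_mod_cast (by omega : 7 * t + 8 ≤ j)
      linarith
    have hj3 : j = 7 * t ∨ j = 7 * t + 7 := by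
      by_contra hcon
      rw [not_or] at hcon
      have e1 : j / 7 = t := by omega
      have e2 : j % 7 ≠ 0 := by omega
      have e3 : i / 6 = β := by omega
      have e4 : 1 ≤ i % 6 := by omega
      have e5 : i % 6 ≤ 4 := by omega
      simp [Lay.prs, e1, e2, e3, e4, e5, hpat] at hp
    -- the grid point is a lattice point of the patch
    obtain ⟨m', hm4, him⟩ : ∃ m', m' < 4 ∧ i = 6 * β + 1 + m' := ⟨i - (6 * β + 1), by omega, by omega⟩
    have key : ∃ r', r' ≠ r ∧ gp Λ u i j = gp Λ u (6 * β + 1) (7 * t) + cw Λ u β * ofs m' r' := by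
      rcases hj3 with hj3 | hj3
      · refine ⟨0, by omega, ?_⟩
        rw [Q m' 0 (by simpa [sz] using hm4) (by omega), P, him, hj3]
        congr 2
        · congr 1
          simp [bs]
        · congr 1
          push_cast
          ring
      · refine ⟨8, by omega, ?_⟩
        rw [Q m' 8 (by simpa [sz] using hm4) (by omega), P, him, hj3]
        congr 2
        · congr 1
          norm_num [bs]
        · congr 1
          push_cast
          ring
    obtain ⟨r', hr', hg⟩ := key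
    rw [hg, hps, dist_eq_norm]
    have : gp Λ u (6 * β + 1) (7 * t) + cw Λ u β * ofs m' r' -
        (gp Λ u (6 * β + 1) (7 * t) + cw Λ u β * ofs m r) = cw Λ u β * (ofs m' r' - ofs m r) := by
      ring
    rw [this, norm_mul, hn, one_mul]
    exact cgq_ofs m r m' r' (Ne.symm hr')

theorem cgq2_ok : St_cgq2 := by
  intro hif hsep hcone Λ hΛ u hC hH i j β t m r hp hv
  have hS := hsep hif hcone Λ hΛ u hC hH
  have hv0 := hv
  obtain ⟨hβ, ht, hpat, hm, hr1, hr7⟩ := hv0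
  have hsz : m < sz r := by
    unfold sz
    rw [if_neg (by omega), if_neg (by omega)]
    exact hm
  have hUi : Uh Λ u i = IF (fc Λ u) i := by rw [hif.nat]; rfl
  have hLj : VL Λ u j = IF (fl Λ u) j := by rw [hif.nat]; rfl
  have hRj : VR Λ u j = IF (fr Λ u) j := by rw [hif.nat]; rfl
  have hi : i ≤ 6 * Λ.nb := by
    simp only [Lay.prs, Bool.and_eq_true, decide_eq_true_eq] at hp
    exact hp.1
  have hj : j ≤ 7 * Λ.T := by
    simp only [Lay.prs, Bool.and_eq_true, decide_eq_true_eq] at hp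
    exact hp.2.1
  have hfr := cgq_frac r hr1 hr7
  have hi' : (i : ℝ) ≤ 6 * Λ.nb := by exact_mod_cast hi
  have hj' : (j : ℝ) ≤ 7 * Λ.T := by exact_mod_cast hj
  have hβ' : (β : ℝ) + 1 ≤ Λ.nb := by exact_mod_cast hβ
  have ht' : (t : ℝ) + 1 ≤ Λ.T := by exact_mod_cast ht
  have hm' : (m : ℝ) ≤ 2 := by exact_mod_cast (by omega : m ≤ 2)
  have hr1' : (1 : ℝ) ≤ r := by exact_mod_cast hr1
  have hr7' : (r : ℝ) ≤ 7 := by exact_mod_cast hr7
  have hm0 : (0 : ℝ) ≤ m := Nat.cast_nonneg m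
  have hi0 : (0 : ℝ) ≤ i := Nat.cast_nonneg i
  have hj0 : (0 : ℝ) ≤ j := Nat.cast_nonneg j
  have hβ0 : (0 : ℝ) ≤ β := Nat.cast_nonneg β
  have ht0 : (0 : ℝ) ≤ t := Nat.cast_nonneg t
  by_cases hi2 : i ≤ 6 * Λ.n + 2
  · have P : gp Λ u i j = IF (fc Λ u) i + ro * IF (fl Λ u) j := by
      rw [gp, if_pos hi2, hUi, hLj]
    by_cases hβn : β ≤ Λ.n
    · exact cgq_core Λ u (fl Λ u) i j β t m r hS.ll
        (fun m r hm hr => hS.ql β t m r hpat hβn ht hm hr) P (hH.cn β hβ).1 hp hv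
    · have hi3 : (i : ℝ) ≤ 6 * Λ.n + 2 := by exact_mod_cast hi2
      have hβ3 : (Λ.n : ℝ) + 1 ≤ β := by exact_mod_cast (by omega : Λ.n + 1 ≤ β)
      have hps : ps Λ u (.q β t m r) = gp Λ u (6 * β + 1) (7 * t) + cw Λ u β * ofs m r := rfl
      rw [hps, hS.qr β t m r hpat (by omega) hβ ht hsz (by omega), P, dist_eq_norm, ← norm_neg]
      have := hS.lr i (6 * (β : ℝ) + 1 + ((m : ℝ) + 5 * r / 8 - bs r)) j (7 * (t : ℝ) + 7 * r / 8)
        hi0 (by linarith [hfr.1]) (by linarith [hfr.2]) hj0 hj' (by positivity) (by linarith)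
        (Or.inl (by linarith [hfr.1]))
      refine this.trans_eq (congrArg norm ?_)
      ring
  · have P : gp Λ u i j = IF (fc Λ u) i + ro * IF (fr Λ u) j := by
      rw [gp, if_neg hi2, hUi, hRj]
    by_cases hβn : Λ.n ≤ β
    · exact cgq_core Λ u (fr Λ u) i j β t m r hS.rr
        (fun m r hm hr => hS.qr β t m r hpat hβn hβ ht hm hr) P (hH.cn β hβ).1 hp hv
    · have hi3 : 6 * (Λ.n : ℝ) + 3 ≤ i := by exact_mod_cast (by omega : 6 * Λ.n + 3 ≤ i)
      have hβ3 : (β : ℝ) + 1 ≤ Λ.n := by exact_mod_cast (by omega : β + 1 ≤ Λ.n)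
      have hps : ps Λ u (.q β t m r) = gp Λ u (6 * β + 1) (7 * t) + cw Λ u β * ofs m r := rfl
      rw [hps, hS.ql β t m r hpat (by omega) ht hsz (by omega), P, dist_eq_norm]
      have := hS.lr (6 * (β : ℝ) + 1 + ((m : ℝ) + 5 * r / 8 - bs r)) i (7 * (t : ℝ) + 7 * r / 8) j
        (by linarith [hfr.1]) (by linarith [hfr.2]) hi' (by positivity) (by linarith) hj0 hj'
        (Or.inl (by linarith [hfr.2]))
      refine this.trans_eq (congrArg norm ?_)
      ring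

end Pool.Agent.H670R4
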