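import Pool.Agent.H670R4.Sub

set_option autoImplicit false

namespace Pool.Agent.H670R4

theorem cone_sqrt : (1732 / 1000 : ℝ) ≤ √3 ∧ √3 ≤ 17321 / 10000 := by
  constructor
  · exact Real.le_sqrt_of_sq_le (by norm_num)
  · rw [Real.sqrt_le_left (by norm_num)]
    norm_num

/-- the inner product of `A` and `ro * B` -/
noncomputable def cone_X (A B : ℂ) : ℝ :=
  A.re * (-(1 / 7) * B.re - 4 * √3 / 7 * B.im) + A.im * (4 * √3 / 7 * B.re - 1 / 7 * B.im)

theorem cone_lo (A B : ℂ) (hA : CA A) (hB : CB B) :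
    -(39 / 100 * (A.re * B.re)) ≤ cone_X A B := by
  obtain ⟨ha, hb1, hb2⟩ := hA
  obtain ⟨hc, hd1, hd2⟩ := hB
  obtain ⟨hs1, hs2⟩ := cone_sqrt
  unfold cone_X
  set a := A.re
  set b := A.im
  set c := B.re
  set d := B.im
  set s := √3
  have hp : 0 ≤ b + a / 16 := by linarith
  have hr : 0 ≤ 3 * c / 16 - d := by linarith
  have h1 : 0 ≤ (a * c) * (173 / 100 - s + 3 / 256) := mul_nonneg (mul_nonneg ha hc) (by linarith)
  have h2 : 0 ≤ (a * (3 * c / 16 - d)) * (4 * s - 1 / 16) :=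
    mul_nonneg (mul_nonneg ha hr) (by linarith)
  have h3 : 0 ≤ ((b + a / 16) * c) * (4 * s - 3 / 16) :=
    mul_nonneg (mul_nonneg hp hc) (by linarith)
  have h4 : 0 ≤ (b + a / 16) * (3 * c / 16 - d) := mul_nonneg hp hr
  nlinarith [h1, h2, h3, h4]

theorem cone_hi (A B : ℂ) (hA : CA A) (hB : CB B) :
    cone_X A B ≤ 39 / 100 * (A.re * B.re) := by
  obtain ⟨ha, hb1, hb2⟩ := hA
  obtain ⟨hc, hd1, hd2⟩ := hB
  obtain ⟨hs1, hs2⟩ := cone_sqrt
  unfold cone_X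
  set a := A.re
  set b := A.im
  set c := B.re
  set d := B.im
  set s := √3
  have hp : 0 ≤ a / 4 - b := by linarith
  have hr : 0 ≤ d + c / 16 := by linarith
  have hq : 0 ≤ 5 * a / 16 - (a / 4 - b) := by linarith
  have h1 : 0 ≤ (a * c) * (373 / 100 - 5 / 4 * s - 1 / 64) :=
    mul_nonneg (mul_nonneg ha hc) (by linarith)
  have h2 : 0 ≤ (a * (d + c / 16)) * (4 * s - 1 / 16) :=
    mul_nonneg (mul_nonneg ha hr) (by linarith)
  have h3 : 0 ≤ ((a / 4 - b) * c) * (4 * s + 1 / 16) :=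
    mul_nonneg (mul_nonneg hp hc) (by linarith)
  have h4 : 0 ≤ (5 * a / 16 - (a / 4 - b)) * (d + c / 16) := mul_nonneg hq hr
  nlinarith [h1, h2, h3, h4]

theorem cone_ro : ro.re = -(1 / 7) ∧ ro.im = 4 * √3 / 7 := ⟨rfl, rfl⟩

theorem cone_nsq (z : ℂ) : ‖z‖ ^ 2 = z.re ^ 2 + z.im ^ 2 := by
  rw [← Complex.normSq_eq_norm_sq, Complex.normSq_apply]
  ring

theorem cone_abs (A B : ℂ) (hA : CA A) (hB : CB B) : |cone_X A B| ≤ 39 / 100 * (‖A‖ * ‖B‖) := by
  have h1 : A.re ≤ ‖A‖ := Complex.re_le_norm A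
  have h2 : B.re ≤ ‖B‖ := Complex.re_le_norm B
  have h3 : A.re * B.re ≤ ‖A‖ * ‖B‖ := mul_le_mul h1 h2 hB.1 (norm_nonneg _)
  rw [abs_le]
  constructor
  · linarith [cone_lo A B hA hB]
  · linarith [cone_hi A B hA hB]

theorem cone_add (A B : ℂ) : ‖A + ro * B‖ ^ 2 = ‖A‖ ^ 2 + ‖B‖ ^ 2 + 2 * cone_X A B := by
  have hs : √3 ^ 2 = 3 := Real.sq_sqrt (by norm_num)
  rw [cone_nsq, cone_nsq, cone_nsq]
  simp only [Complex.add_re, Complex.add_im, Complex.mul_re, Complex.mul_im, cone_ro.1, cone_ro.2]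
  unfold cone_X
  linear_combination (16 / 49 * B.re ^ 2 + 16 / 49 * B.im ^ 2) * hs

theorem cone_sub (A B : ℂ) : ‖A - ro * B‖ ^ 2 = ‖A‖ ^ 2 + ‖B‖ ^ 2 - 2 * cone_X A B := by
  have hs : √3 ^ 2 = 3 := Real.sq_sqrt (by norm_num)
  rw [cone_nsq, cone_nsq, cone_nsq]
  simp only [Complex.sub_re, Complex.sub_im, Complex.mul_re, Complex.mul_im, cone_ro.1, cone_ro.2]
  unfold cone_X
  linear_combination (16 / 49 * B.re ^ 2 + 16 / 49 * B.im ^ 2) * hs

theorem cone_fin (A B : ℂ) (hA : CA A) (hB : CB B)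
    (h : 1 ≤ ‖A‖ ^ 2 + ‖B‖ ^ 2 - 2 * (39 / 100 * (‖A‖ * ‖B‖))) :
    1 ≤ ‖A + ro * B‖ ∧ 1 ≤ ‖A - ro * B‖ := by
  have h1 := abs_le.mp (cone_abs A B hA hB)
  constructor
  · have h2 : 1 ≤ ‖A + ro * B‖ ^ 2 := by
      rw [cone_add]
      linarith [h1.1]
    by_contra hc
    push Not at hc
    have := norm_nonneg (A + ro * B)
    nlinarith
  · have h2 : 1 ≤ ‖A - ro * B‖ ^ 2 := by
      rw [cone_sub]
      linarith [h1.2]
    by_contra hc
    push Not at hc
    have := norm_nonneg (A - ro * B)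
    nlinarith

theorem cone_bb (y z : ℂ) (hy : CB y) (hz : CB z) : CB (y + z) := by
  obtain ⟨h1, h2, h3⟩ := hy
  obtain ⟨h4, h5, h6⟩ := hz
  refine ⟨?_, ?_, ?_⟩
  · rw [Complex.add_re]; linarith
  · rw [Complex.add_re, Complex.add_im]; linarith
  · rw [Complex.add_re, Complex.add_im]; linarith

theorem cone_re (z : ℂ) (hz : CB z) (h : ‖z‖ = 1) : 49 / 50 ≤ z.re := by
  obtain ⟨h1, h2, h3⟩ := hz
  have h4 := cone_nsq z
  rw [h] at h4
  have h5 : z.im ^ 2 ≤ 9 / 256 * z.re ^ 2 := by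
    have h6 : |z.im| ≤ |3 * z.re / 16| := by
      rw [abs_of_nonneg (by linarith : 0 ≤ 3 * z.re / 16), abs_le]
      constructor
      · linarith
      · exact h3
    have h7 := sq_le_sq.mpr h6
    nlinarith
  nlinarith

theorem cone_su (f : ℕ → ℂ) (s : Finset ℕ) : (∀ i ∈ s, CB (f i) ∧ ‖f i‖ = 1) →
    CB (∑ i ∈ s, f i) ∧ 49 / 50 * (s.card : ℝ) ≤ (∑ i ∈ s, f i).re := by
  classical
  induction s using Finset.induction_on with
  | empty =>
    intro _
    refine ⟨⟨?_, ?_, ?_⟩, ?_⟩ <;> simp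
  | insert a s ha ih =>
    intro h
    have h1 := ih fun i hi => h i (Finset.mem_insert_of_mem hi)
    have h2 := h a (Finset.mem_insert_self a s)
    rw [Finset.sum_insert ha, Finset.card_insert_of_notMem ha]
    refine ⟨cone_bb _ _ h2.1 h1.1, ?_⟩
    rw [Complex.add_re]
    push_cast
    have h3 := cone_re _ h2.1 h2.2
    linarith [h1.2]

theorem cone_ok : St_cone := by
  refine ⟨?_, ?_, ?_, ?_, ?_, cone_bb, ?_, ?_, cone_re, ?_⟩
  · intro A B hA hB h1 h2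
    refine cone_fin A B hA hB ?_
    nlinarith [mul_le_mul h1 h2 zero_le_one (norm_nonneg A), sq_nonneg (‖A‖ - ‖B‖)]
  · intro A B hA hB h1
    refine cone_fin A B hA hB ?_
    nlinarith [sq_nonneg (‖B‖ - 39 / 100 * ‖A‖), mul_le_mul h1 h1 (by norm_num) (norm_nonneg A)]
  · intro A B hA hB h1
    refine cone_fin A B hA hB ?_
    nlinarith [sq_nonneg (‖A‖ - 39 / 100 * ‖B‖), mul_le_mul h1 h1 (by norm_num) (norm_nonneg B)]
  · rintro z ⟨h1, h2, h3⟩
    exact ⟨h1, h2, by linarith⟩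
  · rintro y z ⟨h1, h2, h3⟩ ⟨h4, h5, h6⟩
    refine ⟨?_, ?_, ?_⟩
    · rw [Complex.add_re]; linarith
    · rw [Complex.add_re, Complex.add_im]; linarith
    · rw [Complex.add_re, Complex.add_im]; linarith
  · rintro c z hc ⟨h1, h2, h3⟩
    refine ⟨?_, ?_, ?_⟩
    · rw [Complex.re_ofReal_mul]; positivity
    · rw [Complex.re_ofReal_mul, Complex.im_ofReal_mul]
      have := mul_le_mul_of_nonneg_left h2 hc
      linarith
    · rw [Complex.re_ofReal_mul, Complex.im_ofReal_mul]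
      have := mul_le_mul_of_nonneg_left h3 hc
      linarith
  · rintro c z hc ⟨h1, h2, h3⟩
    refine ⟨?_, ?_, ?_⟩
    · rw [Complex.re_ofReal_mul]; positivity
    · rw [Complex.re_ofReal_mul, Complex.im_ofReal_mul]
      have := mul_le_mul_of_nonneg_left h2 hc
      linarith
    · rw [Complex.re_ofReal_mul, Complex.im_ofReal_mul]
      have := mul_le_mul_of_nonneg_left h3 hc
      linarith
  · intro f s h
    have h1 := cone_su f s h
    refine ⟨h1.1, h1.2, fun hc => ?_⟩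
    rcases Nat.lt_or_ge s.card 2 with h2 | h2
    · have h3 : s.card = 1 := by omega
      obtain ⟨i, hi⟩ := Finset.card_eq_one.mp h3
      rw [hi, Finset.sum_singleton]
      exact (h i (by rw [hi]; exact Finset.mem_singleton_self i)).2.ge
    · have h3 : (2 : ℝ) ≤ s.card := by exact_mod_cast h2
      have h4 := Complex.re_le_norm (∑ i ∈ s, f i)
      linarith [h1.2]

end Pool.Agent.H670R4
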