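import Pool.Agent.H670R4.Sub

set_option autoImplicit false

namespace Pool.Agent.H670R4

open Pool.Agent.H670R2

section

variable {Λ : Lay}

lemma conn_prs_zero {i : ℕ} (hi : i ≤ 6 * Λ.nb) : Λ.prs i 0 = true := by
  simp [Lay.prs, Lay.ins, hi]

lemma conn_prs_top (hΛ : Λ.Ok) {i : ℕ} (hi : i ≤ 6 * Λ.nb) : Λ.prs i (7 * Λ.T) = true := by
  have h1 : Λ.k Λ.T = 0 := hΛ.out _ le_rfl
  have h2 : Λ.cl Λ.T = 0 := by simp [Lay.cl, h1]
  simp [Lay.prs, Lay.ins, hi, h2]

lemma conn_prs_line {i j : ℕ} (hi : i ≤ 6 * Λ.nb) (hj : j ≤ 7 * Λ.T) (h : i % 6 = 0 ∨ i % 6 = 5) :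
    Λ.prs i j = true := by
  have h1 : ¬ (1 ≤ i % 6 ∧ i % 6 ≤ 4) := by omega
  have h2 : i ≠ 6 * Λ.n + 3 := by omega
  unfold Lay.prs
  rw [decide_eq_true hi, decide_eq_true hj, decide_eq_false h2]
  simp only [Bool.true_and, Bool.false_and, Bool.not_false, Bool.and_true]
  by_cases h3 : 1 ≤ i % 6
  · have h4 : ¬ i % 6 ≤ 4 := by omega
    simp [h4]
  · simp [h3]

/-- points of the same block and row -/
lemma conn_prs_row {β s s' j : ℕ} (hs : 1 ≤ s) (hs4 : s ≤ 4) (h : Λ.prs (6 * β + s) j = true)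
    (hs' : s' ≤ 5) (h3 : s' ≠ 3) : Λ.prs (6 * β + s') j = true := by
  unfold Lay.prs at h ⊢
  simp only [Bool.and_eq_true, decide_eq_true_eq, Bool.not_eq_true', Bool.and_eq_false_iff,
    decide_eq_false_iff_not, ne_eq, not_not] at h ⊢
  obtain ⟨h1, h2, h4, h5⟩ := h
  have e1 : (6 * β + s) / 6 = β := by omega
  have e2 : (6 * β + s') / 6 = β := by omega
  have e3 : (6 * β + s) % 6 = s := by omega
  have e4 : (6 * β + s') % 6 = s' := by omega
  rw [e1, e3] at h4
  rw [e2, e4]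
  have hb : 6 * β + s' ≤ 6 * Λ.nb := by omega
  refine ⟨hb, h2, ?_, ?_⟩
  · rcases h4 with h4 | h4 | h4 | h4
    · exact Or.inl h4
    · omega
    · omega
    · exact Or.inr (Or.inr (Or.inr h4))
  · left; omega

lemma conn_gap {i j : ℕ} (h : i % 6 ≠ 2) : Λ.gap i j = false := by
  have h1 : i ≠ 6 * Λ.n + 2 := by omega
  simp [Lay.gap, h1]

variable {f : Vt → ℝ}

lemma conn_row0 (hf : ∀ x y, E Λ x y → f x = f y) {i : ℕ} (hi : i ≤ 6 * Λ.nb) :
    f (.g i 0) = f (.g 0 0) := by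
  induction i with
  | zero => rfl
  | succ i ih =>
    rw [← ih (by omega)]
    refine (hf _ _ (E.h i 0 (conn_prs_zero (by omega)) (conn_prs_zero hi) ?_)).symm
    simp [Lay.gap, Lay.ins]

lemma conn_line (hf : ∀ x y, E Λ x y → f x = f y) {i : ℕ} (hi : i ≤ 6 * Λ.nb)
    (h : i % 6 = 0 ∨ i % 6 = 5) {j : ℕ} (hj : j ≤ 7 * Λ.T) : f (.g i j) = f (.g 0 0) := by
  induction j with
  | zero => exact conn_row0 hf hi
  | succ j ih =>
    rw [← ih (by omega)]
    exact (hf _ _ (E.v i j (conn_prs_line hi (by omega) h) (conn_prs_line hi hj h))).symm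

lemma conn_grid (hf : ∀ x y, E Λ x y → f x = f y) {i j : ℕ} (h : Λ.prs i j = true) :
    f (.g i j) = f (.g 0 0) := by
  have hij : i ≤ 6 * Λ.nb ∧ j ≤ 7 * Λ.T := by
    unfold Lay.prs at h
    simp only [Bool.and_eq_true, decide_eq_true_eq] at h
    exact ⟨h.1, h.2.1⟩
  by_cases h0 : i % 6 = 0 ∨ i % 6 = 5
  · exact conn_line hf hij.1 h0 hij.2
  obtain ⟨β, s, hi, hs1, hs4⟩ : ∃ β s, i = 6 * β + s ∧ 1 ≤ s ∧ s ≤ 4 :=
    ⟨i / 6, i % 6, by omega, by omega, by omega⟩
  subst hi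
  have hb : 6 * β + 5 ≤ 6 * Λ.nb := by omega
  have hrow : ∀ s', s' ≤ 5 → s' ≠ 3 → Λ.prs (6 * β + s') j = true := fun s' h1 h2 =>
    conn_prs_row hs1 hs4 h h1 h2
  have hl : f (.g (6 * β) j) = f (.g 0 0) := conn_line hf (by omega) (Or.inl (by omega)) hij.2
  have hr : f (.g (6 * β + 5) j) = f (.g 0 0) := conn_line hf hb (Or.inr (by omega)) hij.2
  have p0 : Λ.prs (6 * β) j = true := hrow 0 (by omega) (by omega)
  have p1 := hrow 1 (by omega) (by omega)
  have p2 := hrow 2 (by omega) (by omega)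
  have p4 := hrow 4 (by omega) (by omega)
  have p5 := hrow 5 (by omega) (by omega)
  have e01 : f (.g (6 * β) j) = f (.g (6 * β + 1) j) :=
    hf _ _ (E.h _ _ p0 p1 (conn_gap (by omega)))
  have e12 : f (.g (6 * β + 1) j) = f (.g (6 * β + 2) j) :=
    hf _ _ (E.h _ _ p1 p2 (conn_gap (by omega)))
  have e45 : f (.g (6 * β + 4) j) = f (.g (6 * β + 5) j) :=
    hf _ _ (E.h _ _ p4 p5 (conn_gap (by omega)))
  interval_cases s
  · rw [← e01, hl]
  · rw [← e12, ← e01, hl]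
  · have e34 : f (.g (6 * β + 3) j) = f (.g (6 * β + 4) j) :=
      hf _ _ (E.h _ _ h p4 (conn_gap (by omega)))
    rw [e34, e45, hr]
  · rw [e45, hr]

lemma conn_vert (m : ℕ) (hm : m < 3) (r : ℕ) (hr : r < 8) :
    ((m, r), (m, r + 1)) ∈ pRow ++ pEd := by
  interval_cases m <;> interval_cases r <;> decide

lemma conn_ends : ∀ e ∈ pRow ++ pEd, (e.1.1 < 3 ∧ e.1.2 ≤ 8) ∨ (e.2.1 < 3 ∧ e.2.2 ≤ 8) := by decide

lemma conn_patch (hΛ : Λ.Ok) (hf : ∀ x y, E Λ x y → f x = f y) {β t : ℕ} (hβ : β < Λ.nb)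
    (ht : t < Λ.T) (hp : Λ.pat t β = true) {m : ℕ} (hm : m < 3) {r : ℕ} (hr : r ≤ 8) :
    f (qv β t m r) = f (.g 0 0) := by
  induction r with
  | zero =>
    have h1 : qv β t m 0 = .g (6 * β + 1 + m) (7 * t) := by simp [qv]
    rw [h1]
    apply conn_grid hf
    unfold Lay.prs
    simp only [Bool.and_eq_true, decide_eq_true_eq, Bool.not_eq_true', Bool.and_eq_false_iff,
      decide_eq_false_iff_not, ne_eq, not_not]
    refine ⟨by omega, by omega, Or.inl (by omega), ?_⟩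
    by_cases hc : 6 * β + 1 + m = 6 * Λ.n + 3
    · right
      have hβn : β = Λ.n := by omega
      subst hβn
      have hk : Λ.k t = 1 := by
        unfold Lay.pat at hp
        simp only [Bool.or_eq_true, Bool.and_eq_true, decide_eq_true_eq] at hp
        rcases hp with hp | hp | hp
        · have := hΛ.a t; omega
        · omega
        · exact hp.2
      have hcl : Λ.cl t = 0 := by simp [Lay.cl, hk]
      have h7 : 7 * t / 7 = t := by omega
      unfold Lay.ins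
      rw [if_pos (by omega), h7, hcl]
      simp
    · exact Or.inl hc
  | succ r ih =>
    rw [← ih (by omega)]
    exact (hf _ _ (E.q β t hβ ht hp m r m (r + 1) (conn_vert m hm r (by omega)))).symm

lemma conn_edge (hΛ : Λ.Ok) (hf : ∀ x y, E Λ x y → f x = f y) {x y : Vt} (h : E Λ x y) :
    f x = f (.g 0 0) := by
  cases h with
  | h i j h0 h1 h2 => exact conn_grid hf h0
  | v i j h0 h1 => exact conn_grid hf h0
  | q β t hβ ht hp m r m' r' he =>
    rcases conn_ends _ he with h1 | h1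
    · exact conn_patch hΛ hf hβ ht hp h1.1 h1.2
    · rw [hf _ _ (E.q β t hβ ht hp m r m' r' he)]
      exact conn_patch hΛ hf hβ ht hp h1.1 h1.2
  | l1 i hi h5 =>
    rw [hf _ _ (E.l1 i hi h5)]
    exact conn_grid hf (conn_prs_zero (by omega))
  | l2 i hi h5 =>
    rw [hf _ _ (E.l1 i hi h5)]
    exact conn_grid hf (conn_prs_zero (by omega))
  | l3 i hi h5 =>
    rw [hf _ _ (E.l1 i hi (by omega))]
    exact conn_grid hf (conn_prs_zero (by omega))
  | u1 i hi h5 =>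
    rw [hf _ _ (E.u1 i hi h5)]
    exact conn_grid hf (conn_prs_top hΛ (by omega))
  | u2 i hi h5 =>
    rw [hf _ _ (E.u1 i hi h5)]
    exact conn_grid hf (conn_prs_top hΛ (by omega))
  | u3 i hi h5 =>
    rw [hf _ _ (E.u1 i hi (by omega))]
    exact conn_grid hf (conn_prs_top hΛ (by omega))
  | pe t ht hk =>
    rw [hf _ _ (E.pe t ht hk)]
    apply conn_grid hf
    unfold Lay.prs
    simp only [Bool.and_eq_true, decide_eq_true_eq, Bool.not_eq_true', Bool.and_eq_false_iff,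
      decide_eq_false_iff_not, ne_eq, not_not]
    refine ⟨by unfold Lay.nb; omega, by omega, Or.inl (by omega), Or.inl (by omega)⟩

end

theorem conn_ok : St_conn := by
  intro Λ hΛ f hf x y hx hy
  have h : ∀ z, Live Λ z → f z = f (.g 0 0) := by
    rintro z ⟨w, hw | hw⟩
    · exact conn_edge hΛ hf hw
    · rw [← hf _ _ hw]
      exact conn_edge hΛ hf hw
  rw [h x hx, h y hy]

end Pool.Agent.H670R4
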