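import Pool.Agent.H670R4.T_CEND

/-!
# Task CPEN
-/

namespace Pool.Agent.H670R4

open scoped ComplexConjugate

theorem cpen_w : -(Complex.I * ro) = ⟨4 * √3 / 7, 1 / 7⟩ := by
  apply Complex.ext <;> simp [ro]

theorem cpen_s3l : (17 : ℝ) / 10 ≤ √3 := Real.le_sqrt_of_sq_le (by norm_num)

theorem cpen_s3u : √(3 : ℝ) ≤ 1733 / 1000 :=
  Real.sqrt_le_iff.2 ⟨by norm_num, by norm_num⟩

theorem cpen_wCA : CA (-(Complex.I * ro)) := by
  rw [cpen_w]
  have h1 := cpen_s3l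
  refine ⟨?_, ?_, ?_⟩
  · show 0 ≤ 4 * √3 / 7
    positivity
  · show -(4 * √3 / 7) / 16 ≤ 1 / 7
    linarith
  · show (1 : ℝ) / 7 ≤ 4 * √3 / 7 / 4
    linarith

/-- the difference to the right wall -/
theorem cpen_D {D : ℂ} (h1 : 1 ≤ D.re) (h2 : D.re / 7 ≤ D.im) (h3 : CA D) :
    CA (1 + D + Complex.I * ro) ∧ 1 ≤ (1 + D + Complex.I * ro).re := by
  have hw : Complex.I * ro = ⟨-(4 * √3 / 7), -(1 / 7)⟩ := by
    apply Complex.ext <;> simp [ro]
  have hu := cpen_s3u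
  have hl := cpen_s3l
  have er : (1 + D + Complex.I * ro).re = 1 + D.re - 4 * √3 / 7 := by
    rw [hw]
    simp only [Complex.add_re, Complex.one_re]
    ring
  have ei : (1 + D + Complex.I * ro).im = D.im - 1 / 7 := by
    rw [hw]
    simp only [Complex.add_im, Complex.one_im]
    ring
  obtain ⟨-, -, c3⟩ := h3
  have hre : 1 ≤ (1 + D + Complex.I * ro).re := by
    rw [er]
    linarith
  refine ⟨⟨by linarith, ?_, ?_⟩, hre⟩
  · rw [ei]
    rw [er] at hre ⊢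
    linarith
  · rw [er, ei]
    linarith

/-- differences of vertical positions -/
theorem cpen_pm {c : ℂ} (h : CB c ∨ CB (-c)) {A : ℂ} {P : ℂ → ℂ → Prop}
    (hP : ∀ B, CB B → P A B ∧ P A (-B)) : P A c := by
  rcases h with h | h
  · exact (hP _ h).1
  · have := (hP _ h).2
    rwa [neg_neg] at this

theorem cpen_row (hc : St_cone) {A B : ℂ} (hA : CA A) (hA1 : 1 ≤ A.re)
    (hB : B = 0 ∨ ((CB B ∨ CB (-B)) ∧ 1 ≤ ‖B‖)) : 1 ≤ ‖A + ro * B‖ := by
  rcases hB with hB | ⟨hB | hB, hB1⟩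
  · rw [hB, mul_zero, add_zero]
    exact cend_ge_re hA1
  · exact (hc.l1 A B hA hB (cend_ge_re hA1) hB1).1
  · have := (hc.l1 A (-B) hA hB (cend_ge_re hA1) (by rwa [norm_neg])).2
    rwa [mul_neg, sub_neg_eq_add] at this

theorem cpen_far (hc : St_cone) {A B : ℂ} (hA : CA A) (hA1 : 109 / 100 ≤ A.re)
    (hB : CB B ∨ CB (-B)) : 1 ≤ ‖A + ro * B‖ := by
  rcases hB with hB | hB
  · exact (hc.l2 A B hA hB (cend_ge_re hA1)).1
  · have := (hc.l2 A (-B) hA hB (cend_ge_re hA1)).2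
    rwa [mul_neg, sub_neg_eq_add] at this

theorem cpen_Lpm (hif : St_if) {Λ : Lay} (hΛ : Λ.Ok) {u : ℕ → ℂ} (hC : Cmp Λ u) {x y : ℝ}
    (h0 : 0 ≤ x) (h1 : 0 ≤ y) : CB (IF (fl Λ u) y - IF (fl Λ u) x) ∨
      CB (-(IF (fl Λ u) y - IF (fl Λ u) x)) := by
  rcases le_total x y with h | h
  · exact Or.inl (cend_L hif hΛ hC h0 h).1
  · right
    rw [neg_sub]
    exact (cend_L hif hΛ hC h1 h).1

theorem cpen_Rpm (hif : St_if) {Λ : Lay} (hΛ : Λ.Ok) {u : ℕ → ℂ} (hC : Cmp Λ u) {x y : ℝ}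
    (h0 : 0 ≤ x) (h1 : 0 ≤ y) : CB (IF (fr Λ u) y - IF (fr Λ u) x) ∨
      CB (-(IF (fr Λ u) y - IF (fr Λ u) x)) := by
  rcases le_total x y with h | h
  · exact Or.inl (cend_R hif hΛ hC h0 h).1
  · right
    rw [neg_sub]
    exact (cend_R hif hΛ hC h1 h).1

theorem cpen_VLd {Λ : Lay} {u : ℕ → ℂ} (hU : Huv Λ u) (j j' : ℕ) :
    VL Λ u j' - VL Λ u j = 0 ∨ ((CB (VL Λ u j' - VL Λ u j) ∨ CB (-(VL Λ u j' - VL Λ u j))) ∧
      1 ≤ ‖VL Λ u j' - VL Λ u j‖) := by
  rcases lt_trichotomy j j' with h | h | h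
  · exact Or.inr ⟨Or.inl (hU.L j j' h).1, (hU.L j j' h).2.2⟩
  · left
    rw [h, sub_self]
  · right
    rw [neg_sub, norm_sub_rev]
    exact ⟨Or.inr (hU.L j' j h).1, (hU.L j' j h).2.2⟩

theorem cpen_VRd {Λ : Lay} {u : ℕ → ℂ} (hU : Huv Λ u) (j j' : ℕ) :
    VR Λ u j' - VR Λ u j = 0 ∨ ((CB (VR Λ u j' - VR Λ u j) ∨ CB (-(VR Λ u j' - VR Λ u j))) ∧
      1 ≤ ‖VR Λ u j' - VR Λ u j‖) := by
  rcases lt_trichotomy j j' with h | h | h
  · exact Or.inr ⟨Or.inl (hU.R j j' h).1, (hU.R j j' h).2.2⟩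
  · left
    rw [h, sub_self]
  · right
    rw [neg_sub, norm_sub_rev]
    exact ⟨Or.inr (hU.R j' j h).1, (hU.R j' j h).2.2⟩

theorem cpen_Uh3 {Λ : Lay} (hΛ : Λ.Ok) {u : ℕ → ℂ} (hC : Cmp Λ u) :
    Uh Λ u (6 * Λ.n + 3) = Uh Λ u (6 * Λ.n + 2) + 1 := by
  unfold Uh
  rw [Finset.sum_range_succ]
  congr 1
  have h1 : (6 * Λ.n + 2) / 6 = Λ.n := by omega
  rw [h1]
  unfold cw
  rw [if_neg (lt_irrefl _), if_pos rfl, hC.one]

theorem cpen_pe (Λ : Lay) (u : ℕ → ℂ) (t : ℕ) :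
    ps Λ u (.pe t) = Uh Λ u (6 * Λ.n + 2) + ro * VL Λ u (7 * t) - Complex.I * ro := by
  show gp Λ u (6 * Λ.n + 2) (7 * t) - Complex.I * ro = _
  unfold gp
  rw [if_pos (le_refl _)]

/-- the row of the pendant vertex is inside a narrow hole -/
theorem cpen_ins {Λ : Lay} (hΛ : Λ.Ok) {t : ℕ} (hk : Λ.k t = 4) : Λ.ins 2 (7 * t) = true := by
  obtain ⟨h0, h1⟩ := hΛ.pen t hk
  have h2 : Λ.cl t = 2 := by
    unfold Lay.cl
    rw [hk]
    rfl
  unfold Lay.ins
  have e1 : 7 * t % 7 = 0 := by omega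
  have e2 : 7 * t / 7 = t := by omega
  rw [if_pos e1, e2, h1, h2]
  simp [h0]

theorem cpen2_ok : St_cpen2 := by
  intro hif hsep hc Λ hΛ u hC hU t ht hk
  have hS := hsep hif hc Λ hΛ u hC hU
  have hDd : VR Λ u (7 * t) = VR Λ u (7 * t) := rfl
  have hD := hU.D (7 * t)
  obtain ⟨hp1, hp2⟩ := hC.pen t hk
  have hcone := cpen_D hp1 hp2 (hC.nar _ (cpen_ins hΛ hk))
  have hn2 : 6 * Λ.n + 2 ≤ 6 * Λ.nb := by unfold Lay.nb; omega
  have hn3 : 6 * Λ.n + 3 ≤ 6 * Λ.nb := by unfold Lay.nb; omega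
  have hl := cpen_s3l
  refine ⟨fun i j hij => ?_, fun β t' m r hq => ?_, fun t' ht' hk' hne => ?_⟩
  · obtain ⟨hi, hj⟩ := cend_prs hij
    rw [dist_eq_norm, cpen_pe]
    unfold gp
    split_ifs with hs
    · -- left
      have e : Uh Λ u (6 * Λ.n + 2) + ro * VL Λ u (7 * t) - Complex.I * ro -
          (Uh Λ u i + ro * VL Λ u j) = (Uh Λ u (6 * Λ.n + 2) - Uh Λ u i + -(Complex.I * ro)) +
          ro * (VL Λ u (7 * t) - VL Λ u j) := by ring
      rw [e]
      rcases Nat.eq_or_lt_of_le hs with hs | hs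
      · rw [hs, sub_self, zero_add]
        rcases cpen_VLd hU j (7 * t) with h | ⟨h | h, h'⟩
        · rw [h, mul_zero, add_zero, cend_nw]
        · exact (hc.l1 _ _ cpen_wCA h cend_nw.ge h').1
        · have := (hc.l1 _ _ cpen_wCA h cend_nw.ge (by rwa [norm_neg])).2
          rwa [mul_neg, sub_neg_eq_add] at this
      · have h1 := hU.U i (6 * Λ.n + 2) hs hn2
        refine cpen_row hc (hc.aa _ _ (hc.ba _ h1.1) cpen_wCA) ?_ (cpen_VLd hU j (7 * t))
        rw [Complex.add_re, cpen_w]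
        have h2 := h1.2.1
        have h3 : (i : ℝ) + 1 ≤ ((6 * Λ.n + 2 : ℕ) : ℝ) := by exact_mod_cast hs
        show 1 ≤ (Uh Λ u (6 * Λ.n + 2) - Uh Λ u i).re + 4 * √3 / 7
        linarith
    · -- right
      have hs' : 6 * Λ.n + 3 ≤ i := by omega
      have e : Uh Λ u (6 * Λ.n + 2) + ro * VL Λ u (7 * t) - Complex.I * ro -
          (Uh Λ u i + ro * VR Λ u j) = -((Uh Λ u i - Uh Λ u (6 * Λ.n + 3) +
            (1 + Dw Λ u (7 * t) + Complex.I * ro)) + ro * (VR Λ u j - VR Λ u (7 * t))) := by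
        rw [hD, cpen_Uh3 hΛ hC]
        ring
      rw [e, norm_neg]
      have hU3 : CA (Uh Λ u i - Uh Λ u (6 * Λ.n + 3)) ∧
          0 ≤ (Uh Λ u i - Uh Λ u (6 * Λ.n + 3)).re := by
        rcases Nat.eq_or_lt_of_le hs' with h | h
        · rw [← h, sub_self]
          exact ⟨hc.ba _ cend_CB0, le_refl 0⟩
        · have := (hU.U _ _ h hi).1
          exact ⟨hc.ba _ this, this.1⟩
      refine cpen_row hc (hc.aa _ _ hU3.1 hcone.1) ?_ (cpen_VRd hU (7 * t) j)
      rw [Complex.add_re]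
      linarith [hU3.2, hcone.2]
  · have hA := cend_q hS hq
    obtain ⟨hβ, ht'', hp, hm, h1, h7⟩ := hq
    have ho := cend_off hm h1 h7
    have hw := cend_nw
    rw [norm_neg] at hw
    rcases lt_trichotomy β Λ.n with hb | hb | hb
    · -- blocks on the left
      have hz := hS.ql β t' m r hp hb.le ht'' (cend_sz hm h1 h7) (by omega)
      rw [dist_eq_norm, cpen_pe]
      show 1 ≤ ‖Uh Λ u (6 * Λ.n + 2) + ro * VL Λ u (7 * t) - Complex.I * ro -
        (gp Λ u (6 * β + 1) (7 * t') + cw Λ u β * ofs m r)‖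
      rw [hz, cend_Uh hif, cend_VL hif]
      have hb' : (β : ℝ) + 1 ≤ Λ.n := by exact_mod_cast hb
      have hX : (6 * β + 1 + (m + 5 * r / 8 - bs r) : ℝ) ≤ ((6 * Λ.n + 2 : ℕ) : ℝ) - 33 / 8 := by
        push_cast
        linarith [ho.2]
      have hUU := cend_U hif hU hA.x0 (y := (6 * Λ.n + 2 : ℕ)) (by linarith) cend_n2
      have e : IF (fc Λ u) (6 * Λ.n + 2 : ℕ) + ro * IF (fl Λ u) (7 * t : ℕ) - Complex.I * ro -
          (IF (fc Λ u) (6 * β + 1 + (m + 5 * r / 8 - bs r)) +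
            ro * IF (fl Λ u) (7 * t' + 7 * r / 8)) =
          (IF (fc Λ u) (6 * Λ.n + 2 : ℕ) - IF (fc Λ u) (6 * β + 1 + (m + 5 * r / 8 - bs r)) +
            -(Complex.I * ro)) +
          ro * (IF (fl Λ u) (7 * t : ℕ) - IF (fl Λ u) (7 * t' + 7 * r / 8)) := by ring
      rw [e]
      refine cpen_far hc (hc.aa _ _ (hc.ba _ hUU.1) cpen_wCA) ?_
        (cpen_Lpm hif hΛ hC hA.y0 (by positivity))
      rw [Complex.add_re, cpen_w]
      have h2 := hUU.2
      show 109 / 100 ≤ (IF (fc Λ u) (6 * Λ.n + 2 : ℕ) -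
        IF (fc Λ u) (6 * β + 1 + (m + 5 * r / 8 - bs r))).re + 4 * √3 / 7
      linarith
    · -- the middle block
      have hk1 : Λ.k t' = 1 := by
        unfold Lay.pat at hp
        have ha := hΛ.a t'
        simp only [Bool.or_eq_true, decide_eq_true_eq, Bool.and_eq_true] at hp
        rcases hp with h | h | h
        · omega
        · omega
        · exact h.2
      have hcl : Λ.cl (t - 1) = 2 := (hΛ.pen t hk).2
      have ht1 : t' ≠ t := by
        rintro rfl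
        omega
      have ht2 : t' ≠ t - 1 := by
        rintro rfl
        unfold Lay.cl at hcl
        rw [hk1] at hcl
        simp at hcl
      have hz := hS.ql β t' m r hp hb.le ht'' (cend_sz hm h1 h7) (by omega)
      have hP := cend_Upm hif hU hA.x0 hA.x1 (y := (6 * Λ.n + 2 : ℕ)) (by positivity) cend_n2
      have h1' : (1 : ℝ) ≤ r := by exact_mod_cast h1
      have h7' : (r : ℝ) ≤ 7 := by exact_mod_cast h7
      rw [dist_eq_norm, cpen_pe]
      show 1 ≤ ‖Uh Λ u (6 * Λ.n + 2) + ro * VL Λ u (7 * t) - Complex.I * ro -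
        (gp Λ u (6 * β + 1) (7 * t') + cw Λ u β * ofs m r)‖
      rw [hz, cend_Uh hif, cend_VL hif]
      have e : IF (fc Λ u) (6 * Λ.n + 2 : ℕ) + ro * IF (fl Λ u) (7 * t : ℕ) - Complex.I * ro -
          (IF (fc Λ u) (6 * β + 1 + (m + 5 * r / 8 - bs r)) +
            ro * IF (fl Λ u) (7 * t' + 7 * r / 8)) =
          (IF (fc Λ u) (6 * Λ.n + 2 : ℕ) - IF (fc Λ u) (6 * β + 1 + (m + 5 * r / 8 - bs r)) +
          ro * (IF (fl Λ u) (7 * t : ℕ) - IF (fl Λ u) (7 * t' + 7 * r / 8))) -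
          Complex.I * ro := by ring
      rw [e]
      have h3 := norm_sub_norm_le (IF (fc Λ u) (6 * Λ.n + 2 : ℕ) -
        IF (fc Λ u) (6 * β + 1 + (m + 5 * r / 8 - bs r)) +
          ro * (IF (fl Λ u) (7 * t : ℕ) - IF (fl Λ u) (7 * t' + 7 * r / 8))) (Complex.I * ro)
      rw [hw] at h3
      suffices h : 2 ≤ ‖IF (fc Λ u) (6 * Λ.n + 2 : ℕ) -
        IF (fc Λ u) (6 * β + 1 + (m + 5 * r / 8 - bs r)) +
          ro * (IF (fl Λ u) (7 * t : ℕ) - IF (fl Λ u) (7 * t' + 7 * r / 8))‖ by linarith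
      rcases Nat.lt_or_ge t' t with hlt | hge
      · have hlt' : (t' : ℝ) + 2 ≤ t := by
          have : t' + 2 ≤ t := by omega
          exact_mod_cast this
        have hL := cend_L hif hΛ hC (x := 7 * t' + 7 * r / 8) (y := (7 * t : ℕ)) hA.y0
          (by push_cast; linarith)
        refine (cend_far hc hP hL.1 two_pos (le_trans ?_ hL.2)).1
        push_cast
        linarith
      · have hlt' : (t : ℝ) + 1 ≤ t' := by
          have : t + 1 ≤ t' := by omega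
          exact_mod_cast this
        have hL := cend_L hif hΛ hC (x := (7 * t : ℕ)) (y := 7 * t' + 7 * r / 8) (by positivity)
          (by push_cast; linarith)
        have hf := (cend_far hc hP hL.1 two_pos (le_trans (by push_cast; linarith) hL.2)).2
        refine hf.trans_eq (congrArg norm ?_)
        ring
    · -- blocks on the right
      have hz := hS.qr β t' m r hp hb.le hβ ht'' (cend_sz hm h1 h7) (by omega)
      rw [dist_comm, dist_eq_norm, cpen_pe]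
      show 1 ≤ ‖(gp Λ u (6 * β + 1) (7 * t') + cw Λ u β * ofs m r) -
        (Uh Λ u (6 * Λ.n + 2) + ro * VL Λ u (7 * t) - Complex.I * ro)‖
      have hb' : (Λ.n : ℝ) + 1 ≤ β := by exact_mod_cast hb
      have hX : ((6 * Λ.n + 3 : ℕ) : ℝ) + 4 ≤ (6 * β + 1 + (m + 5 * r / 8 - bs r) : ℝ) := by
        push_cast
        linarith [ho.1]
      have hUU := cend_U hif hU (x := (6 * Λ.n + 3 : ℕ)) (by positivity) (by linarith) hA.x1
      have e : (IF (fc Λ u) (6 * β + 1 + (m + 5 * r / 8 - bs r)) +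
            ro * IF (fr Λ u) (7 * t' + 7 * r / 8)) -
          (Uh Λ u (6 * Λ.n + 2) + ro * VL Λ u (7 * t) - Complex.I * ro) =
          (IF (fc Λ u) (6 * β + 1 + (m + 5 * r / 8 - bs r)) - IF (fc Λ u) (6 * Λ.n + 3 : ℕ) +
            (1 + Dw Λ u (7 * t) + Complex.I * ro)) +
          ro * (IF (fr Λ u) (7 * t' + 7 * r / 8) - IF (fr Λ u) (7 * t : ℕ)) := by
        rw [hD, ← cend_Uh hif, cpen_Uh3 hΛ hC, ← cend_VR hif]
        ring
      rw [hz, e]
      refine cpen_far hc (hc.aa _ _ (hc.ba _ hUU.1) hcone.1) ?_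
        (cpen_Rpm hif hΛ hC (by positivity) hA.y0)
      rw [Complex.add_re]
      have h2 := hUU.2
      have h3 := hcone.2
      linarith
  · rw [dist_eq_norm, cpen_pe, cpen_pe]
    have e : Uh Λ u (6 * Λ.n + 2) + ro * VL Λ u (7 * t) - Complex.I * ro -
        (Uh Λ u (6 * Λ.n + 2) + ro * VL Λ u (7 * t') - Complex.I * ro) =
        ro * (VL Λ u (7 * t) - VL Λ u (7 * t')) := by ring
    rw [e, norm_mul, cend_ro, one_mul]
    rcases cpen_VLd hU (7 * t') (7 * t) with h | h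
    · exfalso
      rcases Nat.lt_or_gt_of_ne hne with h' | h'
      · have := (hU.L (7 * t') (7 * t) (by omega)).2.2
        rw [h, norm_zero] at this
        norm_num at this
      · have := (hU.L (7 * t) (7 * t') (by omega)).2.2
        rw [← norm_neg, neg_sub, h, norm_zero] at this
        norm_num at this
    · exact h.2

end Pool.Agent.H670R4
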