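import Pool.Agent.H670R4.Sub

set_option autoImplicit false

namespace Pool.Agent.H670R4

/-- horizontal offset of the vertex `(m, r)` of a patch -/
theorem cqq_off {m r : ℕ} (hm : m < 3) (h1 : 1 ≤ r) (h7 : r ≤ 7) :
    (1 / 8 : ℝ) ≤ (m : ℝ) + 5 * r / 8 - bs r ∧ (m : ℝ) + 5 * r / 8 - bs r ≤ 23 / 8 := by
  have hm' : (0 : ℝ) ≤ m ∧ (m : ℝ) ≤ 2 := by
    refine ⟨Nat.cast_nonneg _, ?_⟩
    have : m ≤ 2 := by omega
    exact_mod_cast this
  interval_cases r <;> norm_num [bs] <;> constructor <;> linarith [hm'.1, hm'.2]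

theorem cqq_sz {m r : ℕ} (hm : m < 3) : m < sz r := by
  unfold sz
  split_ifs <;> omega

/-- a nonzero vector of the triangular lattice -/
theorem cqq_lat (a b : ℤ) (h : a ≠ 0 ∨ b ≠ 0) : 1 ≤ ‖(a : ℂ) + (b : ℂ) * om‖ := by
  have hre : ((a : ℂ) + (b : ℂ) * om).re = (a : ℝ) + b / 2 := by
    simp [om]; ring
  have him : ((a : ℂ) + (b : ℂ) * om).im = (b : ℝ) * (√3 / 2) := by
    simp [om]
  have h3 : √3 * √3 = 3 := Real.mul_self_sqrt (by norm_num)
  have hns : Complex.normSq ((a : ℂ) + (b : ℂ) * om) = ((a * a + a * b + b * b : ℤ) : ℝ) := by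
    rw [Complex.normSq_apply, hre, him]
    push_cast
    nlinarith [h3]
  have hpos : 1 ≤ a * a + a * b + b * b := by
    have : 0 < a * a + a * b + b * b := by
      rcases h with h | h
      · have : 0 < a * a := mul_self_pos.2 h
        nlinarith [sq_nonneg (a + 2 * b)]
      · have : 0 < b * b := mul_self_pos.2 h
        nlinarith [sq_nonneg (2 * a + b)]
    omega
  have h1 : (1 : ℝ) ≤ ‖(a : ℂ) + (b : ℂ) * om‖ ^ 2 := by
    rw [← Complex.normSq_eq_norm_sq, hns]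
    exact_mod_cast hpos
  nlinarith [norm_nonneg ((a : ℂ) + (b : ℂ) * om)]

section
variable {Λ : Lay} {u : ℕ → ℂ}

/-- the coordinates of a vertex of a patch are in the grid -/
theorem cqq_x {β m r : ℕ} (hβ : β < Λ.nb) (hm : m < 3) (h1 : 1 ≤ r) (h7 : r ≤ 7) :
    (0 : ℝ) ≤ 6 * β + 1 + (m + 5 * r / 8 - bs r) ∧
      6 * (β : ℝ) + 1 + (m + 5 * r / 8 - bs r) ≤ 6 * Λ.nb := by
  obtain ⟨h, h'⟩ := cqq_off hm h1 h7
  have hb : (β : ℝ) + 1 ≤ Λ.nb := by exact_mod_cast hβ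
  have hb0 : (0 : ℝ) ≤ β := Nat.cast_nonneg _
  constructor <;> linarith

theorem cqq_y {t r : ℕ} (ht : t < Λ.T) (h7 : r ≤ 7) :
    (0 : ℝ) ≤ 7 * t + 7 * r / 8 ∧ 7 * (t : ℝ) + 7 * r / 8 ≤ 7 * Λ.T := by
  have hb : (t : ℝ) + 1 ≤ Λ.T := by exact_mod_cast ht
  have hr : (r : ℝ) ≤ 7 := by exact_mod_cast h7
  constructor
  · positivity
  · linarith

/-- different levels are far from each other -/
theorem cqq_yy {t t' r r' : ℕ} (h : t ≠ t') (h1 : 1 ≤ r) (h7 : r ≤ 7) (h1' : 1 ≤ r')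
    (h7' : r' ≤ 7) : (9 / 8 : ℝ) ≤ |(7 * (t' : ℝ) + 7 * r' / 8) - (7 * t + 7 * r / 8)| := by
  have a1 : (1 : ℝ) ≤ r := by exact_mod_cast h1
  have a2 : (r : ℝ) ≤ 7 := by exact_mod_cast h7
  have a3 : (1 : ℝ) ≤ r' := by exact_mod_cast h1'
  have a4 : (r' : ℝ) ≤ 7 := by exact_mod_cast h7'
  rcases lt_or_gt_of_ne h with h | h
  · have : (t : ℝ) + 1 ≤ t' := by exact_mod_cast h
    refine le_trans ?_ (le_abs_self _)
    linarith
  · have : (t' : ℝ) + 1 ≤ t := by exact_mod_cast h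
    refine le_trans ?_ (neg_le_abs _)
    linarith

/-- the same block, different levels, ordered -/
theorem cqq_same (S : Sep Λ u) {β t m r t' m' r' : ℕ} (hβ : β < Λ.nb)
    (ht : t < Λ.T) (ht' : t' < Λ.T) (hp : Λ.pat t β = true) (hp' : Λ.pat t' β = true)
    (hm : m < 3) (hm' : m' < 3) (h1 : 1 ≤ r) (h7 : r ≤ 7) (h1' : 1 ≤ r') (h7' : r' ≤ 7)
    (htt : t ≠ t')
    (hx : (m : ℝ) + 5 * r / 8 - bs r ≤ m' + 5 * r' / 8 - bs r') :
    1 ≤ dist (ps Λ u (.q β t m r)) (ps Λ u (.q β t' m' r')) := by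
  have X := cqq_x (Λ := Λ) hβ hm h1 h7
  have X' := cqq_x (Λ := Λ) hβ hm' h1' h7'
  have Y := cqq_y (Λ := Λ) ht h7
  have Y' := cqq_y (Λ := Λ) ht' h7'
  rw [dist_comm, dist_eq_norm]
  simp only [ps]
  rcases le_or_gt β Λ.n with hn | hn
  · rw [S.ql β t m r hp hn ht (cqq_sz hm) (by omega),
      S.ql β t' m' r' hp' hn ht' (cqq_sz hm') (by omega)]
    have := S.ll _ _ _ _ X.1 (show (6 * (β : ℝ) + 1 + (m + 5 * r / 8 - bs r)) ≤
      6 * β + 1 + (m' + 5 * r' / 8 - bs r') by linarith) X'.2 Y.1 Y.2 Y'.1 Y'.2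
      (Or.inr (cqq_yy htt h1 h7 h1' h7'))
    refine this.trans (le_of_eq ?_)
    congr 1
    ring
  · rw [S.qr β t m r hp hn.le hβ ht (cqq_sz hm) (by omega),
      S.qr β t' m' r' hp' hn.le hβ ht' (cqq_sz hm') (by omega)]
    have := S.rr _ _ _ _ X.1 (show (6 * (β : ℝ) + 1 + (m + 5 * r / 8 - bs r)) ≤
      6 * β + 1 + (m' + 5 * r' / 8 - bs r') by linarith) X'.2 Y.1 Y.2 Y'.1 Y'.2
      (Or.inr (cqq_yy htt h1 h7 h1' h7'))
    refine this.trans (le_of_eq ?_)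
    congr 1
    ring

/-- different blocks -/
theorem cqq_dif (S : Sep Λ u) {β t m r β' t' m' r' : ℕ} (hβ' : β' < Λ.nb) (hlt : β < β')
    (ht : t < Λ.T) (ht' : t' < Λ.T) (hp : Λ.pat t β = true) (hp' : Λ.pat t' β' = true)
    (hm : m < 3) (hm' : m' < 3) (h1 : 1 ≤ r) (h7 : r ≤ 7) (h1' : 1 ≤ r') (h7' : r' ≤ 7) :
    1 ≤ dist (ps Λ u (.q β t m r)) (ps Λ u (.q β' t' m' r')) := by
  have hβ : β < Λ.nb := hlt.trans hβ'
  have X := cqq_x (Λ := Λ) hβ hm h1 h7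
  have X' := cqq_x (Λ := Λ) hβ' hm' h1' h7'
  have Y := cqq_y (Λ := Λ) ht h7
  have Y' := cqq_y (Λ := Λ) ht' h7'
  have o := cqq_off hm h1 h7
  have o' := cqq_off hm' h1' h7'
  have hb : (β : ℝ) + 1 ≤ β' := by exact_mod_cast hlt
  have hdx : (2 : ℝ) ≤ (6 * (β' : ℝ) + 1 + (m' + 5 * r' / 8 - bs r')) -
      (6 * β + 1 + (m + 5 * r / 8 - bs r)) := by linarith
  have hxx : (6 * (β : ℝ) + 1 + (m + 5 * r / 8 - bs r)) ≤
      6 * β' + 1 + (m' + 5 * r' / 8 - bs r') := by linarith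
  rw [dist_comm, dist_eq_norm]
  simp only [ps]
  rcases le_or_gt β' Λ.n with hn | hn
  · rw [S.ql β t m r hp (by omega) ht (cqq_sz hm) (by omega),
      S.ql β' t' m' r' hp' hn ht' (cqq_sz hm') (by omega)]
    have := S.ll _ _ _ _ X.1 hxx X'.2 Y.1 Y.2 Y'.1 Y'.2 (Or.inl (by linarith))
    refine this.trans (le_of_eq ?_)
    congr 1
    ring
  · rcases le_or_gt β Λ.n with hn' | hn'
    · rw [S.ql β t m r hp hn' ht (cqq_sz hm) (by omega),
        S.qr β' t' m' r' hp' hn.le hβ' ht' (cqq_sz hm') (by omega)]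
      have := S.lr _ _ _ _ X.1 hxx X'.2 Y.1 Y.2 Y'.1 Y'.2 (Or.inl hdx)
      refine this.trans (le_of_eq ?_)
      congr 1
      ring
    · rw [S.qr β t m r hp hn'.le hβ ht (cqq_sz hm) (by omega),
        S.qr β' t' m' r' hp' hn.le hβ' ht' (cqq_sz hm') (by omega)]
      have := S.rr _ _ _ _ X.1 hxx X'.2 Y.1 Y.2 Y'.1 Y'.2 (Or.inl (by linarith))
      refine this.trans (le_of_eq ?_)
      congr 1
      ring

end

theorem cqq2_ok : St_cqq2 := by
  intro hIF hSep hC Λ hΛ u hu hH β t m r β' t' m' r' hv hv' hne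
  have S := hSep hIF hC Λ hΛ u hu hH
  obtain ⟨hβ, ht, hp, hm, h1, h7⟩ := hv
  obtain ⟨hβ', ht', hp', hm', h1', h7'⟩ := hv'
  rcases lt_trichotomy β β' with h | h | h
  · exact cqq_dif S hβ' h ht ht' hp hp' hm hm' h1 h7 h1' h7'
  · subst h
    by_cases htt : t = t'
    · subst htt
      rw [dist_eq_norm]
      simp only [ps]
      have e : gp Λ u (6 * β + 1) (7 * t) + cw Λ u β * ofs m r -
          (gp Λ u (6 * β + 1) (7 * t) + cw Λ u β * ofs m' r') =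
          cw Λ u β * ((((m : ℤ) - m' - (bs r - bs r') : ℤ) : ℂ) +
            (((r : ℤ) - r' : ℤ) : ℂ) * om) := by
        unfold ofs
        push_cast
        ring
      rw [e, norm_mul, (hH.cn β hβ).1, one_mul]
      apply cqq_lat
      by_contra hcon
      push Not at hcon
      obtain ⟨c1, c2⟩ := hcon
      have hr : r = r' := by omega
      subst hr
      have hmm : m = m' := by omega
      subst hmm
      exact hne rfl
    · rcases le_total ((m : ℝ) + 5 * r / 8 - bs r) (m' + 5 * r' / 8 - bs r') with hx | hx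
      · exact cqq_same S hβ ht ht' hp hp' hm hm' h1 h7 h1' h7' htt hx
      · rw [dist_comm]
        exact cqq_same S hβ ht' ht hp' hp hm' hm h1' h7' h1 h7 (Ne.symm htt) hx
  · rw [dist_comm]
    exact cqq_dif S hβ h ht' ht hp' hp hm' hm h1' h7' h1 h7

end Pool.Agent.H670R4
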