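import Pool.Agent.H670R4.Sub

/-!
# Common points of open disks: test points
-/

set_option autoImplicit false

namespace Pool.Agent.H670R4

open Complex Set

/-- the largest excess of the distances over the radii -/
noncomputable def disk_ex (I : Finset ℕ) (hI : I.Nonempty) (c : ℕ → ℂ) (r : ℕ → ℝ) (x : ℂ) : ℝ :=
  I.sup' hI (fun i => dist x (c i) - r i)

lemma disk_ex_cont (I : Finset ℕ) (hI : I.Nonempty) (c : ℕ → ℂ) (r : ℕ → ℝ) :
    Continuous (disk_ex I hI c r) := by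
  unfold disk_ex
  exact Continuous.finset_sup'_apply hI fun i _ => by fun_prop

lemma disk_ex_le {I : Finset ℕ} {hI : I.Nonempty} {c : ℕ → ℂ} {r : ℕ → ℝ} {x : ℂ}
    (h : disk_ex I hI c r x ≤ 0) {i : ℕ} (hi : i ∈ I) : dist x (c i) ≤ r i := by
  have h1 : dist x (c i) - r i ≤ disk_ex I hI c r x :=
    Finset.le_sup' (fun i => dist x (c i) - r i) hi
  linarith

lemma disk_ex_of_le {I : Finset ℕ} {hI : I.Nonempty} {c : ℕ → ℂ} {r : ℕ → ℝ} {x : ℂ}
    (h : ∀ i ∈ I, dist x (c i) ≤ r i) : disk_ex I hI c r x ≤ 0 :=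
  Finset.sup'_le _ _ fun i hi => by linarith [h i hi]

lemma disk_ex_eq {I : Finset ℕ} {hI : I.Nonempty} {c : ℕ → ℂ} {r : ℕ → ℝ} {x : ℂ}
    (h : disk_ex I hI c r x = 0) : ∃ i ∈ I, dist x (c i) = r i := by
  obtain ⟨i, hi, h1⟩ := Finset.exists_mem_eq_sup' hI (fun i => dist x (c i) - r i)
  refine ⟨i, hi, ?_⟩
  unfold disk_ex at h
  rw [h1] at h
  linarith

/-- boundary point in a given direction -/
lemma disk_ray (I : Finset ℕ) (hI : I.Nonempty) (c : ℕ → ℂ) (r : ℕ → ℝ) (z : ℂ)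
    (hz : ∀ i ∈ I, dist z (c i) < r i) (e : ℂ) (he : ‖e‖ = 1) :
    ∃ t : ℝ, 0 < t ∧ (∀ i ∈ I, dist (z + t * e) (c i) ≤ r i) ∧
      ∃ i ∈ I, dist (z + t * e) (c i) = r i := by
  obtain ⟨i0, hi0⟩ := hI
  have hI : I.Nonempty := ⟨i0, hi0⟩
  set g : ℝ → ℝ := fun t => disk_ex I hI c r (z + t * e) with hg
  have hcont : Continuous g := (disk_ex_cont I hI c r).comp (by fun_prop)
  have h0 : g 0 < 0 := by
    simp only [hg, ofReal_zero, zero_mul, add_zero]
    unfold disk_ex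
    rw [Finset.sup'_lt_iff]
    intro i hi
    linarith [hz i hi]
  have hr0 : 0 < r i0 := lt_of_le_of_lt dist_nonneg (hz i0 hi0)
  have h1 : 0 ≤ g (2 * r i0) := by
    have h2 : dist (z + ((2 * r i0 : ℝ) : ℂ) * e) (c i0) - r i0 ≤ g (2 * r i0) :=
      Finset.le_sup' (fun i => dist (z + ((2 * r i0 : ℝ) : ℂ) * e) (c i) - r i) hi0
    have h3 : dist (z + ((2 * r i0 : ℝ) : ℂ) * e) z = 2 * r i0 := by
      rw [dist_eq_norm, add_sub_cancel_left, norm_mul, he, mul_one, Complex.norm_real,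
        Real.norm_eq_abs, abs_of_pos (by linarith)]
    have h4 := dist_triangle (z + ((2 * r i0 : ℝ) : ℂ) * e) (c i0) z
    have h5 := hz i0 hi0
    rw [dist_comm (c i0) z] at h4
    linarith
  obtain ⟨t, ht, hgt⟩ := intermediate_value_Icc (by linarith : (0 : ℝ) ≤ 2 * r i0)
    hcont.continuousOn (show (0 : ℝ) ∈ Icc (g 0) (g (2 * r i0)) from ⟨h0.le, h1⟩)
  have htpos : 0 < t := by
    rcases ht.1.eq_or_lt with h | h
    · rw [← h] at hgt
      linarith
    · exact h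
  exact ⟨t, htpos, fun i hi => disk_ex_le hgt.le hi, disk_ex_eq hgt⟩

/-- the midpoint of two different points of a closed disk is in the open disk -/
lemma disk_mid {P Q a : ℂ} {r : ℝ} (hP : dist P a ≤ r) (hQ : dist Q a ≤ r) (hPQ : P ≠ Q) :
    dist ((P + Q) / 2) a < r := by
  have h1 := parallelogram_law_with_norm ℝ (P - a) (Q - a)
  have h2 : (P - a) + (Q - a) = 2 * ((P + Q) / 2 - a) := by ring
  have h3 : (P - a) - (Q - a) = P - Q := by ring
  rw [h2, h3, norm_mul] at h1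
  have h4 : 0 < ‖P - Q‖ := norm_pos_iff.2 (sub_ne_zero.2 hPQ)
  rw [dist_eq_norm] at hP hQ ⊢
  have h5 : ‖(2 : ℂ)‖ = 2 := by norm_num
  rw [h5] at h1
  have h6 : 0 ≤ ‖P - a‖ := norm_nonneg _
  have h7 : 0 ≤ ‖Q - a‖ := norm_nonneg _
  have h8 : 0 ≤ ‖(P + Q) / 2 - a‖ := norm_nonneg _
  by_contra hcon
  push Not at hcon
  nlinarith

lemma disk_arc {c0 w0 : ℂ} {r0 : ℝ} (hr0 : 0 < r0) (hw0 : ‖w0‖ = 1) {h : ℂ → ℝ}
    (hh : Continuous h) (hB : 0 < h (c0 - r0 * w0)) {A A' : ℂ} (hAA : A ≠ A')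
    (hA : dist A c0 = r0) (hA' : dist A' c0 = r0) (hhA : h A ≤ 0) (hhA' : h A' ≤ 0) :
    ∃ P Q : ℂ, P ≠ Q ∧ dist P c0 = r0 ∧ dist Q c0 = r0 ∧ h P = 0 ∧ h Q = 0 := by
  have hw : w0 ≠ 0 := by
    rintro rfl
    simp at hw0
  have hrc : (r0 : ℂ) ≠ 0 := by exact_mod_cast hr0.ne'
  set γ : ℝ → ℂ := fun θ => c0 + r0 * w0 * Complex.exp (θ * I) with hγ
  have hγc : Continuous γ := by
    simp only [hγ]
    fun_prop
  have hγd : ∀ θ, dist (γ θ) c0 = r0 := by
    intro θ
    simp only [hγ]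
    rw [dist_eq_norm, add_sub_cancel_left, norm_mul, norm_mul, hw0, Complex.norm_exp_ofReal_mul_I,
      Complex.norm_real, Real.norm_eq_abs, abs_of_pos hr0]
    ring
  have hγA : ∀ A : ℂ, dist A c0 = r0 → γ (arg ((A - c0) / (r0 * w0))) = A := by
    intro A hA
    simp only [hγ]
    have h1 := Complex.norm_mul_exp_arg_mul_I ((A - c0) / (r0 * w0))
    have h2 : ‖(A - c0) / (r0 * w0)‖ = 1 := by
      rw [dist_eq_norm] at hA
      rw [norm_div, norm_mul, hA, hw0, Complex.norm_real, Real.norm_eq_abs, abs_of_pos hr0]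
      field_simp
    rw [h2, ofReal_one, one_mul] at h1
    rw [h1]
    field_simp
    ring
  have hγpi : γ Real.pi = c0 - r0 * w0 := by
    simp only [hγ]
    rw [Complex.exp_pi_mul_I]
    ring
  have hγpi' : γ (-Real.pi) = c0 - r0 * w0 := by
    simp only [hγ]
    rw [ofReal_neg, neg_mul, Complex.exp_neg, Complex.exp_pi_mul_I]
    ring
  have hinj : ∀ θ ∈ Ioc (-Real.pi) Real.pi, ∀ θ' ∈ Ioc (-Real.pi) Real.pi, γ θ = γ θ' → θ = θ' := by
    intro θ hθ θ' hθ' he
    simp only [hγ] at he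
    have h1 : Complex.exp (θ * I) = Complex.exp (θ' * I) := by
      have h2 := add_left_cancel he
      exact mul_left_cancel₀ (mul_ne_zero hrc hw) h2
    refine Circle.exp_injOn_Ioc (by linarith [Real.pi_pos]) hθ hθ' ?_
    ext
    simpa using h1
  -- the two arguments
  have key : ∀ α β : ℝ, -Real.pi < α → α < β → β ≤ Real.pi → h (γ α) ≤ 0 → h (γ β) ≤ 0 →
      ∃ P Q : ℂ, P ≠ Q ∧ dist P c0 = r0 ∧ dist Q c0 = r0 ∧ h P = 0 ∧ h Q = 0 := by
    intro α β hα hαβ hβ h1 h2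
    obtain ⟨θ1, hθ1, h3⟩ := intermediate_value_Icc' hα.le (hh.comp hγc).continuousOn
      (show (0 : ℝ) ∈ Icc ((h ∘ γ) α) ((h ∘ γ) (-Real.pi)) from
        ⟨h1, by simp only [Function.comp, hγpi']; exact hB.le⟩)
    obtain ⟨θ2, hθ2, h4⟩ := intermediate_value_Icc hβ (hh.comp hγc).continuousOn
      (show (0 : ℝ) ∈ Icc ((h ∘ γ) β) ((h ∘ γ) Real.pi) from
        ⟨h2, by simp only [Function.comp, hγpi]; exact hB.le⟩)
    simp only [Function.comp] at h3 h4
    have h5 : θ1 ≠ -Real.pi := by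
      rintro rfl
      rw [hγpi'] at h3
      linarith
    have h6 : -Real.pi < θ1 := lt_of_le_of_ne hθ1.1 (Ne.symm h5)
    refine ⟨γ θ1, γ θ2, ?_, hγd _, hγd _, h3, h4⟩
    intro he
    have := hinj θ1 ⟨h6, by linarith [hθ1.2]⟩ θ2 ⟨by linarith [hθ2.1, hθ1.2], hθ2.2⟩ he
    linarith [hθ2.1, hθ1.2]
  have e1 := hγA A hA
  have e2 := hγA A' hA'
  rcases lt_trichotomy (arg ((A - c0) / (r0 * w0))) (arg ((A' - c0) / (r0 * w0))) with hl | hl | hl
  · exact key _ _ (neg_pi_lt_arg _) hl (arg_le_pi _) (by rw [e1]; exact hhA) (by rw [e2]; exact hhA')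
  · exact absurd (by rw [← e1, ← e2, hl]) hAA
  · exact key _ _ (neg_pi_lt_arg _) hl (arg_le_pi _) (by rw [e2]; exact hhA') (by rw [e1]; exact hhA)

theorem disk_ok : St_disk := by
  intro I c r z hI hinj hz
  have hr : ∀ i ∈ I, 0 < r i := fun i hi => lt_of_le_of_lt dist_nonneg (hz i hi)
  -- two boundary points on the same circle
  choose! t ht0 ht1 ht2 using disk_ray I hI c r z hz
  choose! ix hix1 hix2 using ht2
  obtain ⟨a, b, hab, hi⟩ : ∃ a b : Circle, a ≠ b ∧ ix (a : ℂ) = ix (b : ℂ) := by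
    have hfin : Finite I := inferInstance
    have hinf : Infinite Circle := by
      have hinj : Function.Injective (fun x : Ioc (-Real.pi) Real.pi => Circle.exp (x : ℝ)) := by
        intro x y hxy
        exact Subtype.ext (Circle.exp_injOn_Ioc (by linarith [Real.pi_pos]) x.2 y.2 hxy)
      have : Infinite (Ioc (-Real.pi) Real.pi) :=
        Set.infinite_coe_iff.2 (Set.Ioc_infinite (by linarith [Real.pi_pos]))
      exact Infinite.of_injective _ hinj
    obtain ⟨a, b, hab, h⟩ := Finite.exists_ne_map_eq_of_infinite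
      (fun a : Circle => (⟨ix (a : ℂ), hix1 a (Circle.norm_coe a)⟩ : I))
    exact ⟨a, b, hab, congrArg Subtype.val h⟩
  have ha1 : ‖(a : ℂ)‖ = 1 := Circle.norm_coe a
  have hb1 : ‖(b : ℂ)‖ = 1 := Circle.norm_coe b
  set i := ix (a : ℂ) with hidef
  have hiI : i ∈ I := hix1 a ha1
  set A : ℂ := z + t a * a with hAdef
  set A' : ℂ := z + t b * b with hA'def
  have hA : dist A (c i) = r i := hix2 a ha1
  have hA' : dist A' (c i) = r i := by
    rw [hi]
    exact hix2 b hb1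
  have hAA : A ≠ A' := by
    intro h
    have h1 : (t a : ℂ) * a = t b * b := add_left_cancel h
    have h2 : t a = t b := by
      have h3 := congrArg norm h1
      rw [norm_mul, norm_mul, ha1, hb1, Complex.norm_real, Complex.norm_real, Real.norm_eq_abs,
        Real.norm_eq_abs, abs_of_pos (ht0 a ha1), abs_of_pos (ht0 b hb1), mul_one, mul_one] at h3
      exact h3
    rw [h2] at h1
    have h3 : (t b : ℂ) ≠ 0 := by exact_mod_cast (ht0 b hb1).ne'
    exact hab (Circle.ext (mul_left_cancel₀ h3 h1))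
  by_cases hall : ∀ B : ℂ, dist B (c i) = r i → ∀ j ∈ I, dist B (c j) ≤ r j
  · -- the circle is contained in all the disks
    left
    refine ⟨i, hiI, fun j hj => ?_⟩
    by_cases hij : c i = c j
    · rw [hij, dist_self]
      exact hr j hj
    · have h1 : 0 < ‖c i - c j‖ := norm_pos_iff.2 (sub_ne_zero.2 hij)
      have hri := hr i hiI
      have h2 := hall (c i + (r i / ‖c i - c j‖ : ℝ) * (c i - c j)) (by
        rw [dist_eq_norm, add_sub_cancel_left, norm_mul, Complex.norm_real, Real.norm_eq_abs,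
          abs_of_pos (by positivity)]
        field_simp) j hj
      have h3 : c i + (r i / ‖c i - c j‖ : ℝ) * (c i - c j) - c j =
          ((1 + r i / ‖c i - c j‖ : ℝ) : ℂ) * (c i - c j) := by
        push_cast
        ring
      rw [dist_eq_norm, h3, norm_mul, Complex.norm_real, Real.norm_eq_abs,
        abs_of_pos (by positivity)] at h2
      rw [dist_eq_norm]
      have h4 : (1 + r i / ‖c i - c j‖) * ‖c i - c j‖ = ‖c i - c j‖ + r i := by
        field_simp
      linarith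
  · right
    push Not at hall
    obtain ⟨B, hB, j0, hj0, hBj⟩ := hall
    have hri := hr i hiI
    have hj0i : j0 ≠ i := by
      rintro rfl
      linarith
    have hne : (I.erase i).Nonempty := ⟨j0, Finset.mem_erase.2 ⟨hj0i, hj0⟩⟩
    set w0 : ℂ := (c i - B) / r i with hw0
    have hrc : (r i : ℂ) ≠ 0 := by exact_mod_cast hri.ne'
    have hw0n : ‖w0‖ = 1 := by
      rw [hw0, norm_div, Complex.norm_real, Real.norm_eq_abs, abs_of_pos hri, ← dist_eq_norm,
        dist_comm, hB]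
      field_simp
    have hBw : c i - r i * w0 = B := by
      rw [hw0]
      field_simp
      ring
    obtain ⟨P, Q, hPQ, hP, hQ, hhP, hhQ⟩ := disk_arc hri hw0n
      (disk_ex_cont (I.erase i) hne c r) (by
        rw [hBw]
        have h1 : dist B (c j0) - r j0 ≤ disk_ex (I.erase i) hne c r B :=
          Finset.le_sup' (fun i => dist B (c i) - r i) (Finset.mem_erase.2 ⟨hj0i, hj0⟩)
        linarith) hAA hA hA'
      (disk_ex_of_le fun j hj => ht1 a ha1 j (Finset.mem_erase.1 hj).2)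
      (disk_ex_of_le fun j hj => ht1 b hb1 j (Finset.mem_erase.1 hj).2)
    obtain ⟨jP, hjP, hjP'⟩ := disk_ex_eq hhP
    obtain ⟨jQ, hjQ, hjQ'⟩ := disk_ex_eq hhQ
    refine ⟨P, Q, ⟨i, hiI, jP, (Finset.mem_erase.1 hjP).2, (Finset.mem_erase.1 hjP).1.symm, hP,
      hjP'⟩, ⟨i, hiI, jQ, (Finset.mem_erase.1 hjQ).2, (Finset.mem_erase.1 hjQ).1.symm, hQ, hjQ'⟩, ?_⟩
    intro m hm
    by_cases hmi : m = i
    · rw [hmi]
      exact disk_mid hP.le hQ.le hPQ
    · exact disk_mid (disk_ex_le hhP.le (Finset.mem_erase.2 ⟨hmi, hm⟩))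
        (disk_ex_le hhQ.le (Finset.mem_erase.2 ⟨hmi, hm⟩)) hPQ

end Pool.Agent.H670R4
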