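import Pool.Agent.H670R4.Sub

/-! FWD: ply number at most one gives a weak unit-distance drawing.  helper329. -/

namespace Pool.Agent.H670R4

open Pool.Agent.NPC Pool.Agent.H670R2

theorem fwd_exists_inj (n : ℕ) : ∃ p : Fin n → Plane, Function.Injective p := by
  refine ⟨fun i => EuclideanSpace.single 0 (i.1 : ℝ), ?_⟩
  intro i j hij
  have h1 := congrArg (fun x : Plane => x 0) hij
  simp at h1
  exact Fin.ext h1

theorem fwd_depth {n : ℕ} (G : SimpleGraph (Fin n)) (p : Fin n → Plane) (z : Plane) :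
    depth G p z ≤ ply G p := by
  unfold ply
  refine le_csSup ⟨n, ?_⟩ ⟨z, rfl⟩
  rintro _ ⟨y, rfl⟩
  unfold depth
  have h1 := Set.ncard_le_ncard (Set.subset_univ {v : Fin n | y ∈ Metric.ball (p v) (rad G p v)})
  rw [Set.ncard_univ, Nat.card_eq_fintype_card, Fintype.card_fin] at h1
  exact h1

theorem fwd_rad_le {n : ℕ} (G : SimpleGraph (Fin n)) (p : Fin n → Plane) {u v : Fin n}
    (h : G.Adj u v) : dist (p u) (p v) / 2 ≤ rad G p u := by
  unfold rad
  refine le_csSup ?_ ⟨v, h, rfl⟩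
  apply Set.Finite.bddAbove
  refine (Set.finite_range (fun w => dist (p u) (p w) / 2)).subset ?_
  rintro r ⟨w, _, rfl⟩
  exact ⟨w, rfl⟩

theorem fwd_sep {n : ℕ} (G : SimpleGraph (Fin n)) (p : Fin n → Plane) (hp : ply G p ≤ 1)
    {u v : Fin n} (huv : u ≠ v) (hu : 0 < rad G p u) (hv : 0 < rad G p v) :
    rad G p u + rad G p v ≤ dist (p u) (p v) := by
  by_contra hlt
  push Not at hlt
  obtain ⟨z, hz1, hz2⟩ := exists_dist_lt_lt hu hv (x := p u) (z := p v) (by linarith)
  have h1 : depth G p z ≤ 1 := (fwd_depth G p z).trans hp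
  have h2 : ({u, v} : Set (Fin n)) ⊆ {w : Fin n | z ∈ Metric.ball (p w) (rad G p w)} := by
    intro w hw
    rcases hw with rfl | hw
    · show z ∈ Metric.ball (p w) (rad G p w)
      rw [Metric.mem_ball, dist_comm]
      exact hz1
    · rw [Set.mem_singleton_iff] at hw
      subst hw
      show z ∈ Metric.ball (p w) (rad G p w)
      rw [Metric.mem_ball]
      exact hz2
  have h3 := Set.ncard_le_ncard h2 (Set.toFinite _)
  rw [Set.ncard_pair huv] at h3
  unfold depth at h1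
  omega

theorem ply_fwd_ok : St_fwd := by
  classical
  intro L h hply hconn
  obtain ⟨n, hn⟩ : ∃ n, n = L.length := ⟨_, rfl⟩
  -- a drawing
  have hne : {k : ℕ | ∃ p : Fin L.length → Plane, Function.Injective p ∧ ply (graphOf L h) p = k}.Nonempty := by
    obtain ⟨p, hp⟩ := fwd_exists_inj L.length
    exact ⟨_, p, hp, rfl⟩
  obtain ⟨p, hpi, hpp⟩ := Nat.sInf_mem hne
  have hp1 : ply (graphOf L h) p ≤ 1 := by
    rw [hpp]; exact hply
  have hadj : ∀ (u v : ℕ) (hu : u < L.length) (hv : v < L.length), v ∈ L.getD u [] →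
      (graphOf L h).Adj ⟨u, hu⟩ ⟨v, hv⟩ := fun u v hu hv huv => huv
  have hpos : ∀ (u : ℕ) (hu : u < L.length), L.getD u [] ≠ [] → 0 < rad (graphOf L h) p ⟨u, hu⟩ := by
    intro u hu hne
    obtain ⟨v, hv⟩ := List.exists_mem_of_ne_nil _ hne
    obtain ⟨hvl, hvu, _⟩ := h u v hu hv
    have h1 := fwd_rad_le (graphOf L h) p (hadj u v hu hvl hv)
    have h2 : p ⟨u, hu⟩ ≠ p ⟨v, hvl⟩ := fun e => hvu (congrArg Fin.val (hpi e)).symm
    have h3 : 0 < dist (p ⟨u, hu⟩) (p ⟨v, hvl⟩) := dist_pos.2 h2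
    linarith
  have hlive : ∀ (u v : ℕ), u < L.length → v ∈ L.getD u [] → L.getD v [] ≠ [] := by
    intro u v hu hv e
    have h1 := (h u v hu hv).2.2
    rw [e] at h1
    exact absurd h1 (by simp)
  have hedge : ∀ (u v : ℕ) (hu : u < L.length) (hv : v < L.length), v ∈ L.getD u [] →
      rad (graphOf L h) p ⟨u, hu⟩ = dist (p ⟨u, hu⟩) (p ⟨v, hv⟩) / 2 ∧
      rad (graphOf L h) p ⟨v, hv⟩ = dist (p ⟨u, hu⟩) (p ⟨v, hv⟩) / 2 := by
    intro u v hu hv huv
    have h1 := fwd_rad_le (graphOf L h) p (hadj u v hu hv huv)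
    have h2 := fwd_rad_le (graphOf L h) p (hadj u v hu hv huv).symm
    rw [dist_comm] at h2
    have hvu := (h u v hu huv).2.1
    have h3 := fwd_sep (graphOf L h) p hp1 (u := ⟨u, hu⟩) (v := ⟨v, hv⟩)
      (fun e => hvu (congrArg Fin.val e).symm)
      (hpos u hu (fun e => by rw [e] at huv; exact absurd huv (by simp)))
      (hpos v hv (hlive u v hu huv))
    constructor <;> linarith
  -- all radii are equal
  obtain ⟨f, hf⟩ : ∃ f : ℕ → ℝ, ∀ u (hu : u < L.length), f u = rad (graphOf L h) p ⟨u, hu⟩ :=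
    ⟨fun u => if hu : u < L.length then rad (graphOf L h) p ⟨u, hu⟩ else 0, fun u hu => by
      simp [hu]⟩
  have hfe : ∀ u < L.length, ∀ v < L.length, L.getD u [] ≠ [] → L.getD v [] ≠ [] → f u = f v := by
    refine hconn f ?_
    intro u hu v hv
    obtain ⟨hvl, _, _⟩ := h u v hu hv
    rw [hf u hu, hf v hvl, (hedge u v hu hvl hv).1, (hedge u v hu hvl hv).2]
  by_cases hall : ∃ u0 < L.length, L.getD u0 [] ≠ []
  · obtain ⟨u0, hu0, hu0n⟩ := hall
    obtain ⟨r, hr⟩ : ∃ r, r = f u0 := ⟨_, rfl⟩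
    have hr0 : 0 < r := by
      rw [hr, hf u0 hu0]; exact hpos u0 hu0 hu0n
    have hfr : ∀ u (hu : u < L.length), L.getD u [] ≠ [] → rad (graphOf L h) p ⟨u, hu⟩ = r := by
      intro u hu hun
      rw [hr, ← hf u hu]
      exact hfe u hu u0 hu0 hun hu0n
    obtain ⟨P, hP⟩ : ∃ P : ℕ → ℂ, ∀ u (hu : u < L.length),
        P u = (2 * r)⁻¹ • Complex.orthonormalBasisOneI.repr.symm (p ⟨u, hu⟩) :=
      ⟨fun u => if hu : u < L.length then
        (2 * r)⁻¹ • Complex.orthonormalBasisOneI.repr.symm (p ⟨u, hu⟩) else 0, fun u hu => by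
        simp [hu]⟩
    have hd : ∀ u v (hu : u < L.length) (hv : v < L.length),
        dist (P u) (P v) = (2 * r)⁻¹ * dist (p ⟨u, hu⟩) (p ⟨v, hv⟩) := by
      intro u v hu hv
      rw [hP u hu, hP v hv, dist_smul₀, LinearIsometryEquiv.dist_map, Real.norm_of_nonneg (by positivity)]
    refine ⟨P, ?_, ?_⟩
    · intro u hu v hv
      obtain ⟨hvl, _, _⟩ := h u v hu hv
      have h1 := (hedge u v hu hvl hv).1
      rw [hfr u hu (fun e => by rw [e] at hv; exact absurd hv (by simp))] at h1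
      rw [hd u v hu hvl]
      have h2 : dist (p ⟨u, hu⟩) (p ⟨v, hvl⟩) = 2 * r := by linarith
      rw [h2]
      exact inv_mul_cancel₀ (by positivity)
    · intro u hu v hv hun hvn huv
      have h1 := fwd_sep (graphOf L h) p hp1 (u := ⟨u, hu⟩) (v := ⟨v, hv⟩)
        (fun e => huv (congrArg Fin.val e)) (hpos u hu hun) (hpos v hv hvn)
      rw [hfr u hu hun, hfr v hv hvn] at h1
      rw [hd u v hu hv, inv_mul_eq_div, le_div_iff₀ (by positivity)]
      linarith
  · push Not at hall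
    refine ⟨fun _ => 0, ?_, ?_⟩
    · intro u hu v hv
      rw [hall u hu] at hv
      exact absurd hv (by simp)
    · intro u hu v hv hun
      exact absurd (hall u hu) hun

end Pool.Agent.H670R4
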