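import Pool.Agent.H670R4.Sub

set_option autoImplicit false

namespace Pool.Agent.H670R4

/-- coefficient of `f m` in `IF f x` -/
noncomputable def if_g (x : ℝ) (m : ℕ) : ℝ := max 0 (min 1 (x - m))

theorem if_g_mono {x y : ℝ} (h : x ≤ y) (m : ℕ) : if_g x m ≤ if_g y m := by
  unfold if_g
  exact max_le_max le_rfl (min_le_min le_rfl (by linarith))

theorem if_rep (f : ℕ → ℂ) (N : ℕ) (x : ℝ) (h0 : 0 ≤ x) (hN : x ≤ N) :
    IF f x = ∑ m ∈ Finset.range N, ((if_g x m : ℝ) : ℂ) * f m := by
  unfold IF
  set j := ⌊x⌋₊ with hj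
  have hjx : (j : ℝ) ≤ x := Nat.floor_le h0
  have hxj : x < (j : ℝ) + 1 := Nat.lt_floor_add_one x
  have hjN : j ≤ N := by
    have : (j : ℝ) ≤ N := hjx.trans hN
    exact_mod_cast this
  have h1 : ∀ m < j, if_g x m = 1 := by
    intro m hm
    unfold if_g
    have : (m : ℝ) + 1 ≤ j := by exact_mod_cast hm
    rw [min_eq_left (by linarith), max_eq_right zero_le_one]
  have h2 : if_g x j = x - j := by
    unfold if_g
    rw [min_eq_right (by linarith), max_eq_right (by linarith)]
  have h3 : ∀ m, j < m → if_g x m = 0 := by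
    intro m hm
    unfold if_g
    have : (j : ℝ) + 1 ≤ m := by exact_mod_cast hm
    exact max_eq_left ((min_le_right _ _).trans (by linarith))
  have hs : ∑ m ∈ Finset.range j, ((if_g x m : ℝ) : ℂ) * f m = ∑ m ∈ Finset.range j, f m := by
    refine Finset.sum_congr rfl fun m hm => ?_
    rw [h1 m (Finset.mem_range.1 hm)]; simp
  rcases hjN.eq_or_lt with h | h
  · rw [← h, hs]
    have : x - (j : ℝ) = 0 := by
      have : x ≤ j := by rw [h]; exact hN
      linarith
    rw [this]; simp
  · rw [← Finset.sum_range_add_sum_Ico _ (show j + 1 ≤ N from h), Finset.sum_range_succ, hs, h2]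
    have : ∑ m ∈ Finset.Ico (j + 1) N, ((if_g x m : ℝ) : ℂ) * f m = 0 := by
      refine Finset.sum_eq_zero fun m hm => ?_
      rw [h3 m (by have := (Finset.mem_Ico.1 hm).1; omega)]; simp
    rw [this, add_zero]

theorem if_sum (N : ℕ) (x : ℝ) (h0 : 0 ≤ x) (hN : x ≤ N) :
    ∑ m ∈ Finset.range N, if_g x m = x := by
  have h := if_rep (fun _ => 1) N x h0 hN
  unfold IF at h
  simp only [mul_one, Finset.sum_const, Finset.card_range, nsmul_eq_mul] at h
  have h' : ((⌊x⌋₊ : ℝ) + (x - ⌊x⌋₊) : ℂ) = ((∑ m ∈ Finset.range N, if_g x m : ℝ) : ℂ) := by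
    push_cast
    push_cast at h
    exact h
  have h'' : ((x : ℝ) : ℂ) = ((∑ m ∈ Finset.range N, if_g x m : ℝ) : ℂ) := by
    rw [← h']; push_cast; ring
  exact (Complex.ofReal_injective h'').symm

theorem if_re {z : ℂ} (h : CB z) (hz : ‖z‖ = 1) : 49 / 50 ≤ z.re := by
  obtain ⟨h0, h1, h2⟩ := h
  have hn : z.re * z.re + z.im * z.im = 1 := by
    have := Complex.normSq_apply z
    rw [Complex.normSq_eq_norm_sq, hz] at this
    linarith
  have him : z.im * z.im ≤ (3 * z.re / 16) * (3 * z.re / 16) := by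
    nlinarith
  nlinarith

theorem if_ok : St_if := by
  refine ⟨?_, ?_, ?_⟩
  · intro f k
    unfold IF
    simp
  · intro f k l w hw x hk hl
    have hx0 : 0 ≤ x := le_trans (Nat.cast_nonneg k) hk
    unfold IF
    set j := ⌊x⌋₊ with hj
    have hjx : (j : ℝ) ≤ x := Nat.floor_le hx0
    have hkj : k ≤ j := Nat.le_floor hk
    have hjl : j ≤ l := by
      have : (j : ℝ) ≤ l := hjx.trans hl
      exact_mod_cast this
    have hs : ∑ m ∈ Finset.range j, f m = ∑ m ∈ Finset.range k, f m + ((j : ℂ) - k) * w := by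
      rw [← Finset.sum_range_add_sum_Ico _ hkj]
      congr 1
      rw [Finset.sum_congr rfl (g := fun _ => w)]
      · rw [Finset.sum_const, Nat.card_Ico, nsmul_eq_mul, Nat.cast_sub hkj]
      · intro m hm
        have := Finset.mem_Ico.1 hm
        exact hw m this.1 (by omega)
    rw [hs]
    rcases hjl.eq_or_lt with h | h
    · have hxj : x = j := by
        apply le_antisymm _ hjx
        rw [h]; exact hl
      rw [hxj]; push_cast; ring
    · rw [hw j hkj h]; push_cast; ring
  · intro f N hf x y hx hxy hy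
    have hx' : x ≤ N := hxy.trans hy
    have hy' : 0 ≤ y := hx.trans hxy
    have hd : IF f y - IF f x =
        ∑ m ∈ Finset.range N, (((if_g y m - if_g x m : ℝ)) : ℂ) * f m := by
      rw [if_rep f N y hy' hy, if_rep f N x hx hx', ← Finset.sum_sub_distrib]
      refine Finset.sum_congr rfl fun m _ => ?_
      push_cast; ring
    have hsum : ∑ m ∈ Finset.range N, (if_g y m - if_g x m) = y - x := by
      rw [Finset.sum_sub_distrib, if_sum N y hy' hy, if_sum N x hx hx']
    have hc : ∀ m, 0 ≤ if_g y m - if_g x m := fun m => sub_nonneg.2 (if_g_mono hxy m)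
    have hre : (IF f y - IF f x).re =
        ∑ m ∈ Finset.range N, (if_g y m - if_g x m) * (f m).re := by
      rw [hd, Complex.re_sum]
      exact Finset.sum_congr rfl fun m _ => Complex.re_ofReal_mul _ _
    have him : (IF f y - IF f x).im =
        ∑ m ∈ Finset.range N, (if_g y m - if_g x m) * (f m).im := by
      rw [hd, Complex.im_sum]
      exact Finset.sum_congr rfl fun m _ => Complex.im_ofReal_mul _ _
    refine ⟨⟨?_, ?_, ?_⟩, ?_⟩
    · rw [hre]
      exact Finset.sum_nonneg fun m hm =>
        mul_nonneg (hc m) (hf m (Finset.mem_range.1 hm)).1.1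
    · rw [hre, him, neg_div, ← neg_le_neg_iff, neg_neg, Finset.sum_div, ← Finset.sum_neg_distrib]
      refine Finset.sum_le_sum fun m hm => ?_
      have := (hf m (Finset.mem_range.1 hm)).1.2.1
      have h1 := hc m
      nlinarith
    · rw [hre, him, Finset.mul_sum, Finset.sum_div]
      refine Finset.sum_le_sum fun m hm => ?_
      have := (hf m (Finset.mem_range.1 hm)).1.2.2
      have h1 := hc m
      nlinarith
    · rw [hre, ← hsum, Finset.mul_sum]
      refine Finset.sum_le_sum fun m hm => ?_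
      have := if_re (hf m (Finset.mem_range.1 hm)).1 (hf m (Finset.mem_range.1 hm)).2
      have h1 := hc m
      nlinarith

end Pool.Agent.H670R4
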