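import Pool.Agent.H670R4.Sub

/-!
# Task LEK: the ply number is at most `k` iff some drawing in the complex plane has depth at most `k`
-/

namespace Pool.Agent.H670R4

open Pool.Agent.NPC Pool.Agent.NPC.ER Pool.Agent.H670R2

/-- the isometry between the complex numbers and the plane -/
noncomputable def lek_e : ℂ ≃ₗᵢ[ℝ] Plane := Complex.orthonormalBasisOneI.repr

theorem lek_depth {V : Type} (G : SimpleGraph V) (p : V → Plane) (z : Plane) :
    depth G p z = {v : V | dist (lek_e.symm z) (lek_e.symm (p v)) <
      sSup {r : ℝ | ∃ u, G.Adj v u ∧ r = dist (lek_e.symm (p v)) (lek_e.symm (p u)) / 2}}.ncard := by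
  unfold depth rad
  simp only [Metric.mem_ball, LinearIsometryEquiv.dist_map]

theorem lek_ply {V : Type} [Finite V] (G : SimpleGraph V) (p : V → Plane) (k : ℕ) :
    ply G p ≤ k ↔ ∀ z, depth G p z ≤ k := by
  have hb : BddAbove (Set.range (depth G p)) := by
    refine ⟨Nat.card V, ?_⟩
    rintro _ ⟨z, rfl⟩
    exact Set.ncard_le_card _
  unfold ply
  constructor
  · intro h z
    exact (le_csSup hb (Set.mem_range_self z)).trans h
  · intro h
    refine csSup_le (Set.range_nonempty _) ?_
    rintro _ ⟨z, rfl⟩
    exact h z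

theorem ply_lek_ok : St_lek := by
  intro L h k
  have key : plyNumber (graphOf L h) ≤ k ↔ ∃ p : Fin L.length → Plane, Function.Injective p ∧
      ply (graphOf L h) p ≤ k := by
    unfold plyNumber
    constructor
    · intro hk
      have hne : {k : ℕ | ∃ p : Fin L.length → Plane, Function.Injective p ∧
          ply (graphOf L h) p = k}.Nonempty := by
        refine ⟨_, fun v => lek_e ((v.1 : ℝ) : ℂ), ?_, rfl⟩
        intro a b hab
        have h1 := lek_e.injective hab
        have h2 : (a.1 : ℝ) = b.1 := by exact_mod_cast h1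
        exact Fin.ext (by exact_mod_cast h2)
      obtain ⟨p, hp, hpk⟩ := Nat.sInf_mem hne
      exact ⟨p, hp, hpk.le.trans hk⟩
    · rintro ⟨p, hp, hpk⟩
      have h1 : ply (graphOf L h) p ∈ {k : ℕ | ∃ p : Fin L.length → Plane, Function.Injective p ∧
          ply (graphOf L h) p = k} := ⟨p, hp, rfl⟩
      exact (Nat.sInf_le h1).trans hpk
  rw [key]
  constructor
  · rintro ⟨p, hp, hpk⟩
    rw [lek_ply] at hpk
    refine ⟨fun v => lek_e.symm (p v), lek_e.symm.injective.comp hp, fun z => ?_⟩
    have h1 := hpk (lek_e z)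
    rw [lek_depth, LinearIsometryEquiv.symm_apply_apply] at h1
    exact h1
  · rintro ⟨p, hp, hpk⟩
    refine ⟨fun v => lek_e (p v), lek_e.injective.comp hp, ?_⟩
    rw [lek_ply]
    intro z
    rw [lek_depth]
    simp only [LinearIsometryEquiv.symm_apply_apply]
    exact hpk _

end Pool.Agent.H670R4
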