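import Pool.Agent.H670R4.Sub

/-!
# The numbering of the vertices
-/

namespace Pool.Agent.H670R4

theorem list_ed : ∀ e ∈ pRow ++ pEd, (e.1.1 ≤ 3 ∧ e.1.2 ≤ 8 ∧ (e.1.2 ≠ 0 → e.1.2 ≠ 8 → e.1.1 < 3)) ∧
    (e.2.1 ≤ 3 ∧ e.2.2 ≤ 8 ∧ (e.2.2 ≠ 0 → e.2.2 ≠ 8 → e.2.1 < 3)) ∧ e.1 ≠ e.2 := by
  decide +kernel

theorem list_code_qv (Λ : Lay) (β t m r : ℕ) : code Λ (qv β t m r) = cq Λ β t m r := by
  unfold qv cq
  split_ifs <;> rfl

theorem list_prs_le {Λ : Lay} {i j : ℕ} (h : Λ.prs i j = true) : i ≤ 6 * Λ.nb ∧ j ≤ 7 * Λ.T := by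
  simp only [Lay.prs, Bool.and_eq_true, decide_eq_true_eq] at h
  exact ⟨h.1, h.2.1⟩

theorem list_prs_of {Λ : Lay} {i j : ℕ} (h1 : i ≤ 6 * Λ.nb) (h2 : j ≤ 7 * Λ.T) (h3 : j % 7 = 0)
    (h4 : i = 6 * Λ.n + 3 → Λ.ins 1 j = false) : Λ.prs i j = true := by
  have h5 : (decide (i = 6 * Λ.n + 3) && Λ.ins 1 j) = false := by
    by_cases h : i = 6 * Λ.n + 3
    · simp [h, h4 h]
    · simp [h]
  simp only [Lay.prs, h5, h3, h1, h2]
  simp

theorem list_ins0 (Λ : Lay) : Λ.ins 1 0 = false := by simp [Lay.ins]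

theorem list_cl_one {Λ : Lay} {t : ℕ} (h : Λ.k t = 1) : Λ.cl t = 0 := by
  simp [Lay.cl, h]

theorem list_cl_zero {Λ : Lay} {t : ℕ} (h : Λ.k t = 0) : Λ.cl t = 0 := by
  simp [Lay.cl, h]

theorem list_ins7 {Λ : Lay} {t : ℕ} (h : Λ.cl t = 0) : Λ.ins 1 (7 * t) = false := by
  have h1 : 7 * t % 7 = 0 := by omega
  have h2 : 7 * t / 7 = t := by omega
  simp [Lay.ins, h1, h2, h]

theorem list_ins77 {Λ : Lay} {t : ℕ} (h : Λ.cl t = 0) : Λ.ins 1 (7 * t + 7) = false := by
  have h1 : (7 * t + 7) % 7 = 0 := by omega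
  have h2 : (7 * t + 7) / 7 = t + 1 := by omega
  have h3 : t + 1 - 1 = t := by omega
  simp [Lay.ins, h1, h2, h]

theorem list_pat_mid {Λ : Lay} (hΛ : Λ.Ok) {t : ℕ} (h : Λ.pat t Λ.n = true) : Λ.cl t = 0 := by
  have h1 := hΛ.a t
  apply list_cl_one
  simp only [Lay.pat, Bool.or_eq_true, Bool.and_eq_true, decide_eq_true_eq] at h
  rcases h with h | h | h
  · omega
  · omega
  · exact h.2

theorem list_val_qv {Λ : Lay} (hΛ : Λ.Ok) {β t : ℕ} (hβ : β < Λ.nb) (ht : t < Λ.T)
    (hp : Λ.pat t β = true) {m r : ℕ} (hm : m ≤ 3) (hr : r ≤ 8)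
    (hmr : r ≠ 0 → r ≠ 8 → m < 3) : Val Λ (qv β t m r) := by
  unfold qv
  split_ifs with h1 h2
  · refine list_prs_of (by omega) (by omega) (by omega) fun h => ?_
    have h3 : β = Λ.n := by omega
    subst h3
    exact list_ins7 (list_pat_mid hΛ hp)
  · refine list_prs_of (by omega) (by omega) (by omega) fun h => ?_
    have h3 : β = Λ.n := by omega
    subst h3
    exact list_ins77 (list_pat_mid hΛ hp)
  · exact ⟨hβ, ht, hp, hmr h1 h2, by omega, by omega⟩

theorem list_val_E {Λ : Lay} (hΛ : Λ.Ok) {x y : Vt} (h : E Λ x y) : Val Λ x ∧ Val Λ y := by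
  have hT : Λ.ins 1 (7 * Λ.T) = false := list_ins7 (list_cl_zero (hΛ.out Λ.T le_rfl))
  cases h with
  | h i j h0 h1 h2 => exact ⟨h0, h1⟩
  | v i j h0 h1 => exact ⟨h0, h1⟩
  | q β t hβ ht hp m r m' r' he =>
    obtain ⟨⟨a1, a2, a3⟩, ⟨b1, b2, b3⟩, -⟩ := list_ed _ he
    exact ⟨list_val_qv hΛ hβ ht hp a1 a2 a3, list_val_qv hΛ hβ ht hp b1 b2 b3⟩
  | l1 i hi h5 =>
    exact ⟨⟨hi, h5⟩, list_prs_of hi.le (by omega) (by omega) fun _ => list_ins0 Λ⟩
  | l2 i hi h5 =>
    exact ⟨⟨hi, h5⟩, list_prs_of (by omega) (by omega) (by omega) fun _ => list_ins0 Λ⟩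
  | l3 i hi h5 => exact ⟨⟨hi, by omega⟩, ⟨by omega, by omega⟩⟩
  | u1 i hi h5 =>
    exact ⟨⟨hi, h5⟩, list_prs_of hi.le le_rfl (by omega) fun _ => hT⟩
  | u2 i hi h5 =>
    exact ⟨⟨hi, h5⟩, list_prs_of (by omega) le_rfl (by omega) fun _ => hT⟩
  | u3 i hi h5 => exact ⟨⟨hi, by omega⟩, ⟨by omega, by omega⟩⟩
  | pe t ht hk =>
    refine ⟨⟨ht, hk⟩, list_prs_of ?_ (by omega) (by omega) fun h => ?_⟩
    · unfold Lay.nb; omega
    · omega

theorem list_cg_lt {Λ : Lay} {i j : ℕ} (h : Λ.prs i j = true) : cg Λ i j < nG Λ := by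
  obtain ⟨h1, h2⟩ := list_prs_le h
  unfold cg nG
  have h3 : (j + 1) * (6 * Λ.nb + 1) ≤ (7 * Λ.T + 1) * (6 * Λ.nb + 1) :=
    Nat.mul_le_mul_right _ (by omega)
  rw [Nat.add_mul j 1, one_mul] at h3
  omega

theorem list_q_lt {N T β t m r : ℕ} (hβ : β < N) (ht : t < T) (hm : m < 3) (hr : r ≤ 7) :
    ((t * N + β) * 3 + m) * 8 + r < 24 * (T * N) := by
  have h1 : (t + 1) * N ≤ T * N := Nat.mul_le_mul_right _ ht
  rw [Nat.add_mul t 1, one_mul] at h1
  omega

theorem list_radix {K i i' j j' : ℕ} (hi : i < K) (hi' : i' < K) (h : j * K + i = j' * K + i') :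
    i = i' ∧ j = j' := by
  have hK : 0 < K := by omega
  have h1 : (j * K + i) / K = j := by
    rw [Nat.add_comm, Nat.add_mul_div_right _ _ hK, Nat.div_eq_of_lt hi, zero_add]
  have h2 : (j' * K + i') / K = j' := by
    rw [Nat.add_comm, Nat.add_mul_div_right _ _ hK, Nat.div_eq_of_lt hi', zero_add]
  have h3 : j = j' := by rw [← h1, ← h2, h]
  subst h3
  exact ⟨by omega, rfl⟩

theorem list_qv_ne {β t m r m' r' : ℕ} (hr : r ≤ 8) (hr' : r' ≤ 8) (h : (m, r) ≠ (m', r')) :
    qv β t m r ≠ qv β t m' r' := by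
  intro he
  apply h
  unfold qv at he
  split_ifs at he with h1 h2 h3 h4 h5 h6 <;>
    simp only [Vt.g.injEq, Vt.q.injEq, reduceCtorEq] at he <;>
    rw [Prod.mk.injEq] <;> omega

theorem list_mem1 {Λ : Lay} {e : ℕ × ℕ} (h : e ∈ eList Λ) :
    ∃ x y, E Λ x y ∧ e = (code Λ x, code Λ y) := by
  simp only [eList, List.mem_append, List.mem_flatMap, List.mem_range] at h
  rcases h with ⟨j, hj, i, hi, h⟩ | ((⟨t, ht, β, hβ, h⟩ | ⟨i, hi, h⟩) | ⟨t, ht, h⟩)
  · unfold eGrid at h
    split_ifs at h with h1 h2 h3 h3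
    · simp only [List.mem_append, List.mem_singleton] at h
      rw [Bool.and_eq_true, Bool.not_eq_true'] at h2
      rcases h with h | h
      · exact ⟨_, _, E.h i j h1 h2.1 h2.2, h⟩
      · exact ⟨_, _, E.v i j h1 h3, h⟩
    · simp only [List.append_nil, List.mem_singleton] at h
      rw [Bool.and_eq_true, Bool.not_eq_true'] at h2
      exact ⟨_, _, E.h i j h1 h2.1 h2.2, h⟩
    · simp only [List.nil_append, List.mem_singleton] at h
      exact ⟨_, _, E.v i j h1 h3, h⟩
    · simp at h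
    · simp at h
  · unfold ePat at h
    split_ifs at h with h1
    · rw [List.mem_map] at h
      obtain ⟨⟨⟨m, r⟩, ⟨m', r'⟩⟩, he, h⟩ := h
      refine ⟨_, _, E.q β t hβ ht h1 m r m' r' he, ?_⟩
      rw [list_code_qv, list_code_qv]
      exact h.symm
    · simp at h
  · unfold eEnd at h
    split_ifs at h with h1 h2
    · simp only [List.mem_append, List.mem_cons, List.not_mem_nil, or_false] at h
      rcases h with (h | h | h | h) | (h | h)
      · exact ⟨_, _, E.l1 i hi h1, h⟩
      · exact ⟨_, _, E.l2 i hi h1, h⟩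
      · exact ⟨_, _, E.u1 i hi h1, h⟩
      · exact ⟨_, _, E.u2 i hi h1, h⟩
      · exact ⟨_, _, E.l3 i hi h2, h⟩
      · exact ⟨_, _, E.u3 i hi h2, h⟩
    · simp only [List.append_nil, List.mem_cons, List.not_mem_nil, or_false] at h
      rcases h with h | h | h | h
      · exact ⟨_, _, E.l1 i hi h1, h⟩
      · exact ⟨_, _, E.l2 i hi h1, h⟩
      · exact ⟨_, _, E.u1 i hi h1, h⟩
      · exact ⟨_, _, E.u2 i hi h1, h⟩
    · simp at h
  · unfold ePen at h
    split_ifs at h with h1
    · rw [List.mem_singleton] at h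
      exact ⟨_, _, E.pe t ht h1, h⟩
    · simp at h

theorem list_mem2 {Λ : Lay} {x y : Vt} (h : E Λ x y) : (code Λ x, code Λ y) ∈ eList Λ := by
  simp only [eList, List.mem_append, List.mem_flatMap, List.mem_range]
  cases h with
  | h i j h0 h1 h2 =>
    have := list_prs_le h0
    refine Or.inl ⟨j, by omega, i, by omega, ?_⟩
    unfold eGrid
    rw [if_pos h0, if_pos (by simp [h1, h2])]
    exact List.mem_append.2 (Or.inl (List.mem_singleton.2 rfl))
  | v i j h0 h1 =>
    have := list_prs_le h0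
    refine Or.inl ⟨j, by omega, i, by omega, ?_⟩
    unfold eGrid
    rw [if_pos h0, if_pos h1]
    exact List.mem_append.2 (Or.inr (List.mem_singleton.2 rfl))
  | q β t hβ ht hp m r m' r' he =>
    refine Or.inr (Or.inl (Or.inl ⟨t, ht, β, hβ, ?_⟩))
    unfold ePat
    rw [if_pos hp, List.mem_map]
    refine ⟨((m, r), (m', r')), he, ?_⟩
    rw [list_code_qv, list_code_qv]
  | l1 i hi h5 =>
    refine Or.inr (Or.inl (Or.inr ⟨i, hi, ?_⟩))
    unfold eEnd
    rw [if_pos h5]
    refine List.mem_append.2 (Or.inl ?_)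
    simp [code]
  | l2 i hi h5 =>
    refine Or.inr (Or.inl (Or.inr ⟨i, hi, ?_⟩))
    unfold eEnd
    rw [if_pos h5]
    refine List.mem_append.2 (Or.inl ?_)
    simp [code]
  | l3 i hi h5 =>
    refine Or.inr (Or.inl (Or.inr ⟨i, hi, ?_⟩))
    unfold eEnd
    rw [if_pos (by omega), if_pos h5]
    refine List.mem_append.2 (Or.inr ?_)
    simp [code]
  | u1 i hi h5 =>
    refine Or.inr (Or.inl (Or.inr ⟨i, hi, ?_⟩))
    unfold eEnd
    rw [if_pos h5]
    refine List.mem_append.2 (Or.inl ?_)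
    simp [code]
  | u2 i hi h5 =>
    refine Or.inr (Or.inl (Or.inr ⟨i, hi, ?_⟩))
    unfold eEnd
    rw [if_pos h5]
    refine List.mem_append.2 (Or.inl ?_)
    simp [code]
  | u3 i hi h5 =>
    refine Or.inr (Or.inl (Or.inr ⟨i, hi, ?_⟩))
    unfold eEnd
    rw [if_pos (by omega), if_pos h5]
    refine List.mem_append.2 (Or.inr ?_)
    simp [code]
  | pe t ht hk =>
    refine Or.inr (Or.inr ⟨t, ht, ?_⟩)
    unfold ePen
    rw [if_pos hk]
    exact List.mem_singleton.2 rfl

theorem list_ok : St_list where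
  mem := by
    intro Λ _ e
    constructor
    · exact list_mem1
    · rintro ⟨x, y, h, rfl⟩
      exact list_mem2 h
  val := by
    rintro Λ hΛ x ⟨y, h | h⟩
    · exact (list_val_E hΛ h).1
    · exact (list_val_E hΛ h).2
  lt := by
    intro Λ _ x hx
    cases x with
    | g i j =>
      have := list_cg_lt (Λ := Λ) (i := i) (j := j) hx
      simp only [code, nV]
      omega
    | q β t m r =>
      obtain ⟨h1, h2, h3, h4, h5, h6⟩ := hx
      have := list_q_lt h1 h2 h4 h6
      simp only [code, nV]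
      omega
    | lo i =>
      obtain ⟨h1, h2⟩ := hx
      simp only [code, nV]
      omega
    | hi i =>
      obtain ⟨h1, h2⟩ := hx
      simp only [code, nV]
      omega
    | pe t =>
      obtain ⟨h1, h2⟩ := hx
      simp only [code, nV]
      omega
  inj := by
    intro Λ _ x y hx hy h
    cases x with
    | g i j =>
      have l1 := list_cg_lt (Λ := Λ) (i := i) (j := j) hx
      cases y with
      | g i' j' =>
        have a1 := list_prs_le (Λ := Λ) (i := i) (j := j) hx
        have a2 := list_prs_le (Λ := Λ) (i := i') (j := j') hy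
        simp only [code, cg] at h
        obtain ⟨rfl, rfl⟩ := list_radix (K := 6 * Λ.nb + 1) (by omega) (by omega) h
        rfl
      | q β t m r => simp only [code] at h; omega
      | lo i => simp only [code] at h; omega
      | hi i => simp only [code] at h; omega
      | pe t => simp only [code] at h; omega
    | q β t m r =>
      obtain ⟨h1, h2, h3, h4, h5, h6⟩ := hx
      have l1 := list_q_lt h1 h2 h4 h6
      cases y with
      | g i' j' =>
        have l2 := list_cg_lt (Λ := Λ) (i := i') (j := j') hy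
        simp only [code] at h; omega
      | q β' t' m' r' =>
        obtain ⟨g1, g2, g3, g4, g5, g6⟩ := hy
        simp only [code] at h
        have e1 : r = r' := by omega
        have e2 : m = m' := by omega
        have e3 : t * Λ.nb + β = t' * Λ.nb + β' := by omega
        obtain ⟨rfl, rfl⟩ := list_radix h1 g1 e3
        rw [e1, e2]
      | lo i => simp only [code] at h; omega
      | hi i => simp only [code] at h; omega
      | pe t => simp only [code] at h; omega
    | lo i =>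
      obtain ⟨h1, h2⟩ := hx
      cases y with
      | g i' j' =>
        have l2 := list_cg_lt (Λ := Λ) (i := i') (j := j') hy
        simp only [code] at h; omega
      | q β' t' m' r' =>
        obtain ⟨g1, g2, g3, g4, g5, g6⟩ := hy
        have l2 := list_q_lt g1 g2 g4 g6
        simp only [code] at h; omega
      | lo i' =>
        simp only [code] at h
        have : i = i' := by omega
        rw [this]
      | hi i' => simp only [code] at h; omega
      | pe t => simp only [code] at h; omega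
    | hi i =>
      obtain ⟨h1, h2⟩ := hx
      cases y with
      | g i' j' =>
        have l2 := list_cg_lt (Λ := Λ) (i := i') (j := j') hy
        simp only [code] at h; omega
      | q β' t' m' r' =>
        obtain ⟨g1, g2, g3, g4, g5, g6⟩ := hy
        have l2 := list_q_lt g1 g2 g4 g6
        simp only [code] at h; omega
      | lo i' =>
        obtain ⟨g1, g2⟩ := hy
        simp only [code] at h; omega
      | hi i' =>
        simp only [code] at h
        have : i = i' := by omega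
        rw [this]
      | pe t => simp only [code] at h; omega
    | pe t =>
      obtain ⟨h1, h2⟩ := hx
      cases y with
      | g i' j' =>
        have l2 := list_cg_lt (Λ := Λ) (i := i') (j := j') hy
        simp only [code] at h; omega
      | q β' t' m' r' =>
        obtain ⟨g1, g2, g3, g4, g5, g6⟩ := hy
        have l2 := list_q_lt g1 g2 g4 g6
        simp only [code] at h; omega
      | lo i' =>
        obtain ⟨g1, g2⟩ := hy
        simp only [code] at h; omega
      | hi i' =>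
        obtain ⟨g1, g2⟩ := hy
        simp only [code] at h; omega
      | pe t' =>
        simp only [code] at h
        have : t = t' := by omega
        rw [this]
  ne := by
    intro Λ _ x y h
    cases h with
    | h i j h0 h1 h2 => simp
    | v i j h0 h1 => simp
    | q β t hβ ht hp m r m' r' he =>
      obtain ⟨⟨a1, a2, a3⟩, ⟨b1, b2, b3⟩, hne⟩ := list_ed _ he
      exact list_qv_ne a2 b2 hne
    | l1 i hi h5 => simp
    | l2 i hi h5 => simp
    | l3 i hi h5 => simp
    | u1 i hi h5 => simp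
    | u2 i hi h5 => simp
    | u3 i hi h5 => simp
    | pe t ht hk => simp

end Pool.Agent.H670R4
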