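import Pool.Agent.H670R4.Sub

set_option autoImplicit false

namespace Pool.Agent.H670R4

open scoped ComplexConjugate

theorem loc_one {z : ℂ} (h : ‖z‖ = 1) : z.re * z.re + z.im * z.im = 1 := by
  have h1 := Complex.normSq_eq_norm_sq z
  rw [h, Complex.normSq_apply] at h1
  linarith

theorem loc_ge {z : ℂ} (h : 1 ≤ ‖z‖) : 1 ≤ z.re * z.re + z.im * z.im := by
  have h1 := Complex.normSq_eq_norm_sq z
  rw [Complex.normSq_apply] at h1
  rw [h1]
  nlinarith

theorem loc_mul_conj {v : ℂ} (h : ‖v‖ = 1) : v * conj v = 1 := by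
  rw [Complex.mul_conj, Complex.normSq_eq_norm_sq, h]
  norm_num

theorem loc_norm (w : ℂ) {v : ℂ} (h : ‖v‖ = 1) : ‖w * conj v‖ = ‖w‖ := by
  rw [norm_mul, Complex.norm_conj, h, mul_one]

theorem loc_lin {s1 s2 v1 v2 w1 w2 : ℝ} (h1 : s1 * v1 + s2 * v2 = 0) (h2 : s1 * w1 + s2 * w2 = 0)
    (h3 : v1 * w1 + v2 * w2 = 0) (hv : v1 ≠ 0 ∨ v2 ≠ 0) (hw : w1 ≠ 0 ∨ w2 ≠ 0) :
    s1 = 0 ∧ s2 = 0 := by
  have hv' : 0 < v1 * v1 + v2 * v2 := by
    rcases hv with h | h
    · have := mul_self_pos.2 h; nlinarith [mul_self_nonneg v2]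
    · have := mul_self_pos.2 h; nlinarith [mul_self_nonneg v1]
  have hw' : 0 < w1 * w1 + w2 * w2 := by
    rcases hw with h | h
    · have := mul_self_pos.2 h; nlinarith [mul_self_nonneg w2]
    · have := mul_self_pos.2 h; nlinarith [mul_self_nonneg w1]
  have hd : v1 * w2 - v2 * w1 ≠ 0 := by
    intro h
    have e : (v1 * w2 - v2 * w1) ^ 2 + (v1 * w1 + v2 * w2) ^ 2 =
        (v1 * v1 + v2 * v2) * (w1 * w1 + w2 * w2) := by ring
    rw [h, h3] at e
    have := mul_pos hv' hw'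
    linarith
  constructor
  · have : s1 * (v1 * w2 - v2 * w1) = 0 := by linear_combination w2 * h1 - v2 * h2
    exact (mul_eq_zero.1 this).resolve_right hd
  · have : s2 * (v1 * w2 - v2 * w1) = 0 := by linear_combination -w1 * h1 + v1 * h2
    exact (mul_eq_zero.1 this).resolve_right hd

theorem loc_rh (A B C D : ℂ) (hAB : dist A B = 1) (hCB : dist C B = 1) (hAD : dist A D = 1)
    (hCD : dist C D = 1) (hAC : A ≠ C) (hBD : B ≠ D) : A + C = B + D := by
  rw [Complex.dist_eq] at hAB hCB hAD hCD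
  replace hAB := loc_one hAB
  replace hCB := loc_one hCB
  replace hAD := loc_one hAD
  replace hCD := loc_one hCD
  simp only [Complex.sub_re, Complex.sub_im] at hAB hCB hAD hCD
  have hw : C.re - A.re ≠ 0 ∨ C.im - A.im ≠ 0 := by
    by_contra h
    push Not at h
    exact hAC (Complex.ext (by linarith [h.1]) (by linarith [h.2]))
  have hv : B.re - D.re ≠ 0 ∨ B.im - D.im ≠ 0 := by
    by_contra h
    push Not at h
    exact hBD (Complex.ext (by linarith [h.1]) (by linarith [h.2]))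
  have := loc_lin (s1 := B.re + D.re - A.re - C.re) (s2 := B.im + D.im - A.im - C.im)
    (v1 := B.re - D.re) (v2 := B.im - D.im) (w1 := C.re - A.re) (w2 := C.im - A.im)
    (by linarith) (by linarith) (by linarith) hv hw
  exact Complex.ext (by simp only [Complex.add_re]; linarith [this.1])
    (by simp only [Complex.add_im]; linarith [this.2])

theorem loc_s3 : (0 : ℝ) < √3 ∧ √3 * √3 = 3 := ⟨by positivity, Real.mul_self_sqrt (by norm_num)⟩

theorem loc_ap1 (z : ℂ) (h1 : ‖z‖ = 1) (h2 : ‖z - 1‖ = 1) : z = om ∨ z = conj om := by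
  have a := loc_one h1
  have b := loc_one h2
  simp only [Complex.sub_re, Complex.sub_im, Complex.one_re, Complex.one_im] at b
  have hre : z.re = 1 / 2 := by linarith
  obtain ⟨h0, h3⟩ := loc_s3
  have him : (z.im - √3 / 2) * (z.im + √3 / 2) = 0 := by
    rw [hre] at a
    linear_combination a - (1 / 4) * h3
  rcases mul_eq_zero.1 him with h | h
  · left
    exact Complex.ext hre (by show z.im = √3 / 2; linarith)
  · right
    refine Complex.ext ?_ ?_
    · rw [Complex.conj_re]; exact hre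
    · rw [Complex.conj_im]
      show z.im = -(√3 / 2)
      linarith

theorem loc_ap (u q : ℂ) (hu : ‖u‖ = 1) (hq : ‖q‖ = 1) (h : ‖q - u‖ = 1) :
    q = u * om ∨ q = u * conj om := by
  have e : q = u * (q * conj u) := by
    calc q = (u * conj u) * q := by rw [loc_mul_conj hu, one_mul]
      _ = _ := by ring
  have e2 : q * conj u - 1 = (q - u) * conj u := by rw [sub_mul, loc_mul_conj hu]
  rcases loc_ap1 (q * conj u) (by rw [loc_norm _ hu, hq]) (by rw [e2, loc_norm _ hu, h]) with h1 | h1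
  · left; rw [← h1]; exact e
  · right; rw [← h1]; exact e

theorem loc_ne (u v : ℂ) (hu : ‖u‖ = 1) (hv : ‖v‖ = 1) (h1 : 1 ≤ ‖u - v‖) (h2 : 1 ≤ ‖u + v‖) :
    3 / 4 ≤ cr u v * cr u v := by
  have a := loc_one hu
  have b := loc_one hv
  replace h1 := loc_ge h1
  replace h2 := loc_ge h2
  simp only [Complex.sub_re, Complex.sub_im, Complex.add_re, Complex.add_im] at h1 h2
  have e : (u.re * v.re + u.im * v.im) ^ 2 + cr u v * cr u v =
      (u.re * u.re + u.im * u.im) * (v.re * v.re + v.im * v.im) := by unfold cr; ring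
  rw [a, b] at e
  have c1 : u.re * v.re + u.im * v.im ≤ 1 / 2 := by linarith
  have c2 : -(1 / 2) ≤ u.re * v.re + u.im * v.im := by linarith
  nlinarith

theorem loc_q1 {a b : ℝ} (h : a * a + b * b = 1) (h1 : a ≤ 1 / 2) (h2 : -(1 / 2) ≤ a) :
    3 / 4 ≤ b * b := by nlinarith

theorem loc_q2 {b : ℝ} (h : 3 / 4 ≤ b * b) (h' : b * b ≤ 1) (hb : 0 < b) : 4 / 5 ≤ b ∧ b ≤ 1 := by
  constructor <;> nlinarith

theorem loc_q3 {t : ℝ} (h : t ≤ 1 / 5) (h' : -(1 / 5) ≤ t) : t * t ≤ 1 / 25 := by nlinarith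

theorem loc_q4 {s t : ℝ} (ht : t * t ≤ 1 / 25) (hs1 : s ≤ 1) (hs2 : -1 ≤ s)
    (h1 : 1 ≤ s * s + t * t) (h2 : 1 ≤ (s - 1) * (s - 1) + t * t)
    (h3 : 1 ≤ (s + 1) * (s + 1) + t * t) : False := by
  rcases le_total 0 s with h | h
  · have : s * s ≤ s := by nlinarith
    nlinarith
  · have : s * s ≤ -s := by nlinarith
    nlinarith

theorem loc_adj1 (z w : ℂ) (hz : ‖z‖ = 1) (hw : ‖w‖ = 1) (h1 : 1 ≤ ‖z - 1‖) (h2 : 1 ≤ ‖z + 1‖)
    (h3 : 1 ≤ ‖w - 1‖) (h4 : 1 ≤ ‖w + 1‖) (h5 : 1 ≤ ‖z + w‖) (h6 : 1 ≤ ‖z + w - 1‖)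
    (h7 : 1 ≤ ‖z + w + 1‖) (hzi : z.im < 0) (hwi : 0 < w.im) : False := by
  replace hz := loc_one hz
  replace hw := loc_one hw
  replace h1 := loc_ge h1
  replace h2 := loc_ge h2
  replace h3 := loc_ge h3
  replace h4 := loc_ge h4
  replace h5 := loc_ge h5
  replace h6 := loc_ge h6
  replace h7 := loc_ge h7
  simp only [Complex.sub_re, Complex.sub_im, Complex.add_re, Complex.add_im, Complex.one_re,
    Complex.one_im] at h1 h2 h3 h4 h5 h6 h7
  obtain ⟨a, b⟩ := z
  obtain ⟨c, d⟩ := w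
  simp only at *
  have ha1 : a ≤ 1 / 2 := by linarith
  have ha2 : -(1 / 2) ≤ a := by linarith
  have hc1 : c ≤ 1 / 2 := by linarith
  have hc2 : -(1 / 2) ≤ c := by linarith
  have hb1 := loc_q1 hz ha1 ha2
  have hd1 := loc_q1 hw hc1 hc2
  have hb2 := loc_q2 (b := -b) (by linarith) (by linarith [mul_self_nonneg a]) (by linarith)
  have hd2 := loc_q2 hd1 (by linarith [mul_self_nonneg c]) hwi
  have ht := loc_q3 (t := b + d) (by linarith [hb2.1, hb2.2, hd2.1, hd2.2])
    (by linarith [hb2.1, hb2.2, hd2.1, hd2.2])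
  exact loc_q4 (s := a + c) (t := b + d) ht (by linarith) (by linarith) h5 (by linarith)
    (by linarith)

theorem loc_adj0 (u u' v : ℂ) (hu : ‖u‖ = 1) (hu' : ‖u'‖ = 1) (hv : ‖v‖ = 1) (h1 : 1 ≤ ‖u - v‖)
    (h2 : 1 ≤ ‖u + v‖) (h3 : 1 ≤ ‖u' - v‖) (h4 : 1 ≤ ‖u' + v‖) (h5 : 1 ≤ ‖u + u'‖)
    (h6 : 1 ≤ ‖u + u' - v‖) (h7 : 1 ≤ ‖u + u' + v‖) (h : 0 < cr u v) : 0 < cr u' v := by
  by_contra hcon
  have hne := loc_ne u' v hu' hv h3 h4
  have hlt : cr u' v < 0 := by
    rcases (not_lt.1 hcon).lt_or_eq with h' | h'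
    · exact h'
    · rw [h'] at hne; norm_num at hne
  have hm := loc_mul_conj hv
  refine loc_adj1 (u * conj v) (u' * conj v) (by rw [loc_norm _ hv, hu]) (by rw [loc_norm _ hv, hu'])
    ?_ ?_ ?_ ?_ ?_ ?_ ?_ ?_ ?_
  · have e : u * conj v - 1 = (u - v) * conj v := by rw [sub_mul, hm]
    rw [e, loc_norm _ hv]; exact h1
  · have e : u * conj v + 1 = (u + v) * conj v := by rw [add_mul, hm]
    rw [e, loc_norm _ hv]; exact h2
  · have e : u' * conj v - 1 = (u' - v) * conj v := by rw [sub_mul, hm]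
    rw [e, loc_norm _ hv]; exact h3
  · have e : u' * conj v + 1 = (u' + v) * conj v := by rw [add_mul, hm]
    rw [e, loc_norm _ hv]; exact h4
  · have e : u * conj v + u' * conj v = (u + u') * conj v := by ring
    rw [e, loc_norm _ hv]; exact h5
  · have e : u * conj v + u' * conj v - 1 = (u + u' - v) * conj v := by rw [sub_mul, hm]; ring
    rw [e, loc_norm _ hv]; exact h6
  · have e : u * conj v + u' * conj v + 1 = (u + u' + v) * conj v := by rw [add_mul, hm]; ring
    rw [e, loc_norm _ hv]; exact h7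
  · unfold cr at h
    rw [Complex.mul_im, Complex.conj_re, Complex.conj_im]
    linarith
  · unfold cr at hlt
    rw [Complex.mul_im, Complex.conj_re, Complex.conj_im]
    linarith

theorem loc_tri0 (u v : ℂ) (s : ℝ) (hs : s * s = 3) (hu : ‖u‖ = 1) (hv : ‖v‖ = 1)
    (h1 : 1 ≤ ‖u - v‖) (h2 : 1 ≤ ‖u + v‖) (h3 : 1 ≤ ‖u * ⟨1 / 2, s / 2⟩ + v‖)
    (h4 : 1 ≤ ‖u * ⟨1 / 2, s / 2⟩ - u + v‖) (h : cr u v * s < 0) : False := by
  have hn := loc_ne u v hu hv h1 h2
  have a := loc_one hu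
  have b := loc_one hv
  replace h3 := loc_ge h3
  replace h4 := loc_ge h4
  simp only [Complex.sub_re, Complex.sub_im, Complex.add_re, Complex.add_im, Complex.mul_re,
    Complex.mul_im] at h3 h4
  have e3 : (u.re * (1 / 2) - u.im * (s / 2) + v.re) * (u.re * (1 / 2) - u.im * (s / 2) + v.re) +
      (u.re * (s / 2) + u.im * (1 / 2) + v.im) * (u.re * (s / 2) + u.im * (1 / 2) + v.im) =
      (u.re * u.re + u.im * u.im) * (1 / 4 + s * s / 4) + (v.re * v.re + v.im * v.im) +
      (u.re * v.re + u.im * v.im) + s * cr u v := by unfold cr; ring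
  have e4 : (u.re * (1 / 2) - u.im * (s / 2) - u.re + v.re) *
      (u.re * (1 / 2) - u.im * (s / 2) - u.re + v.re) +
      (u.re * (s / 2) + u.im * (1 / 2) - u.im + v.im) *
      (u.re * (s / 2) + u.im * (1 / 2) - u.im + v.im) =
      (u.re * u.re + u.im * u.im) * (1 / 4 + s * s / 4) + (v.re * v.re + v.im * v.im) -
      (u.re * v.re + u.im * v.im) + s * cr u v := by unfold cr; ring
  rw [e3, a, b, hs] at h3
  rw [e4, a, b, hs] at h4
  have h5 : -1 ≤ s * cr u v := by linarith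
  have h6 : (s * cr u v) * (s * cr u v) = 3 * (cr u v * cr u v) := by
    rw [← hs]; ring
  nlinarith

theorem loc_ok : St_loc where
  rh := loc_rh
  fl := by
    intro A B C D hAB hAC hBC hAD hBD hCD
    have hne : A ≠ B := by
      rintro rfl
      simp at hAB
    exact (loc_rh A C B D hAC hBC hAD hBD hne hCD).symm
  ap := loc_ap
  ne := by
    intro u v hu hv h1 h2 h
    have := loc_ne u v hu hv h1 h2
    rw [h] at this
    norm_num at this
  adj := by
    intro u u' v hu hu' hv h1 h2 h3 h4 h5 h6 h7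
    constructor
    · exact loc_adj0 u u' v hu hu' hv h1 h2 h3 h4 h5 h6 h7
    · exact loc_adj0 u' u v hu' hu hv h3 h4 h1 h2 (by rwa [add_comm]) (by rwa [add_comm u' u])
        (by rwa [add_comm u' u])
  tri := by
    intro u v q hu hv hq hqu h1 h2 h3 h4
    obtain ⟨s0, s3⟩ := loc_s3
    have hn := loc_ne u v hu hv h1 h2
    constructor
    · intro h
      rcases loc_ap u q hu hq hqu with h' | h'
      · exact h'
      · exfalso
        have e : conj om = ⟨1 / 2, (-√3) / 2⟩ := by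
          apply Complex.ext
          · rw [Complex.conj_re]; rfl
          · rw [Complex.conj_im]; show -(√3 / 2) = -√3 / 2; ring
        rw [e] at h'
        rw [h'] at h3 h4
        refine loc_tri0 u v (-√3) (by linarith) hu hv h1 h2 h3 h4 ?_
        nlinarith
    · intro h
      by_contra hcon
      have hlt : cr u v < 0 := by
        rcases (not_lt.1 hcon).lt_or_eq with h' | h'
        · exact h'
        · rw [h'] at hn; norm_num at hn
      rw [h] at h3 h4
      refine loc_tri0 u v (√3) s3 hu hv h1 h2 h3 h4 ?_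
      nlinarith

end Pool.Agent.H670R4
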