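import Pool.Agent.H670R4.Sub

set_option autoImplicit false

/-! Programs give valid layouts. -/

namespace Pool.Agent.H670R4

/-- kind of hole of a level -/
def lok_c (x : ℕ × ℕ × ℕ) : ℕ := if x.2.2 = 2 then 1 else if 3 ≤ x.2.2 then 2 else 0

/-- the relation between consecutive levels -/
def lok_R (x y : ℕ × ℕ × ℕ) : Prop :=
  (lok_c x = 0 → lok_c y ≠ 0 → x.2.2 = 1) ∧ (lok_c x ≠ 0 → lok_c y ≠ lok_c x → y.2.2 = 1) ∧
    (y.2.2 = 4 → lok_c x = 2)

/-- the properties of single levels -/
def lok_Q (n : ℕ) (x : ℕ × ℕ × ℕ) : Prop :=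
  x.1 < n ∧ x.2.1 < n ∧ x.2.2 ≤ 4 ∧ (x.2.2 = 1 → x.1 = 0) ∧ (lok_c x = 0 → x.1 = x.2.1)

theorem lok_Rend (x : ℕ × ℕ × ℕ) : lok_R x (0, 0, 1) := by
  refine ⟨?_, ?_, ?_⟩
  · intro _ h
    simp [lok_c] at h
  · intro _ _
    rfl
  · intro h
    simp at h

theorem lok_hlv_chain (n : ℕ) (h : ℕ × List (ℕ × ℕ)) :
    List.IsChain lok_R ((0, 0, 1) :: hlv h) := by
  unfold hlv
  split_ifs with h0 h1
  · apply List.Pairwise.isChain
    rw [List.pairwise_cons]
    constructor
    · intro y hy
      obtain ⟨x, _, rfl⟩ := List.mem_map.mp hy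
      simp [lok_R, lok_c]
    · rw [List.pairwise_map]
      exact List.pairwise_of_forall (fun x y => by simp [lok_R, lok_c])
  · simp [List.replicate, lok_R, lok_c]
  · simp [List.replicate, lok_R, lok_c]

theorem lok_F (n : ℕ) (hs : List (ℕ × List (ℕ × ℕ))) :
    List.IsChain lok_R ((0, 0, 1) :: ((hs.flatMap fun h => hlv h ++ [(0, 0, 1)]) ++ [(0, 0, 0)])) := by
  induction hs with
  | nil => simp [lok_R, lok_c]
  | cons h hs ih =>
    have e : (0, 0, 1) :: (((h :: hs).flatMap fun h => hlv h ++ [(0, 0, 1)]) ++ [(0, 0, 0)]) =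
        ((0, 0, 1) :: hlv h) ++ ((0, 0, 1) :: ((hs.flatMap fun h => hlv h ++ [(0, 0, 1)]) ++ [(0, 0, 0)])) := by
      simp
    rw [e, List.isChain_append]
    refine ⟨lok_hlv_chain n h, ih, ?_⟩
    intro x _ y hy
    simp at hy
    rw [← hy]
    exact lok_Rend x

theorem lok_chain (n : ℕ) (hs : List (ℕ × List (ℕ × ℕ))) :
    List.IsChain lok_R (prog n hs ++ [(0, 0, 0)]) := by
  have e : prog n hs ++ [(0, 0, 0)] = ((0, 0, 1) :: ((List.range n).map fun i => (i, i, 0))) ++
      ((0, 0, 1) :: ((hs.flatMap fun h => hlv h ++ [(0, 0, 1)]) ++ [(0, 0, 0)])) := by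
    simp [prog]
  rw [e, List.isChain_append]
  refine ⟨?_, lok_F n hs, ?_⟩
  · apply List.Pairwise.isChain
    rw [List.pairwise_cons]
    constructor
    · intro y hy
      obtain ⟨x, _, rfl⟩ := List.mem_map.mp hy
      simp [lok_R, lok_c]
    · rw [List.pairwise_map]
      exact List.pairwise_of_forall (fun x y => by simp [lok_R, lok_c])
  · intro x _ y hy
    simp at hy
    rw [← hy]
    exact lok_Rend x

theorem lok_step (n : ℕ) (hs : List (ℕ × List (ℕ × ℕ))) (t : ℕ) :
    lok_R ((prog n hs).getD t (0, 0, 0)) ((prog n hs).getD (t + 1) (0, 0, 0)) := by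
  have hch := lok_chain n hs
  generalize prog n hs = P at hch ⊢
  by_cases ht : t < P.length
  · have h := (List.isChain_iff_getElem.mp hch) t (by
      rw [List.length_append, List.length_singleton]
      omega)
    have e1 : (P ++ [(0, 0, 0)])[t]'(by
        rw [List.length_append]; omega) = P.getD t (0, 0, 0) := by
      rw [List.getElem_append_left ht, List.getD_eq_getElem _ _ ht]
    have e2 : (P ++ [(0, 0, 0)])[t + 1]'(by
        rw [List.length_append, List.length_singleton]; omega) = P.getD (t + 1) (0, 0, 0) := by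
      by_cases ht1 : t + 1 < P.length
      · rw [List.getElem_append_left ht1, List.getD_eq_getElem _ _ ht1]
      · have : t + 1 = P.length := by omega
        rw [List.getD_eq_default _ _ (by omega), List.getElem_append_right (by omega)]
        simp
    rw [← e1, ← e2]
    exact h
  · rw [List.getD_eq_default _ _ (by omega), List.getD_eq_default _ _ (by omega)]
    simp [lok_R, lok_c]

theorem lok_mem (n : ℕ) (hs : List (ℕ × List (ℕ × ℕ))) (hn : 2 ≤ n) (hh : ∀ h ∈ hs, hOk n h) :
    ∀ x ∈ prog n hs, lok_Q n x := by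
  have h001 : lok_Q n (0, 0, 1) := by
    simp [lok_Q, lok_c]
    omega
  intro x hx
  simp only [prog, List.mem_cons, List.mem_append, List.mem_map, List.mem_range,
    List.mem_flatMap] at hx
  rcases hx with rfl | ⟨i, hi, rfl⟩ | rfl | ⟨h, hhs, hx⟩
  · exact h001
  · simp [lok_Q, lok_c, hi]
  · exact h001
  · rcases hx with hx | hx
    · obtain ⟨o1, o2, o3⟩ := hh h hhs
      unfold hlv at hx
      split_ifs at hx with h0 h1
      · obtain ⟨y, hy, rfl⟩ := List.mem_map.mp hx
        have := o1 y hy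
        simp [lok_Q, lok_c, this]
      · have hl := o3 h0
        have g0 : h.2.getD 0 (0, 0) ∈ h.2 := by
          rw [List.getD_eq_getElem _ _ (by omega)]
          exact List.getElem_mem _
        have g1 : h.2.getD 1 (0, 0) ∈ h.2 := by
          rw [List.getD_eq_getElem _ _ (by omega)]
          exact List.getElem_mem _
        have p0 := o1 _ g0
        have p1 := o1 _ g1
        simp only [List.mem_append, List.mem_cons, List.mem_replicate] at hx
        rcases hx with ⟨_, rfl⟩ | rfl | ⟨_, rfl⟩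
        · exact ⟨p0.1, p0.2, by norm_num, by simp, by simp [lok_c]⟩
        · exact ⟨p1.1, p1.2, by norm_num, by simp, by simp [lok_c]⟩
        · exact ⟨p1.1, p1.2, by norm_num, by simp, by simp [lok_c]⟩
      · have hl := o3 h0
        have g0 : h.2.getD 0 (0, 0) ∈ h.2 := by
          rw [List.getD_eq_getElem _ _ (by omega)]
          exact List.getElem_mem _
        have g1 : h.2.getD 1 (0, 0) ∈ h.2 := by
          rw [List.getD_eq_getElem _ _ (by omega)]
          exact List.getElem_mem _
        have p0 := o1 _ g0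
        have p1 := o1 _ g1
        simp only [List.mem_append, List.mem_cons, List.mem_replicate] at hx
        rcases hx with ⟨_, rfl⟩ | rfl | ⟨_, rfl⟩
        · exact ⟨p0.1, p0.2, by norm_num, by simp, by simp [lok_c]⟩
        · exact ⟨p1.1, p1.2, by norm_num, by simp, by simp [lok_c]⟩
        · exact ⟨p1.1, p1.2, by norm_num, by simp, by simp [lok_c]⟩
    · rcases hx with rfl | hx
      · exact h001
      · simp at hx

theorem lok_get (n : ℕ) (hs : List (ℕ × List (ℕ × ℕ))) (hn : 2 ≤ n) (hh : ∀ h ∈ hs, hOk n h) (t : ℕ) :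
    lok_Q n ((prog n hs).getD t (0, 0, 0)) := by
  by_cases ht : t < (prog n hs).length
  · rw [List.getD_eq_getElem _ _ ht]
    exact lok_mem n hs hn hh _ (List.getElem_mem _)
  · rw [List.getD_eq_default _ _ (by omega)]
    simp [lok_Q, lok_c]
    omega

theorem lok_ok : St_lok := by
  intro n hs hn hh
  have hQ := lok_get n hs hn hh
  have hR := lok_step n hs
  have hcl : ∀ t, (layOf n (prog n hs)).cl t = lok_c ((prog n hs).getD t (0, 0, 0)) := fun t => rfl
  refine ⟨hn, fun t => (hQ t).1, fun t => (hQ t).2.1, fun t => (hQ t).2.2.1, ?_,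
    fun t => (hQ t).2.2.2.1, fun t => (hQ t).2.2.2.2, ?_, ?_, ?_, fun t => (hR t).1,
    fun t => (hR t).2.1, ?_⟩
  · intro t ht
    show ((prog n hs).getD t (0, 0, 0)).2.2 = 0
    rw [List.getD_eq_default _ _ ht]
  · intro i hi'
    have hi : i < n := hi'
    have hlen : i + 1 < (prog n hs).length := by
      simp [prog]
      omega
    have hget : (prog n hs).getD (i + 1) (0, 0, 0) = (i, i, 0) := by
      rw [List.getD_eq_getElem _ _ hlen]
      simp only [prog, List.getElem_cons_succ]
      rw [List.getElem_append_left (by simpa using hi)]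
      simp
    refine ⟨i + 1, hlen, ?_, ?_, ?_⟩
    · show ((prog n hs).getD (i + 1) (0, 0, 0)).1 = i
      rw [hget]
    · show ((prog n hs).getD (i + 1) (0, 0, 0)).2.1 = i
      rw [hget]
    · show ((prog n hs).getD (i + 1) (0, 0, 0)).2.2 = 0
      rw [hget]
  · refine ⟨0, ?_, ?_⟩
    · show 0 < (prog n hs).length
      simp [prog]
    · show ((prog n hs).getD 0 (0, 0, 0)).2.2 = 1
      simp [prog]
  · rw [hcl]
    simp [prog, lok_c]
  · intro t ht
    have ht' : ((prog n hs).getD t (0, 0, 0)).2.2 = 4 := ht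
    rcases Nat.eq_zero_or_pos t with h0 | h0
    · rw [h0] at ht'
      simp [prog] at ht'
    · refine ⟨h0, ?_⟩
      rw [hcl]
      have h1 := (hR (t - 1)).2.2
      rw [Nat.sub_add_cancel h0] at h1
      exact h1 ht'

end Pool.Agent.H670R4
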