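import Pool.Agent.H670R4.Sub

/-! LOR1: the cells are rhombi, neighbouring cells have the same orientation -/

namespace Pool.Agent.H670R4

open scoped ComplexConjugate

theorem lor1_cell {Λ : Lay} {i j : ℕ} (h : cellB Λ i j = true) :
    E Λ (.g i j) (.g (i + 1) j) ∧ E Λ (.g i (j + 1)) (.g (i + 1) (j + 1)) ∧
      E Λ (.g i j) (.g i (j + 1)) ∧ E Λ (.g (i + 1) j) (.g (i + 1) (j + 1)) := by
  unfold cellB at h
  simp only [Bool.and_eq_true, Bool.not_eq_true'] at h
  obtain ⟨h1, h2, h3, h4, h5, h6⟩ := h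
  exact ⟨E.h i j h1 h2 h5, E.h i (j + 1) h3 h4 h6, E.v i j h1 h3, E.v (i + 1) j h2 h4⟩

theorem lor1_live {Λ : Lay} {i j : ℕ} (h : cellB Λ i j = true) :
    Live Λ (.g i j) ∧ Live Λ (.g (i + 1) j) ∧ Live Λ (.g i (j + 1)) ∧ Live Λ (.g (i + 1) (j + 1)) := by
  obtain ⟨a, b, _, _⟩ := lor1_cell h
  exact ⟨⟨_, Or.inl a⟩, ⟨_, Or.inr a⟩, ⟨_, Or.inl b⟩, ⟨_, Or.inr b⟩⟩

theorem lor1_far {Λ : Lay} {p : Vt → ℂ} (hP : Pen Λ p) {i j i' j' : ℕ} (h : Live Λ (.g i j))
    (h' : Live Λ (.g i' j')) (hne : i ≠ i' ∨ j ≠ j') {z : ℂ} (hz : z = Gp p i j - Gp p i' j') : 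
    1 ≤ ‖z‖ := by
  have : Vt.g i j ≠ Vt.g i' j' := by
    intro h0
    rw [Vt.g.injEq] at h0
    rcases hne with h1 | h1
    · exact h1 h0.1
    · exact h1 h0.2
  have := hP.far _ _ h h' this
  rw [dist_eq_norm] at this
  rw [hz]
  exact this

theorem lor1_one {Λ : Lay} {p : Vt → ℂ} (hP : Pen Λ p) {x y : Vt} (h : E Λ x y) {z : ℂ}
    (hz : z = p y - p x) : ‖z‖ = 1 := by
  rw [hz, ← dist_eq_norm, dist_comm]
  exact hP.edge x y h

theorem lor1_par (hl : St_loc) {Λ : Lay} {p : Vt → ℂ} (hP : Pen Λ p) {i j : ℕ}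
    (h : cellB Λ i j = true) : Gp p (i + 1) (j + 1) + Gp p i j = Gp p (i + 1) j + Gp p i (j + 1) := by
  obtain ⟨e1, e2, e3, e4⟩ := lor1_cell h
  obtain ⟨l1, l2, l3, l4⟩ := lor1_live h
  have ne : ∀ {i j i' j' : ℕ}, Live Λ (.g i j) → Live Λ (.g i' j') → (i ≠ i' ∨ j ≠ j') →
      Gp p i j ≠ Gp p i' j' := by
    intro i j i' j' a b c h0
    have := lor1_far hP a b c rfl
    rw [h0, sub_self, norm_zero] at this
    linarith
  have := hl.rh (Gp p i j) (Gp p (i + 1) j) (Gp p (i + 1) (j + 1)) (Gp p i (j + 1)) 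
    (hP.edge _ _ e1) (by rw [dist_comm]; exact hP.edge _ _ e4) (hP.edge _ _ e3) 
    (by rw [dist_comm]; exact hP.edge _ _ e2) (ne l1 l4 (Or.inl (by omega))) 
    (ne l2 l3 (Or.inl (by omega)))
  rw [add_comm, this]

theorem lor1_ok : St_lor1 := by
  intro hl Λ _ p hP
  refine ⟨fun i j h => lor1_par hl hP h, fun i j h h' => ?_, fun i j h h' => ?_⟩
  · obtain ⟨e1, e2, e3, e4⟩ := lor1_cell h
    obtain ⟨f1, f2, f3, f4⟩ := lor1_cell h'
    obtain ⟨l1, l2, l3, l4⟩ := lor1_live h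
    obtain ⟨m1, m2, m3, m4⟩ := lor1_live h'
    have p1 := lor1_par hl hP h
    have p2 := lor1_par hl hP h'
    have key := hl.adj (Gp p (i + 1 + 1) j - Gp p (i + 1) j) (Gp p (i + 1) j - Gp p i j) 
      (Gp p (i + 1) (j + 1) - Gp p (i + 1) j) 
      (lor1_one hP f1 rfl) (lor1_one hP e1 rfl) (lor1_one hP e4 rfl)
      (lor1_far hP m2 l4 (Or.inl (by omega)) (by ring)) 
      (lor1_far hP m4 m1 (Or.inl (by omega)) (by linear_combination -p2))
      (lor1_far hP l2 l3 (Or.inl (by omega)) (by linear_combination -p1))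
      (lor1_far hP l4 l1 (Or.inl (by omega)) (by ring))
      (lor1_far hP m2 l1 (Or.inl (by omega)) (by ring))
      (lor1_far hP m2 l3 (Or.inl (by omega)) (by linear_combination -p1))
      (lor1_far hP m4 l1 (Or.inl (by omega)) (by linear_combination -p2))
    have e : Gp p i (j + 1) - Gp p i j = Gp p (i + 1) (j + 1) - Gp p (i + 1) j := by
      linear_combination -p1
    unfold sgc
    rw [e]
    exact key.symm
  · obtain ⟨e1, e2, e3, e4⟩ := lor1_cell h
    obtain ⟨f1, f2, f3, f4⟩ := lor1_cell h'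
    obtain ⟨l1, l2, l3, l4⟩ := lor1_live h
    obtain ⟨m1, m2, m3, m4⟩ := lor1_live h'
    have p1 := lor1_par hl hP h
    have p2 := lor1_par hl hP h'
    have key := hl.adj (Gp p i (j + 1 + 1) - Gp p i (j + 1)) (Gp p i (j + 1) - Gp p i j) 
      (-(Gp p (i + 1) (j + 1) - Gp p i (j + 1)))
      (lor1_one hP f3 rfl) (lor1_one hP e3 rfl) (by rw [norm_neg]; exact lor1_one hP e2 rfl)
      (lor1_far hP m4 m1 (Or.inl (by omega)) (by linear_combination -p2))
      (lor1_far hP m3 m2 (Or.inl (by omega)) (by ring))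
      (lor1_far hP l4 l1 (Or.inl (by omega)) (by ring))
      (lor1_far hP l3 l2 (Or.inl (by omega)) (by linear_combination -p1))
      (lor1_far hP m3 l1 (Or.inr (by omega)) (by ring))
      (lor1_far hP m4 l1 (Or.inl (by omega)) (by linear_combination -p2))
      (lor1_far hP m3 l2 (Or.inl (by omega)) (by linear_combination -p1))
    have e : Gp p (i + 1) j - Gp p i j = Gp p (i + 1) (j + 1) - Gp p i (j + 1) := by
      linear_combination -p1
    have hcr : ∀ u v : ℂ, cr u (-v) = cr v u := by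
      intro u v
      simp only [cr, Complex.neg_re, Complex.neg_im]
      ring
    rw [hcr, hcr] at key
    unfold sgc
    rw [e]
    exact key.symm

end Pool.Agent.H670R4
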