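import Pool.Agent.H670R4.Sub

namespace Pool.Agent.H670R4

open Pool.Agent.NPC Pool.Agent.NPC.ER Pool.Agent.H670R2
open scoped ComplexConjugate

theorem lor2_ins {Λ : Lay} {t c j : ℕ} (h : Λ.cl t = 0) (hc : c ≠ 0)
    (hj : j = 7 * t ∨ j = 7 * t + 7) : Λ.ins c j = false := by
  unfold Lay.ins
  rcases hj with rfl | rfl
  · have h1 : (7 * t) % 7 = 0 := by omega
    have h2 : (7 * t) / 7 = t := by omega
    rw [if_pos h1, h2, h]
    simp [hc.symm]
  · have h1 : (7 * t + 7) % 7 = 0 := by omega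
    have h2 : (7 * t + 7) / 7 = t + 1 := by omega
    rw [if_pos h1, h2, Nat.add_sub_cancel, h]
    simp [hc.symm]

theorem lor2_cl {Λ : Lay} (hΛ : Λ.Ok) {t : ℕ} (hp : Λ.pat t Λ.n = true) : Λ.cl t = 0 := by
  have ha := hΛ.a t
  unfold Lay.pat at hp
  simp only [Bool.or_eq_true, Bool.and_eq_true, decide_eq_true_eq] at hp
  rcases hp with h | h | h
  · omega
  · omega
  · unfold Lay.cl
    rw [h.2]
    simp

theorem lor2_prs {Λ : Lay} (hΛ : Λ.Ok) {β t : ℕ} (hβ : β < Λ.nb) (ht : t < Λ.T)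
    (hp : Λ.pat t β = true) {m j : ℕ} (hm : m ≤ 3) (hj : j = 7 * t ∨ j = 7 * t + 7) :
    Λ.prs (6 * β + 1 + m) j = true := by
  have h7 : j % 7 = 0 := by omega
  have h1 : 6 * β + 1 + m ≤ 6 * Λ.nb := by omega
  have h2 : j ≤ 7 * Λ.T := by omega
  unfold Lay.prs
  simp only [h7, h1, h2, decide_true, Bool.true_and, ne_eq, not_true_eq_false, decide_false,
    Bool.false_and, Bool.not_false]
  rw [Bool.not_eq_true', Bool.and_eq_false_iff]
  by_cases h : 6 * β + 1 + m = 6 * Λ.n + 3
  · right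
    have hβn : β = Λ.n := by omega
    subst hβn
    exact lor2_ins (lor2_cl hΛ hp) one_ne_zero hj
  · left
    simp [h]

theorem lor2_H {Λ : Lay} (hΛ : Λ.Ok) {β t : ℕ} (hβ : β < Λ.nb) (ht : t < Λ.T)
    (hp : Λ.pat t β = true) {m j : ℕ} (hm : m < 3) (hj : j = 7 * t ∨ j = 7 * t + 7) :
    E Λ (.g (6 * β + 1 + m) j) (.g (6 * β + 1 + (m + 1)) j) := by
  refine E.h (6 * β + 1 + m) j (lor2_prs hΛ hβ ht hp (by omega) hj)
    (lor2_prs hΛ hβ ht hp (m := m + 1) (by omega) hj) ?_
  unfold Lay.gap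
  rw [Bool.and_eq_false_iff]
  by_cases h : 6 * β + 1 + m = 6 * Λ.n + 2
  · right
    have hβn : β = Λ.n := by omega
    subst hβn
    exact lor2_ins (lor2_cl hΛ hp) two_ne_zero hj
  · left
    simp [h]

theorem lor2_E {Λ : Lay} (hΛ : Λ.Ok) {β t : ℕ} (hβ : β < Λ.nb) (ht : t < Λ.T)
    (hp : Λ.pat t β = true) : ∀ e ∈ pAll, E Λ (qv β t e.1.1 e.1.2) (qv β t e.2.1 e.2.2) := by
  intro e he
  unfold pAll at he
  rw [List.mem_append] at he
  rcases he with he | he
  · simp only [List.mem_cons, List.not_mem_nil, or_false] at he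
    rcases he with rfl | rfl | rfl | rfl | rfl | rfl
    · exact lor2_H hΛ hβ ht hp (m := 0) (by norm_num) (Or.inl rfl)
    · exact lor2_H hΛ hβ ht hp (m := 1) (by norm_num) (Or.inl rfl)
    · exact lor2_H hΛ hβ ht hp (m := 2) (by norm_num) (Or.inl rfl)
    · exact lor2_H hΛ hβ ht hp (m := 0) (by norm_num) (Or.inr rfl)
    · exact lor2_H hΛ hβ ht hp (m := 1) (by norm_num) (Or.inr rfl)
    · exact lor2_H hΛ hβ ht hp (m := 2) (by norm_num) (Or.inr rfl)
  · obtain ⟨⟨m, r⟩, ⟨m', r'⟩⟩ := e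
    exact E.q β t hβ ht hp m r m' r' he

theorem lor2_cov : ∀ r < 9, ∀ m < sz r, ∃ e ∈ pAll, e.1 = (m, r) ∨ e.2 = (m, r) := by
  decide

theorem lor2_live {Λ : Lay} (hΛ : Λ.Ok) {β t : ℕ} (hβ : β < Λ.nb) (ht : t < Λ.T)
    (hp : Λ.pat t β = true) {m r : ℕ} (hr : r ≤ 8) (hm : m < sz r) : Live Λ (qv β t m r) := by
  obtain ⟨e, he, h⟩ := lor2_cov r (by omega) m hm
  have hE := lor2_E hΛ hβ ht hp e he
  rcases h with h | h
  · rw [h] at hE
    exact ⟨_, Or.inl hE⟩
  · rw [h] at hE
    exact ⟨_, Or.inr hE⟩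

theorem lor2_inj {β t m r m' r' : ℕ} (hr : r ≤ 8) (hr' : r' ≤ 8)
    (h : qv β t m r = qv β t m' r') : (m, r) = (m', r') := by
  unfold qv at h
  split_ifs at h with h1 h2 h3 h4 h5 h6 h7 h8
  all_goals
    simp only [Vt.g.injEq, Vt.q.injEq, reduceCtorEq] at h
  all_goals
    apply Prod.ext <;> simp only <;> omega

theorem lor2_full {Λ : Lay} (hΛ : Λ.Ok) {p : Vt → ℂ} (hP : Pen Λ p) (hpat : St_pat) {β t : ℕ}
    (hβ : β < Λ.nb) (ht : t < Λ.T) (hp : Λ.pat t β = true) (σ : ℂ → ℂ)
    (hσ : ∀ x y, dist (σ x) (σ y) = dist x y)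
    (h : σ (p (qv β t 0 1)) = σ (p (qv β t 0 0)) +
      (σ (p (qv β t 1 0)) - σ (p (qv β t 0 0))) * om) :
    ∀ m r, r ≤ 8 → m < sz r → σ (p (qv β t m r)) = σ (p (qv β t 0 0)) +
      (σ (p (qv β t 1 0)) - σ (p (qv β t 0 0))) * ofs m r := by
  refine hpat (fun m r => σ (p (qv β t m r))) ?_ ?_ h
  · intro e he
    rw [hσ]
    exact hP.edge _ _ (lor2_E hΛ hβ ht hp e he)
  · intro m r m' r' hr hr' hm hm' hne heq
    have h1 : dist (p (qv β t m r)) (p (qv β t m' r')) = 0 := by
      rw [← hσ, heq, dist_self]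
    have h2 := hP.far _ _ (lor2_live hΛ hβ ht hp hr hm) (lor2_live hΛ hβ ht hp hr' hm')
      (fun h' => hne (lor2_inj hr hr' h'))
    linarith

theorem lor2_apx {p : Vt → ℂ} (hl : St_loc) {x A B : Vt} (h1 : dist (p A) (p B) = 1)
    (h2 : dist (p x) (p A) = 1) (h3 : dist (p x) (p B) = 1) :
    p x = p A + (p B - p A) * om ∨ p x = p A + (p B - p A) * conj om := by
  have h := hl.ap (p B - p A) (p x - p A) (by rw [← dist_eq_norm, dist_comm]; exact h1)
    (by rw [← dist_eq_norm]; exact h2)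
    (by
      have : p x - p A - (p B - p A) = p x - p B := by ring
      rw [this, ← dist_eq_norm]
      exact h3)
  rcases h with h | h
  · left
    rw [← h]
    ring
  · right
    rw [← h]
    ring

theorem lor2_om : om + conj om = 1 := by
  apply Complex.ext
  · simp [om]
    norm_num
  · simp [om]

theorem lor2_omne : om ≠ conj om := by
  intro h
  have := congrArg Complex.im h
  simp only [om, Complex.conj_im] at this
  have h3 : 0 < √3 := by positivity
  linarith

theorem lor2_ok : St_lor2 := by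
  intro hl hpat Λ hΛ p hP
  have hE1 : ((0, 0), (0, 1)) ∈ pAll := by decide
  have hE2 : ((1, 0), (0, 1)) ∈ pAll := by decide
  have hE3 : ((0, 7), (0, 8)) ∈ pAll := by decide
  have hE4 : ((0, 7), (1, 8)) ∈ pAll := by decide
  have two : ∀ β t, β < Λ.nb → t < Λ.T → Λ.pat t β = true →
      (apx p (.q β t 0 1) β (7 * t) om ∨ apx p (.q β t 0 1) β (7 * t) (conj om)) ∧
      (apx p (.q β t 0 7) β (7 * t + 7) om ∨ apx p (.q β t 0 7) β (7 * t + 7) (conj om)) := by
    intro β t hβ ht hp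
    constructor
    · refine lor2_apx hl (x := .q β t 0 1) (A := .g (6 * β + 1) (7 * t))
        (B := .g (6 * β + 2) (7 * t)) ?_ ?_ ?_
      · exact hP.edge _ _ (lor2_H hΛ hβ ht hp (m := 0) (by norm_num) (Or.inl rfl))
      · rw [dist_comm]
        exact hP.edge _ _ (lor2_E hΛ hβ ht hp _ hE1)
      · rw [dist_comm]
        exact hP.edge _ _ (lor2_E hΛ hβ ht hp _ hE2)
    · refine lor2_apx hl (x := .q β t 0 7) (A := .g (6 * β + 1) (7 * t + 7))
        (B := .g (6 * β + 2) (7 * t + 7)) ?_ ?_ ?_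
      · exact hP.edge _ _ (lor2_H hΛ hβ ht hp (m := 0) (by norm_num) (Or.inr rfl))
      · exact hP.edge _ _ (lor2_E hΛ hβ ht hp _ hE3)
      · exact hP.edge _ _ (lor2_E hΛ hβ ht hp _ hE4)
  have full : ∀ β t, β < Λ.nb → t < Λ.T → Λ.pat t β = true → apx p (.q β t 0 1) β (7 * t) om →
      ∀ m r, r ≤ 8 → m < sz r → p (qv β t m r) = Gp p (6 * β + 1) (7 * t) +
        (Gp p (6 * β + 2) (7 * t) - Gp p (6 * β + 1) (7 * t)) * ofs m r := by
    intro β t hβ ht hp h
    exact lor2_full hΛ hP hpat hβ ht hp id (fun _ _ => rfl) h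
  refine ⟨two, ?_, ?_, full⟩
  · intro β hβ
    have hn := hΛ.n2
    refine lor2_apx hl (x := .lo (6 * β + 1)) (A := .g (6 * β + 1) 0) (B := .g (6 * β + 2) 0)
      ?_ ?_ ?_
    · refine hP.edge _ _ (E.h (6 * β + 1) 0 ?_ ?_ ?_)
      · unfold Lay.prs
        have h1 : 6 * β + 1 ≤ 6 * Λ.nb := by omega
        simp [h1]
        left
        omega
      · unfold Lay.prs
        have h1 : 6 * β + 1 + 1 ≤ 6 * Λ.nb := by omega
        simp [h1]
        left
        omega
      · unfold Lay.gap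
        simp
        intro h
        omega
    · exact hP.edge _ _ (E.l1 (6 * β + 1) (by omega) (by omega))
    · exact hP.edge _ _ (E.l2 (6 * β + 1) (by omega) (by omega))
  · intro β t hβ ht hp
    constructor
    · intro h
      have h7 := full β t hβ ht hp h 0 7 (by norm_num) (by decide)
      have h8 := full β t hβ ht hp h 0 8 (by norm_num) (by decide)
      have h8' := full β t hβ ht hp h 1 8 (by norm_num) (by decide)
      have e7 : p (.q β t 0 7) = p (qv β t 0 7) := rfl
      have e8 : Gp p (6 * β + 1) (7 * t + 7) = p (qv β t 0 8) := rfl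
      have e8' : Gp p (6 * β + 2) (7 * t + 7) = p (qv β t 1 8) := rfl
      unfold apx
      rw [e7, e8, e8', h7, h8, h8']
      have hb7 : bs 7 = 4 := rfl
      have hb8 : bs 8 = 5 := rfl
      have hom := lor2_om
      unfold ofs
      rw [hb7, hb8]
      push_cast
      linear_combination (-(Gp p (6 * β + 2) (7 * t) - Gp p (6 * β + 1) (7 * t))) * hom
    · intro h
      rcases (two β t hβ ht hp).1 with h' | h'
      · exact h'
      · exfalso
        have hc := lor2_full hΛ hP hpat hβ ht hp conj (fun x y => by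
          rw [dist_eq_norm, ← map_sub, RCLike.norm_conj, dist_eq_norm]) (by
          have h1 : p (qv β t 0 1) = p (qv β t 0 0) +
            (p (qv β t 1 0) - p (qv β t 0 0)) * conj om := h'
          rw [h1]
          simp)
        have h7 := congrArg conj (hc 0 7 (by norm_num) (by decide))
        have h8 := congrArg conj (hc 0 8 (by norm_num) (by decide))
        have h8' := congrArg conj (hc 1 8 (by norm_num) (by decide))
        simp only [map_add, map_mul, map_sub, Complex.conj_conj] at h7 h8 h8'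
        have h1 : p (qv β t 0 7) = p (qv β t 0 8) +
          (p (qv β t 1 8) - p (qv β t 0 8)) * conj om := h
        rw [h7, h8, h8'] at h1
        have hb7 : bs 7 = 4 := rfl
        have hb8 : bs 8 = 5 := rfl
        unfold ofs at h1
        rw [hb7, hb8] at h1
        simp only [map_add, map_mul, map_sub, map_natCast] at h1
        push_cast at h1
        have hom := lor2_om
        set u : ℂ := p (qv β t 1 0) - p (qv β t 0 0) with hu
        have hune : u ≠ 0 := by
          intro h0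
          have h2 := hP.edge _ _ (lor2_H hΛ hβ ht hp (m := 0) (by norm_num) (Or.inl rfl))
          have h3 : dist (p (qv β t 0 0)) (p (qv β t 1 0)) = 1 := h2
          rw [dist_comm, dist_eq_norm, ← hu, h0, norm_zero] at h3
          norm_num at h3
        have h4 : u * (om - conj om) = 0 := by
          linear_combination h1 + u * hom
        rcases mul_eq_zero.1 h4 with h5 | h5
        · exact hune h5
        · exact lor2_omne (sub_eq_zero.1 h5)

end Pool.Agent.H670R4
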