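import Pool.Agent.H670R4.Sub

/-! Task LOR3: orientations across the rows between levels (helper794). -/

set_option autoImplicit false

namespace Pool.Agent.H670R4

open Pool.Agent.NPC Pool.Agent.NPC.ER Pool.Agent.H670R2
open scoped ComplexConjugate

namespace LOR3h

theorem core (hl : St_loc) {a b c d x : ℂ} (hab : dist a b = 1) (hcd : dist c d = 1)
    (hac : dist a c = 1) (hbd : dist b d = 1) (had : 1 ≤ dist a d) (hbc : 1 ≤ dist b c)
    (hxa : dist x a = 1) (hxb : dist x b = 1) (hxc : 1 ≤ dist x c) (hxd : 1 ≤ dist x d) :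
    d - c = b - a ∧ (0 < cr (b - a) (a - c) ↔ x = a + (b - a) * om) ∧ cr (b - a) (a - c) ≠ 0 ∧
      (x = a + (b - a) * om ∨ x = a + (b - a) * conj om) := by
  have hne1 : a ≠ d := by
    rintro rfl; rw [dist_self] at had; linarith
  have hne2 : b ≠ c := by
    rintro rfl; rw [dist_self] at hbc; linarith
  have hrh := hl.rh a b d c hab (by rw [dist_comm]; exact hbd) hac
    (by rw [dist_comm]; exact hcd) hne1 hne2
  have hd : d = b + c - a := by linear_combination hrh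
  have hu : ‖b - a‖ = 1 := by rw [← dist_eq_norm, dist_comm]; exact hab
  have hv : ‖a - c‖ = 1 := by rw [← dist_eq_norm]; exact hac
  have hq : ‖x - a‖ = 1 := by rw [← dist_eq_norm]; exact hxa
  have hqu : ‖(x - a) - (b - a)‖ = 1 := by
    rw [show (x - a) - (b - a) = x - b by ring, ← dist_eq_norm]; exact hxb
  have h1 : 1 ≤ ‖(b - a) - (a - c)‖ := by
    rw [show (b - a) - (a - c) = d - a by rw [hd]; ring, ← dist_eq_norm, dist_comm]; exact had
  have h2 : 1 ≤ ‖(b - a) + (a - c)‖ := by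
    rw [show (b - a) + (a - c) = b - c by ring, ← dist_eq_norm]; exact hbc
  have h3 : 1 ≤ ‖(x - a) + (a - c)‖ := by
    rw [show (x - a) + (a - c) = x - c by ring, ← dist_eq_norm]; exact hxc
  have h4 : 1 ≤ ‖(x - a) - (b - a) + (a - c)‖ := by
    rw [show (x - a) - (b - a) + (a - c) = x - d by rw [hd]; ring, ← dist_eq_norm]; exact hxd
  have htri := hl.tri (b - a) (a - c) (x - a) hu hv hq hqu h1 h2 h3 h4
  refine ⟨by rw [hd]; ring, ?_, hl.ne _ _ hu hv h1 h2, ?_⟩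
  · rw [htri]
    constructor
    · intro h; rw [← h]; ring
    · intro h; rw [h]; ring
  · rcases hl.ap (b - a) (x - a) hu hq hqu with h | h
    · left; rw [← h]; ring
    · right; rw [← h]; ring

theorem om_ne : om ≠ conj om := by
  intro h
  have := congrArg Complex.im h
  simp [om] at this
  have h3 : (0 : ℝ) < √3 := Real.sqrt_pos.2 (by norm_num)
  linarith

theorem apex_ne {a b : ℂ} (hab : dist a b = 1) : a + (b - a) * om ≠ a + (b - a) * conj om := by
  intro h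
  have h1 : (b - a) * (om - conj om) = 0 := by linear_combination h
  rcases mul_eq_zero.1 h1 with h2 | h2
  · rw [sub_eq_zero] at h2
    rw [h2, dist_self] at hab; norm_num at hab
  · exact om_ne (sub_eq_zero.1 h2)

/-- cell below -/
theorem below (hl : St_loc) {a b c d x : ℂ} (hab : dist a b = 1) (hcd : dist c d = 1)
    (hac : dist a c = 1) (hbd : dist b d = 1) (had : 1 ≤ dist a d) (hbc : 1 ≤ dist b c)
    (hxa : dist x a = 1) (hxb : dist x b = 1) (hxc : 1 ≤ dist x c) (hxd : 1 ≤ dist x d) :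
    (0 < cr (d - c) (a - c) ↔ x = a + (b - a) * om) := by
  obtain ⟨h1, h2, h3, h4⟩ := core hl hab hcd hac hbd had hbc hxa hxb hxc hxd
  rw [h1]; exact h2

/-- cell above -/
theorem above (hl : St_loc) {a b c d x : ℂ} (hab : dist a b = 1) (hcd : dist c d = 1)
    (hac : dist a c = 1) (hbd : dist b d = 1) (had : 1 ≤ dist a d) (hbc : 1 ≤ dist b c)
    (hxa : dist x a = 1) (hxb : dist x b = 1) (hxc : 1 ≤ dist x c) (hxd : 1 ≤ dist x d) :
    (x = a + (b - a) * conj om ↔ 0 < cr (b - a) (c - a)) := by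
  obtain ⟨h1, h2, h3, h4⟩ := core hl hab hcd hac hbd had hbc hxa hxb hxc hxd
  have hneg : cr (b - a) (c - a) = -cr (b - a) (a - c) := by
    simp only [cr, Complex.sub_re, Complex.sub_im]; ring
  rw [hneg]
  constructor
  · intro h
    have h5 : ¬ 0 < cr (b - a) (a - c) := by
      rw [h2, h]
      exact fun h' => apex_ne hab h'.symm
    rcases lt_trichotomy (cr (b - a) (a - c)) 0 with h6 | h6 | h6
    · linarith
    · exact absurd h6 h3
    · exact absurd h6 h5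
  · intro h
    rcases h4 with h5 | h5
    · have := h2.2 h5
      linarith
    · exact h5

/-- two apexes -/
theorem both (hl : St_loc) {a b x y : ℂ} (hab : dist a b = 1)
    (hxa : dist x a = 1) (hxb : dist x b = 1) (hya : dist y a = 1) (hyb : dist y b = 1)
    (hxy : 1 ≤ dist x y) :
    (x = a + (b - a) * conj om ↔ y = a + (b - a) * om) := by
  have hu : ‖b - a‖ = 1 := by rw [← dist_eq_norm, dist_comm]; exact hab
  have ap : ∀ z : ℂ, dist z a = 1 → dist z b = 1 →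
      z = a + (b - a) * om ∨ z = a + (b - a) * conj om := by
    intro z hza hzb
    have hq : ‖z - a‖ = 1 := by rw [← dist_eq_norm]; exact hza
    have hqu : ‖(z - a) - (b - a)‖ = 1 := by
      rw [show (z - a) - (b - a) = z - b by ring, ← dist_eq_norm]; exact hzb
    rcases hl.ap (b - a) (z - a) hu hq hqu with h | h
    · left; rw [← h]; ring
    · right; rw [← h]; ring
  have hne : x ≠ y := by
    rintro rfl; rw [dist_self] at hxy; linarith
  constructor
  · intro h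
    rcases ap y hya hyb with h1 | h1
    · exact h1
    · exact absurd (h.trans h1.symm) hne
  · intro h
    rcases ap x hxa hxb with h1 | h1
    · exact absurd (h1.trans h.symm) hne
    · exact h1

variable {Λ : Lay}

theorem prs_ok {β m j : ℕ} (hβ : β < Λ.nb) (hm : m = 1 ∨ m = 2) (hj : j ≤ 7 * Λ.T)
    (hp : j % 7 = 0 ∨ Λ.pat (j / 7) β = false) : Λ.prs (6 * β + m) j = true := by
  have h1 : (6 * β + m) ≤ 6 * Λ.nb := by rcases hm with rfl | rfl <;> omega
  have h2 : (6 * β + m) / 6 = β := by rcases hm with rfl | rfl <;> omega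
  have h3 : (6 * β + m) ≠ 6 * Λ.n + 3 := by rcases hm with rfl | rfl <;> omega
  unfold Lay.prs
  rw [h2]
  rcases hp with hp | hp
  · simp [h1, hj, hp, h3]
  · simp [h1, hj, hp, h3]

theorem gap_ok {β j : ℕ} : Λ.gap (6 * β + 1) j = false := by
  have h3 : (6 * β + 1) ≠ 6 * Λ.n + 2 := by omega
  unfold Lay.gap
  rw [decide_eq_false h3, Bool.false_and]

theorem eh {β j : ℕ} (hβ : β < Λ.nb) (hj : j ≤ 7 * Λ.T)
    (hp : j % 7 = 0 ∨ Λ.pat (j / 7) β = false) :
    E Λ (.g (6 * β + 1) j) (.g (6 * β + 2) j) :=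
  E.h (6 * β + 1) j (prs_ok hβ (Or.inl rfl) hj hp) (prs_ok hβ (Or.inr rfl) hj hp) gap_ok

theorem ev {β m j : ℕ} (hβ : β < Λ.nb) (hm : m = 1 ∨ m = 2) (hj : j + 1 ≤ 7 * Λ.T)
    (hp : j % 7 = 0 ∨ Λ.pat (j / 7) β = false)
    (hp' : (j + 1) % 7 = 0 ∨ Λ.pat ((j + 1) / 7) β = false) :
    E Λ (.g (6 * β + m) j) (.g (6 * β + m) (j + 1)) :=
  E.v (6 * β + m) j (prs_ok hβ hm (by omega) hp) (prs_ok hβ hm hj hp')

theorem q1a {β t : ℕ} (hβ : β < Λ.nb) (ht : t < Λ.T) (hp : Λ.pat t β = true) :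
    E Λ (.g (6 * β + 1) (7 * t)) (.q β t 0 1) := by
  have h := E.q (Λ := Λ) β t hβ ht hp 0 0 0 1 (by decide)
  simpa [qv] using h

theorem q1b {β t : ℕ} (hβ : β < Λ.nb) (ht : t < Λ.T) (hp : Λ.pat t β = true) :
    E Λ (.g (6 * β + 2) (7 * t)) (.q β t 0 1) := by
  have h := E.q (Λ := Λ) β t hβ ht hp 1 0 0 1 (by decide)
  simpa [qv] using h

theorem q7a {β t : ℕ} (hβ : β < Λ.nb) (ht : t < Λ.T) (hp : Λ.pat t β = true) :
    E Λ (.q β t 0 7) (.g (6 * β + 1) (7 * t + 7)) := by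
  have h := E.q (Λ := Λ) β t hβ ht hp 0 7 0 8 (by decide)
  simpa [qv] using h

theorem q7b {β t : ℕ} (hβ : β < Λ.nb) (ht : t < Λ.T) (hp : Λ.pat t β = true) :
    E Λ (.q β t 0 7) (.g (6 * β + 2) (7 * t + 7)) := by
  have h := E.q (Λ := Λ) β t hβ ht hp 0 7 1 8 (by decide)
  simpa [qv] using h

theorem loa {β : ℕ} (hβ : β < Λ.nb) : E Λ (.lo (6 * β + 1)) (.g (6 * β + 1) 0) :=
  E.l1 (6 * β + 1) (by omega) (by omega)

theorem lob {β : ℕ} (hβ : β < Λ.nb) : E Λ (.lo (6 * β + 1)) (.g (6 * β + 2) 0) :=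
  E.l2 (6 * β + 1) (by omega) (by omega)

theorem ll {x y : Vt} (h : E Λ x y) : Live Λ x := ⟨y, Or.inl h⟩
theorem lr {x y : Vt} (h : E Λ x y) : Live Λ y := ⟨x, Or.inr h⟩

end LOR3h

open LOR3h

theorem lor3_ok : St_lor3 := by
  intro hl Λ hΛ p hP
  have D : ∀ {x y : Vt}, E Λ x y → dist (p x) (p y) = 1 := fun h => hP.edge _ _ h
  have D' : ∀ {x y : Vt}, E Λ x y → dist (p y) (p x) = 1 := fun h => by
    rw [dist_comm]; exact hP.edge _ _ h
  constructor
  · -- cp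
    intro β t hβ ht h0 h1
    have e7 : 7 * (t + 1) = 7 * t + 6 + 1 := by ring
    have r6 : (7 * t + 6) % 7 = 0 ∨ Λ.pat ((7 * t + 6) / 7) β = false := by
      right; rw [show (7 * t + 6) / 7 = t by omega]; exact h0
    have r7 : (7 * t + 6 + 1) % 7 = 0 ∨ Λ.pat ((7 * t + 6 + 1) / 7) β = false := by
      left; omega
    have E1 := eh (Λ := Λ) hβ (by omega : 7 * t + 6 + 1 ≤ 7 * Λ.T) r7
    have E2 := eh (Λ := Λ) hβ (by omega : 7 * t + 6 ≤ 7 * Λ.T) r6
    have E3 := ev (Λ := Λ) (m := 1) hβ (Or.inl rfl) (by omega : 7 * t + 6 + 1 ≤ 7 * Λ.T) r6 r7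
    have E4 := ev (Λ := Λ) (m := 2) hβ (Or.inr rfl) (by omega : 7 * t + 6 + 1 ≤ 7 * Λ.T) r6 r7
    have E5 := q1a (Λ := Λ) hβ ht h1
    have E6 := q1b (Λ := Λ) hβ ht h1
    rw [e7] at E5 E6
    have key := below hl (a := p (.g (6 * β + 1) (7 * t + 6 + 1)))
      (b := p (.g (6 * β + 2) (7 * t + 6 + 1))) (c := p (.g (6 * β + 1) (7 * t + 6)))
      (d := p (.g (6 * β + 2) (7 * t + 6))) (x := p (.q β (t + 1) 0 1))
      (D E1) (D E2) (D' E3) (D' E4)
      (hP.far _ _ (ll E1) (lr E2) (by simp))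
      (hP.far _ _ (lr E1) (ll E2) (by simp))
      (D' E5) (D' E6)
      (hP.far _ _ (lr E5) (ll E2) (by simp))
      (hP.far _ _ (lr E5) (lr E2) (by simp))
    simp only [sgc, apx, Gp, e7]
    exact key
  · -- pc
    intro β t hβ ht h0 h1
    have e7 : 7 * (t + 1) = 7 * t + 7 := by ring
    have r7 : (7 * t + 7) % 7 = 0 ∨ Λ.pat ((7 * t + 7) / 7) β = false := by left; omega
    have r8 : (7 * t + 7 + 1) % 7 = 0 ∨ Λ.pat ((7 * t + 7 + 1) / 7) β = false := by
      right; rw [show (7 * t + 7 + 1) / 7 = t + 1 by omega]; exact h1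
    have E1 := eh (Λ := Λ) hβ (by omega : 7 * t + 7 ≤ 7 * Λ.T) r7
    have E2 := eh (Λ := Λ) hβ (by omega : 7 * t + 7 + 1 ≤ 7 * Λ.T) r8
    have E3 := ev (Λ := Λ) (m := 1) hβ (Or.inl rfl) (by omega : 7 * t + 7 + 1 ≤ 7 * Λ.T) r7 r8
    have E4 := ev (Λ := Λ) (m := 2) hβ (Or.inr rfl) (by omega : 7 * t + 7 + 1 ≤ 7 * Λ.T) r7 r8
    have E5 := q7a (Λ := Λ) hβ (by omega : t < Λ.T) h0
    have E6 := q7b (Λ := Λ) hβ (by omega : t < Λ.T) h0
    have key := above hl (a := p (.g (6 * β + 1) (7 * t + 7)))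
      (b := p (.g (6 * β + 2) (7 * t + 7))) (c := p (.g (6 * β + 1) (7 * t + 7 + 1)))
      (d := p (.g (6 * β + 2) (7 * t + 7 + 1))) (x := p (.q β t 0 7))
      (D E1) (D E2) (D E3) (D E4)
      (hP.far _ _ (ll E1) (lr E2) (by simp))
      (hP.far _ _ (lr E1) (ll E2) (by simp))
      (D E5) (D E6)
      (hP.far _ _ (ll E5) (ll E2) (by simp))
      (hP.far _ _ (ll E5) (lr E2) (by simp))
    simp only [sgc, apx, Gp, e7]
    exact key
  · -- pp
    intro β t hβ ht h0 h1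
    have e7 : 7 * (t + 1) = 7 * t + 7 := by ring
    have r7 : (7 * t + 7) % 7 = 0 ∨ Λ.pat ((7 * t + 7) / 7) β = false := by left; omega
    have E1 := eh (Λ := Λ) hβ (by omega : 7 * t + 7 ≤ 7 * Λ.T) r7
    have E5 := q7a (Λ := Λ) hβ (by omega : t < Λ.T) h0
    have E6 := q7b (Λ := Λ) hβ (by omega : t < Λ.T) h0
    have F5 := q1a (Λ := Λ) hβ ht h1
    have F6 := q1b (Λ := Λ) hβ ht h1
    rw [e7] at F5 F6
    have key := both hl (a := p (.g (6 * β + 1) (7 * t + 7)))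
      (b := p (.g (6 * β + 2) (7 * t + 7))) (x := p (.q β t 0 7)) (y := p (.q β (t + 1) 0 1))
      (D E1) (D E5) (D E6) (D' F5) (D' F6)
      (hP.far _ _ (ll E5) (lr F5) (by simp))
    simp only [apx, Gp, e7]
    exact key
  · -- lc
    intro β hβ hT h1
    have r0 : 0 % 7 = 0 ∨ Λ.pat (0 / 7) β = false := by left; rfl
    have r1 : (0 + 1) % 7 = 0 ∨ Λ.pat ((0 + 1) / 7) β = false := by
      right; exact h1
    have E1 := eh (Λ := Λ) hβ (by omega : 0 ≤ 7 * Λ.T) r0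
    have E2 := eh (Λ := Λ) hβ (by omega : 0 + 1 ≤ 7 * Λ.T) r1
    have E3 := ev (Λ := Λ) (m := 1) hβ (Or.inl rfl) (by omega : 0 + 1 ≤ 7 * Λ.T) r0 r1
    have E4 := ev (Λ := Λ) (m := 2) hβ (Or.inr rfl) (by omega : 0 + 1 ≤ 7 * Λ.T) r0 r1
    have E5 := loa (Λ := Λ) hβ
    have E6 := lob (Λ := Λ) hβ
    have key := above hl (a := p (.g (6 * β + 1) 0))
      (b := p (.g (6 * β + 2) 0)) (c := p (.g (6 * β + 1) (0 + 1)))
      (d := p (.g (6 * β + 2) (0 + 1))) (x := p (.lo (6 * β + 1)))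
      (D E1) (D E2) (D E3) (D E4)
      (hP.far _ _ (ll E1) (lr E2) (by simp))
      (hP.far _ _ (lr E1) (ll E2) (by simp))
      (D E5) (D E6)
      (hP.far _ _ (ll E5) (ll E2) (by simp))
      (hP.far _ _ (ll E5) (lr E2) (by simp))
    simp only [sgc, apx, Gp]
    exact key
  · -- lp
    intro β hβ hT h1
    have r0 : 0 % 7 = 0 ∨ Λ.pat (0 / 7) β = false := by left; rfl
    have E1 := eh (Λ := Λ) hβ (by omega : 0 ≤ 7 * Λ.T) r0
    have E5 := loa (Λ := Λ) hβ
    have E6 := lob (Λ := Λ) hβ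
    have F5 := q1a (Λ := Λ) hβ hT h1
    have F6 := q1b (Λ := Λ) hβ hT h1
    rw [Nat.mul_zero] at F5 F6
    have key := both hl (a := p (.g (6 * β + 1) 0))
      (b := p (.g (6 * β + 2) 0)) (x := p (.lo (6 * β + 1))) (y := p (.q β 0 0 1))
      (D E1) (D E5) (D E6) (D' F5) (D' F6)
      (hP.far _ _ (ll E5) (lr F5) (by simp))
    simp only [apx, Gp]
    exact key

end Pool.Agent.H670R4
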