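import Pool.Agent.H670R4.Sub

/-!
# T_MEM1: from a drawing with small depth to a solution of the system (helper708)
-/

namespace Pool.Agent.H670R4

open Pool.Agent.NPC Pool.Agent.NPC.ER Pool.Agent.H670R2

/-- the quantity under the square root (Heron) -/
noncomputable def mem1_W (D r s : ℝ) : ℝ := 4 * (r * r) * (s * s) - (D - r * r - s * s) * (D - r * r - s * s)

/-- the intersection points of two circles -/
noncomputable def mem1_P (c : ℕ → ℝ × ℝ) (R : ℕ → ℝ) (u v : ℕ) : ℝ × ℝ :=
  ((c u).1 + (sd (c u) (c v) + R u * R u - R v * R v) / (2 * sd (c u) (c v)) * ((c v).1 - (c u).1) -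
      Real.sqrt (mem1_W (sd (c u) (c v)) (R u) (R v)) / (2 * sd (c u) (c v)) * ((c v).2 - (c u).2),
    (c u).2 + (sd (c u) (c v) + R u * R u - R v * R v) / (2 * sd (c u) (c v)) * ((c v).2 - (c u).2) +
      Real.sqrt (mem1_W (sd (c u) (c v)) (R u) (R v)) / (2 * sd (c u) (c v)) * ((c v).1 - (c u).1))

theorem mem1_sd_comm (a b : ℝ × ℝ) : sd a b = sd b a := by
  unfold sd; ring

theorem mem1_W_comm (D r s : ℝ) : mem1_W D r s = mem1_W D s r := by
  unfold mem1_W; ring

theorem mem1_alg1 (D r s α β x y : ℝ) (hD : 0 < D) (hxy : x * x + y * y = D)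
    (hα : α * (2 * D) = D + r * r - s * s) (hβ : (β * (2 * D)) * (β * (2 * D)) = mem1_W D r s) :
    (α * x - β * y) * (α * x - β * y) + (α * y + β * x) * (α * y + β * x) = r * r := by
  unfold mem1_W at hβ
  have h1 : (α * x - β * y) * (α * x - β * y) + (α * y + β * x) * (α * y + β * x) =
      (α * α + β * β) * D := by rw [← hxy]; ring
  rw [h1]
  have h2 : (α * (2 * D)) * (α * (2 * D)) + (β * (2 * D)) * (β * (2 * D)) = 4 * D * (r * r) := by
    rw [hβ, hα]; ring
  have h3 : (4 * D) * ((α * α + β * β) * D) = (4 * D) * (r * r) := by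
    calc (4 * D) * ((α * α + β * β) * D) =
        (α * (2 * D)) * (α * (2 * D)) + (β * (2 * D)) * (β * (2 * D)) := by ring
      _ = _ := h2
  exact mul_left_cancel₀ (by positivity) h3

theorem mem1_int (c : ℕ → ℝ × ℝ) (R : ℕ → ℝ) (u v : ℕ) (hD : 0 < sd (c u) (c v))
    (hW : 0 ≤ mem1_W (sd (c u) (c v)) (R u) (R v)) :
    sd (mem1_P c R u v) (c u) = R u * R u ∧ sd (mem1_P c R u v) (c v) = R v * R v := by
  set D := sd (c u) (c v) with hDdef
  set x := (c v).1 - (c u).1 with hx
  set y := (c v).2 - (c u).2 with hy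
  set α := (D + R u * R u - R v * R v) / (2 * D) with hα
  set β := Real.sqrt (mem1_W D (R u) (R v)) / (2 * D) with hβ
  have hxy : x * x + y * y = D := by rw [hDdef, hx, hy]; unfold sd; ring
  have h2D : (2 * D) ≠ 0 := by positivity
  have hα' : α * (2 * D) = D + R u * R u - R v * R v := by rw [hα]; field_simp
  have hβ' : (β * (2 * D)) * (β * (2 * D)) = mem1_W D (R u) (R v) := by
    have : β * (2 * D) = Real.sqrt (mem1_W D (R u) (R v)) := by rw [hβ]; field_simp
    rw [this, Real.mul_self_sqrt hW]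
  have hP : mem1_P c R u v = ((c u).1 + α * x - β * y, (c u).2 + α * y + β * x) := rfl
  constructor
  · rw [hP, ← mem1_alg1 D (R u) (R v) α β x y hD hxy hα' hβ']
    unfold sd
    simp only
    ring
  · have hα2 : (1 - α) * (2 * D) = D + R v * R v - R u * R u := by
      have : (1 - α) * (2 * D) = 2 * D - α * (2 * D) := by ring
      rw [this, hα']; ring
    rw [hP, ← mem1_alg1 D (R v) (R u) (1 - α) β (-x) (-y) hD (by rw [← hxy]; ring) hα2
      (by rw [hβ', mem1_W_comm])]
    unfold sd
    simp only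
    have e1 : (c v).1 = (c u).1 + x := by rw [hx]; ring
    have e2 : (c v).2 = (c u).2 + y := by rw [hy]; ring
    rw [e1, e2]
    ring

theorem mem1_col (c : ℕ → ℝ × ℝ) (R : ℕ → ℝ) (u v : ℕ) (hD : 0 < sd (c u) (c v)) :
    ((mem1_P c R u v).1 + (mem1_P c R v u).1 - 2 * (c u).1) * ((c v).2 - (c u).2) =
        ((mem1_P c R u v).2 + (mem1_P c R v u).2 - 2 * (c u).2) * ((c v).1 - (c u).1) := by
  unfold mem1_P
  rw [mem1_sd_comm (c v) (c u), mem1_W_comm _ (R v) (R u)]
  simp only
  set D := sd (c u) (c v)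
  set x := (c v).1 - (c u).1 with hx
  set y := (c v).2 - (c u).2 with hy
  have h2D : (2 * D) ≠ 0 := by positivity
  have e : (D + R v * R v - R u * R u) / (2 * D) = 1 - (D + R u * R u - R v * R v) / (2 * D) := by
    field_simp; ring
  rw [e]
  set α := (D + R u * R u - R v * R v) / (2 * D)
  set β := Real.sqrt (mem1_W D (R u) (R v)) / (2 * D)
  have e1 : (c v).1 = (c u).1 + x := by rw [hx]; ring
  have e2 : (c v).2 = (c u).2 + y := by rw [hy]; ring
  rw [e1, e2]
  ring

theorem mem1_ctr (c : ℕ → ℝ × ℝ) (R : ℕ → ℝ) (u : ℕ) : mem1_P c R u u = c u := by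
  unfold mem1_P
  have h : sd (c u) (c u) = 0 := by unfold sd; ring
  rw [h]
  simp

theorem mem1_range (n : ℕ) (f : ℕ → ℝ) : ((List.range n).map f).sum = ∑ i : Fin n, f i := by
  rw [← Finset.sum_range]
  induction n with
  | zero => simp
  | succ n ih => rw [List.range_succ, List.map_append, List.sum_append, ih, Finset.sum_range_succ]; simp

/-- the radius -/
noncomputable def mem1_rad (L : List (List ℕ)) (h : IsGraph L) (p : Fin L.length → ℂ)
    (v : Fin L.length) : ℝ :=
  sSup {r : ℝ | ∃ u, (graphOf L h).Adj v u ∧ r = dist (p v) (p u) / 2}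

theorem mem1_fin (L : List (List ℕ)) (h : IsGraph L) (p : Fin L.length → ℂ) (v : Fin L.length) :
    {r : ℝ | ∃ u, (graphOf L h).Adj v u ∧ r = dist (p v) (p u) / 2}.Finite := by
  refine (Set.finite_range (fun u : Fin L.length => dist (p v) (p u) / 2)).subset ?_
  rintro r ⟨u, -, rfl⟩
  exact ⟨u, rfl⟩

theorem mem1_rad_nonneg (L : List (List ℕ)) (h : IsGraph L) (p : Fin L.length → ℂ)
    (v : Fin L.length) : 0 ≤ mem1_rad L h p v := by
  apply Real.sSup_nonneg
  rintro r ⟨u, -, rfl⟩
  positivity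

theorem mem1_rad_le (L : List (List ℕ)) (h : IsGraph L) (p : Fin L.length → ℂ)
    (v u : Fin L.length) (hu : (graphOf L h).Adj v u) : dist (p v) (p u) / 2 ≤ mem1_rad L h p v :=
  le_csSup (mem1_fin L h p v).bddAbove ⟨u, hu, rfl⟩

theorem mem1_rad_eq (L : List (List ℕ)) (h : IsGraph L) (p : Fin L.length → ℂ)
    (v : Fin L.length) : mem1_rad L h p v = 0 ∨
      ∃ u, (graphOf L h).Adj v u ∧ mem1_rad L h p v = dist (p v) (p u) / 2 := by
  by_cases hne : {r : ℝ | ∃ u, (graphOf L h).Adj v u ∧ r = dist (p v) (p u) / 2}.Nonempty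
  · right
    exact hne.csSup_mem (mem1_fin L h p v)
  · left
    rw [Set.not_nonempty_iff_eq_empty] at hne
    unfold mem1_rad
    rw [hne, Real.sSup_empty]

theorem mem1_sd_dist (a b : ℂ) : sd (a.re, a.im) (b.re, b.im) = dist a b * dist a b := by
  rw [Complex.dist_eq, Complex.norm_mul_self_eq_normSq, Complex.normSq_apply]
  unfold sd
  simp

theorem mem1_ok : St_mem1 := by
  intro hlek L h k hk
  obtain ⟨p, hinj, hdep⟩ := (hlek L h k).1 hk
  let c : ℕ → ℝ × ℝ := fun u => if hu : u < L.length then ((p ⟨u, hu⟩).re, (p ⟨u, hu⟩).im) else (0, 0)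
  let R : ℕ → ℝ := fun u => if hu : u < L.length then mem1_rad L h p ⟨u, hu⟩ else 0
  have hc : ∀ u (hu : u < L.length), c u = ((p ⟨u, hu⟩).re, (p ⟨u, hu⟩).im) := by
    intro u hu; simp only [c, dif_pos hu]
  have hR : ∀ u (hu : u < L.length), R u = mem1_rad L h p ⟨u, hu⟩ := by
    intro u hu; simp only [R, dif_pos hu]
  have hsd : ∀ u (hu : u < L.length) v (hv : v < L.length), sd (c u) (c v) =
      dist (p ⟨u, hu⟩) (p ⟨v, hv⟩) * dist (p ⟨u, hu⟩) (p ⟨v, hv⟩) := by
    intro u hu v hv
    rw [hc u hu, hc v hv, mem1_sd_dist]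
  have hpos : ∀ u < L.length, ∀ v < L.length, u ≠ v → 0 < sd (c u) (c v) := by
    intro u hu v hv huv
    rw [hsd u hu v hv]
    have : 0 < dist (p ⟨u, hu⟩) (p ⟨v, hv⟩) := by
      rw [dist_pos]
      intro he
      have := hinj he
      rw [Fin.mk.injEq] at this
      exact huv this
    positivity
  let b : ℕ → ℕ → ℕ → ℕ → ℕ → ℝ := fun i j i' j' v =>
    open Classical in
    if sd ((mem1_P c R i j).1 + (mem1_P c R i' j').1, (mem1_P c R i j).2 + (mem1_P c R i' j').2)
      (2 * (c v).1, 2 * (c v).2) < 4 * (R v * R v) then 1 else 0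
  refine ⟨c, R, mem1_P c R, b, ?_⟩
  refine ⟨hpos, ?_, ?_, ?_, ?_, ?_, ?_, ?_, ?_⟩
  · intro u hu
    rw [hR u hu]
    exact mem1_rad_nonneg L h p _
  · intro u hu v hv
    have hv' := h u v hu hv
    have hadj : (graphOf L h).Adj ⟨u, hu⟩ ⟨v, hv'.1⟩ := hv
    have h1 := mem1_rad_le L h p ⟨u, hu⟩ ⟨v, hv'.1⟩ hadj
    rw [hsd u hu v hv'.1, hR u hu]
    have h2 := dist_nonneg (x := p ⟨u, hu⟩) (y := p ⟨v, hv'.1⟩)
    nlinarith
  · intro u hu
    rcases mem1_rad_eq L h p ⟨u, hu⟩ with h1 | ⟨v, hv, h1⟩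
    · left; rw [hR u hu, h1]
    · right
      refine ⟨v.1, hv, ?_⟩
      rw [hsd u hu v.1 v.2, hR u hu, h1]
      ring
  · intro u _
    exact mem1_ctr c R u
  · intro u hu v hv huv
    have hD := hpos u hu v hv huv
    by_cases hW : 0 ≤ mem1_W (sd (c u) (c v)) (R u) (R v)
    · right
      obtain ⟨h1, h2⟩ := mem1_int c R u v hD hW
      obtain ⟨h3, h4⟩ := mem1_int c R v u (by rw [mem1_sd_comm]; exact hD)
        (by rw [mem1_sd_comm, mem1_W_comm]; exact hW)
      exact ⟨h1, h2, h4, h3, mem1_col c R u v hD⟩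
    · left
      unfold mem1_W at hW
      push Not at hW
      linarith
  · intro i _ j _ i' _ j' _ v _
    simp only [b]
    split_ifs <;> simp
  · intro i _ j _ i' _ j' _ v _
    simp only [b]
    split_ifs with h1
    · left; rfl
    · right; exact not_lt.1 h1
  · intro i _ j _ i' _ j' _
    rw [mem1_range]
    set z : ℂ := ⟨((mem1_P c R i j).1 + (mem1_P c R i' j').1) / 2,
      ((mem1_P c R i j).2 + (mem1_P c R i' j').2) / 2⟩ with hz
    have hiff : ∀ v : Fin L.length, (sd ((mem1_P c R i j).1 + (mem1_P c R i' j').1,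
        (mem1_P c R i j).2 + (mem1_P c R i' j').2) (2 * (c v).1, 2 * (c v).2) < 4 * (R v * R v)) ↔
        dist z (p v) < mem1_rad L h p v := by
      intro v
      have e1 : sd ((mem1_P c R i j).1 + (mem1_P c R i' j').1,
        (mem1_P c R i j).2 + (mem1_P c R i' j').2) (2 * (c v).1, 2 * (c v).2) =
          4 * (dist z (p v) * dist z (p v)) := by
        rw [← mem1_sd_dist, hc v.1 v.2, hz]
        unfold sd
        simp only
        ring
      rw [e1, hR v.1 v.2]
      have h2 := dist_nonneg (x := z) (y := p v)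
      have h3 := mem1_rad_nonneg L h p v
      constructor
      · intro h4
        by_contra h5
        push Not at h5
        nlinarith
      · intro h4
        nlinarith
    have hsum : ∑ v : Fin L.length, b i j i' j' v =
        ((({v : Fin L.length | dist z (p v) < mem1_rad L h p v} : Set (Fin L.length)).ncard : ℕ) : ℝ) := by
      classical
      rw [Set.ncard_eq_toFinset_card', Finset.card_eq_sum_ones, Nat.cast_sum]
      have : (({v : Fin L.length | dist z (p v) < mem1_rad L h p v} : Set (Fin L.length)).toFinset) =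
          Finset.univ.filter (fun v : Fin L.length => dist z (p v) < mem1_rad L h p v) := by
        ext v; simp
      rw [this, Finset.sum_filter]
      refine Finset.sum_congr rfl fun v _ => ?_
      simp only [b]
      by_cases h4 : dist z (p v) < mem1_rad L h p v
      · rw [if_pos h4, if_pos ((hiff v).2 h4)]; simp
      · rw [if_neg h4, if_neg (fun h5 => h4 ((hiff v).1 h5))]
    rw [hsum]
    have h1 := hdep z
    have h2 : ({v : Fin L.length | dist z (p v) < mem1_rad L h p v} : Set (Fin L.length)).ncard ≤ L.length := by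
      have := Set.ncard_le_ncard (Set.subset_univ {v : Fin L.length | dist z (p v) < mem1_rad L h p v})
      rwa [Set.ncard_univ, Nat.card_eq_fintype_card, Fintype.card_fin] at this
    exact_mod_cast le_min h1 h2

end Pool.Agent.H670R4
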