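import Pool.Agent.H670R4.Sub

/-!
# Membership: correctness of the conditions
-/

namespace Pool.Agent.H670R4

open Pool.Agent.NPC Pool.Agent.NPC.ER Pool.Agent.H670R2
open scoped ComplexConjugate

/-- a pair as a complex number -/
def mem2_c (a : ℝ × ℝ) : ℂ := ⟨a.1, a.2⟩

theorem mem2_dist (a b : ℝ × ℝ) : dist (mem2_c a) (mem2_c b) ^ 2 = sd a b := by
  rw [Complex.dist_eq, ← Complex.normSq_eq_norm_sq, Complex.normSq_apply]
  simp [mem2_c, sd]

theorem mem2_dist' (z : ℂ) (b : ℝ × ℝ) : dist z (mem2_c b) ^ 2 = sd (z.re, z.im) b := by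
  rw [← mem2_dist]
  rfl

theorem mem2_mid (a a' b : ℝ × ℝ) :
    4 * dist ((mem2_c a + mem2_c a') / 2) (mem2_c b) ^ 2 =
      sd (a.1 + a'.1, a.2 + a'.2) (2 * b.1, 2 * b.2) := by
  have e : (mem2_c a + mem2_c a') / 2 = mem2_c ((a.1 + a'.1) / 2, (a.2 + a'.2) / 2) := by
    apply Complex.ext <;> simp [mem2_c]
  rw [e, mem2_dist]
  unfold sd
  ring

theorem mem2_list (f : ℕ → ℝ) (n : ℕ) :
    ((List.range n).map f).sum = ∑ v ∈ Finset.range n, f v := by
  induction n with
  | zero => simp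
  | succ n ih =>
    rw [List.range_succ, List.map_append, List.sum_append, ih, Finset.sum_range_succ]
    simp

/-- a common point of two circles is one of the two given ones -/
theorem mem2_pt {ci cj X Y Z : ℝ × ℝ} {r s : ℝ} (hc : 0 < sd ci cj)
    (h1 : sd X ci = r * r) (h2 : sd X cj = s * s) (h3 : sd Y ci = r * r) (h4 : sd Y cj = s * s)
    (hm : (X.1 + Y.1 - 2 * ci.1) * (cj.2 - ci.2) = (X.2 + Y.2 - 2 * ci.2) * (cj.1 - ci.1))
    (h5 : sd Z ci = r * r) (h6 : sd Z cj = s * s) : Z = X ∨ Z = Y := by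
  obtain ⟨c1, c2⟩ := ci
  obtain ⟨d1, d2⟩ := cj
  obtain ⟨x1, x2⟩ := X
  obtain ⟨y1, y2⟩ := Y
  obtain ⟨z1, z2⟩ := Z
  simp only [sd] at *
  -- the linear equation
  have key : ∀ w1 w2 : ℝ, (w1 - c1) * (w1 - c1) + (w2 - c2) * (w2 - c2) = r * r →
      (w1 - d1) * (w1 - d1) + (w2 - d2) * (w2 - d2) = s * s →
      2 * ((w1 - c1) * (d1 - c1) + (w2 - c2) * (d2 - c2)) =
        r * r - s * s + ((c1 - d1) * (c1 - d1) + (c2 - d2) * (c2 - d2)) := by
    intro w1 w2 ha hb
    linear_combination ha - hb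
  have kx := key _ _ h1 h2
  have ky := key _ _ h3 h4
  have kz := key _ _ h5 h6
  have fin : ∀ w1 w2 : ℝ,
      2 * ((w1 - c1) * (d1 - c1) + (w2 - c2) * (d2 - c2)) =
        r * r - s * s + ((c1 - d1) * (c1 - d1) + (c2 - d2) * (c2 - d2)) →
      (z1 - c1) * (d2 - c2) - (z2 - c2) * (d1 - c1) =
        (w1 - c1) * (d2 - c2) - (w2 - c2) * (d1 - c1) → z1 = w1 ∧ z2 = w2 := by
    intro w1 w2 hw hx
    have e1 : (z1 - w1) * ((c1 - d1) * (c1 - d1) + (c2 - d2) * (c2 - d2)) = 0 := by
      linear_combination (d1 - c1) / 2 * (kz - hw) + (d2 - c2) * hx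
    have e2 : (z2 - w2) * ((c1 - d1) * (c1 - d1) + (c2 - d2) * (c2 - d2)) = 0 := by
      linear_combination (d2 - c2) / 2 * (kz - hw) - (d1 - c1) * hx
    constructor
    · rcases mul_eq_zero.1 e1 with h | h
      · linarith
      · exact absurd h hc.ne'
    · rcases mul_eq_zero.1 e2 with h | h
      · linarith
      · exact absurd h hc.ne'
  have hprod : (((z1 - c1) * (d2 - c2) - (z2 - c2) * (d1 - c1)) -
      ((x1 - c1) * (d2 - c2) - (x2 - c2) * (d1 - c1))) *
      (((z1 - c1) * (d2 - c2) - (z2 - c2) * (d1 - c1)) -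
      ((y1 - c1) * (d2 - c2) - (y2 - c2) * (d1 - c1))) = 0 := by
    have hy : (y1 - c1) * (d2 - c2) - (y2 - c2) * (d1 - c1) =
        -((x1 - c1) * (d2 - c2) - (x2 - c2) * (d1 - c1)) := by
      linear_combination hm
    rw [hy]
    have hz2 : ((z1 - c1) * (d2 - c2) - (z2 - c2) * (d1 - c1)) ^ 2 +
        ((z1 - c1) * (d1 - c1) + (z2 - c2) * (d2 - c2)) ^ 2 =
        ((z1 - c1) * (z1 - c1) + (z2 - c2) * (z2 - c2)) *
          ((c1 - d1) * (c1 - d1) + (c2 - d2) * (c2 - d2)) := by ring
    have hx2 : ((x1 - c1) * (d2 - c2) - (x2 - c2) * (d1 - c1)) ^ 2 +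
        ((x1 - c1) * (d1 - c1) + (x2 - c2) * (d2 - c2)) ^ 2 =
        ((x1 - c1) * (x1 - c1) + (x2 - c2) * (x2 - c2)) *
          ((c1 - d1) * (c1 - d1) + (c2 - d2) * (c2 - d2)) := by ring
    have hdot : (z1 - c1) * (d1 - c1) + (z2 - c2) * (d2 - c2) =
        (x1 - c1) * (d1 - c1) + (x2 - c2) * (d2 - c2) := by linarith
    rw [h5, hdot] at hz2
    rw [h1] at hx2
    linear_combination hz2 - hx2
  rcases mul_eq_zero.1 hprod with h | h
  · left
    obtain ⟨a, b⟩ := fin x1 x2 kx (by linarith)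
    rw [a, b]
  · right
    obtain ⟨a, b⟩ := fin y1 y2 ky (by linarith)
    rw [a, b]

/-- two circles with a common point -/
theorem mem2_meet {ci cj Z : ℝ × ℝ} {r s : ℝ}
    (h5 : sd Z ci = r * r) (h6 : sd Z cj = s * s) :
    ¬ 4 * (r * r) * (s * s) < (sd ci cj - r * r - s * s) * (sd ci cj - r * r - s * s) := by
  obtain ⟨c1, c2⟩ := ci
  obtain ⟨d1, d2⟩ := cj
  obtain ⟨z1, z2⟩ := Z
  rw [not_lt, ← h5, ← h6]
  simp only [sd]
  nlinarith [sq_nonneg ((z1 - c1) * (z2 - d2) - (z2 - c2) * (z1 - d1))]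

theorem mem2_ok : St_mem2 := by
  intro hdisk hlek L h k c R P b hM
  rw [hlek]
  have key : ∀ I : Finset ℕ, I ⊆ Finset.range L.length → ∀ i < L.length, ∀ j < L.length,
      ∀ i' < L.length, ∀ j' < L.length,
      (∀ v ∈ I, dist ((mem2_c (P i j) + mem2_c (P i' j')) / 2) (mem2_c (c v)) < R v) →
      I.card ≤ k := by
    intro I hI i hi j hj i' hi' j' hj' hv
    have hb : ∀ v ∈ I, b i j i' j' v = 1 := by
      intro v hvI
      have hvn : v < L.length := Finset.mem_range.1 (hI hvI)
      rcases hM.dep i hi j hj i' hi' j' hj' v hvn with h1 | h1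
      · exact h1
      · exfalso
        rw [← mem2_mid] at h1
        have h2 := hv v hvI
        have h3 : (0 : ℝ) ≤ dist ((mem2_c (P i j) + mem2_c (P i' j')) / 2) (mem2_c (c v)) :=
          dist_nonneg
        nlinarith
    have hs := hM.sum i hi j hj i' hi' j' hj'
    rw [mem2_list] at hs
    have h1 : (I.card : ℝ) = ∑ v ∈ I, b i j i' j' v := by
      rw [Finset.sum_congr rfl hb]
      simp
    have h2 : ∑ v ∈ I, b i j i' j' v ≤ ∑ v ∈ Finset.range L.length, b i j i' j' v := by
      apply Finset.sum_le_sum_of_subset_of_nonneg hI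
      intro v hv _
      rcases hM.b01 i hi j hj i' hi' j' hj' v (Finset.mem_range.1 hv) with h0 | h0 <;>
        rw [h0] <;> norm_num
    have h3 : (I.card : ℝ) ≤ ((min k L.length : ℕ) : ℝ) := by linarith
    have h4 : I.card ≤ min k L.length := by exact_mod_cast h3
    exact h4.trans (min_le_left _ _)
  refine ⟨fun v => mem2_c (c v.1), ?_, ?_⟩
  · intro u v huv
    by_contra hne
    have h1 : u.1 ≠ v.1 := fun h => hne (Fin.ext h)
    have h2 := hM.inj u.1 u.2 v.1 v.2 h1
    rw [← mem2_dist] at h2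
    have h3 : mem2_c (c u.1) = mem2_c (c v.1) := huv
    rw [h3, dist_self] at h2
    norm_num at h2
  · intro z
    have hrad : ∀ v : Fin L.length, sSup {r : ℝ | ∃ u, (graphOf L h).Adj v u ∧
        r = dist (mem2_c (c v.1)) (mem2_c (c u.1)) / 2} ≤ R v.1 := by
      intro v
      apply Real.sSup_le _ (hM.r0 v.1 v.2)
      rintro r ⟨u, huv, rfl⟩
      have h1 := hM.r1 v.1 v.2 u.1 huv
      rw [← mem2_dist] at h1
      have h0 := hM.r0 v.1 v.2
      have h2 : dist (mem2_c (c v.1)) (mem2_c (c u.1)) ≤ 2 * R v.1 := by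
        apply le_of_sq_le_sq _ (by positivity)
        nlinarith
      linarith
    classical
    set I : Finset ℕ := (Finset.range L.length).filter (fun v => dist z (mem2_c (c v)) < R v)
      with hIdef
    have hIr : I ⊆ Finset.range L.length := Finset.filter_subset _ _
    have hsub : Fin.val '' {v : Fin L.length | dist z (mem2_c (c v.1)) <
        sSup {r : ℝ | ∃ u, (graphOf L h).Adj v u ∧
        r = dist (mem2_c (c v.1)) (mem2_c (c u.1)) / 2}} ⊆ (I : Set ℕ) := by
      rintro _ ⟨v, hv, rfl⟩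
      rw [Finset.mem_coe, hIdef, Finset.mem_filter, Finset.mem_range]
      exact ⟨v.2, lt_of_lt_of_le hv (hrad v)⟩
    have hcard : {v : Fin L.length | dist z (mem2_c (c v.1)) <
        sSup {r : ℝ | ∃ u, (graphOf L h).Adj v u ∧
        r = dist (mem2_c (c v.1)) (mem2_c (c u.1)) / 2}}.ncard ≤ I.card := by
      rw [← Set.ncard_image_of_injective _ Fin.val_injective, ← Set.ncard_coe_finset I]
      exact Set.ncard_le_ncard hsub (Finset.finite_toSet I)
    refine hcard.trans ?_
    rcases Finset.eq_empty_or_nonempty I with hI0 | hI0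
    · rw [hI0]
      simp
    · have hmem : ∀ v ∈ I, v < L.length ∧ dist z (mem2_c (c v)) < R v := by
        intro v hv
        rw [hIdef, Finset.mem_filter, Finset.mem_range] at hv
        exact hv
      rcases hdisk I (fun v => mem2_c (c v)) R z hI0 (by
          intro i hi j hj hij
          by_contra hne
          have h2 := hM.inj i (hmem i hi).1 j (hmem j hj).1 hne
          rw [← mem2_dist] at h2
          have h3 : mem2_c (c i) = mem2_c (c j) := hij
          rw [h3, dist_self] at h2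
          norm_num at h2) (fun i hi => (hmem i hi).2) with ⟨i, hi, hall⟩ | ⟨X, Y, hX, hY, hall⟩
      · have hin := (hmem i hi).1
        apply key I hIr i hin i hin i hin i hin
        intro v hv
        rw [hM.ctr i hin]
        have : (mem2_c (c i) + mem2_c (c i)) / 2 = mem2_c (c i) := by ring
        rw [this]
        exact hall v hv
      · have hpt : ∀ X : ℂ, (∃ i ∈ I, ∃ j ∈ I, i ≠ j ∧ dist X (mem2_c (c i)) = R i ∧
            dist X (mem2_c (c j)) = R j) → ∃ i < L.length, ∃ j < L.length,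
            X = mem2_c (P i j) := by
          rintro X ⟨i, hi, j, hj, hij, h1, h2⟩
          have hin := (hmem i hi).1
          have hjn := (hmem j hj).1
          have h5 : sd (X.re, X.im) (c i) = R i * R i := by
            rw [← mem2_dist', h1]
            ring
          have h6 : sd (X.re, X.im) (c j) = R j * R j := by
            rw [← mem2_dist', h2]
            ring
          rcases hM.int i hin j hjn hij with hc | ⟨a1, a2, a3, a4, a5⟩
          · exact absurd hc (mem2_meet h5 h6)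
          · rcases mem2_pt (hM.inj i hin j hjn hij) a1 a2 a3 a4 a5 h5 h6 with e | e
            · refine ⟨i, hin, j, hjn, ?_⟩
              rw [← e]
              rfl
            · refine ⟨j, hjn, i, hin, ?_⟩
              rw [← e]
              rfl
        obtain ⟨i, hi, j, hj, rfl⟩ := hpt X hX
        obtain ⟨i', hi', j', hj', rfl⟩ := hpt Y hY
        exact key I hIr i hi j hj i' hi' j' hj' hall

end Pool.Agent.H670R4
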