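import Pool.Agent.H670R4.Sub

/-!
# MEM3: coding of the values in one assignment
-/

namespace Pool.Agent.H670R4

open Pool.Agent.NPC Pool.Agent.H670R2

/-- the coding -/
noncomputable def mem3_y (n : ℕ) (c : ℕ → ℝ × ℝ) (R : ℕ → ℝ) (P : ℕ → ℕ → ℝ × ℝ)
    (b : ℕ → ℕ → ℕ → ℕ → ℕ → ℝ) (t : ℕ) : ℝ :=
  if t < 2 * n then (if t % 2 = 0 then (c (t / 2)).1 else (c (t / 2)).2)
  else if t < 3 * n then R (t - 2 * n)
  else if t < 3 * n + 2 * (n * n) then
    (if (t - 3 * n) % 2 = 0 then (P ((t - 3 * n) / 2 / n) ((t - 3 * n) / 2 % n)).1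
      else (P ((t - 3 * n) / 2 / n) ((t - 3 * n) / 2 % n)).2)
  else
    b ((t - (3 * n + 2 * (n * n))) / n / n / n / n) ((t - (3 * n + 2 * (n * n))) / n / n / n % n)
      ((t - (3 * n + 2 * (n * n))) / n / n % n) ((t - (3 * n + 2 * (n * n))) / n % n)
      ((t - (3 * n + 2 * (n * n))) % n)

theorem mem3_div {n a r : ℕ} (h : r < n) : (a * n + r) / n = a := by
  have hn : 0 < n := by omega
  rw [mul_comm, Nat.mul_add_div hn, Nat.div_eq_of_lt h, add_zero]

theorem mem3_mod {n a r : ℕ} (h : r < n) : (a * n + r) % n = r := by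
  rw [mul_comm, Nat.mul_add_mod, Nat.mod_eq_of_lt h]

theorem mem3_yc (n : ℕ) (c : ℕ → ℝ × ℝ) (R : ℕ → ℝ) (P : ℕ → ℕ → ℝ × ℝ)
    (b : ℕ → ℕ → ℕ → ℕ → ℕ → ℝ) (v : ℕ) (hv : v < n) : yc (mem3_y n c R P b) v = c v := by
  have h1 : 2 * v < 2 * n := by omega
  have h2 : 2 * v + 1 < 2 * n := by omega
  have h3 : (2 * v) % 2 = 0 := by omega
  have h4 : ¬ (2 * v + 1) % 2 = 0 := by omega
  have h5 : (2 * v) / 2 = v := by omega
  have h6 : (2 * v + 1) / 2 = v := by omega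
  simp only [yc, mem3_y, if_pos h1, if_pos h2, if_pos h3, if_neg h4, h5, h6]

theorem mem3_yR (n : ℕ) (c : ℕ → ℝ × ℝ) (R : ℕ → ℝ) (P : ℕ → ℕ → ℝ × ℝ)
    (b : ℕ → ℕ → ℕ → ℕ → ℕ → ℝ) (v : ℕ) (hv : v < n) : yR n (mem3_y n c R P b) v = R v := by
  have h1 : ¬ 2 * n + v < 2 * n := by omega
  have h2 : 2 * n + v < 3 * n := by omega
  have h3 : 2 * n + v - 2 * n = v := by omega
  simp only [yR, mem3_y, if_neg h1, if_pos h2, h3]

theorem mem3_yP (n : ℕ) (c : ℕ → ℝ × ℝ) (R : ℕ → ℝ) (P : ℕ → ℕ → ℝ × ℝ)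
    (b : ℕ → ℕ → ℕ → ℕ → ℕ → ℝ) (i j : ℕ) (hi : i < n) (hj : j < n) :
    yP n (mem3_y n c R P b) i j = P i j := by
  have h0 : i * n + j < n * n := by
    calc i * n + j < i * n + n := by omega
      _ = (i + 1) * n := by ring
      _ ≤ n * n := Nat.mul_le_mul_right n hi
  generalize hq : i * n + j = q at h0
  generalize hm : n * n = m at h0
  have h1 : ¬ 3 * n + 2 * q < 2 * n := by omega
  have h2 : ¬ 3 * n + 2 * q < 3 * n := by omega
  have h3 : 3 * n + 2 * q < 3 * n + 2 * m := by omega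
  have h1' : ¬ 3 * n + 2 * q + 1 < 2 * n := by omega
  have h2' : ¬ 3 * n + 2 * q + 1 < 3 * n := by omega
  have h3' : 3 * n + 2 * q + 1 < 3 * n + 2 * m := by omega
  have h4 : (3 * n + 2 * q - 3 * n) % 2 = 0 := by omega
  have h4' : ¬ (3 * n + 2 * q + 1 - 3 * n) % 2 = 0 := by omega
  have h5 : (3 * n + 2 * q - 3 * n) / 2 = q := by omega
  have h5' : (3 * n + 2 * q + 1 - 3 * n) / 2 = q := by omega
  have h6 : q / n = i := by rw [← hq]; exact mem3_div hj
  have h7 : q % n = j := by rw [← hq]; exact mem3_mod hj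
  simp only [yP, mem3_y, hq, hm, if_neg h1, if_neg h2, if_pos h3, if_neg h1', if_neg h2',
    if_pos h3', if_pos h4, if_neg h4', h5, h5', h6, h7]

theorem mem3_yb (n : ℕ) (c : ℕ → ℝ × ℝ) (R : ℕ → ℝ) (P : ℕ → ℕ → ℝ × ℝ)
    (b : ℕ → ℕ → ℕ → ℕ → ℕ → ℝ) (i j i' j' v : ℕ) (hj : j < n) (hi' : i' < n)
    (hj' : j' < n) (hv : v < n) :
    yb n (mem3_y n c R P b) i j i' j' v = b i j i' j' v := by
  generalize hq : (((i * n + j) * n + i') * n + j') * n + v = q
  generalize hm : n * n = m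
  have h1 : ¬ 3 * n + 2 * m + q < 2 * n := by omega
  have h2 : ¬ 3 * n + 2 * m + q < 3 * n := by omega
  have h3 : ¬ 3 * n + 2 * m + q < 3 * n + 2 * m := by omega
  have h4 : 3 * n + 2 * m + q - (3 * n + 2 * m) = q := by omega
  have h5 : q % n = v := by rw [← hq]; exact mem3_mod hv
  have h6 : q / n = ((i * n + j) * n + i') * n + j' := by rw [← hq]; exact mem3_div hv
  have h7 : (((i * n + j) * n + i') * n + j') % n = j' := mem3_mod hj'
  have h8 : (((i * n + j) * n + i') * n + j') / n = (i * n + j) * n + i' := mem3_div hj'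
  have h9 : ((i * n + j) * n + i') % n = i' := mem3_mod hi'
  have h10 : ((i * n + j) * n + i') / n = i * n + j := mem3_div hi'
  have h11 : (i * n + j) % n = j := mem3_mod hj
  have h12 : (i * n + j) / n = i := mem3_div hj
  simp only [yb, mem3_y, hq, hm, if_neg h1, if_neg h2, if_neg h3, h4, h5, h6, h7, h8, h9, h10,
    h11, h12]

theorem mem3_congr {n : ℕ} {N : ℕ → List ℕ} (hN : ∀ u < n, ∀ v ∈ N u, v < n) {k : ℕ}
    {c c' : ℕ → ℝ × ℝ} {R R' : ℕ → ℝ} {P P' : ℕ → ℕ → ℝ × ℝ}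
    {b b' : ℕ → ℕ → ℕ → ℕ → ℕ → ℝ} (hc : ∀ v < n, c' v = c v) (hR : ∀ v < n, R' v = R v)
    (hP : ∀ i < n, ∀ j < n, P' i j = P i j)
    (hb : ∀ i < n, ∀ j < n, ∀ i' < n, ∀ j' < n, ∀ v < n, b' i j i' j' v = b i j i' j' v)
    (h : MS n N k c R P b) : MS n N k c' R' P' b' where
  inj u hu v hv huv := by
    rw [hc u hu, hc v hv]; exact h.inj u hu v hv huv
  r0 u hu := by rw [hR u hu]; exact h.r0 u hu
  r1 u hu v hv := by
    rw [hc u hu, hc v (hN u hu v hv), hR u hu]; exact h.r1 u hu v hv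
  r2 u hu := by
    rcases h.r2 u hu with h | ⟨v, hv, h⟩
    · left; rw [hR u hu]; exact h
    · right; exact ⟨v, hv, by rw [hc u hu, hc v (hN u hu v hv), hR u hu]; exact h⟩
  ctr u hu := by rw [hc u hu, hP u hu u hu]; exact h.ctr u hu
  int u hu v hv huv := by
    rw [hc u hu, hc v hv, hR u hu, hR v hv, hP u hu v hv, hP v hv u hu]
    exact h.int u hu v hv huv
  b01 i hi j hj i' hi' j' hj' v hv := by
    rw [hb i hi j hj i' hi' j' hj' v hv]; exact h.b01 i hi j hj i' hi' j' hj' v hv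
  dep i hi j hj i' hi' j' hj' v hv := by
    rw [hb i hi j hj i' hi' j' hj' v hv, hc v hv, hR v hv, hP i hi j hj, hP i' hi' j' hj']
    exact h.dep i hi j hj i' hi' j' hj' v hv
  sum i hi j hj i' hi' j' hj' := by
    have : ((List.range n).map fun v => b' i j i' j' v) =
        ((List.range n).map fun v => b i j i' j' v) := by
      apply List.map_congr_left
      intro v hv
      exact hb i hi j hj i' hi' j' hj' v (List.mem_range.1 hv)
    rw [this]
    exact h.sum i hi j hj i' hi' j' hj'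

theorem mem3_ok : St_mem3 := by
  intro L hL k c R P b h
  refine ⟨mem3_y L.length c R P b, ?_⟩
  refine mem3_congr ?_ (fun v hv => mem3_yc _ _ _ _ _ v hv) (fun v hv => mem3_yR _ _ _ _ _ v hv)
    (fun i hi j hj => mem3_yP _ _ _ _ _ i j hi hj)
    (fun i hi j hj i' hi' j' hj' v hv => mem3_yb _ _ _ _ _ i j i' j' v hj hi' hj' hv) h
  intro u hu v hv
  exact (hL u v hu hv).1

end Pool.Agent.H670R4
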