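import Pool.Agent.H670R4.Sub
import Pool.Agent.H670R2.SlMem
import Pool.Agent.H671R2.PolyAuto

/-!
# Task MEM4: the formula for the membership of the ply number problem
-/

namespace Pool.Agent.H670R4

open Pool.Agent.NPC Pool.Agent.NPC.ER Pool.Agent.H670R2 Pool.Agent.NPC.H670R2

/-! ### Terms -/

/-- difference -/
def mem4_sub (s t : Tm) : Tm := Tm.add s (Tm.neg t)

/-- square of the distance -/
def mem4_sd (a1 a2 b1 b2 : Tm) : Tm :=
  Tm.add (Tm.mul (mem4_sub a1 b1) (mem4_sub a1 b1)) (Tm.mul (mem4_sub a2 b2) (mem4_sub a2 b2))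

/-- doubling -/
def mem4_dbl (t : Tm) : Tm := Tm.add t t

/-- sum of a list of terms -/
def mem4_sum (l : List Tm) : Tm := l.foldr Tm.add Tm.zero

theorem mem4_eval_sum (x : ℕ → ℝ) (l : List Tm) :
    (mem4_sum l).eval x = (l.map (Tm.eval x)).sum := by
  induction l with
  | nil => rfl
  | cons a l ih =>
    change a.eval x + (mem4_sum l).eval x = _
    rw [ih]; simp

theorem mem4_toks_sum (l : List Tm) : (mem4_sum l).toks =
    l.flatMap Tm.toks ++ Tm.zero.toks ++ List.replicate l.length Tok.add := by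
  induction l with
  | nil => simp [mem4_sum]
  | cons a l ih =>
    change a.toks ++ (mem4_sum l).toks ++ [Tok.add] = _
    rw [ih]
    simp [List.replicate_succ']

/-- center -/
def mem4_cx (v : ℕ) : Tm := Tm.var (2 * v)
def mem4_cy (v : ℕ) : Tm := Tm.var (2 * v + 1)
/-- radius -/
def mem4_R (n v : ℕ) : Tm := Tm.var (2 * n + v)
/-- square of the radius -/
def mem4_RR (n v : ℕ) : Tm := Tm.mul (mem4_R n v) (mem4_R n v)
/-- intersection points -/
def mem4_px (n i j : ℕ) : Tm := Tm.var (3 * n + 2 * (i * n + j))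
def mem4_py (n i j : ℕ) : Tm := Tm.var (3 * n + 2 * (i * n + j) + 1)
/-- indicators -/
def mem4_b (n i j i' j' v : ℕ) : Tm :=
  Tm.var (3 * n + 2 * (n * n) + ((((i * n + j) * n + i') * n + j') * n + v))
/-- squared distance of centers -/
def mem4_cc (u v : ℕ) : Tm := mem4_sd (mem4_cx u) (mem4_cy u) (mem4_cx v) (mem4_cy v)
/-- squared distance between an intersection point and a center -/
def mem4_pc (n i j v : ℕ) : Tm := mem4_sd (mem4_px n i j) (mem4_py n i j) (mem4_cx v) (mem4_cy v)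

/-! ### Formulas -/

/-- different vertices have different centers -/
def mem4_injF (u v : ℕ) : Fm := if u = v then tt else Fm.lt Tm.zero (mem4_cc u v)

def mem4_r0F (n u : ℕ) : Fm := Fm.le Tm.zero (mem4_R n u)

def mem4_r1F (n u v : ℕ) : Fm := Fm.le (mem4_cc u v) (mem4_dbl (mem4_dbl (mem4_RR n u)))

def mem4_r2F (n u v : ℕ) : Fm := Fm.eq (mem4_cc u v) (mem4_dbl (mem4_dbl (mem4_RR n u)))

def mem4_ctrF (n u : ℕ) : Fm :=
  Fm.and (Fm.eq (mem4_px n u u) (mem4_cx u)) (Fm.eq (mem4_py n u u) (mem4_cy u))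

def mem4_intF (n u v : ℕ) : Fm := if u = v then tt else
  Fm.or (Fm.lt (Tm.mul (mem4_dbl (mem4_dbl (mem4_RR n u))) (mem4_RR n v))
      (Tm.mul (mem4_sub (mem4_sub (mem4_cc u v) (mem4_RR n u)) (mem4_RR n v))
        (mem4_sub (mem4_sub (mem4_cc u v) (mem4_RR n u)) (mem4_RR n v))))
    (Fm.and (Fm.and (Fm.eq (mem4_pc n u v u) (mem4_RR n u)) (Fm.eq (mem4_pc n u v v) (mem4_RR n v)))
      (Fm.and (Fm.and (Fm.eq (mem4_pc n v u u) (mem4_RR n u))
        (Fm.eq (mem4_pc n v u v) (mem4_RR n v)))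
        (Fm.eq
          (Tm.mul (mem4_sub (Tm.add (mem4_px n u v) (mem4_px n v u)) (mem4_dbl (mem4_cx u)))
            (mem4_sub (mem4_cy v) (mem4_cy u)))
          (Tm.mul (mem4_sub (Tm.add (mem4_py n u v) (mem4_py n v u)) (mem4_dbl (mem4_cy u)))
            (mem4_sub (mem4_cx v) (mem4_cx u))))))

def mem4_bdF (n i j i' j' v : ℕ) : Fm :=
  Fm.and (Fm.or (Fm.eq (mem4_b n i j i' j' v) Tm.zero) (Fm.eq (mem4_b n i j i' j' v) Tm.one))
    (Fm.or (Fm.eq (mem4_b n i j i' j' v) Tm.one)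
      (Fm.le (mem4_dbl (mem4_dbl (mem4_RR n v)))
        (mem4_sd (Tm.add (mem4_px n i j) (mem4_px n i' j')) (Tm.add (mem4_py n i j) (mem4_py n i' j'))
          (mem4_dbl (mem4_cx v)) (mem4_dbl (mem4_cy v)))))

section
variable {α : Type} [TEnc α]

attribute [local fun_prop] poly_tvar poly_tadd poly_tmul poly_tneg poly_eq poly_lt poly_le poly_not
  poly_and poly_or poly_conj poly_disj

theorem mem4_poly_sum {l : α → List Tm} (hl : Poly l) : Poly (fun a => mem4_sum (l a)) := by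
  refine tm_of_toks (Poly.congr (f := fun a => (l a).flatMap Tm.toks ++ Tm.zero.toks ++
    List.replicate (l a).length Tok.add) ?_ fun a => (mem4_toks_sum _).symm)
  refine Poly.append (Poly.append (Poly.flatMap (F := fun _ φ => Tm.toks φ) hl
    (tm_toks (Poly.snd Poly.id))) (NPC.Poly.const _)) (poly_replicate hl _)

attribute [local fun_prop] NPC.Poly.range_length mem4_poly_sum

theorem mem4_poly_sd {a b c d : α → Tm} (ha : Poly a) (hb : Poly b) (hc : Poly c) (hd : Poly d) :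
    Poly (fun x => mem4_sd (a x) (b x) (c x) (d x)) := by
  unfold mem4_sd mem4_sub
  fun_prop

attribute [local fun_prop] mem4_poly_sd

theorem mem4_poly_inj {u v : α → ℕ} (hu : Poly u) (hv : Poly v) :
    Poly (fun a => mem4_injF (u a) (v a)) := by
  unfold mem4_injF mem4_cc mem4_cx mem4_cy
  fun_prop

theorem mem4_poly_r0 {n u : α → ℕ} (hn : Poly n) (hu : Poly u) :
    Poly (fun a => mem4_r0F (n a) (u a)) := by
  unfold mem4_r0F mem4_R
  fun_prop

theorem mem4_poly_r1 {n u v : α → ℕ} (hn : Poly n) (hu : Poly u) (hv : Poly v) :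
    Poly (fun a => mem4_r1F (n a) (u a) (v a)) := by
  unfold mem4_r1F mem4_dbl mem4_RR mem4_R mem4_cc mem4_cx mem4_cy
  fun_prop

theorem mem4_poly_r2 {n u v : α → ℕ} (hn : Poly n) (hu : Poly u) (hv : Poly v) :
    Poly (fun a => mem4_r2F (n a) (u a) (v a)) := by
  unfold mem4_r2F mem4_dbl mem4_RR mem4_R mem4_cc mem4_cx mem4_cy
  fun_prop

theorem mem4_poly_ctr {n u : α → ℕ} (hn : Poly n) (hu : Poly u) :
    Poly (fun a => mem4_ctrF (n a) (u a)) := by
  unfold mem4_ctrF mem4_px mem4_py mem4_cx mem4_cy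
  fun_prop

theorem mem4_poly_int {n u v : α → ℕ} (hn : Poly n) (hu : Poly u) (hv : Poly v) :
    Poly (fun a => mem4_intF (n a) (u a) (v a)) := by
  unfold mem4_intF mem4_sub mem4_dbl mem4_RR mem4_R mem4_pc mem4_px mem4_py mem4_cc mem4_cx mem4_cy
  fun_prop

theorem mem4_poly_b {n i j i' j' v : α → ℕ} (hn : Poly n) (hi : Poly i) (hj : Poly j)
    (hi' : Poly i') (hj' : Poly j') (hv : Poly v) :
    Poly (fun a => mem4_b (n a) (i a) (j a) (i' a) (j' a) (v a)) := by
  unfold mem4_b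
  fun_prop

attribute [local fun_prop] mem4_poly_b

theorem mem4_poly_bd {n i j i' j' v : α → ℕ} (hn : Poly n) (hi : Poly i) (hj : Poly j)
    (hi' : Poly i') (hj' : Poly j') (hv : Poly v) :
    Poly (fun a => mem4_bdF (n a) (i a) (j a) (i' a) (j' a) (v a)) := by
  unfold mem4_bdF mem4_dbl mem4_RR mem4_R mem4_px mem4_py mem4_cx mem4_cy
  fun_prop

attribute [local fun_prop] mem4_poly_inj mem4_poly_r0 mem4_poly_r1 mem4_poly_r2 mem4_poly_ctr
  mem4_poly_int mem4_poly_bd

/-- injectivity and intersections -/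
def mem4_A (L : List (List ℕ)) : Fm := conj ((List.range L.length).map fun u =>
  conj ((List.range L.length).map fun v => Fm.and (mem4_injF u v) (mem4_intF L.length u v)))

theorem mem4_poly_A : Poly mem4_A := by
  unfold mem4_A
  fun_prop

/-- radii and centers -/
def mem4_B (L : List (List ℕ)) : Fm := conj ((List.range L.length).map fun u =>
  Fm.and (Fm.and (mem4_r0F L.length u) (mem4_ctrF L.length u))
    (Fm.and (conj ((L.getD u []).map fun v => mem4_r1F L.length u v))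
      (Fm.or (Fm.eq (mem4_R L.length u) Tm.zero)
        (disj ((L.getD u []).map fun v => mem4_r2F L.length u v)))))

theorem mem4_poly_B : Poly mem4_B := by
  unfold mem4_B mem4_R
  fun_prop

/-- `min k n` -/
def mem4_mn (x : List (List ℕ) × ℕ) : ℕ := min x.2 x.1.length

theorem mem4_upoly_mn : UPoly mem4_mn :=
  UPoly.of_le (NPC.Poly.min (NPC.Poly.snd NPC.Poly.id)
    (NPC.Poly.length (NPC.Poly.fst NPC.Poly.id)))
    (UPoly.length (NPC.Poly.fst NPC.Poly.id)) fun _ => min_le_right _ _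

theorem mem4_poly_mn : Poly (fun x : List (List ℕ) × ℕ => List.range (mem4_mn x)) :=
  mem4_upoly_mn.range

theorem mem4_poly_mn' {f : α → List (List ℕ) × ℕ} (hf : Poly f) :
    Poly (fun a => List.range (mem4_mn (f a))) := mem4_poly_mn.comp hf

attribute [local fun_prop] mem4_poly_mn'

/-- the indicators of a pair of points -/
def mem4_D (x : List (List ℕ) × ℕ) (i j i' j' : ℕ) : Fm :=
  Fm.and (conj ((List.range x.1.length).map fun v => mem4_bdF x.1.length i j i' j' v))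
    (Fm.le (mem4_sum ((List.range x.1.length).map fun v => mem4_b x.1.length i j i' j' v))
      (mem4_sum ((List.range (mem4_mn x)).map fun _ => Tm.one)))

theorem mem4_poly_D {x : α → List (List ℕ) × ℕ} {i j i' j' : α → ℕ} (hx : Poly x) (hi : Poly i)
    (hj : Poly j) (hi' : Poly i') (hj' : Poly j') :
    Poly (fun a => mem4_D (x a) (i a) (j a) (i' a) (j' a)) := by
  unfold mem4_D
  fun_prop

attribute [local fun_prop] mem4_poly_D

/-- all indicators -/
def mem4_C (x : List (List ℕ) × ℕ) : Fm := conj ((List.range x.1.length).map fun i =>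
  conj ((List.range x.1.length).map fun j => conj ((List.range x.1.length).map fun i' =>
    conj ((List.range x.1.length).map fun j' => mem4_D x i j i' j'))))

theorem mem4_poly_C : Poly mem4_C := by
  unfold mem4_C
  fun_prop

/-- the formula -/
def mem4_F (x : List (List ℕ) × ℕ) : Fm :=
  if chk x.1 = true then Fm.and (mem4_A x.1) (Fm.and (mem4_B x.1) (mem4_C x)) else ff

theorem mem4_poly_F : Poly mem4_F :=
  NPC.Poly.ite (p := fun x : List (List ℕ) × ℕ => chk x.1 = true)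
    (NPC.Poly.decide_bool (poly_chk.comp (NPC.Poly.fst NPC.Poly.id)))
    (poly_and (mem4_poly_A.comp (NPC.Poly.fst NPC.Poly.id))
      (poly_and (mem4_poly_B.comp (NPC.Poly.fst NPC.Poly.id)) mem4_poly_C)) (NPC.Poly.const _)

end

/-! ### Semantics -/

theorem mem4_eval_sub (y : ℕ → ℝ) (s t : Tm) : (mem4_sub s t).eval y = s.eval y - t.eval y := by
  simp only [mem4_sub, Tm.eval]; ring

theorem mem4_eval_dbl (y : ℕ → ℝ) (t : Tm) : (mem4_dbl t).eval y = 2 * t.eval y := by
  simp only [mem4_dbl, Tm.eval]; ring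

theorem mem4_eval_sd (y : ℕ → ℝ) (a b c d : Tm) : (mem4_sd a b c d).eval y =
    sd (a.eval y, b.eval y) (c.eval y, d.eval y) := by
  simp only [mem4_sd, Tm.eval, mem4_eval_sub, sd]

theorem mem4_eval_cx (y : ℕ → ℝ) (v : ℕ) : (mem4_cx v).eval y = (yc y v).1 := rfl
theorem mem4_eval_cy (y : ℕ → ℝ) (v : ℕ) : (mem4_cy v).eval y = (yc y v).2 := rfl
theorem mem4_eval_R (y : ℕ → ℝ) (n v : ℕ) : (mem4_R n v).eval y = yR n y v := rfl
theorem mem4_eval_RR (y : ℕ → ℝ) (n v : ℕ) : (mem4_RR n v).eval y = yR n y v * yR n y v := rfl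
theorem mem4_eval_px (y : ℕ → ℝ) (n i j : ℕ) : (mem4_px n i j).eval y = (yP n y i j).1 := rfl
theorem mem4_eval_py (y : ℕ → ℝ) (n i j : ℕ) : (mem4_py n i j).eval y = (yP n y i j).2 := rfl
theorem mem4_eval_b (y : ℕ → ℝ) (n i j i' j' v : ℕ) :
    (mem4_b n i j i' j' v).eval y = yb n y i j i' j' v := rfl

theorem mem4_eval_cc (y : ℕ → ℝ) (u v : ℕ) : (mem4_cc u v).eval y = sd (yc y u) (yc y v) := by
  rw [mem4_cc, mem4_eval_sd]; rfl

theorem mem4_eval_pc (y : ℕ → ℝ) (n i j v : ℕ) :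
    (mem4_pc n i j v).eval y = sd (yP n y i j) (yc y v) := by
  rw [mem4_pc, mem4_eval_sd]; rfl

theorem mem4_holds_inj (y : ℕ → ℝ) (u v : ℕ) :
    (mem4_injF u v).Holds y ↔ (u ≠ v → 0 < sd (yc y u) (yc y v)) := by
  unfold mem4_injF
  split_ifs with h
  · exact ⟨fun _ h' => absurd h h', fun _ => holds_tt y⟩
  · simp only [Fm.Holds, Tm.eval, mem4_eval_cc]
    exact ⟨fun h' _ => h', fun h' => h' h⟩

theorem mem4_holds_r0 (y : ℕ → ℝ) (n u : ℕ) : (mem4_r0F n u).Holds y ↔ 0 ≤ yR n y u := by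
  simp only [mem4_r0F, Fm.Holds, Tm.eval, mem4_eval_R]

theorem mem4_holds_r1 (y : ℕ → ℝ) (n u v : ℕ) : (mem4_r1F n u v).Holds y ↔
    sd (yc y u) (yc y v) ≤ 4 * (yR n y u * yR n y u) := by
  simp only [mem4_r1F, Fm.Holds, mem4_eval_cc, mem4_eval_dbl, mem4_eval_RR]
  rw [show 2 * (2 * (yR n y u * yR n y u)) = 4 * (yR n y u * yR n y u) by ring]

theorem mem4_holds_r2 (y : ℕ → ℝ) (n u v : ℕ) : (mem4_r2F n u v).Holds y ↔
    sd (yc y u) (yc y v) = 4 * (yR n y u * yR n y u) := by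
  simp only [mem4_r2F, Fm.Holds, mem4_eval_cc, mem4_eval_dbl, mem4_eval_RR]
  rw [show 2 * (2 * (yR n y u * yR n y u)) = 4 * (yR n y u * yR n y u) by ring]

theorem mem4_holds_ctr (y : ℕ → ℝ) (n u : ℕ) : (mem4_ctrF n u).Holds y ↔
    yP n y u u = yc y u := by
  simp only [mem4_ctrF, Fm.Holds, mem4_eval_px, mem4_eval_py, mem4_eval_cx, mem4_eval_cy]
  exact Prod.ext_iff.symm

theorem mem4_holds_int (y : ℕ → ℝ) (n u v : ℕ) : (mem4_intF n u v).Holds y ↔
    (u ≠ v → 4 * (yR n y u * yR n y u) * (yR n y v * yR n y v) <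
      (sd (yc y u) (yc y v) - yR n y u * yR n y u - yR n y v * yR n y v) *
      (sd (yc y u) (yc y v) - yR n y u * yR n y u - yR n y v * yR n y v) ∨
    (sd (yP n y u v) (yc y u) = yR n y u * yR n y u ∧ sd (yP n y u v) (yc y v) =
        yR n y v * yR n y v ∧
      sd (yP n y v u) (yc y u) = yR n y u * yR n y u ∧ sd (yP n y v u) (yc y v) =
        yR n y v * yR n y v ∧
      ((yP n y u v).1 + (yP n y v u).1 - 2 * (yc y u).1) * ((yc y v).2 - (yc y u).2) =
        ((yP n y u v).2 + (yP n y v u).2 - 2 * (yc y u).2) * ((yc y v).1 - (yc y u).1))) := by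
  unfold mem4_intF
  split_ifs with h
  · exact ⟨fun _ h' => absurd h h', fun _ => holds_tt y⟩
  · simp only [Fm.Holds, Tm.eval, mem4_eval_cc, mem4_eval_dbl, mem4_eval_RR, mem4_eval_sub,
      mem4_eval_pc, mem4_eval_px, mem4_eval_py, mem4_eval_cx, mem4_eval_cy]
    rw [show 2 * (2 * (yR n y u * yR n y u)) = 4 * (yR n y u * yR n y u) by ring]
    constructor
    · rintro h' -
      rcases h' with h' | ⟨⟨h1, h2⟩, ⟨h3, h4⟩, h5⟩
      · exact Or.inl h'
      · exact Or.inr ⟨h1, h2, h3, h4, h5⟩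
    · intro h'
      rcases h' h with h' | ⟨h1, h2, h3, h4, h5⟩
      · exact Or.inl h'
      · exact Or.inr ⟨⟨h1, h2⟩, ⟨h3, h4⟩, h5⟩

theorem mem4_holds_bd (y : ℕ → ℝ) (n i j i' j' v : ℕ) : (mem4_bdF n i j i' j' v).Holds y ↔
    (yb n y i j i' j' v = 0 ∨ yb n y i j i' j' v = 1) ∧ (yb n y i j i' j' v = 1 ∨
      4 * (yR n y v * yR n y v) ≤ sd ((yP n y i j).1 + (yP n y i' j').1,
        (yP n y i j).2 + (yP n y i' j').2) (2 * (yc y v).1, 2 * (yc y v).2)) := by
  simp only [mem4_bdF, Fm.Holds, Tm.eval, mem4_eval_b, mem4_eval_dbl, mem4_eval_RR, mem4_eval_sd,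
    mem4_eval_px, mem4_eval_py, mem4_eval_cx, mem4_eval_cy]
  rw [show 2 * (2 * (yR n y v * yR n y v)) = 4 * (yR n y v * yR n y v) by ring]

theorem mem4_holds_all (y : ℕ → ℝ) (n : ℕ) (f : ℕ → Fm) :
    (conj ((List.range n).map f)).Holds y ↔ ∀ u < n, (f u).Holds y := by
  rw [holds_conj]
  simp only [List.mem_map, List.mem_range]
  constructor
  · intro h u hu
    exact h _ ⟨u, hu, rfl⟩
  · rintro h _ ⟨u, hu, rfl⟩
    exact h u hu

theorem mem4_holds_ball (y : ℕ → ℝ) (l : List ℕ) (f : ℕ → Fm) :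
    (conj (l.map f)).Holds y ↔ ∀ u ∈ l, (f u).Holds y := by
  rw [holds_conj]
  simp only [List.mem_map]
  constructor
  · intro h u hu
    exact h _ ⟨u, hu, rfl⟩
  · rintro h _ ⟨u, hu, rfl⟩
    exact h u hu

theorem mem4_holds_bex (y : ℕ → ℝ) (l : List ℕ) (f : ℕ → Fm) :
    (disj (l.map f)).Holds y ↔ ∃ u ∈ l, (f u).Holds y := by
  rw [holds_disj]
  simp only [List.mem_map]
  constructor
  · rintro ⟨_, ⟨u, hu, rfl⟩, h⟩
    exact ⟨u, hu, h⟩
  · rintro ⟨u, hu, h⟩
    exact ⟨_, ⟨u, hu, rfl⟩, h⟩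

theorem mem4_holds_sum (y : ℕ → ℝ) (x : List (List ℕ) × ℕ) (i j i' j' : ℕ) :
    (Fm.le (mem4_sum ((List.range x.1.length).map fun v => mem4_b x.1.length i j i' j' v))
      (mem4_sum ((List.range (mem4_mn x)).map fun _ => Tm.one))).Holds y ↔
    ((List.range x.1.length).map fun v => yb x.1.length y i j i' j' v).sum ≤
      ((min x.2 x.1.length : ℕ) : ℝ) := by
  simp only [Fm.Holds, mem4_eval_sum, List.map_map]
  have h1 : (List.map (Tm.eval y ∘ fun v => mem4_b x.1.length i j i' j' v)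
      (List.range x.1.length)) = (List.range x.1.length).map
        fun v => yb x.1.length y i j i' j' v := rfl
  have h2 : (List.map (Tm.eval y ∘ fun _ => Tm.one) (List.range (mem4_mn x))).sum =
      ((min x.2 x.1.length : ℕ) : ℝ) := by
    have : (Tm.eval y ∘ fun _ : ℕ => Tm.one) = fun _ : ℕ => (1 : ℝ) := rfl
    rw [this]
    simp [mem4_mn]
  rw [h1, h2]

theorem mem4_ok : St_mem4 := by
  refine ⟨mem4_F, mem4_poly_F, ?_⟩
  intro x y
  unfold mem4_F
  by_cases hc : chk x.1 = true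
  swap
  · rw [if_neg hc]
    constructor
    · intro h
      exact absurd h (holds_ff y)
    · rintro ⟨h, -⟩
      exact absurd ((chk_iff x.1).2 h) hc
  rw [if_pos hc]
  have hG := (chk_iff x.1).1 hc
  have hkey : (Fm.and (mem4_A x.1) (Fm.and (mem4_B x.1) (mem4_C x))).Holds y ↔
      (mem4_A x.1).Holds y ∧ (mem4_B x.1).Holds y ∧ (mem4_C x).Holds y := Iff.rfl
  have hA : (mem4_A x.1).Holds y ↔ ∀ u < x.1.length, ∀ v < x.1.length,
      (mem4_injF u v).Holds y ∧ (mem4_intF x.1.length u v).Holds y := by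
    unfold mem4_A
    simp only [mem4_holds_all]
    rfl
  have hB : (mem4_B x.1).Holds y ↔ ∀ u < x.1.length,
      ((mem4_r0F x.1.length u).Holds y ∧ (mem4_ctrF x.1.length u).Holds y) ∧
      (∀ v ∈ x.1.getD u [], (mem4_r1F x.1.length u v).Holds y) ∧
      (yR x.1.length y u = 0 ∨ ∃ v ∈ x.1.getD u [], (mem4_r2F x.1.length u v).Holds y) := by
    unfold mem4_B
    rw [mem4_holds_all]
    refine forall_congr' fun u => imp_congr_right fun _ => ?_
    rw [← mem4_holds_ball y (x.1.getD u []) (fun v => mem4_r1F x.1.length u v),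
      ← mem4_holds_bex y (x.1.getD u []) (fun v => mem4_r2F x.1.length u v)]
    rfl
  have hC : (mem4_C x).Holds y ↔ ∀ i < x.1.length, ∀ j < x.1.length, ∀ i' < x.1.length,
      ∀ j' < x.1.length, (∀ v < x.1.length, (mem4_bdF x.1.length i j i' j' v).Holds y) ∧
        ((List.range x.1.length).map fun v => yb x.1.length y i j i' j' v).sum ≤
          ((min x.2 x.1.length : ℕ) : ℝ) := by
    unfold mem4_C
    simp only [mem4_holds_all]
    refine forall_congr' fun i => imp_congr_right fun _ => forall_congr' fun j =>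
      imp_congr_right fun _ => forall_congr' fun i' => imp_congr_right fun _ =>
      forall_congr' fun j' => imp_congr_right fun _ => ?_
    rw [← mem4_holds_sum, ← mem4_holds_all]
    rfl
  rw [hkey, hA, hB, hC]
  simp only [mem4_holds_inj, mem4_holds_int, mem4_holds_r0, mem4_holds_ctr, mem4_holds_r1,
    mem4_holds_r2, mem4_holds_bd]
  constructor
  · rintro ⟨h1, h2, h3⟩
    refine ⟨hG, ⟨fun u hu v hv => (h1 u hu v hv).1, fun u hu => (h2 u hu).1.1,
      fun u hu => (h2 u hu).2.1, fun u hu => (h2 u hu).2.2, fun u hu => (h2 u hu).1.2,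
      fun u hu v hv => (h1 u hu v hv).2,
      fun i hi j hj i' hi' j' hj' v hv => ((h3 i hi j hj i' hi' j' hj').1 v hv).1,
      fun i hi j hj i' hi' j' hj' v hv => ((h3 i hi j hj i' hi' j' hj').1 v hv).2,
      fun i hi j hj i' hi' j' hj' => (h3 i hi j hj i' hi' j' hj').2⟩⟩
  · rintro ⟨-, h⟩
    exact ⟨fun u hu v hv => ⟨h.inj u hu v hv, h.int u hu v hv⟩,
      fun u hu => ⟨⟨h.r0 u hu, h.ctr u hu⟩, h.r1 u hu, h.r2 u hu⟩,
      fun i hi j hj i' hi' j' hj' => ⟨fun v hv => ⟨h.b01 i hi j hj i' hi' j' hj' v hv,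
        h.dep i hi j hj i' hi' j' hj' v hv⟩, h.sum i hi j hj i' hi' j' hj'⟩⟩

end Pool.Agent.H670R4
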