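import Pool.Agent.H670R4.Sub

/-! Numerical bounds for the wires. -/

set_option autoImplicit false

namespace Pool.Agent.H670R4

open Pool.Agent.NPC Pool.Agent.NPC.ER Pool.Agent.H670R2
open scoped ComplexConjugate

/-- upper bound of the imaginary part -/
lemma num_ub (c h b : ℝ) (hb : 0 ≤ b) (hc : c ≤ h) (hh : h ≤ 1 / 2) (hv : 2 * h - h ^ 2 ≤ b ^ 2) :
    √(2 * c - c ^ 2) ≤ b := by
  rw [Real.sqrt_le_left hb]
  have : 2 * c - c ^ 2 ≤ 2 * h - h ^ 2 := by nlinarith
  linarith

/-- lower bound of the imaginary part -/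
lemma num_lb (c l b : ℝ) (hb : 0 ≤ b) (hc : l ≤ c) (hh : c ≤ 1 / 2) (hv : b ^ 2 ≤ 2 * l - l ^ 2) :
    b ≤ √(2 * c - c ^ 2) := by
  have : 2 * l - l ^ 2 ≤ 2 * c - c ^ 2 := by nlinarith
  exact Real.le_sqrt_of_sq_le (by linarith)

lemma num_norm (a b R : ℝ) (z : ℂ) (h1 : |z.re| ≤ a) (h2 : |z.im| ≤ b) (h3 : a + b ≤ R) : ‖z‖ ≤ R :=
  (Complex.norm_le_abs_re_add_abs_im z).trans (by linarith)

/-- bounds for the wire `A` -/
lemma num_A (y : ℝ) (h1 : -(1 / 4000) ≤ y) (h2 : y ≤ 1 / 512000) :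
    103 / 10000 ≤ √(2 * aA y - aA y ^ 2) ∧ √(2 * aA y - aA y ^ 2) ≤ 248 / 10000 := by
  unfold aA
  constructor
  · exact num_lb _ (1 / 18000 - 1 / 512000) _ (by norm_num) (by linarith) (by linarith)
      (by norm_num)
  · exact num_ub _ (1 / 18000 + 1 / 4000) _ (by norm_num) (by linarith) (by norm_num)
      (by norm_num)

lemma num_A' (y : ℝ) (h1 : -(1 / 64000) ≤ y) :
    √(2 * aA y - aA y ^ 2) ≤ 1194 / 100000 := by
  unfold aA
  exact num_ub _ (1 / 18000 + 1 / 64000) _ (by norm_num) (by linarith) (by norm_num)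
      (by norm_num)

/-- bounds for the wire `B` -/
lemma num_B (y : ℝ) (h1 : -(1 / 4000) ≤ y) (h2 : y ≤ 1 / 512000) :
    2255 / 100000 ≤ √(2 * aB y - aB y ^ 2) ∧ √(2 * aB y - aB y ^ 2) ≤ 319 / 10000 := by
  unfold aB
  constructor
  · exact num_lb _ (1 / 3900 - 1 / 512000) _ (by norm_num) (by linarith) (by linarith)
      (by norm_num)
  · exact num_ub _ (1 / 3900 + 1 / 4000) _ (by norm_num) (by linarith) (by norm_num)
      (by norm_num)

lemma num_B' (y : ℝ) (h1 : -(1 / 64000) ≤ y) :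
    √(2 * aB y - aB y ^ 2) ≤ 2333 / 100000 := by
  unfold aB
  exact num_ub _ (1 / 3900 + 1 / 64000) _ (by norm_num) (by linarith) (by norm_num)
      (by norm_num)

lemma num_B0 : 226 / 10000 ≤ √(2 * aB 0 - aB 0 ^ 2) ∧ √(2 * aB 0 - aB 0 ^ 2) ≤ 227 / 10000 := by
  unfold aB
  constructor
  · exact num_lb _ (1 / 3900) _ (by norm_num) (by norm_num) (by norm_num) (by norm_num)
  · exact num_ub _ (1 / 3900) _ (by norm_num) (by norm_num) (by norm_num) (by norm_num)

lemma num_D : (1 / 84 ≤ (ro * (uv (aA 0) - uv (aA (-(1 / 4000))))).re ∧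
    (ro * (uv (aA 0) - uv (aA (-(1 / 4000))))).re / 7 ≤
      (ro * (uv (aA 0) - uv (aA (-(1 / 4000))))).im ∧
    (ro * (uv (aA 0) - uv (aA (-(1 / 4000))))).im ≤
      (ro * (uv (aA 0) - uv (aA (-(1 / 4000))))).re / 4) := by
  have s1 : 1054 / 100000 ≤ √(2 * aA 0 - aA 0 ^ 2) := by
    unfold aA
    exact num_lb _ (1 / 18000) _ (by norm_num) (by norm_num) (by norm_num) (by norm_num)
  have s2 : √(2 * aA 0 - aA 0 ^ 2) ≤ 10541 / 1000000 := by
    unfold aA
    exact num_ub _ (1 / 18000) _ (by norm_num) (by norm_num) (by norm_num) (by norm_num)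
  have s3 : 24718 / 1000000 ≤ √(2 * aA (-(1 / 4000)) - aA (-(1 / 4000)) ^ 2) := by
    unfold aA
    exact num_lb _ (1 / 18000 + 1 / 4000) _ (by norm_num) (by norm_num) (by norm_num) (by norm_num)
  have s4 : √(2 * aA (-(1 / 4000)) - aA (-(1 / 4000)) ^ 2) ≤ 24719 / 1000000 := by
    unfold aA
    exact num_ub _ (1 / 18000 + 1 / 4000) _ (by norm_num) (by norm_num) (by norm_num) (by norm_num)
  have t1 : 1732 / 1000 ≤ √(3 : ℝ) := Real.le_sqrt_of_sq_le (by norm_num)
  have t2 : √(3 : ℝ) ≤ 17321 / 10000 := by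
    rw [Real.sqrt_le_left (by norm_num)]
    norm_num
  have hre : (ro * (uv (aA 0) - uv (aA (-(1 / 4000))))).re =
      -(1 / 7) * (1 / 4000) + 4 * √3 / 7 * (√(2 * aA (-(1 / 4000)) - aA (-(1 / 4000)) ^ 2) -
        √(2 * aA 0 - aA 0 ^ 2)) := by
    rw [Complex.mul_re]
    simp only [ro, uv, Complex.sub_re, Complex.sub_im]
    have : (1 - aA 0) - (1 - aA (-(1 / 4000))) = 1 / 4000 := by
      unfold aA
      norm_num
    rw [this]
    ring
  have him : (ro * (uv (aA 0) - uv (aA (-(1 / 4000))))).im =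
      (1 / 7) * (√(2 * aA (-(1 / 4000)) - aA (-(1 / 4000)) ^ 2) - √(2 * aA 0 - aA 0 ^ 2)) +
        4 * √3 / 7 * (1 / 4000) := by
    rw [Complex.mul_im]
    simp only [ro, uv, Complex.sub_re, Complex.sub_im]
    have : (1 - aA 0) - (1 - aA (-(1 / 4000))) = 1 / 4000 := by
      unfold aA
      norm_num
    rw [this]
    ring
  rw [hre, him]
  set d := √(2 * aA (-(1 / 4000)) - aA (-(1 / 4000)) ^ 2) - √(2 * aA 0 - aA 0 ^ 2) with hd
  have d1 : 14177 / 1000000 ≤ d := by rw [hd]; linarith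
  have d2 : d ≤ 14179 / 1000000 := by rw [hd]; linarith
  have e1 : 1732 / 1000 * (14177 / 1000000) ≤ √3 * d := by
    apply mul_le_mul t1 d1 (by norm_num) (by positivity)
  have e2 : √3 * d ≤ 17321 / 10000 * (14179 / 1000000) := by
    apply mul_le_mul t2 d2 (by linarith) (by norm_num)
  have e3 : 4 * √3 / 7 * d = 4 / 7 * (√3 * d) := by ring
  rw [e3]
  refine ⟨?_, ?_, ?_⟩ <;> linarith

theorem num_ok : St_num where
  un := by
    intro c h0 h1
    have h2 : 0 ≤ 2 * c - c ^ 2 := by nlinarith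
    have h3 : ‖uv c‖ ^ 2 = 1 := by
      rw [← Complex.normSq_eq_norm_sq, Complex.normSq_apply]
      simp only [uv]
      rw [Real.mul_self_sqrt h2]
      ring
    have h4 : 0 ≤ ‖uv c‖ := norm_nonneg _
    nlinarith
  A := by
    intro y h1 h2
    obtain ⟨a, b⟩ := num_A y h1 h2
    simp only [uv]
    constructor <;> linarith
  B := by
    intro y h1 h2
    obtain ⟨a, b⟩ := num_B y h1 h2
    simp only [uv]
    constructor <;> linarith
  A' := by
    intro y h1 h2
    have := num_A' y h1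
    simp only [uv]
    linarith
  B' := by
    intro y h1 h2
    have := num_B' y h1
    simp only [uv]
    linarith
  S := by
    intro y z h1 h2 h3 h4
    have a1 := (num_A y (by linarith) h2).1
    have a2 := num_A' y h1
    have b1 := (num_B z (by linarith) h4).1
    have b2 := num_B' z h3
    have c1 : 0 ≤ aA y ∧ aA y ≤ 1 / 1000 := by unfold aA; constructor <;> linarith
    have c2 : 0 ≤ aB z ∧ aB z ≤ 1 / 1000 := by unfold aB; constructor <;> linarith
    rw [Complex.mul_im, Complex.mul_re]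
    simp only [uv]
    generalize √(2 * aA y - aA y ^ 2) = s at *
    generalize √(2 * aB z - aB z ^ 2) = t at *
    obtain ⟨c1, c1'⟩ := c1
    obtain ⟨c2, c2'⟩ := c2
    refine ⟨?_, ?_, ?_⟩ <;> nlinarith [mul_nonneg c2 (by linarith : 0 ≤ s),
      mul_nonneg c1 (by linarith : 0 ≤ t), mul_nonneg c1 c2]
  D := by
    intro y z h1 h2 h3 h4
    have a1 := (num_A y (by linarith) h2).1
    have a2 := num_A' y h1
    have b1 := (num_B z (by linarith) h4).1
    have b2 := num_B' z h3
    have c1 : 0 ≤ aA y ∧ aA y ≤ 1 / 10000 := by unfold aA; constructor <;> linarith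
    have c2 : 0 ≤ aB z ∧ aB z ≤ 1 / 1000 := by unfold aB; constructor <;> linarith
    rw [Complex.mul_im, Complex.mul_re, Complex.conj_re, Complex.conj_im]
    simp only [uv]
    generalize √(2 * aA y - aA y ^ 2) = s at *
    generalize √(2 * aB z - aB z ^ 2) = t at *
    obtain ⟨c1, c1'⟩ := c1
    obtain ⟨c2, c2'⟩ := c2
    have e1 := mul_nonneg c2 (by linarith : 0 ≤ s)
    have e2 := mul_nonneg c1 (by linarith : 0 ≤ t)
    have e3 := mul_nonneg c1 c2
    have e4 : 0 ≤ t * s := mul_nonneg (by linarith) (by linarith)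
    have e5 : aA y * t ≤ 1 / 10000 * (2333 / 100000) := by
      apply mul_le_mul c1' b2 (by linarith) (by norm_num)
    have e6 : aB z * s ≤ 1 / 1000 * (1194 / 100000) := by
      apply mul_le_mul c2' a2 (by linarith) (by norm_num)
    refine ⟨?_, ?_, ?_⟩ <;> nlinarith
  dA := by
    intro y y' h1 h2 h3 h4
    obtain ⟨a1, a2⟩ := num_A y h1 h2
    obtain ⟨b1, b2⟩ := num_A y' h3 h4
    refine num_norm (1 / 4000 + 1 / 512000) (145 / 10000) _ _ ?_ ?_ (by norm_num)
    · simp only [uv, Complex.sub_re, aA]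
      rw [abs_le]
      constructor <;> linarith
    · simp only [uv, Complex.sub_im]
      rw [abs_le]
      constructor <;> linarith
  dA' := by
    intro y y' h1 h2 h3 h4
    obtain ⟨a1, -⟩ := num_A y (by linarith) h2
    obtain ⟨b1, -⟩ := num_A y' (by linarith) h4
    have a2 := num_A' y h1
    have b2 := num_A' y' h3
    refine num_norm (1 / 64000 + 1 / 512000) (164 / 100000) _ _ ?_ ?_ (by norm_num)
    · simp only [uv, Complex.sub_re, aA]
      rw [abs_le]
      constructor <;> linarith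
    · simp only [uv, Complex.sub_im]
      rw [abs_le]
      constructor <;> linarith
  dB := by
    intro y h1 h2
    obtain ⟨a1, a2⟩ := num_B y h1 h2
    obtain ⟨b1, b2⟩ := num_B0
    refine num_norm (1 / 4000 + 1 / 512000) (93 / 10000) _ _ ?_ ?_ (by norm_num)
    · simp only [uv, Complex.sub_re, aB]
      rw [abs_le]
      constructor <;> linarith
    · simp only [uv, Complex.sub_im]
      rw [abs_le]
      constructor <;> linarith
  dB' := by
    intro y y' h1 h2 h3 h4
    obtain ⟨a1, -⟩ := num_B y (by linarith) h2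
    obtain ⟨b1, -⟩ := num_B y' (by linarith) h4
    have a2 := num_B' y h1
    have b2 := num_B' y' h3
    refine num_norm (1 / 64000 + 1 / 512000) (78 / 100000) _ _ ?_ ?_ (by norm_num)
    · simp only [uv, Complex.sub_re, aB]
      rw [abs_le]
      constructor <;> linarith
    · simp only [uv, Complex.sub_im]
      rw [abs_le]
      constructor <;> linarith
  dD := num_D

end Pool.Agent.H670R4
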