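import Pool.Agent.H670R4.Sub
import Pool.Agent.H671R2.PolyAuto
import Pool.Agent.H670R2.PolyRed

/-!
# The graph is computable in polynomial time
-/

namespace Pool.Agent.H670R4

open Pool.Agent.NPC Pool.Agent.NPC.ER Pool.Agent.H670R2

section

variable {α : Type} [TEnc α] {n : α → ℕ} {P : α → List (ℕ × ℕ × ℕ)}

theorem p1_a {t : α → ℕ} (hP : NPC.Poly P) (ht : NPC.Poly t) :
    NPC.Poly (fun a => (layOf (n a) (P a)).a (t a)) := by
  unfold layOf
  exact NPC.Poly.fst (NPC.Poly.getD hP ht (NPC.Poly.const (0, 0, 0)))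

theorem p1_b {t : α → ℕ} (hP : NPC.Poly P) (ht : NPC.Poly t) :
    NPC.Poly (fun a => (layOf (n a) (P a)).b (t a)) := by
  unfold layOf
  exact NPC.Poly.fst (NPC.Poly.snd (NPC.Poly.getD hP ht (NPC.Poly.const (0, 0, 0))))

theorem p1_k {t : α → ℕ} (hP : NPC.Poly P) (ht : NPC.Poly t) :
    NPC.Poly (fun a => (layOf (n a) (P a)).k (t a)) := by
  unfold layOf
  exact NPC.Poly.snd (NPC.Poly.snd (NPC.Poly.getD hP ht (NPC.Poly.const (0, 0, 0))))

theorem p1_n (hn : NPC.Poly n) : NPC.Poly (fun a => (layOf (n a) (P a)).n) := hn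

theorem p1_T (hP : NPC.Poly P) : NPC.Poly (fun a => (layOf (n a) (P a)).T) :=
  NPC.Poly.length hP

theorem p1_nb (hn : NPC.Poly n) : NPC.Poly (fun a => (layOf (n a) (P a)).nb) := by
  unfold Lay.nb layOf
  exact NPC.Poly.add (NPC.Poly.mul (NPC.Poly.const 2) hn) (NPC.Poly.const 1)

theorem p1_cl {t : α → ℕ} (hP : NPC.Poly P) (ht : NPC.Poly t) :
    NPC.Poly (fun a => (layOf (n a) (P a)).cl (t a)) := by
  unfold Lay.cl
  exact NPC.Poly.ite (NPC.Poly.decide_eq (p1_k hP ht) (NPC.Poly.const 2)) (NPC.Poly.const 1)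
    (NPC.Poly.ite (NPC.Poly.decide_le (NPC.Poly.const 3) (p1_k hP ht)) (NPC.Poly.const 2)
      (NPC.Poly.const 0))

theorem p1_pat {t β : α → ℕ} (hn : NPC.Poly n) (hP : NPC.Poly P) (ht : NPC.Poly t)
    (hβ : NPC.Poly β) : NPC.Poly (fun a => (layOf (n a) (P a)).pat (t a) (β a)) := by
  unfold Lay.pat
  exact NPC.Poly.or (NPC.Poly.decide_eq hβ (p1_a hP ht))
    (NPC.Poly.or (NPC.Poly.decide_eq hβ (NPC.Poly.add (NPC.Poly.add hn (NPC.Poly.const 1))
      (p1_b hP ht))) (NPC.Poly.and (NPC.Poly.decide_eq hβ hn)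
        (NPC.Poly.decide_eq (p1_k hP ht) (NPC.Poly.const 1))))

theorem p1_ins {c j : α → ℕ} (hP : NPC.Poly P) (hc : NPC.Poly c)
    (hj : NPC.Poly j) : NPC.Poly (fun a => (layOf (n a) (P a)).ins (c a) (j a)) := by
  unfold Lay.ins
  have h7 : NPC.Poly (fun _ : α => 7) := NPC.Poly.const _
  have h0 : NPC.Poly (fun _ : α => 0) := NPC.Poly.const _
  have h1 : NPC.Poly (fun _ : α => 1) := NPC.Poly.const _
  have hd := NPC.Poly.div hj h7
  have hm := NPC.Poly.mod hj h7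
  exact NPC.Poly.ite (NPC.Poly.decide_eq hm h0)
    (NPC.Poly.and (NPC.Poly.decide_lt h0 hd)
      (NPC.Poly.and (NPC.Poly.decide_eq (p1_cl hP (NPC.Poly.sub hd h1)) hc)
        (NPC.Poly.decide_eq (p1_cl hP hd) hc)))
    (NPC.Poly.decide_eq (p1_cl hP hd) hc)

theorem p1_prs {i j : α → ℕ} (hn : NPC.Poly n) (hP : NPC.Poly P) (hi : NPC.Poly i)
    (hj : NPC.Poly j) : NPC.Poly (fun a => (layOf (n a) (P a)).prs (i a) (j a)) := by
  unfold Lay.prs
  simp only [ne_eq]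
  have h7 : NPC.Poly (fun _ : α => 7) := NPC.Poly.const _
  have h6 : NPC.Poly (fun _ : α => 6) := NPC.Poly.const _
  have h4 : NPC.Poly (fun _ : α => 4) := NPC.Poly.const _
  have h3 : NPC.Poly (fun _ : α => 3) := NPC.Poly.const _
  have h0 : NPC.Poly (fun _ : α => 0) := NPC.Poly.const _
  have h1 : NPC.Poly (fun _ : α => 1) := NPC.Poly.const _
  have hd := NPC.Poly.div hj h7
  have hm := NPC.Poly.mod hj h7
  have hd' := NPC.Poly.div hi h6
  have hm' := NPC.Poly.mod hi h6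
  exact NPC.Poly.and (NPC.Poly.decide_le hi (NPC.Poly.mul h6 (p1_nb (P := P) hn)))
    (NPC.Poly.and (NPC.Poly.decide_le hj (NPC.Poly.mul h7 (p1_T (n := n) hP)))
      (NPC.Poly.and (NPC.Poly.not (NPC.Poly.and (NPC.Poly.decide_not (NPC.Poly.decide_eq hm h0))
        (NPC.Poly.and (NPC.Poly.decide_le h1 hm') (NPC.Poly.and (NPC.Poly.decide_le hm' h4)
          (p1_pat hn hP hd hd')))))
        (NPC.Poly.not (NPC.Poly.and (NPC.Poly.decide_eq hi
          (NPC.Poly.add (NPC.Poly.mul h6 (p1_n (P := P) hn)) h3)) (p1_ins hP h1 hj)))))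

theorem p1_gap {i j : α → ℕ} (hn : NPC.Poly n) (hP : NPC.Poly P) (hi : NPC.Poly i)
    (hj : NPC.Poly j) : NPC.Poly (fun a => (layOf (n a) (P a)).gap (i a) (j a)) := by
  unfold Lay.gap
  have h6 : NPC.Poly (fun _ : α => 6) := NPC.Poly.const _
  have h2 : NPC.Poly (fun _ : α => 2) := NPC.Poly.const _
  exact NPC.Poly.and (NPC.Poly.decide_eq hi
    (NPC.Poly.add (NPC.Poly.mul h6 (p1_n (P := P) hn)) h2)) (p1_ins hP h2 hj)

theorem p1_cg {i j : α → ℕ} (hn : NPC.Poly n) (hi : NPC.Poly i)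
    (hj : NPC.Poly j) : NPC.Poly (fun a => cg (layOf (n a) (P a)) (i a) (j a)) := by
  unfold cg
  exact NPC.Poly.add (NPC.Poly.mul hj (NPC.Poly.add (NPC.Poly.mul (NPC.Poly.const 6)
    (p1_nb (P := P) hn)) (NPC.Poly.const 1))) hi

theorem p1_nG (hn : NPC.Poly n) (hP : NPC.Poly P) :
    NPC.Poly (fun a => nG (layOf (n a) (P a))) := by
  unfold nG
  exact NPC.Poly.mul (NPC.Poly.add (NPC.Poly.mul (NPC.Poly.const 7) (p1_T (n := n) hP))
    (NPC.Poly.const 1)) (NPC.Poly.add (NPC.Poly.mul (NPC.Poly.const 6)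
    (p1_nb (P := P) hn)) (NPC.Poly.const 1))

theorem p1_lo {i : α → ℕ} (hn : NPC.Poly n) (hP : NPC.Poly P) (hi : NPC.Poly i) :
    NPC.Poly (fun a => code (layOf (n a) (P a)) (.lo (i a))) := by
  unfold code
  exact NPC.Poly.add (NPC.Poly.add (p1_nG hn hP) (NPC.Poly.mul (NPC.Poly.const 24)
    (NPC.Poly.mul (p1_T (n := n) hP) (p1_nb (P := P) hn)))) hi

theorem p1_hi {i : α → ℕ} (hn : NPC.Poly n) (hP : NPC.Poly P) (hi : NPC.Poly i) :
    NPC.Poly (fun a => code (layOf (n a) (P a)) (.hi (i a))) := by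
  unfold code
  exact NPC.Poly.add (NPC.Poly.add (NPC.Poly.add (p1_nG hn hP) (NPC.Poly.mul (NPC.Poly.const 24)
    (NPC.Poly.mul (p1_T (n := n) hP) (p1_nb (P := P) hn)))) (NPC.Poly.mul (NPC.Poly.const 6)
    (p1_nb (P := P) hn))) hi

theorem p1_pe {i : α → ℕ} (hn : NPC.Poly n) (hP : NPC.Poly P) (hi : NPC.Poly i) :
    NPC.Poly (fun a => code (layOf (n a) (P a)) (.pe (i a))) := by
  unfold code
  exact NPC.Poly.add (NPC.Poly.add (NPC.Poly.add (p1_nG hn hP) (NPC.Poly.mul (NPC.Poly.const 24)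
    (NPC.Poly.mul (p1_T (n := n) hP) (p1_nb (P := P) hn)))) (NPC.Poly.mul (NPC.Poly.const 12)
    (p1_nb (P := P) hn))) hi

theorem p1_cq {β t m r : α → ℕ} (hn : NPC.Poly n) (hP : NPC.Poly P) (hβ : NPC.Poly β)
    (ht : NPC.Poly t) (hm : NPC.Poly m) (hr : NPC.Poly r) :
    NPC.Poly (fun a => cq (layOf (n a) (P a)) (β a) (t a) (m a) (r a)) := by
  unfold cq
  have h8 : NPC.Poly (fun _ : α => 8) := NPC.Poly.const _
  have h7 : NPC.Poly (fun _ : α => 7) := NPC.Poly.const _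
  have h6 : NPC.Poly (fun _ : α => 6) := NPC.Poly.const _
  have h3 : NPC.Poly (fun _ : α => 3) := NPC.Poly.const _
  have h0 : NPC.Poly (fun _ : α => 0) := NPC.Poly.const _
  have h1 : NPC.Poly (fun _ : α => 1) := NPC.Poly.const _
  have hi : NPC.Poly (fun a => 6 * β a + 1 + m a) :=
    NPC.Poly.add (NPC.Poly.add (NPC.Poly.mul h6 hβ) h1) hm
  exact NPC.Poly.ite (NPC.Poly.decide_eq hr h0) (p1_cg hn hi (NPC.Poly.mul h7 ht))
    (NPC.Poly.ite (NPC.Poly.decide_eq hr h8)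
      (p1_cg hn hi (NPC.Poly.add (NPC.Poly.mul h7 ht) h7))
      (NPC.Poly.add (p1_nG hn hP) (NPC.Poly.add (NPC.Poly.mul (NPC.Poly.add (NPC.Poly.mul
        (NPC.Poly.add (NPC.Poly.mul ht (p1_nb (P := P) hn)) hβ) h3) hm) h8) hr)))

theorem p1_edge {b : α → Bool} {x y : α → ℕ} (hb : NPC.Poly b) (hx : NPC.Poly x)
    (hy : NPC.Poly y) :
    NPC.Poly (fun a => if b a = true then [(x a, y a)] else []) :=
  NPC.Poly.ite (NPC.Poly.decide_bool hb) (NPC.Poly.cons (NPC.Poly.pair hx hy) (NPC.Poly.const []))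
    (NPC.Poly.const [])

theorem p1_eGrid {i j : α → ℕ} (hn : NPC.Poly n) (hP : NPC.Poly P) (hi : NPC.Poly i)
    (hj : NPC.Poly j) : NPC.Poly (fun a => eGrid (layOf (n a) (P a)) (i a) (j a)) := by
  have h1 : NPC.Poly (fun _ : α => 1) := NPC.Poly.const _
  have hi1 : NPC.Poly (fun a => i a + 1) := NPC.Poly.add hi h1
  have hj1 : NPC.Poly (fun a => j a + 1) := NPC.Poly.add hj h1
  unfold eGrid
  exact NPC.Poly.ite (NPC.Poly.decide_bool (p1_prs hn hP hi hj))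
    (NPC.Poly.append (p1_edge (NPC.Poly.and (p1_prs hn hP hi1 hj)
      (NPC.Poly.not (p1_gap hn hP hi hj))) (p1_cg hn hi hj) (p1_cg hn hi1 hj))
      (p1_edge (p1_prs hn hP hi hj1) (p1_cg hn hi hj) (p1_cg hn hi hj1))) (NPC.Poly.const [])

theorem p1_ePat {β t : α → ℕ} (hn : NPC.Poly n) (hP : NPC.Poly P) (hβ : NPC.Poly β)
    (ht : NPC.Poly t) : NPC.Poly (fun a => ePat (layOf (n a) (P a)) (β a) (t a)) := by
  unfold ePat
  have hf : NPC.Poly (fun p : α × ((ℕ × ℕ) × (ℕ × ℕ)) => p.1) := NPC.Poly.fst NPC.Poly.id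
  have hs : NPC.Poly (fun p : α × ((ℕ × ℕ) × (ℕ × ℕ)) => p.2) := NPC.Poly.snd NPC.Poly.id
  refine NPC.Poly.ite (NPC.Poly.decide_bool (p1_pat hn hP ht hβ)) ?_ (NPC.Poly.const [])
  refine NPC.Poly.map (F := fun a (e : (ℕ × ℕ) × (ℕ × ℕ)) =>
    (cq (layOf (n a) (P a)) (β a) (t a) e.1.1 e.1.2,
      cq (layOf (n a) (P a)) (β a) (t a) e.2.1 e.2.2)) (NPC.Poly.const (pRow ++ pEd)) ?_
  exact NPC.Poly.pair
    (p1_cq (n := fun p : α × ((ℕ × ℕ) × (ℕ × ℕ)) => n p.1)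
      (P := fun p : α × ((ℕ × ℕ) × (ℕ × ℕ)) => P p.1) (hn.comp hf) (hP.comp hf) (hβ.comp hf)
      (ht.comp hf) (NPC.Poly.fst (NPC.Poly.fst hs)) (NPC.Poly.snd (NPC.Poly.fst hs)))
    (p1_cq (n := fun p : α × ((ℕ × ℕ) × (ℕ × ℕ)) => n p.1)
      (P := fun p : α × ((ℕ × ℕ) × (ℕ × ℕ)) => P p.1) (hn.comp hf) (hP.comp hf) (hβ.comp hf)
      (ht.comp hf) (NPC.Poly.fst (NPC.Poly.snd hs)) (NPC.Poly.snd (NPC.Poly.snd hs)))

theorem p1_eEnd {i : α → ℕ} (hn : NPC.Poly n) (hP : NPC.Poly P) (hi : NPC.Poly i) :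
    NPC.Poly (fun a => eEnd (layOf (n a) (P a)) (i a)) := by
  have h0 : NPC.Poly (fun _ : α => 0) := NPC.Poly.const _
  have h1 : NPC.Poly (fun _ : α => 1) := NPC.Poly.const _
  have h3 : NPC.Poly (fun _ : α => 3) := NPC.Poly.const _
  have h4 : NPC.Poly (fun _ : α => 4) := NPC.Poly.const _
  have h6 : NPC.Poly (fun _ : α => 6) := NPC.Poly.const _
  have h7 : NPC.Poly (fun _ : α => 7) := NPC.Poly.const _
  have hi1 : NPC.Poly (fun a => i a + 1) := NPC.Poly.add hi h1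
  have hm := NPC.Poly.mod hi h6
  have hT : NPC.Poly (fun a => 7 * (layOf (n a) (P a)).T) := NPC.Poly.mul h7 (p1_T hP)
  have hN : NPC.Poly (fun _ : α => ([] : List (ℕ × ℕ))) := NPC.Poly.const _
  unfold eEnd
  exact NPC.Poly.ite (NPC.Poly.decide_le hm h4)
    (NPC.Poly.append
      (NPC.Poly.cons (NPC.Poly.pair (p1_lo hn hP hi) (p1_cg hn hi h0))
        (NPC.Poly.cons (NPC.Poly.pair (p1_lo hn hP hi) (p1_cg hn hi1 h0))
          (NPC.Poly.cons (NPC.Poly.pair (p1_hi hn hP hi) (p1_cg hn hi hT))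
            (NPC.Poly.cons (NPC.Poly.pair (p1_hi hn hP hi) (p1_cg hn hi1 hT)) hN))))
      (NPC.Poly.ite (NPC.Poly.decide_le hm h3)
        (NPC.Poly.cons (NPC.Poly.pair (p1_lo hn hP hi) (p1_lo hn hP hi1))
          (NPC.Poly.cons (NPC.Poly.pair (p1_hi hn hP hi) (p1_hi hn hP hi1)) hN)) hN)) hN

theorem p1_ePen {t : α → ℕ} (hn : NPC.Poly n) (hP : NPC.Poly P) (ht : NPC.Poly t) :
    NPC.Poly (fun a => ePen (layOf (n a) (P a)) (t a)) := by
  have h2 : NPC.Poly (fun _ : α => 2) := NPC.Poly.const _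
  have h4 : NPC.Poly (fun _ : α => 4) := NPC.Poly.const _
  have h6 : NPC.Poly (fun _ : α => 6) := NPC.Poly.const _
  have h7 : NPC.Poly (fun _ : α => 7) := NPC.Poly.const _
  have hN : NPC.Poly (fun _ : α => ([] : List (ℕ × ℕ))) := NPC.Poly.const _
  unfold ePen
  exact NPC.Poly.ite (NPC.Poly.decide_eq (p1_k hP ht) h4)
    (NPC.Poly.cons (NPC.Poly.pair (p1_pe hn hP ht) (p1_cg hn (NPC.Poly.add (NPC.Poly.mul h6
      (p1_n (P := P) hn)) h2) (NPC.Poly.mul h7 ht))) hN) hN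

end

theorem p1_ok : St_p1 := by
  intro α inst n P hnU hP
  have hn : NPC.Poly n := hnU.toPoly
  have hnb : UPoly fun a => (layOf (n a) (P a)).nb :=
    ((UPoly.const 2).mul hnU).add (UPoly.const 1)
  have hT : UPoly fun a => (layOf (n a) (P a)).T := UPoly.length hP
  have hf : NPC.Poly (fun p : α × ℕ => p.1) := NPC.Poly.fst NPC.Poly.id
  have hs1 : NPC.Poly (fun p : α × ℕ => p.2) := NPC.Poly.snd NPC.Poly.id
  have hff : NPC.Poly (fun p : (α × ℕ) × ℕ => p.1.1) := NPC.Poly.fst (NPC.Poly.fst NPC.Poly.id)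
  have hfs : NPC.Poly (fun p : (α × ℕ) × ℕ => p.1.2) := NPC.Poly.snd (NPC.Poly.fst NPC.Poly.id)
  have hs : NPC.Poly (fun p : (α × ℕ) × ℕ => p.2) := NPC.Poly.snd NPC.Poly.id
  have hR : UPoly fun a => 7 * (layOf (n a) (P a)).T + 1 := ((UPoly.const 7).mul hT).add (UPoly.const 1)
  have hC : UPoly fun a => 6 * (layOf (n a) (P a)).nb + 1 :=
    ((UPoly.const 6).mul hnb).add (UPoly.const 1)
  have hC' : UPoly fun a => 6 * (layOf (n a) (P a)).nb := (UPoly.const 6).mul hnb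
  have h1 : NPC.Poly fun a => (List.range (7 * (layOf (n a) (P a)).T + 1)).flatMap fun j =>
      (List.range (6 * (layOf (n a) (P a)).nb + 1)).flatMap fun i =>
        eGrid (layOf (n a) (P a)) i j := by
    refine NPC.Poly.flatMap (F := fun a j =>
      (List.range (6 * (layOf (n a) (P a)).nb + 1)).flatMap fun i =>
        eGrid (layOf (n a) (P a)) i j) hR.range ?_
    refine NPC.Poly.flatMap (F := fun (p : α × ℕ) i => eGrid (layOf (n p.1) (P p.1)) i p.2)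
      (hC.range.comp hf) ?_
    exact p1_eGrid (n := fun p : (α × ℕ) × ℕ => n p.1.1) (P := fun p : (α × ℕ) × ℕ => P p.1.1)
      (hn.comp hff) (hP.comp hff) hs hfs
  have h2 : NPC.Poly fun a => (List.range (layOf (n a) (P a)).T).flatMap fun t =>
      (List.range (layOf (n a) (P a)).nb).flatMap fun β => ePat (layOf (n a) (P a)) β t := by
    refine NPC.Poly.flatMap (F := fun a t =>
      (List.range (layOf (n a) (P a)).nb).flatMap fun β => ePat (layOf (n a) (P a)) β t)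
      hT.range ?_
    refine NPC.Poly.flatMap (F := fun (p : α × ℕ) β => ePat (layOf (n p.1) (P p.1)) β p.2)
      (hnb.range.comp hf) ?_
    exact p1_ePat (n := fun p : (α × ℕ) × ℕ => n p.1.1) (P := fun p : (α × ℕ) × ℕ => P p.1.1)
      (hn.comp hff) (hP.comp hff) hs hfs
  have h3 : NPC.Poly fun a => (List.range (6 * (layOf (n a) (P a)).nb)).flatMap fun i =>
      eEnd (layOf (n a) (P a)) i := by
    refine NPC.Poly.flatMap (F := fun a i => eEnd (layOf (n a) (P a)) i) hC'.range ?_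
    exact p1_eEnd (n := fun p : α × ℕ => n p.1) (P := fun p : α × ℕ => P p.1)
      (hn.comp hf) (hP.comp hf) hs1
  have h4 : NPC.Poly fun a => (List.range (layOf (n a) (P a)).T).flatMap fun t =>
      ePen (layOf (n a) (P a)) t := by
    refine NPC.Poly.flatMap (F := fun a t => ePen (layOf (n a) (P a)) t) hT.range ?_
    exact p1_ePen (n := fun p : α × ℕ => n p.1) (P := fun p : α × ℕ => P p.1)
      (hn.comp hf) (hP.comp hf) hs1
  have hN : UPoly fun a => nV (layOf (n a) (P a)) := by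
    unfold nV nG
    exact (((hR.mul hC).add ((UPoly.const 24).mul (hT.mul hnb))).add
      ((UPoly.const 12).mul hnb)).add hT
  exact Pool.Agent.NPC.H670R2.poly_adjLists hN
    (NPC.Poly.append h1 (NPC.Poly.append (NPC.Poly.append h2 h3) h4))

end Pool.Agent.H670R4
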