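import Pool.Agent.H670R4.Sub
import Pool.Agent.H671R2.PolyAuto
import Pool.Agent.H670R2.SlPoly

/-!
# The levels are computable in polynomial time
-/

namespace Pool.Agent.H670R4

open Pool.Agent.NPC Pool.Agent.NPC.ER
open Pool.Agent.H670R2 (EC)

section

variable {α : Type} [TEnc α]

theorem pp_hlv {h : α → ℕ × List (ℕ × ℕ)} (hh : NPC.Poly h) : NPC.Poly (fun a => hlv (h a)) := by
  unfold hlv
  simp only [List.replicate]
  fun_prop

theorem pp_prog {n : α → ℕ} {hs : α → List (ℕ × List (ℕ × ℕ))} (hn : UPoly n)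
    (hh : NPC.Poly hs) : NPC.Poly (fun a => prog (n a) (hs a)) := by
  unfold prog
  have h1 : NPC.Poly (fun a => List.range (n a)) := NPC.Poly.range_uPoly hn
  have h2 : NPC.Poly (fun p : α × (ℕ × List (ℕ × ℕ)) => hlv p.2) := pp_hlv (by fun_prop)
  have h3 : NPC.Poly (fun a => (List.range (n a)).map fun i => (i, i, 0)) :=
    NPC.Poly.map (F := fun _ i => (i, i, 0)) h1 (by fun_prop)
  have h4 : NPC.Poly (fun a => (hs a).flatMap fun h => hlv h ++ [(0, 0, 1)]) :=
    NPC.Poly.flatMap (F := fun _ h => hlv h ++ [(0, 0, 1)]) hh (by fun_prop)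
  fun_prop

theorem pp_rev {p s x q : α → ℕ} (hp : NPC.Poly p) (hs : NPC.Poly s) (hx : NPC.Poly x)
    (hq : NPC.Poly q) : NPC.Poly (fun a => rev (p a) (s a) (x a) (q a)) := by
  unfold rev
  fun_prop

theorem pp_sW {v : α → ℕ} (hv : NPC.Poly v) (k : ℕ) : NPC.Poly (fun a => sW (v a) k) := by
  unfold sW
  fun_prop

theorem pp_hSlot {v : α → ℕ} (hv : NPC.Poly v) : NPC.Poly (fun a => hSlot (v a)) := by
  unfold hSlot rev sW
  fun_prop

theorem pp_hAdd {i j k : α → ℕ} (hi : NPC.Poly i) (hj : NPC.Poly j) (hk : NPC.Poly k) :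
    NPC.Poly (fun a => hAdd (i a) (j a) (k a)) := by
  unfold hAdd sW
  fun_prop

theorem pp_hPr {X i j : α → ℕ} (hX : NPC.Poly X) (hi : NPC.Poly i) (hj : NPC.Poly j) :
    NPC.Poly (fun a => hPr (X a) (i a) (j a)) := by
  unfold hPr rev sW
  fun_prop

theorem pp_hMul {X i j k : α → ℕ} (hX : NPC.Poly X) (hi : NPC.Poly i) (hj : NPC.Poly j)
    (hk : NPC.Poly k) : NPC.Poly (fun a => hMul (X a) (i a) (j a) (k a)) := by
  unfold hMul
  have h1 := pp_hPr hX hi hj
  have h2 : NPC.Poly (fun a => hPr (X a + 16) 4 0) :=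
    pp_hPr (by fun_prop) (NPC.Poly.const 4) (NPC.Poly.const 0)
  have h3 : NPC.Poly (fun a => hPr (X a + 32) 0 (k a)) :=
    pp_hPr (by fun_prop) (NPC.Poly.const 0) hk
  have h4 : NPC.Poly (fun a => hPr (X a + 48) 4 (k a)) :=
    pp_hPr (by fun_prop) (NPC.Poly.const 4) hk
  have h5 : NPC.Poly (fun a => hPr (X a + 64) (i a) 0) :=
    pp_hPr (by fun_prop) hi (NPC.Poly.const 0)
  have h6 : NPC.Poly (fun a => hPr (X a + 80) 0 (j a)) :=
    pp_hPr (by fun_prop) (NPC.Poly.const 0) hj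
  have h7 : NPC.Poly (fun a => (List.range 3).flatMap fun l => (List.range 4).map fun r =>
        (X a + 16 * l + r, X a + 48 + 16 * l + r)) := by
    have e : ∀ x : ℕ, ((List.range 3).flatMap fun l => (List.range 4).map fun r =>
        (x + 16 * l + r, x + 48 + 16 * l + r)) =
        [(x, x + 48), (x + 1, x + 49), (x + 2, x + 50), (x + 3, x + 51),
         (x + 16, x + 64), (x + 17, x + 65), (x + 18, x + 66), (x + 19, x + 67),
         (x + 32, x + 80), (x + 33, x + 81), (x + 34, x + 82), (x + 35, x + 83)] := by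
      intro x; simp [List.range_succ]
    simp only [e]
    fun_prop
  exact NPC.Poly.append h1 (NPC.Poly.append h2 (NPC.Poly.append h3 (NPC.Poly.append h4
    (NPC.Poly.append h5 (NPC.Poly.append h6 (NPC.Poly.cons (NPC.Poly.pair (NPC.Poly.const 0) h7)
      (NPC.Poly.const []))))))) 

/-- the holes of an equation given as a tuple -/
def pp_hEqT (X : ℕ) (q : ℕ × ℕ × ℕ × ℕ) : List (ℕ × List (ℕ × ℕ)) :=
  if q.1 = 0 then [hAdd (9 + q.2.1) 0 1]
  else if q.1 = 1 then [hAdd (9 + q.2.1) (9 + q.2.2.1) (9 + q.2.2.2)]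
  else hMul X (9 + q.2.1) (9 + q.2.2.1) (9 + q.2.2.2)

theorem pp_hEqT_tup (X : ℕ) (e : EC) : pp_hEqT X e.tup = hEq X e := by cases e <;> rfl

theorem pp_hEq {X : α → ℕ} {e : α → EC} (hX : NPC.Poly X) (he : NPC.Poly e) :
    NPC.Poly (fun a => hEq (X a) (e a)) := by
  have he' : NPC.Poly (fun a => (e a).tup) := Pool.Agent.NPC.H670R2.poly_ectup he
  have h : NPC.Poly (fun a => pp_hEqT (X a) (e a).tup) := by
    unfold pp_hEqT
    refine NPC.Poly.ite (NPC.Poly.decide_eq (by fun_prop) (NPC.Poly.const 0)) ?_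
      (NPC.Poly.ite (NPC.Poly.decide_eq (by fun_prop) (NPC.Poly.const 1)) ?_ ?_)
    · exact NPC.Poly.cons (pp_hAdd (by fun_prop) (NPC.Poly.const 0) (NPC.Poly.const 1))
        (NPC.Poly.const [])
    · exact NPC.Poly.cons (pp_hAdd (by fun_prop) (by fun_prop) (by fun_prop)) (NPC.Poly.const [])
    · exact pp_hMul hX (by fun_prop) (by fun_prop) (by fun_prop)
  exact h.congr fun a => pp_hEqT_tup _ _

end

theorem p2_ok : St_p2 := by
  intro α inst m es hm hes
  have hl : UPoly fun a => (es a).length := UPoly.length hes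
  have hnS : UPoly fun a => nS (m a) := by
    unfold nS
    exact (UPoly.const 9).add hm
  have hN : UPoly fun a => nW (m a) (es a) := by
    unfold nW
    exact ((UPoly.const 1).add ((UPoly.const 10).mul hnS)).add ((UPoly.const 96).mul hl)
  refine ⟨hN, pp_prog hN ?_⟩
  have hnS' := hnS.toPoly
  have h1 : NPC.Poly fun a => (List.range (nS (m a))).flatMap hSlot :=
    NPC.Poly.flatMap (F := fun _ v => hSlot v) (NPC.Poly.range_uPoly hnS) (pp_hSlot (by fun_prop))
  have h2 : NPC.Poly fun a => (es a).zipIdx.flatMap fun e =>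
      hEq (1 + 10 * nS (m a) + 96 * e.2) e.1 := by
    refine NPC.Poly.flatMap (F := fun a e => hEq (1 + 10 * nS (m a) + 96 * e.2) e.1)
      (NPC.Poly.zipIdx hes) (pp_hEq ?_ ?_)
    · have hnS2 : NPC.Poly (fun p : α × (EC × ℕ) => nS (m p.1)) :=
        hnS'.comp (NPC.Poly.fst NPC.Poly.id)
      fun_prop
    · fun_prop
  unfold hAll
  exact NPC.Poly.append h1 (NPC.Poly.append (NPC.Poly.const _)
    (NPC.Poly.cons (NPC.Poly.const _) h2))

end Pool.Agent.H670R4
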