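import Pool.Agent.H670R4.Sub

/-!
# Task PAT: rigidity of the patch
-/

namespace Pool.Agent.H670R4

open Pool.Agent.NPC Pool.Agent.NPC.ER Pool.Agent.H670R2
open scoped ComplexConjugate

theorem pat_d2 (A B : ℂ) (h : dist A B = 1) : (A.re - B.re) ^ 2 + (A.im - B.im) ^ 2 = 1 := by
  have h1 : ‖A - B‖ ^ 2 = 1 := by rw [← Complex.dist_eq, h]; norm_num
  rw [Complex.sq_norm, Complex.normSq_apply, Complex.sub_re, Complex.sub_im] at h1
  linarith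

theorem pat_sq0 (a b : ℝ) (h : a ^ 2 + b ^ 2 = 0) : a = 0 ∧ b = 0 := by
  have h1 : a ^ 2 = 0 := le_antisymm (by linarith [sq_nonneg b]) (sq_nonneg a)
  have h2 : b ^ 2 = 0 := le_antisymm (by linarith [sq_nonneg a]) (sq_nonneg b)
  exact ⟨pow_eq_zero_iff (two_ne_zero) |>.mp h1, pow_eq_zero_iff (two_ne_zero) |>.mp h2⟩

theorem pat_fl (A B C D : ℂ) (h1 : dist A B = 1) (h2 : dist A C = 1) (h3 : dist B C = 1)
    (h4 : dist A D = 1) (h5 : dist B D = 1) (hne : C ≠ D) : C + D = A + B := by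
  have e1 := pat_d2 A B h1
  have e2 := pat_d2 A C h2
  have e3 := pat_d2 B C h3
  have e4 := pat_d2 A D h4
  have e5 := pat_d2 B D h5
  have hp : (C.re - D.re) ^ 2 + (C.im - D.im) ^ 2 ≠ 0 := by
    intro h
    apply hne
    obtain ⟨h6, h7⟩ := pat_sq0 _ _ h
    exact Complex.ext (by linarith) (by linarith)
  obtain ⟨u1, hu1⟩ : ∃ u1, u1 = B.re - A.re := ⟨_, rfl⟩
  obtain ⟨u2, hu2⟩ : ∃ u2, u2 = B.im - A.im := ⟨_, rfl⟩
  obtain ⟨x1, hx1⟩ : ∃ x1, x1 = C.re - A.re := ⟨_, rfl⟩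
  obtain ⟨x2, hx2⟩ : ∃ x2, x2 = C.im - A.im := ⟨_, rfl⟩
  obtain ⟨y1, hy1⟩ : ∃ y1, y1 = D.re - A.re := ⟨_, rfl⟩
  obtain ⟨y2, hy2⟩ : ∃ y2, y2 = D.im - A.im := ⟨_, rfl⟩
  have f1 : u1 ^ 2 + u2 ^ 2 = 1 := by rw [hu1, hu2]; linarith
  have f2 : x1 ^ 2 + x2 ^ 2 = 1 := by rw [hx1, hx2]; linarith
  have f3 : y1 ^ 2 + y2 ^ 2 = 1 := by rw [hy1, hy2]; linarith
  have g1 : x1 * u1 + x2 * u2 = 1 / 2 := by
    rw [hx1, hx2, hu1, hu2]; linear_combination (1 / 2 : ℝ) * e1 + (1 / 2 : ℝ) * e2 - (1 / 2 : ℝ) * e3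
  have g2 : y1 * u1 + y2 * u2 = 1 / 2 := by
    rw [hy1, hy2, hu1, hu2]; linear_combination (1 / 2 : ℝ) * e1 + (1 / 2 : ℝ) * e4 - (1 / 2 : ℝ) * e5
  have hp' : (x1 - y1) ^ 2 + (x2 - y2) ^ 2 ≠ 0 := by
    intro h; apply hp; rw [hx1, hx2, hy1, hy2] at h; linarith
  have pu : (x1 - y1) * u1 + (x2 - y2) * u2 = 0 := by linarith
  have su : (x1 + y1 - u1) * u1 + (x2 + y2 - u2) * u2 = 0 := by
    linear_combination g1 + g2 - f1
  have ps : (x1 - y1) * (x1 + y1 - u1) + (x2 - y2) * (x2 + y2 - u2) = 0 := by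
    linear_combination f2 - f3 - pu
  have cr1 : ((x1 - y1) * (x2 + y2 - u2) - (x2 - y2) * (x1 + y1 - u1)) * u1 = 0 := by
    linear_combination (x2 + y2 - u2) * pu - (x2 - y2) * su
  have cr2 : ((x1 - y1) * (x2 + y2 - u2) - (x2 - y2) * (x1 + y1 - u1)) * u2 = 0 := by
    linear_combination (x1 - y1) * su - (x1 + y1 - u1) * pu
  have cr3 : (x1 - y1) * (x2 + y2 - u2) - (x2 - y2) * (x1 + y1 - u1) = 0 := by
    linear_combination u1 * cr1 + u2 * cr2 -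
      ((x1 - y1) * (x2 + y2 - u2) - (x2 - y2) * (x1 + y1 - u1)) * f1
  have hprod : ((x1 - y1) ^ 2 + (x2 - y2) ^ 2) *
      ((x1 + y1 - u1) ^ 2 + (x2 + y2 - u2) ^ 2) = 0 := by
    linear_combination ((x1 - y1) * (x1 + y1 - u1) + (x2 - y2) * (x2 + y2 - u2)) * ps +
      ((x1 - y1) * (x2 + y2 - u2) - (x2 - y2) * (x1 + y1 - u1)) * cr3
  have hs := (mul_eq_zero.mp hprod).resolve_left hp'
  obtain ⟨s1, s2⟩ := pat_sq0 _ _ hs
  rw [hx1, hy1, hu1] at s1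
  rw [hx2, hy2, hu2] at s2
  apply Complex.ext
  · rw [Complex.add_re, Complex.add_re]; linarith
  · rw [Complex.add_im, Complex.add_im]; linarith

/-- the integer part of the position -/
def pat_oi (p : ℕ × ℕ) : ℤ := (p.1 : ℤ) - (bs p.2 : ℤ)

theorem pat_ofs (p : ℕ × ℕ) : ofs p.1 p.2 = ((pat_oi p : ℤ) : ℂ) + (p.2 : ℂ) * om := by
  unfold ofs pat_oi
  push_cast
  ring

/-- adjacent vertices of the patch -/
def pat_adj (x y : ℕ × ℕ) : Bool := decide ((x, y) ∈ pAll) || decide ((y, x) ∈ pAll)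

/-- the combinatorial condition for one step -/
def pat_c (a b c d : ℕ × ℕ) : Bool :=
  pat_adj a b && (pat_adj a c && (pat_adj b c && (pat_adj a d && (pat_adj b d &&
    (decide (c.2 ≤ 8) && (decide (d.2 ≤ 8) && (decide (c.1 < sz c.2) && (decide (d.1 < sz d.2) &&
      (!decide (c = d) && (decide (pat_oi a + pat_oi b = pat_oi c + pat_oi d) &&
        decide (a.2 + b.2 = c.2 + d.2)))))))))))

theorem pat_step (f : ℕ → ℕ → ℂ)
    (hE : ∀ e ∈ pAll, dist (f e.1.1 e.1.2) (f e.2.1 e.2.2) = 1)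
    (hN : ∀ m r m' r', r ≤ 8 → r' ≤ 8 → m < sz r → m' < sz r' → (m, r) ≠ (m', r') →
      f m r ≠ f m' r') (a b c d : ℕ × ℕ) (h : pat_c a b c d = true)
    (ha : f a.1 a.2 = f 0 0 + (f 1 0 - f 0 0) * ofs a.1 a.2)
    (hb : f b.1 b.2 = f 0 0 + (f 1 0 - f 0 0) * ofs b.1 b.2)
    (hc : f c.1 c.2 = f 0 0 + (f 1 0 - f 0 0) * ofs c.1 c.2) :
    f d.1 d.2 = f 0 0 + (f 1 0 - f 0 0) * ofs d.1 d.2 := by
  simp only [pat_c, Bool.and_eq_true, decide_eq_true_eq, Bool.not_eq_true',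
    decide_eq_false_iff_not] at h
  obtain ⟨h1, h2, h3, h4, h5, h6, h7, h8, h9, h10, h11, h12⟩ := h
  have key : ∀ x y : ℕ × ℕ, pat_adj x y = true → dist (f x.1 x.2) (f y.1 y.2) = 1 := by
    intro x y h
    simp only [pat_adj, Bool.or_eq_true, decide_eq_true_eq] at h
    rcases h with h | h
    · exact hE _ h
    · rw [dist_comm]; exact hE _ h
  have hfl := pat_fl _ _ _ _ (key a b h1) (key a c h2) (key b c h3) (key a d h4) (key b d h5)
    (hN c.1 c.2 d.1 d.2 h6 h7 h8 h9 h10)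
  have e1 : ((pat_oi a : ℤ) : ℂ) + ((pat_oi b : ℤ) : ℂ) = ((pat_oi c : ℤ) : ℂ) +
      ((pat_oi d : ℤ) : ℂ) := by exact_mod_cast h11
  have e2 : (a.2 : ℂ) + (b.2 : ℂ) = (c.2 : ℂ) + (d.2 : ℂ) := by exact_mod_cast h12
  rw [pat_ofs] at ha hb hc ⊢
  linear_combination hfl + ha + hb - hc + (f 1 0 - f 0 0) * e1 + (f 1 0 - f 0 0) * om * e2

set_option maxRecDepth 20000 in
theorem pat_ok : St_pat := by
  intro f hE hN h01
  have st := pat_step f hE hN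
  have p00 : f 0 0 = f 0 0 + (f 1 0 - f 0 0) * ofs 0 0 := by simp [ofs, bs]
  have p10 : f 1 0 = f 0 0 + (f 1 0 - f 0 0) * ofs 1 0 := by simp [ofs, bs]
  have p01 : f 0 1 = f 0 0 + (f 1 0 - f 0 0) * ofs 0 1 := by rw [h01]; simp [ofs, bs]
  have p11 : f 1 1 = _ := st (1, 0) (0, 1) (0, 0) (1, 1) (by decide) p10 p01 p00
  have p20 : f 2 0 = _ := st (1, 0) (1, 1) (0, 1) (2, 0) (by decide) p10 p11 p01
  have p21 : f 2 1 = _ := st (2, 0) (1, 1) (1, 0) (2, 1) (by decide) p20 p11 p10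
  have p30 : f 3 0 = _ := st (2, 0) (2, 1) (1, 1) (3, 0) (by decide) p20 p21 p11
  have p12 : f 1 2 = _ := st (0, 1) (1, 1) (1, 0) (1, 2) (by decide) p01 p11 p10
  have p22 : f 2 2 = _ := st (1, 1) (2, 1) (2, 0) (2, 2) (by decide) p11 p21 p20
  have p02 : f 0 2 = _ := st (0, 1) (1, 2) (1, 1) (0, 2) (by decide) p01 p12 p11
  have p03 : f 0 3 = _ := st (0, 2) (1, 2) (0, 1) (0, 3) (by decide) p02 p12 p01
  have p13 : f 1 3 = _ := st (1, 2) (2, 2) (1, 1) (1, 3) (by decide) p12 p22 p11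
  have p23 : f 2 3 = _ := st (2, 2) (1, 3) (1, 2) (2, 3) (by decide) p22 p13 p12
  have p14 : f 1 4 = _ := st (0, 3) (1, 3) (1, 2) (1, 4) (by decide) p03 p13 p12
  have p24 : f 2 4 = _ := st (1, 3) (2, 3) (2, 2) (2, 4) (by decide) p13 p23 p22
  have p04 : f 0 4 = _ := st (0, 3) (1, 4) (1, 3) (0, 4) (by decide) p03 p14 p13
  have p15 : f 1 5 = _ := st (0, 4) (1, 4) (0, 3) (1, 5) (by decide) p04 p14 p03
  have p25 : f 2 5 = _ := st (1, 4) (2, 4) (1, 3) (2, 5) (by decide) p14 p24 p13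
  have p05 : f 0 5 = _ := st (0, 4) (1, 5) (1, 4) (0, 5) (by decide) p04 p15 p14
  have p06 : f 0 6 = _ := st (0, 5) (1, 5) (0, 4) (0, 6) (by decide) p05 p15 p04
  have p16 : f 1 6 = _ := st (1, 5) (2, 5) (1, 4) (1, 6) (by decide) p15 p25 p14
  have p26 : f 2 6 = _ := st (2, 5) (1, 6) (1, 5) (2, 6) (by decide) p25 p16 p15
  have p17 : f 1 7 = _ := st (0, 6) (1, 6) (1, 5) (1, 7) (by decide) p06 p16 p15
  have p27 : f 2 7 = _ := st (1, 6) (2, 6) (2, 5) (2, 7) (by decide) p16 p26 p25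
  have p07 : f 0 7 = _ := st (0, 6) (1, 7) (1, 6) (0, 7) (by decide) p06 p17 p16
  have p18 : f 1 8 = _ := st (0, 7) (1, 7) (0, 6) (1, 8) (by decide) p07 p17 p06
  have p28 : f 2 8 = _ := st (1, 7) (2, 7) (1, 6) (2, 8) (by decide) p17 p27 p16
  have p08 : f 0 8 = _ := st (0, 7) (1, 8) (1, 7) (0, 8) (by decide) p07 p18 p17
  have p38 : f 3 8 = _ := st (2, 7) (2, 8) (1, 7) (3, 8) (by decide) p27 p28 p17
  intro m r hr hm
  have hm4 : m < 4 := by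
    refine lt_of_lt_of_le hm ?_
    unfold sz
    split_ifs <;> omega
  interval_cases r <;> interval_cases m <;>
    first
      | assumption
      | (exfalso; revert hm; decide)

end Pool.Agent.H670R4
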