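import Pool.Agent.H670R4.Sub

/-!
# Completeness for programs
-/

namespace Pool.Agent.H670R4

open Pool.Agent.NPC Pool.Agent.NPC.ER Pool.Agent.H670R2
open scoped ComplexConjugate

namespace PC

/-- kind of hole as a function of `k` -/
def clk (k : ℕ) : ℕ := if k = 2 then 1 else if 3 ≤ k then 2 else 0

/-- sum of the differences of a list of levels -/
def D (u : ℕ → ℂ) (l : List (ℕ × ℕ × ℕ)) : ℂ := (l.map fun x => u x.2.1 - u x.1).sum

theorem D_nil (u : ℕ → ℂ) : D u [] = 0 := rfl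

theorem D_cons (u : ℕ → ℂ) (x : ℕ × ℕ × ℕ) (l : List (ℕ × ℕ × ℕ)) :
    D u (x :: l) = (u x.2.1 - u x.1) + D u l := by
  simp [D]

theorem D_append (u : ℕ → ℂ) (l l' : List (ℕ × ℕ × ℕ)) : D u (l ++ l') = D u l + D u l' := by
  simp [D]

theorem D_replicate (u : ℕ → ℂ) (m : ℕ) (x : ℕ × ℕ × ℕ) :
    D u (List.replicate m x) = m * (u x.2.1 - u x.1) := by
  simp [D, List.map_replicate, List.sum_replicate, nsmul_eq_mul]

theorem D_take_succ (u : ℕ → ℂ) (P : List (ℕ × ℕ × ℕ)) (t : ℕ) :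
    D u (P.take (t + 1)) = D u (P.take t) +
      (u (P.getD t (0, 0, 0)).2.1 - u (P.getD t (0, 0, 0)).1) := by
  by_cases ht : t < P.length
  · rw [List.take_succ_eq_append_getElem ht, D_append, D_cons, D_nil, add_zero,
      List.getD_eq_getElem _ _ ht]
  · rw [not_lt] at ht
    rw [List.take_of_length_le (by omega), List.take_of_length_le ht,
      List.getD_eq_default _ _ ht]
    simp

theorem sum_levels (u : ℕ → ℂ) (n : ℕ) (P : List (ℕ × ℕ × ℕ)) (t s : ℕ) (hs : s ≤ 7) :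
    ∑ r ∈ Finset.range (7 * t + s), (u ((layOf n P).b (r / 7)) - u ((layOf n P).a (r / 7))) =
      7 * D u (P.take t) + s * (u (P.getD t (0, 0, 0)).2.1 - u (P.getD t (0, 0, 0)).1) := by
  have h1 : ∀ t s : ℕ, s ≤ 7 →
      ∑ r ∈ Finset.range (7 * t + s), (u ((layOf n P).b (r / 7)) - u ((layOf n P).a (r / 7))) =
      ∑ r ∈ Finset.range (7 * t), (u ((layOf n P).b (r / 7)) - u ((layOf n P).a (r / 7))) +
        s * (u (P.getD t (0, 0, 0)).2.1 - u (P.getD t (0, 0, 0)).1) := by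
    intro t s hs
    induction s with
    | zero => simp
    | succ s ih =>
      rw [← add_assoc, Finset.sum_range_succ, ih (by omega)]
      have h2 : (7 * t + s) / 7 = t := by omega
      rw [h2]
      unfold layOf
      push_cast
      ring
  have h2 : ∀ t : ℕ, ∑ r ∈ Finset.range (7 * t),
      (u ((layOf n P).b (r / 7)) - u ((layOf n P).a (r / 7))) = 7 * D u (P.take t) := by
    intro t
    induction t with
    | zero => simp [D]
    | succ t ih =>
      rw [show 7 * (t + 1) = 7 * t + 7 by ring, h1 t 7 le_rfl, ih, D_take_succ]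
      push_cast
      ring
  rw [h1 t s hs, h2 t]

theorem Dw_eq (u : ℕ → ℂ) (n : ℕ) (P : List (ℕ × ℕ × ℕ)) (t s : ℕ) (hs : s ≤ 7) :
    Dw (layOf n P) u (7 * t + s) = ro * (7 * D u (P.take t) +
      s * (u (P.getD t (0, 0, 0)).2.1 - u (P.getD t (0, 0, 0)).1)) := by
  unfold Dw
  rw [sum_levels u n P t s hs]

theorem norm_ro : ‖ro‖ = 1 := by
  have h : ‖ro‖ ^ 2 = 1 := by
    rw [← Complex.normSq_eq_norm_sq, Complex.normSq_apply]
    unfold ro
    have h3 : √3 * √3 = 3 := Real.mul_self_sqrt (by norm_num)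
    nlinarith [h3]
  nlinarith [norm_nonneg ro, h]

theorem norm_D_le (u : ℕ → ℂ) (l : List (ℕ × ℕ)) :
    ‖D u (l.map fun x => (x.1, x.2, 2))‖ ≤ (l.map fun x => ‖u x.2 - u x.1‖).sum := by
  induction l with
  | nil => simp [D]
  | cons x l ih =>
    rw [List.map_cons, D_cons, List.map_cons, List.sum_cons]
    exact (norm_add_le _ _).trans (add_le_add_right ih _)

theorem D_dsum (u : ℕ → ℂ) (l : List (ℕ × ℕ)) :
    D u (l.map fun x => (x.1, x.2, 2)) = dsum u l := by
  unfold D dsum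
  rw [List.map_map]
  rfl

theorem sum_nonneg' (u : ℕ → ℂ) (l : List (ℕ × ℕ)) :
    0 ≤ (l.map fun x => ‖u x.2 - u x.1‖).sum := by
  apply List.sum_nonneg
  intro x hx
  obtain ⟨y, _, rfl⟩ := List.mem_map.mp hx
  exact norm_nonneg _

theorem CA_smul (x : ℝ) (z : ℂ) (hx : 0 ≤ x) (h0 : 0 ≤ z.re) (h1 : -z.re / 16 ≤ z.im)
    (h2 : z.im ≤ z.re / 4) : CA ((x : ℂ) * z) := by
  unfold CA
  rw [Complex.re_ofReal_mul, Complex.im_ofReal_mul]
  refine ⟨mul_nonneg hx h0, ?_, ?_⟩
  · have := mul_le_mul_of_nonneg_left h1 hx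
    linarith
  · have := mul_le_mul_of_nonneg_left h2 hx
    linarith

/-- what is needed for a level of a hole -/
structure HL (u : ℕ → ℂ) (h : ℕ × List (ℕ × ℕ)) (τ s : ℕ) : Prop where
  c0 : clk ((hlv h).getD τ (0, 0, 0)).2.2 ≠ 0
  w : clk ((hlv h).getD τ (0, 0, 0)).2.2 = 1 → ‖ro * (7 * D u ((hlv h).take τ) +
    s * (u ((hlv h).getD τ (0, 0, 0)).2.1 - u ((hlv h).getD τ (0, 0, 0)).1))‖ ≤ 1 / 2
  n : clk ((hlv h).getD τ (0, 0, 0)).2.2 = 2 → CA (ro * (7 * D u ((hlv h).take τ) +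
    s * (u ((hlv h).getD τ (0, 0, 0)).2.1 - u ((hlv h).getD τ (0, 0, 0)).1)))
  p : ((hlv h).getD τ (0, 0, 0)).2.2 = 4 → 1 ≤ (ro * (7 * D u ((hlv h).take τ))).re ∧
    (ro * (7 * D u ((hlv h).take τ))).re / 7 ≤ (ro * (7 * D u ((hlv h).take τ))).im

/-- the levels of a narrow hole -/
def nl (a b : ℕ) (p q : ℕ × ℕ) : List (ℕ × ℕ × ℕ) :=
  List.replicate a (p.1, p.2, 3) ++ ((q.1, q.2, 4) :: List.replicate b (q.1, q.2, 3))

theorem nl_length (a b : ℕ) (p q : ℕ × ℕ) : (nl a b p q).length = a + 1 + b := by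
  simp [nl]; omega

theorem nl_lt {a b : ℕ} {p q : ℕ × ℕ} {τ : ℕ} (h : τ < a) :
    (nl a b p q).getD τ (0, 0, 0) = (p.1, p.2, 3) ∧
      ∀ u, D u ((nl a b p q).take τ) = τ * (u p.2 - u p.1) := by
  constructor
  · rw [List.getD_eq_getElem _ _ (by rw [nl_length]; omega)]
    unfold nl
    rw [List.getElem_append_left (by simpa using h)]
    simp
  · intro u
    unfold nl
    rw [List.take_append_of_le_length (by simpa using h.le), List.take_replicate,
      min_eq_left h.le, D_replicate]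

theorem nl_eq (a b : ℕ) (p q : ℕ × ℕ) :
    (nl a b p q).getD a (0, 0, 0) = (q.1, q.2, 4) ∧
      ∀ u, D u ((nl a b p q).take a) = a * (u p.2 - u p.1) := by
  constructor
  · rw [List.getD_eq_getElem _ _ (by rw [nl_length]; omega)]
    unfold nl
    rw [List.getElem_append_right (by simp)]
    simp
  · intro u
    unfold nl
    rw [List.take_append_of_le_length (by simp), List.take_replicate, min_self, D_replicate]

theorem nl_gt {a b : ℕ} {p q : ℕ × ℕ} {τ : ℕ} (h : τ < b) :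
    (nl a b p q).getD (a + 1 + τ) (0, 0, 0) = (q.1, q.2, 3) ∧
      ∀ u, D u ((nl a b p q).take (a + 1 + τ)) =
        a * (u p.2 - u p.1) + (τ + 1) * (u q.2 - u q.1) := by
  constructor
  · rw [List.getD_eq_getElem _ _ (by rw [nl_length]; omega)]
    unfold nl
    rw [List.getElem_append_right (by simp; omega)]
    have h1 : a + 1 + τ - (List.replicate a (p.1, p.2, 3)).length = τ + 1 := by
      rw [List.length_replicate]; omega
    simp only [h1, List.getElem_cons_succ, List.getElem_replicate]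
  · intro u
    unfold nl
    rw [List.take_append, List.take_of_length_le (by simp; omega), D_append, D_replicate]
    have h1 : a + 1 + τ - (List.replicate a (p.1, p.2, 3)).length = τ + 1 := by
      rw [List.length_replicate]; omega
    rw [h1, List.take_succ_cons, D_cons, List.take_replicate, min_eq_left h.le, D_replicate]
    ring

/-- narrow holes -/
theorem narrow (u : ℕ → ℂ) (a b c : ℕ) (p q : ℕ × ℕ) (hc : c * (b + 1) = a)
    (hd : (u q.2 - u q.1) = -(c : ℂ) * (u p.2 - u p.1)) (hca : (1:ℝ) / (7 * a) ≤ (ro * (u p.2 - u p.1)).re)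
    (ha : 0 < a)
    (h1 : (ro * (u p.2 - u p.1)).re / 7 ≤ (ro * (u p.2 - u p.1)).im)
    (h2 : (ro * (u p.2 - u p.1)).im ≤ (ro * (u p.2 - u p.1)).re / 4) (τ s : ℕ)
    (hτ : τ < a + 1 + b) (hs : s ≤ 6) :
    clk ((nl a b p q).getD τ (0, 0, 0)).2.2 = 2 ∧
    CA (ro * (7 * D u ((nl a b p q).take τ) + s * (u ((nl a b p q).getD τ (0, 0, 0)).2.1 -
      u ((nl a b p q).getD τ (0, 0, 0)).1))) ∧
    (((nl a b p q).getD τ (0, 0, 0)).2.2 = 4 → 1 ≤ (ro * (7 * D u ((nl a b p q).take τ))).re ∧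
    (ro * (7 * D u ((nl a b p q).take τ))).re / 7 ≤ (ro * (7 * D u ((nl a b p q).take τ))).im) := by
  set z : ℂ := ro * (u p.2 - u p.1) with hz
  have ha' : (0:ℝ) < a := by exact_mod_cast ha
  have hz0 : 0 < z.re := lt_of_lt_of_le (by positivity) hca
  have hCA : ∀ x : ℝ, 0 ≤ x → CA ((x : ℂ) * z) := fun x hx =>
    CA_smul x z hx hz0.le (by linarith) h2
  rcases lt_trichotomy τ a with h | h | h
  · obtain ⟨e1, e2⟩ := nl_lt (b := b) (p := p) (q := q) h
    rw [e1, e2 u]
    refine ⟨by simp [clk], ?_, by simp⟩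
    have h3 := hCA (7 * τ + s) (by positivity)
    have h4 : (((7 * τ + s : ℝ)) : ℂ) * z = ro * (7 * ((τ : ℂ) * (u p.2 - u p.1)) +
        s * (u (p.1, p.2, 3).2.1 - u (p.1, p.2, 3).1)) := by
      rw [hz]; push_cast; ring
    rw [h4] at h3
    exact h3
  · subst h
    obtain ⟨e1, e2⟩ := nl_eq τ b p q
    rw [e1, e2 u]
    refine ⟨by simp [clk], ?_, ?_⟩
    · have hcs : (c:ℝ) * s ≤ 7 * τ := by
        have h5 : c * s ≤ 7 * τ := by
          rw [← hc]
          nlinarith
        exact_mod_cast h5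
      have h3 := hCA (7 * τ - c * s) (by linarith)
      have h4 : (((7 * τ - c * s : ℝ)) : ℂ) * z = ro * (7 * ((τ : ℂ) * (u p.2 - u p.1)) +
          s * (u (q.1, q.2, 4).2.1 - u (q.1, q.2, 4).1)) := by
        show _ = ro * (7 * ((τ : ℂ) * (u p.2 - u p.1)) + s * (u q.2 - u q.1))
        rw [hz, hd]; push_cast; ring
      rw [h4] at h3
      exact h3
    · intro _
      have h4 : ro * (7 * ((τ : ℂ) * (u p.2 - u p.1))) = ((7 * τ : ℝ) : ℂ) * z := by
        rw [hz]; push_cast; ring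
      rw [h4, Complex.re_ofReal_mul, Complex.im_ofReal_mul]
      constructor
      · rw [div_le_iff₀ (by positivity)] at hca
        linarith
      · have := mul_le_mul_of_nonneg_left h1 (by positivity : (0:ℝ) ≤ 7 * τ)
        linarith
  · obtain ⟨σ, rfl⟩ : ∃ σ, τ = a + 1 + σ := ⟨τ - a - 1, by omega⟩
    have hσ : σ < b := by omega
    obtain ⟨e1, e2⟩ := nl_gt (a := a) (p := p) (q := q) hσ
    rw [e1, e2 u]
    refine ⟨by simp [clk], ?_, by simp⟩
    have hcs : (c:ℝ) * (7 * (σ + 1) + s) ≤ 7 * a := by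
      have h5 : c * (7 * (σ + 1) + s) ≤ 7 * a := by
        rw [← hc]
        have h6 : 7 * (σ + 1) + s ≤ 7 * (b + 1) := by omega
        calc c * (7 * (σ + 1) + s) ≤ c * (7 * (b + 1)) := Nat.mul_le_mul_left c h6
          _ = 7 * (c * (b + 1)) := by ring
      exact_mod_cast h5
    have h3 := hCA (7 * a - c * (7 * (σ + 1) + s)) (by linarith)
    have h4 : (((7 * a - c * (7 * (σ + 1) + s) : ℝ)) : ℂ) * z =
        ro * (7 * ((a : ℂ) * (u p.2 - u p.1) + (σ + 1) * (u q.2 - u q.1)) +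
        s * (u (q.1, q.2, 3).2.1 - u (q.1, q.2, 3).1)) := by
      show _ = ro * (7 * ((a : ℂ) * (u p.2 - u p.1) + (σ + 1) * (u q.2 - u q.1)) +
        s * (u q.2 - u q.1))
      rw [hz, hd]; push_cast; ring
    rw [h4] at h3
    exact h3

theorem hlv_1 (h : ℕ × List (ℕ × ℕ)) (h0 : h.1 = 1) :
    hlv h = nl 8 3 (h.2.getD 0 (0, 0)) (h.2.getD 1 (0, 0)) := by
  unfold hlv nl
  rw [if_neg (by omega), if_pos h0]

theorem hlv_2 (h : ℕ × List (ℕ × ℕ)) (h0 : h.1 ≠ 0) (h1 : h.1 ≠ 1) :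
    hlv h = nl 12 11 (h.2.getD 0 (0, 0)) (h.2.getD 1 (0, 0)) := by
  unfold hlv nl
  rw [if_neg h0, if_neg h1]

theorem hole {u : ℕ → ℂ} {h : ℕ × List (ℕ × ℕ)} (hc : hC u h) {τ s : ℕ}
    (hτ : τ < (hlv h).length) (hs : s ≤ 6) : HL u h τ s := by
  by_cases h0 : h.1 = 0
  · unfold hC at hc
    rw [if_pos h0] at hc
    have hl : hlv h = h.2.map fun x => (x.1, x.2, 2) := by
      unfold hlv
      rw [if_pos h0]
    rw [hl, List.length_map] at hτ
    have hg : (hlv h).getD τ (0, 0, 0) = (h.2[τ].1, h.2[τ].2, 2) := by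
      rw [hl, List.getD_eq_getElem _ _ (by simpa using hτ), List.getElem_map]
    have ht : (hlv h).take τ = (h.2.take τ).map fun x => (x.1, x.2, 2) := by
      rw [hl, List.map_take]
    refine ⟨by rw [hg]; simp [clk], fun _ => ?_, fun h3 => ?_, fun h3 => ?_⟩
    · rw [hg, ht, norm_mul, norm_ro, one_mul]
      have h4 := norm_D_le u (h.2.take τ)
      have h5 : (h.2.map fun x => ‖u x.2 - u x.1‖).sum =
          ((h.2.take τ).map fun x => ‖u x.2 - u x.1‖).sum + (‖u h.2[τ].2 - u h.2[τ].1‖ +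
          ((h.2.drop (τ + 1)).map fun x => ‖u x.2 - u x.1‖).sum) := by
        conv_lhs => rw [← List.take_append_drop τ h.2, List.drop_eq_getElem_cons hτ]
        rw [List.map_append, List.sum_append, List.map_cons, List.sum_cons]
      have h6 := sum_nonneg' u (h.2.drop (τ + 1))
      have h7 := hc.2
      rw [h5] at h7
      have hs' : (s : ℝ) ≤ 7 := by exact_mod_cast (by omega : s ≤ 7)
      show ‖7 * D u ((h.2.take τ).map fun x => (x.1, x.2, 2)) +
        s * (u h.2[τ].2 - u h.2[τ].1)‖ ≤ 1 / 2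
      calc ‖7 * D u ((h.2.take τ).map fun x => (x.1, x.2, 2)) + s * (u h.2[τ].2 - u h.2[τ].1)‖
          ≤ ‖7 * D u ((h.2.take τ).map fun x => (x.1, x.2, 2))‖ + ‖(s : ℂ) * (u h.2[τ].2 - u h.2[τ].1)‖ :=
            norm_add_le _ _
        _ = 7 * ‖D u ((h.2.take τ).map fun x => (x.1, x.2, 2))‖ + s * ‖u h.2[τ].2 - u h.2[τ].1‖ := by
            rw [norm_mul, norm_mul, Complex.norm_natCast]
            norm_num
        _ ≤ 7 * ‖D u ((h.2.take τ).map fun x => (x.1, x.2, 2))‖ + 7 * ‖u h.2[τ].2 - u h.2[τ].1‖ := by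
            have := mul_le_mul_of_nonneg_right hs' (norm_nonneg (u h.2[τ].2 - u h.2[τ].1))
            linarith
        _ ≤ 1 / 2 := by linarith
    · rw [hg] at h3
      simp [clk] at h3
    · rw [hg] at h3
      simp at h3
  · unfold hC at hc
    rw [if_neg h0] at hc
    obtain ⟨hc1, hc2, hc3⟩ := hc
    by_cases h1 : h.1 = 1
    · rw [if_pos h1] at hc1
      have hl := hlv_1 h h1
      rw [hl, nl_length] at hτ
      unfold dif at hc1 hc2 hc3
      have hd : (u (h.2.getD 1 (0, 0)).2 - u (h.2.getD 1 (0, 0)).1) =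
          -((2 : ℕ) : ℂ) * (u (h.2.getD 0 (0, 0)).2 - u (h.2.getD 0 (0, 0)).1) := by
        push_cast
        linear_combination hc1.1
      have hca : (1:ℝ) / (7 * (8 : ℕ)) ≤
          (ro * (u (h.2.getD 0 (0, 0)).2 - u (h.2.getD 0 (0, 0)).1)).re := by
        refine le_trans (le_of_eq ?_) hc1.2
        norm_num
      obtain ⟨e1, e2, e3⟩ := narrow u 8 3 2 _ _ rfl hd hca (by norm_num) hc2 hc3 τ s hτ hs
      refine ⟨?_, ?_, ?_, ?_⟩
      · rw [hl, e1]; norm_num
      · intro h3; rw [hl, e1] at h3; norm_num at h3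
      · intro _; rw [hl]; exact e2
      · rw [hl]; exact e3
    · rw [if_neg h1] at hc1
      have hl := hlv_2 h h0 h1
      rw [hl, nl_length] at hτ
      unfold dif at hc1 hc2 hc3
      have hd : (u (h.2.getD 1 (0, 0)).2 - u (h.2.getD 1 (0, 0)).1) =
          -((1 : ℕ) : ℂ) * (u (h.2.getD 0 (0, 0)).2 - u (h.2.getD 0 (0, 0)).1) := by
        push_cast
        linear_combination hc1.1
      have hca : (1:ℝ) / (7 * (12 : ℕ)) ≤
          (ro * (u (h.2.getD 0 (0, 0)).2 - u (h.2.getD 0 (0, 0)).1)).re := by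
        refine le_trans (le_of_eq ?_) hc1.2
        norm_num
      obtain ⟨e1, e2, e3⟩ := narrow u 12 11 1 _ _ rfl hd hca (by norm_num) hc2 hc3 τ s hτ hs
      refine ⟨?_, ?_, ?_, ?_⟩
      · rw [hl, e1]; norm_num
      · intro h3; rw [hl, e1] at h3; norm_num at h3
      · intro _; rw [hl]; exact e2
      · rw [hl]; exact e3

/-- holes are closed -/
theorem hole_D {u : ℕ → ℂ} {h : ℕ × List (ℕ × ℕ)} (hc : hC u h) : D u (hlv h) = 0 := by
  by_cases h0 : h.1 = 0
  · unfold hC at hc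
    rw [if_pos h0] at hc
    have hl : hlv h = h.2.map fun x => (x.1, x.2, 2) := by
      unfold hlv
      rw [if_pos h0]
    rw [hl, D_dsum, hc.1]
  · unfold hC at hc
    rw [if_neg h0] at hc
    obtain ⟨hc1, _⟩ := hc
    by_cases h1 : h.1 = 1
    · rw [if_pos h1] at hc1
      rw [hlv_1 h h1]
      unfold nl
      rw [D_append, D_cons, D_replicate, D_replicate]
      unfold dif at hc1
      push_cast
      linear_combination 4 * hc1.1
    · rw [if_neg h1] at hc1
      rw [hlv_2 h h0 h1]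
      unfold nl
      rw [D_append, D_cons, D_replicate, D_replicate]
      unfold dif at hc1
      push_cast
      linear_combination 12 * hc1.1

/-- position of a level -/
def Loc (u : ℕ → ℂ) (hs : List (ℕ × List (ℕ × ℕ))) (P : List (ℕ × ℕ × ℕ)) (t : ℕ) : Prop :=
  clk (P.getD t (0, 0, 0)).2.2 = 0 ∨ ∃ h ∈ hs, ∃ (P₁ P₂ : List (ℕ × ℕ × ℕ)) (τ : ℕ),
    P = P₁ ++ (hlv h ++ (0, 0, 1) :: P₂) ∧ D u P₁ = 0 ∧ t = P₁.length + τ ∧ τ < (hlv h).length

/-- the levels after the start -/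
def R (hs : List (ℕ × List (ℕ × ℕ))) : List (ℕ × ℕ × ℕ) := hs.flatMap fun h => hlv h ++ [(0, 0, 1)]

theorem Loc.shift {u : ℕ → ℂ} {hs hs' : List (ℕ × List (ℕ × ℕ))} {P : List (ℕ × ℕ × ℕ)} {t : ℕ}
    (h : Loc u hs P t) (hss : ∀ x ∈ hs, x ∈ hs') (Q : List (ℕ × ℕ × ℕ)) (hQ : D u Q = 0) :
    Loc u hs' (Q ++ P) (Q.length + t) := by
  rcases h with h | ⟨h, hh, P₁, P₂, τ, e1, e2, e3, e4⟩
  · left
    rwa [List.getD_append_right _ _ _ _ (by omega), Nat.add_sub_cancel_left]
  · right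
    refine ⟨h, hss h hh, Q ++ P₁, P₂, τ, ?_, ?_, ?_, e4⟩
    · rw [e1, List.append_assoc]
    · rw [D_append, hQ, e2, add_zero]
    · rw [List.length_append, e3]; omega

theorem loc_R {u : ℕ → ℂ} (hs : List (ℕ × List (ℕ × ℕ))) (hc : ∀ h ∈ hs, hC u h) (t : ℕ) :
    Loc u hs (R hs) t := by
  induction hs generalizing t with
  | nil => left; simp [R, clk]
  | cons h hs ih =>
    have hR : R (h :: hs) = (hlv h ++ [(0, 0, 1)]) ++ R hs := by simp [R]
    have hh : hC u h := hc h List.mem_cons_self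
    rcases lt_trichotomy t (hlv h).length with h1 | h1 | h1
    · right
      refine ⟨h, List.mem_cons_self, [], R hs, t, ?_, D_nil u, by simp, h1⟩
      rw [hR]; simp
    · left
      rw [hR, List.append_assoc, List.getD_append_right _ _ _ _ (by omega), h1, Nat.sub_self]
      simp [clk]
    · obtain ⟨t', rfl⟩ : ∃ t', t = (hlv h ++ [(0, 0, 1)]).length + t' := by
        refine ⟨t - (hlv h).length - 1, ?_⟩
        rw [List.length_append, List.length_singleton]
        omega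
      rw [hR]
      refine Loc.shift (ih (fun x hx => hc x (List.mem_cons_of_mem _ hx)) t')
        (fun x hx => List.mem_cons_of_mem _ hx) _ ?_
      rw [D_append, hole_D hh, D_cons, D_nil]
      simp

/-- the start -/
def pre (n : ℕ) : List (ℕ × ℕ × ℕ) :=
  (0, 0, 1) :: (((List.range n).map fun i => (i, i, 0)) ++ [(0, 0, 1)])

theorem prog_eq (n : ℕ) (hs : List (ℕ × List (ℕ × ℕ))) : prog n hs = pre n ++ R hs := by
  unfold prog pre R
  simp

theorem pre_mem {n : ℕ} {x : ℕ × ℕ × ℕ} (h : x ∈ pre n) : x.1 = x.2.1 ∧ clk x.2.2 = 0 := by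
  unfold pre at h
  rw [List.mem_cons, List.mem_append, List.mem_map, List.mem_singleton] at h
  rcases h with rfl | ⟨i, _, rfl⟩ | rfl
  · simp [clk]
  · simp [clk]
  · simp [clk]

theorem D_pre (u : ℕ → ℂ) (n : ℕ) : D u (pre n) = 0 := by
  unfold D
  apply List.sum_eq_zero
  intro x hx
  obtain ⟨y, hy, rfl⟩ := List.mem_map.mp hx
  rw [(pre_mem hy).1, sub_self]

theorem loc_prog {u : ℕ → ℂ} (n : ℕ) (hs : List (ℕ × List (ℕ × ℕ))) (hc : ∀ h ∈ hs, hC u h)
    (t : ℕ) : Loc u hs (prog n hs) t := by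
  rw [prog_eq]
  by_cases ht : t < (pre n).length
  · left
    rw [List.getD_append _ _ _ _ ht, List.getD_eq_getElem _ _ ht]
    exact (pre_mem (List.getElem_mem ht)).2
  · obtain ⟨t', rfl⟩ : ∃ t', t = (pre n).length + t' := ⟨t - (pre n).length, by omega⟩
    exact Loc.shift (loc_R hs hc t') (fun x hx => hx) _ (D_pre u n)

end PC

open PC

theorem pC_ok : St_pC := by
  intro n hs hn hok u hu0 hun huc hc
  set P := prog n hs with hP
  have hcl : ∀ t, (layOf n P).cl t = clk (P.getD t (0, 0, 0)).2.2 := fun t => rfl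
  have hk : ∀ t, (layOf n P).k t = (P.getD t (0, 0, 0)).2.2 := fun t => rfl
  -- levels with a hole
  have key : ∀ t, clk (P.getD t (0, 0, 0)).2.2 ≠ 0 → ∃ h ∈ hs, ∃ τ, τ < (hlv h).length ∧
      P.getD t (0, 0, 0) = (hlv h).getD τ (0, 0, 0) ∧ D u (P.take t) = D u ((hlv h).take τ) ∧
      (clk (P.getD (t + 1) (0, 0, 0)).2.2 = 0 → D u (P.take (t + 1)) = 0) := by
    intro t ht
    rcases loc_prog n hs hc t with h | ⟨h, hh, P₁, P₂, τ, e1, e2, e3, e4⟩
    · exact absurd h ht
    · rw [← hP] at e1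
      refine ⟨h, hh, τ, e4, ?_, ?_, ?_⟩
      · rw [e1, e3, List.getD_append_right _ _ _ _ (by omega), Nat.add_sub_cancel_left,
          List.getD_append _ _ _ _ e4]
      · rw [e1, e3, List.take_length_add_append, D_append, e2, zero_add,
          List.take_append_of_le_length e4.le]
      · intro h5
        have h6 : τ + 1 = (hlv h).length := by
          by_contra hne
          have h7 : τ + 1 < (hlv h).length := by omega
          have h8 := (hole (hc h hh) h7 (s := 0) (by omega)).c0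
          apply h8
          rw [e1, e3, add_assoc, List.getD_append_right _ _ _ _ (by omega),
            Nat.add_sub_cancel_left, List.getD_append _ _ _ _ h7] at h5
          exact h5
        rw [e1, e3, add_assoc, List.take_length_add_append, D_append, e2, zero_add,
          List.take_append_of_le_length h6.le, h6, List.take_length, hole_D (hc h hh)]
  have hins : ∀ c j, (layOf n P).ins c j = true → clk (P.getD (j / 7) (0, 0, 0)).2.2 = c := by
    intro c j h
    unfold Lay.ins at h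
    split_ifs at h with h1
    · simp only [Bool.and_eq_true, decide_eq_true_eq] at h
      rw [← hcl]
      exact h.2.2
    · rw [← hcl]
      simpa using h
  refine ⟨hu0, hun, huc, ?_, ?_, ?_, ?_⟩
  · intro t h1 h2
    rw [hcl] at h1 h2
    obtain ⟨h, hh, τ, hτ, e1, e2, e3⟩ := key t h1
    have h3 := Dw_eq u n P (t + 1) 0 (by omega)
    rw [add_zero] at h3
    rw [h3, e3 h2]
    simp
  · intro j hj
    have h1 := hins 1 j hj
    obtain ⟨h, hh, τ, hτ, e1, e2, _⟩ := key (j / 7) (by rw [h1]; norm_num)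
    have h3 := Dw_eq u n P (j / 7) (j % 7) (by omega)
    rw [Nat.div_add_mod] at h3
    rw [h3, e1, e2]
    rw [e1] at h1
    exact (hole (hc h hh) hτ (s := j % 7) (by omega)).w h1
  · intro j hj
    have h1 := hins 2 j hj
    obtain ⟨h, hh, τ, hτ, e1, e2, _⟩ := key (j / 7) (by rw [h1]; norm_num)
    have h3 := Dw_eq u n P (j / 7) (j % 7) (by omega)
    rw [Nat.div_add_mod] at h3
    rw [h3, e1, e2]
    rw [e1] at h1
    exact (hole (hc h hh) hτ (s := j % 7) (by omega)).n h1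
  · intro t ht
    rw [hk] at ht
    obtain ⟨h, hh, τ, hτ, e1, e2, _⟩ := key t (by rw [ht]; simp [clk])
    have h3 := Dw_eq u n P t 0 (by omega)
    rw [add_zero] at h3
    rw [h3, e2]
    rw [e1] at ht
    have h4 := (hole (hc h hh) hτ (s := 0) (by omega)).p ht
    simpa using h4

end Pool.Agent.H670R4
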