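import Pool.Agent.H670R4.Sub

/-!
# Task PEND: there is no room for a pendant vertex at the wall
-/

namespace Pool.Agent.H670R4

open Pool.Agent.NPC Pool.Agent.NPC.ER Pool.Agent.H670R2
open scoped ComplexConjugate

theorem pend_sq (A : ℂ) (h : 1 ≤ ‖A‖) : 1 ≤ A.re ^ 2 + A.im ^ 2 := by
  have h1 : ‖A‖ ^ 2 = A.re ^ 2 + A.im ^ 2 := by
    rw [← Complex.normSq_eq_norm_sq, Complex.normSq_apply]; ring
  rw [← h1]
  exact one_le_pow₀ h

theorem pend_sq1 (A : ℂ) (h : ‖A‖ = 1) : A.re ^ 2 + A.im ^ 2 = 1 := by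
  have h1 : ‖A‖ ^ 2 = A.re ^ 2 + A.im ^ 2 := by
    rw [← Complex.normSq_eq_norm_sq, Complex.normSq_apply]; ring
  rw [← h1, h]; norm_num

theorem pend_s (w : ℂ) (hw : ‖w‖ = 1) (h1 : 1 ≤ ‖1 - ro * w‖) (h2 : 1 ≤ ‖1 + ro * w‖)
    (h3 : 0 < (ro * w).im) (h4 : 1 ≤ ‖w + ro‖) :
    (ro * w).re ^ 2 + (ro * w).im ^ 2 = 1 ∧ -(1 / 2) ≤ (ro * w).re ∧ (ro * w).re < 1 / 4 ∧
      √3 / 2 ≤ (ro * w).im := by
  have hs : √3 ^ 2 = 3 := Real.sq_sqrt (by norm_num)
  have hs0 : 0 < √3 := Real.sqrt_pos.2 (by norm_num)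
  have hw1 := pend_sq1 w hw
  have hr : (ro * w).re = -(1 / 7) * w.re - 4 * √3 / 7 * w.im := by
    simp [ro]
  have hi : (ro * w).im = -(1 / 7) * w.im + 4 * √3 / 7 * w.re := by
    simp [ro]
  have hn : (ro * w).re ^ 2 + (ro * w).im ^ 2 = 1 := by
    rw [hr, hi]
    have : (-(1 / 7) * w.re - 4 * √3 / 7 * w.im) ^ 2 + (-(1 / 7) * w.im + 4 * √3 / 7 * w.re) ^ 2 =
        (1 / 49 + 16 / 49 * √3 ^ 2) * (w.re ^ 2 + w.im ^ 2) := by ring
    rw [this, hs, hw1]; norm_num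
  have g1 := pend_sq _ h1
  have g2 := pend_sq _ h2
  have g4 := pend_sq _ h4
  simp only [Complex.sub_re, Complex.sub_im, Complex.add_re, Complex.add_im, Complex.one_re,
    Complex.one_im] at g1 g2 g4
  have hwr : w.re = -(1 / 7) * (ro * w).re + 4 * √3 / 7 * (ro * w).im := by
    rw [hr, hi]
    have : -(1 / 7) * (-(1 / 7) * w.re - 4 * √3 / 7 * w.im) +
        4 * √3 / 7 * (-(1 / 7) * w.im + 4 * √3 / 7 * w.re) = (1 / 49 + 16 / 49 * √3 ^ 2) * w.re := by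
      ring
    rw [this, hs]; ring
  have hwi : w.im = -(1 / 7) * (ro * w).im - 4 * √3 / 7 * (ro * w).re := by
    rw [hr, hi]
    have : -(1 / 7) * (-(1 / 7) * w.im + 4 * √3 / 7 * w.re) -
        4 * √3 / 7 * (-(1 / 7) * w.re - 4 * √3 / 7 * w.im) = (1 / 49 + 16 / 49 * √3 ^ 2) * w.im := by
      ring
    rw [this, hs]; ring
  have hror : ro.re = -(1 / 7) := rfl
  have hroi : ro.im = 4 * √3 / 7 := rfl
  set a := (ro * w).re with ha
  set b := (ro * w).im with hb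
  have k1 : a ≤ 1 / 2 := by nlinarith
  have k2 : -(1 / 2) ≤ a := by nlinarith
  have k3 : 3 / 4 ≤ b ^ 2 := by nlinarith
  have k4 : √3 / 2 ≤ b := by
    by_contra hneg
    push Not at hneg
    have : b ^ 2 < (√3 / 2) ^ 2 := by
      apply pow_lt_pow_left₀ hneg h3.le (by norm_num)
    nlinarith
  refine ⟨hn, k2, ?_, k4⟩
  -- `47 a + 8 √3 b ≤ 49 / 2`
  have k5 : 47 * a + 8 * √3 * b ≤ 49 / 2 := by
    rw [hror, hroi, hwr, hwi] at g4
    have h5 : (-(1 / 7) * a + 4 * √3 / 7 * b + -(1 / 7)) ^ 2 +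
        (-(1 / 7) * b - 4 * √3 / 7 * a + 4 * √3 / 7) ^ 2 =
        (1 / 49 + 16 / 49 * √3 ^ 2) * (a ^ 2 + b ^ 2) + (1 / 49 + 16 / 49 * √3 ^ 2) +
          2 * ((1 / 49 - 16 / 49 * √3 ^ 2) * a - 8 * √3 / 49 * b) := by ring
    rw [h5, hs, hn] at g4
    linarith
  have k6 : 12 ≤ 8 * √3 * b := by nlinarith
  by_contra hneg
  push Not at hneg
  have k7 : a ≤ 25 / 94 := by linarith
  have k8 : 9 / 10 ≤ b ^ 2 := by nlinarith
  have k9 : 8 * √3 * b ≤ 51 / 4 := by linarith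
  have k10 : (8 * √3 * b) ^ 2 ≤ (51 / 4) ^ 2 := pow_le_pow_left₀ (by positivity) k9 2
  have k11 : (8 * √3 * b) ^ 2 = 64 * √3 ^ 2 * b ^ 2 := by ring
  rw [k11, hs] at k10
  nlinarith

theorem pend_half (x y : ℝ) (h : x ^ 2 + y ^ 2 = 1) (h1 : 1 ≤ (x - 1) ^ 2 + (y - 0) ^ 2)
    (h2 : 1 ≤ (x + 1) ^ 2 + (y + 0) ^ 2) : x ≤ 1 / 2 ∧ -(1 / 2) ≤ x ∧ 3 / 4 ≤ y ^ 2 := by
  have e1 : (x - 1) ^ 2 + (y - 0) ^ 2 = (x ^ 2 + y ^ 2) + 1 - 2 * x := by ring
  have e2 : (x + 1) ^ 2 + (y + 0) ^ 2 = (x ^ 2 + y ^ 2) + 1 + 2 * x := by ring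
  have h3 : x ≤ 1 / 2 := by linarith
  have h4 : -(1 / 2) ≤ x := by linarith
  refine ⟨h3, h4, ?_⟩
  have h5 : x ^ 2 ≤ 1 / 4 := by
    have := mul_nonneg (sub_nonneg.2 h3) (by linarith : (0 : ℝ) ≤ 1 / 2 + x)
    have e3 : (1 / 2 - x) * (1 / 2 + x) = 1 / 4 - x ^ 2 := by ring
    linarith
  linarith

theorem pend_sqrt (y : ℝ) (h : 3 / 4 ≤ y ^ 2) (hy : 0 < y) : √3 / 2 ≤ y := by
  have hs : √3 ^ 2 = 3 := Real.sq_sqrt (by norm_num)
  by_contra hneg
  push Not at hneg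
  have h1 : y ^ 2 < (√3 / 2) ^ 2 := pow_lt_pow_left₀ hneg hy.le (by norm_num)
  have h2 : (√3 / 2) ^ 2 = 3 / 4 := by rw [div_pow, hs]; norm_num
  linarith

theorem pend_mul (y d : ℝ) (h1 : √3 / 2 ≤ y) (h2 : √3 / 2 ≤ d) : 3 / 4 ≤ y * d := by
  have hs : √3 * √3 = 3 := Real.mul_self_sqrt (by norm_num)
  have hs0 : 0 < √3 := Real.sqrt_pos.2 (by norm_num)
  have h3 := mul_le_mul h1 h2 (by positivity) (by linarith)
  have h4 : √3 / 2 * (√3 / 2) = 3 / 4 := by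
    rw [div_mul_div_comm, hs]; norm_num
  linarith

/-- `|x| ≤ 1/2`, `-1/2 ≤ d < 1/4`, `x d ≥ 1/4` -/
theorem pend_eq (x d : ℝ) (x1 : x ≤ 1 / 2) (x2 : -(1 / 2) ≤ x) (d2 : -(1 / 2) ≤ d)
    (d3 : d < 1 / 4) (h : 1 / 4 ≤ x * d) : x = -(1 / 2) ∧ d = -(1 / 2) := by
  have e4 : d < 0 := by
    by_contra hneg
    push Not at hneg
    have := mul_nonneg hneg (sub_nonneg.2 x1)
    have e : d * (1 / 2 - x) = d / 2 - x * d := by ring
    linarith
  have e5 : x < 0 := by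
    by_contra hneg
    push Not at hneg
    have := mul_nonneg hneg (by linarith : (0 : ℝ) ≤ -d)
    have e : x * -d = -(x * d) := by ring
    linarith
  constructor
  · have := mul_nonneg (by linarith : (0 : ℝ) ≤ -x) (by linarith : (0 : ℝ) ≤ d + 1 / 2)
    have e : -x * (d + 1 / 2) = -(x * d) - x / 2 := by ring
    linarith
  · have := mul_nonneg (by linarith : (0 : ℝ) ≤ -d) (by linarith : (0 : ℝ) ≤ x + 1 / 2)
    have e : -d * (x + 1 / 2) = -(x * d) - d / 2 := by ring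
    linarith

theorem pend_core (wa wb wd z : ℂ) (hz : ‖z‖ = 1)
    (hw : ∀ w ∈ [wa, wb, wd], ‖w‖ = 1 ∧ 1 ≤ ‖1 - ro * w‖ ∧ 1 ≤ ‖1 + ro * w‖ ∧
      0 < (ro * w).im ∧ 1 ≤ ‖w + ro‖)
    (h1 : 1 ≤ ‖z - 1‖) (h2 : 1 ≤ ‖z - ro * wa‖) (h3 : 1 ≤ ‖z - (1 + ro * wb)‖)
    (h4 : 1 ≤ ‖z + ro * wd‖) (h5 : 1 ≤ ‖z + 1‖) (h6 : 1 ≤ ‖z + 1 + ro * wd‖) : False := by
  have A := hw wa (by simp)
  have B := hw wb (by simp)
  have D := hw wd (by simp)
  obtain ⟨a1, a2, a3, a4⟩ := pend_s wa A.1 A.2.1 A.2.2.1 A.2.2.2.1 A.2.2.2.2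
  obtain ⟨b1, b2, b3, b4⟩ := pend_s wb B.1 B.2.1 B.2.2.1 B.2.2.2.1 B.2.2.2.2
  obtain ⟨d1, d2, d3, d4⟩ := pend_s wd D.1 D.2.1 D.2.2.1 D.2.2.2.1 D.2.2.2.2
  clear A B D hw
  have z0 := pend_sq1 z hz
  have g1 := pend_sq _ h1
  have g2 := pend_sq _ h2
  have g3 := pend_sq _ h3
  have g4 := pend_sq _ h4
  have g5 := pend_sq _ h5
  have g6 := pend_sq _ h6
  clear h1 h2 h3 h4 h5 h6 hz
  simp only [Complex.sub_re, Complex.sub_im, Complex.add_re, Complex.add_im, Complex.one_re,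
    Complex.one_im] at g1 g2 g3 g4 g5 g6
  generalize (ro * wa).re = a at *
  generalize (ro * wa).im = a' at *
  generalize (ro * wb).re = b at *
  generalize (ro * wb).im = b' at *
  generalize (ro * wd).re = d at *
  generalize (ro * wd).im = d' at *
  generalize z.re = x at *
  generalize z.im = y at *
  obtain ⟨x1, x2, y2⟩ := pend_half x y z0 g1 g5
  rcases lt_trichotomy y 0 with hy | hy | hy
  · -- lower half plane
    have y3 : √3 / 2 ≤ -y := pend_sqrt (-y) (by rw [neg_sq]; exact y2) (by linarith)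
    have e1 : 3 / 4 ≤ -y * d' := pend_mul _ _ y3 d4
    have e2 : -(1 / 2) ≤ x * d + y * d' := by
      have e : (x + d) ^ 2 + (y + d') ^ 2 = (x ^ 2 + y ^ 2) + (d ^ 2 + d' ^ 2) +
        2 * (x * d + y * d') := by ring
      rw [e, z0, d1] at g4
      linarith
    obtain ⟨e6, e7⟩ := pend_eq x d x1 x2 d2 d3 (by linarith)
    have e8 : y ^ 2 = 3 / 4 := by rw [e6] at z0; linarith
    have e9 : d' ^ 2 = 3 / 4 := by rw [e7] at d1; linarith
    have hs0 : 0 < √3 := Real.sqrt_pos.2 (by norm_num)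
    have e10 : y + d' = 0 := by
      have h : (d' - y) * (y + d') = 0 := by
        have : (d' - y) * (y + d') = d' ^ 2 - y ^ 2 := by ring
        rw [this, e8, e9]; norm_num
      rcases mul_eq_zero.1 h with h | h
      · linarith
      · exact h
    have e11 : x + 1 + d = 0 := by linarith
    have e12 : y + 0 + d' = 0 := by linarith
    rw [e11, e12] at g6
    norm_num at g6
  · rw [hy] at y2; norm_num at y2
  · have y3 : √3 / 2 ≤ y := pend_sqrt y y2 hy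
    have e1 : 3 / 4 ≤ y * a' := pend_mul _ _ y3 a4
    have e2 : x * a + y * a' ≤ 1 / 2 := by
      have e : (x - a) ^ 2 + (y - a') ^ 2 = (x ^ 2 + y ^ 2) + (a ^ 2 + a' ^ 2) -
        2 * (x * a + y * a') := by ring
      rw [e, z0, a1] at g2
      linarith
    obtain ⟨e6, e7⟩ := pend_eq (-x) a (by linarith) (by linarith) a2 a3
      (by have : -x * a = -(x * a) := by ring
          linarith)
    have e6' : x = 1 / 2 := by linarith
    have e10 : 3 / 4 ≤ y * b' := pend_mul _ _ y3 b4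
    have e : (x - (1 + b)) ^ 2 + (y - (0 + b')) ^ 2 = (x ^ 2 + y ^ 2) + (b ^ 2 + b' ^ 2) + 1 -
      2 * x + 2 * b - 2 * x * b - 2 * (y * b') := by ring
    rw [e, z0, b1, e6'] at g3
    linarith

theorem pend_ok : St_pend := by
  intro e wa wb wd z he hz hw h1 h2 h3 h4 h5 h6
  have he1 := pend_sq1 e he
  have hc : conj e * e = 1 := by
    rw [mul_comm, Complex.mul_conj, Complex.normSq_apply]
    rw [show e.re * e.re + e.im * e.im = 1 by nlinarith]
    norm_num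
  have hn : ‖conj e‖ = 1 := by rw [Complex.norm_conj, he]
  have key : ∀ A : ℂ, ‖conj e * A‖ = ‖A‖ := by
    intro A; rw [norm_mul, hn, one_mul]
  refine pend_core (conj e * wa) (conj e * wb) (conj e * wd) (conj e * z) (by rw [key, hz]) ?_
    ?_ ?_ ?_ ?_ ?_ ?_
  · intro w hw'
    have : ∃ v ∈ [wa, wb, wd], w = conj e * v := by
      simp only [List.mem_cons, List.not_mem_nil, or_false] at hw'
      rcases hw' with h | h | h
      · exact ⟨wa, by simp, h⟩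
      · exact ⟨wb, by simp, h⟩
      · exact ⟨wd, by simp, h⟩
    obtain ⟨v, hv, rfl⟩ := this
    obtain ⟨v1, v2, v3, v4, v5, v6, v7⟩ := hw v hv
    refine ⟨by rw [key, v1], ?_, ?_, ?_, ?_⟩
    · rw [show 1 - ro * (conj e * v) = conj e * (e - ro * v) by rw [mul_sub, hc]; ring, key]
      exact v2
    · rw [show 1 + ro * (conj e * v) = conj e * (e + ro * v) by rw [mul_add, hc]; ring, key]
      exact v3
    · rw [show ro * (conj e * v) = conj e * (ro * v) by ring]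
      have : (conj e * (ro * v)).im = cr e (ro * v) := by
        rw [Complex.mul_im, Complex.conj_re, Complex.conj_im, cr]; ring
      rw [this]; exact v4
    · rw [show conj e * v + ro = conj e * (v + ro * e) by
        rw [mul_add, show conj e * (ro * e) = ro * (conj e * e) by ring, hc]; ring, key]
      exact v6
  · rw [show conj e * z - 1 = conj e * (z - e) by rw [mul_sub, hc], key]; exact h1
  · rw [show conj e * z - ro * (conj e * wa) = conj e * (z - ro * wa) by ring, key]; exact h2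
  · rw [show conj e * z - (1 + ro * (conj e * wb)) = conj e * (z - (e + ro * wb)) by
      rw [mul_sub, mul_add, hc]; ring, key]; exact h3
  · rw [show conj e * z + ro * (conj e * wd) = conj e * (z + ro * wd) by ring, key]; exact h4
  · rw [show conj e * z + 1 = conj e * (z + e) by rw [mul_add, hc], key]; exact h5
  · rw [show conj e * z + 1 + ro * (conj e * wd) = conj e * (z + e + ro * wd) by
      rw [mul_add, mul_add, hc]; ring, key]; exact h6

end Pool.Agent.H670R4
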