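import Pool.Agent.H670R4.Sub

open scoped ComplexConjugate

namespace Pool.Agent.H670R4

theorem prd_cb (z : ℂ) (h1 : ‖z‖ = 1) (h2 : 0 < z.re) (h3 : |z.im| ≤ 1 / 27) : CB z := by
  have h4 : z.re ^ 2 + z.im ^ 2 = 1 := by
    have := Complex.sq_norm z
    rw [h1, Complex.normSq_apply] at this
    nlinarith
  have h5 : z.im ^ 2 ≤ (1 / 27) ^ 2 := by
    rw [← sq_abs]
    exact pow_le_pow_left₀ (abs_nonneg _) h3 2
  obtain ⟨h6, h7⟩ := abs_le.1 h3
  have h8 : 9 / 10 ≤ z.re := by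
    by_contra h
    push Not at h
    nlinarith
  refine ⟨h2.le, ?_, ?_⟩ <;> linarith

theorem prd_ok : St_prd := by
  intro hrev hn y z hy hy' hz hz'
  have nA : ‖uv (aA y)‖ = 1 := hn.un _ (by unfold aA; linarith) (by unfold aA; linarith)
  have nB : ‖uv (aB z)‖ = 1 := hn.un _ (by unfold aB; linarith) (by unfold aB; linarith)
  have rA : 0 < (uv (aA y)).re := by show (0 : ℝ) < 1 - aA y; unfold aA; linarith
  have rB : 0 < (uv (aB z)).re := by show (0 : ℝ) < 1 - aB z; unfold aB; linarith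
  obtain ⟨iA, iA'⟩ := hn.A y (by linarith) hy'
  obtain ⟨iB, iB'⟩ := hn.B z (by linarith) hz'
  have jA := hn.A' y hy hy'
  have jB := hn.B' z hz hz'
  obtain ⟨S1, S2, S3⟩ := hn.S y z hy hy' hz hz'
  obtain ⟨D1, D2, D3⟩ := hn.D y z hy hy' hz hz'
  set A := uv (aA y) with hA
  set B := uv (aB z) with hB
  have nS : ‖B * A‖ = 1 := by rw [norm_mul, nA, nB, mul_one]
  have nD : ‖B * conj A‖ = 1 := by rw [norm_mul, Complex.norm_conj, nA, nB, mul_one]
  obtain ⟨q1, r1, y1, H1⟩ := hrev B A nB nA rB (by linarith) jB rA iA iA'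
  obtain ⟨q2, r2, y2, H2⟩ := hrev A B nA nB rA (by linarith) jA rB iB iB'
  obtain ⟨q3, r3, y3, H3⟩ := hrev 1 (B * conj A) (by simp) nD (by simp) (by simp)
    (by norm_num) D3 D1 D2
  obtain ⟨q4, r4, y4, H4⟩ := hrev 1 (B * A) (by simp) nS (by simp) (by simp)
    (by norm_num) S3 S1 S2
  have cS : CB (B * A) := prd_cb _ nS S3 (abs_le.2 ⟨by linarith, S2⟩)
  have cD : CB (B * conj A) := prd_cb _ nD D3 (abs_le.2 ⟨by linarith, D2⟩)
  have cS' : CB (conj (B * A)) := prd_cb _ (by rw [Complex.norm_conj, nS])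
    (by rw [Complex.conj_re]; exact S3) (by rw [Complex.conj_im, abs_neg, abs_le]; constructor <;> linarith)
  have cD' : CB (conj (B * conj A)) := prd_cb _ (by rw [Complex.norm_conj, nD])
    (by rw [Complex.conj_re]; exact D3) (by rw [Complex.conj_im, abs_neg, abs_le]; constructor <;> linarith)
  have nS' : ‖conj (B * A)‖ = 1 := by rw [Complex.norm_conj, nS]
  have nD' : ‖conj (B * conj A)‖ = 1 := by rw [Complex.norm_conj, nD]
  rw [mul_comm A B, show A * conj B = conj (B * conj A) by simp [mul_comm]] at H2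
  rw [one_mul, one_mul] at H3 H4
  refine ⟨fun k => match k with
    | 0 => B * A
    | 1 => conj (B * A)
    | 2 => B * conj A
    | 3 => conj (B * conj A)
    | 4 => q1
    | 5 => r1
    | 6 => y1
    | 7 => q2
    | 8 => r2
    | 9 => y2
    | 10 => q3
    | 11 => r3
    | 12 => y3
    | 13 => q4
    | 14 => r4
    | 15 => y4
    | _ => 0, rfl, rfl, rfl, rfl, ?_, H1, H2, H3, H4⟩
  intro k hk
  interval_cases k
  · exact ⟨nS, cS⟩
  · exact ⟨nS', cS'⟩
  · exact ⟨nD, cD⟩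
  · exact ⟨nD', cD'⟩
  · exact H1.nq
  · exact H1.nr
  · exact H1.ny
  · exact H2.nq
  · exact H2.nr
  · exact H2.ny
  · exact H3.nq
  · exact H3.nr
  · exact H3.ny
  · exact H4.nq
  · exact H4.nr
  · exact H4.ny

end Pool.Agent.H670R4
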