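import Pool.Agent.H670R4.Sub

/-!
# Soundness of programs
-/

namespace Pool.Agent.H670R4

open Pool.Agent.NPC Pool.Agent.NPC.ER Pool.Agent.H670R2
open scoped ComplexConjugate

theorem pS_ro_ne : ro ≠ 0 := by
  intro h
  have h1 := congrArg Complex.re h
  simp [ro] at h1

theorem pS_step1 (Λ : Lay) (u : ℕ → ℂ) (t : ℕ) :
    Dw Λ u (7 * t + 1) = Dw Λ u (7 * t) + ro * (u (Λ.b t) - u (Λ.a t)) := by
  unfold Dw
  rw [Finset.sum_range_succ, mul_add]
  have h0 : (7 * t) / 7 = t := by omega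
  rw [h0]

theorem pS_step (Λ : Lay) (u : ℕ → ℂ) (t : ℕ) :
    Dw Λ u (7 * (t + 1)) = Dw Λ u (7 * t) + 7 * ro * (u (Λ.b t) - u (Λ.a t)) := by
  have e : 7 * (t + 1) = 7 * t + 1 + 1 + 1 + 1 + 1 + 1 + 1 := by omega
  unfold Dw
  rw [e]
  simp only [Finset.sum_range_succ]
  have h0 : (7 * t) / 7 = t := by omega
  have h1 : (7 * t + 1) / 7 = t := by omega
  have h2 : (7 * t + 1 + 1) / 7 = t := by omega
  have h3 : (7 * t + 1 + 1 + 1) / 7 = t := by omega
  have h4 : (7 * t + 1 + 1 + 1 + 1) / 7 = t := by omega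
  have h5 : (7 * t + 1 + 1 + 1 + 1 + 1) / 7 = t := by omega
  have h6 : (7 * t + 1 + 1 + 1 + 1 + 1 + 1) / 7 = t := by omega
  rw [h0, h1, h2, h3, h4, h5, h6]
  ring

/-- the sum of the differences of levels -/
def pS_S (u : ℕ → ℂ) (L : List (ℕ × ℕ × ℕ)) : ℂ := (L.map fun x => u x.2.1 - u x.1).sum

theorem pS_S_append (u : ℕ → ℂ) (A B : List (ℕ × ℕ × ℕ)) :
    pS_S u (A ++ B) = pS_S u A + pS_S u B := by
  simp [pS_S]

theorem pS_get (A B : List (ℕ × ℕ × ℕ)) (x d : ℕ × ℕ × ℕ) :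
    (A ++ x :: B).getD A.length d = x := by
  simp

theorem pS_a (n : ℕ) (A B : List (ℕ × ℕ × ℕ)) (x : ℕ × ℕ × ℕ) :
    (layOf n (A ++ x :: B)).a A.length = x.1 := by
  simp only [layOf, pS_get]

theorem pS_b (n : ℕ) (A B : List (ℕ × ℕ × ℕ)) (x : ℕ × ℕ × ℕ) :
    (layOf n (A ++ x :: B)).b A.length = x.2.1 := by
  simp only [layOf, pS_get]

theorem pS_k (n : ℕ) (A B : List (ℕ × ℕ × ℕ)) (x : ℕ × ℕ × ℕ) :
    (layOf n (A ++ x :: B)).k A.length = x.2.2 := by
  simp only [layOf, pS_get]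

theorem pS_Dw (n : ℕ) (u : ℕ → ℂ) (A : List (ℕ × ℕ × ℕ)) :
    ∀ B, Dw (layOf n (A ++ B)) u (7 * A.length) = 7 * ro * pS_S u A := by
  induction A using List.reverseRecOn with
  | nil => intro B; simp [Dw, pS_S]
  | append_singleton A x ih =>
      intro B
      have h : A ++ [x] ++ B = A ++ (x :: B) := by simp
      rw [h, List.length_append, List.length_singleton, pS_step, ih (x :: B), pS_S_append,
        pS_a, pS_b]
      simp only [pS_S, List.map_cons, List.map_nil, List.sum_cons, List.sum_nil]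
      ring

theorem pS_prog (n : ℕ) (hs1 hs2 : List (ℕ × List (ℕ × ℕ))) :
    prog n (hs1 ++ hs2) = prog n hs1 ++ hs2.flatMap fun h => hlv h ++ [(0, 0, 1)] := by
  simp [prog]

/-- the levels of a hole end with a level in the hole -/
theorem pS_last (n : ℕ) (h : ℕ × List (ℕ × ℕ)) (hh : hOk n h) :
    ∃ (L : List (ℕ × ℕ × ℕ)) (x : ℕ × ℕ × ℕ), hlv h = L ++ [x] ∧ 2 ≤ x.2.2 := by
  by_cases h0 : h.1 = 0
  · have hne := hh.2.1 h0
    obtain ⟨L, y, hL⟩ : ∃ (L : List (ℕ × ℕ)) (y : ℕ × ℕ), h.2 = L ++ [y] :=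
      ⟨h.2.dropLast, h.2.getLast hne, (List.dropLast_append_getLast hne).symm⟩
    refine ⟨L.map fun x => (x.1, x.2, 2), (y.1, y.2, 2), ?_, le_refl _⟩
    simp only [hlv, h0, if_true, hL, List.map_append, List.map_cons, List.map_nil]
  · by_cases h1 : h.1 = 1
    · refine ⟨List.replicate 8 ((h.2.getD 0 (0, 0)).1, (h.2.getD 0 (0, 0)).2, 3) ++
        (((h.2.getD 1 (0, 0)).1, (h.2.getD 1 (0, 0)).2, 4) ::
          List.replicate 2 ((h.2.getD 1 (0, 0)).1, (h.2.getD 1 (0, 0)).2, 3)),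
        ((h.2.getD 1 (0, 0)).1, (h.2.getD 1 (0, 0)).2, 3), ?_, by norm_num⟩
      simp only [hlv, h1, one_ne_zero, if_true, if_false, List.append_assoc, List.cons_append]
      rfl
    · refine ⟨List.replicate 12 ((h.2.getD 0 (0, 0)).1, (h.2.getD 0 (0, 0)).2, 3) ++
        (((h.2.getD 1 (0, 0)).1, (h.2.getD 1 (0, 0)).2, 4) ::
          List.replicate 10 ((h.2.getD 1 (0, 0)).1, (h.2.getD 1 (0, 0)).2, 3)),
        ((h.2.getD 1 (0, 0)).1, (h.2.getD 1 (0, 0)).2, 3), ?_, by norm_num⟩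
      simp only [hlv, h0, h1, if_false, List.append_assoc, List.cons_append]
      rfl

/-- after a hole, the walls meet -/
theorem pS_clo (n : ℕ) (u : ℕ → ℂ) (A B : List (ℕ × ℕ × ℕ)) (h : ℕ × List (ℕ × ℕ))
    (hh : hOk n h) (hu : Snd (layOf n (A ++ (hlv h ++ (0, 0, 1) :: B))) u) :
    pS_S u (A ++ hlv h) = 0 := by
  obtain ⟨L, x, hL, hx⟩ := pS_last n h hh
  have e1 : A ++ (hlv h ++ (0, 0, 1) :: B) = (A ++ L) ++ x :: ((0, 0, 1) :: B) := by
    rw [hL]; simp
  have e2 : A ++ (hlv h ++ (0, 0, 1) :: B) = (A ++ hlv h) ++ (0, 0, 1) :: B := by simp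
  have hlen : (A ++ hlv h).length = (A ++ L).length + 1 := by
    rw [hL]; simp; omega
  have c1 : (layOf n (A ++ (hlv h ++ (0, 0, 1) :: B))).cl (A ++ L).length ≠ 0 := by
    unfold Lay.cl
    rw [e1, pS_k]
    split_ifs with ha hb
    · norm_num
    · norm_num
    · omega
  have c2 : (layOf n (A ++ (hlv h ++ (0, 0, 1) :: B))).cl ((A ++ L).length + 1) = 0 := by
    unfold Lay.cl
    rw [← hlen, e2, pS_k]
    norm_num
  have h3 := hu.clo _ c1 c2
  rw [← hlen, e2, pS_Dw] at h3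
  have h7 : (7 : ℂ) * ro ≠ 0 := mul_ne_zero (by norm_num) pS_ro_ne
  exact (mul_eq_zero.mp h3).resolve_left h7

theorem pS_pre (n : ℕ) (u : ℕ → ℂ) (hs1 : List (ℕ × List (ℕ × ℕ))) :
    ∀ hs2, (∀ h ∈ hs1 ++ hs2, hOk n h) → Snd (layOf n (prog n (hs1 ++ hs2))) u →
      pS_S u (prog n hs1) = 0 := by
  induction hs1 using List.reverseRecOn with
  | nil =>
      intro hs2 _ _
      simp only [prog, pS_S, List.flatMap_nil, List.map_cons, List.map_append, List.map_map,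
        List.sum_cons, List.sum_append, List.map_nil, List.sum_nil, sub_self, zero_add, add_zero]
      apply List.sum_eq_zero
      intro y hy
      rw [List.mem_map] at hy
      obtain ⟨i, _, rfl⟩ := hy
      simp
  | append_singleton hs1 h ih =>
      intro hs2 hok hu
      have e0 : hs1 ++ [h] ++ hs2 = hs1 ++ (h :: hs2) := by simp
      rw [e0] at hok hu
      have i1 := ih (h :: hs2) hok hu
      have e1 : prog n (hs1 ++ (h :: hs2)) = prog n hs1 ++ (hlv h ++ (0, 0, 1) ::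
          hs2.flatMap fun h => hlv h ++ [(0, 0, 1)]) := by
        rw [pS_prog]; simp
      rw [e1] at hu
      have i2 := pS_clo n u _ _ h (hok h (by simp)) hu
      have e2 : prog n (hs1 ++ [h]) = (prog n hs1 ++ hlv h) ++ [(0, 0, 1)] := by
        rw [pS_prog]; simp
      rw [e2, pS_S_append, i2]
      simp [pS_S]

theorem pS_S_rep (u : ℕ → ℂ) (m : ℕ) (x : ℕ × ℕ × ℕ) :
    pS_S u (List.replicate m x) = m * (u x.2.1 - u x.1) := by
  simp [pS_S]

/-- a narrow hole -/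
theorem pS_nar (n : ℕ) (u : ℕ → ℂ) (A B : List (ℕ × ℕ × ℕ)) (h : ℕ × List (ℕ × ℕ)) (m m' : ℕ)
    (hA : pS_S u A = 0)
    (hu : Snd (layOf n (A ++ (List.replicate (m + 1)
      ((h.2.getD 0 (0, 0)).1, (h.2.getD 0 (0, 0)).2, 3) ++
      (((h.2.getD 1 (0, 0)).1, (h.2.getD 1 (0, 0)).2, 4) ::
        (List.replicate m' ((h.2.getD 1 (0, 0)).1, (h.2.getD 1 (0, 0)).2, 3) ++ B))))) u) :
    dif u h 0 ≠ 0 ∧ 1 ≤ ‖u 0 + ro * dif u h 0‖ := by
  constructor
  · intro h0
    set y0 : ℕ × ℕ × ℕ := ((h.2.getD 0 (0, 0)).1, (h.2.getD 0 (0, 0)).2, 3) with hy0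
    set y1 : ℕ × ℕ × ℕ := ((h.2.getD 1 (0, 0)).1, (h.2.getD 1 (0, 0)).2, 4) with hy1
    set y2 : ℕ × ℕ × ℕ := ((h.2.getD 1 (0, 0)).1, (h.2.getD 1 (0, 0)).2, 3) with hy2
    have e1 : A ++ (List.replicate (m + 1) y0 ++ (y1 :: (List.replicate m' y2 ++ B))) =
        (A ++ List.replicate (m + 1) y0) ++ (y1 :: (List.replicate m' y2 ++ B)) := by simp
    rw [e1] at hu
    have hk := hu.pen (A ++ List.replicate (m + 1) y0).length (by rw [pS_k])
    apply hk
    rw [pS_Dw, pS_S_append, hA, pS_S_rep]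
    have h1 : u y0.2.1 - u y0.1 = 0 := h0
    rw [h1]
    ring
  · have e1 : A ++ (List.replicate (m + 1) ((h.2.getD 0 (0, 0)).1, (h.2.getD 0 (0, 0)).2, 3) ++
      (((h.2.getD 1 (0, 0)).1, (h.2.getD 1 (0, 0)).2, 4) ::
        (List.replicate m' ((h.2.getD 1 (0, 0)).1, (h.2.getD 1 (0, 0)).2, 3) ++ B))) =
        A ++ ((h.2.getD 0 (0, 0)).1, (h.2.getD 0 (0, 0)).2, 3) ::
        (List.replicate m ((h.2.getD 0 (0, 0)).1, (h.2.getD 0 (0, 0)).2, 3) ++
      (((h.2.getD 1 (0, 0)).1, (h.2.getD 1 (0, 0)).2, 4) ::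
        (List.replicate m' ((h.2.getD 1 (0, 0)).1, (h.2.getD 1 (0, 0)).2, 3) ++ B))) := by
      rw [List.replicate_succ, List.cons_append]
    rw [e1] at hu
    have hn := hu.nar (7 * A.length + 1) (by
      have h7 : (7 * A.length + 1) % 7 = 1 := by omega
      have h8 : (7 * A.length + 1) / 7 = A.length := by omega
      unfold Lay.ins
      rw [h7, h8]
      simp only [one_ne_zero, if_false, decide_eq_true_eq]
      unfold Lay.cl
      rw [pS_k]
      norm_num)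
    rw [pS_step1, pS_Dw, hA, pS_a, pS_b, mul_zero, zero_add] at hn
    exact hn

theorem pS_ok : St_pS := by
  intro n hs _ hok u hu h hh
  obtain ⟨hs1, hs2, rfl⟩ := List.append_of_mem hh
  have hA := pS_pre n u hs1 (h :: hs2) hok hu
  have e1 : prog n (hs1 ++ (h :: hs2)) = prog n hs1 ++ (hlv h ++ (0, 0, 1) ::
      hs2.flatMap fun h => hlv h ++ [(0, 0, 1)]) := by
    rw [pS_prog]; simp
  rw [e1] at hu
  have hc := pS_clo n u _ _ h (hok h hh) hu
  rw [pS_S_append, hA, zero_add] at hc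
  unfold hS
  by_cases h0 : h.1 = 0
  · rw [if_pos h0]
    have e2 : hlv h = h.2.map fun x => (x.1, x.2, 2) := by
      simp only [hlv, h0, if_true]
    rw [e2] at hc
    unfold pS_S at hc
    rw [List.map_map] at hc
    exact hc
  · rw [if_neg h0]
    by_cases h1 : h.1 = 1
    · rw [if_pos h1]
      have e2 : hlv h = List.replicate 8 ((h.2.getD 0 (0, 0)).1, (h.2.getD 0 (0, 0)).2, 3) ++
          (((h.2.getD 1 (0, 0)).1, (h.2.getD 1 (0, 0)).2, 4) ::
        List.replicate 3 ((h.2.getD 1 (0, 0)).1, (h.2.getD 1 (0, 0)).2, 3)) := by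
        simp only [hlv, h1, one_ne_zero, if_true, if_false]
      refine ⟨?_, ?_⟩
      · rw [e2, pS_S_append, pS_S_rep] at hc
        have e3 : pS_S u (((h.2.getD 1 (0, 0)).1, (h.2.getD 1 (0, 0)).2, 4) ::
            List.replicate 3 ((h.2.getD 1 (0, 0)).1, (h.2.getD 1 (0, 0)).2, 3)) =
            4 * dif u h 1 := by
          have e4 : (((h.2.getD 1 (0, 0)).1, (h.2.getD 1 (0, 0)).2, 4) ::
            List.replicate 3 ((h.2.getD 1 (0, 0)).1, (h.2.getD 1 (0, 0)).2, 3)) =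
            [((h.2.getD 1 (0, 0)).1, (h.2.getD 1 (0, 0)).2, 4)] ++
            List.replicate 3 ((h.2.getD 1 (0, 0)).1, (h.2.getD 1 (0, 0)).2, 3) := rfl
          rw [e4, pS_S_append, pS_S_rep]
          simp only [pS_S, List.map_cons, List.map_nil, List.sum_cons, List.sum_nil, dif]
          push_cast
          ring
        rw [e3] at hc
        have e5 : ((8 : ℕ) : ℂ) * dif u h 0 + 4 * dif u h 1 = 0 := hc
        push_cast at e5
        linear_combination (1 / 4 : ℂ) * e5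
      · rw [e2, List.append_assoc, List.cons_append] at hu
        exact pS_nar n u _ _ h 7 3 hA hu
    · rw [if_neg h1]
      have e2 : hlv h = List.replicate 12 ((h.2.getD 0 (0, 0)).1, (h.2.getD 0 (0, 0)).2, 3) ++
          (((h.2.getD 1 (0, 0)).1, (h.2.getD 1 (0, 0)).2, 4) ::
        List.replicate 11 ((h.2.getD 1 (0, 0)).1, (h.2.getD 1 (0, 0)).2, 3)) := by
        simp only [hlv, h0, h1, if_false]
      refine ⟨?_, ?_⟩
      · rw [e2, pS_S_append, pS_S_rep] at hc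
        have e3 : pS_S u (((h.2.getD 1 (0, 0)).1, (h.2.getD 1 (0, 0)).2, 4) ::
            List.replicate 11 ((h.2.getD 1 (0, 0)).1, (h.2.getD 1 (0, 0)).2, 3)) =
            12 * dif u h 1 := by
          have e4 : (((h.2.getD 1 (0, 0)).1, (h.2.getD 1 (0, 0)).2, 4) ::
            List.replicate 11 ((h.2.getD 1 (0, 0)).1, (h.2.getD 1 (0, 0)).2, 3)) =
            [((h.2.getD 1 (0, 0)).1, (h.2.getD 1 (0, 0)).2, 4)] ++
            List.replicate 11 ((h.2.getD 1 (0, 0)).1, (h.2.getD 1 (0, 0)).2, 3) := rfl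
          rw [e4, pS_S_append, pS_S_rep]
          simp only [pS_S, List.map_cons, List.map_nil, List.sum_cons, List.sum_nil, dif]
          push_cast
          ring
        rw [e3] at hc
        have e5 : ((12 : ℕ) : ℂ) * dif u h 0 + 12 * dif u h 1 = 0 := hc
        push_cast at e5
        linear_combination (1 / 12 : ℂ) * e5
      · rw [e2, List.append_assoc, List.cons_append] at hu
        exact pS_nar n u _ _ h 11 11 hA hu

end Pool.Agent.H670R4
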