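import Pool.Agent.H670R4.Sub

/-!
# Reversors
-/

namespace Pool.Agent.H670R4

open Pool.Agent.NPC Pool.Agent.NPC.ER Pool.Agent.H670R2
open scoped ComplexConjugate

theorem rev_CB {z : ℂ} {κ A B : ℝ} (hκ : 0 < κ) (h1 : z.re = κ * A) (h2 : z.im = κ * B)
    (h3 : 0 ≤ A) (h4 : -A / 16 ≤ B) (h5 : B ≤ 3 * A / 16) : CB z := by
  refine ⟨?_, ?_, ?_⟩
  · rw [h1]; positivity
  · rw [h1, h2]
    have := mul_le_mul_of_nonneg_left h4 hκ.le
    linarith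
  · rw [h1, h2]
    have := mul_le_mul_of_nonneg_left h5 hκ.le
    linarith

theorem rev_d {z : ℂ} {κ A B : ℝ} (hκ : 199 / 10000 ≤ κ) (h1 : z.re = κ * A) (h2 : z.im = κ * B)
    (h3 : 9 / 10 ≤ A) (h4 : A / 7 ≤ B) (h5 : B ≤ A / 4) :
    1 / 56 ≤ z.re ∧ z.re / 7 ≤ z.im ∧ z.im ≤ z.re / 4 := by
  refine ⟨?_, ?_, ?_⟩
  · rw [h1]
    nlinarith
  · rw [h1, h2]
    have := mul_le_mul_of_nonneg_left h4 (by linarith : 0 ≤ κ)
    linarith
  · rw [h1, h2]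
    have := mul_le_mul_of_nonneg_left h5 (by linarith : 0 ≤ κ)
    linarith

theorem rev_mul {x y a b a' b' : ℝ} (ha : 0 ≤ a) (hb : 0 ≤ b) (h1 : a ≤ x) (h2 : x ≤ a')
    (h3 : b ≤ y) (h4 : y ≤ b') : a * b ≤ x * y ∧ x * y ≤ a' * b' :=
  ⟨mul_le_mul h1 h3 hb (ha.trans h1), mul_le_mul h2 h4 (hb.trans h3) (ha.trans (h1.trans h2))⟩

/-- a rotation by a small angle -/
theorem rev_rot {A B c d a a' b b' : ℝ} (hc1 : c ≤ 1) (hc2 : 999313 / 1000000 ≤ c)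
    (hd1 : 1 / 100 ≤ d) (hd2 : d ≤ 1 / 27) (ha : 0 ≤ a) (hb : 0 ≤ b) (h1 : a ≤ A) (h2 : A ≤ a')
    (h3 : b ≤ B) (h4 : B ≤ b') :
    a * (999313 / 1000000) - b' / 27 ≤ A * c - B * d ∧ A * c - B * d ≤ a' ∧
      a / 100 + b * (999313 / 1000000) ≤ A * d + B * c ∧ A * d + B * c ≤ a' / 27 + b' := by
  have e1 := rev_mul ha (by norm_num) h1 h2 hc2 hc1
  have e2 := rev_mul hb (by norm_num) h3 h4 hd1 hd2
  have e3 := rev_mul ha (by norm_num) h1 h2 hd1 hd2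
  have e4 := rev_mul hb (by norm_num) h3 h4 hc2 hc1
  have e5 : 0 ≤ b * (1 / 100) := by positivity
  refine ⟨?_, ?_, ?_, ?_⟩
  · linarith [e1.1, e2.2]
  · linarith [e1.2, e2.1]
  · linarith [e3.1, e4.1]
  · linarith [e3.2, e4.2]

theorem rev_c {c d : ℝ} (h : c * c + d * d = 1) (h0 : 0 < c) (h1 : 1 / 100 ≤ d) (h2 : d ≤ 1 / 27) :
    c ≤ 1 ∧ 999313 / 1000000 ≤ c := by
  constructor
  · nlinarith
  · by_contra hcon
    push Not at hcon
    nlinarith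

theorem rev_P {P S : ℝ} (h : P * P + S * S = 1) (h0 : 0 < P) (h1 : 0 ≤ S) (h2 : S ≤ 1 / 40) :
    P ≤ 1 ∧ 9996 / 10000 ≤ P := by
  constructor
  · nlinarith
  · by_contra hcon
    push Not at hcon
    nlinarith

theorem rev_w : 1732 / 1000 ≤ √(3 : ℝ) ∧ √(3 : ℝ) ≤ 17321 / 10000 := by
  constructor
  · rw [Real.le_sqrt (by norm_num) (by norm_num)]
    norm_num
  · rw [Real.sqrt_le_left (by norm_num)]
    norm_num

theorem rev_a {c d : ℝ} (hc1 : c ≤ 1) (hc2 : 999313 / 1000000 ≤ c) (hd1 : 1 / 100 ≤ d)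
    (hd2 : d ≤ 1 / 27) : (9986 / 10000 ≤ (2 - c) ^ 2 - d ^ 2 ∧ (2 - c) ^ 2 - d ^ 2 ≤ 10014 / 10000) ∧
      2 / 100 ≤ 2 * (2 - c) * d ∧ 2 * (2 - c) * d ≤ 742 / 10000 := by
  have e1 := rev_mul (x := 2 - c) (y := 2 - c) (a := 1) (b := 1) (a' := 1000687 / 1000000)
    (b' := 1000687 / 1000000) (by norm_num) (by norm_num) (by linarith) (by linarith)
    (by linarith) (by linarith)
  have e2 := rev_mul (x := d) (y := d) (a := 1 / 100) (b := 1 / 100) (a' := 1 / 27)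
    (b' := 1 / 27) (by norm_num) (by norm_num) hd1 hd2 hd1 hd2
  have e3 := rev_mul (x := 2 - c) (y := d) (a := 1) (b := 1 / 100) (a' := 1000687 / 1000000)
    (b' := 1 / 27) (by norm_num) (by norm_num) (by linarith) (by linarith) hd1 hd2
  norm_num at e1 e2 e3
  refine ⟨⟨?_, ?_⟩, ?_, ?_⟩
  · rw [pow_two, pow_two]; linarith [e1.1, e2.2]
  · rw [pow_two, pow_two]; linarith [e1.2, e2.1]
  · linarith [e3.1]
  · linarith [e3.2]

/-- reversors -/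
theorem rev_ok : St_rev := by
  intro p t hp ht hpr hpi hpi' htr hti hti'
  have hp2 : p.re * p.re + p.im * p.im = 1 := by
    rw [← Complex.normSq_apply, ← Complex.sq_norm, hp, one_pow]
  have ht2 : t.re * t.re + t.im * t.im = 1 := by
    rw [← Complex.normSq_apply, ← Complex.sq_norm, ht, one_pow]
  have htt : t * conj t = 1 := by
    rw [Complex.mul_conj, Complex.normSq_apply, ht2, Complex.ofReal_one]
  obtain ⟨P, hP⟩ : ∃ P, P = p.re := ⟨_, rfl⟩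
  obtain ⟨S, hS⟩ : ∃ S, S = p.im := ⟨_, rfl⟩
  obtain ⟨c, hc⟩ : ∃ c, c = t.re := ⟨_, rfl⟩
  obtain ⟨d, hd⟩ : ∃ d, d = t.im := ⟨_, rfl⟩
  rw [← hP] at hpr
  rw [← hS] at hpi hpi'
  rw [← hP, ← hS] at hp2
  rw [← hc] at htr
  rw [← hd] at hti hti'
  rw [← hc, ← hd] at ht2
  -- bounds for c and P
  obtain ⟨hc1, hc2⟩ := rev_c ht2 htr hti hti'
  obtain ⟨hP1, hP2⟩ := rev_P hp2 hpr hpi hpi'
  have hden : 0 < 5 - 4 * c := by linarith
  have h2t : (2 : ℂ) - t ≠ 0 := by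
    intro h
    have := congrArg Complex.re h
    rw [Complex.sub_re, ← hc] at this
    simp at this
    linarith
  obtain ⟨κ, hκ⟩ : ∃ κ, κ = 1 / (5 - 4 * c) := ⟨_, rfl⟩
  have hκ0 : 0 < κ := by rw [hκ]; positivity
  have hκ1 : κ * (5 - 4 * c) = 1 := by
    rw [hκ]
    field_simp
  have hprod : (2 - t) * (2 - conj t) = ((5 - 4 * c : ℝ) : ℂ) := by
    apply Complex.ext
    · simp [← hc, ← hd]
      nlinarith
    · simp [← hc, ← hd]
      ring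
  obtain ⟨q, hq⟩ : ∃ q, q = p * (2 - conj t) / (2 - t) := ⟨_, rfl⟩
  have hq1 : q * (2 - t) = p * (2 - conj t) := by
    rw [hq, div_mul_cancel₀ _ h2t]
  have hq2 : q = (κ : ℂ) * (p * (2 - conj t) ^ 2) := by
    have h1 : (κ : ℂ) * ((5 - 4 * c : ℝ) : ℂ) = 1 := by
      rw [← Complex.ofReal_mul, hκ1, Complex.ofReal_one]
    rw [← hprod] at h1
    calc q = q * ((κ : ℂ) * ((2 - t) * (2 - conj t))) := by rw [h1, mul_one]
      _ = (κ : ℂ) * ((q * (2 - t)) * (2 - conj t)) := by ring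
      _ = (κ : ℂ) * (p * (2 - conj t) ^ 2) := by rw [hq1]; ring
  -- norms
  have hnc : ‖(2 : ℂ) - conj t‖ = ‖(2 : ℂ) - t‖ := by
    rw [← Complex.norm_conj (2 - t), map_sub, Complex.conj_ofNat]
  have hnq : ‖q‖ = 1 := by
    rw [hq, norm_div, norm_mul, hp, one_mul, hnc, div_self]
    exact norm_ne_zero_iff.2 h2t
  -- coordinates of q
  obtain ⟨A0, hA0⟩ : ∃ A0, A0 = P * ((2 - c) ^ 2 - d ^ 2) - S * (2 * (2 - c) * d) := ⟨_, rfl⟩
  obtain ⟨B0, hB0⟩ : ∃ B0, B0 = P * (2 * (2 - c) * d) + S * ((2 - c) ^ 2 - d ^ 2) := ⟨_, rfl⟩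
  have hsq : (2 - conj t) ^ 2 = ⟨(2 - c) ^ 2 - d ^ 2, 2 * (2 - c) * d⟩ := by
    apply Complex.ext
    · simp [pow_two, ← hc, ← hd]
    · simp [pow_two, ← hc, ← hd]
      ring
  have hqr : q.re = κ * A0 := by
    rw [hq2, hsq, Complex.re_ofReal_mul, Complex.mul_re, ← hP, ← hS, hA0]
  have hqi : q.im = κ * B0 := by
    rw [hq2, hsq, Complex.im_ofReal_mul, Complex.mul_im, ← hP, ← hS, hB0]
  obtain ⟨A1, hA1⟩ : ∃ A1, A1 = A0 * c - B0 * d := ⟨_, rfl⟩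
  obtain ⟨B1, hB1⟩ : ∃ B1, B1 = A0 * d + B0 * c := ⟨_, rfl⟩
  obtain ⟨A2, hA2⟩ : ∃ A2, A2 = A1 * c - B1 * d := ⟨_, rfl⟩
  obtain ⟨B2, hB2⟩ : ∃ B2, B2 = A1 * d + B1 * c := ⟨_, rfl⟩
  have hrr : (q * t).re = κ * A1 := by
    rw [Complex.mul_re, hqr, hqi, ← hc, ← hd, hA1]
    ring
  have hri : (q * t).im = κ * B1 := by
    rw [Complex.mul_im, hqr, hqi, ← hc, ← hd, hB1]
    ring
  have hyr : (q * t * t).re = κ * A2 := by
    rw [Complex.mul_re, hrr, hri, ← hc, ← hd, hA2]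
    ring
  have hyi : (q * t * t).im = κ * B2 := by
    rw [Complex.mul_im, hrr, hri, ← hc, ← hd, hB2]
    ring
  -- bounds
  obtain ⟨N1, hN1⟩ : ∃ N1, N1 = (2 - c) ^ 2 - d ^ 2 := ⟨_, rfl⟩
  obtain ⟨N2, hN2⟩ : ∃ N2, N2 = 2 * (2 - c) * d := ⟨_, rfl⟩
  have bN := rev_a hc1 hc2 hti hti'
  rw [← hN1, ← hN2] at hA0 hB0 bN
  obtain ⟨bN1, bN2⟩ := bN
  have bA0 : 996 / 1000 ≤ A0 ∧ A0 ≤ 10014 / 10000 ∧ 199 / 10000 ≤ B0 ∧ B0 ≤ 993 / 10000 := by
    have e1 := rev_mul (by norm_num) (by norm_num) hP2 hP1 bN1.1 bN1.2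
    have e2 := rev_mul (by norm_num) (by norm_num) hpi hpi' bN2.1 bN2.2
    have e3 := rev_mul (by norm_num) (by norm_num) hP2 hP1 bN2.1 bN2.2
    have e4 := rev_mul (by norm_num) (by norm_num) hpi hpi' bN1.1 bN1.2
    norm_num at e1 e2 e3 e4
    rw [hA0, hB0]
    refine ⟨?_, ?_, ?_, ?_⟩
    · linarith [e1.1, e2.2]
    · linarith [e1.2, e2.1]
    · linarith [e3.1, e4.1]
    · linarith [e3.2, e4.2]
  have bA1 : 9916 / 10000 ≤ A1 ∧ A1 ≤ 10014 / 10000 ∧ 298 / 10000 ≤ B1 ∧ B1 ≤ 1365 / 10000 := by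
    have e := rev_rot hc1 hc2 hti hti' (by norm_num) (by norm_num) bA0.1 bA0.2.1 bA0.2.2.1
      bA0.2.2.2
    rw [← hA1, ← hB1] at e
    norm_num at e
    exact ⟨by linarith [e.1], by linarith [e.2.1], by linarith [e.2.2.1], by linarith [e.2.2.2]⟩
  have bA2 : 9858 / 10000 ≤ A2 ∧ 0 ≤ B2 ∧ B2 ≤ 1738 / 10000 := by
    have e := rev_rot hc1 hc2 hti hti' (by norm_num) (by norm_num) bA1.1 bA1.2.1 bA1.2.2.1
      bA1.2.2.2
    rw [← hA2, ← hB2] at e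
    norm_num at e
    exact ⟨by linarith [e.1], by linarith [e.2.2.1], by linarith [e.2.2.2]⟩
  -- the differences
  obtain ⟨w, hw⟩ : ∃ w, w = √3 := ⟨_, rfl⟩
  obtain ⟨hw1, hw2⟩ := rev_w
  rw [← hw] at hw1 hw2
  obtain ⟨X, hX⟩ : ∃ X, X = (4 * w * (2 - c) - d) / 7 := ⟨_, rfl⟩
  obtain ⟨Y, hY⟩ : ∃ Y, Y = ((2 - c) + 4 * w * d) / 7 := ⟨_, rfl⟩
  obtain ⟨U, hU⟩ : ∃ U, U = P * X - S * Y := ⟨_, rfl⟩
  obtain ⟨V, hV⟩ : ∃ V, V = P * Y + S * X := ⟨_, rfl⟩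
  obtain ⟨K, hK⟩ : ∃ K, K = 2 * d * κ := ⟨_, rfl⟩
  have hdr : (p - q).re = K * (d * P + (2 - c) * S) := by
    rw [Complex.sub_re, hqr, ← hP, hK, hA0, hN1, hN2]
    linear_combination (-P) * hκ1 - κ * P * ht2
  have hdi : (p - q).im = K * (d * S - (2 - c) * P) := by
    rw [Complex.sub_im, hqi, ← hS, hK, hB0, hN1, hN2]
    linear_combination (-S) * hκ1 - κ * S * ht2
  have hur : (ro * (p - q)).re = K * U := by
    rw [Complex.mul_re, hdr, hdi, hU, hX, hY]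
    simp only [ro, ← hw]
    ring
  have hui : (ro * (p - q)).im = K * V := by
    rw [Complex.mul_im, hdr, hdi, hV, hX, hY]
    simp only [ro, ← hw]
    ring
  have hvr : (ro * (p * t - q * t)).re = K * (U * c - V * d) := by
    have : ro * (p * t - q * t) = (ro * (p - q)) * t := by ring
    rw [this, Complex.mul_re, hur, hui, ← hc, ← hd]
    ring
  have hvi : (ro * (p * t - q * t)).im = K * (U * d + V * c) := by
    have : ro * (p * t - q * t) = (ro * (p - q)) * t := by ring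
    rw [this, Complex.mul_im, hur, hui, ← hc, ← hd]
    ring
  have hκ2 : 9972 / 10000 ≤ κ := by
    rw [hκ, le_div_iff₀ hden]
    linarith
  have bK : 199 / 10000 ≤ K := by
    have e := rev_mul (x := d) (y := κ) (a := 1 / 100) (b := 9972 / 10000) (a' := d) (b' := κ)
      (by norm_num) (by norm_num) hti le_rfl hκ2 le_rfl
    norm_num at e
    rw [hK]
    linarith
  have hwd := rev_mul (by norm_num) (by norm_num) hw1 hw2 hti hti'
  have hwa := rev_mul (x := w) (y := 2 - c) (b := 1) (b' := 1000687 / 1000000)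
    (by norm_num) (by norm_num) hw1 hw2 (by linarith) (by linarith)
  norm_num at hwd hwa
  have bX : 984422 / 1000000 ≤ X ∧ X ≤ 99046 / 100000 := by
    rw [hX]
    constructor
    · linarith [hwa.1]
    · linarith [hwa.2]
  have bY : 1 / 7 ≤ Y ∧ Y ≤ 17963 / 100000 := by
    rw [hY]
    constructor
    · linarith [hwd.1]
    · linarith [hwd.2]
  have hXY : X ≤ 7 * Y := by
    linarith [bX.2, bY.1]
  have bU : 97952 / 100000 ≤ U ∧ U ≤ 99046 / 100000 ∧ V ≤ 2045 / 10000 := by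
    have e1 := rev_mul (by norm_num) (by norm_num) hP2 hP1 bX.1 bX.2
    have e2 := rev_mul (by norm_num) (by norm_num) hpi hpi' bY.1 bY.2
    have e3 := rev_mul (by norm_num) (by norm_num) hP2 hP1 bY.1 bY.2
    have e4 := rev_mul (by norm_num) (by norm_num) hpi hpi' bX.1 bX.2
    norm_num at e1 e2 e3 e4
    rw [hU, hV]
    refine ⟨?_, ?_, ?_⟩
    · linarith [e1.1, e2.2]
    · linarith [e1.2, e2.1]
    · linarith [e3.2, e4.2]
  have hUV : U ≤ 7 * V := by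
    have e1 := mul_nonneg hpr.le (sub_nonneg.2 hXY)
    have e2 := mul_nonneg hpi (by linarith [bX.1] : 0 ≤ X)
    have e3 := mul_nonneg hpi (by linarith [bY.1] : 0 ≤ Y)
    rw [hU, hV]
    linarith
  have hV0 : 139 / 1000 ≤ V := by linarith [bU.1]
  have bR := rev_rot hc1 hc2 hti hti' (by norm_num) (by norm_num) bU.1 bU.2.1 hV0 bU.2.2
  norm_num at bR
  refine ⟨q, q * t, q * t * t, ⟨hnq, ?_⟩, ⟨?_, ?_⟩, ⟨?_, ?_⟩, ?_, ?_, ?_, ?_⟩
  · exact rev_CB hκ0 hqr hqi (by linarith [bA0.1]) (by linarith [bA0.1, bA0.2.2.1])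
      (by linarith [bA0.1, bA0.2.2.2])
  · rw [norm_mul, hnq, ht, mul_one]
  · exact rev_CB hκ0 hrr hri (by linarith [bA1.1]) (by linarith [bA1.1, bA1.2.2.1])
      (by linarith [bA1.1, bA1.2.2.2])
  · rw [norm_mul, norm_mul, hnq, ht, mul_one, mul_one]
  · exact rev_CB hκ0 hyr hyi (by linarith [bA2.1]) (by linarith [bA2.1, bA2.2.1])
      (by linarith [bA2.1, bA2.2.2])
  · linear_combination -hq1
  · exact rev_d bK hur hui (by linarith [bU.1]) (by linarith) (by linarith [bU.1, bU.2.2])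
  · linear_combination (-t) * hq1 + p * htt
  · refine rev_d bK hvr hvi (by linarith [bR.1]) ?_ (by linarith [bR.1, bR.2.2.2])
    have e1 := mul_nonneg htr.le (sub_nonneg.2 hUV)
    have e2 : 0 ≤ V * d := mul_nonneg (by linarith) (by linarith)
    have e3 : 0 ≤ U * d := mul_nonneg (by linarith [bU.1]) (by linarith)
    linarith

end Pool.Agent.H670R4
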