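import Pool.Agent.H670R4.Sub

/-!
# Task ROW: the rows
-/

namespace Pool.Agent.H670R4

open Pool.Agent.NPC Pool.Agent.NPC.ER Pool.Agent.H670R2
open scoped ComplexConjugate

theorem row_ro_ne : ro ≠ 0 := by
  intro h
  have := congrArg Complex.re h
  simp [ro] at this

theorem row_pat_iff (Λ : Lay) (t β : ℕ) : Λ.pat t β = true ↔
    β = Λ.a t ∨ β = Λ.n + 1 + Λ.b t ∨ (β = Λ.n ∧ Λ.k t = 1) := by
  simp [Lay.pat]

theorem row_prs1_iff (Λ : Lay) {t : ℕ} (ht : t < Λ.T) (m : ℕ) : Λ.prs m (7 * t + 1) = true ↔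
    m ≤ 6 * Λ.nb ∧ ¬ (1 ≤ m % 6 ∧ m % 6 ≤ 4 ∧ Λ.pat t (m / 6) = true) ∧
      ¬ (m = 6 * Λ.n + 3 ∧ Λ.cl t = 1) := by
  have h1 : (7 * t + 1) % 7 = 1 := by omega
  have h2 : (7 * t + 1) / 7 = t := by omega
  have h3 : 7 * t + 1 ≤ 7 * Λ.T := by omega
  unfold Lay.prs Lay.ins
  rw [h1, h2]
  simp [h3]
  intro _
  rcases Bool.eq_false_or_eq_true (Λ.pat t (m / 6)) with hp | hp
  · rw [hp]; simp; omega
  · rw [hp]; simp; omega

theorem row_prs_line (Λ : Lay) {t : ℕ} (ht : t < Λ.T) (m : ℕ)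
    (h : Λ.prs m (7 * t + 1) = true) (j : ℕ) (hj : j ≤ 7) : Λ.prs m (7 * t + j) = true := by
  obtain ⟨ha, hb, hc⟩ := (row_prs1_iff Λ ht m).1 h
  have h3 : 7 * t + j ≤ 7 * Λ.T := by omega
  rcases Nat.eq_zero_or_pos j with rfl | hj0
  · have h1 : (7 * t + 0) % 7 = 0 := by omega
    have h2 : (7 * t + 0) / 7 = t := by omega
    unfold Lay.prs Lay.ins
    rw [h1, h2]
    simp only [h3, ha]
    simp
    omega
  · rcases Nat.lt_or_ge j 7 with hj7 | hj7
    · have h1 : (7 * t + j) % 7 = j := by omega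
      have h2 : (7 * t + j) / 7 = t := by omega
      unfold Lay.prs Lay.ins
      rw [h1, h2]
      simp only [h3, ha]
      simp
      refine ⟨?_, ?_⟩
      · rcases Bool.eq_false_or_eq_true (Λ.pat t (m / 6)) with hp | hp
        · rw [hp] at hb ⊢
          simp only [and_true] at hb
          omega
        · simp [hp]
      · rw [if_neg (by omega)]
        omega
    · have hj' : j = 7 := by omega
      subst hj'
      have h1 : (7 * t + 7) % 7 = 0 := by omega
      have h2 : (7 * t + 7) / 7 = t + 1 := by omega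
      unfold Lay.prs Lay.ins
      rw [h1, h2]
      simp only [h3, ha]
      simp
      omega

theorem row_gap (Λ : Lay) {t : ℕ} (m : ℕ) (h : m ≠ 6 * Λ.n + 2 ∨ Λ.cl t ≠ 2)
    (j : ℕ) (hj : j ≤ 7) : Λ.gap m (7 * t + j) = false := by
  rcases h with h | h
  · simp [Lay.gap, h]
  · have : Λ.ins 2 (7 * t + j) = false := by
      rcases Nat.eq_zero_or_pos j with rfl | hj0
      · have h1 : (7 * t + 0) % 7 = 0 := by omega
        have h2 : (7 * t + 0) / 7 = t := by omega
        unfold Lay.ins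
        rw [h1, h2]
        simp [h]
      · rcases Nat.lt_or_ge j 7 with hj7 | hj7
        · have h1 : (7 * t + j) % 7 = j := by omega
          have h2 : (7 * t + j) / 7 = t := by omega
          unfold Lay.ins
          rw [h1, h2, if_neg (by omega)]
          simp [h]
        · have hj' : j = 7 := by omega
          subst hj'
          have h1 : (7 * t + 7) % 7 = 0 := by omega
          have h2 : (7 * t + 7) / 7 = t + 1 := by omega
          unfold Lay.ins
          rw [h1, h2]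
          simp [h]
    simp [Lay.gap, this]

theorem row_step (Λ : Lay) {p : Vt → ℂ} (hpos : Pos Λ p) {t : ℕ} (ht : t < Λ.T) (m : ℕ)
    (h1 : Λ.prs m (7 * t + 1) = true) (h2 : Λ.prs (m + 1) (7 * t + 1) = true)
    (h3 : m ≠ 6 * Λ.n + 2 ∨ Λ.cl t ≠ 2) (j : ℕ) (hj : j ≤ 7) :
    Gp p (m + 1) (7 * t + j) - Gp p (m + 1) (7 * t) = Gp p m (7 * t + j) - Gp p m (7 * t) := by
  induction j with
  | zero => simp
  | succ j ih =>
    have ih' := ih (by omega)
    have hc : cellB Λ m (7 * t + j) = true := by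
      unfold cellB
      have e1 := row_prs_line Λ ht m h1 j (by omega)
      have e2 := row_prs_line Λ ht (m + 1) h2 j (by omega)
      have e3 := row_prs_line Λ ht m h1 (j + 1) hj
      have e4 := row_prs_line Λ ht (m + 1) h2 (j + 1) hj
      have e5 := row_gap Λ m h3 j (by omega)
      have e6 := row_gap Λ m h3 (j + 1) hj
      rw [← add_assoc] at e3 e4 e6
      simp [e1, e2, e3, e4, e5, e6]
    have hp := hpos.par m (7 * t + j) hc
    rw [← add_assoc]
    linear_combination hp + ih'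

theorem row_prop (Λ : Lay) {p : Vt → ℂ} (hpos : Pos Λ p) {t : ℕ} (ht : t < Λ.T) (i i' : ℕ)
    (hii : i ≤ i') (h1 : ∀ m, i ≤ m → m ≤ i' → Λ.prs m (7 * t + 1) = true)
    (h3 : ∀ m, i ≤ m → m < i' → m ≠ 6 * Λ.n + 2 ∨ Λ.cl t ≠ 2) (j : ℕ) (hj : j ≤ 7) :
    Gp p i' (7 * t + j) - Gp p i' (7 * t) = Gp p i (7 * t + j) - Gp p i (7 * t) := by
  induction i', hii using Nat.le_induction with
  | base => rfl
  | succ m hm ih =>
    rw [row_step Λ hpos ht m (h1 m hm (by omega)) (h1 (m + 1) (by omega) le_rfl)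
      (h3 m hm (by omega)) j hj]
    exact ih (fun m' h h' => h1 m' h (by omega)) (fun m' h h' => h3 m' h (by omega))

theorem row_left {Λ : Lay} (hΛ : Λ.Ok) {p : Vt → ℂ} (hpos : Pos Λ p) {w : ℕ → ℂ}
    (hw : Wd Λ p w) (t : ℕ) (ht : t < Λ.T) (i : ℕ) (hi : i ≤ 6 * Λ.n + 2)
    (hprs : Λ.prs i (7 * t + 1) = true) (j : ℕ) (hj : j ≤ 7) :
    Gp p i (7 * t + j) = Gp p i (7 * t) + (j : ℂ) * (ro * w (Λ.a t)) := by
  have ha := hΛ.a t
  have hpat : Λ.pat t (Λ.a t) = true := (row_pat_iff Λ t _).2 (Or.inl rfl)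
  have hnb : Λ.nb = 2 * Λ.n + 1 := rfl
  obtain ⟨w1, w2⟩ := hw.wall (Λ.a t) (by omega) t ht hpat j hj
  obtain ⟨hp1, hp2, hp3⟩ := (row_prs1_iff Λ ht i).1 hprs
  -- unpatched lines
  have hun : ∀ m, m ≤ i → (m / 6 ≠ Λ.a t ∨ m % 6 = 0 ∨ m % 6 = 5) →
      Λ.prs m (7 * t + 1) = true := by
    intro m hm hma
    rw [row_prs1_iff Λ ht m]
    refine ⟨by omega, ?_, by omega⟩
    rintro ⟨h4, h5, h6⟩
    rw [row_pat_iff] at h6
    rcases h6 with h6 | h6 | ⟨h6, h7⟩
    · omega
    · omega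
    · -- the middle block
      apply hp2
      have him : i / 6 = Λ.n := by omega
      refine ⟨by omega, by omega, ?_⟩
      rw [row_pat_iff, him]
      exact Or.inr (Or.inr ⟨rfl, h7⟩)
  rcases Nat.lt_or_ge (6 * Λ.a t) i with h | h
  · -- to the right of the block
    have h5 : 6 * Λ.a t + 5 ≤ i := by
      by_contra hcon
      apply hp2
      have him : i / 6 = Λ.a t := by omega
      exact ⟨by omega, by omega, by rw [him]; exact hpat⟩
    have := row_prop Λ hpos ht (6 * Λ.a t + 5) i h5 (fun m h1 h2 => hun m h2 (by omega))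
      (fun m h1 h2 => by left; omega) j hj
    rw [w2] at this
    linear_combination this
  · have := row_prop Λ hpos ht i (6 * Λ.a t) h (fun m h1 h2 => by
        rw [row_prs1_iff Λ ht m]
        refine ⟨by omega, ?_, by omega⟩
        rintro ⟨h4, h5, h6⟩
        rw [row_pat_iff] at h6
        rcases h6 with h6 | h6 | ⟨h6, h7⟩ <;> omega)
      (fun m h1 h2 => by left; omega) j hj
    rw [w1] at this
    linear_combination -this

theorem row_right {Λ : Lay} (hΛ : Λ.Ok) {p : Vt → ℂ} (hpos : Pos Λ p) {w : ℕ → ℂ}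
    (hw : Wd Λ p w) (t : ℕ) (ht : t < Λ.T) (i : ℕ) (hi : 6 * Λ.n + 3 ≤ i) (hi' : i ≤ 6 * Λ.nb)
    (hprs : Λ.prs i (7 * t + 1) = true) (j : ℕ) (hj : j ≤ 7) :
    Gp p i (7 * t + j) = Gp p i (7 * t) + (j : ℂ) * (ro * w (Λ.n + 1 + Λ.b t)) := by
  have ha := hΛ.a t
  have hb := hΛ.b t
  have hpat : Λ.pat t (Λ.n + 1 + Λ.b t) = true := (row_pat_iff Λ t _).2 (Or.inr (Or.inl rfl))
  have hnb : Λ.nb = 2 * Λ.n + 1 := rfl
  obtain ⟨w1, w2⟩ := hw.wall (Λ.n + 1 + Λ.b t) (by omega) t ht hpat j hj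
  obtain ⟨hp1, hp2, hp3⟩ := (row_prs1_iff Λ ht i).1 hprs
  rcases Nat.lt_or_ge (6 * (Λ.n + 1 + Λ.b t)) i with h | h
  · -- to the right of the block
    have h5 : 6 * (Λ.n + 1 + Λ.b t) + 5 ≤ i := by
      by_contra hcon
      apply hp2
      have him : i / 6 = Λ.n + 1 + Λ.b t := by omega
      exact ⟨by omega, by omega, by rw [him]; exact hpat⟩
    have := row_prop Λ hpos ht (6 * (Λ.n + 1 + Λ.b t) + 5) i h5 (fun m h1 h2 => by
        rw [row_prs1_iff Λ ht m]
        refine ⟨by omega, ?_, by omega⟩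
        rintro ⟨h4, h5, h6⟩
        rw [row_pat_iff] at h6
        rcases h6 with h6 | h6 | ⟨h6, h7⟩ <;> omega)
      (fun m h1 h2 => by left; omega) j hj
    rw [w2] at this
    linear_combination this
  · have := row_prop Λ hpos ht i (6 * (Λ.n + 1 + Λ.b t)) h (fun m h1 h2 => by
        rw [row_prs1_iff Λ ht m]
        refine ⟨by omega, ?_, ?_⟩
        · rintro ⟨h4, h5, h6⟩
          rw [row_pat_iff] at h6
          rcases h6 with h6 | h6 | ⟨h6, h7⟩
          · omega
          · omega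
          · apply hp2
            have him : i / 6 = Λ.n := by omega
            refine ⟨by omega, by omega, ?_⟩
            rw [row_pat_iff, him]
            exact Or.inr (Or.inr ⟨rfl, h7⟩)
        · rintro ⟨h4, h5⟩
          exact hp3 ⟨by omega, h5⟩)
      (fun m h1 h2 => by left; omega) j hj
    rw [w1] at this
    linear_combination -this

theorem row_ok : St_row := by
  intro Λ hΛ p _ hpos w hw
  have hnb : Λ.nb = 2 * Λ.n + 1 := rfl
  have hn2 := hΛ.n2
  have lr : ∀ i < Λ.n, w (Λ.n + 1 + i) = w i := by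
    intro i hi
    obtain ⟨t, ht, hta, htb, htk⟩ := hΛ.tie i hi
    have hcl : Λ.cl t ≠ 2 := by simp [Lay.cl, htk]
    have hcl1 : Λ.cl t ≠ 1 := by simp [Lay.cl, htk]
    have hpl : Λ.pat t i = true := (row_pat_iff Λ t _).2 (Or.inl hta.symm)
    have hpr : Λ.pat t (Λ.n + 1 + i) = true :=
      (row_pat_iff Λ t _).2 (Or.inr (Or.inl (by rw [htb])))
    have w1 := (hw.wall i (by omega) t ht hpl 1 (by norm_num)).2
    have w2 := (hw.wall (Λ.n + 1 + i) (by omega) t ht hpr 1 (by norm_num)).1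
    have := row_prop Λ hpos ht (6 * i + 5) (6 * (Λ.n + 1 + i)) (by omega) (fun m h1 h2 => by
        rw [row_prs1_iff Λ ht m]
        refine ⟨by omega, ?_, ?_⟩
        · rintro ⟨h4, h5, h6⟩
          rw [row_pat_iff] at h6
          rcases h6 with h6 | h6 | ⟨h6, h7⟩ <;> omega
        · rintro ⟨h4, h5⟩
          exact hcl1 h5) (fun m h1 h2 => Or.inr hcl) 1 (by norm_num)
    rw [w1, w2] at this
    have h3 : ro * (w (Λ.n + 1 + i) - w i) = 0 := by
      push_cast at this
      linear_combination this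
    rcases mul_eq_zero.1 h3 with h4 | h4
    · exact absurd h4 row_ro_ne
    · exact sub_eq_zero.1 h4
  have left := row_left hΛ hpos hw
  refine ⟨lr, ?_, fun t ht i hi hp j hj => left t ht i hi hp j hj, ?_⟩
  · obtain ⟨t, ht, htk⟩ := hΛ.ex
    have hpn : Λ.pat t Λ.n = true := (row_pat_iff Λ t _).2 (Or.inr (Or.inr ⟨rfl, htk⟩))
    have w1 := (hw.wall Λ.n (by omega) t ht hpn 1 (by norm_num)).1
    have w2 := left t ht (6 * Λ.n) (by omega) (by
      rw [row_prs1_iff Λ ht]
      refine ⟨by omega, by omega, by omega⟩) 1 (by norm_num)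
    rw [hΛ.m t htk] at w2
    have h3 : ro * (w Λ.n - w 0) = 0 := by
      push_cast at w1 w2
      linear_combination w2 - w1
    rcases mul_eq_zero.1 h3 with h4 | h4
    · exact absurd h4 row_ro_ne
    · exact sub_eq_zero.1 h4
  · intro t ht i hi hi' hp j hj
    rw [row_right hΛ hpos hw t ht i hi hi' hp j hj, lr _ (hΛ.b t)]

end Pool.Agent.H670R4
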