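import Pool.Agent.H670R4.Sub

/-!
# Separation
-/

namespace Pool.Agent.H670R4

open Pool.Agent.NPC Pool.Agent.NPC.ER Pool.Agent.H670R2
open scoped ComplexConjugate

theorem sep_CA0 : CA 0 := by
  refine ⟨?_, ?_, ?_⟩ <;> simp

theorem sep_cl (Λ : Lay) (t : ℕ) : Λ.cl t = 0 ∨ Λ.cl t = 1 ∨ Λ.cl t = 2 := by
  unfold Lay.cl
  split_ifs <;> simp

theorem sep_ins_lo (Λ : Lay) (c t : ℕ) (h : Λ.ins c (7 * t) = true) : Λ.cl t = c := by
  unfold Lay.ins at h
  rw [if_pos (by omega), Nat.mul_div_cancel_left t (by norm_num)] at h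
  rw [Bool.and_eq_true, Bool.and_eq_true] at h
  exact of_decide_eq_true h.2.2

theorem sep_ins_hi (Λ : Lay) (c t : ℕ) (h : Λ.ins c (7 * t + 7) = true) : Λ.cl t = c := by
  unfold Lay.ins at h
  have e : (7 * t + 7) / 7 = t + 1 := by omega
  rw [if_pos (by omega), e] at h
  rw [Bool.and_eq_true, Bool.and_eq_true] at h
  have := of_decide_eq_true h.2.1
  simpa using this

theorem sep_dj (hi : St_if) (Λ : Lay) (u : ℕ → ℂ) (j : ℕ) : DI Λ u j = Dw Λ u j := by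
  unfold DI Dw
  rw [hi.nat, hi.nat, ← Finset.sum_sub_distrib]
  rfl

theorem sep_lin (hi : St_if) (f : ℕ → ℂ) (t : ℕ) (w : ℂ) (hw : ∀ m, m / 7 = t → f m = w) (s : ℝ)
    (h0 : 0 ≤ s) (h7 : s ≤ 7) : IF f (7 * t + s) = IF f ((7 * t : ℕ) : ℝ) + (s : ℂ) * w := by
  have h := hi.lin f (7 * t) (7 * t + 7) w (fun m a b => hw m (by omega)) (7 * t + s)
    (by push_cast; linarith) (by push_cast; linarith)
  rw [h, hi.nat]
  congr 2
  push_cast
  ring

theorem sep_aff (hi : St_if) (Λ : Lay) (u : ℕ → ℂ) (t : ℕ) (s : ℝ) (h0 : 0 ≤ s) (h7 : s ≤ 7) :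
    DI Λ u (7 * t + s) = Dw Λ u (7 * t) + (s : ℂ) * (ro * (u (Λ.b t) - u (Λ.a t))) := by
  rw [← sep_dj hi]
  unfold DI
  rw [sep_lin hi (fr Λ u) t (u (Λ.b t)) (fun m hm => by unfold fr; rw [hm]) s h0 h7,
    sep_lin hi (fl Λ u) t (u (Λ.a t)) (fun m hm => by unfold fl; rw [hm]) s h0 h7]
  ring

theorem sep_conv (hi : St_if) (Λ : Lay) (u : ℕ → ℂ) (t : ℕ) (s : ℝ) (h0 : 0 ≤ s) (h7 : s ≤ 7) :
    DI Λ u (7 * t + s) = ((1 - s / 7 : ℝ) : ℂ) * Dw Λ u (7 * t) +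
      ((s / 7 : ℝ) : ℂ) * Dw Λ u (7 * t + 7) := by
  have h1 := sep_aff hi Λ u t s h0 h7
  have h2 := sep_aff hi Λ u t 7 (by norm_num) le_rfl
  have h3 : DI Λ u (7 * t + 7) = Dw Λ u (7 * t + 7) := by
    rw [← sep_dj hi]
    push_cast
    rfl
  rw [h3] at h2
  rw [h1, h2]
  push_cast
  ring

theorem sep_Dlo {Λ : Lay} {u : ℕ → ℂ} (hC : Cmp Λ u) (hH : Huv Λ u) (t : ℕ) :
    (Λ.cl t = 0 → Dw Λ u (7 * t) = 0) ∧ (Λ.cl t = 1 → ‖Dw Λ u (7 * t)‖ ≤ 1 / 2) ∧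
      (Λ.cl t = 2 → CA (Dw Λ u (7 * t))) := by
  refine ⟨fun h => ?_, fun h => ?_, fun h => ?_⟩
  · apply hH.out
    · rw [Bool.eq_false_iff]; intro h1; have := sep_ins_lo Λ 1 t h1; omega
    · rw [Bool.eq_false_iff]; intro h1; have := sep_ins_lo Λ 2 t h1; omega
  · by_cases h1 : Λ.ins 1 (7 * t) = true
    · exact hC.wid _ h1
    · rw [hH.out _ (by simpa using h1)]
      · simp
      · rw [Bool.eq_false_iff]; intro h1; have := sep_ins_lo Λ 2 t h1; omega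
  · by_cases h1 : Λ.ins 2 (7 * t) = true
    · exact hC.nar _ h1
    · rw [hH.out _ _ (by simpa using h1)]
      · exact sep_CA0
      · rw [Bool.eq_false_iff]; intro h1; have := sep_ins_lo Λ 1 t h1; omega

theorem sep_Dhi {Λ : Lay} {u : ℕ → ℂ} (hC : Cmp Λ u) (hH : Huv Λ u) (t : ℕ) :
    (Λ.cl t = 0 → Dw Λ u (7 * t + 7) = 0) ∧ (Λ.cl t = 1 → ‖Dw Λ u (7 * t + 7)‖ ≤ 1 / 2) ∧
      (Λ.cl t = 2 → CA (Dw Λ u (7 * t + 7))) := by
  refine ⟨fun h => ?_, fun h => ?_, fun h => ?_⟩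
  · apply hH.out
    · rw [Bool.eq_false_iff]; intro h1; have := sep_ins_hi Λ 1 t h1; omega
    · rw [Bool.eq_false_iff]; intro h1; have := sep_ins_hi Λ 2 t h1; omega
  · by_cases h1 : Λ.ins 1 (7 * t + 7) = true
    · exact hC.wid _ h1
    · rw [hH.out _ (by simpa using h1)]
      · simp
      · rw [Bool.eq_false_iff]; intro h1; have := sep_ins_hi Λ 2 t h1; omega
  · by_cases h1 : Λ.ins 2 (7 * t + 7) = true
    · exact hC.nar _ h1
    · rw [hH.out _ _ (by simpa using h1)]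
      · exact sep_CA0
      · rw [Bool.eq_false_iff]; intro h1; have := sep_ins_hi Λ 1 t h1; omega

theorem sep_di (hi : St_if) (hc : St_cone) {Λ : Lay} {u : ℕ → ℂ} (hC : Cmp Λ u) (hH : Huv Λ u)
    (t : ℕ) (s : ℝ) (h0 : 0 ≤ s) (h7 : s ≤ 7) : (Λ.cl t = 0 → DI Λ u (7 * t + s) = 0) ∧
    (Λ.cl t = 1 → ‖DI Λ u (7 * t + s)‖ ≤ 1 / 2) ∧ (Λ.cl t = 2 → CA (DI Λ u (7 * t + s))) := by
  rw [sep_conv hi Λ u t s h0 h7]
  have l := sep_Dlo hC hH t
  have h := sep_Dhi hC hH t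
  have s0 : 0 ≤ s / 7 := by positivity
  have s1 : 0 ≤ 1 - s / 7 := by linarith
  refine ⟨fun e => ?_, fun e => ?_, fun e => ?_⟩
  · rw [l.1 e, h.1 e]; simp
  · refine (norm_add_le _ _).trans ?_
    rw [norm_mul, norm_mul, Complex.norm_real, Complex.norm_real, Real.norm_of_nonneg s0,
      Real.norm_of_nonneg s1]
    have a1 := mul_le_mul_of_nonneg_left (l.2.1 e) s1
    have a2 := mul_le_mul_of_nonneg_left (h.2.1 e) s0
    linarith
  · exact hc.aa _ _ (hc.sa _ _ s1 (l.2.2 e)) (hc.sa _ _ s0 (h.2.2 e))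

theorem sep_om : om = (5 / 8 : ℂ) + (7 / 8 : ℂ) * ro := by
  apply Complex.ext
  · have h1 : ((5 / 8 : ℂ)).re = 5 / 8 := by
      have : (5 / 8 : ℂ) = ((5 / 8 : ℝ) : ℂ) := by push_cast; rfl
      rw [this, Complex.ofReal_re]
    have h2 : (7 / 8 : ℂ) = ((7 / 8 : ℝ) : ℂ) := by push_cast; rfl
    rw [Complex.add_re, h1, h2, Complex.re_ofReal_mul]
    unfold om ro
    norm_num
  · have h1 : ((5 / 8 : ℂ)).im = 0 := by
      have : (5 / 8 : ℂ) = ((5 / 8 : ℝ) : ℂ) := by push_cast; rfl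
      rw [this, Complex.ofReal_im]
    have h2 : (7 / 8 : ℂ) = ((7 / 8 : ℝ) : ℂ) := by push_cast; rfl
    rw [Complex.add_im, h1, h2, Complex.im_ofReal_mul]
    unfold om ro
    norm_num
    ring

theorem sep_bs {m r : ℕ} (hm : m < sz r) (hr : r ≤ 8) : 0 ≤ (m : ℝ) + 5 * r / 8 - bs r ∧
    (m : ℝ) + 5 * r / 8 - bs r ≤ 5 := by
  have hm' : m ≤ 3 := by
    unfold sz at hm
    split_ifs at hm <;> omega
  have hm1 : (m : ℝ) ≤ 3 := by exact_mod_cast hm'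
  have hm0 : (0 : ℝ) ≤ m := by positivity
  have : r = 0 ∨ r = 1 ∨ r = 2 ∨ r = 3 ∨ r = 4 ∨ r = 5 ∨ r = 6 ∨ r = 7 ∨ r = 8 := by omega
  rcases this with rfl | rfl | rfl | rfl | rfl | rfl | rfl | rfl | rfl <;> constructor <;>
    norm_num [bs] <;> first | linarith | omega

/-- positions in a patch, general form -/
theorem sep_q (hi : St_if) (Λ : Lay) (u f : ℕ → ℂ) (β t m r : ℕ) (hm : m < sz r) (hr : r ≤ 8)
    (V : ℂ) (hV : ro * V = ro * IF f ((7 * t : ℕ) : ℝ)) (hf : ∀ k, k / 7 = t → f k = cw Λ u β) :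
    Uh Λ u (6 * β + 1) + ro * V + cw Λ u β * ofs m r =
      IF (fc Λ u) (6 * β + 1 + (m + 5 * r / 8 - bs r)) + ro * IF f (7 * t + 7 * r / 8) := by
  obtain ⟨b0, b5⟩ := sep_bs hm hr
  have hr' : (r : ℝ) ≤ 8 := by exact_mod_cast hr
  have hr0 : (0 : ℝ) ≤ r := by positivity
  rw [sep_lin hi f t (cw Λ u β) hf (7 * r / 8) (by positivity) (by linarith), hV]
  have h := hi.lin (fc Λ u) (6 * β + 1) (6 * β + 6) (cw Λ u β)
    (fun k a b => by unfold fc; congr 1; omega) (6 * β + 1 + (m + 5 * r / 8 - bs r))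
    (by push_cast; linarith) (by push_cast; linarith)
  rw [h]
  have hU : ∑ m ∈ Finset.range (6 * β + 1), fc Λ u m = Uh Λ u (6 * β + 1) := rfl
  rw [hU]
  unfold ofs
  rw [sep_om]
  push_cast
  ring

/-- the same side, general form -/
theorem sep_ss (hi : St_if) (hc : St_cone) (f g : ℕ → ℂ) (N M : ℕ)
    (hf : ∀ m < N, CB (f m) ∧ ‖f m‖ = 1) (hg : ∀ m < M, CB (g m) ∧ ‖g m‖ = 1)
    (x x' y y' : ℝ) (x0 : 0 ≤ x) (xx : x ≤ x') (xN : x' ≤ N) (y0 : 0 ≤ y) (yM : y ≤ M)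
    (y0' : 0 ≤ y') (yM' : y' ≤ M) (D : ℂ) (hD : CA D) (h : 9 / 8 ≤ x' - x ∨ 9 / 8 ≤ |y' - y|) :
    1 ≤ ‖(IF f x' - IF f x + D) + ro * (IF g y' - IF g y)‖ := by
  obtain ⟨hA, hA'⟩ := hi.cb f N hf x x' x0 xx xN
  have hAD : CA (IF f x' - IF f x + D) := hc.aa _ _ (hc.ba _ hA) hD
  have hAn : 9 / 8 ≤ x' - x → 109 / 100 ≤ ‖IF f x' - IF f x + D‖ := by
    intro h1
    refine le_trans ?_ (Complex.re_le_norm _)
    rw [Complex.add_re]
    have := hD.1
    linarith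
  rcases le_total y y' with hy | hy
  · obtain ⟨hB, hB'⟩ := hi.cb g M hg y y' y0 hy yM'
    rw [abs_of_nonneg (by linarith)] at h
    rcases h with h | h
    · exact (hc.l2 _ _ hAD hB (hAn h)).1
    · refine (hc.l3 _ _ hAD hB ?_).1
      refine le_trans ?_ (Complex.re_le_norm _)
      linarith
  · obtain ⟨hB, hB'⟩ := hi.cb g M hg y' y y0' hy yM
    rw [abs_of_nonpos (by linarith)] at h
    have e : IF f x' - IF f x + D + ro * (IF g y' - IF g y) =
      IF f x' - IF f x + D - ro * (IF g y - IF g y') := by ring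
    rw [e]
    rcases h with h | h
    · exact (hc.l2 _ _ hAD hB (hAn h)).2
    · refine (hc.l3 _ _ hAD hB ?_).2
      refine le_trans ?_ (Complex.re_le_norm _)
      linarith

/-- scaling of `l2` -/
theorem sep_sc (hc : St_cone) (A B : ℂ) (hA : CA A) (hB : CB B) (h : 49 / 25 ≤ ‖A‖) :
    3 / 2 ≤ ‖A + ro * B‖ ∧ 3 / 2 ≤ ‖A - ro * B‖ := by
  have hp : (0 : ℝ) < ‖A‖ := by linarith
  set c : ℝ := 109 / 100 / ‖A‖ with hcd
  have c0 : 0 < c := by positivity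
  have cA : c * ‖A‖ = 109 / 100 := by rw [hcd]; field_simp
  have h1 := hc.l2 (c * A) (c * B) (hc.sa _ _ c0.le hA) (hc.sb _ _ c0.le hB)
    (by rw [norm_mul, Complex.norm_real, Real.norm_of_nonneg c0.le, cA])
  have e1 : (c : ℂ) * A + ro * (c * B) = c * (A + ro * B) := by ring
  have e2 : (c : ℂ) * A - ro * (c * B) = c * (A - ro * B) := by ring
  rw [e1, e2, norm_mul, norm_mul, Complex.norm_real, Real.norm_of_nonneg c0.le] at h1
  have c2 : c * (3 / 2) ≤ 1 := by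
    have : c * (49 / 25) ≤ c * ‖A‖ := mul_le_mul_of_nonneg_left h c0.le
    rw [cA] at this
    linarith
  constructor
  · by_contra hh
    push Not at hh
    have := mul_lt_mul_of_pos_left hh c0
    linarith [h1.1]
  · by_contra hh
    push Not at hh
    have := mul_lt_mul_of_pos_left hh c0
    linarith [h1.2]

/-- far points, general form -/
theorem sep_ds (hi : St_if) (hc : St_cone) (f g : ℕ → ℂ) (N M : ℕ)
    (hf : ∀ m < N, CB (f m) ∧ ‖f m‖ = 1) (hg : ∀ m < M, CB (g m) ∧ ‖g m‖ = 1)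
    (x x' y y' : ℝ) (x0 : 0 ≤ x) (xx : x ≤ x') (xN : x' ≤ N) (y0 : 0 ≤ y) (yM : y ≤ M)
    (y0' : 0 ≤ y') (yM' : y' ≤ M) (D : ℂ) (hD : ‖D‖ ≤ 1 / 2) (h : 2 ≤ x' - x) :
    1 ≤ ‖(IF f x' - IF f x + D) + ro * (IF g y' - IF g y)‖ := by
  obtain ⟨hA, hA'⟩ := hi.cb f N hf x x' x0 xx xN
  have hAn : 49 / 25 ≤ ‖IF f x' - IF f x‖ := by
    refine le_trans ?_ (Complex.re_le_norm _)
    linarith
  have key : 3 / 2 ≤ ‖(IF f x' - IF f x) + ro * (IF g y' - IF g y)‖ := by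
    rcases le_total y y' with hy | hy
    · obtain ⟨hB, hB'⟩ := hi.cb g M hg y y' y0 hy yM'
      exact (sep_sc hc _ _ (hc.ba _ hA) hB hAn).1
    · obtain ⟨hB, hB'⟩ := hi.cb g M hg y' y y0' hy yM
      have e : IF f x' - IF f x + ro * (IF g y' - IF g y) =
        IF f x' - IF f x - ro * (IF g y - IF g y') := by ring
      rw [e]
      exact (sep_sc hc _ _ (hc.ba _ hA) hB hAn).2
  have e : (IF f x' - IF f x + D) + ro * (IF g y' - IF g y) =
    ((IF f x' - IF f x) + ro * (IF g y' - IF g y)) - (-D) := by ring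
  rw [e]
  refine le_trans ?_ (norm_sub_norm_le _ _)
  rw [norm_neg]
  linarith

/-- every row has a difference in the cone or a small one -/
theorem sep_row (hi : St_if) (hc : St_cone) {Λ : Lay} (hO : Λ.Ok) {u : ℕ → ℂ} (hC : Cmp Λ u)
    (hH : Huv Λ u) (y : ℝ) (y0 : 0 ≤ y) : CA (DI Λ u y) ∨ ‖DI Λ u y‖ ≤ 1 / 2 := by
  set t := ⌊y / 7⌋₊ with ht
  have t1 : (t : ℝ) ≤ y / 7 := Nat.floor_le (by positivity)
  have t2 : y / 7 < t + 1 := Nat.lt_floor_add_one _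
  have e : y = 7 * t + (y - 7 * t) := by ring
  have hd := sep_di hi hc hC hH t (y - 7 * t) (by linarith) (by linarith)
  rw [← e] at hd
  rcases sep_cl Λ t with h | h | h
  · right; rw [hd.1 h]; simp
  · right; exact hd.2.1 h
  · left; exact hd.2.2 h

theorem sep_ok : St_sep := by
  intro hi hc Λ hO u hC hH
  have hf : ∀ m < 6 * Λ.nb, CB (fc Λ u m) ∧ ‖fc Λ u m‖ = 1 := by
    intro m hm
    have := hH.cn (m / 6) (by omega)
    exact ⟨this.2, this.1⟩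
  have hl : ∀ m < 7 * Λ.T, CB (fl Λ u m) ∧ ‖fl Λ u m‖ = 1 := fun m _ =>
    ⟨hC.cone _ (hO.a _), hC.nrm _ (hO.a _)⟩
  have hr : ∀ m < 7 * Λ.T, CB (fr Λ u m) ∧ ‖fr Λ u m‖ = 1 := fun m _ =>
    ⟨hC.cone _ (hO.b _), hC.nrm _ (hO.b _)⟩
  have hD0 : ∀ t, Λ.cl t = 0 → Dw Λ u (7 * t) = 0 := fun t h => (sep_Dlo hC hH t).1 h
  have e0 : ∀ z : ℂ, z = z + 0 := fun z => by ring
  refine ⟨fun t _ s h0 h7 => sep_di hi hc hC hH t s h0 h7, fun j => sep_dj hi Λ u j, ?_, ?_, ?_,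
    ?_, ?_, ?_⟩
  · have h1 : DI Λ u (7 * Λ.T) = DI Λ u ((7 * Λ.T : ℕ) : ℝ) := by push_cast; rfl
    rw [h1, sep_dj hi]
    apply hD0
    unfold Lay.cl
    rw [hO.out Λ.T le_rfl]
    simp
  · intro β t m r hp hβ ht hm hr'
    unfold gp
    rw [if_pos (by omega)]
    have hw := hH.pw β t hp
    rw [if_pos hβ] at hw
    apply sep_q hi Λ u (fl Λ u) β t m r hm hr'
    · rw [hi.nat]; rfl
    · intro k hk
      unfold fl
      rw [hk, hw]
  · intro β t m r hp hβ hβ' ht hm hr'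
    have hw := hH.pw β t hp
    rcases Nat.lt_or_ge Λ.n β with h | h
    · unfold gp
      rw [if_neg (by omega)]
      rw [if_neg (by omega)] at hw
      apply sep_q hi Λ u (fr Λ u) β t m r hm hr'
      · rw [hi.nat]; rfl
      · intro k hk
        unfold fr
        rw [hk, hw]
    · have hβn : β = Λ.n := by omega
      subst hβn
      rw [if_pos le_rfl] at hw
      have hk : Λ.k t = 1 := by
        unfold Lay.pat at hp
        have ha := hO.a t
        have h1 : ¬ (Λ.n = Λ.a t) := by omega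
        have h2 : ¬ (Λ.n = Λ.n + 1 + Λ.b t) := by omega
        rw [decide_eq_false h1, decide_eq_false h2] at hp
        simpa using hp
      have hcl : Λ.cl t = 0 := by
        unfold Lay.cl
        rw [hk]
        simp
      unfold gp
      rw [if_pos (by omega)]
      apply sep_q hi Λ u (fr Λ u) Λ.n t m r hm hr'
      · rw [hi.nat]
        have h0 := hD0 t hcl
        rw [hH.D] at h0
        have h1 : ∑ m ∈ Finset.range (7 * t), fr Λ u m = VR Λ u (7 * t) := rfl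
        rw [h1]
        linear_combination -h0
      · intro k hk
        unfold fr
        rw [hk, hw, hO.eq t hcl]
  · intro x x' y y' x0 xx xN y0 yM y0' yM' h
    have := sep_ss hi hc (fc Λ u) (fl Λ u) (6 * Λ.nb) (7 * Λ.T) hf hl x x' y y' x0 xx
      (by push_cast; exact xN) y0 (by push_cast; exact yM) y0' (by push_cast; exact yM') 0 sep_CA0 h
    rwa [add_zero] at this
  · intro x x' y y' x0 xx xN y0 yM y0' yM' h
    have := sep_ss hi hc (fc Λ u) (fr Λ u) (6 * Λ.nb) (7 * Λ.T) hf hr x x' y y' x0 xx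
      (by push_cast; exact xN) y0 (by push_cast; exact yM) y0' (by push_cast; exact yM') 0 sep_CA0 h
    rwa [add_zero] at this
  · intro x x' y y' x0 xx xN y0 yM y0' yM' h
    have e1 : IF (fc Λ u) x' - IF (fc Λ u) x + ro * (IF (fr Λ u) y' - IF (fl Λ u) y) =
      (IF (fc Λ u) x' - IF (fc Λ u) x + DI Λ u y) + ro * (IF (fr Λ u) y' - IF (fr Λ u) y) := by
      unfold DI; ring
    have e2 : IF (fc Λ u) x' - IF (fc Λ u) x + ro * (IF (fr Λ u) y' - IF (fl Λ u) y) =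
      (IF (fc Λ u) x' - IF (fc Λ u) x + DI Λ u y') + ro * (IF (fl Λ u) y' - IF (fl Λ u) y) := by
      unfold DI; ring
    have k1 : CA (DI Λ u y) → (9 / 8 ≤ x' - x ∨ 9 / 8 ≤ |y' - y|) →
        1 ≤ ‖IF (fc Λ u) x' - IF (fc Λ u) x + ro * (IF (fr Λ u) y' - IF (fl Λ u) y)‖ := by
      intro hca hh
      rw [e1]
      exact sep_ss hi hc (fc Λ u) (fr Λ u) (6 * Λ.nb) (7 * Λ.T) hf hr x x' y y' x0 xx
        (by push_cast; exact xN) y0 (by push_cast; exact yM) y0' (by push_cast; exact yM') _ hca hh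
    have k2 : CA (DI Λ u y') → (9 / 8 ≤ x' - x ∨ 9 / 8 ≤ |y' - y|) →
        1 ≤ ‖IF (fc Λ u) x' - IF (fc Λ u) x + ro * (IF (fr Λ u) y' - IF (fl Λ u) y)‖ := by
      intro hca hh
      rw [e2]
      exact sep_ss hi hc (fc Λ u) (fl Λ u) (6 * Λ.nb) (7 * Λ.T) hf hl x x' y y' x0 xx
        (by push_cast; exact xN) y0 (by push_cast; exact yM) y0' (by push_cast; exact yM') _ hca hh
    rcases h with h | ⟨h | h, hh⟩
    · rcases sep_row hi hc hO hC hH y y0 with hy | hy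
      · exact k1 hy (Or.inl (by linarith))
      · rw [e1]
        exact sep_ds hi hc (fc Λ u) (fr Λ u) (6 * Λ.nb) (7 * Λ.T) hf hr x x' y y' x0 xx
          (by push_cast; exact xN) y0 (by push_cast; exact yM) y0' (by push_cast; exact yM') _ hy h
    · exact k1 h hh
    · exact k2 h hh

end Pool.Agent.H670R4
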