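import Pool.Agent.H670R4.Sub

/-!
# The orientation of the column `c1` of a block
-/

namespace Pool.Agent.H670R4

open Pool.Agent.NPC Pool.Agent.NPC.ER Pool.Agent.H670R2
open scoped ComplexConjugate

theorem sg1_prs {Λ : Lay} {β : ℕ} (hβ : β < Λ.nb) (e j : ℕ) (he : e = 1 ∨ e = 2) :
    Λ.prs (6 * β + e) j = true ↔ j ≤ 7 * Λ.T ∧ (j % 7 = 0 ∨ Λ.pat (j / 7) β = false) := by
  have h1 : 6 * β + e ≤ 6 * Λ.nb := by omega
  have h2 : (6 * β + e) % 6 = e := by omega
  have h3 : (6 * β + e) / 6 = β := by omega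
  have h4 : 6 * β + e ≠ 6 * Λ.n + 3 := by omega
  have h5 : 1 ≤ e := by omega
  have h6 : e ≤ 4 := by omega
  unfold Lay.prs
  rw [h2, h3]
  simp only [h1, h4, h5, h6, decide_true, decide_false, Bool.true_and, Bool.false_and,
    Bool.not_false, Bool.and_true, Bool.and_eq_true, decide_eq_true_eq, Bool.not_eq_true',
    Bool.and_eq_false_iff, decide_eq_false_iff_not, not_not, ne_eq]

theorem sg1_cell {Λ : Lay} {β : ℕ} (hβ : β < Λ.nb) (j : ℕ) :
    cellB Λ (6 * β + 1) j = true ↔ j < 7 * Λ.T ∧ Λ.pat (j / 7) β = false := by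
  have hg : ∀ j, Λ.gap (6 * β + 1) j = false := by
    intro j
    unfold Lay.gap
    have : 6 * β + 1 ≠ 6 * Λ.n + 2 := by omega
    rw [decide_eq_false this, Bool.false_and]
  unfold cellB
  have e1 := sg1_prs hβ 1 j (Or.inl rfl)
  have e2 := sg1_prs hβ 2 j (Or.inr rfl)
  have e3 := sg1_prs hβ 1 (j + 1) (Or.inl rfl)
  have e4 := sg1_prs hβ 2 (j + 1) (Or.inr rfl)
  have h12 : 6 * β + 1 + 1 = 6 * β + 2 := rfl
  rw [hg, hg, h12]
  simp only [Bool.and_eq_true, Bool.not_false, and_true, e1, e2, e3, e4]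
  constructor
  · rintro ⟨⟨_, h2⟩, _, ⟨h3, h4⟩, _⟩
    refine ⟨by omega, ?_⟩
    rcases h2 with h2 | h2
    · rcases h4 with h4 | h4
      · omega
      · have : (j + 1) / 7 = j / 7 := by omega
        rwa [this] at h4
    · exact h2
  · rintro ⟨h1, h2⟩
    have h3 : j ≤ 7 * Λ.T ∧ (j % 7 = 0 ∨ Λ.pat (j / 7) β = false) := ⟨by omega, Or.inr h2⟩
    have h4 : j + 1 ≤ 7 * Λ.T ∧ ((j + 1) % 7 = 0 ∨ Λ.pat ((j + 1) / 7) β = false) := by
      refine ⟨by omega, ?_⟩
      by_cases h5 : (j + 1) % 7 = 0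
      · exact Or.inl h5
      · right
        have : (j + 1) / 7 = j / 7 := by omega
        rwa [this]
    exact ⟨h3, h3, h4, h4⟩

/-- the statement for the level `t` -/
def Sg1L (Λ : Lay) (p : Vt → ℂ) (β : ℕ) (s : Prop) (t : ℕ) : Prop :=
  (Λ.pat t β = true → (apx p (.q β t 0 1) β (7 * t) om ↔ s)) ∧
  (Λ.pat t β = false → ∀ r < 7, (sgc p (6 * β + 1) (7 * t + r) ↔ s))

theorem sg1_level {Λ : Lay} {p : Vt → ℂ} (L : Lor Λ p) {β : ℕ} (hβ : β < Λ.nb) {t : ℕ}
    (ht : t < Λ.T) (hp : Λ.pat t β = false) (s : Prop) (h0 : sgc p (6 * β + 1) (7 * t) ↔ s) :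
    ∀ r < 7, (sgc p (6 * β + 1) (7 * t + r) ↔ s) := by
  intro r
  induction r with
  | zero => intro _; exact h0
  | succ r ih =>
    intro hr
    have h1 := ih (by omega)
    have c1 : cellB Λ (6 * β + 1) (7 * t + r) = true := by
      rw [sg1_cell hβ]
      have : (7 * t + r) / 7 = t := by omega
      rw [this]
      exact ⟨by omega, hp⟩
    have c2 : cellB Λ (6 * β + 1) (7 * t + r + 1) = true := by
      rw [sg1_cell hβ]
      have : (7 * t + r + 1) / 7 = t := by omega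
      rw [this]
      exact ⟨by omega, hp⟩
    exact (L.ver _ _ c1 c2).symm.trans h1

theorem sg1_step {Λ : Lay} {p : Vt → ℂ} (L : Lor Λ p) {β : ℕ} (hβ : β < Λ.nb) {s : Prop} {t : ℕ}
    (ht : t + 1 < Λ.T) (h : Sg1L Λ p β s t) : Sg1L Λ p β s (t + 1) := by
  cases hp : Λ.pat t β with
  | false =>
    have h6 := h.2 hp 6 (by omega)
    refine ⟨fun hp1 => (L.cp β t hβ ht hp hp1).symm.trans h6, fun hp1 => ?_⟩
    refine sg1_level L hβ ht hp1 s ?_
    have c1 : cellB Λ (6 * β + 1) (7 * t + 6) = true := by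
      rw [sg1_cell hβ]
      have : (7 * t + 6) / 7 = t := by omega
      rw [this]
      exact ⟨by omega, hp⟩
    have c2 : cellB Λ (6 * β + 1) (7 * t + 6 + 1) = true := by
      rw [sg1_cell hβ]
      have : (7 * t + 6 + 1) / 7 = t + 1 := by omega
      rw [this]
      exact ⟨by omega, hp1⟩
    exact (L.ver _ _ c1 c2).symm.trans h6
  | true =>
    have h7 : apx p (.q β t 0 7) β (7 * t + 7) (conj om) ↔ s :=
      (L.pat β t hβ (by omega) hp).symm.trans (h.1 hp)
    refine ⟨fun hp1 => (L.pp β t hβ ht hp hp1).symm.trans h7, fun hp1 => ?_⟩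
    exact sg1_level L hβ ht hp1 s ((L.pc β t hβ ht hp hp1).symm.trans h7)

theorem sg1_ok : St_sg1 := by
  intro Λ _ p _ L β hβ
  by_cases hT : Λ.T = 0
  · refine ⟨True, ⟨fun j hj => ?_, fun t ht => ?_⟩⟩
    · rw [sg1_cell hβ] at hj
      omega
    · omega
  have hT0 : 0 < Λ.T := by omega
  obtain ⟨s, h0⟩ : ∃ s, Sg1L Λ p β s 0 := by
    cases hp : Λ.pat 0 β with
    | false =>
      refine ⟨sgc p (6 * β + 1) (7 * 0), fun h => ?_, fun _ => ?_⟩
      · rw [hp] at h
        exact absurd h (by decide)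
      · exact sg1_level L hβ hT0 hp _ Iff.rfl
    | true =>
      refine ⟨apx p (.q β 0 0 1) β (7 * 0) om, fun _ => Iff.rfl, fun h => ?_⟩
      rw [hp] at h
      exact absurd h (by decide)
  have hall : ∀ t, t < Λ.T → Sg1L Λ p β s t := by
    intro t
    induction t with
    | zero => intro _; exact h0
    | succ t ih => intro ht; exact sg1_step L hβ ht (ih (by omega))
  refine ⟨s, ⟨fun j hj => ?_, fun t ht hp => (hall t ht).1 hp⟩⟩
  rw [sg1_cell hβ] at hj
  have h1 : j / 7 < Λ.T := by omega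
  have h2 := (hall (j / 7) h1).2 hj.2 (j % 7) (by omega)
  have h3 : 7 * (j / 7) + j % 7 = j := by omega
  rwa [h3] at h2

end Pool.Agent.H670R4
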