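import Pool.Agent.H670R4.Sub

/-!
# SG2: all blocks have the same orientation
-/

set_option autoImplicit false

namespace Pool.Agent.H670R4

open Pool.Agent.H670R2

theorem sg2_prs (Λ : Lay) (i j : ℕ) : Λ.prs i j = true ↔ i ≤ 6 * Λ.nb ∧ j ≤ 7 * Λ.T ∧
    (j % 7 ≠ 0 → 1 ≤ i % 6 → i % 6 ≤ 4 → Λ.pat (j / 7) (i / 6) = false) ∧
    (i = 6 * Λ.n + 3 → Λ.ins 1 j = false) := by
  unfold Lay.prs
  simp only [Bool.and_eq_true, decide_eq_true_eq, Bool.not_eq_true', Bool.and_eq_false_iff,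
    decide_eq_false_iff_not]
  tauto

theorem sg2_gap (Λ : Lay) (i j : ℕ) : Λ.gap i j = false ↔ (i = 6 * Λ.n + 2 → Λ.ins 2 j = false) := by
  unfold Lay.gap
  simp only [Bool.and_eq_false_iff, decide_eq_false_iff_not]
  tauto

theorem sg2_cell (Λ : Lay) (i j : ℕ) : cellB Λ i j = true ↔ Λ.prs i j = true ∧
    Λ.prs (i + 1) j = true ∧ Λ.prs i (j + 1) = true ∧ Λ.prs (i + 1) (j + 1) = true ∧
    Λ.gap i j = false ∧ Λ.gap i (j + 1) = false := by
  unfold cellB
  simp only [Bool.and_eq_true, Bool.not_eq_true']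

theorem sg2_x (Λ : Lay) (β j : ℕ) (hβ : β < Λ.nb) (hj : j < 7 * Λ.T) :
    cellB Λ (6 * β + 5) j = true := by
  rw [sg2_cell]
  simp only [sg2_prs, sg2_gap]
  refine ⟨⟨by omega, by omega, fun _ _ h => by omega, fun h => by omega⟩,
    ⟨by omega, by omega, fun _ h _ => by omega, fun h => by omega⟩,
    ⟨by omega, by omega, fun _ _ h => by omega, fun h => by omega⟩,
    ⟨by omega, by omega, fun _ h _ => by omega, fun h => by omega⟩,
    fun h => by omega, fun h => by omega⟩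

theorem sg2_imp (Λ : Lay) (β r j : ℕ) (hr : r ≤ 4) (h : cellB Λ (6 * β + r) j = true) :
    β < Λ.nb ∧ j < 7 * Λ.T ∧ Λ.pat (j / 7) β = false := by
  rw [sg2_cell] at h
  simp only [sg2_prs] at h
  obtain ⟨⟨h1, h2, h3, -⟩, ⟨h4, -, h5, -⟩, ⟨-, h6, h7, -⟩, ⟨-, -, h8, -⟩, -⟩ := h
  have e1 : (6 * β + r) / 6 = β := by omega
  have e2 : (6 * β + r) % 6 = r := by omega
  have e3 : (6 * β + r + 1) / 6 = β := by omega
  have e4 : (6 * β + r + 1) % 6 = r + 1 := by omega
  rw [e1, e2] at h3 h7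
  rw [e3, e4] at h5 h8
  refine ⟨by omega, by omega, ?_⟩
  by_cases hj : j % 7 = 0
  · have e5 : (j + 1) / 7 = j / 7 := by omega
    rw [e5] at h7 h8
    by_cases hr0 : r = 0
    · exact h8 (by omega) (by omega) (by omega)
    · exact h7 (by omega) (by omega) (by omega)
  · by_cases hr0 : r = 0
    · exact h5 hj (by omega) (by omega)
    · exact h3 hj (by omega) (by omega)

theorem sg2_mk (Λ : Lay) (β r j : ℕ) (hr : r ≤ 4) (hβ : β < Λ.nb) (hj : j < 7 * Λ.T)
    (hp : Λ.pat (j / 7) β = false)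
    (h1 : 2 ≤ r → r ≤ 3 → β = Λ.n → Λ.ins 1 j = false ∧ Λ.ins 1 (j + 1) = false)
    (h2 : r = 2 → β = Λ.n → Λ.ins 2 j = false ∧ Λ.ins 2 (j + 1) = false) :
    cellB Λ (6 * β + r) j = true := by
  rw [sg2_cell]
  simp only [sg2_prs, sg2_gap]
  have e1 : (6 * β + r) / 6 = β := by omega
  have e3 : (6 * β + r + 1) / 6 = β := by omega
  rw [e1, e3]
  have hj1 : (j + 1) % 7 ≠ 0 → (j + 1) / 7 = j / 7 := fun h => by omega
  refine ⟨⟨by omega, by omega, fun _ _ _ => hp, fun h => ?_⟩,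
    ⟨by omega, by omega, fun _ _ _ => hp, fun h => ?_⟩,
    ⟨by omega, by omega, fun h _ _ => by rw [hj1 h]; exact hp, fun h => ?_⟩,
    ⟨by omega, by omega, fun h _ _ => by rw [hj1 h]; exact hp, fun h => ?_⟩,
    fun h => ?_, fun h => ?_⟩
  · exact (h1 (by omega) (by omega) (by omega)).1
  · exact (h1 (by omega) (by omega) (by omega)).1
  · exact (h1 (by omega) (by omega) (by omega)).2
  · exact (h1 (by omega) (by omega) (by omega)).2
  · exact (h2 (by omega) (by omega)).1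
  · exact (h2 (by omega) (by omega)).2

/-- a level where the block is intact -/
theorem sg2_level (Λ : Lay) (hΛ : Λ.Ok) (β : ℕ) : ∃ t < Λ.T, Λ.pat t β = false ∧ Λ.cl t = 0 := by
  have hn := hΛ.n2
  obtain ⟨i, hi, h1, h2⟩ : ∃ i < Λ.n, β ≠ i ∧ β ≠ Λ.n + 1 + i := by
    by_cases h0 : β = 0 ∨ β = Λ.n + 1
    · exact ⟨1, by omega, by omega, by omega⟩
    · exact ⟨0, by omega, by omega, by omega⟩
  obtain ⟨t, ht, ha, hb, hk⟩ := hΛ.tie i hi
  refine ⟨t, ht, ?_, ?_⟩
  · unfold Lay.pat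
    rw [ha, hb, hk]
    simp [h1, h2]
  · unfold Lay.cl
    rw [hk]
    simp

theorem sg2_full (Λ : Lay) (β r t : ℕ) (hr : r ≤ 4) (hβ : β < Λ.nb) (ht : t < Λ.T)
    (hp : Λ.pat t β = false) (hc : Λ.cl t = 0) : cellB Λ (6 * β + r) (7 * t + 1) = true := by
  have e1 : (7 * t + 1) / 7 = t := by omega
  have e2 : (7 * t + 1 + 1) / 7 = t := by omega
  have i1 : ∀ c, c ≠ 0 → Λ.ins c (7 * t + 1) = false := by
    intro c hc0
    unfold Lay.ins
    rw [if_neg (by omega), e1, hc]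
    exact decide_eq_false (fun h => hc0 h.symm)
  have i2 : ∀ c, c ≠ 0 → Λ.ins c (7 * t + 1 + 1) = false := by
    intro c hc0
    unfold Lay.ins
    rw [if_neg (by omega), e2, hc]
    exact decide_eq_false (fun h => hc0 h.symm)
  refine sg2_mk Λ β r _ hr hβ (by omega) (by rw [e1]; exact hp)
    (fun _ _ _ => ⟨i1 1 (by norm_num), i2 1 (by norm_num)⟩)
    (fun _ _ => ⟨i1 2 (by norm_num), i2 2 (by norm_num)⟩)

/-- SG2 -/
theorem sg2_ok : St_sg2 := by
  intro hsg1 Λ hΛ p hP hL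
  have hB := hsg1 Λ hΛ p hP hL
  choose! s hs using hB
  -- the `x` column
  have hx : ∀ β, β < Λ.nb → ∀ j, j < 7 * Λ.T → (sgc p (6 * β + 5) j ↔ sgc p (6 * β + 5) 0) := by
    intro β hβ j
    induction j with
    | zero => exact fun _ => Iff.rfl
    | succ j ih =>
      intro hj
      exact (hL.ver _ _ (sg2_x Λ β j hβ (by omega)) (sg2_x Λ β (j + 1) hβ hj)).symm.trans
        (ih (by omega))
  -- inside a block
  have h1 : ∀ β, β < Λ.nb → (s β ↔ sgc p (6 * β + 5) 0) := by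
    intro β hβ
    obtain ⟨t, ht, hp, hc⟩ := sg2_level Λ hΛ β
    have c1 := sg2_full Λ β 1 t (by norm_num) hβ ht hp hc
    have c2 := sg2_full Λ β 2 t (by norm_num) hβ ht hp hc
    have c3 := sg2_full Λ β 3 t (by norm_num) hβ ht hp hc
    have c4 := sg2_full Λ β 4 t (by norm_num) hβ ht hp hc
    have c5 := sg2_x Λ β (7 * t + 1) hβ (by omega)
    exact ((hs β hβ).cell _ c1).symm.trans ((hL.hor _ _ c1 c2).trans ((hL.hor _ _ c2 c3).trans
      ((hL.hor _ _ c3 c4).trans ((hL.hor _ _ c4 c5).trans (hx β hβ _ (by omega))))))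
  -- consecutive blocks
  have h2 : ∀ β, β + 1 < Λ.nb → (s β ↔ s (β + 1)) := by
    intro β hβ
    obtain ⟨t, ht, hp, hc⟩ := sg2_level Λ hΛ (β + 1)
    have c0 := sg2_full Λ (β + 1) 0 t (by norm_num) hβ ht hp hc
    have c1 := sg2_full Λ (β + 1) 1 t (by norm_num) hβ ht hp hc
    have c5 := sg2_x Λ β (7 * t + 1) (by omega) (by omega)
    have e : 6 * (β + 1) + 0 = 6 * β + 5 + 1 := by ring
    rw [e] at c0
    have e' : 6 * (β + 1) + 1 = 6 * β + 5 + 1 + 1 := by ring
    have c1' := c1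
    rw [e'] at c1'
    have h3 := hL.hor _ _ c0 c1'
    have h4 := (hs (β + 1) hβ).cell _ c1
    rw [e'] at h4
    exact (h1 β (by omega)).trans ((hx β (by omega) _ (by omega)).symm.trans
      ((hL.hor _ _ c5 c0).trans (h3.trans h4)))
  have h3 : ∀ β, β < Λ.nb → (s β ↔ s 0) := by
    intro β
    induction β with
    | zero => exact fun _ => Iff.rfl
    | succ β ih => exact fun h => (h2 β h).symm.trans (ih (by omega))
  refine ⟨s 0, fun i j hc => ?_, fun β t hβ ht hp => ?_⟩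
  · obtain ⟨β, r, hr, rfl⟩ : ∃ β r, r < 6 ∧ i = 6 * β + r := ⟨i / 6, i % 6, by omega, by omega⟩
    rcases Nat.lt_or_ge r 5 with hr5 | hr5
    · obtain ⟨hβ, hj, hp⟩ := sg2_imp Λ β r j (by omega) hc
      rcases Nat.lt_or_ge r 3 with hr3 | hr3
      · -- columns 0, 1, 2
        have c1 : cellB Λ (6 * β + 1) j = true := sg2_mk Λ β 1 j (by norm_num) hβ hj hp
          (fun h => by omega) (fun h => by omega)
        have k1 : sgc p (6 * β + 1) j ↔ s 0 := ((hs β hβ).cell j c1).trans (h3 β hβ)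
        obtain rfl | rfl | rfl : r = 0 ∨ r = 1 ∨ r = 2 := by omega
        · exact (hL.hor _ _ hc c1).trans k1
        · exact k1
        · exact (hL.hor _ _ c1 hc).symm.trans k1
      · -- columns 3, 4
        have c4 : cellB Λ (6 * β + 4) j = true := sg2_mk Λ β 4 j (by norm_num) hβ hj hp
          (fun _ h => by omega) (fun h => by omega)
        have c5 := sg2_x Λ β j hβ hj
        have k4 : sgc p (6 * β + 4) j ↔ s 0 := (hL.hor _ _ c4 c5).trans
          ((hx β hβ j hj).trans ((h1 β hβ).symm.trans (h3 β hβ)))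
        obtain rfl | rfl : r = 3 ∨ r = 4 := by omega
        · exact (hL.hor _ _ hc c4).trans k4
        · exact k4
    · -- column 5
      obtain rfl : r = 5 := by omega
      have h4 : β < Λ.nb ∧ j < 7 * Λ.T := by
        rw [sg2_cell] at hc
        simp only [sg2_prs] at hc
        exact ⟨by have := hc.2.1.1; omega, by have := hc.2.2.1.2.1; omega⟩
      exact (hx β h4.1 j h4.2).trans ((h1 β h4.1).symm.trans (h3 β h4.1))
  · exact ((hs β hβ).pt t ht hp).trans (h3 β hβ)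

end Pool.Agent.H670R4
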