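import Pool.Agent.H670R4.Sub

/-!
# SG3: the global orientation
-/

namespace Pool.Agent.H670R4

open Pool.Agent.NPC Pool.Agent.NPC.ER Pool.Agent.H670R2
open scoped ComplexConjugate

theorem sg3_cellB {Λ : Lay} {i j : ℕ} (h : cellB Λ i j = true) :
    Λ.prs i j = true ∧ Λ.prs (i + 1) j = true ∧ Λ.prs i (j + 1) = true ∧
      Λ.prs (i + 1) (j + 1) = true ∧ Λ.gap i j = false ∧ Λ.gap i (j + 1) = false := by
  unfold cellB at h
  simp only [Bool.and_eq_true, Bool.not_eq_true'] at h
  exact ⟨h.1, h.2.1, h.2.2.1, h.2.2.2.1, h.2.2.2.2.1, h.2.2.2.2.2⟩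

theorem sg3_cr_ne (hl : St_loc) {Λ : Lay} {p : Vt → ℂ} (hP : Pen Λ p) (L : Lor Λ p) {i j : ℕ}
    (h : cellB Λ i j = true) :
    cr (Gp p (i + 1) j - Gp p i j) (Gp p i (j + 1) - Gp p i j) ≠ 0 := by
  obtain ⟨h00, h10, h01, h11, g0, g1⟩ := sg3_cellB h
  have e1 : E Λ (.g i j) (.g (i + 1) j) := E.h i j h00 h10 g0
  have e2 : E Λ (.g i j) (.g i (j + 1)) := E.v i j h00 h01
  have e3 : E Λ (.g i (j + 1)) (.g (i + 1) (j + 1)) := E.h i (j + 1) h01 h11 g1
  have l00 : Live Λ (.g i j) := ⟨_, Or.inl e1⟩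
  have l10 : Live Λ (.g (i + 1) j) := ⟨_, Or.inr e1⟩
  have l01 : Live Λ (.g i (j + 1)) := ⟨_, Or.inr e2⟩
  have l11 : Live Λ (.g (i + 1) (j + 1)) := ⟨_, Or.inr e3⟩
  have hpar := L.par i j h
  apply hl.ne
  · have := hP.edge _ _ e1
    rw [dist_comm, dist_eq_norm] at this
    exact this
  · have := hP.edge _ _ e2
    rw [dist_comm, dist_eq_norm] at this
    exact this
  · have := hP.far _ _ l10 l01 (by simp)
    rw [dist_eq_norm] at this
    rw [show Gp p (i + 1) j - Gp p i j - (Gp p i (j + 1) - Gp p i j) =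
      Gp p (i + 1) j - Gp p i (j + 1) by ring]
    exact this
  · have := hP.far _ _ l11 l00 (by simp)
    rw [dist_eq_norm] at this
    rw [show Gp p (i + 1) j - Gp p i j + (Gp p i (j + 1) - Gp p i j) =
      Gp p (i + 1) (j + 1) - Gp p i j by linear_combination -hpar]
    exact this

theorem sg3_ok : St_sg3 := by
  intro hl hlo hp Λ hΛ p hP L s hs
  by_cases h : s
  · refine ⟨p, hP, ?_, L.par, ?_⟩
    · intro i j hc
      exact (hs.cell i j hc).2 h
    · intro β t hβ ht hpat
      exact L.full β t hβ ht hpat ((hs.pt β t hβ ht hpat).2 h)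
  · have hP' : Pen Λ (fun x => conj (p x)) := by
      refine ⟨fun x y hE => ?_, fun x y hx hy hxy => ?_⟩
      · rw [Complex.dist_conj_conj]
        exact hP.edge x y hE
      · rw [Complex.dist_conj_conj]
        exact hP.far x y hx hy hxy
    have L' := hlo hl hp Λ hΛ _ hP'
    refine ⟨_, hP', ?_, L'.par, ?_⟩
    · intro i j hc
      have h1 : ¬ 0 < cr (Gp p (i + 1) j - Gp p i j) (Gp p i (j + 1) - Gp p i j) :=
        fun h2 => h ((hs.cell i j hc).1 h2)
      have h2 := sg3_cr_ne hl hP L hc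
      have h3 : cr (Gp p (i + 1) j - Gp p i j) (Gp p i (j + 1) - Gp p i j) < 0 :=
        lt_of_le_of_ne (not_lt.1 h1) h2
      have h4 : cr (Gp (fun x => conj (p x)) (i + 1) j - Gp (fun x => conj (p x)) i j)
          (Gp (fun x => conj (p x)) i (j + 1) - Gp (fun x => conj (p x)) i j) =
          -cr (Gp p (i + 1) j - Gp p i j) (Gp p i (j + 1) - Gp p i j) := by
        simp only [Gp, cr, Complex.sub_re, Complex.sub_im, Complex.conj_re, Complex.conj_im]
        ring
      rw [h4]
      linarith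
    · intro β t hβ ht hpat
      apply L'.full β t hβ ht hpat
      rcases (L'.two β t hβ ht hpat).1 with h1 | h1
      · exact h1
      · exfalso
        apply h
        rw [← hs.pt β t hβ ht hpat]
        unfold apx at h1 ⊢
        have h2 := congrArg conj h1
        simp only [Gp, map_add, map_sub, map_mul, Complex.conj_conj] at h2
        exact h2

end Pool.Agent.H670R4
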