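import Pool.Agent.H670R4.Sub

/-!
# Task SLOT: the wires of a slot

Written by helper496.
-/

namespace Pool.Agent.H670R4

open Complex ComplexConjugate

/-- the wires of the slot -/
noncomputable def slot_f (A B q r x q' r' x' : ℂ) : ℕ → ℂ
  | 0 => A
  | 1 => conj A
  | 2 => B
  | 3 => conj B
  | 4 => q
  | 5 => r
  | 6 => x
  | 7 => q'
  | 8 => r'
  | _ => x'

lemma slot_cb {z : ℂ} (h1 : 99 / 100 ≤ z.re) (h2 : 1 / 100 ≤ z.im) (h3 : z.im ≤ 1 / 27) :
    CB z ∧ CB (conj z) := by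
  refine ⟨⟨by linarith, by linarith, by linarith⟩, ?_⟩
  refine ⟨?_, ?_, ?_⟩
  · rw [Complex.conj_re]; linarith
  · rw [Complex.conj_re, Complex.conj_im]; linarith
  · rw [Complex.conj_re, Complex.conj_im]; linarith

theorem slot_ok : St_slot := by
  intro hr hn y hy1 hy2
  have hA1 : 0 ≤ aA y := by unfold aA; linarith
  have hA2 : aA y ≤ 1 / 100 := by unfold aA; linarith
  have hB1 : 0 ≤ aB y := by unfold aB; linarith
  have hB2 : aB y ≤ 1 / 100 := by unfold aB; linarith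
  have nA := hn.un (aA y) hA1 (by linarith)
  have nB := hn.un (aB y) hB1 (by linarith)
  have iA := hn.A y hy1 hy2
  have iB := hn.B y hy1 hy2
  have rA : 99 / 100 ≤ (uv (aA y)).re := by
    show 99 / 100 ≤ 1 - aA y
    linarith
  have rB : 99 / 100 ≤ (uv (aB y)).re := by
    show 99 / 100 ≤ 1 - aB y
    linarith
  have cA := slot_cb rA iA.1 iA.2
  have cB := slot_cb rB iB.1 iB.2
  obtain ⟨q, r, x, hA⟩ := hr 1 (uv (aA y)) (by simp) nA (by simp) (by simp)
    (by simp) (by linarith) iA.1 iA.2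
  obtain ⟨q', r', x', hB⟩ := hr 1 (uv (aB y)) (by simp) nB (by simp) (by simp)
    (by simp) (by linarith) iB.1 iB.2
  rw [one_mul, one_mul] at hA hB
  refine ⟨slot_f (uv (aA y)) (uv (aB y)) q r x q' r' x', rfl, rfl, rfl, rfl, ?_, hA, hB⟩
  intro k hk
  interval_cases k
  · exact ⟨nA, cA.1⟩
  · exact ⟨(Complex.norm_conj _).trans nA, cA.2⟩
  · exact ⟨nB, cB.1⟩
  · exact ⟨(Complex.norm_conj _).trans nB, cB.2⟩
  · exact hA.nq
  · exact hA.nr
  · exact hA.ny
  · exact hB.nq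
  · exact hB.nr
  · exact hB.ny

end Pool.Agent.H670R4
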