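import Pool.Agent.H670R4.Sub

/-!
# Soundness: what a realization gives
-/

namespace Pool.Agent.H670R4

open Pool.Agent.NPC Pool.Agent.NPC.ER Pool.Agent.H670R2
open scoped ComplexConjugate

theorem snd_live0 (Λ : Lay) (i j : ℕ) (h0 : Λ.prs i j = true) (h1 : Λ.prs i (j + 1) = true) :
    Live Λ (.g i j) := ⟨_, Or.inl (E.v i j h0 h1)⟩

theorem snd_live1 (Λ : Lay) (i j : ℕ) (h0 : Λ.prs i j = true) (h1 : Λ.prs i (j + 1) = true) :
    Live Λ (.g i (j + 1)) := ⟨_, Or.inr (E.v i j h0 h1)⟩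

/-- presence of grid points -/
theorem snd_prs_of (Λ : Lay) (i j : ℕ) (hi : i ≤ 6 * Λ.nb) (hj : j ≤ 7 * Λ.T)
    (h1 : j % 7 ≠ 0 → Λ.pat (j / 7) (i / 6) = false) (h2 : i = 6 * Λ.n + 3 → Λ.ins 1 j = false) :
    Λ.prs i j = true := by
  unfold Lay.prs
  have a1 : (decide (j % 7 ≠ 0) &&
      (decide (1 ≤ i % 6) && (decide (i % 6 ≤ 4) && Λ.pat (j / 7) (i / 6)))) = false := by
    by_cases h : j % 7 = 0
    · simp [h]
    · simp [h1 h]
  have a2 : (decide (i = 6 * Λ.n + 3) && Λ.ins 1 j) = false := by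
    by_cases h : i = 6 * Λ.n + 3
    · simp [h2 h]
    · simp [h]
  rw [a1, a2]
  simp [hi, hj]

theorem snd_cl (Λ : Lay) (t : ℕ) (h : Λ.cl t = 2) : 3 ≤ Λ.k t := by
  unfold Lay.cl at h
  split_ifs at h <;> first | assumption | omega

theorem snd_clT (Λ : Lay) (hΛ : Λ.Ok) (t : ℕ) (h : Λ.cl t ≠ 0) : t < Λ.T := by
  by_contra h1
  have h2 := hΛ.out t (by omega)
  apply h
  unfold Lay.cl
  rw [h2]
  norm_num

theorem snd_prs (Λ : Lay) (hΛ : Λ.Ok) (t : ℕ) (hc : Λ.cl t = 2) (i j : ℕ)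
    (hi1 : 6 * Λ.n + 1 ≤ i) (hi2 : i ≤ 6 * Λ.n + 3) (hj1 : 7 * t ≤ j) (hj2 : j ≤ 7 * t + 7) :
    Λ.prs i j = true := by
  have htT : t < Λ.T := snd_clT Λ hΛ t (by omega)
  have hk := snd_cl Λ t hc
  have ha := hΛ.a t
  have hb := hΛ.b t
  apply snd_prs_of
  · simp only [Lay.nb]
    omega
  · omega
  · intro h
    have e1 : j / 7 = t := by omega
    have e2 : i / 6 = Λ.n := by omega
    rw [e1, e2]
    unfold Lay.pat
    have q1 : ¬ Λ.n = Λ.a t := by omega
    have q2 : ¬ Λ.n = Λ.n + 1 + Λ.b t := by omega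
    have q3 : ¬ Λ.k t = 1 := by omega
    simp [q1, q2, q3]
  · intro h
    unfold Lay.ins
    by_cases h7 : j % 7 = 0
    · rw [if_pos h7]
      have e : j / 7 = t ∨ j / 7 = t + 1 := by omega
      rcases e with e | e
      · rw [e, hc]
        simp
      · rw [e, show t + 1 - 1 = t by omega, hc]
        simp
    · rw [if_neg h7]
      have e1 : j / 7 = t := by omega
      rw [e1, hc]
      simp

theorem snd_liveH (Λ : Lay) (hΛ : Λ.Ok) (t : ℕ) (hc : Λ.cl t = 2) (i j : ℕ)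
    (hi1 : 6 * Λ.n + 1 ≤ i) (hi2 : i ≤ 6 * Λ.n + 3) (hj1 : 7 * t ≤ j) (hj2 : j ≤ 7 * t + 7) :
    Live Λ (.g i j) := by
  by_cases h : j = 7 * t + 7
  · subst h
    exact snd_live1 Λ i (7 * t + 6) (snd_prs Λ hΛ t hc i _ hi1 hi2 (by omega) (by omega))
      (snd_prs Λ hΛ t hc i _ hi1 hi2 (by omega) (by omega))
  · exact snd_live0 Λ i j (snd_prs Λ hΛ t hc i _ hi1 hi2 (by omega) (by omega))
      (snd_prs Λ hΛ t hc i _ hi1 hi2 (by omega) (by omega))

theorem snd_ang (Λ : Lay) (hΛ : Λ.Ok) (p : Vt → ℂ) (hP : Pen Λ p) (hpos : Pos Λ p) (w : ℕ → ℂ)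
    (hw : Wd Λ p w) (hr : Rows Λ p w) (i : ℕ) (hi : i < Λ.n) (j : ℕ) (hj : j < Λ.n) (hij : i ≠ j) :
    1 ≤ ‖w i + ro * w j‖ ∧ 1 ≤ ‖w i - ro * w j‖ ∧ 0 < cr (w i) (ro * w j) := by
  obtain ⟨t, htT, hat, hbt, hkt⟩ := hΛ.tie j hj
  have hpat : Λ.pat t i = false := by
    unfold Lay.pat
    have q1 : ¬ i = Λ.a t := by omega
    have q2 : ¬ i = Λ.n + 1 + Λ.b t := by omega
    have q3 : ¬ Λ.k t = 1 := by omega
    simp [q1, q2, q3]
  have P : ∀ x y, x = 6 * i + 1 ∨ x = 6 * i + 2 → y = 7 * t ∨ y = 7 * t + 1 →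
      Λ.prs x y = true := by
    intro x y hx hy
    apply snd_prs_of
    · simp only [Lay.nb]; omega
    · omega
    · intro h
      have e1 : y / 7 = t := by omega
      have e2 : x / 6 = i := by omega
      rw [e1, e2]
      exact hpat
    · intro h
      exfalso
      omega
  have g : ∀ y, Λ.gap (6 * i + 1) y = false := by
    intro y
    unfold Lay.gap
    have : ¬ 6 * i + 1 = 6 * Λ.n + 2 := by omega
    rw [decide_eq_false this]
    rfl
  have hcell : cellB Λ (6 * i + 1) (7 * t) = true := by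
    unfold cellB
    rw [P _ _ (Or.inl rfl) (Or.inl rfl), P (6 * i + 1 + 1) _ (Or.inr rfl) (Or.inl rfl),
      P _ (7 * t + 1) (Or.inl rfl) (Or.inr rfl), P (6 * i + 1 + 1) (7 * t + 1) (Or.inr rfl)
        (Or.inr rfl), g, g]
    rfl
  have hH : Gp p (6 * i + 2) (7 * t) - Gp p (6 * i + 1) (7 * t) = w i :=
    hw.c1 i (by simp only [Lay.nb]; omega) t htT.le
  have hV := hr.left t htT (6 * i + 1) (by omega) (P _ _ (Or.inl rfl) (Or.inr rfl)) 1 (by norm_num)
  rw [hat] at hV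
  have hV' : Gp p (6 * i + 1) (7 * t + 1) - Gp p (6 * i + 1) (7 * t) = ro * w j := by
    rw [hV]
    push_cast
    ring
  have hpar := hpos.par _ _ hcell
  have hc := hpos.cell _ _ hcell
  rw [show 6 * i + 1 + 1 = 6 * i + 2 by omega] at hpar hc
  rw [hH, hV'] at hc
  have L1 : Live Λ (.g (6 * i + 1) (7 * t)) :=
    snd_live0 Λ _ _ (P _ _ (Or.inl rfl) (Or.inl rfl)) (P _ _ (Or.inl rfl) (Or.inr rfl))
  have L2 : Live Λ (.g (6 * i + 1) (7 * t + 1)) :=
    snd_live1 Λ _ _ (P _ _ (Or.inl rfl) (Or.inl rfl)) (P _ _ (Or.inl rfl) (Or.inr rfl))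
  have L3 : Live Λ (.g (6 * i + 2) (7 * t)) :=
    snd_live0 Λ _ _ (P _ _ (Or.inr rfl) (Or.inl rfl)) (P _ _ (Or.inr rfl) (Or.inr rfl))
  have L4 : Live Λ (.g (6 * i + 2) (7 * t + 1)) :=
    snd_live1 Λ _ _ (P _ _ (Or.inr rfl) (Or.inl rfl)) (P _ _ (Or.inr rfl) (Or.inr rfl))
  refine ⟨?_, ?_, hc⟩
  · have h := hP.far _ _ L4 L1 (by simp)
    rw [dist_eq_norm] at h
    have e : w i + ro * w j = p (.g (6 * i + 2) (7 * t + 1)) - p (.g (6 * i + 1) (7 * t)) := by
      rw [← hH, ← hV']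
      simp only [Gp] at hpar ⊢
      linear_combination -hpar
    rw [e]
    exact h
  · have h := hP.far _ _ L3 L2 (by simp)
    rw [dist_eq_norm] at h
    have e : w i - ro * w j = p (.g (6 * i + 2) (7 * t)) - p (.g (6 * i + 1) (7 * t + 1)) := by
      rw [← hH, ← hV']
      simp only [Gp]
      ring
    rw [e]
    exact h

theorem snd_self (e : ℂ) (he : ‖e‖ = 1) :
    1 ≤ ‖e - ro * e‖ ∧ 1 ≤ ‖e + ro * e‖ ∧ 0 < cr e (ro * e) := by
  have h3 : (√3 : ℝ) * √3 = 3 := Real.mul_self_sqrt (by norm_num)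
  have h3' : 0 < (√3 : ℝ) := Real.sqrt_pos.2 (by norm_num)
  have hn : e.re * e.re + e.im * e.im = 1 := by
    have : Complex.normSq e = 1 := by
      rw [Complex.normSq_eq_norm_sq, he]
      norm_num
    rw [Complex.normSq_apply] at this
    exact this
  refine ⟨?_, ?_, ?_⟩
  · have e1 : e - ro * e = (1 - ro) * e := by ring
    rw [e1, norm_mul, he, mul_one]
    have h : 1 ≤ Complex.normSq (1 - ro) := by
      rw [Complex.normSq_apply]
      simp only [ro, Complex.sub_re, Complex.sub_im, Complex.one_re, Complex.one_im]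
      nlinarith [h3]
    rw [Complex.norm_def]
    exact Real.one_le_sqrt.2 h
  · have e1 : e + ro * e = (1 + ro) * e := by ring
    rw [e1, norm_mul, he, mul_one]
    have h : 1 ≤ Complex.normSq (1 + ro) := by
      rw [Complex.normSq_apply]
      simp only [ro, Complex.add_re, Complex.add_im, Complex.one_re, Complex.one_im]
      nlinarith [h3]
    rw [Complex.norm_def]
    exact Real.one_le_sqrt.2 h
  · unfold cr
    rw [Complex.mul_re, Complex.mul_im]
    simp only [ro]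
    have : e.re * (-(1 / 7) * e.im + 4 * √3 / 7 * e.re) -
        e.im * (-(1 / 7) * e.re - 4 * √3 / 7 * e.im) =
        4 * √3 / 7 * (e.re * e.re + e.im * e.im) := by ring
    rw [this, hn]
    positivity

theorem snd2_ok : St_snd2 := by
  intro _ hpend Λ hΛ p hP hpos w hw hr hh
  have hang := snd_ang Λ hΛ p hP hpos w hw hr
  refine ⟨fun i hi => hw.nrm i (by simp only [Lay.nb]; omega), ?_, ?_, ?_, ?_⟩
  · intro i hi j hj hij
    exact hang i hi j hj hij
  · intro t h0 h1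
    have htT := snd_clT Λ hΛ t h0
    have hk := hΛ.dn t h0 (by rw [h1]; exact fun h => h0 h.symm)
    obtain ⟨c2, c3⟩ := hw.c23 Λ.n (by simp only [Lay.nb]; omega) (t + 1) (by omega)
      (fun _ => Or.inl hk)
    rcases hh.dif (7 * (t + 1)) (by omega) with h | ⟨t', _, _, h2, h3⟩
    · have h4 : Dw Λ w (7 * (t + 1)) = 0 := by
        linear_combination c2 + c3 - h
      exact h4
    · exfalso
      omega
  · intro j hj
    have hcl : Λ.cl (j / 7) = 2 := by
      unfold Lay.ins at hj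
      split_ifs at hj
      · simp only [Bool.and_eq_true, decide_eq_true_eq] at hj
        exact hj.2.2
      · simpa using hj
    have htT := snd_clT Λ hΛ (j / 7) (by omega)
    have h := hh.d3 (j / 7) htT hcl (j % 7) (by omega)
    rw [show 7 * (j / 7) + j % 7 = j by omega, hr.mid] at h
    rw [← h]
    have h1 := hP.far (.g (6 * Λ.n + 3) j) (.g (6 * Λ.n + 2) j)
      (snd_liveH Λ hΛ (j / 7) hcl _ _ (by omega) (by omega) (by omega) (by omega))
      (snd_liveH Λ hΛ (j / 7) hcl _ _ (by omega) (by omega) (by omega) (by omega)) (by simp)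
    rw [dist_eq_norm] at h1
    exact h1
  · intro t hkt hD
    have hcl : Λ.cl t = 2 := by
      unfold Lay.cl
      rw [hkt]
      norm_num
    have htT := snd_clT Λ hΛ t (by omega)
    obtain ⟨ht0, hcl'⟩ := hΛ.pen t hkt
    obtain ⟨s, rfl⟩ : ∃ s, t = s + 1 := ⟨t - 1, by omega⟩
    rw [show s + 1 - 1 = s by omega] at hcl'
    have hsT : s < Λ.T := by omega
    -- the vectors
    have hn2 := hΛ.n2
    have hmid := hr.mid
    have hw0 : ‖w Λ.n‖ = 1 := hw.nrm _ (by simp only [Lay.nb]; omega)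
    have hcond : ∀ i < Λ.n, ‖w i‖ = 1 ∧ 1 ≤ ‖w Λ.n - ro * w i‖ ∧ 1 ≤ ‖w Λ.n + ro * w i‖ ∧
        0 < cr (w Λ.n) (ro * w i) ∧ 1 ≤ ‖w i - ro * w Λ.n‖ ∧ 1 ≤ ‖w i + ro * w Λ.n‖ ∧
        0 < cr (w i) (ro * w Λ.n) := by
      intro i hi
      have hwi : ‖w i‖ = 1 := hw.nrm _ (by simp only [Lay.nb]; omega)
      rw [hmid]
      by_cases h0 : i = 0
      · subst h0
        obtain ⟨a1, a2, a3⟩ := snd_self (w 0) hwi
        exact ⟨hwi, a1, a2, a3, a1, a2, a3⟩
      · obtain ⟨a1, a2, a3⟩ := hang 0 (by omega) i hi (fun h => h0 h.symm)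
        obtain ⟨b1, b2, b3⟩ := hang i hi 0 (by omega) h0
        exact ⟨hwi, a2, a1, a3, b2, b1, b3⟩
    have P1 : ∀ i j, 6 * Λ.n + 1 ≤ i → i ≤ 6 * Λ.n + 3 → 7 * s ≤ j → j ≤ 7 * s + 14 →
        Λ.prs i j = true := by
      intro i j h1 h2 h3 h4
      by_cases h5 : j ≤ 7 * s + 7
      · exact snd_prs Λ hΛ s hcl' i j h1 h2 h3 h5
      · exact snd_prs Λ hΛ (s + 1) hcl i j h1 h2 (by omega) (by omega)
    have LL : ∀ i j, 6 * Λ.n + 1 ≤ i → i ≤ 6 * Λ.n + 3 → 7 * s ≤ j → j < 7 * s + 14 →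
        Live Λ (.g i j) := by
      intro i j h1 h2 h3 h4
      exact snd_live0 Λ i j (P1 i j h1 h2 h3 h4.le) (P1 i (j + 1) h1 h2 (by omega) (by omega))
    have hE := E.pe (Λ := Λ) (s + 1) htT hkt
    have Lp : Live Λ (.pe (s + 1)) := ⟨_, Or.inl hE⟩
    have hz := hP.edge _ _ hE
    rw [dist_eq_norm] at hz
    -- positions
    have hc1 := hw.c1 Λ.n (by simp only [Lay.nb]; omega) (s + 1) htT.le
    have hd3 := hh.d3 (s + 1) htT hcl 0 (by norm_num)
    rw [show 7 * (s + 1) + 0 = 7 * (s + 1) from rfl, hD, add_zero] at hd3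
    have hl1 := hr.left (s + 1) htT (6 * Λ.n + 2) le_rfl
      (P1 _ _ (by omega) (by omega) (by omega) (by omega)) 1 (by norm_num)
    have hr1 := hr.right (s + 1) htT (6 * Λ.n + 3) le_rfl (by simp only [Lay.nb]; omega)
      (P1 _ _ (by omega) (by omega) (by omega) (by omega)) 1 (by norm_num)
    have hl6 := hr.left s hsT (6 * Λ.n + 2) le_rfl
      (P1 _ _ (by omega) (by omega) (by omega) (by omega)) 6 (by norm_num)
    have hl7 := hr.left s hsT (6 * Λ.n + 2) le_rfl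
      (P1 _ _ (by omega) (by omega) (by omega) (by omega)) 7 (by norm_num)
    have hm6 := hr.left s hsT (6 * Λ.n + 1) (by omega)
      (P1 _ _ (by omega) (by omega) (by omega) (by omega)) 6 (by norm_num)
    have hm7 := hr.left s hsT (6 * Λ.n + 1) (by omega)
      (P1 _ _ (by omega) (by omega) (by omega) (by omega)) 7 (by norm_num)
    rw [show 7 * s + 7 = 7 * (s + 1) by omega] at hl7 hm7
    push_cast at hl1 hr1 hl6 hl7 hm6 hm7
    have F : ∀ i j, 6 * Λ.n + 1 ≤ i → i ≤ 6 * Λ.n + 3 → 7 * s ≤ j → j < 7 * s + 14 →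
        1 ≤ ‖p (.pe (s + 1)) - Gp p i j‖ := by
      intro i j h1 h2 h3 h4
      have h := hP.far _ _ Lp (LL i j h1 h2 h3 h4) (by simp)
      rw [dist_eq_norm] at h
      exact h
    refine hpend (w Λ.n) (w (Λ.a (s + 1))) (w (Λ.b (s + 1))) (w (Λ.a s))
      (p (.pe (s + 1)) - Gp p (6 * Λ.n + 2) (7 * (s + 1))) hw0 hz ?_ ?_ ?_ ?_ ?_ ?_ ?_
    · intro x hx
      simp only [List.mem_cons, List.not_mem_nil, or_false] at hx
      rcases hx with rfl | rfl | rfl
      · exact hcond _ (hΛ.a _)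
      · exact hcond _ (hΛ.b _)
      · exact hcond _ (hΛ.a _)
    · have h := F (6 * Λ.n + 3) (7 * (s + 1)) (by omega) (by omega) (by omega) (by omega)
      have e : p (.pe (s + 1)) - Gp p (6 * Λ.n + 2) (7 * (s + 1)) - w Λ.n =
          p (.pe (s + 1)) - Gp p (6 * Λ.n + 3) (7 * (s + 1)) := by
        linear_combination hd3
      rw [e]
      exact h
    · have h := F (6 * Λ.n + 2) (7 * (s + 1) + 1) (by omega) (by omega) (by omega) (by omega)
      have e : p (.pe (s + 1)) - Gp p (6 * Λ.n + 2) (7 * (s + 1)) - ro * w (Λ.a (s + 1)) =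
          p (.pe (s + 1)) - Gp p (6 * Λ.n + 2) (7 * (s + 1) + 1) := by
        linear_combination hl1
      rw [e]
      exact h
    · have h := F (6 * Λ.n + 3) (7 * (s + 1) + 1) (by omega) (by omega) (by omega) (by omega)
      have e : p (.pe (s + 1)) - Gp p (6 * Λ.n + 2) (7 * (s + 1)) -
          (w Λ.n + ro * w (Λ.b (s + 1))) =
          p (.pe (s + 1)) - Gp p (6 * Λ.n + 3) (7 * (s + 1) + 1) := by
        linear_combination hd3 + hr1
      rw [e]
      exact h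
    · have h := F (6 * Λ.n + 2) (7 * s + 6) (by omega) (by omega) (by omega) (by omega)
      have e : p (.pe (s + 1)) - Gp p (6 * Λ.n + 2) (7 * (s + 1)) + ro * w (Λ.a s) =
          p (.pe (s + 1)) - Gp p (6 * Λ.n + 2) (7 * s + 6) := by
        linear_combination hl6 - hl7
      rw [e]
      exact h
    · have h := F (6 * Λ.n + 1) (7 * (s + 1)) (by omega) (by omega) (by omega) (by omega)
      have e : p (.pe (s + 1)) - Gp p (6 * Λ.n + 2) (7 * (s + 1)) + w Λ.n =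
          p (.pe (s + 1)) - Gp p (6 * Λ.n + 1) (7 * (s + 1)) := by
        linear_combination -hc1
      rw [e]
      exact h
    · have h := F (6 * Λ.n + 1) (7 * s + 6) (by omega) (by omega) (by omega) (by omega)
      have e : p (.pe (s + 1)) - Gp p (6 * Λ.n + 2) (7 * (s + 1)) + w Λ.n + ro * w (Λ.a s) =
          p (.pe (s + 1)) - Gp p (6 * Λ.n + 1) (7 * s + 6) := by
        linear_combination -hc1 + hm6 - hm7
      rw [e]
      exact h

end Pool.Agent.H670R4
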