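import Pool.Agent.H670R4.Sub

/-!
# Differences of the positions of lines and rows
-/

namespace Pool.Agent.H670R4

open Pool.Agent.NPC Pool.Agent.NPC.ER Pool.Agent.H670R2
open scoped ComplexConjugate

theorem uv_sum (hc : St_cone) (f : ℕ → ℂ) (i i' : ℕ) (h : i < i')
    (hf : ∀ m, m < i' → CB (f m) ∧ ‖f m‖ = 1) :
    CB (∑ m ∈ Finset.range i', f m - ∑ m ∈ Finset.range i, f m) ∧
    49 / 50 * ((i' : ℝ) - i) ≤ (∑ m ∈ Finset.range i', f m - ∑ m ∈ Finset.range i, f m).re ∧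
    1 ≤ ‖∑ m ∈ Finset.range i', f m - ∑ m ∈ Finset.range i, f m‖ := by
  have e : ∑ m ∈ Finset.range i', f m - ∑ m ∈ Finset.range i, f m = ∑ m ∈ Finset.Ico i i', f m := by
    rw [Finset.sum_Ico_eq_sub _ h.le]
  have k := hc.su f (Finset.Ico i i') (fun m hm => hf m (Finset.mem_Ico.1 hm).2)
  have c : ((Finset.Ico i i').card : ℝ) = (i' : ℝ) - i := by
    rw [Nat.card_Ico, Nat.cast_sub h.le]
  rw [e, ← c]
  refine ⟨k.1, k.2.1, k.2.2 ?_⟩
  rw [Nat.card_Ico]
  omega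

theorem uv_cl (Λ : Lay) (t : ℕ) : Λ.cl t = 0 ∨ Λ.cl t = 1 ∨ Λ.cl t = 2 := by
  unfold Lay.cl
  split_ifs <;> simp

theorem uv_step (Λ : Lay) (hΛ : Λ.Ok) (u : ℕ → ℂ) (t : ℕ) (h : Λ.cl t = 0) (h0 : Dw Λ u (7 * t) = 0)
    (s : ℕ) (hs : s ≤ 7) : Dw Λ u (7 * t + s) = 0 := by
  induction s with
  | zero => simpa using h0
  | succ s ih =>
    have ih' := ih (by omega)
    unfold Dw at ih' ⊢
    rw [← add_assoc, Finset.sum_range_succ, mul_add, ih']
    have e : (7 * t + s) / 7 = t := by omega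
    rw [e, hΛ.eq t h]
    simp

theorem uv_zero (Λ : Lay) (hΛ : Λ.Ok) (u : ℕ → ℂ) (hu : Cmp Λ u) (t : ℕ) :
    Λ.cl t = 0 → Dw Λ u (7 * t) = 0 := by
  induction t with
  | zero => intro _; simp [Dw]
  | succ t ih =>
    intro h
    by_cases h0 : Λ.cl t = 0
    · exact uv_step Λ hΛ u t h0 (ih h0) 7 le_rfl
    · exact hu.clo t h0 h

theorem uv_in (Λ : Lay) (hΛ : Λ.Ok) (u : ℕ → ℂ) (hu : Cmp Λ u) (t : ℕ) (h : Λ.cl t = 0)
    (s : ℕ) (hs : s ≤ 7) : Dw Λ u (7 * t + s) = 0 :=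
  uv_step Λ hΛ u t h (uv_zero Λ hΛ u hu t h) s hs

theorem uv_out (Λ : Lay) (hΛ : Λ.Ok) (u : ℕ → ℂ) (hu : Cmp Λ u) (j : ℕ) (h1 : Λ.ins 1 j = false)
    (h2 : Λ.ins 2 j = false) : Dw Λ u j = 0 := by
  have hj : 7 * (j / 7) + j % 7 = j := Nat.div_add_mod j 7
  by_cases hm : j % 7 = 0
  · by_cases hp : 0 < j / 7
    · unfold Lay.ins at h1 h2
      rw [if_pos hm] at h1 h2
      simp only [hp, decide_true, Bool.true_and, Bool.and_eq_false_iff, decide_eq_false_iff_not]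
        at h1 h2
      by_cases hc : Λ.cl (j / 7) = 0
      · have := uv_in Λ hΛ u hu (j / 7) hc (j % 7) (by omega)
        rwa [hj] at this
      by_cases hc' : Λ.cl (j / 7 - 1) = 0
      · have := uv_in Λ hΛ u hu (j / 7 - 1) hc' 7 le_rfl
        have e : 7 * (j / 7 - 1) + 7 = j := by omega
        rwa [e] at this
      exfalso
      have hd : Λ.cl (j / 7) = Λ.cl (j / 7 - 1) := by
        by_contra hne
        have e : j / 7 - 1 + 1 = j / 7 := by omega
        have := hΛ.dn (j / 7 - 1) hc' (by rw [e]; exact hne)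
        rw [e] at this
        apply hc
        unfold Lay.cl
        rw [this]
        simp
      rcases uv_cl Λ (j / 7) with h | h | h
      · exact hc h
      · rcases h1 with h1 | h1
        · exact h1 (by rw [← hd, h])
        · exact h1 h
      · rcases h2 with h2 | h2
        · exact h2 (by rw [← hd, h])
        · exact h2 h
    · have : j = 0 := by omega
      subst this
      simp [Dw]
  · unfold Lay.ins at h1 h2
    rw [if_neg hm] at h1 h2
    simp only [decide_eq_false_iff_not] at h1 h2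
    have hc : Λ.cl (j / 7) = 0 := by
      rcases uv_cl Λ (j / 7) with h | h | h
      · exact h
      · exact absurd h h1
      · exact absurd h h2
    have := uv_in Λ hΛ u hu (j / 7) hc (j % 7) (by omega)
    rwa [hj] at this

theorem uv_cn (Λ : Lay) (hΛ : Λ.Ok) (u : ℕ → ℂ) (hu : Cmp Λ u) (β : ℕ) (hβ : β < Λ.nb) :
    ‖cw Λ u β‖ = 1 ∧ CB (cw Λ u β) := by
  have h2 := hΛ.n2
  unfold Lay.nb at hβ
  unfold cw
  split_ifs with h h'
  · exact ⟨hu.nrm β h, hu.cone β h⟩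
  · exact ⟨hu.nrm 0 (by omega), hu.cone 0 (by omega)⟩
  · exact ⟨hu.nrm _ (by omega), hu.cone _ (by omega)⟩

theorem uv_pw (Λ : Lay) (hΛ : Λ.Ok) (u : ℕ → ℂ) (β t : ℕ) (h : Λ.pat t β = true) :
    cw Λ u β = (if β ≤ Λ.n then u (Λ.a t) else u (Λ.b t)) := by
  unfold Lay.pat at h
  simp only [Bool.or_eq_true, decide_eq_true_eq, Bool.and_eq_true] at h
  rcases h with h | h | ⟨h, h'⟩
  · have := hΛ.a t
    rw [cw, if_pos (by omega), if_pos (by omega), h]
  · have := hΛ.b t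
    have e : β - Λ.n - 1 = Λ.b t := by omega
    rw [cw, if_neg (by omega), if_neg (by omega), if_neg (by omega), e]
  · rw [cw, if_neg (by omega), if_pos h, if_pos (by omega), hΛ.m t h']

theorem uv_ok : St_uv := by
  intro hc Λ hΛ u hu
  refine ⟨?_, ?_, ?_, ?_, ?_, ?_, ?_⟩
  · intro i i' h h'
    exact uv_sum hc (fun m => cw Λ u (m / 6)) i i' h (fun m hm =>
      (uv_cn Λ hΛ u hu (m / 6) (by omega)).symm)
  · intro j j' h
    exact uv_sum hc (fun r => u (Λ.a (r / 7))) j j' h (fun m _ =>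
      ⟨hu.cone _ (hΛ.a _), hu.nrm _ (hΛ.a _)⟩)
  · intro j j' h
    exact uv_sum hc (fun r => u (Λ.b (r / 7))) j j' h (fun m _ =>
      ⟨hu.cone _ (hΛ.b _), hu.nrm _ (hΛ.b _)⟩)
  · intro j
    unfold Dw VL VR
    rw [Finset.sum_sub_distrib]
  · intro j h1 h2
    exact uv_out Λ hΛ u hu j h1 h2
  · intro β hβ
    exact uv_cn Λ hΛ u hu β hβ
  · intro β t h
    exact uv_pw Λ hΛ u β t h

end Pool.Agent.H670R4
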