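import Pool.Agent.H670R4.Sub

/-!
# VAL: all holes are valid
-/

set_option autoImplicit false

namespace Pool.Agent.H670R4

open Pool.Agent.H670R2

theorem val_rev (n p s x q : ℕ) (hp : p < n) (hs : s < n) (hx : x < n) (hq : q + 2 < n) :
    ∀ h ∈ rev p s x q, hOk n h := by
  intro h hh
  simp only [rev, List.mem_cons, List.not_mem_nil, or_false] at hh
  rcases hh with rfl | rfl
  · refine ⟨?_, by simp, by simp⟩
    intro y hy
    simp only [List.mem_cons, List.not_mem_nil, or_false] at hy
    rcases hy with rfl | rfl
    · exact ⟨by show q < n; omega, hp⟩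
    · exact ⟨hs, by show q + 1 < n; omega⟩
  · refine ⟨?_, by simp, by simp⟩
    intro y hy
    simp only [List.mem_cons, List.not_mem_nil, or_false] at hy
    rcases hy with rfl | rfl
    · exact ⟨by show q + 1 < n; omega, hx⟩
    · exact ⟨hp, by show q + 2 < n; omega⟩

theorem val_four (n a b c d a' b' c' d' : ℕ) (h1 : a < n) (h2 : b < n) (h3 : c < n) (h4 : d < n)
    (h5 : a' < n) (h6 : b' < n) (h7 : c' < n) (h8 : d' < n) :
    hOk n (0, [(a, a'), (b, b'), (c, c'), (d, d')]) := by
  refine ⟨?_, by simp, by simp⟩
  intro y hy
  simp only [List.mem_cons, List.not_mem_nil, or_false] at hy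
  rcases hy with rfl | rfl | rfl | rfl
  · exact ⟨h1, h5⟩
  · exact ⟨h2, h6⟩
  · exact ⟨h3, h7⟩
  · exact ⟨h4, h8⟩

theorem val_slot (n v : ℕ) (hv : 10 * v + 10 < n) : ∀ h ∈ hSlot v, hOk n h := by
  intro h hh
  unfold hSlot at hh
  rw [List.mem_append, List.mem_append, List.mem_singleton] at hh
  rcases hh with hh | hh | rfl
  · exact val_rev n _ _ _ _ (by omega) (by unfold sW; omega) (by unfold sW; omega)
      (by unfold sW; omega) h hh
  · exact val_rev n _ _ _ _ (by omega) (by unfold sW; omega) (by unfold sW; omega)
      (by unfold sW; omega) h hh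
  · apply val_four <;> (unfold sW; omega)

theorem val_add (n i j k : ℕ) (hi : 10 * i + 10 < n) (hj : 10 * j + 10 < n)
    (hk : 10 * k + 10 < n) : hOk n (hAdd i j k) := by
  unfold hAdd
  apply val_four <;> (unfold sW; omega)

theorem val_pr (n X i j : ℕ) (hi : 10 * i + 10 < n) (hj : 10 * j + 10 < n) (hX : X + 15 < n) :
    ∀ h ∈ hPr X i j, hOk n h := by
  intro h hh
  unfold hPr at hh
  rw [List.mem_append, List.mem_append, List.mem_append] at hh
  rcases hh with hh | hh | hh | hh
  · exact val_rev n _ _ _ _ (by unfold sW; omega) (by omega) (by omega) (by omega) h hh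
  · exact val_rev n _ _ _ _ (by unfold sW; omega) (by omega) (by omega) (by omega) h hh
  · exact val_rev n _ _ _ _ (by omega) (by omega) (by omega) (by omega) h hh
  · exact val_rev n _ _ _ _ (by omega) (by omega) (by omega) (by omega) h hh

theorem val_mul (n X i j k : ℕ) (hi : 10 * i + 10 < n) (hj : 10 * j + 10 < n)
    (hk : 10 * k + 10 < n) (h4 : 50 < n) (hX : X + 95 < n) :
    ∀ h ∈ hMul X i j k, hOk n h := by
  intro h hh
  unfold hMul at hh
  simp only [List.mem_append, List.mem_singleton] at hh
  rcases hh with hh | hh | hh | hh | hh | hh | rfl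
  · exact val_pr n _ _ _ hi hj (by omega) h hh
  · exact val_pr n _ _ _ (by omega) (by omega) (by omega) h hh
  · exact val_pr n _ _ _ (by omega) hk (by omega) h hh
  · exact val_pr n _ _ _ (by omega) hk (by omega) h hh
  · exact val_pr n _ _ _ hi (by omega) (by omega) h hh
  · exact val_pr n _ _ _ (by omega) hj (by omega) h hh
  · refine ⟨?_, ?_, by simp⟩
    · intro y hy
      simp only [List.mem_flatMap, List.mem_map, List.mem_range] at hy
      obtain ⟨l, hl, r, hr, rfl⟩ := hy
      exact ⟨by show X + 16 * l + r < n; omega, by show X + 48 + 16 * l + r < n; omega⟩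
    · intro _ h0
      have : (X + 16 * 0 + 0, X + 48 + 16 * 0 + 0) ∈ ((List.range 3).flatMap fun l =>
          (List.range 4).map fun r => (X + 16 * l + r, X + 48 + 16 * l + r)) := by
        simp only [List.mem_flatMap, List.mem_map, List.mem_range]
        exact ⟨0, by omega, 0, by omega, rfl⟩
      simp only at h0
      rw [h0] at this
      exact absurd this (by simp)

theorem val_ok : St_val := by
  intro m es hes
  have hn : nW m es = 91 + 10 * m + 96 * es.length := by unfold nW nS; omega
  refine ⟨by omega, ?_⟩
  intro h hh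
  unfold hAll at hh
  simp only [List.mem_append, List.mem_cons, List.mem_flatMap, List.mem_map, List.mem_range] at hh
  rcases hh with ⟨v, hv, hh⟩ | ⟨v, hv, rfl⟩ | rfl | ⟨e, he, hh⟩
  · unfold nS at hv
    exact val_slot _ v (by omega) h hh
  · exact val_add _ _ _ _ (by omega) (by omega) (by omega)
  · refine ⟨?_, by simp, by simp⟩
    intro y hy
    simp only [List.mem_cons, List.not_mem_nil, or_false] at hy
    rcases hy with rfl | rfl
    · exact ⟨by show sW 8 0 < _; unfold sW; omega, by show sW 0 0 < _; unfold sW; omega⟩
    · exact ⟨by show sW 0 0 < _; unfold sW; omega, by show sW 8 0 < _; unfold sW; omega⟩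
  · obtain ⟨e, t⟩ := e
    have h1 := List.mem_zipIdx he
    simp only [Nat.zero_add, Nat.sub_zero] at h1
    have ht : t < es.length := h1.2.1
    have hee : e ∈ es := by rw [h1.2.2]; exact List.getElem_mem _
    have hb := hes e hee
    simp only at hh
    cases e with
    | one i =>
      simp only [hEq, List.mem_singleton] at hh
      subst hh
      simp only [EC.below] at hb
      exact val_add _ _ _ _ (by omega) (by omega) (by omega)
    | add i j k =>
      simp only [hEq, List.mem_singleton] at hh
      subst hh
      simp only [EC.below] at hb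
      exact val_add _ _ _ _ (by omega) (by omega) (by omega)
    | mul i j k =>
      simp only [hEq] at hh
      simp only [EC.below] at hb
      refine val_mul _ _ _ _ _ (by omega) (by omega) (by omega) (by omega) ?_ h hh
      unfold nS
      omega

end Pool.Agent.H670R4
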