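import Pool.Agent.H670R4.Sub

namespace Pool.Agent.H670R4

open Complex
open scoped ComplexConjugate

theorem wall_ofs : ofs 0 8 = 7 * ro := by
  have h : bs 8 = 5 := rfl
  unfold ofs
  rw [h]
  apply Complex.ext
  · simp [om, ro]
    norm_num
  · simp [om, ro]
    ring

theorem wall_ro : ‖ro‖ = 1 := by
  have h3 : √3 * √3 = 3 := Real.mul_self_sqrt (by norm_num)
  have h : ‖ro‖ ^ 2 = 1 := by
    rw [← Complex.normSq_eq_norm_sq, Complex.normSq_apply]
    show -(1 / 7 : ℝ) * -(1 / 7) + 4 * √3 / 7 * (4 * √3 / 7) = 1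
    nlinarith
  have h0 := norm_nonneg ro
  nlinarith

theorem wall_sq (s v : ℂ) (hs : ‖s‖ = 1) (hv : ‖v‖ = 1) :
    ‖s - v‖ ^ 2 = 2 - 2 * (conj v * s).re := by
  have h1 : ‖s‖ ^ 2 = 1 := by rw [hs]; norm_num
  have h2 : ‖v‖ ^ 2 = 1 := by rw [hv]; norm_num
  rw [← Complex.normSq_eq_norm_sq, Complex.normSq_apply] at h1 h2 ⊢
  simp only [Complex.mul_re, Complex.conj_re, Complex.conj_im, Complex.sub_re, Complex.sub_im]
  nlinarith

theorem wall_ok : St_wall := by
  intro L u d d' hu hL hd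
  have hv : ‖ro * u‖ = 1 := by rw [norm_mul, wall_ro, hu, one_mul]
  set v : ℂ := ro * u with hvdef
  have hvv : (conj v * v).re = 1 := by
    rw [← Complex.normSq_eq_conj_mul_self, Complex.ofReal_re, Complex.normSq_eq_norm_sq, hv]
    norm_num
  have hsum : ∑ j ∈ Finset.range 7, (conj v * (L (j + 1) - L j)).re =
      (conj v * d).re + 7 - (conj v * d').re := by
    have e1 : ∑ j ∈ Finset.range 7, (conj v * (L (j + 1) - L j)).re =
        (conj v * (L 7 - L 0)).re := by
      rw [← Complex.re_sum, ← Finset.mul_sum, Finset.sum_range_sub]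
    rw [e1, hd, wall_ofs]
    have e2 : d + u * (7 * ro) - d' = d + 7 * v - d' := by rw [hvdef]; ring
    rw [e2]
    have e3 : conj v * (d + 7 * v - d') = conj v * d + 7 * (conj v * v) - conj v * d' := by ring
    rw [e3, Complex.sub_re, Complex.add_re]
    have e4 : (7 * (conj v * v)).re = 7 * (conj v * v).re := by
      have : (7 : ℂ) = ((7 : ℝ) : ℂ) := by norm_num
      rw [this, Complex.re_ofReal_mul]
    rw [e4, hvv, mul_one]
  have hn : ∀ j < 7, ‖L (j + 1) - L j‖ = 1 := fun j hj => by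
    rw [← dist_eq_norm]; exact hL j hj
  have hle : ∀ j ∈ Finset.range 7, (conj v * (L (j + 1) - L j)).re ≤ 1 := by
    intro j hj
    have h := wall_sq (L (j + 1) - L j) v (hn j (Finset.mem_range.1 hj)) hv
    have h0 := sq_nonneg ‖L (j + 1) - L j - v‖
    linarith
  have hle' := Finset.sum_le_sum hle
  have hc : ∑ _j ∈ Finset.range 7, (1 : ℝ) = 7 := by norm_num
  refine ⟨by linarith, ?_⟩
  intro heq
  have hs7 : ∑ j ∈ Finset.range 7, (conj v * (L (j + 1) - L j)).re =
      ∑ _j ∈ Finset.range 7, (1 : ℝ) := by rw [hsum, hc, heq]; ring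
  have hall := (Finset.sum_eq_sum_iff_of_le hle).1 hs7
  have hst : ∀ j < 7, L (j + 1) - L j = v := by
    intro j hj
    have h := wall_sq (L (j + 1) - L j) v (hn j hj) hv
    have h1 := hall j (Finset.mem_range.2 hj)
    rw [h1] at h
    have h2 : ‖L (j + 1) - L j - v‖ = 0 := by
      have : ‖L (j + 1) - L j - v‖ ^ 2 = 0 := by rw [h]; norm_num
      exact pow_eq_zero_iff (by norm_num) |>.1 this
    exact sub_eq_zero.1 (norm_eq_zero.1 h2)
  intro j hj
  induction j with
  | zero => simp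
  | succ j ih =>
    have h1 := ih (by omega)
    have h2 := hst j (by omega)
    rw [← sub_add_cancel (L (j + 1)) (L j), h2, h1]
    push_cast
    ring

end Pool.Agent.H670R4
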