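import Pool.Agent.H670R4.Sub

/-!
# WR1: the wires of the blocks
-/

namespace Pool.Agent.H670R4

open Pool.Agent.NPC Pool.Agent.NPC.ER Pool.Agent.H670R2
open scoped ComplexConjugate

theorem wr1_prs_iff (Λ : Lay) (i j : ℕ) : Λ.prs i j = true ↔ i ≤ 6 * Λ.nb ∧ j ≤ 7 * Λ.T ∧
    ¬ (j % 7 ≠ 0 ∧ 1 ≤ i % 6 ∧ i % 6 ≤ 4 ∧ Λ.pat (j / 7) (i / 6) = true) ∧
    ¬ (i = 6 * Λ.n + 3 ∧ Λ.ins 1 j = true) := by
  unfold Lay.prs
  simp only [Bool.and_eq_true, Bool.not_eq_true', decide_eq_true_eq, ← Bool.not_eq_true]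

theorem wr1_gap_iff (Λ : Lay) (i j : ℕ) : Λ.gap i j = false ↔
    ¬ (i = 6 * Λ.n + 2 ∧ Λ.ins 2 j = true) := by
  unfold Lay.gap
  simp only [← Bool.not_eq_true, Bool.and_eq_true, decide_eq_true_eq]

/-- inside of a level -/
theorem wr1_ins_lv (Λ : Lay) (c s r : ℕ) (hr : r ≤ 7) (h : Λ.cl s ≠ c) :
    Λ.ins c (7 * s + r) = false := by
  unfold Lay.ins
  by_cases h0 : r = 0
  · subst h0
    have e1 : (7 * s + 0) % 7 = 0 := by omega
    have e2 : (7 * s + 0) / 7 = s := by omega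
    rw [if_pos e1, e2]
    simp [h]
  · by_cases h7 : r = 7
    · subst h7
      have e1 : (7 * s + 7) % 7 = 0 := by omega
      have e2 : (7 * s + 7) / 7 = s + 1 := by omega
      rw [if_pos e1, e2]
      simp [h]
    · have e1 : (7 * s + r) % 7 ≠ 0 := by omega
      have e2 : (7 * s + r) / 7 = s := by omega
      rw [if_neg e1, e2]
      simp [h]

theorem wr1_ins0 (Λ : Lay) (c : ℕ) : Λ.ins c 0 = false := by
  unfold Lay.ins
  simp

theorem wr1_insT {Λ : Lay} (hΛ : Λ.Ok) (c : ℕ) (hc : c ≠ 0) : Λ.ins c (7 * Λ.T) = false := by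
  have h := hΛ.out Λ.T le_rfl
  have h2 : Λ.cl Λ.T = 0 := by
    unfold Lay.cl
    rw [h]
    simp
  exact wr1_ins_lv Λ c Λ.T 0 (by omega) (by rw [h2]; exact fun h3 => hc h3.symm)

/-- cells of a column in an unpatched level -/
theorem wr1_cell {Λ : Lay} (β s i : ℕ) (hβ : β < Λ.nb) (hs : s < Λ.T) (hi1 : 6 * β + 1 ≤ i)
    (hi2 : i ≤ 6 * β + 3) (hp : Λ.pat s β = false)
    (hn : β = Λ.n → i = 6 * β + 1 ∨ Λ.cl s = 0) (r : ℕ) (hr : r < 7) :
    cellB Λ i (7 * s + r) = true := by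
  have hnb : 6 * β + 5 ≤ 6 * Λ.nb := by omega
  have hP : ∀ i' r', 6 * β + 1 ≤ i' → i' ≤ 6 * β + 4 → r' ≤ 7 →
      (β = Λ.n → i' = 6 * β + 3 → Λ.cl s = 0) → Λ.prs i' (7 * s + r') = true := by
    intro i' r' h1 h2 h3 h4
    rw [wr1_prs_iff]
    refine ⟨by omega, by omega, ?_, ?_⟩
    · rintro ⟨h5, _, _, h6⟩
      have e1 : (7 * s + r') / 7 = s := by omega
      have e2 : i' / 6 = β := by omega
      rw [e1, e2, hp] at h6
      exact absurd h6 (by simp)
    · rintro ⟨h5, h6⟩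
      have hbn : β = Λ.n := by omega
      have := h4 hbn (by omega)
      rw [wr1_ins_lv Λ 1 s r' h3 (by rw [this]; omega)] at h6
      exact absurd h6 (by simp)
  have hG : ∀ r', r' ≤ 7 → Λ.gap i (7 * s + r') = false := by
    intro r' h3
    rw [wr1_gap_iff]
    rintro ⟨h5, h6⟩
    have hbn : β = Λ.n := by omega
    rcases hn hbn with h7 | h7
    · omega
    · rw [wr1_ins_lv Λ 2 s r' h3 (by rw [h7]; omega)] at h6
      exact absurd h6 (by simp)
  have hc : ∀ i', 6 * β + 1 ≤ i' → i' ≤ i + 1 → β = Λ.n → i' = 6 * β + 3 → Λ.cl s = 0 := by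
    intro i' _ h2 h3 h4
    rcases hn h3 with h5 | h5
    · omega
    · exact h5
  unfold cellB
  rw [hP i r hi1 (by omega) (by omega) (hc i hi1 (by omega)),
    hP (i + 1) r (by omega) (by omega) (by omega) (hc (i + 1) (by omega) le_rfl),
    show 7 * s + r + 1 = 7 * s + (r + 1) by omega,
    hP i (r + 1) hi1 (by omega) (by omega) (hc i hi1 (by omega)),
    hP (i + 1) (r + 1) (by omega) (by omega) (by omega) (hc (i + 1) (by omega) le_rfl),
    hG r (by omega), hG (r + 1) (by omega)]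
  rfl

/-- transport of a column through an unpatched level -/
theorem wr1_up {Λ : Lay} {p : Vt → ℂ} (hpos : Pos Λ p) (s i : ℕ)
    (hc : ∀ r < 7, cellB Λ i (7 * s + r) = true) :
    Gp p (i + 1) (7 * (s + 1)) - Gp p i (7 * (s + 1)) = Gp p (i + 1) (7 * s) - Gp p i (7 * s) := by
  have key : ∀ r, r ≤ 7 → Gp p (i + 1) (7 * s + r) - Gp p i (7 * s + r) =
      Gp p (i + 1) (7 * s) - Gp p i (7 * s) := by
    intro r
    induction r with
    | zero => intro _; rfl
    | succ r ih =>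
      intro hr
      have h1 := ih (by omega)
      have h2 := hpos.par i (7 * s + r) (hc r (by omega))
      rw [← h1]
      rw [show 7 * s + (r + 1) = 7 * s + r + 1 by omega]
      linear_combination h2
  have := key 7 le_rfl
  rwa [show 7 * s + 7 = 7 * (s + 1) by omega] at this

/-- patches: the row above -/
theorem wr1_pat8 {Λ : Lay} {p : Vt → ℂ} (hpos : Pos Λ p) (β s : ℕ) (hβ : β < Λ.nb) (hs : s < Λ.T)
    (hp : Λ.pat s β = true) (m : ℕ) (hm : m < 3) :
    Gp p (6 * β + 1 + m + 1) (7 * (s + 1)) - Gp p (6 * β + 1 + m) (7 * (s + 1)) =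
      Gp p (6 * β + 2) (7 * s) - Gp p (6 * β + 1) (7 * s) := by
  have h1 := hpos.pat β s hβ hs hp m 8 le_rfl (by simp [sz]; omega)
  have h2 := hpos.pat β s hβ hs hp (m + 1) 8 le_rfl (by simp [sz]; omega)
  have e : ∀ m, qv β s m 8 = .g (6 * β + 1 + m) (7 * (s + 1)) := by
    intro m
    unfold qv
    rw [if_neg (by norm_num), if_pos rfl, show 7 * s + 7 = 7 * (s + 1) by omega]
  rw [e] at h1 h2
  unfold Gp at *
  rw [show 6 * β + 1 + m + 1 = 6 * β + 1 + (m + 1) by omega, h1, h2]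
  unfold ofs
  push_cast
  ring

/-- patches: the row below -/
theorem wr1_pat0 {Λ : Lay} {p : Vt → ℂ} (hpos : Pos Λ p) (β s : ℕ) (hβ : β < Λ.nb) (hs : s < Λ.T)
    (hp : Λ.pat s β = true) (m : ℕ) (hm : m < 3) :
    Gp p (6 * β + 1 + m + 1) (7 * s) - Gp p (6 * β + 1 + m) (7 * s) =
      Gp p (6 * β + 2) (7 * s) - Gp p (6 * β + 1) (7 * s) := by
  have h1 := hpos.pat β s hβ hs hp m 0 (by omega) (by simp [sz]; omega)
  have h2 := hpos.pat β s hβ hs hp (m + 1) 0 (by omega) (by simp [sz]; omega)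
  have e : ∀ m, qv β s m 0 = .g (6 * β + 1 + m) (7 * s) := by
    intro m
    unfold qv
    rw [if_pos rfl]
  rw [e] at h1 h2
  unfold Gp at *
  rw [show 6 * β + 1 + m + 1 = 6 * β + 1 + (m + 1) by omega, h1, h2]
  unfold ofs
  push_cast
  ring

/-- a strip of triangles -/
theorem wr1_strip {Λ : Lay} {p : Vt → ℂ} (hl : St_loc) (hP : Pen Λ p) (j : ℕ) (Lo : ℕ → Vt)
    (hne : ∀ i k l, Lo i ≠ .g k l)
    (h0 : ∀ i < 6 * Λ.nb, dist (p (.g i j)) (p (.g (i + 1) j)) = 1)
    (h1 : ∀ i < 6 * Λ.nb, i % 6 ≤ 4 → E Λ (Lo i) (.g i j))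
    (h2 : ∀ i < 6 * Λ.nb, i % 6 ≤ 4 → E Λ (Lo i) (.g (i + 1) j))
    (h3 : ∀ i < 6 * Λ.nb, i % 6 ≤ 3 → E Λ (Lo i) (Lo (i + 1))) (i : ℕ) (hi : i + 1 < 6 * Λ.nb)
    (h6 : i % 6 ≤ 3) : Gp p (i + 2) j - Gp p (i + 1) j = Gp p (i + 1) j - Gp p i j := by
  have a1 := h1 i (by omega) (by omega)
  have a2 := h2 i (by omega) (by omega)
  have a3 := h1 (i + 1) hi (by omega)
  have a4 := h2 (i + 1) hi (by omega)
  have a5 := h3 i (by omega) h6
  have hd : ∀ x y : Vt, Live Λ x → Live Λ y → x ≠ y → p x ≠ p y := by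
    intro x y hx hy hxy h
    have := hP.far x y hx hy hxy
    rw [h, dist_self] at this
    linarith
  have b1 := hP.edge _ _ a1
  have b2 := hP.edge _ _ a2
  have b3 := hP.edge _ _ a3
  have b4 := hP.edge _ _ a4
  have b5 := hP.edge _ _ a5
  have c1 := h0 i (by omega)
  have c2 := h0 (i + 1) hi
  have f1 := hl.fl (p (Lo i)) (p (.g (i + 1) j)) (p (.g i j)) (p (Lo (i + 1))) b2 b1
    (by rw [dist_comm]; exact c1) b5 (by rw [dist_comm]; exact b3)
    (hd _ _ ⟨_, Or.inr a1⟩ ⟨_, Or.inl a3⟩ (fun h => hne _ _ _ h.symm))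
  have f2 := hl.fl (p (Lo (i + 1))) (p (.g (i + 1) j)) (p (Lo i)) (p (.g (i + 2) j)) b3
    (by rw [dist_comm]; exact b5) (by rw [dist_comm]; exact b2) b4 c2
    (hd _ _ ⟨_, Or.inl a1⟩ ⟨_, Or.inr a4⟩ (fun h => hne _ _ _ h))
  unfold Gp
  linear_combination f1 + f2

theorem wr1_ok : St_wr1 := by
  intro hl Λ hΛ p hP hpos
  have hT : 0 < Λ.T := by
    obtain ⟨t, ht, _⟩ := hΛ.ex
    omega
  -- rows `0` and `7 T`
  have hp0 : ∀ i ≤ 6 * Λ.nb, Λ.prs i 0 = true := by
    intro i hi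
    rw [wr1_prs_iff]
    refine ⟨hi, by omega, by simp, ?_⟩
    rw [wr1_ins0]
    simp
  have hpT : ∀ i ≤ 6 * Λ.nb, Λ.prs i (7 * Λ.T) = true := by
    intro i hi
    rw [wr1_prs_iff]
    refine ⟨hi, le_rfl, ?_, ?_⟩
    · rintro ⟨h, _⟩
      omega
    · rw [wr1_insT hΛ 1 (by norm_num)]
      simp
  have hd0 : ∀ i < 6 * Λ.nb, dist (p (.g i 0)) (p (.g (i + 1) 0)) = 1 := fun i hi =>
    hP.edge _ _ (.h i 0 (hp0 i hi.le) (hp0 (i + 1) hi) (by
      rw [wr1_gap_iff, wr1_ins0]
      simp))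
  have hdT : ∀ i < 6 * Λ.nb, dist (p (.g i (7 * Λ.T))) (p (.g (i + 1) (7 * Λ.T))) = 1 := fun i hi =>
    hP.edge _ _ (.h i (7 * Λ.T) (hpT i hi.le) (hpT (i + 1) hi) (by
      rw [wr1_gap_iff, wr1_insT hΛ 2 (by norm_num)]
      simp))
  have s0 : ∀ i, i + 1 < 6 * Λ.nb → i % 6 ≤ 3 →
      Gp p (i + 2) 0 - Gp p (i + 1) 0 = Gp p (i + 1) 0 - Gp p i 0 :=
    wr1_strip hl hP 0 .lo (by intro i k l; simp) hd0 (fun i hi h => .l1 i hi h)
      (fun i hi h => .l2 i hi h) (fun i hi h => .l3 i hi h)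
  have sT : ∀ i, i + 1 < 6 * Λ.nb → i % 6 ≤ 3 →
      Gp p (i + 2) (7 * Λ.T) - Gp p (i + 1) (7 * Λ.T) =
        Gp p (i + 1) (7 * Λ.T) - Gp p i (7 * Λ.T) :=
    wr1_strip hl hP (7 * Λ.T) .hi (by intro i k l; simp) hdT (fun i hi h => .u1 i hi h)
      (fun i hi h => .u2 i hi h) (fun i hi h => .u3 i hi h)
  obtain ⟨w, hw⟩ : ∃ w : ℕ → ℂ, ∀ β, w β = Gp p (6 * β + 2) 0 - Gp p (6 * β + 1) 0 :=
    ⟨_, fun β => rfl⟩
  have hc1 : ∀ β < Λ.nb, ∀ t ≤ Λ.T, Gp p (6 * β + 2) (7 * t) - Gp p (6 * β + 1) (7 * t) = w β := by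
    intro β hβ t
    induction t with
    | zero => intro _; exact (hw β).symm
    | succ t ih =>
      intro ht
      rw [← ih (by omega)]
      cases hp : Λ.pat t β with
      | true => exact wr1_pat8 hpos β t hβ (by omega) hp 0 (by norm_num)
      | false =>
        exact wr1_up hpos t (6 * β + 1) (wr1_cell β t (6 * β + 1) hβ (by omega) le_rfl (by omega) hp
          (fun _ => Or.inl rfl))
  have hc23 : ∀ β < Λ.nb, ∀ t ≤ Λ.T, (β = Λ.n → Λ.k t = 1 ∨ t = 0 ∨ Λ.cl (t - 1) = 0) →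
      Gp p (6 * β + 3) (7 * t) - Gp p (6 * β + 2) (7 * t) = w β ∧
      Gp p (6 * β + 4) (7 * t) - Gp p (6 * β + 3) (7 * t) = w β := by
    intro β hβ t
    induction t with
    | zero =>
      intro _ _
      have e1 := s0 (6 * β + 1) (by omega) (by omega)
      have e2 := s0 (6 * β + 2) (by omega) (by omega)
      have e3 := hw β
      simp only [Nat.mul_zero]
      constructor
      · linear_combination e1 - e3
      · linear_combination e2 + e1 - e3
    | succ t ih =>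
      intro ht hcond
      by_cases hk : β = Λ.n ∧ Λ.k (t + 1) = 1
      · -- the patch above
        have hT' : t + 1 < Λ.T := by
          by_contra hcon
          have := hΛ.out (t + 1) (by omega)
          omega
        have hp : Λ.pat (t + 1) β = true := by
          unfold Lay.pat
          simp [hk.1, hk.2]
        have e1 := wr1_pat0 hpos β (t + 1) hβ hT' hp 1 (by norm_num)
        have e2 := wr1_pat0 hpos β (t + 1) hβ hT' hp 2 (by norm_num)
        have e3 := hc1 β hβ (t + 1) (by omega)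
        rw [e3] at e1 e2
        exact ⟨e1, e2⟩
      · have hcl : β = Λ.n → Λ.cl t = 0 := by
          intro h
          rcases hcond h with h1 | h1 | h1
          · exact absurd ⟨h, h1⟩ hk
          · omega
          · simpa using h1
        cases hp : Λ.pat t β with
        | true =>
          have e1 := wr1_pat8 hpos β t hβ (by omega) hp 1 (by norm_num)
          have e2 := wr1_pat8 hpos β t hβ (by omega) hp 2 (by norm_num)
          have e3 := hc1 β hβ t (by omega)
          rw [e3] at e1 e2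
          exact ⟨e1, e2⟩
        | false =>
          have hprev := ih (by omega) (by
            intro h
            by_cases h0 : t = 0
            · exact Or.inr (Or.inl h0)
            · by_cases h1 : Λ.cl (t - 1) = 0
              · exact Or.inr (Or.inr h1)
              · left
                have h2 := hΛ.dn (t - 1) h1 (by
                  rw [show t - 1 + 1 = t by omega, hcl h]
                  exact fun h3 => h1 h3.symm)
                rwa [show t - 1 + 1 = t by omega] at h2)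
          have e1 := wr1_up hpos t (6 * β + 2) (wr1_cell β t (6 * β + 2) hβ (by omega) (by omega)
            (by omega) hp (fun h => Or.inr (hcl h)))
          have e2 := wr1_up hpos t (6 * β + 3) (wr1_cell β t (6 * β + 3) hβ (by omega) (by omega)
            (by omega) hp (fun h => Or.inr (hcl h)))
          exact ⟨e1.trans hprev.1, e2.trans hprev.2⟩
  refine ⟨w, ⟨?_, hc1, hc23, ?_⟩⟩
  · intro β hβ
    rw [hw β, ← dist_eq_norm, dist_comm]
    exact hd0 (6 * β + 1) (by omega)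
  · intro β hβ t ht
    rcases ht with rfl | rfl
    · have e0 := s0 (6 * β) (by omega) (by omega)
      have e1 := s0 (6 * β + 1) (by omega) (by omega)
      have e2 := s0 (6 * β + 2) (by omega) (by omega)
      have e4 := s0 (6 * β + 3) (by omega) (by omega)
      have e3 := hw β
      simp only [Nat.mul_zero]
      constructor
      · linear_combination -e0 - e3
      · linear_combination e4 + e2 + e1 - e3
    · have e0 := sT (6 * β) (by omega) (by omega)
      have e1 := sT (6 * β + 1) (by omega) (by omega)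
      have e2 := sT (6 * β + 2) (by omega) (by omega)
      have e4 := sT (6 * β + 3) (by omega) (by omega)
      have e3 := hc1 β hβ Λ.T le_rfl
      constructor
      · linear_combination -e0 + e3
      · linear_combination e4 + e2 + e1 + e3

end Pool.Agent.H670R4
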