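import Pool.Agent.H670R4.Sub

/-!
# Task WR2: the walls of the patches are straight
-/

namespace Pool.Agent.H670R4

open Pool.Agent.NPC Pool.Agent.NPC.ER Pool.Agent.H670R2
open scoped ComplexConjugate

theorem wr2_prs (Λ : Lay) (i j : ℕ) (hi : i ≤ 6 * Λ.nb) (hj : j ≤ 7 * Λ.T)
    (h : j % 7 = 0 ∨ i % 6 = 0 ∨ i % 6 = 5 ∨ Λ.pat (j / 7) (i / 6) = false)
    (hn : i ≠ 6 * Λ.n + 3) : Λ.prs i j = true := by
  rcases h with h | h | h | h <;> simp [Lay.prs, hi, hj, h, hn]

theorem wr2_mono (f : ℕ → ℝ) (T : ℕ) (h : ∀ t < T, f t ≤ f (t + 1)) (h0 : f 0 = f T) :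
    ∀ t < T, f t = f (t + 1) := by
  have h1 : ∀ t, t ≤ T → f 0 ≤ f t := by
    intro t
    induction t with
    | zero => intro _; exact le_rfl
    | succ t ih => intro ht; exact (ih (by omega)).trans (h t (by omega))
  have h2 : ∀ k, k ≤ T → f (T - k) ≤ f T := by
    intro k
    induction k with
    | zero => intro _; exact le_rfl
    | succ k ih =>
      intro hk
      have := h (T - (k + 1)) (by omega)
      rw [show T - (k + 1) + 1 = T - k by omega] at this
      exact this.trans (ih (by omega))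
  intro t ht
  apply le_antisymm (h t ht)
  have a := h1 t (by omega)
  have b := h2 (T - (t + 1)) (by omega)
  rw [show T - (T - (t + 1)) = t + 1 by omega] at b
  linarith

/-- the horizontal difference between the lines `i`, `i + 1` does not change along intact cells -/
theorem wr2_const (Λ : Lay) (p : Vt → ℂ) (hpos : Pos Λ p) (i t : ℕ)
    (hc : ∀ s < 7, cellB Λ i (7 * t + s) = true) :
    Gp p (i + 1) (7 * (t + 1)) - Gp p i (7 * (t + 1)) = Gp p (i + 1) (7 * t) - Gp p i (7 * t) := by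
  have key : ∀ s, s ≤ 7 → Gp p (i + 1) (7 * t + s) - Gp p i (7 * t + s) =
      Gp p (i + 1) (7 * t) - Gp p i (7 * t) := by
    intro s
    induction s with
    | zero => intro _; rfl
    | succ s ih =>
      intro hs
      have h1 := hpos.par i (7 * t + s) (hc s (by omega))
      rw [← ih (by omega)]
      have h2 : 7 * t + (s + 1) = 7 * t + s + 1 := by ring
      rw [h2]
      linear_combination h1
  have := key 7 le_rfl
  rw [show 7 * (t + 1) = 7 * t + 7 by ring]
  exact this

theorem wr2_ok : St_wr2 := by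
  intro hw Λ hΛ p hP hpos w hc
  refine ⟨hc.nrm, hc.c1, hc.c23, ?_⟩
  intro β hβ
  have hnb : Λ.nb = 2 * Λ.n + 1 := rfl
  -- the lines of the block
  have hcell : ∀ i, (i = 6 * β ∨ i = 6 * β + 4) → ∀ t < Λ.T, Λ.pat t β = false →
      ∀ s < 7, cellB Λ i (7 * t + s) = true := by
    intro i hi t ht hp s hs
    have hP : ∀ i' j', (i' = i ∨ i' = i + 1) → (j' = 7 * t + s ∨ j' = 7 * t + s + 1) →
        Λ.prs i' j' = true := by
      intro i' j' h1 h2
      apply wr2_prs
      · omega
      · omega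
      · by_cases h7 : j' % 7 = 0
        · exact Or.inl h7
        · refine Or.inr (Or.inr (Or.inr ?_))
          have e1 : j' / 7 = t := by omega
          have e2 : i' / 6 = β := by omega
          rw [e1, e2]
          exact hp
      · omega
    unfold cellB
    rw [hP i _ (Or.inl rfl) (Or.inl rfl), hP (i + 1) _ (Or.inr rfl) (Or.inl rfl),
      hP i _ (Or.inl rfl) (Or.inr rfl), hP (i + 1) _ (Or.inr rfl) (Or.inr rfl)]
    have hg : i ≠ 6 * Λ.n + 2 := by omega
    simp [Lay.gap, hg]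
  have hvert : ∀ i, (i = 6 * β ∨ i = 6 * β + 5) → ∀ t < Λ.T, ∀ j < 7,
      dist (Gp p i (7 * t + (j + 1))) (Gp p i (7 * t + j)) = 1 := by
    intro i hi t ht j hj
    rw [dist_comm]
    refine hP.edge _ _ (E.v i (7 * t + j) ?_ ?_)
    · apply wr2_prs
      · omega
      · omega
      · omega
      · omega
    · apply wr2_prs
      · omega
      · omega
      · omega
      · omega
  have hpt : ∀ t < Λ.T, Λ.pat t β = true → ∀ m r, r ≤ 8 → m < sz r →
      p (qv β t m r) = Gp p (6 * β + 1) (7 * t) + w β * ofs m r := by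
    intro t ht hp m r hr hm
    rw [hpos.pat β t hβ ht hp m r hr hm, hc.c1 β hβ t ht.le]
  have hro : ∀ m : ℕ, ofs m 8 = (m : ℂ) + ofs 0 8 := by
    intro m; unfold ofs; push_cast; ring
  -- the positions of the corners
  have hA : ∀ t < Λ.T, Λ.pat t β = true → Gp p (6 * β + 1) (7 * (t + 1)) =
      Gp p (6 * β + 1) (7 * t) + w β * ofs 0 8 := by
    intro t ht hp
    have := hpt t ht hp 0 8 le_rfl (by simp [sz])
    simpa [qv, Gp, mul_add] using this
  have hB : ∀ t < Λ.T, Λ.pat t β = true → Gp p (6 * β + 4) (7 * (t + 1)) =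
      Gp p (6 * β + 1) (7 * t) + w β * ofs 3 8 := by
    intro t ht hp
    have := hpt t ht hp 3 8 le_rfl (by simp [sz])
    simpa [qv, Gp, mul_add, add_assoc] using this
  have hC : ∀ t < Λ.T, Λ.pat t β = true → Gp p (6 * β + 4) (7 * t) =
      Gp p (6 * β + 1) (7 * t) + w β * ofs 3 0 := by
    intro t ht hp
    have := hpt t ht hp 3 0 (by norm_num) (by simp [sz])
    simpa [qv, Gp, mul_add, add_assoc] using this
  have ho3 : ofs 3 0 = 3 := by unfold ofs; simp [bs]
  -- the two functions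
  let d1 : ℕ → ℂ := fun t => Gp p (6 * β + 1) (7 * t) - Gp p (6 * β) (7 * t)
  let d2 : ℕ → ℂ := fun t => Gp p (6 * β + 5) (7 * t) - Gp p (6 * β + 4) (7 * t)
  let F : ℂ → ℝ := fun x => (conj (ro * w β) * x).re
  have w1 : ∀ t < Λ.T, Λ.pat t β = true → F (d1 t) ≤ F (d1 (t + 1)) ∧
      (F (d1 t) = F (d1 (t + 1)) → ∀ j ≤ 7, Gp p (6 * β) (7 * t + j) = Gp p (6 * β) (7 * t) +
        (j : ℂ) * (ro * w β)) := by
    intro t ht hp
    refine hw (fun j => Gp p (6 * β) (7 * t + j)) (w β) (d1 t) (d1 (t + 1)) (hc.nrm β hβ)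
      (fun j hj => hvert (6 * β) (Or.inl rfl) t ht j hj) ?_
    have := hA t ht hp
    simp only [d1]
    rw [this]
    rw [show 7 * (t + 1) = 7 * t + 7 by ring, show 7 * t + 0 = 7 * t by ring]
    ring
  have w2 : ∀ t < Λ.T, Λ.pat t β = true → F (d2 (t + 1)) ≤ F (d2 t) ∧
      (F (d2 (t + 1)) = F (d2 t) → ∀ j ≤ 7, Gp p (6 * β + 5) (7 * t + j) =
        Gp p (6 * β + 5) (7 * t) + (j : ℂ) * (ro * w β)) := by
    intro t ht hp
    refine hw (fun j => Gp p (6 * β + 5) (7 * t + j)) (w β) (d2 (t + 1)) (d2 t) (hc.nrm β hβ)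
      (fun j hj => hvert (6 * β + 5) (Or.inr rfl) t ht j hj) ?_
    have h1 := hB t ht hp
    have h2 := hC t ht hp
    simp only [d2]
    rw [h1, h2, hro 3, ho3]
    rw [show 7 * (t + 1) = 7 * t + 7 by ring, show 7 * t + 0 = 7 * t by ring]
    push_cast
    ring
  have m1 : ∀ t < Λ.T, F (d1 t) ≤ F (d1 (t + 1)) := by
    intro t ht
    by_cases hp : Λ.pat t β = true
    · exact (w1 t ht hp).1
    · rw [Bool.not_eq_true] at hp
      have := wr2_const Λ p hpos (6 * β) t (hcell _ (Or.inl rfl) t ht hp)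
      have e : d1 (t + 1) = d1 t := this
      rw [e]
  have m2 : ∀ t < Λ.T, F (d2 (t + 1)) ≤ F (d2 t) := by
    intro t ht
    by_cases hp : Λ.pat t β = true
    · exact (w2 t ht hp).1
    · rw [Bool.not_eq_true] at hp
      have := wr2_const Λ p hpos (6 * β + 4) t (hcell _ (Or.inr rfl) t ht hp)
      have e : d2 (t + 1) = d2 t := this
      rw [e]
  have e0 := hc.ends β hβ 0 (Or.inl rfl)
  have eT := hc.ends β hβ Λ.T (Or.inr rfl)
  have q1 := wr2_mono (fun t => F (d1 t)) Λ.T m1 (by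
    have a : d1 0 = w β := by simpa [d1] using e0.1
    have b : d1 Λ.T = w β := eT.1
    simp only [a, b])
  have q2 := wr2_mono (fun t => - F (d2 t)) Λ.T (fun t ht => by
    have := m2 t ht
    linarith) (by
    have a : d2 0 = w β := by simpa [d2] using e0.2
    have b : d2 Λ.T = w β := eT.2
    simp only [a, b])
  intro t ht hp j hj
  refine ⟨(w1 t ht hp).2 (q1 t ht) j hj, (w2 t ht hp).2 ?_ j hj⟩
  have := q2 t ht
  linarith

end Pool.Agent.H670R4
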