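import Pool.Agent.H670R4.Asm
import Pool.Agent.H670R4.Sub
import Pool.Agent.H670R4.T_LOC
import Pool.Agent.H670R4.T_PEND
import Pool.Agent.H670R4.T_PAT
import Pool.Agent.H670R4.T_WALL
import Pool.Agent.H670R4.T_LOR1
import Pool.Agent.H670R4.T_LOR2
import Pool.Agent.H670R4.T_LOR3
import Pool.Agent.H670R4.T_SG1
import Pool.Agent.H670R4.T_SG2
import Pool.Agent.H670R4.T_SG3
import Pool.Agent.H670R4.T_WR1
import Pool.Agent.H670R4.T_WR2
import Pool.Agent.H670R4.T_ROW
import Pool.Agent.H670R4.T_HOL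
import Pool.Agent.H670R4.T_SND
import Pool.Agent.H670R4.T_CONE
import Pool.Agent.H670R4.T_UV
import Pool.Agent.H670R4.T_CEDG
import Pool.Agent.H670R4.T_IF
import Pool.Agent.H670R4.T_SEP
import Pool.Agent.H670R4.T_CGG
import Pool.Agent.H670R4.T_CGQ
import Pool.Agent.H670R4.T_CQQ
import Pool.Agent.H670R4.T_CEND
import Pool.Agent.H670R4.T_CPEN
import Pool.Agent.H670R4.T_LIST
import Pool.Agent.H670R4.T_CONN
import Pool.Agent.H670R4.T_FWD
import Pool.Agent.H670R4.T_BWD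
import Pool.Agent.H670R4.T_LEK
import Pool.Agent.H670R4.T_DISK
import Pool.Agent.H670R4.T_MEM1
import Pool.Agent.H670R4.T_MEM2
import Pool.Agent.H670R4.T_MEM3
import Pool.Agent.H670R4.T_MEM4
import Pool.Agent.H670R4.T_LOK
import Pool.Agent.H670R4.T_PS
import Pool.Agent.H670R4.T_PC
import Pool.Agent.H670R4.T_VAL
import Pool.Agent.H670R4.T_AS1
import Pool.Agent.H670R4.T_AS2
import Pool.Agent.H670R4.T_AS3
import Pool.Agent.H670R4.T_AS4
import Pool.Agent.H670R4.T_AS5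
import Pool.Agent.H670R4.T_REV
import Pool.Agent.H670R4.T_NUM
import Pool.Agent.H670R4.T_SLOT
import Pool.Agent.H670R4.T_PRD
import Pool.Agent.H670R4.T_AC1
import Pool.Agent.H670R4.T_AC2
import Pool.Agent.H670R4.T_P1
import Pool.Agent.H670R4.T_P2

/-!
# All the steps are proved
-/

namespace Pool.Agent.H670R4

theorem all_steps : AllSteps where
  loc := loc_ok
  pend := pend_ok
  pat := pat_ok
  wall := wall_ok
  lor := lor_of lor1_ok lor2_ok lor3_ok
  sign := sign_of sg1_ok sg2_ok sg3_ok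
  wire := wire_of wr1_ok wr2_ok
  row := row_ok
  snd := snd_of hol_ok snd2_ok
  cone := cone_ok
  uv := uv_ok
  cedge := cedge_ok
  cgg := cgg2_ok if_ok sep_ok
  cgq := cgq2_ok if_ok sep_ok
  cqq := cqq2_ok if_ok sep_ok
  cend := cend2_ok if_ok sep_ok
  cpen := cpen2_ok if_ok sep_ok
  list := list_ok
  conn := conn_ok
  ply := ⟨ply_fwd_ok, ply_bwd_ok, ply_lek_ok⟩
  disk := disk_ok
  mem := mem_of mem1_ok mem2_ok mem3_ok mem4_ok
  lok := lok_ok
  pS := pS_ok
  pC := pC_ok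
  val := val_ok
  as := as5_ok (as4_ok) as1_ok as2_ok as3_ok
  rev := rev_ok
  num := num_ok
  slot := slot_ok
  prd := prd_ok
  ac := ac_of ac1_ok ac2_ok
  p1 := p1_ok
  p2 := p2_ok

end Pool.Agent.H670R4
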