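import Pool.Agent.H670R2.OrthDefs

/-!
# The ply number of a graph: the decision problem

Graphs are given by adjacency lists (`IsGraph`, `graphOf` of `Pool.Agent.H670R2.OrthDefs`).
-/

namespace Pool.Agent.H670R4

open Pool.Agent.NPC Pool.Agent.H670R2

/-- The Euclidean plane. -/
abbrev Plane : Type := EuclideanSpace ℝ (Fin 2)

/-- The radius of the disk at the vertex `v`, in the straight-line drawing `p` of `G`: half the
length of the longest edge incident to `v` (and `0` if `v` is isolated, as `sSup ∅ = 0`). -/
noncomputable def rad {V : Type} (G : SimpleGraph V) (p : V → Plane) (v : V) : ℝ :=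
  sSup {r : ℝ | ∃ u, G.Adj v u ∧ r = dist (p v) (p u) / 2}

/-- The number of vertices whose open disk contains the point `z`. -/
noncomputable def depth {V : Type} (G : SimpleGraph V) (p : V → Plane) (z : Plane) : ℕ :=
  {v : V | z ∈ Metric.ball (p v) (rad G p v)}.ncard

/-- The ply of a drawing of a finite graph: the largest number of open disks with a common
point. -/
noncomputable def ply {V : Type} (G : SimpleGraph V) (p : V → Plane) : ℕ :=
  sSup (Set.range (depth G p))

/-- The ply number of a finite graph: the smallest ply of its straight-line drawings, the
vertices being drawn at distinct points (crossings are allowed). -/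
noncomputable def plyNumber {V : Type} (G : SimpleGraph V) : ℕ :=
  sInf {k : ℕ | ∃ p : V → Plane, Function.Injective p ∧ ply G p = k}

/-- The decision problem PLY: the input is a finite simple graph `G`, given by its adjacency
lists, and a natural number `k`; the question is whether the ply number of `G` is at most `k`. -/
def PLY : Set (List Bool) :=
  lang (fun x : List (List ℕ) × ℕ => ∃ h : IsGraph x.1, plyNumber (graphOf x.1 h) ≤ x.2)

end Pool.Agent.H670R4
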