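import Pool.Agent.H670R4.Lay
import Pool.Agent.H670R4.Prob
import Pool.Agent.H670R2.Hard
import Pool.Agent.H670R2.ERMem
import Pool.Agent.ER.Bounded

/-!
# The statements of the steps
-/

namespace Pool.Agent.H670R4

open Pool.Agent.NPC Pool.Agent.NPC.ER Pool.Agent.H670R2
open scoped ComplexConjugate

/-! ### Local geometry -/

structure St_loc : Prop where
  /-- rhombi -/
  rh : ∀ A B C D : ℂ, dist A B = 1 → dist C B = 1 → dist A D = 1 → dist C D = 1 →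
    A ≠ C → B ≠ D → A + C = B + D
  /-- two triangles with a common side -/
  fl : ∀ A B C D : ℂ, dist A B = 1 → dist A C = 1 → dist B C = 1 → dist A D = 1 → dist B D = 1 →
    C ≠ D → C + D = A + B
  /-- the apex of a triangle -/
  ap : ∀ u q : ℂ, ‖u‖ = 1 → ‖q‖ = 1 → ‖q - u‖ = 1 → q = u * om ∨ q = u * conj om
  /-- the cross product of a rhombus does not vanish -/
  ne : ∀ u v : ℂ, ‖u‖ = 1 → ‖v‖ = 1 → 1 ≤ ‖u - v‖ → 1 ≤ ‖u + v‖ → cr u v ≠ 0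
  /-- two rhombi `(0, u, u + v, v)` and `(-u', 0, v, v - u')` with the common side `v` -/
  adj : ∀ u u' v : ℂ, ‖u‖ = 1 → ‖u'‖ = 1 → ‖v‖ = 1 → 1 ≤ ‖u - v‖ → 1 ≤ ‖u + v‖ →
    1 ≤ ‖u' - v‖ → 1 ≤ ‖u' + v‖ → 1 ≤ ‖u + u'‖ → 1 ≤ ‖u + u' - v‖ → 1 ≤ ‖u + u' + v‖ →
    (0 < cr u v ↔ 0 < cr u' v)
  /-- a rhombus `(0, u, u - v, -v)` below and a triangle `(0, u, q)` above -/
  tri : ∀ u v q : ℂ, ‖u‖ = 1 → ‖v‖ = 1 → ‖q‖ = 1 → ‖q - u‖ = 1 → 1 ≤ ‖u - v‖ → 1 ≤ ‖u + v‖ →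
    1 ≤ ‖q + v‖ → 1 ≤ ‖q - u + v‖ → (0 < cr u v ↔ q = u * om)

/-- There is no room for a pendant vertex `z` at the wall if the hole is not wider. -/
def St_pend : Prop := ∀ e wa wb wd z : ℂ, ‖e‖ = 1 → ‖z‖ = 1 →
  (∀ w ∈ [wa, wb, wd], ‖w‖ = 1 ∧ 1 ≤ ‖e - ro * w‖ ∧ 1 ≤ ‖e + ro * w‖ ∧ 0 < cr e (ro * w) ∧
    1 ≤ ‖w - ro * e‖ ∧ 1 ≤ ‖w + ro * e‖ ∧ 0 < cr w (ro * e)) →
  1 ≤ ‖z - e‖ → 1 ≤ ‖z - ro * wa‖ → 1 ≤ ‖z - (e + ro * wb)‖ → 1 ≤ ‖z + ro * wd‖ →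
  1 ≤ ‖z + e‖ → 1 ≤ ‖z + e + ro * wd‖ → False

/-- all edges of a patch, with those of the first and the last row -/
def pAll : List ((ℕ × ℕ) × (ℕ × ℕ)) :=
  [((0, 0), (1, 0)), ((1, 0), (2, 0)), ((2, 0), (3, 0)), ((0, 8), (1, 8)), ((1, 8), (2, 8)),
    ((2, 8), (3, 8))] ++ (pRow ++ pEd)

/-- Patches are rigid. -/
def St_pat : Prop := ∀ f : ℕ → ℕ → ℂ,
  (∀ e ∈ pAll, dist (f e.1.1 e.1.2) (f e.2.1 e.2.2) = 1) →
  (∀ m r m' r', r ≤ 8 → r' ≤ 8 → m < sz r → m' < sz r' → (m, r) ≠ (m', r') → f m r ≠ f m' r') →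
  f 0 1 = f 0 0 + (f 1 0 - f 0 0) * om →
  ∀ m r, r ≤ 8 → m < sz r → f m r = f 0 0 + (f 1 0 - f 0 0) * ofs m r

/-- Walls of patches: seven unit vectors with the sum `d + 7 ρ u - d'`. -/
def St_wall : Prop := ∀ (L : ℕ → ℂ) (u d d' : ℂ), ‖u‖ = 1 → (∀ j < 7, dist (L (j + 1)) (L j) = 1) →
  L 7 - L 0 = d + u * ofs 0 8 - d' →
  (conj (ro * u) * d).re ≤ (conj (ro * u) * d').re ∧
  ((conj (ro * u) * d).re = (conj (ro * u) * d').re →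
    ∀ j ≤ 7, L j = L 0 + (j : ℂ) * (ro * u))

/-! ### Soundness -/

/-- positions of the grid points -/
def Gp (p : Vt → ℂ) (i j : ℕ) : ℂ := p (.g i j)

/-- the cell with the lower left corner `(i, j)` is intact -/
def cellB (Λ : Lay) (i j : ℕ) : Bool :=
  Λ.prs i j && (Λ.prs (i + 1) j && (Λ.prs i (j + 1) && (Λ.prs (i + 1) (j + 1) &&
    (!Λ.gap i j && !Λ.gap i (j + 1)))))

/-- all cells and patches are positively oriented -/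
structure Pos (Λ : Lay) (p : Vt → ℂ) : Prop where
  cell : ∀ i j, cellB Λ i j = true →
    0 < cr (Gp p (i + 1) j - Gp p i j) (Gp p i (j + 1) - Gp p i j)
  par : ∀ i j, cellB Λ i j = true → Gp p (i + 1) (j + 1) + Gp p i j = Gp p (i + 1) j + Gp p i (j + 1)
  pat : ∀ β t, β < Λ.nb → t < Λ.T → Λ.pat t β = true → ∀ m r, r ≤ 8 → m < sz r →
    p (qv β t m r) = Gp p (6 * β + 1) (7 * t) +
      (Gp p (6 * β + 2) (7 * t) - Gp p (6 * β + 1) (7 * t)) * ofs m r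

/-- the orientation of a cell -/
def sgc (p : Vt → ℂ) (i j : ℕ) : Prop :=
  0 < cr (Gp p (i + 1) j - Gp p i j) (Gp p i (j + 1) - Gp p i j)

/-- the vertex `x` is the apex above (`v = om`) or below (`v = conj om`) the edge `c1` of the
block `β` in the row `j` -/
def apx (p : Vt → ℂ) (x : Vt) (β j : ℕ) (v : ℂ) : Prop :=
  p x = Gp p (6 * β + 1) j + (Gp p (6 * β + 2) j - Gp p (6 * β + 1) j) * v

/-- orientations, locally -/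
structure Lor (Λ : Lay) (p : Vt → ℂ) : Prop where
  par : ∀ i j, cellB Λ i j = true → Gp p (i + 1) (j + 1) + Gp p i j = Gp p (i + 1) j + Gp p i (j + 1)
  hor : ∀ i j, cellB Λ i j = true → cellB Λ (i + 1) j = true → (sgc p i j ↔ sgc p (i + 1) j)
  ver : ∀ i j, cellB Λ i j = true → cellB Λ i (j + 1) = true → (sgc p i j ↔ sgc p i (j + 1))
  /-- every apex is on one of the two sides -/
  two : ∀ β t, β < Λ.nb → t < Λ.T → Λ.pat t β = true →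
    (apx p (.q β t 0 1) β (7 * t) om ∨ apx p (.q β t 0 1) β (7 * t) (conj om)) ∧
    (apx p (.q β t 0 7) β (7 * t + 7) om ∨ apx p (.q β t 0 7) β (7 * t + 7) (conj om))
  twl : ∀ β, β < Λ.nb → (apx p (.lo (6 * β + 1)) β 0 om ∨ apx p (.lo (6 * β + 1)) β 0 (conj om))
  /-- inside of a patch -/
  pat : ∀ β t, β < Λ.nb → t < Λ.T → Λ.pat t β = true →
    (apx p (.q β t 0 1) β (7 * t) om ↔ apx p (.q β t 0 7) β (7 * t + 7) (conj om))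
  full : ∀ β t, β < Λ.nb → t < Λ.T → Λ.pat t β = true → apx p (.q β t 0 1) β (7 * t) om →
    ∀ m r, r ≤ 8 → m < sz r → p (qv β t m r) = Gp p (6 * β + 1) (7 * t) +
      (Gp p (6 * β + 2) (7 * t) - Gp p (6 * β + 1) (7 * t)) * ofs m r
  /-- a cell below a patch -/
  cp : ∀ β t, β < Λ.nb → t + 1 < Λ.T → Λ.pat t β = false → Λ.pat (t + 1) β = true →
    (sgc p (6 * β + 1) (7 * t + 6) ↔ apx p (.q β (t + 1) 0 1) β (7 * (t + 1)) om)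
  /-- a patch below a cell -/
  pc : ∀ β t, β < Λ.nb → t + 1 < Λ.T → Λ.pat t β = true → Λ.pat (t + 1) β = false →
    (apx p (.q β t 0 7) β (7 * t + 7) (conj om) ↔ sgc p (6 * β + 1) (7 * (t + 1)))
  /-- a patch below a patch -/
  pp : ∀ β t, β < Λ.nb → t + 1 < Λ.T → Λ.pat t β = true → Λ.pat (t + 1) β = true →
    (apx p (.q β t 0 7) β (7 * t + 7) (conj om) ↔ apx p (.q β (t + 1) 0 1) β (7 * (t + 1)) om)
  /-- the bottom -/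
  lc : ∀ β, β < Λ.nb → 0 < Λ.T → Λ.pat 0 β = false →
    (apx p (.lo (6 * β + 1)) β 0 (conj om) ↔ sgc p (6 * β + 1) 0)
  lp : ∀ β, β < Λ.nb → 0 < Λ.T → Λ.pat 0 β = true →
    (apx p (.lo (6 * β + 1)) β 0 (conj om) ↔ apx p (.q β 0 0 1) β 0 om)

def St_lor : Prop := St_loc → St_pat → ∀ Λ : Lay, Λ.Ok → ∀ p, Pen Λ p → Lor Λ p

def St_sign : Prop := St_loc → St_lor → St_pat → ∀ Λ : Lay, Λ.Ok → ∀ p, Pen Λ p →
  ∃ p', Pen Λ p' ∧ Pos Λ p'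

/-- the wires of the blocks -/
structure Wd (Λ : Lay) (p : Vt → ℂ) (w : ℕ → ℂ) : Prop where
  nrm : ∀ β < Λ.nb, ‖w β‖ = 1
  c1 : ∀ β < Λ.nb, ∀ t ≤ Λ.T, Gp p (6 * β + 2) (7 * t) - Gp p (6 * β + 1) (7 * t) = w β
  c23 : ∀ β < Λ.nb, ∀ t ≤ Λ.T, (β = Λ.n → Λ.k t = 1 ∨ t = 0 ∨ Λ.cl (t - 1) = 0) →
    Gp p (6 * β + 3) (7 * t) - Gp p (6 * β + 2) (7 * t) = w β ∧
    Gp p (6 * β + 4) (7 * t) - Gp p (6 * β + 3) (7 * t) = w β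
  wall : ∀ β < Λ.nb, ∀ t < Λ.T, Λ.pat t β = true → ∀ j ≤ 7,
    Gp p (6 * β) (7 * t + j) = Gp p (6 * β) (7 * t) + (j : ℂ) * (ro * w β) ∧
    Gp p (6 * β + 5) (7 * t + j) = Gp p (6 * β + 5) (7 * t) + (j : ℂ) * (ro * w β)

def St_wire : Prop := St_loc → St_wall → ∀ Λ : Lay, Λ.Ok → ∀ p, Pen Λ p → Pos Λ p → ∃ w, Wd Λ p w

/-- what a realization gives -/
structure Snd (Λ : Lay) (u : ℕ → ℂ) : Prop where
  nrm : ∀ i < Λ.n, ‖u i‖ = 1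
  ang : ∀ i < Λ.n, ∀ j < Λ.n, i ≠ j →
    1 ≤ ‖u i + ro * u j‖ ∧ 1 ≤ ‖u i - ro * u j‖ ∧ 0 < cr (u i) (ro * u j)
  clo : ∀ t, Λ.cl t ≠ 0 → Λ.cl (t + 1) = 0 → Dw Λ u (7 * (t + 1)) = 0
  nar : ∀ j, Λ.ins 2 j = true → 1 ≤ ‖u 0 + Dw Λ u j‖
  pen : ∀ t, Λ.k t = 4 → Dw Λ u (7 * t) ≠ 0

/-- the rows -/
structure Rows (Λ : Lay) (p : Vt → ℂ) (w : ℕ → ℂ) : Prop where
  lr : ∀ i < Λ.n, w (Λ.n + 1 + i) = w i
  mid : w Λ.n = w 0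
  left : ∀ t < Λ.T, ∀ i ≤ 6 * Λ.n + 2, Λ.prs i (7 * t + 1) = true → ∀ j ≤ 7,
    Gp p i (7 * t + j) = Gp p i (7 * t) + (j : ℂ) * (ro * w (Λ.a t))
  right : ∀ t < Λ.T, ∀ i, 6 * Λ.n + 3 ≤ i → i ≤ 6 * Λ.nb → Λ.prs i (7 * t + 1) = true → ∀ j ≤ 7,
    Gp p i (7 * t + j) = Gp p i (7 * t) + (j : ℂ) * (ro * w (Λ.b t))

def St_row : Prop := ∀ Λ : Lay, Λ.Ok → ∀ p, Pen Λ p → Pos Λ p → ∀ w, Wd Λ p w → Rows Λ p w

def St_snd : Prop := St_loc → St_pend → ∀ Λ : Lay, Λ.Ok → ∀ p, Pen Λ p → Pos Λ p → ∀ w, Wd Λ p w →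
  Rows Λ p w → Snd Λ w

/-! ### Completeness -/

/-- cone of the wires -/
def CB (z : ℂ) : Prop := 0 ≤ z.re ∧ -z.re / 16 ≤ z.im ∧ z.im ≤ 3 * z.re / 16

/-- cone of the horizontal differences -/
def CA (z : ℂ) : Prop := 0 ≤ z.re ∧ -z.re / 16 ≤ z.im ∧ z.im ≤ z.re / 4

/-- conditions for a realization -/
structure Cmp (Λ : Lay) (u : ℕ → ℂ) : Prop where
  one : u 0 = 1
  nrm : ∀ i < Λ.n, ‖u i‖ = 1
  cone : ∀ i < Λ.n, CB (u i)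
  clo : ∀ t, Λ.cl t ≠ 0 → Λ.cl (t + 1) = 0 → Dw Λ u (7 * (t + 1)) = 0
  wid : ∀ j, Λ.ins 1 j = true → ‖Dw Λ u j‖ ≤ 1 / 2
  nar : ∀ j, Λ.ins 2 j = true → CA (Dw Λ u j)
  pen : ∀ t, Λ.k t = 4 → 1 ≤ (Dw Λ u (7 * t)).re ∧ (Dw Λ u (7 * t)).re / 7 ≤ (Dw Λ u (7 * t)).im

/-- the vector of the columns of a block -/
def cw (Λ : Lay) (u : ℕ → ℂ) (β : ℕ) : ℂ :=
  if β < Λ.n then u β else if β = Λ.n then u 0 else u (β - Λ.n - 1)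

/-- horizontal position of a line -/
def Uh (Λ : Lay) (u : ℕ → ℂ) (i : ℕ) : ℂ := ∑ m ∈ Finset.range i, cw Λ u (m / 6)

/-- vertical positions of the rows, on the left and on the right -/
def VL (Λ : Lay) (u : ℕ → ℂ) (j : ℕ) : ℂ := ∑ r ∈ Finset.range j, u (Λ.a (r / 7))

def VR (Λ : Lay) (u : ℕ → ℂ) (j : ℕ) : ℂ := ∑ r ∈ Finset.range j, u (Λ.b (r / 7))

/-- position of a grid point -/
noncomputable def gp (Λ : Lay) (u : ℕ → ℂ) (i j : ℕ) : ℂ :=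
  Uh Λ u i + ro * (if i ≤ 6 * Λ.n + 2 then VL Λ u j else VR Λ u j)

/-- the realization -/
noncomputable def ps (Λ : Lay) (u : ℕ → ℂ) : Vt → ℂ
  | .g i j => gp Λ u i j
  | .q β t m r => gp Λ u (6 * β + 1) (7 * t) + cw Λ u β * ofs m r
  | .lo i => gp Λ u i 0 + cw Λ u (i / 6) * conj om
  | .hi i => gp Λ u i (7 * Λ.T) + cw Λ u (i / 6) * om
  | .pe t => gp Λ u (6 * Λ.n + 2) (7 * t) - Complex.I * ro

/-- the vertices that are used -/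
def Val (Λ : Lay) : Vt → Prop
  | .g i j => Λ.prs i j = true
  | .q β t m r => β < Λ.nb ∧ t < Λ.T ∧ Λ.pat t β = true ∧ m < 3 ∧ 1 ≤ r ∧ r ≤ 7
  | .lo i => i < 6 * Λ.nb ∧ i % 6 ≤ 4
  | .hi i => i < 6 * Λ.nb ∧ i % 6 ≤ 4
  | .pe t => t < Λ.T ∧ Λ.k t = 4

/-- sums of vectors of the cones -/
structure St_cone : Prop where
  l1 : ∀ A B : ℂ, CA A → CB B → 1 ≤ ‖A‖ → 1 ≤ ‖B‖ → 1 ≤ ‖A + ro * B‖ ∧ 1 ≤ ‖A - ro * B‖
  l2 : ∀ A B : ℂ, CA A → CB B → 109 / 100 ≤ ‖A‖ → 1 ≤ ‖A + ro * B‖ ∧ 1 ≤ ‖A - ro * B‖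
  l3 : ∀ A B : ℂ, CA A → CB B → 109 / 100 ≤ ‖B‖ → 1 ≤ ‖A + ro * B‖ ∧ 1 ≤ ‖A - ro * B‖
  ba : ∀ z, CB z → CA z
  aa : ∀ y z, CA y → CA z → CA (y + z)
  bb : ∀ y z, CB y → CB z → CB (y + z)
  sa : ∀ (c : ℝ) z, 0 ≤ c → CA z → CA (c * z)
  sb : ∀ (c : ℝ) z, 0 ≤ c → CB z → CB (c * z)
  re : ∀ z, CB z → ‖z‖ = 1 → 49 / 50 ≤ z.re
  /-- sums of `m ≥ 1` unit vectors in the cone -/
  su : ∀ (f : ℕ → ℂ) (s : Finset ℕ), (∀ i ∈ s, CB (f i) ∧ ‖f i‖ = 1) →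
    CB (∑ i ∈ s, f i) ∧ 49 / 50 * (s.card : ℝ) ≤ (∑ i ∈ s, f i).re ∧
      (1 ≤ s.card → 1 ≤ ‖∑ i ∈ s, f i‖)

/-- differences of the positions of lines and rows -/
structure Huv (Λ : Lay) (u : ℕ → ℂ) : Prop where
  U : ∀ i i', i < i' → i' ≤ 6 * Λ.nb → CB (Uh Λ u i' - Uh Λ u i) ∧
    49 / 50 * ((i' : ℝ) - i) ≤ (Uh Λ u i' - Uh Λ u i).re ∧ 1 ≤ ‖Uh Λ u i' - Uh Λ u i‖
  L : ∀ j j', j < j' → CB (VL Λ u j' - VL Λ u j) ∧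
    49 / 50 * ((j' : ℝ) - j) ≤ (VL Λ u j' - VL Λ u j).re ∧ 1 ≤ ‖VL Λ u j' - VL Λ u j‖
  R : ∀ j j', j < j' → CB (VR Λ u j' - VR Λ u j) ∧
    49 / 50 * ((j' : ℝ) - j) ≤ (VR Λ u j' - VR Λ u j).re ∧ 1 ≤ ‖VR Λ u j' - VR Λ u j‖
  D : ∀ j, Dw Λ u j = ro * (VR Λ u j - VL Λ u j)
  out : ∀ j, Λ.ins 1 j = false → Λ.ins 2 j = false → Dw Λ u j = 0
  cn : ∀ β < Λ.nb, ‖cw Λ u β‖ = 1 ∧ CB (cw Λ u β)
  /-- patched blocks have the wire of the rows -/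
  pw : ∀ β t, Λ.pat t β = true → cw Λ u β = (if β ≤ Λ.n then u (Λ.a t) else u (Λ.b t))

def St_uv : Prop := St_cone → ∀ Λ : Lay, Λ.Ok → ∀ u, Cmp Λ u → Huv Λ u

def St_cedge : Prop := ∀ Λ : Lay, Λ.Ok → ∀ u, Cmp Λ u → Huv Λ u → ∀ x y, E Λ x y → dist (ps Λ u x) (ps Λ u y) = 1

def St_cgg : Prop := St_cone → ∀ Λ : Lay, Λ.Ok → ∀ u, Cmp Λ u → Huv Λ u → ∀ i j i' j',
  Λ.prs i j = true → Λ.prs i' j' = true → (i, j) ≠ (i', j') → 1 ≤ dist (gp Λ u i j) (gp Λ u i' j')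

def St_cgq : Prop := St_cone → ∀ Λ : Lay, Λ.Ok → ∀ u, Cmp Λ u → Huv Λ u → ∀ i j β t m r,
  Λ.prs i j = true → Val Λ (.q β t m r) → 1 ≤ dist (gp Λ u i j) (ps Λ u (.q β t m r))

def St_cqq : Prop := St_cone → ∀ Λ : Lay, Λ.Ok → ∀ u, Cmp Λ u → Huv Λ u → ∀ β t m r β' t' m' r',
  Val Λ (.q β t m r) → Val Λ (.q β' t' m' r') → Vt.q β t m r ≠ Vt.q β' t' m' r' →
  1 ≤ dist (ps Λ u (.q β t m r)) (ps Λ u (.q β' t' m' r'))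

def St_cend : Prop := St_cone → ∀ Λ : Lay, Λ.Ok → ∀ u, Cmp Λ u → Huv Λ u → ∀ i, i < 6 * Λ.nb → i % 6 ≤ 4 →
  ∀ x, Val Λ x → (x ≠ .lo i → 1 ≤ dist (ps Λ u (.lo i)) (ps Λ u x)) ∧
    (x ≠ .hi i → 1 ≤ dist (ps Λ u (.hi i)) (ps Λ u x))

def St_cpen : Prop := St_cone → ∀ Λ : Lay, Λ.Ok → ∀ u, Cmp Λ u → Huv Λ u → ∀ t, t < Λ.T → Λ.k t = 4 →
  (∀ i j, Λ.prs i j = true → 1 ≤ dist (ps Λ u (.pe t)) (gp Λ u i j)) ∧
  (∀ β t' m r, Val Λ (.q β t' m r) → 1 ≤ dist (ps Λ u (.pe t)) (ps Λ u (.q β t' m r))) ∧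
  (∀ t', t' < Λ.T → Λ.k t' = 4 → t' ≠ t → 1 ≤ dist (ps Λ u (.pe t)) (ps Λ u (.pe t')))

/-! ### The graph -/

/-- the numbering of the vertices -/
structure St_list : Prop where
  mem : ∀ Λ : Lay, Λ.Ok → ∀ e, e ∈ eList Λ ↔ ∃ x y, E Λ x y ∧ e = (code Λ x, code Λ y)
  val : ∀ Λ : Lay, Λ.Ok → ∀ x, Live Λ x → Val Λ x
  lt : ∀ Λ : Lay, Λ.Ok → ∀ x, Val Λ x → code Λ x < nV Λ
  inj : ∀ Λ : Lay, Λ.Ok → ∀ x y, Val Λ x → Val Λ y → code Λ x = code Λ y → x = y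
  ne : ∀ Λ : Lay, Λ.Ok → ∀ x y, E Λ x y → x ≠ y

/-- the graph is connected up to isolated vertices -/
def St_conn : Prop := ∀ Λ : Lay, Λ.Ok → ∀ f : Vt → ℝ, (∀ x y, E Λ x y → f x = f y) →
  ∀ x y, Live Λ x → Live Λ y → f x = f y

/-- the ply number is at most one -/
structure St_ply : Prop where
  fwd : ∀ (L : List (List ℕ)) (h : IsGraph L), plyNumber (graphOf L h) ≤ 1 →
    (∀ f : ℕ → ℝ, (∀ u < L.length, ∀ v ∈ L.getD u [], f u = f v) → ∀ u < L.length,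
      ∀ v < L.length, L.getD u [] ≠ [] → L.getD v [] ≠ [] → f u = f v) →
    ∃ p : ℕ → ℂ, (∀ u < L.length, ∀ v ∈ L.getD u [], dist (p u) (p v) = 1) ∧
      ∀ u < L.length, ∀ v < L.length, L.getD u [] ≠ [] → L.getD v [] ≠ [] → u ≠ v →
        1 ≤ dist (p u) (p v)
  bwd : ∀ (L : List (List ℕ)) (h : IsGraph L) (p : ℕ → ℂ),
    (∀ u < L.length, ∀ v ∈ L.getD u [], dist (p u) (p v) = 1) →
    (∀ u < L.length, ∀ v < L.length, L.getD u [] ≠ [] → L.getD v [] ≠ [] → u ≠ v →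
      1 ≤ dist (p u) (p v)) → plyNumber (graphOf L h) ≤ 1
  /-- the ply number, in terms of depths -/
  lek : ∀ (L : List (List ℕ)) (h : IsGraph L) (k : ℕ), plyNumber (graphOf L h) ≤ k ↔
    ∃ p : Fin L.length → ℂ, Function.Injective p ∧ ∀ z : ℂ,
      {v : Fin L.length | dist z (p v) < sSup {r : ℝ | ∃ u, (graphOf L h).Adj v u ∧
        r = dist (p v) (p u) / 2}}.ncard ≤ k

/-- common points of open disks: test points -/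
def St_disk : Prop := ∀ (I : Finset ℕ) (c : ℕ → ℂ) (r : ℕ → ℝ) (z : ℂ), I.Nonempty →
  (∀ i ∈ I, ∀ j ∈ I, c i = c j → i = j) → (∀ i ∈ I, dist z (c i) < r i) →
  (∃ i ∈ I, ∀ j ∈ I, dist (c i) (c j) < r j) ∨
  ∃ P Q : ℂ, (∃ i ∈ I, ∃ j ∈ I, i ≠ j ∧ dist P (c i) = r i ∧ dist P (c j) = r j) ∧
    (∃ i ∈ I, ∃ j ∈ I, i ≠ j ∧ dist Q (c i) = r i ∧ dist Q (c j) = r j) ∧
    ∀ m ∈ I, dist ((P + Q) / 2) (c m) < r m

/-- membership -/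
def St_mem : Prop := St_disk → St_ply → InER PLY

/-! ### Programs -/

/-- the layout with given levels -/
def layOf (n : ℕ) (P : List (ℕ × ℕ × ℕ)) : Lay :=
  ⟨n, P.length, fun t => (P.getD t (0, 0, 0)).1, fun t => (P.getD t (0, 0, 0)).2.1,
    fun t => (P.getD t (0, 0, 0)).2.2⟩

/-- the levels of a hole: type `0` wide, type `1` narrow with `8 + 4` levels, type `2` narrow with
`12 + 12` levels -/
def hlv (h : ℕ × List (ℕ × ℕ)) : List (ℕ × ℕ × ℕ) :=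
  if h.1 = 0 then h.2.map fun x => (x.1, x.2, 2) else
  if h.1 = 1 then
    List.replicate 8 ((h.2.getD 0 (0, 0)).1, (h.2.getD 0 (0, 0)).2, 3) ++
      (((h.2.getD 1 (0, 0)).1, (h.2.getD 1 (0, 0)).2, 4) ::
        List.replicate 3 ((h.2.getD 1 (0, 0)).1, (h.2.getD 1 (0, 0)).2, 3))
  else
    List.replicate 12 ((h.2.getD 0 (0, 0)).1, (h.2.getD 0 (0, 0)).2, 3) ++
      (((h.2.getD 1 (0, 0)).1, (h.2.getD 1 (0, 0)).2, 4) ::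
        List.replicate 11 ((h.2.getD 1 (0, 0)).1, (h.2.getD 1 (0, 0)).2, 3))

/-- the levels of a list of holes -/
def prog (n : ℕ) (hs : List (ℕ × List (ℕ × ℕ))) : List (ℕ × ℕ × ℕ) :=
  (0, 0, 1) :: (((List.range n).map fun i => (i, i, 0)) ++
    ((0, 0, 1) :: hs.flatMap fun h => hlv h ++ [(0, 0, 1)]))

/-- valid holes -/
def hOk (n : ℕ) (h : ℕ × List (ℕ × ℕ)) : Prop :=
  (∀ x ∈ h.2, x.1 < n ∧ x.2 < n) ∧ (h.1 = 0 → h.2 ≠ []) ∧ (h.1 ≠ 0 → h.2.length = 2)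

/-- the sum of the differences of a list of pairs -/
def dsum (u : ℕ → ℂ) (l : List (ℕ × ℕ)) : ℂ := (l.map fun x => u x.2 - u x.1).sum

/-- first and second difference of a narrow hole -/
def dif (u : ℕ → ℂ) (h : ℕ × List (ℕ × ℕ)) (i : ℕ) : ℂ :=
  u (h.2.getD i (0, 0)).2 - u (h.2.getD i (0, 0)).1

/-- what a hole gives -/
def hS (u : ℕ → ℂ) (h : ℕ × List (ℕ × ℕ)) : Prop :=
  if h.1 = 0 then dsum u h.2 = 0 else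
    (if h.1 = 1 then 2 * dif u h 0 + dif u h 1 = 0 else dif u h 0 + dif u h 1 = 0) ∧
    dif u h 0 ≠ 0 ∧ 1 ≤ ‖u 0 + ro * dif u h 0‖

/-- what a hole requires -/
def hC (u : ℕ → ℂ) (h : ℕ × List (ℕ × ℕ)) : Prop :=
  if h.1 = 0 then dsum u h.2 = 0 ∧ (h.2.map fun x => ‖u x.2 - u x.1‖).sum ≤ 1 / 14 else
    (if h.1 = 1 then 2 * dif u h 0 + dif u h 1 = 0 ∧ 1 / 56 ≤ (ro * dif u h 0).re else
      dif u h 0 + dif u h 1 = 0 ∧ 1 / 84 ≤ (ro * dif u h 0).re) ∧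
    (ro * dif u h 0).re / 7 ≤ (ro * dif u h 0).im ∧ (ro * dif u h 0).im ≤ (ro * dif u h 0).re / 4

def St_lok : Prop := ∀ n hs, 2 ≤ n → (∀ h ∈ hs, hOk n h) → (layOf n (prog n hs)).Ok

def St_pS : Prop := ∀ n hs, 2 ≤ n → (∀ h ∈ hs, hOk n h) → ∀ u, Snd (layOf n (prog n hs)) u →
  ∀ h ∈ hs, hS u h

def St_pC : Prop := ∀ n hs, 2 ≤ n → (∀ h ∈ hs, hOk n h) → ∀ u : ℕ → ℂ, u 0 = 1 →
  (∀ i < n, ‖u i‖ = 1) → (∀ i < n, CB (u i)) → (∀ h ∈ hs, hC u h) → Cmp (layOf n (prog n hs)) u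

/-! ### Arithmetic -/

/-- the equation with the constant `1 / 8` -/
def ecH (y : ℕ → ℝ) : EC → Prop
  | .one i => y i = 1 / 8
  | .add i j k => y i + y j = y k
  | .mul i j k => y i * y j = y k

/-- wires of a slot: `0, 1`: the wires `A⁺`, `A⁻`; `2, 3`: the wires `B⁺`, `B⁻`; `4, …, 9`:
auxiliary wires -/
def sW (v k : ℕ) : ℕ := 1 + 10 * v + k

/-- reversor: `x = p² / s`, with the auxiliary wires `q, q + 1, q + 2` -/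
def rev (p s x q : ℕ) : List (ℕ × List (ℕ × ℕ)) :=
  [(1, [(q, p), (s, q + 1)]), (1, [(q + 1, x), (p, q + 2)])]

/-- holes of a slot -/
def hSlot (v : ℕ) : List (ℕ × List (ℕ × ℕ)) :=
  rev 0 (sW v 1) (sW v 0) (sW v 4) ++ (rev 0 (sW v 3) (sW v 2) (sW v 7) ++
    [(0, [(sW v 0, sW 0 0), (sW v 1, sW 0 1), (sW 0 2, sW v 2), (sW 0 3, sW v 3)])])

/-- `y i + y j = y k + y 0` for slots -/
def hAdd (i j k : ℕ) : ℕ × List (ℕ × ℕ) :=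
  (0, [(sW i 0, sW k 0), (sW i 1, sW k 1), (sW j 0, sW 0 0), (sW j 1, sW 0 1)])

/-- holes of a product of the `A`-wire of the slot `i` and the `B`-wire of the slot `j`; wires `X`,
`X + 1`: `S⁺`, `S⁻`; `X + 2`, `X + 3`: `D⁺`, `D⁻` -/
def hPr (X i j : ℕ) : List (ℕ × List (ℕ × ℕ)) :=
  rev (sW j 2) (X + 2) X (X + 4) ++ (rev (sW i 0) (X + 3) X (X + 7) ++
    (rev 0 (X + 3) (X + 2) (X + 10) ++ rev 0 (X + 1) X (X + 13)))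

/-- holes of a multiplication `y i * y j = y 4 * y k` -/
def hMul (X i j k : ℕ) : List (ℕ × List (ℕ × ℕ)) :=
  hPr X i j ++ (hPr (X + 16) 4 0 ++ (hPr (X + 32) 0 k ++ (hPr (X + 48) 4 k ++
    (hPr (X + 64) i 0 ++ (hPr (X + 80) 0 j ++
      [(0, (List.range 3).flatMap fun l => (List.range 4).map fun r =>
        (X + 16 * l + r, X + 48 + 16 * l + r))])))))

/-- holes of an equation -/
def hEq (X : ℕ) (e : EC) : List (ℕ × List (ℕ × ℕ)) :=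
  match e with
  | .one i => [hAdd (9 + i) 0 1]
  | .add i j k => [hAdd (9 + i) (9 + j) (9 + k)]
  | .mul i j k => hMul X (9 + i) (9 + j) (9 + k)

/-- the number of slots -/
def nS (m : ℕ) : ℕ := 9 + m

/-- the number of wires -/
def nW (m : ℕ) (es : List EC) : ℕ := 1 + 10 * nS m + 96 * es.length

/-- all holes -/
def hAll (m : ℕ) (es : List EC) : List (ℕ × List (ℕ × ℕ)) :=
  ((List.range (nS m)).flatMap hSlot) ++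
  (((List.range 7).map fun v => hAdd (v + 1) (v + 1) (v + 2)) ++
  ((2, [(sW 8 0, sW 0 0), (sW 0 0, sW 8 0)]) ::
    es.zipIdx.flatMap fun e => hEq (1 + 10 * nS m + 96 * e.2) e.1))

def St_val : Prop := ∀ m es, (∀ e ∈ es, EC.below m e) → 2 ≤ nW m es ∧ ∀ h ∈ hAll m es, hOk (nW m es) h

/-- from the wires to a solution -/
def St_as : Prop := ∀ m es, (∀ e ∈ es, EC.below m e) → ∀ u : ℕ → ℂ,
  (∀ i < nW m es, ‖u i‖ = 1) →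
  (∀ i < nW m es, ∀ j < nW m es, i ≠ j →
    1 ≤ ‖u i + ro * u j‖ ∧ 1 ≤ ‖u i - ro * u j‖ ∧ 0 < cr (u i) (ro * u j)) →
  (∀ h ∈ hAll m es, hS u h) → ∃ y : ℕ → ℝ, ∀ e ∈ es, ecH y e

/-- the reversor with the wires `p`, `s`, `x` is completed by `q`, `r`, `y` -/
structure RC (p s x q r y : ℂ) : Prop where
  nq : ‖q‖ = 1 ∧ CB q
  nr : ‖r‖ = 1 ∧ CB r
  ny : ‖y‖ = 1 ∧ CB y
  e1 : 2 * (p - q) + (r - s) = 0
  d1 : 1 / 56 ≤ (ro * (p - q)).re ∧ (ro * (p - q)).re / 7 ≤ (ro * (p - q)).im ∧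
    (ro * (p - q)).im ≤ (ro * (p - q)).re / 4
  e2 : 2 * (x - r) + (y - p) = 0
  d2 : 1 / 56 ≤ (ro * (x - r)).re ∧ (ro * (x - r)).re / 7 ≤ (ro * (x - r)).im ∧
    (ro * (x - r)).im ≤ (ro * (x - r)).re / 4

/-- reversors: the wires `p`, `s = p / t`, `x = p t` can be completed -/
def St_rev : Prop := ∀ p t : ℂ, ‖p‖ = 1 → ‖t‖ = 1 → 0 < p.re → 0 ≤ p.im → p.im ≤ 1 / 40 →
  0 < t.re → 1 / 100 ≤ t.im → t.im ≤ 1 / 27 → ∃ q r y : ℂ, RC p (p * conj t) (p * t) q r y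

/-- the angles of the wires of a slot: `1 - cos` -/
noncomputable def aA (y : ℝ) : ℝ := 1 / 18000 - y
noncomputable def aB (y : ℝ) : ℝ := 1 / 3900 - y

/-- the unit vector with real part `1 - c` -/
noncomputable def uv (c : ℝ) : ℂ := ⟨1 - c, √(2 * c - c ^ 2)⟩

/-- numerical bounds for the wires; `y` is the value of a slot -/
structure St_num : Prop where
  /-- unit vectors -/
  un : ∀ c : ℝ, 0 ≤ c → c ≤ 1 → ‖uv c‖ = 1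
  /-- wires `A` and `B` -/
  A : ∀ y : ℝ, -(1 / 4000) ≤ y → y ≤ 1 / 512000 → 1 / 100 ≤ (uv (aA y)).im ∧ (uv (aA y)).im ≤ 1 / 27
  B : ∀ y : ℝ, -(1 / 4000) ≤ y → y ≤ 1 / 512000 → 1 / 100 ≤ (uv (aB y)).im ∧ (uv (aB y)).im ≤ 1 / 27
  /-- wires as centers of reversors -/
  A' : ∀ y : ℝ, -(1 / 64000) ≤ y → y ≤ 1 / 512000 → (uv (aA y)).im ≤ 1 / 40
  B' : ∀ y : ℝ, -(1 / 64000) ≤ y → y ≤ 1 / 512000 → (uv (aB y)).im ≤ 1 / 40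
  /-- the wires `S = B A` and `D = B / A` -/
  S : ∀ y z : ℝ, -(1 / 64000) ≤ y → y ≤ 1 / 512000 → -(1 / 64000) ≤ z → z ≤ 1 / 512000 →
    1 / 100 ≤ (uv (aB z) * uv (aA y)).im ∧ (uv (aB z) * uv (aA y)).im ≤ 1 / 27 ∧
    0 < (uv (aB z) * uv (aA y)).re
  D : ∀ y z : ℝ, -(1 / 64000) ≤ y → y ≤ 1 / 512000 → -(1 / 64000) ≤ z → z ≤ 1 / 512000 →
    1 / 100 ≤ (uv (aB z) * conj (uv (aA y))).im ∧ (uv (aB z) * conj (uv (aA y))).im ≤ 1 / 27 ∧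
    0 < (uv (aB z) * conj (uv (aA y))).re
  /-- differences -/
  dA : ∀ y y' : ℝ, -(1 / 4000) ≤ y → y ≤ 1 / 512000 → -(1 / 4000) ≤ y' → y' ≤ 1 / 512000 →
    ‖uv (aA y) - uv (aA y')‖ ≤ 1 / 60
  dA' : ∀ y y' : ℝ, -(1 / 64000) ≤ y → y ≤ 1 / 512000 → -(1 / 64000) ≤ y' → y' ≤ 1 / 512000 →
    ‖uv (aA y) - uv (aA y')‖ ≤ 1 / 500
  dB : ∀ y : ℝ, -(1 / 4000) ≤ y → y ≤ 1 / 512000 → ‖uv (aB y) - uv (aB 0)‖ ≤ 1 / 100
  dB' : ∀ y y' : ℝ, -(1 / 64000) ≤ y → y ≤ 1 / 512000 → -(1 / 64000) ≤ y' → y' ≤ 1 / 512000 →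
    ‖uv (aB y) - uv (aB y')‖ ≤ 1 / 1000
  /-- the inequality -/
  dD : 1 / 84 ≤ (ro * (uv (aA 0) - uv (aA (-(1 / 4000))))).re ∧
    (ro * (uv (aA 0) - uv (aA (-(1 / 4000))))).re / 7 ≤
      (ro * (uv (aA 0) - uv (aA (-(1 / 4000))))).im ∧
    (ro * (uv (aA 0) - uv (aA (-(1 / 4000))))).im ≤
      (ro * (uv (aA 0) - uv (aA (-(1 / 4000))))).re / 4

/-- the wires of a slot with the value `y` -/
structure Slot (y : ℝ) (f : ℕ → ℂ) : Prop where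
  f0 : f 0 = uv (aA y)
  f1 : f 1 = conj (uv (aA y))
  f2 : f 2 = uv (aB y)
  f3 : f 3 = conj (uv (aB y))
  ok : ∀ k < 10, ‖f k‖ = 1 ∧ CB (f k)
  ra : RC 1 (f 1) (f 0) (f 4) (f 5) (f 6)
  rb : RC 1 (f 3) (f 2) (f 7) (f 8) (f 9)

def St_slot : Prop := St_rev → St_num → ∀ y : ℝ, -(1 / 4000) ≤ y → y ≤ 1 / 512000 →
  ∃ f, Slot y f

/-- the wires of a product of slots with the values `y` (wire `A`) and `z` (wire `B`) -/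
structure Prd (y z : ℝ) (f : ℕ → ℂ) : Prop where
  f0 : f 0 = uv (aB z) * uv (aA y)
  f1 : f 1 = conj (f 0)
  f2 : f 2 = uv (aB z) * conj (uv (aA y))
  f3 : f 3 = conj (f 2)
  ok : ∀ k < 16, ‖f k‖ = 1 ∧ CB (f k)
  r1 : RC (uv (aB z)) (f 2) (f 0) (f 4) (f 5) (f 6)
  r2 : RC (uv (aA y)) (f 3) (f 0) (f 7) (f 8) (f 9)
  r3 : RC 1 (f 3) (f 2) (f 10) (f 11) (f 12)
  r4 : RC 1 (f 1) (f 0) (f 13) (f 14) (f 15)

def St_prd : Prop := St_rev → St_num → ∀ y z : ℝ, -(1 / 64000) ≤ y → y ≤ 1 / 512000 →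
  -(1 / 64000) ≤ z → z ≤ 1 / 512000 → ∃ f, Prd y z f

/-- from a solution to the wires -/
def St_ac : Prop := St_slot → St_prd → St_rev → St_num → ∀ m es, (∀ e ∈ es, EC.below m e) →
  ∀ y : ℕ → ℝ, (∀ i, |y i| ≤ 1 / 8) → (∀ e ∈ es, ecH y e) →
  ∃ u : ℕ → ℂ, u 0 = 1 ∧ (∀ i < nW m es, ‖u i‖ = 1) ∧ (∀ i < nW m es, CB (u i)) ∧
    ∀ h ∈ hAll m es, hC u h

/-! ### Polynomial time -/

/-- the graph is computable in polynomial time from the levels -/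
def St_p1 : Prop := ∀ (α : Type) (_ : TEnc α) (n : α → ℕ) (P : α → List (ℕ × ℕ × ℕ)),
  UPoly n → Poly P → Poly (fun a => fgr (layOf (n a) (P a)))

/-- the levels are computable in polynomial time -/
def St_p2 : Prop := ∀ (α : Type) (_ : TEnc α) (m : α → ℕ) (es : α → List EC), UPoly m → Poly es →
  UPoly (fun a => nW (m a) (es a)) ∧
    Poly (fun a => prog (nW (m a) (es a)) (hAll (m a) (es a)))

end Pool.Agent.H670R4
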