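import Pool.Agent.H670R4.Sub

/-!
# Normalization of the wires
-/

namespace Pool.Agent.H670R4

open Pool.Agent.NPC Pool.Agent.NPC.ER Pool.Agent.H670R2
open scoped ComplexConjugate

/-- scaling of a list of differences -/
theorem as5_dsum (u : ℕ → ℂ) (c : ℂ) (l : List (ℕ × ℕ)) :
    dsum (fun i => u i * c) l = dsum u l * c := by
  unfold dsum
  induction l with
  | nil => simp
  | cons a l ih =>
    simp only [List.map_cons, List.sum_cons] at ih ⊢
    rw [ih]
    ring

theorem as5_dif (u : ℕ → ℂ) (c : ℂ) (h : ℕ × List (ℕ × ℕ)) (i : ℕ) :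
    dif (fun i => u i * c) h i = dif u h i * c := by
  unfold dif
  ring

theorem as5_hS (u : ℕ → ℂ) (c : ℂ) (hc : ‖c‖ = 1) (h : ℕ × List (ℕ × ℕ)) (hh : hS u h) :
    hS (fun i => u i * c) h := by
  have hc0 : c ≠ 0 := by
    intro h0
    rw [h0, norm_zero] at hc
    exact zero_ne_one hc
  unfold hS at hh ⊢
  split_ifs at hh ⊢ with h0 h1
  · rw [as5_dsum, hh, zero_mul]
  · obtain ⟨ha, hb, hd⟩ := hh
    refine ⟨?_, ?_, ?_⟩
    · rw [as5_dif, as5_dif]
      have : 2 * (dif u h 0 * c) + dif u h 1 * c = (2 * dif u h 0 + dif u h 1) * c := by ring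
      rw [this, ha, zero_mul]
    · rw [as5_dif]
      exact mul_ne_zero hb hc0
    · rw [as5_dif]
      have : u 0 * c + ro * (dif u h 0 * c) = (u 0 + ro * dif u h 0) * c := by ring
      simp only [this, norm_mul, hc, mul_one]
      exact hd
  · obtain ⟨ha, hb, hd⟩ := hh
    refine ⟨?_, ?_, ?_⟩
    · rw [as5_dif, as5_dif]
      have : dif u h 0 * c + dif u h 1 * c = (dif u h 0 + dif u h 1) * c := by ring
      rw [this, ha, zero_mul]
    · rw [as5_dif]
      exact mul_ne_zero hb hc0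
    · rw [as5_dif]
      have : u 0 * c + ro * (dif u h 0 * c) = (u 0 + ro * dif u h 0) * c := by ring
      simp only [this, norm_mul, hc, mul_one]
      exact hd

theorem as5_cr (u v c : ℂ) (hc : ‖c‖ = 1) : cr (u * c) (v * c) = cr u v := by
  have h : c.re * c.re + c.im * c.im = 1 := by
    have h2 := Complex.sq_norm c
    rw [hc, Complex.normSq_apply] at h2
    linarith
  unfold cr
  simp only [Complex.mul_re, Complex.mul_im]
  have : (u.re * c.re - u.im * c.im) * (v.re * c.im + v.im * c.re) -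
      (u.re * c.im + u.im * c.re) * (v.re * c.re - v.im * c.im) =
      (u.re * v.im - u.im * v.re) * (c.re * c.re + c.im * c.im) := by ring
  rw [this, h, mul_one]

theorem as5_near_one : near 1 1 := by
  have h3 : √3 * √3 = 3 := Real.mul_self_sqrt (by norm_num)
  have h30 : 0 < √3 := Real.sqrt_pos.2 (by norm_num)
  have ha : 1 ≤ ‖(1 : ℂ) + ro * 1‖ := by
    rw [mul_one, Complex.norm_def]
    apply Real.le_sqrt_of_sq_le
    rw [Complex.normSq_apply]
    simp only [ro, Complex.add_re, Complex.add_im, Complex.one_re, Complex.one_im]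
    nlinarith
  have hb : 1 ≤ ‖(1 : ℂ) - ro * 1‖ := by
    rw [mul_one, Complex.norm_def]
    apply Real.le_sqrt_of_sq_le
    rw [Complex.normSq_apply]
    simp only [ro, Complex.sub_re, Complex.sub_im, Complex.one_re, Complex.one_im]
    nlinarith
  have hc : 0 < cr 1 (ro * 1) := by
    rw [mul_one]
    unfold cr
    simp only [ro, Complex.one_re, Complex.one_im]
    nlinarith
  exact ⟨ha, hb, hc, ha, hb, hc⟩

theorem as5_ok : St_as5 := by
  intro h4 h1 h2 h3 m es hb u hn hf hh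
  have hW : 0 < nW m es := by
    unfold nW
    omega
  have hu0 : ‖u 0‖ = 1 := hn 0 hW
  have hu00 : u 0 ≠ 0 := by
    intro h0
    rw [h0, norm_zero] at hu0
    exact zero_ne_one hu0
  have hc : ‖(u 0)⁻¹‖ = 1 := by rw [norm_inv, hu0, inv_one]
  have hsc : ∀ i j, i < nW m es → j < nW m es → i ≠ j →
      1 ≤ ‖u i * (u 0)⁻¹ + ro * (u j * (u 0)⁻¹)‖ ∧ 1 ≤ ‖u i * (u 0)⁻¹ - ro * (u j * (u 0)⁻¹)‖ ∧
      0 < cr (u i * (u 0)⁻¹) (ro * (u j * (u 0)⁻¹)) := by
    intro i j hi hj hij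
    obtain ⟨ha, hb, hd⟩ := hf i hi j hj hij
    have e1 : u i * (u 0)⁻¹ + ro * (u j * (u 0)⁻¹) = (u i + ro * u j) * (u 0)⁻¹ := by ring
    have e2 : u i * (u 0)⁻¹ - ro * (u j * (u 0)⁻¹) = (u i - ro * u j) * (u 0)⁻¹ := by ring
    have e3 : ro * (u j * (u 0)⁻¹) = (ro * u j) * (u 0)⁻¹ := by ring
    refine ⟨?_, ?_, ?_⟩
    · rw [e1, norm_mul, hc, mul_one]
      exact ha
    · rw [e2, norm_mul, hc, mul_one]
      exact hb
    · rw [e3, as5_cr _ _ _ hc]
      exact hd
  have h00 : u 0 * (u 0)⁻¹ = 1 := mul_inv_cancel₀ hu00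
  refine h4 h1 h2 h3 m es hb (fun i => u i * (u 0)⁻¹) h00 ?_ ?_ ?_
  · intro i hi
    show ‖u i * (u 0)⁻¹‖ = 1
    rw [norm_mul, hc, mul_one]
    exact hn i hi
  · intro i hi
    show near 1 (u i * (u 0)⁻¹)
    rcases Nat.eq_zero_or_pos i with h0 | h0
    · rw [h0, h00]
      exact as5_near_one
    · obtain ⟨a1, a2, a3⟩ := hsc 0 i hW hi (by omega)
      obtain ⟨b1, b2, b3⟩ := hsc i 0 hi hW (by omega)
      rw [h00] at a1 a2 a3 b1 b2 b3
      exact ⟨a1, a2, a3, b1, b2, b3⟩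
  · intro h hh'
    exact as5_hS u _ hc h (hh h hh')

end Pool.Agent.H670R4
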