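import Pool.Agent.H670R4.Sub

/-!
# BWD: from a penny drawing to ply one
-/

namespace Pool.Agent.H670R4

open Pool.Agent.NPC Pool.Agent.H670R2

/-- the isometry from the complex numbers to the plane -/
noncomputable def bwd_iso : ℂ ≃ₗᵢ[ℝ] EuclideanSpace ℝ (Fin 2) := Complex.orthonormalBasisOneI.repr

open Classical in
/-- the drawing -/
noncomputable def bwd_P (L : List (List ℕ)) (p : ℕ → ℂ) (R : ℝ) (v : Fin L.length) : ℂ :=
  if L.getD v.1 [] = [] then ((R + 1 + v.1 : ℝ) : ℂ) else p v.1

theorem bwd_depth (L : List (List ℕ)) (h : IsGraph L) (P : Fin L.length → Plane)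
    (h1 : ∀ u v : Fin L.length, (graphOf L h).Adj u v → dist (P u) (P v) = 1)
    (h2 : ∀ u v : Fin L.length, L.getD u.1 [] ≠ [] → L.getD v.1 [] ≠ [] → u ≠ v →
      1 ≤ dist (P u) (P v)) (z : Plane) : depth (graphOf L h) P z ≤ 1 := by
  have hr : ∀ v : Fin L.length, z ∈ Metric.ball (P v) (rad (graphOf L h) P v) →
      L.getD v.1 [] ≠ [] ∧ dist z (P v) < 1 / 2 := by
    intro v hv
    rw [Metric.mem_ball] at hv
    by_cases hne : ∃ u, (graphOf L h).Adj v u
    · obtain ⟨u₀, hu₀⟩ := hne
      have e : {r : ℝ | ∃ u, (graphOf L h).Adj v u ∧ r = dist (P v) (P u) / 2} = {1 / 2} := by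
        ext r
        rw [Set.mem_ofPred_eq, Set.mem_singleton_iff]
        constructor
        · rintro ⟨u, hu, rfl⟩
          rw [h1 v u hu]
        · rintro rfl
          exact ⟨u₀, hu₀, by rw [h1 v u₀ hu₀]⟩
      have hrad : rad (graphOf L h) P v = 1 / 2 := by
        unfold rad
        rw [e, csSup_singleton]
      rw [hrad] at hv
      refine ⟨?_, hv⟩
      intro hempty
      have hu₀' : u₀.1 ∈ L.getD v.1 [] := hu₀
      rw [hempty] at hu₀'
      simp at hu₀'
    · exfalso
      have e : {r : ℝ | ∃ u, (graphOf L h).Adj v u ∧ r = dist (P v) (P u) / 2} = ∅ := by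
        ext r
        rw [Set.mem_ofPred_eq]
        constructor
        · rintro ⟨u, hu, _⟩
          exact absurd ⟨u, hu⟩ hne
        · intro hr
          exact absurd hr (Set.notMem_empty r)
      have hrad : rad (graphOf L h) P v = 0 := by
        unfold rad
        rw [e, Real.sSup_empty]
      rw [hrad] at hv
      exact absurd hv (not_lt.2 dist_nonneg)
  unfold depth
  rw [Set.ncard_le_one (Set.toFinite _)]
  intro v hv w hw
  obtain ⟨hv1, hv2⟩ := hr v hv
  obtain ⟨hw1, hw2⟩ := hr w hw
  by_contra hvw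
  have h3 := h2 v w hv1 hw1 hvw
  have h4 := dist_triangle (P v) z (P w)
  rw [dist_comm (P v) z] at h4
  linarith

theorem ply_bwd_ok : St_bwd := by
  classical
  intro L h p h1 h2
  obtain ⟨R, hR⟩ : ∃ R : ℝ, ∀ v : Fin L.length, ‖p v.1‖ ≤ R := by
    refine ⟨∑ v : Fin L.length, ‖p v.1‖, fun v => ?_⟩
    exact Finset.single_le_sum (f := fun v : Fin L.length => ‖p v.1‖)
      (fun _ _ => norm_nonneg _) (Finset.mem_univ v)
  have hinj : Function.Injective (bwd_P L p R) := by
    have key : ∀ u v : Fin L.length, L.getD u.1 [] = [] → L.getD v.1 [] ≠ [] →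
        bwd_P L p R u ≠ bwd_P L p R v := by
      intro u v hu hv he
      unfold bwd_P at he
      rw [if_pos hu, if_neg hv] at he
      have h3 := hR v
      rw [← he, Complex.norm_real] at h3
      have h4 := le_abs_self (R + 1 + (u.1 : ℝ))
      have h5 : (0 : ℝ) ≤ u.1 := Nat.cast_nonneg _
      rw [Real.norm_eq_abs] at h3
      linarith
    intro u v he
    by_cases hu : L.getD u.1 [] = []
    · by_cases hv : L.getD v.1 [] = []
      · unfold bwd_P at he
        rw [if_pos hu, if_pos hv] at he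
        have h3 := Complex.ofReal_injective he
        have h4 : (u.1 : ℝ) = v.1 := by linarith
        exact Fin.ext (by exact_mod_cast h4)
      · exact absurd he (key u v hu hv)
    · by_cases hv : L.getD v.1 [] = []
      · exact absurd he.symm (key v u hv hu)
      · by_contra hne
        have h3 := h2 u.1 u.2 v.1 v.2 hu hv (fun hh => hne (Fin.ext hh))
        unfold bwd_P at he
        rw [if_neg hu, if_neg hv] at he
        rw [he, dist_self] at h3
        linarith
  have hP1 : ∀ u v : Fin L.length, (graphOf L h).Adj u v →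
      dist (bwd_iso (bwd_P L p R u)) (bwd_iso (bwd_P L p R v)) = 1 := by
    intro u v huv
    have h3 : v.1 ∈ L.getD u.1 [] := huv
    have h4 := h u.1 v.1 u.2 h3
    have hu : L.getD u.1 [] ≠ [] := List.ne_nil_of_mem h3
    have hv : L.getD v.1 [] ≠ [] := List.ne_nil_of_mem h4.2.2
    rw [LinearIsometryEquiv.dist_map]
    unfold bwd_P
    rw [if_neg hu, if_neg hv]
    exact h1 u.1 u.2 v.1 h3
  have hP2 : ∀ u v : Fin L.length, L.getD u.1 [] ≠ [] → L.getD v.1 [] ≠ [] → u ≠ v →
      1 ≤ dist (bwd_iso (bwd_P L p R u)) (bwd_iso (bwd_P L p R v)) := by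
    intro u v hu hv huv
    rw [LinearIsometryEquiv.dist_map]
    unfold bwd_P
    rw [if_neg hu, if_neg hv]
    exact h2 u.1 u.2 v.1 v.2 hu hv (fun hh => huv (Fin.ext hh))
  have hply : ply (graphOf L h) (fun v => bwd_iso (bwd_P L p R v)) ≤ 1 := by
    unfold ply
    refine csSup_le (Set.range_nonempty _) ?_
    rintro _ ⟨z, rfl⟩
    exact bwd_depth L h _ hP1 hP2 z
  refine le_trans (Nat.sInf_le ?_) hply
  exact ⟨fun v => bwd_iso (bwd_P L p R v), bwd_iso.injective.comp hinj, rfl⟩

end Pool.Agent.H670R4
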