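import Pool.Agent.H670R4.Sub

/-!
# Auxiliary facts for the tasks CEND and CPEN
-/

namespace Pool.Agent.H670R4

open scoped ComplexConjugate

theorem cend_s3 : √(3 : ℝ) * √3 = 3 := Real.mul_self_sqrt (by norm_num)

theorem cend_ro : ‖ro‖ = 1 := by
  rw [Complex.norm_def, ro, Complex.normSq_mk, Real.sqrt_eq_one]
  nlinarith [cend_s3]

theorem cend_ro0 : ro ≠ 0 := by
  intro h
  have := cend_ro
  rw [h, norm_zero] at this
  norm_num at this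

theorem cend_conj : conj om = ((3 / 8 : ℝ) : ℂ) - ((7 / 8 : ℝ) : ℂ) * ro := by
  apply Complex.ext
  · simp [om, ro]
    norm_num
  · simp [om, ro]
    ring

theorem cend_om : om = ((5 / 8 : ℝ) : ℂ) + ((7 / 8 : ℝ) : ℂ) * ro := by
  apply Complex.ext
  · simp [om, ro]
    norm_num
  · simp [om, ro]
    ring

theorem cend_nom : ‖om‖ = 1 := by
  rw [Complex.norm_def, om, Complex.normSq_mk, Real.sqrt_eq_one]
  nlinarith [cend_s3]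

theorem cend_nom1 : ‖1 - om‖ = 1 := by
  rw [Complex.norm_def, om, Real.sqrt_eq_one, Complex.normSq_apply]
  simp only [Complex.sub_re, Complex.one_re, Complex.sub_im, Complex.one_im]
  nlinarith [cend_s3]

theorem cend_nconj : ‖conj om‖ = 1 := by
  rw [Complex.norm_conj, cend_nom]

theorem cend_nconj1 : ‖1 - conj om‖ = 1 := by
  have : 1 - conj om = conj (1 - om) := by simp
  rw [this, Complex.norm_conj, cend_nom1]

theorem cend_ge_re {z : ℂ} {c : ℝ} (h : c ≤ z.re) : c ≤ ‖z‖ := h.trans (Complex.re_le_norm z)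

theorem cend_CB0 : CB 0 := by
  refine ⟨?_, ?_, ?_⟩ <;> simp

/-- scaled form of `l3` -/
theorem cend_l3s (hc : St_cone) {A B : ℂ} (hA : CA A) (hB : CB B) {c : ℝ} (c0 : 0 < c)
    (h : 109 / 100 * c ≤ ‖B‖) : c ≤ ‖A + ro * B‖ ∧ c ≤ ‖A - ro * B‖ := by
  have hi : 0 ≤ c⁻¹ := inv_nonneg.2 c0.le
  have h1 := hc.l3 ((c⁻¹ : ℝ) * A) ((c⁻¹ : ℝ) * B) (hc.sa _ _ hi hA) (hc.sb _ _ hi hB) (by
    rw [norm_mul, Complex.norm_real, Real.norm_eq_abs, abs_of_nonneg hi]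
    rw [inv_mul_eq_div, le_div_iff₀ c0]
    exact h)
  have e1 : ((c⁻¹ : ℝ) : ℂ) * A + ro * (((c⁻¹ : ℝ) : ℂ) * B) = ((c⁻¹ : ℝ) : ℂ) * (A + ro * B) := by
    ring
  have e2 : ((c⁻¹ : ℝ) : ℂ) * A - ro * (((c⁻¹ : ℝ) : ℂ) * B) = ((c⁻¹ : ℝ) : ℂ) * (A - ro * B) := by
    ring
  rw [e1, e2, norm_mul, norm_mul, Complex.norm_real, Real.norm_eq_abs, abs_of_nonneg hi,
    inv_mul_eq_div, inv_mul_eq_div, le_div_iff₀ c0, le_div_iff₀ c0, one_mul] at h1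
  exact h1

/-- far in the direction `ro` -/
theorem cend_far (hc : St_cone) {P B : ℂ} (hP : CB P ∨ CB (-P)) (hB : CB B) {c : ℝ} (c0 : 0 < c)
    (h : 109 / 100 * c ≤ B.re) : c ≤ ‖P + ro * B‖ ∧ c ≤ ‖P - ro * B‖ := by
  rcases hP with hP | hP
  · exact cend_l3s hc (hc.ba _ hP) hB c0 (cend_ge_re h)
  · have h1 := cend_l3s hc (hc.ba _ hP) hB c0 (cend_ge_re h)
    have e1 : -P + ro * B = -(P - ro * B) := by ring
    have e2 : -P - ro * B = -(P + ro * B) := by ring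
    rw [e1, e2, norm_neg, norm_neg] at h1
    exact ⟨h1.2, h1.1⟩

theorem cend_U (hif : St_if) {Λ : Lay} {u : ℕ → ℂ} (hU : Huv Λ u) {x y : ℝ} (h0 : 0 ≤ x)
    (hxy : x ≤ y) (hy : y ≤ 6 * Λ.nb) : CB (IF (fc Λ u) y - IF (fc Λ u) x) ∧
      49 / 50 * (y - x) ≤ (IF (fc Λ u) y - IF (fc Λ u) x).re := by
  refine hif.cb (fc Λ u) (6 * Λ.nb) ?_ x y h0 hxy (by push_cast; exact hy)
  intro m hm
  have := hU.cn (m / 6) (by omega)
  exact ⟨this.2, this.1⟩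

theorem cend_Upm (hif : St_if) {Λ : Lay} {u : ℕ → ℂ} (hU : Huv Λ u) {x y : ℝ} (h0 : 0 ≤ x)
    (hx : x ≤ 6 * Λ.nb) (h0' : 0 ≤ y) (hy : y ≤ 6 * Λ.nb) :
    CB (IF (fc Λ u) y - IF (fc Λ u) x) ∨ CB (-(IF (fc Λ u) y - IF (fc Λ u) x)) := by
  rcases le_total x y with h | h
  · exact Or.inl (cend_U hif hU h0 h hy).1
  · right
    rw [neg_sub]
    exact (cend_U hif hU h0' h hx).1

theorem cend_L (hif : St_if) {Λ : Lay} (hΛ : Λ.Ok) {u : ℕ → ℂ} (hC : Cmp Λ u) {x y : ℝ}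
    (h0 : 0 ≤ x) (hxy : x ≤ y) : CB (IF (fl Λ u) y - IF (fl Λ u) x) ∧
      49 / 50 * (y - x) ≤ (IF (fl Λ u) y - IF (fl Λ u) x).re := by
  obtain ⟨N, hN⟩ := exists_nat_ge y
  exact hif.cb (fl Λ u) N (fun m _ => ⟨hC.cone _ (hΛ.a _), hC.nrm _ (hΛ.a _)⟩) x y h0 hxy hN

theorem cend_R (hif : St_if) {Λ : Lay} (hΛ : Λ.Ok) {u : ℕ → ℂ} (hC : Cmp Λ u) {x y : ℝ}
    (h0 : 0 ≤ x) (hxy : x ≤ y) : CB (IF (fr Λ u) y - IF (fr Λ u) x) ∧
      49 / 50 * (y - x) ≤ (IF (fr Λ u) y - IF (fr Λ u) x).re := by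
  obtain ⟨N, hN⟩ := exists_nat_ge y
  exact hif.cb (fr Λ u) N (fun m _ => ⟨hC.cone _ (hΛ.b _), hC.nrm _ (hΛ.b _)⟩) x y h0 hxy hN

theorem cend_IF0 (hif : St_if) (f : ℕ → ℂ) : IF f 0 = 0 := by
  have := hif.nat f 0
  simpa using this

theorem cend_Uh (hif : St_if) (Λ : Lay) (u : ℕ → ℂ) (i : ℕ) : Uh Λ u i = IF (fc Λ u) i :=
  (hif.nat (fc Λ u) i).symm

theorem cend_VL (hif : St_if) (Λ : Lay) (u : ℕ → ℂ) (j : ℕ) : VL Λ u j = IF (fl Λ u) j :=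
  (hif.nat (fl Λ u) j).symm

theorem cend_VR (hif : St_if) (Λ : Lay) (u : ℕ → ℂ) (j : ℕ) : VR Λ u j = IF (fr Λ u) j :=
  (hif.nat (fr Λ u) j).symm

/-- the top -/
theorem cend_top {Λ : Lay} {u : ℕ → ℂ} (hU : Huv Λ u) (hS : Sep Λ u) :
    VR Λ u (7 * Λ.T) = VL Λ u (7 * Λ.T) := by
  have h1 : Dw Λ u (7 * Λ.T) = 0 := by
    rw [← hS.dj]
    push_cast
    exact hS.dT
  rw [hU.D] at h1
  rcases mul_eq_zero.1 h1 with h | h
  · exact absurd h cend_ro0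
  · exact sub_eq_zero.1 h

/-- the point `z` has the coordinates `(X, Y)` -/
structure CendAt (Λ : Lay) (u : ℕ → ℂ) (z : ℂ) (X Y : ℝ) : Prop where
  x0 : 0 ≤ X
  x1 : X ≤ 6 * Λ.nb
  y0 : 0 ≤ Y
  y1 : Y ≤ 7 * Λ.T
  eq : z = IF (fc Λ u) X + ro * IF (fl Λ u) Y ∨ z = IF (fc Λ u) X + ro * IF (fr Λ u) Y

theorem cend_W (hif : St_if) {Λ : Lay} (hΛ : Λ.Ok) {u : ℕ → ℂ} (hC : Cmp Λ u) (hU : Huv Λ u)
    (hS : Sep Λ u) {z : ℂ} {X Y : ℝ} (h : CendAt Λ u z X Y) :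
    ∃ W, z = IF (fc Λ u) X + ro * W ∧ CB W ∧ 49 / 50 * Y ≤ W.re ∧
      CB (VL Λ u (7 * Λ.T) - W) ∧ 49 / 50 * (7 * Λ.T - Y) ≤ (VL Λ u (7 * Λ.T) - W).re := by
  rcases h.eq with e | e
  · refine ⟨IF (fl Λ u) Y, e, ?_⟩
    have h1 := cend_L hif hΛ hC (le_refl 0) h.y0
    have h2 := cend_L hif hΛ hC h.y0 h.y1
    rw [cend_IF0 hif, sub_zero, sub_zero] at h1
    rw [cend_VL hif]
    push_cast
    exact ⟨h1.1, h1.2, h2.1, h2.2⟩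
  · refine ⟨IF (fr Λ u) Y, e, ?_⟩
    have h1 := cend_R hif hΛ hC (le_refl 0) h.y0
    have h2 := cend_R hif hΛ hC h.y0 h.y1
    rw [cend_IF0 hif, sub_zero, sub_zero] at h1
    rw [← cend_top hU hS, cend_VR hif]
    push_cast
    exact ⟨h1.1, h1.2, h2.1, h2.2⟩

theorem cend_prs {Λ : Lay} {i j : ℕ} (h : Λ.prs i j = true) : i ≤ 6 * Λ.nb ∧ j ≤ 7 * Λ.T := by
  unfold Lay.prs at h
  simp only [Bool.and_eq_true, decide_eq_true_eq] at h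
  exact ⟨h.1, h.2.1⟩

theorem cend_g (hif : St_if) {Λ : Lay} {u : ℕ → ℂ} {i j : ℕ} (hi : i ≤ 6 * Λ.nb)
    (hj : j ≤ 7 * Λ.T) : CendAt Λ u (gp Λ u i j) i j := by
  refine ⟨by positivity, by exact_mod_cast hi, by positivity, by exact_mod_cast hj, ?_⟩
  unfold gp
  split_ifs
  · left
    rw [cend_Uh hif, cend_VL hif]
  · right
    rw [cend_Uh hif, cend_VR hif]

theorem cend_off {m r : ℕ} (hm : m < 3) (h1 : 1 ≤ r) (h7 : r ≤ 7) :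
    (1 / 8 : ℝ) ≤ m + 5 * r / 8 - bs r ∧ (m + 5 * r / 8 - bs r : ℝ) ≤ 23 / 8 := by
  interval_cases m <;> interval_cases r <;> norm_num [bs]

theorem cend_sz {m r : ℕ} (hm : m < 3) (h1 : 1 ≤ r) (h7 : r ≤ 7) : m < sz r := by
  unfold sz
  rw [if_neg (by omega), if_neg (by omega)]
  exact hm

theorem cend_q {Λ : Lay} {u : ℕ → ℂ} (hS : Sep Λ u) {β t m r : ℕ} (h : Val Λ (.q β t m r)) :
    CendAt Λ u (ps Λ u (.q β t m r)) (6 * β + 1 + (m + 5 * r / 8 - bs r)) (7 * t + 7 * r / 8) := by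
  obtain ⟨hβ, ht, hp, hm, h1, h7⟩ := h
  have ho := cend_off hm h1 h7
  have hβ' : (β : ℝ) + 1 ≤ Λ.nb := by exact_mod_cast hβ
  have ht' : (t : ℝ) + 1 ≤ Λ.T := by exact_mod_cast ht
  have hr' : (r : ℝ) ≤ 7 := by exact_mod_cast h7
  refine ⟨by linarith [ho.1, Nat.cast_nonneg (α := ℝ) β], by linarith [ho.2], by positivity,
    by linarith, ?_⟩
  rcases le_total β Λ.n with h | h
  · left
    exact hS.ql β t m r hp h ht (cend_sz hm h1 h7) (by omega)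
  · right
    exact hS.qr β t m r hp h hβ ht (cend_sz hm h1 h7) (by omega)

end Pool.Agent.H670R4
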