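import Pool.Agent.H670R4.Sub

set_option autoImplicit false

namespace Pool.Agent.H670R4

open Pool.Agent.NPC Pool.Agent.NPC.ER Pool.Agent.H670R2
open scoped ComplexConjugate

theorem hol_Dw (Λ : Lay) (w : ℕ → ℂ) (t j : ℕ) (hj : j ≤ 7) :
    Dw Λ w (7 * t + j) = Dw Λ w (7 * t) + (j : ℂ) * (ro * (w (Λ.b t) - w (Λ.a t))) := by
  unfold Dw
  induction j with
  | zero => simp
  | succ j ih =>
    have h1 := ih (by omega)
    rw [show 7 * t + (j + 1) = (7 * t + j) + 1 by ring, Finset.sum_range_succ, mul_add, h1]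
    have h2 : (7 * t + j) / 7 = t := by omega
    rw [h2]
    push_cast
    ring

theorem hol_pat (Λ : Lay) (hΛ : Λ.Ok) (t : ℕ) (hk : Λ.k t ≠ 1) : Λ.pat t Λ.n = false := by
  unfold Lay.pat
  have h1 := hΛ.a t
  have h2 : ¬ (Λ.n = Λ.a t) := by omega
  have h3 : ¬ (Λ.n = Λ.n + 1 + Λ.b t) := by omega
  simp [h2, h3, hk]

theorem hol_prs (Λ : Lay) (hΛ : Λ.Ok) (t : ℕ) (ht : t < Λ.T) (hk : Λ.k t ≠ 1) (c : ℕ)
    (hc1 : 1 ≤ c) (hc : c ≤ 4) (h3 : c = 3 → Λ.cl t ≠ 1) : Λ.prs (6 * Λ.n + c) (7 * t + 1) = true := by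
  have hp := hol_pat Λ hΛ t hk
  have e1 : (7 * t + 1) / 7 = t := by omega
  have e2 : (6 * Λ.n + c) / 6 = Λ.n := by omega
  have e3 : (6 * Λ.n + c) ≤ 6 * Λ.nb := by unfold Lay.nb; omega
  have e4 : 7 * t + 1 ≤ 7 * Λ.T := by omega
  have e5 : (7 * t + 1) % 7 = 1 := by omega
  unfold Lay.prs
  rw [e1, e2, hp]
  have e6 : (decide (6 * Λ.n + c = 6 * Λ.n + 3) && Λ.ins 1 (7 * t + 1)) = false := by
    by_cases hc3 : c = 3
    · subst hc3
      unfold Lay.ins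
      rw [e5, e1]
      simp [h3 rfl]
    · have : decide (6 * Λ.n + c = 6 * Λ.n + 3) = false := by
        rw [decide_eq_false_iff_not]; omega
      rw [this, Bool.false_and]
  rw [e6]
  simp [e3, e4]

theorem hol_c23 (Λ : Lay) (p : Vt → ℂ) (w : ℕ → ℂ) (hw : Wd Λ p w) (t : ℕ)
    (ht : t ≤ Λ.T) (h : Λ.k t = 1 ∨ t = 0 ∨ Λ.cl (t - 1) = 0) :
    Gp p (6 * Λ.n + 3) (7 * t) - Gp p (6 * Λ.n + 2) (7 * t) = w Λ.n ∧
    Gp p (6 * Λ.n + 4) (7 * t) - Gp p (6 * Λ.n + 2) (7 * t) = 2 * w Λ.n := by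
  have hn : Λ.n < Λ.nb := by unfold Lay.nb; omega
  obtain ⟨h1, h2⟩ := hw.c23 Λ.n hn t ht (fun _ => h)
  refine ⟨h1, ?_⟩
  linear_combination h1 + h2

/-- both walls are straight in a level with `k ≠ 1` -/
theorem hol_lvl (Λ : Lay) (hΛ : Λ.Ok) (p : Vt → ℂ) (w : ℕ → ℂ) (hr : Rows Λ p w) (t : ℕ)
    (ht : t < Λ.T) (hk : Λ.k t ≠ 1) (j : ℕ) (hj : j ≤ 7) :
    Gp p (6 * Λ.n + 4) (7 * t + j) - Gp p (6 * Λ.n + 2) (7 * t + j) =
      Gp p (6 * Λ.n + 4) (7 * t) - Gp p (6 * Λ.n + 2) (7 * t) +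
        (Dw Λ w (7 * t + j) - Dw Λ w (7 * t)) := by
  have h1 := hr.left t ht (6 * Λ.n + 2) le_rfl
    (hol_prs Λ hΛ t ht hk 2 (by omega) (by omega) (by omega)) j hj
  have h2 := hr.right t ht (6 * Λ.n + 4) (by omega) (by unfold Lay.nb; omega)
    (hol_prs Λ hΛ t ht hk 4 (by omega) (by omega) (by omega)) j hj
  rw [h1, h2, hol_Dw Λ w t j hj]
  ring

theorem hol_cl1 (Λ : Lay) (t : ℕ) (hk : Λ.k t = 1) : Λ.cl t = 0 := by
  unfold Lay.cl
  rw [hk]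
  simp

theorem hol_P (Λ : Lay) (hΛ : Λ.Ok) (p : Vt → ℂ) (w : ℕ → ℂ) (hw : Wd Λ p w)
    (hr : Rows Λ p w) (t : ℕ) (ht : t ≤ Λ.T) :
    Gp p (6 * Λ.n + 4) (7 * t) - Gp p (6 * Λ.n + 2) (7 * t) = 2 * w Λ.n + Dw Λ w (7 * t) := by
  induction t with
  | zero =>
    rw [(hol_c23 Λ p w hw 0 ht (Or.inr (Or.inl rfl))).2]
    simp [Dw]
  | succ t ih =>
    have h0 := ih (by omega)
    by_cases hk : Λ.k t = 1
    · have hc := hol_cl1 Λ t hk
      have h1 := (hol_c23 Λ p w hw t (by omega) (Or.inl hk)).2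
      have h2 := (hol_c23 Λ p w hw (t + 1) ht (Or.inr (Or.inr (by simpa using hc)))).2
      have h3 := hol_Dw Λ w t 7 le_rfl
      rw [hΛ.eq t hc, sub_self, mul_zero, mul_zero, add_zero] at h3
      have e : 7 * (t + 1) = 7 * t + 7 := by ring
      rw [h2, e, h3]
      linear_combination h0 - h1
    · have h1 := hol_lvl Λ hΛ p w hr t (by omega) hk 7 le_rfl
      have e : 7 * (t + 1) = 7 * t + 7 := by ring
      rw [e, h1, h0]
      ring

theorem hol_Q (Λ : Lay) (hΛ : Λ.Ok) (p : Vt → ℂ) (w : ℕ → ℂ) (hw : Wd Λ p w)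
    (hr : Rows Λ p w) (t : ℕ) (ht : t < Λ.T) (hc : Λ.cl t = 2) :
    ∀ j ≤ 7, Gp p (6 * Λ.n + 3) (7 * t + j) - Gp p (6 * Λ.n + 2) (7 * t + j) =
      w Λ.n + Dw Λ w (7 * t + j) := by
  -- reduction to the lower end of the level
  have red : ∀ t, t < Λ.T → Λ.cl t = 2 →
      Gp p (6 * Λ.n + 3) (7 * t) - Gp p (6 * Λ.n + 2) (7 * t) = w Λ.n + Dw Λ w (7 * t) →
      ∀ j ≤ 7, Gp p (6 * Λ.n + 3) (7 * t + j) - Gp p (6 * Λ.n + 2) (7 * t + j) =
        w Λ.n + Dw Λ w (7 * t + j) := by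
    intro t ht hc h0 j hj
    have hk : Λ.k t ≠ 1 := by
      intro h
      rw [hol_cl1 Λ t h] at hc
      omega
    have h1 := hr.left t ht (6 * Λ.n + 2) le_rfl
      (hol_prs Λ hΛ t ht hk 2 (by omega) (by omega) (by omega)) j hj
    have h2 := hr.right t ht (6 * Λ.n + 3) (by omega) (by unfold Lay.nb; omega)
      (hol_prs Λ hΛ t ht hk 3 (by omega) (by omega) (by intro _; omega)) j hj
    rw [h1, h2, hol_Dw Λ w t j hj]
    linear_combination h0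
  refine red t ht hc ?_
  induction t with
  | zero =>
    rw [hΛ.st] at hc
    omega
  | succ t ih =>
    by_cases hc2 : Λ.cl t = 2
    · have h1 := red t (by omega) hc2 (ih (by omega) hc2) 7 le_rfl
      have e : 7 * (t + 1) = 7 * t + 7 := by ring
      rw [e]
      exact h1
    · by_cases hc0 : Λ.cl t = 0
      · have h1 := hol_c23 Λ p w hw (t + 1) ht.le (Or.inr (Or.inr (by simpa using hc0)))
        have h2 := hol_P Λ hΛ p w hw hr (t + 1) ht.le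
        rw [h1.1]
        linear_combination h2 - h1.2
      · have h1 := hΛ.dn t hc0 (by omega)
        rw [hol_cl1 Λ (t + 1) h1] at hc
        omega

theorem hol_ok : St_hol := by
  intro Λ hΛ p _ _ w hw hr
  refine ⟨?_, hol_Q Λ hΛ p w hw hr⟩
  intro j hj
  by_cases hjT : j = 7 * Λ.T
  · left
    rw [hjT]
    exact hol_P Λ hΛ p w hw hr Λ.T le_rfl
  · obtain ⟨t, s, hs, rfl⟩ : ∃ t s, s < 7 ∧ j = 7 * t + s := ⟨j / 7, j % 7, by omega, by omega⟩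
    have ht : t < Λ.T := by omega
    by_cases hk : Λ.k t = 1
    · by_cases hs0 : s = 0
      · subst hs0
        left
        exact hol_P Λ hΛ p w hw hr t ht.le
      · right
        exact ⟨t, ht, hk, by omega, by omega⟩
    · left
      rw [hol_lvl Λ hΛ p w hr t ht hk s (by omega), hol_P Λ hΛ p w hw hr t ht.le]
      ring

end Pool.Agent.H670R4
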